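import Pool.Agent.U153.Nv4

/-!
# N-vector models in two dimensions: iteration of the recursion
-/

set_option autoImplicit false
set_option linter.unusedSectionVars false
set_option linter.unusedVariables false

noncomputable section

namespace Pool.Agent.U153

open MvPolynomial MeasureTheory Pool.Agent.H5R2.ON Pool.Agent.H717R2.ON3 Pool.Agent.H983R2.ONJ
open Pool.Agent.H983R2.ONJ.Aux993 Pool.Agent.H983R2.ONJ.Aux348
open Pool.Agent.H983R2.ONJ.AuxFin269
open Pool.Agent.Y13.QM

theorem nv_g_diff (s T l : ℝ) (hs : 0 < s) (hl : 0 ≤ l) (hT : l ≤ T) (hT0 : 0 < T) :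
    min T (s * T ^ 2) - min (T - l) (s * (T - l) ^ 2) ≤ 2 * l * min 1 (s * T) := by
  rcases le_total (s * T) 1 with h | h
  · rw [min_eq_right h]
    have h1 : min T (s * T ^ 2) ≤ s * T ^ 2 := min_le_right _ _
    have h2 : min (T - l) (s * (T - l) ^ 2) = s * (T - l) ^ 2 := by
      refine min_eq_right ?_
      have h3 : s * (T - l) ≤ 1 := by nlinarith
      nlinarith
    rw [h2]
    nlinarith [mul_nonneg hs.le (sq_nonneg l)]
  · rw [min_eq_left h]
    have h1 : min T (s * T ^ 2) ≤ T := min_le_left _ _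
    have h2 : T - 2 * l ≤ min (T - l) (s * (T - l) ^ 2) := by
      refine le_min (by linarith) ?_
      have h3 : (T - 2 * l) * T ≤ s * (T - l) ^ 2 * T := by
        have h4 : (T - l) ^ 2 * 1 ≤ (T - l) ^ 2 * (s * T) :=
          mul_le_mul_of_nonneg_left h (sq_nonneg _)
        nlinarith [sq_nonneg l]
      exact le_of_mul_le_mul_right h3 hT0
    linarith

theorem nv_g_mono (s T T' : ℝ) (hs : 0 < s) (h0 : 0 ≤ T) (h : T ≤ T') :
    min T (s * T ^ 2) ≤ min T' (s * T' ^ 2) := by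
  refine min_le_min h (mul_le_mul_of_nonneg_left ?_ hs.le)
  exact pow_le_pow_left₀ h0 h 2

theorem nv_exp1 (z : ℝ) (h0 : 0 ≤ z) (h1 : z ≤ 1) : 1 ≤ (1 + z) * Real.exp (-(z / 2)) := by
  have h2 := Real.add_one_le_exp (-(z / 2))
  nlinarith

theorem nv_exp2 (w : ℝ) (h0 : 0 ≤ w) (h1 : w ≤ 1) : Real.exp (-w) ≤ 1 - w / 2 := by
  have h2 := Real.add_one_le_exp w
  have h3 : Real.exp (-w) * Real.exp w = 1 := by rw [← Real.exp_add, neg_add_cancel, Real.exp_zero]
  have h4 := Real.exp_pos (-w)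
  nlinarith

/-- The factor of one step. -/
theorem nv_factor (C₅ A T : ℝ) (N : ℕ) (hC₅ : 1 ≤ C₅) (hT : 0 < T) (hN : 3 ≤ N) :
    √((C₅ * (1 + A ^ 2) / T) / ((C₅ * (1 + A ^ 2) / T) + (N - 1))) ≤
      Real.exp (-(2 / (3 * C₅) * min 1 (N / (1 + A ^ 2) * T) / 4)) := by
  have hNr : (3 : ℝ) ≤ N := by exact_mod_cast hN
  obtain ⟨z, hz⟩ : ∃ z : ℝ, z = 2 / (3 * C₅) * min 1 (N / (1 + A ^ 2) * T) := ⟨_, rfl⟩
  rw [← hz]
  have hA : 0 < 1 + A ^ 2 := by positivity
  have hmin0 : 0 ≤ min 1 (N / (1 + A ^ 2) * T) := le_min zero_le_one (by positivity)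
  have hκ : 2 / (3 * C₅) ≤ 1 := by
    rw [div_le_one (by positivity)]
    linarith
  have hz0 : 0 ≤ z := by rw [hz]; positivity
  have hz1 : z ≤ 1 := by
    rw [hz]
    have h1 : min 1 (N / (1 + A ^ 2) * T) ≤ 1 := min_le_left _ _
    exact mul_le_one₀ hκ hmin0 h1
  obtain ⟨V, hV⟩ : ∃ V : ℝ, V = C₅ * (1 + A ^ 2) / T := ⟨_, rfl⟩
  rw [← hV]
  have hV0 : 0 < V := by rw [hV]; positivity
  have hzV : z * V ≤ N - 1 := by
    have h1 : z ≤ 2 / (3 * C₅) * (N / (1 + A ^ 2) * T) := by
      rw [hz]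
      exact mul_le_mul_of_nonneg_left (min_le_right _ _) (by positivity)
    have h2 : z * V ≤ 2 / (3 * C₅) * (N / (1 + A ^ 2) * T) * V :=
      mul_le_mul_of_nonneg_right h1 hV0.le
    have h3 : 2 / (3 * C₅) * (N / (1 + A ^ 2) * T) * V = 2 * N / 3 := by
      rw [hV]
      field_simp
    linarith
  refine Real.sqrt_le_iff.2 ⟨(Real.exp_pos _).le, ?_⟩
  have h4 : Real.exp (-(z / 4)) ^ 2 = Real.exp (-(z / 2)) := by
    rw [← Real.exp_nat_mul]
    congr 1
    push_cast
    ring
  rw [h4, div_le_iff₀ (by linarith)]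
  have h5 := nv_exp1 z hz0 hz1
  have h6 := Real.exp_pos (-(z / 2))
  have h7 : V * 1 ≤ V * ((1 + z) * Real.exp (-(z / 2))) := mul_le_mul_of_nonneg_left h5 hV0.le
  have h8 : Real.exp (-(z / 2)) * (z * V) ≤ Real.exp (-(z / 2)) * (N - 1) :=
    mul_le_mul_of_nonneg_left hzV h6.le
  nlinarith

/-- The iteration. -/
theorem nv_iter (a : ℝ) (ha : 0 < a) : ∃ γ C₇ : ℝ, 0 < γ ∧ 1 ≤ C₇ ∧ ∀ A : ℝ, 0 ≤ A →
    ∀ N : ℕ, 3 ≤ N → ∀ R : ℝ, 1 ≤ R →
      MBJ N A a R (Real.exp (-(γ * (min (Real.log R) (N / (1 + A ^ 2) * Real.log R ^ 2) -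
        min (C₇ * ((1 + A) * Real.log (2 + A)))
          (N / (1 + A ^ 2) * (C₇ * ((1 + A) * Real.log (2 + A))) ^ 2))))) := by
  obtain ⟨C₅, C₆, hC₅, hC₆, hstep⟩ := nv_step a ha
  obtain ⟨κ, hκ⟩ : ∃ κ : ℝ, κ = 2 / (3 * C₅) := ⟨_, rfl⟩
  have hκ0 : 0 < κ := by rw [hκ]; positivity
  have hκ1 : κ ≤ 1 := by
    rw [hκ, div_le_one (by positivity)]
    linarith
  have hκ8 : 0 < 8 / κ := by positivity
  refine ⟨κ / 40, C₆ + 16 / κ + 6, by positivity, by
    have : 0 < 16 / κ := by positivity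
    linarith, ?_⟩
  intro A hA N hN
  have hNr : (3 : ℝ) ≤ N := by exact_mod_cast hN
  have hA1 : 0 < 1 + A ^ 2 := by positivity
  obtain ⟨s, hs⟩ : ∃ s : ℝ, s = N / (1 + A ^ 2) := ⟨_, rfl⟩
  have hs0 : 0 < s := by rw [hs]; positivity
  have hl2 : 0.69 < Real.log 2 := by have := Real.log_two_gt_d9; linarith
  have hl : Real.log 2 ≤ Real.log (2 + A) := Real.log_le_log (by norm_num) (by linarith)
  obtain ⟨Y, hY⟩ : ∃ Y : ℝ, Y = (1 + A) * Real.log (2 + A) := ⟨_, rfl⟩
  have hY1 : 0.69 ≤ Y := by rw [hY]; nlinarith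
  have hY2 : Real.log (2 + A) ≤ Y := by rw [hY]; nlinarith
  obtain ⟨T₀, hT₀⟩ : ∃ T₀ : ℝ, T₀ = (C₆ + 16 / κ + 6) * Y := ⟨_, rfl⟩
  rw [← hs, ← hY, ← hT₀]
  have hT4 : 4 ≤ T₀ := by
    rw [hT₀]
    have : 0 ≤ (C₆ + 16 / κ) * Y := by positivity
    nlinarith
  have hTκ : 8 / κ ≤ T₀ := by
    rw [hT₀]
    have h1 : 0 ≤ (C₆ + 6) * Y := by positivity
    have h2 : 16 / κ = 2 * (8 / κ) := by ring
    have h3 : 2 * (8 / κ) * 0.69 ≤ 2 * (8 / κ) * Y :=
      mul_le_mul_of_nonneg_left hY1 (by positivity)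
    rw [h2]
    nlinarith
  have hTC₆ : C₆ * Y ≤ T₀ := by
    rw [hT₀]
    have : 0 ≤ (16 / κ + 6) * Y := by positivity
    nlinarith
  have hT2A : 2 * Real.log (2 + A) ≤ T₀ := by
    rw [hT₀]
    have : 0 ≤ (C₆ + 16 / κ) * Y := by positivity
    nlinarith
  obtain ⟨g₀, hg₀⟩ : ∃ g₀ : ℝ, g₀ = min T₀ (s * T₀ ^ 2) := ⟨_, rfl⟩
  rw [← hg₀]
  have hg₀0 : 0 ≤ g₀ := by rw [hg₀]; exact le_min (by linarith) (by positivity)
  have hbase : ∀ R : ℝ, 1 ≤ R → Real.log R ≤ T₀ →
      MBJ N A a R (Real.exp (-(κ / 40 * (min (Real.log R) (s * Real.log R ^ 2) - g₀)))) := by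
    intro R hR hRT
    refine st_MBJ_mono (st_MBJ_one N hN A a R) (Real.one_le_exp ?_)
    have h1 := nv_g_mono s (Real.log R) T₀ hs0 (Real.log_nonneg hR) hRT
    rw [← hg₀] at h1
    nlinarith
  have hl10 : Real.log 10 ≤ 2.5 := by
    have h3 : Real.log 10 ≤ Real.log (2 * 5.6) := Real.log_le_log (by norm_num) (by norm_num)
    have h4 : Real.log (10 : ℝ) * 2 ≤ 5 := by
      have h5 : Real.log (10 : ℝ) * 3 = Real.log 1000 := by
        have : (1000 : ℝ) = 10 ^ 3 := by norm_num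
        rw [this, Real.log_pow]; push_cast; ring
      have h6 : Real.log 1000 ≤ Real.log 1024 := Real.log_le_log (by norm_num) (by norm_num)
      have h7 : Real.log 1024 = 10 * Real.log 2 := by
        have : (1024 : ℝ) = 2 ^ 10 := by norm_num
        rw [this, Real.log_pow]; push_cast; ring
      have h8 : Real.log 2 < 0.6932 := by have := Real.log_two_lt_d9; linarith
      linarith
    linarith
  have hl10' : 0 ≤ Real.log 10 := Real.log_nonneg (by norm_num)
  have hP : ∀ (k : ℕ) (R : ℝ), 1 ≤ R → R ≤ Real.exp T₀ * 10 ^ k →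
      MBJ N A a R (Real.exp (-(κ / 40 * (min (Real.log R) (s * Real.log R ^ 2) - g₀)))) := by
    intro k
    induction k with
    | zero =>
      intro R hR hR2
      rw [pow_zero, mul_one] at hR2
      refine hbase R hR ?_
      have := Real.log_le_log (by linarith) hR2
      rwa [Real.log_exp] at this
    | succ k ih =>
      intro R hR hR2
      by_cases h : Real.log R ≤ T₀
      · exact hbase R hR h
      · push Not at h
        have hRpos : 0 < R := by linarith
        obtain ⟨T, hT⟩ : ∃ T : ℝ, T = Real.log R := ⟨_, rfl⟩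
        rw [← hT] at h ⊢
        have hT0 : 0 < T := by linarith
        have hR10 : 1 ≤ R / 10 := by
          have h1 := Real.add_one_le_exp (T - 1)
          have h2 : R = Real.exp 1 * Real.exp (T - 1) := by
            rw [← Real.exp_add, hT]
            have : 1 + (Real.log R - 1) = Real.log R := by ring
            rw [this, Real.exp_log hRpos]
          have h3 : Real.log 10 ≤ T := by linarith
          have h4 : (10 : ℝ) ≤ R := by
            rw [← Real.log_le_log_iff (by norm_num) hRpos, ← hT]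
            exact h3
          linarith
        have hlogR : Real.log (R / 10) = T - Real.log 10 := by
          rw [Real.log_div hRpos.ne' (by norm_num), ← hT]
        have h1 := ih (R / 10) hR10 (by
          rw [pow_succ] at hR2
          linarith)
        rw [hlogR] at h1
        obtain ⟨g₁, hg₁⟩ : ∃ g₁ : ℝ, g₁ = min (T - Real.log 10) (s * (T - Real.log 10) ^ 2) :=
          ⟨_, rfl⟩
        obtain ⟨g, hg⟩ : ∃ g : ℝ, g = min T (s * T ^ 2) := ⟨_, rfl⟩
        obtain ⟨y, hy⟩ : ∃ y : ℝ, y = min 1 (s * T) := ⟨_, rfl⟩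
        have hy0 : 0 ≤ y := by rw [hy]; exact le_min zero_le_one (by positivity)
        have hy1 : y ≤ 1 := by rw [hy]; exact min_le_left _ _
        rw [← hg₁] at h1
        rw [← hg]
        have hdiff : g - g₁ ≤ 5 * y := by
          have h2 := nv_g_diff s T (Real.log 10) hs0 hl10' (by linarith) hT0
          rw [← hg₁, ← hg, ← hy] at h2
          nlinarith
        have h2 := hstep A hA N hN R hRpos (by rw [← hY, ← hT]; linarith) _
          (Real.exp_pos _).le h1
        refine st_MBJ_mono h2 ?_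
        have hfac := nv_factor C₅ A T N hC₅ hT0 hN
        rw [← hs, ← hy, ← hκ] at hfac
        rw [← hT]
        obtain ⟨F, hF⟩ : ∃ F : ℝ, F = Real.exp (-(κ / 40 * (g - g₀))) := ⟨_, rfl⟩
        obtain ⟨w, hw⟩ : ∃ w : ℝ, w = κ * y / 8 := ⟨_, rfl⟩
        have hw0 : 0 ≤ w := by rw [hw]; positivity
        have hw1 : w ≤ 1 := by rw [hw]; nlinarith
        rw [← hF]
        have hF0 : 0 < F := by rw [hF]; exact Real.exp_pos _
        have h3 : Real.exp (-(κ / 40 * (g₁ - g₀))) *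
            √(C₅ * (1 + A ^ 2) / T / (C₅ * (1 + A ^ 2) / T + (N - 1))) ≤ F * Real.exp (-w) := by
          refine (mul_le_mul_of_nonneg_left hfac (Real.exp_pos _).le).trans ?_
          rw [hF, ← Real.exp_add, ← Real.exp_add]
          refine Real.exp_le_exp.2 ?_
          rw [hw]
          nlinarith
        have h4 := nv_exp2 w hw0 hw1
        have h5 : F * Real.exp (-w) ≤ F * (1 - w / 2) := mul_le_mul_of_nonneg_left h4 hF0.le
        have h6 : (9 / 10) / R ^ 4 ≤ F * (w / 2) := by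
          have e1 : R = Real.exp T := by rw [hT, Real.exp_log hRpos]
          have e2 : Real.exp (-T) ≤ F := by
            rw [hF]
            refine Real.exp_le_exp.2 ?_
            have e3 : g ≤ T := by rw [hg]; exact min_le_left _ _
            have e4 : κ / 40 * (g - g₀) ≤ κ / 40 * T :=
              mul_le_mul_of_nonneg_left (by linarith) (by positivity)
            have e5 : κ / 40 * T ≤ 1 * T := mul_le_mul_of_nonneg_right (by linarith) hT0.le
            linarith
          have e3 : Real.exp (-T) ≤ y := by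
            rw [hy]
            refine le_min (Real.exp_le_one_iff.2 (by linarith)) ?_
            have e4 : 1 + A ^ 2 ≤ Real.exp T := by
              have e5 : Real.exp (2 * Real.log (2 + A)) ≤ Real.exp T :=
                Real.exp_le_exp.2 (by linarith)
              have e6 : Real.exp (2 * Real.log (2 + A)) = (2 + A) ^ 2 := by
                rw [mul_comm, Real.exp_mul, Real.exp_log (by linarith)]
                norm_cast
              rw [e6] at e5
              nlinarith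
            have e7 : Real.exp (-T) * (1 + A ^ 2) ≤ 1 := by
              have e8 : Real.exp (-T) * Real.exp T = 1 := by
                rw [← Real.exp_add, neg_add_cancel, Real.exp_zero]
              have e9 := mul_le_mul_of_nonneg_left e4 (Real.exp_pos (-T)).le
              linarith
            rw [hs, div_mul_eq_mul_div, le_div_iff₀ hA1]
            nlinarith
          have e4 : κ / 16 * (Real.exp (-T) * Real.exp (-T)) ≤ F * (w / 2) := by
            have e5 : Real.exp (-T) * Real.exp (-T) ≤ F * y :=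
              mul_le_mul e2 e3 (Real.exp_pos _).le hF0.le
            have e6 := mul_le_mul_of_nonneg_left e5 (show 0 ≤ κ / 16 by positivity)
            rw [hw]
            linarith
          refine le_trans ?_ e4
          rw [div_le_iff₀ (by positivity), e1]
          have e7 : Real.exp (-T) * Real.exp (-T) * Real.exp T ^ 4 = Real.exp (2 * T) := by
            rw [← Real.exp_nat_mul, ← Real.exp_add, ← Real.exp_add]
            congr 1
            push_cast
            ring
          have e8 : κ / 16 * (Real.exp (-T) * Real.exp (-T)) * Real.exp T ^ 4 =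
              κ / 16 * Real.exp (2 * T) := by
            rw [← e7]; ring
          rw [e8]
          have e9 := Real.add_one_le_exp (2 * T)
          have e10 : 16 / κ ≤ Real.exp (2 * T) := by
            have : 16 / κ = 2 * (8 / κ) := by ring
            linarith
          rw [div_le_iff₀ hκ0] at e10
          linarith
        nlinarith
  intro R hR
  obtain ⟨k, hk⟩ : ∃ k : ℕ, R < Real.exp T₀ * 10 ^ k := by
    obtain ⟨k, hk⟩ := pow_unbounded_of_one_lt (R / Real.exp T₀) (by norm_num : (1 : ℝ) < 10)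
    refine ⟨k, ?_⟩
    rw [div_lt_iff₀ (Real.exp_pos _)] at hk
    linarith
  exact hP k R hR hk.le

/-- The influence of the boundary. -/
theorem nv_infl (a : ℝ) (ha : 0 < a) : ∃ γ C : ℝ, 0 < γ ∧ 1 ≤ C ∧ ∀ A : ℝ, 0 ≤ A →
    ∀ N : ℕ, 3 ≤ N → ∀ R : ℝ, 0 < R → C * ((1 + A) * Real.log (2 + A)) ≤ Real.log R →
      MBJ N A a R (Real.exp (-(γ * min (Real.log R) (N / (1 + A ^ 2) * Real.log R ^ 2)))) := by
  obtain ⟨γ, C₇, hγ, hC₇, hiter⟩ := nv_iter a ha
  refine ⟨γ / 2, 2 * C₇, by positivity, by linarith, ?_⟩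
  intro A hA N hN R hR hRT
  have hNr : (3 : ℝ) ≤ N := by exact_mod_cast hN
  have hl2 : 0.69 < Real.log 2 := by have := Real.log_two_gt_d9; linarith
  have hl : Real.log 2 ≤ Real.log (2 + A) := Real.log_le_log (by norm_num) (by linarith)
  have hl0 : 0 < Real.log (2 + A) := by linarith
  obtain ⟨T₀, hT₀⟩ : ∃ T₀ : ℝ, T₀ = C₇ * ((1 + A) * Real.log (2 + A)) := ⟨_, rfl⟩
  have hT₀0 : 0 < T₀ := by rw [hT₀]; positivity
  have hT : 2 * T₀ ≤ Real.log R := by rw [hT₀]; linarith
  have hR1 : 1 ≤ R := by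
    rw [← Real.log_le_log_iff one_pos hR, Real.log_one]
    linarith
  have h := hiter A hA N hN R hR1
  rw [← hT₀] at h
  refine st_MBJ_mono h (Real.exp_le_exp.2 ?_)
  obtain ⟨s, hs⟩ : ∃ s : ℝ, s = N / (1 + A ^ 2) := ⟨_, rfl⟩
  have hs0 : 0 < s := by rw [hs]; positivity
  rw [← hs]
  obtain ⟨T, hT'⟩ : ∃ T : ℝ, T = Real.log R := ⟨_, rfl⟩
  rw [← hT'] at hT ⊢
  have h1 : 2 * min T₀ (s * T₀ ^ 2) ≤ min T (s * T ^ 2) := by
    refine le_min ?_ ?_
    · have := min_le_left T₀ (s * T₀ ^ 2)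
      linarith
    · have h2 := min_le_right T₀ (s * T₀ ^ 2)
      have h3 : (2 * T₀) ^ 2 ≤ T ^ 2 := pow_le_pow_left₀ (by linarith) hT 2
      have h4 := mul_le_mul_of_nonneg_left h3 hs0.le
      nlinarith [mul_nonneg hs0.le (sq_nonneg T₀)]
  nlinarith

/-- The square of the length of a spin. -/
theorem nv_one {N : ℕ} (s : Sph N) : ∑ j, cc j s ^ 2 = 1 := by
  have h1 : ‖(s : EuclideanSpace ℝ (Fin N))‖ = 1 := mem_sphere_zero_iff_norm.1 s.2
  have h2 := EuclideanSpace.norm_sq_eq (s : EuclideanSpace ℝ (Fin N))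
  rw [h1, one_pow] at h2
  rw [h2]
  refine Finset.sum_congr rfl fun j _ => ?_
  rw [Real.norm_eq_abs, sq_abs]
  rfl

/-- The two point function is at most the influence of the boundary. -/
theorem nv_two {N L : ℕ} [NeZero L] (hN : N ≠ 0) (c : Tor L × Tor L → ℝ) (x y : Tor L)
    (R m : ℝ) (hR : R < tnorm (y - x)) (hm : ∀ (η : Conf N L) (i : Fin N),
      |gH (pS c) (ball x R) η (fun S => cc i (S x))| ≤ m) :
    |corS (N := N) c x y| ≤ m := by
  classical
  have hHc : Continuous (pS c : Conf N L → ℝ) := continuous_pS c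
  have hy : y ∉ ball x R := by
    rw [mem_ball]
    exact not_le.2 hR
  have i₀ : Fin N := ⟨0, Nat.pos_of_ne_zero hN⟩
  obtain ⟨u⟩ : Nonempty (Sph N) := by
    refine ⟨⟨EuclideanSpace.single i₀ 1, ?_⟩⟩
    simp
  obtain ⟨η, hη⟩ : ∃ η : Conf N L, η = fun _ => u := ⟨_, rfl⟩
  obtain ⟨Φ, hΦ⟩ : ∃ Φ : Conf N L → ℝ, Φ = fun S =>
    inner ℝ (S x : EuclideanSpace ℝ (Fin N)) (S y : EuclideanSpace ℝ (Fin N)) := ⟨_, rfl⟩
  have hΦc : Continuous Φ := by
    rw [hΦ]
    exact Continuous.inner (continuous_subtype_val.comp (continuous_apply x))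
      (continuous_subtype_val.comp (continuous_apply y))
  have hspl : ∀ S : Conf N L, splice Finset.univ S η = S := by
    intro S; funext z; simp [splice]
  have hcor : corS (N := N) c x y = gH (pS c) Finset.univ η Φ := by
    unfold corS gH
    simp only [hspl, hΦ]
  have hin : ∀ s t : Sph N, inner ℝ (s : EuclideanSpace ℝ (Fin N)) (t : EuclideanSpace ℝ (Fin N)) =
      ∑ b, cc b t * cc b s := by
    intro s t
    rw [PiLp.inner_apply]
    refine Finset.sum_congr rfl fun b _ => ?_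
    simp only [RCLike.inner_apply, conj_trivial, cc]
  have hm0 : 0 ≤ m := (abs_nonneg _).trans (hm η i₀)
  have h := nv_tower hN hHc (Finset.subset_univ (ball x R)) η hΦc
    (continuous_const : Continuous fun _ : Conf N L => m) (fun _ _ _ => rfl) (by
      intro η'
      have h1 : gH (pS c) (ball x R) η' Φ =
          gH (pS c) (ball x R) η' (fun S => ∑ b, cc b (η' y) * cc b (S x)) := by
        unfold gH
        congr 1
        refine integral_congr_ae (Filter.Eventually.of_forall fun S => ?_)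
        simp only [hΦ, hin]
        have h2 : splice (ball x R) S η' y = η' y := by simp [splice, hy]
        rw [h2]
      rw [h1]
      have h3 := nv_vec hN hHc (fun f S => pS_inv c f S) (ball x R) x m i₀
        (fun η'' => hm η'' i₀) η' (fun b => cc b (η' y))
      rwa [nv_one, Real.sqrt_one, mul_one] at h3)
  rw [gH_const hN hHc] at h
  rw [hcor]
  exact h

/-- **The two point function on the tori.** -/
theorem nv_corS (a : ℝ) (ha : 0 < a) : ∃ γ C : ℝ, 0 < γ ∧ 1 ≤ C ∧ ∀ A : ℝ, 0 ≤ A →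
    ∀ N : ℕ, 3 ≤ N → ∀ (L : ℕ) [NeZero L] (c : Tor L × Tor L → ℝ), ExpC A a c →
      ∀ (x y : Tor L), 0 < tnorm (x - y) →
      C * ((1 + A) * Real.log (2 + A)) ≤ Real.log (tnorm (x - y)) →
      |corS (N := N) c x y| ≤ Real.exp (-(γ * min (Real.log (tnorm (x - y)))
        (N / (1 + A ^ 2) * Real.log (tnorm (x - y)) ^ 2))) := by
  obtain ⟨γ, C, hγ, hC, hinf⟩ := nv_infl a ha
  refine ⟨γ / 4, 2 * C + 5, by positivity, by linarith, ?_⟩
  intro A hA N hN L _ c hc x y hxy hT
  have hN0 : N ≠ 0 := by omega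
  have hNr : (3 : ℝ) ≤ N := by exact_mod_cast hN
  have hl2 : 0.69 < Real.log 2 := by have := Real.log_two_gt_d9; linarith
  have hl2' : Real.log 2 < 0.6932 := by have := Real.log_two_lt_d9; linarith
  have hl : Real.log 2 ≤ Real.log (2 + A) := Real.log_le_log (by norm_num) (by linarith)
  obtain ⟨Y, hY⟩ : ∃ Y : ℝ, Y = (1 + A) * Real.log (2 + A) := ⟨_, rfl⟩
  have hY1 : 0.69 ≤ Y := by rw [hY]; nlinarith
  rw [← hY] at hT
  obtain ⟨r, hr⟩ : ∃ r : ℝ, r = tnorm (x - y) := ⟨_, rfl⟩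
  rw [← hr] at hxy hT ⊢
  obtain ⟨T, hTe⟩ : ∃ T : ℝ, T = Real.log r := ⟨_, rfl⟩
  rw [← hTe] at hT ⊢
  have hlog4 : Real.log 4 = 2 * Real.log 2 := by
    have : (4 : ℝ) = 2 ^ 2 := by norm_num
    rw [this, Real.log_pow]; push_cast; ring
  have hlogR : Real.log (r / 4) = T - 2 * Real.log 2 := by
    rw [Real.log_div hxy.ne' (by norm_num), hlog4, hTe]
  have hCY : 0 ≤ C * Y := by positivity
  have hT3 : 3.4 ≤ T := by nlinarith
  have hR2 : T / 2 ≤ Real.log (r / 4) := by rw [hlogR]; linarith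
  have h1 := hinf A hA N hN (r / 4) (by positivity) (by rw [← hY]; linarith)
  have hrL : r ≤ L := by rw [hr]; exact tnorm_le_L _
  have hL0 : (0 : ℝ) < L := by linarith
  have h2 := nv_two hN0 c x y (r / 4) _ (by rw [tnorm_sub_comm, ← hr]; linarith)
    (fun η i => h1 L (by linarith) c hc x η i)
  refine h2.trans (Real.exp_le_exp.2 ?_)
  obtain ⟨s, hs⟩ : ∃ s : ℝ, s = N / (1 + A ^ 2) := ⟨_, rfl⟩
  have hs0 : 0 < s := by rw [hs]; positivity
  rw [← hs]
  have h3 := nv_g_mono s (T / 2) (Real.log (r / 4)) hs0 (by linarith) hR2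
  have h4 : min T (s * T ^ 2) / 4 ≤ min (T / 2) (s * (T / 2) ^ 2) := by
    refine le_min ?_ ?_
    · have := min_le_left T (s * T ^ 2)
      linarith
    · have := min_le_right T (s * T ^ 2)
      nlinarith
  have h5 := mul_le_mul_of_nonneg_left (h4.trans h3) hγ.le
  linarith

end Pool.Agent.U153
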