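import Pool.Agent.U153.BlEnv
import Pool.Agent.U153.BlPar
import Pool.Agent.Q292.LC.FinT
import Pool.Agent.Q154.LC.Gdm

/-!
# Short cycles: circuits
-/

set_option autoImplicit false
set_option linter.unusedSectionVars false
set_option linter.unusedVariables false

namespace Pool.Agent.U153

open Finset Equiv Matrix Q292.LC Filter Topology
open Pool.Agent.Q68.LC (DS DS_one DS_mul DS_TT)

/-- arithmetic of the upper bound -/
theorem cir_up {S N p α b C X Y F e A₁ A₂ t η : ℝ} (hN : 0 < N) (hS : S ≤ N * p + α + b * S)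
    (hα : α = N * F + N * (A₁ * Y + A₂ * X * t)) (hp : p ≤ C * (1 / N)) (hY : 1 / N ≤ Y)
    (hC : 0 ≤ C) (hb : 0 ≤ b) (hbS : b * (S / N) ≤ e * X + Y) :
    S / N ≤ F + (e + A₂ * t) * X + (C + A₁ + 1) * Y := by
  have h1 : S / N ≤ p + (F + (A₁ * Y + A₂ * X * t)) + b * (S / N) := by
    rw [div_le_iff₀ hN]
    have h2 : (p + (F + (A₁ * Y + A₂ * X * t)) + b * (S / N)) * N =
        N * p + (N * F + N * (A₁ * Y + A₂ * X * t)) + b * S := by
      field_simp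
    rw [h2, ← hα]
    exact hS
  have h3 : C * (1 / N) ≤ C * Y := mul_le_mul_of_nonneg_left hY hC
  have h4 : (e + A₂ * t) * X + (C + A₁ + 1) * Y = e * X + A₂ * X * t + C * Y + A₁ * Y + Y := by ring
  linarith

/-- arithmetic of the lower bound -/
theorem cir_low {S N p α b C X Y F e : ℝ} (hN : 0 < N) (hS : α ≤ α * p + (1 + b) * S)
    (hα : α = N * F) (hp : p ≤ C * (1 / N)) (hF0 : 0 ≤ F) (hFp : F * (C * (1 / N)) ≤ e / 2 * X)
    (hbS : b * (S / N) ≤ e / 2 * (X + Y)) (hY : 0 ≤ Y) (he : 0 ≤ e) :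
    F ≤ S / N + e * (X + Y) := by
  have h1 : F ≤ F * p + S / N + b * (S / N) := by
    have h2 : N * F ≤ N * (F * p + S / N + b * (S / N)) := by
      have h3 : N * (F * p + S / N + b * (S / N)) = N * F * p + (1 + b) * S := by
        field_simp
        ring
      rw [h3, ← hα]
      exact hS
    exact le_of_mul_le_mul_left h2 hN
  have h2 : F * p ≤ F * (C * (1 / N)) := mul_le_mul_of_nonneg_left hp hF0
  have h3 : 0 ≤ e / 2 * Y := by positivity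
  have h4 : e * (X + Y) = e / 2 * X + e / 2 * (X + Y) + e / 2 * Y := by ring
  linarith

theorem bl_cir (d : ℕ) (hd : 3 ≤ d) : ∃ (C₀ : ℝ) (m : ℕ), 1 ≤ C₀ ∧ ∀ (k₀ : ℕ) (ε : ℝ), 0 < ε →
    ∃ K₀ : ℕ, ∀ (L K : ℕ) [NeZero L] (w : ℝ), K₀ ≤ K → K ≤ L ^ 2 → (Real.log L) ^ m ≤ K →
    0 ≤ w → w < 1 → 1 / ((L : ℝ) ^ d * (1 - w)) ≤ 2 / K →
    ∃ q₀ : ℕ, ∀ q ≥ q₀, ∀ σ : ℕ → (Fin d → ZMod L) × Fin d, Per σ → ∀ δ : ℝ,
    1 ≤ δ * q → δ * q ≤ 2 →
    (∑ x, EE (K * (q * ms d L)) δ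
        (fun ω => w ^ (cyc (gp (ed ∘ σ) ω (K * (q * ms d L))) x).card)) / (L : ℝ) ^ d ≤
      (∑ x, fS w k₀ (PP (ed ∘ σ) δ (K * (q * ms d L))) x) / (L : ℝ) ^ d +
        (ε + C₀ * tl d k₀) * (K : ℝ) ^ (-(d / 2 : ℝ)) + C₀ * (1 / ((L : ℝ) ^ d * (1 - w))) ∧
    (∑ x, fS w k₀ (PP (ed ∘ σ) δ (K * (q * ms d L))) x) / (L : ℝ) ^ d ≤
      (∑ x, EE (K * (q * ms d L)) δ
        (fun ω => w ^ (cyc (gp (ed ∘ σ) ω (K * (q * ms d L))) x).card)) / (L : ℝ) ^ d +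
      ε * ((K : ℝ) ^ (-(d / 2 : ℝ)) + 1 / ((L : ℝ) ^ d * (1 - w))) := by
  obtain ⟨Ce, me, Cs, hCe, hCs, henv⟩ := bl_env d hd
  obtain ⟨C₁, m₁, hC₁, hbtl⟩ := all_btl d hd
  obtain ⟨Ct, mt, hCt, htlc⟩ := Pool.Agent.Q297.LC.tlc all_btl Pool.Agent.Q277.LC.peb d hd
  obtain ⟨m, hpar⟩ := bl_par d hd C₁ (m₁ + me) hC₁ (Ce + 2) 4
  refine ⟨5 * C₁ + 1 + Ce + 1 + Cs, m + mt, ?_, ?_⟩
  · have : (0 : ℝ) ≤ C₁ := Nat.cast_nonneg _
    have : (0 : ℝ) ≤ Ce := Nat.cast_nonneg _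
    linarith
  intro k₀ ε hε
  -- constants
  obtain ⟨η, hη⟩ : ∃ η : ℝ, η = min ε 1 / (2 * Ct) := ⟨_, rfl⟩
  have hCt0 : 0 < Ct := by linarith
  have hη0 : 0 < η := by rw [hη]; positivity
  have hηC : η * Ct = min ε 1 / 2 := by
    rw [hη]
    field_simp
  obtain ⟨B₀, hB₀⟩ : ∃ B₀ : ℝ, B₀ = (k₀ * (k₀ + 1)) * (Cs * (9 + 16 * d)) := ⟨_, rfl⟩
  have hB₀n : 0 ≤ B₀ := by rw [hB₀]; positivity
  have hlim : Tendsto (fun K : ℕ => B₀ * (K : ℝ) ^ (-(1 / 4) : ℝ)) atTop (𝓝 (B₀ * 0)) :=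
    ((tendsto_rpow_neg_atTop (by norm_num : (0 : ℝ) < 1 / 4)).comp
      tendsto_natCast_atTop_atTop).const_mul B₀
  rw [mul_zero] at hlim
  obtain ⟨K₁, hK₁⟩ := eventually_atTop.1 (hlim.eventually_lt_const hη0)
  obtain ⟨K₂, hK₂⟩ := exists_nat_gt (k₀ * Cs * (5 * C₁ + 1) / (ε / 2))
  refine ⟨K₁ + K₂ + m + mt + 1, ?_⟩
  intro L K _ w hK hKL hlog hw0 hw1 hwK
  have hLpos : 1 ≤ L := Nat.pos_of_ne_zero (NeZero.ne L)
  have hLr : (1 : ℝ) ≤ L := by exact_mod_cast hLpos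
  have hK1 : 1 ≤ K := by omega
  have hKr : (1 : ℝ) ≤ K := by exact_mod_cast hK1
  have hK0 : (0 : ℝ) < K := by linarith
  have hKLd : K ≤ L ^ d := hKL.trans (Nat.pow_le_pow_right hLpos (by omega))
  have hlog0 : 0 ≤ Real.log L := Real.log_natCast_nonneg L
  -- the logarithm
  have hlogs : ∀ j ≤ m + mt, (Real.log L) ^ j ≤ K := by
    intro j hj
    by_cases h1 : 1 ≤ Real.log L
    · exact (pow_le_pow_right₀ h1 hj).trans hlog
    · push Not at h1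
      exact (pow_le_one₀ hlog0 h1.le).trans hKr
  obtain ⟨Z, hZ1, hZ2, hZ3, hZ4, hZ5, hZ6, hZ7, hZ8⟩ := hpar L K w (by omega) hKLd
    (hlogs m (by omega)) hw0 hw1 hwK
  obtain ⟨r, hr⟩ : ∃ r : ℕ, r = Z ^ (m₁ + me) := ⟨_, rfl⟩
  obtain ⟨κ₀, hκ₀⟩ : ∃ κ₀ : ℕ, κ₀ = (Z - 1) / 2 := ⟨_, rfl⟩
  rw [← hr, ← hκ₀] at hZ8
  have hrm : Z ^ m₁ ≤ r := by rw [hr]; exact Nat.pow_le_pow_right hZ3 (by omega)
  have hre : Z ^ me ≤ r := by rw [hr]; exact Nat.pow_le_pow_right hZ3 (by omega)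
  rw [← hr] at hZ6 hZ7
  obtain ⟨X, hX⟩ : ∃ X : ℝ, X = (K : ℝ) ^ (-(d / 2 : ℝ)) := ⟨_, rfl⟩
  obtain ⟨Y, hY⟩ : ∃ Y : ℝ, Y = 1 / ((L : ℝ) ^ d * (1 - w)) := ⟨_, rfl⟩
  obtain ⟨κ, hκ⟩ : ∃ κ : ℝ, κ = C₁ * (X + Y) := ⟨_, rfl⟩
  obtain ⟨hZ9, hZ10⟩ := hZ8 κ (by rw [hκ, hX, hY])
  obtain ⟨q1, hq1⟩ := hbtl Z hZ2 L K Z r Z κ₀ le_rfl le_rfl (by omega) hZ5 hrm
    (by omega) (by omega) hKLd
  obtain ⟨q2, hq2⟩ := henv Z (by omega) L K Z r Z (2 * κ₀) le_rfl le_rfl (by omega) hZ5 hre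
    (by omega) (by omega) hKL
  obtain ⟨q3, hq3⟩ := htlc L K w (by omega) hKLd (hlogs mt (by omega)) hw0 hw1 hwK
  refine ⟨q1 + q2 + q3 + 2, fun q hq σ hσ δ h1 h2 => ?_⟩
  have hqr : (2 : ℝ) ≤ q := by
    have : 2 ≤ q := by omega
    exact_mod_cast this
  have hq0 : (0 : ℝ) < q := by linarith
  have hδ : 0 < δ := by
    by_contra h
    push Not at h
    have := mul_nonpos_of_nonpos_of_nonneg h hq0.le
    linarith
  have hδ1 : δ ≤ 1 := by
    have : δ * 2 ≤ δ * q := mul_le_mul_of_nonneg_left hqr hδ.le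
    linarith
  rw [← hX, ← hY]
  have hLd0 : (0 : ℝ) < (L : ℝ) ^ d := by positivity
  have hX0 : 0 < X := by rw [hX]; positivity
  have h1w : 0 < 1 - w := by linarith
  have hY0 : 0 < Y := by rw [hY]; positivity
  have hYL : 1 / (L : ℝ) ^ d ≤ Y := by
    rw [hY]
    refine one_div_le_one_div_of_le (by positivity) ?_
    calc (L : ℝ) ^ d * (1 - w) ≤ (L : ℝ) ^ d * 1 :=
          mul_le_mul_of_nonneg_left (by linarith) hLd0.le
      _ = (L : ℝ) ^ d := mul_one _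
  obtain ⟨S, hS⟩ : ∃ S : ℝ, S = ∑ x, EE (K * (q * ms d L)) δ
        (fun ω => w ^ (cyc (gp (ed ∘ σ) ω (K * (q * ms d L))) x).card) := ⟨_, rfl⟩
  obtain ⟨P, hP⟩ : ∃ P, P = PP (ed ∘ σ) δ (K * (q * ms d L)) := ⟨_, rfl⟩
  have hcardV : (Fintype.card (Fin d → ZMod L) : ℝ) = (L : ℝ) ^ d := by
    rw [Fintype.card_fun, ZMod.card, Fintype.card_fin]
    push_cast
    rfl
  -- a priori bound
  have hSa : S / (L : ℝ) ^ d ≤ Ct * (X + Y) := by
    rw [div_le_iff₀ hLd0, hS]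
    refine (Finset.sum_le_sum fun x _ => hq3 q (by omega) σ hσ δ h1 h2 x).trans (le_of_eq ?_)
    rw [Finset.sum_const, Finset.card_univ, nsmul_eq_mul, hcardV, ← hX, ← hY]
    ring
  -- failure
  have hfail := (hq1 q (by omega) σ hσ δ h1 h2 w hw0 hw1 κ (by rw [hκ, hX, hY]) hZ9).1.trans hZ10
  obtain ⟨hPle, henv2⟩ := hq2 q (by omega) σ hσ δ h1 h2
  obtain ⟨hgd1, hgd2⟩ := Pool.Agent.Q154.LC.gdm d L σ q K Z r Z (2 * κ₀)
  obtain ⟨b, hb⟩ : ∃ b : ℝ, b = (k₀ * (k₀ + 1)) * ((Cs * X) * ((8 * Z + 16 * d) * K + 1)) :=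
    ⟨_, rfl⟩
  have hb0 : 0 ≤ b := by rw [hb]; positivity
  -- b is small
  have hbη : b ≤ η := by
    have hZr : (1 : ℝ) ≤ Z := by exact_mod_cast hZ3
    have e1 : (8 * (Z : ℝ) + 16 * d) * K + 1 ≤ (9 + 16 * d) * (Z * K) := by
      have f1 : (1 : ℝ) ≤ Z * K := by
        calc (1 : ℝ) = 1 * 1 := by ring
          _ ≤ Z * K := mul_le_mul hZr hKr (by norm_num) (by linarith)
      have f2 : 16 * (d : ℝ) * K ≤ 16 * d * (Z * K) := by
        refine mul_le_mul_of_nonneg_left ?_ (by positivity)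
        calc (K : ℝ) = 1 * K := (one_mul _).symm
          _ ≤ Z * K := mul_le_mul_of_nonneg_right hZr hK0.le
      calc (8 * (Z : ℝ) + 16 * d) * K + 1 = 8 * (Z * K) + 16 * d * K + 1 := by ring
        _ ≤ 8 * (Z * K) + 16 * d * (Z * K) + Z * K := by linarith
        _ = _ := by ring
    have e2 : (Z : ℝ) ≤ (K : ℝ) ^ (1 / 4 : ℝ) := by
      have f1 : ((Z : ℝ) ^ 4) ^ (1 / 4 : ℝ) ≤ (K : ℝ) ^ (1 / 4 : ℝ) := by
        refine Real.rpow_le_rpow (by positivity) ?_ (by norm_num)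
        exact_mod_cast hZ4
      have f2 : ((Z : ℝ) ^ 4) ^ (1 / 4 : ℝ) = Z := by
        rw [← Real.rpow_natCast, ← Real.rpow_mul (by linarith)]
        norm_num
      rw [f2] at f1
      exact f1
    have e3 : X * (Z * K) ≤ (K : ℝ) ^ (-(1 / 4) : ℝ) := by
      have hd3 : (3 : ℝ) ≤ d := by exact_mod_cast hd
      calc X * (Z * K) ≤ (K : ℝ) ^ (-(3 / 2) : ℝ) * ((K : ℝ) ^ (1 / 4 : ℝ) * K) := by
            refine mul_le_mul ?_ (mul_le_mul_of_nonneg_right e2 hK0.le) (by positivity)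
              (by positivity)
            rw [hX]
            exact Real.rpow_le_rpow_of_exponent_le hKr (by linarith)
        _ = (K : ℝ) ^ (-(1 / 4) : ℝ) := by
            have f1 : (K : ℝ) ^ (1 / 4 : ℝ) * K = (K : ℝ) ^ (5 / 4 : ℝ) := by
              conv_lhs => rw [← Real.rpow_one (K : ℝ)]
              rw [← Real.rpow_mul hK0.le, one_mul, ← Real.rpow_add hK0]
              norm_num
            rw [f1, ← Real.rpow_add hK0]
            norm_num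
    have e4 := hK₁ K (by omega)
    calc b = (k₀ * (k₀ + 1)) * (Cs * (X * ((8 * Z + 16 * d) * K + 1))) := by rw [hb]; ring
      _ ≤ (k₀ * (k₀ + 1)) * (Cs * (X * ((9 + 16 * d) * (Z * K)))) := by
          refine mul_le_mul_of_nonneg_left (mul_le_mul_of_nonneg_left
            (mul_le_mul_of_nonneg_left e1 hX0.le) hCs.le) (by positivity)
      _ = B₀ * (X * (Z * K)) := by rw [hB₀]; ring
      _ ≤ B₀ * (K : ℝ) ^ (-(1 / 4) : ℝ) := mul_le_mul_of_nonneg_left e3 hB₀n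
      _ ≤ η := e4.le
  have hSa0 : 0 ≤ S / (L : ℝ) ^ d := by
    refine div_nonneg ?_ hLd0.le
    rw [hS]
    refine Finset.sum_nonneg fun x _ => ?_
    have := Pool.Agent.Q68.LC.EE_mono hδ.le hδ1 (n := K * (q * ms d L)) (F := fun _ => (0 : ℝ))
      (G := fun ω => w ^ (cyc (gp (ed ∘ σ) ω (K * (q * ms d L))) x).card)
      (fun ω => pow_nonneg hw0 _)
    rwa [Pool.Agent.Q68.LC.EE_const] at this
  have hbS : b * (S / (L : ℝ) ^ d) ≤ min ε 1 / 2 * (X + Y) := by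
    calc b * (S / (L : ℝ) ^ d) ≤ η * (Ct * (X + Y)) :=
          mul_le_mul hbη hSa hSa0 hη0.le
      _ = (η * Ct) * (X + Y) := by ring
      _ = _ := by rw [hηC]
  have hmin1 : min ε 1 ≤ ε := min_le_left _ _
  have hmin2 : min ε 1 ≤ 1 := min_le_right _ _
  have hmin0 : 0 < min ε 1 := by positivity
  obtain ⟨F, hF⟩ : ∃ F : ℝ, F = (∑ x, fS w k₀ P x) / (L : ℝ) ^ d := ⟨_, rfl⟩
  have hFN : ∑ x, fS w k₀ P x = (L : ℝ) ^ d * F := by
    rw [hF]
    field_simp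
  have hDP : DS P := by rw [hP]; exact DS_TT _ _ _ hδ.le hδ1 _
  have hfP0 : ∀ x, 0 ≤ fS w k₀ P x := fun x => Finset.sum_nonneg fun k _ =>
    mul_nonneg (pow_nonneg hw0 _) ((DS_pow hDP (k + 1)).nn x x)
  have hsum0 : 0 ≤ ∑ x, fS w k₀ P x := Finset.sum_nonneg fun x _ => hfP0 x
  have hF0 : 0 ≤ F := by rw [hF]; exact div_nonneg hsum0 hLd0.le
  have hFle : F ≤ k₀ * (Cs * X) := by
    rw [hF, div_le_iff₀ hLd0]
    have h3 : ∀ x, fS w k₀ P x ≤ k₀ * (Cs * X) := by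
      intro x
      unfold fS
      calc ∑ k ∈ Finset.range k₀, w ^ (k + 1) * (P ^ (k + 1)) x x
          ≤ ∑ _k ∈ Finset.range k₀, (Cs * X) := by
            refine Finset.sum_le_sum fun k _ => ?_
            have h3 : w ^ (k + 1) ≤ 1 := pow_le_one₀ hw0 hw1.le
            have h4 := DS_pow_le hDP (s := Cs * X) (by rw [hP, hX]; exact hPle) k x x
            have h5 := (DS_pow hDP (k + 1)).nn x x
            calc w ^ (k + 1) * (P ^ (k + 1)) x x ≤ 1 * (P ^ (k + 1)) x x :=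
                  mul_le_mul_of_nonneg_right h3 h5
              _ ≤ _ := by rw [one_mul]; exact h4
        _ = _ := by rw [Finset.sum_const, Finset.card_range, nsmul_eq_mul]
    refine (Finset.sum_le_sum fun x _ => h3 x).trans (le_of_eq ?_)
    rw [Finset.sum_const, Finset.card_univ, nsmul_eq_mul, hcardV]
    ring
  rw [← hP] at henv2
  rw [← hP, ← hS, ← hF]
  have htl := tl_nonneg d k₀
  have hCe0 : (0 : ℝ) ≤ Ce := Nat.cast_nonneg _
  have hC₁0 : (0 : ℝ) ≤ C₁ := Nat.cast_nonneg _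
  constructor
  · -- upper bound
    have hup := bl_up (ed ∘ σ) (K * (q * ms d L)) δ w
      (fun ω A => Gd σ q K Z r Z (2 * κ₀) ω A) hδ.le hδ1 hw0 hw1 hgd1 hgd2
      ((L : ℝ) ^ d * F + (L : ℝ) ^ d * (Ce * Y + Cs * X * tl d k₀)) b (by positivity) hb0
      (by
        intro ω A hI hG
        have h3 := (henv2 ω A hI hG w k₀ hw0 hw1).1
        rw [← hX, hFN] at h3
        rw [hb]
        refine h3.trans (le_of_eq ?_)
        rw [hY]
        ring)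
    rw [hcardV, ← hS] at hup
    have h3 := cir_up (e := min ε 1) hLd0 hup rfl hfail hYL (by positivity) hb0 (by
      refine hbS.trans ?_
      have f1 : min ε 1 / 2 * (X + Y) = min ε 1 / 2 * X + min ε 1 / 2 * Y := by ring
      have f2 : min ε 1 / 2 * X ≤ min ε 1 * X := mul_le_mul_of_nonneg_right (by linarith) hX0.le
      have f3 : min ε 1 / 2 * Y ≤ 1 * Y := mul_le_mul_of_nonneg_right (by linarith) hY0.le
      linarith) (η := 0)
    refine h3.trans ?_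
    have f4 : (min ε 1 + Cs * tl d k₀) * X ≤
        (ε + (5 * C₁ + 1 + Ce + 1 + Cs) * tl d k₀) * X := by
      refine mul_le_mul_of_nonneg_right (add_le_add hmin1 (mul_le_mul_of_nonneg_right ?_ htl)) hX0.le
      linarith
    have f5 : (5 * (C₁ : ℝ) + 1 + Ce + 1) * Y ≤ (5 * C₁ + 1 + Ce + 1 + Cs) * Y :=
      mul_le_mul_of_nonneg_right (by linarith) hY0.le
    linarith
  · -- lower bound
    have hlow := bl_low (ed ∘ σ) (K * (q * ms d L)) δ w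
      (fun ω A => Gd σ q K Z r Z (2 * κ₀) ω A) hδ.le hδ1 hw0 hw1 hgd1
      ((L : ℝ) ^ d * F) b (by positivity) hb0
      (by
        intro ω A hI hG
        have h3 := (henv2 ω A hI hG w k₀ hw0 hw1).2
        rw [← hX, hFN] at h3
        rw [hb]
        exact h3)
    rw [← hS] at hlow
    have hLK : (K : ℝ) ≤ (L : ℝ) ^ d := by exact_mod_cast hKLd
    have hFp : F * ((5 * C₁ + 1) * (1 / (L : ℝ) ^ d)) ≤ min ε ε / 2 * X := by
      rw [min_self]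
      have f1 : k₀ * Cs * (5 * C₁ + 1) / (ε / 2) ≤ (L : ℝ) ^ d := by
        have : (K₂ : ℝ) ≤ K := by exact_mod_cast (by omega : K₂ ≤ K)
        linarith
      rw [div_le_iff₀ (by positivity)] at f1
      calc F * ((5 * C₁ + 1) * (1 / (L : ℝ) ^ d))
          ≤ (k₀ * (Cs * X)) * ((5 * C₁ + 1) * (1 / (L : ℝ) ^ d)) :=
            mul_le_mul_of_nonneg_right hFle (by positivity)
        _ = (k₀ * Cs * (5 * C₁ + 1)) / (L : ℝ) ^ d * X := by ring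
        _ ≤ ε / 2 * X := by
            refine mul_le_mul_of_nonneg_right ?_ hX0.le
            rw [div_le_iff₀ hLd0]
            linarith
    rw [min_self] at hFp
    refine cir_low (e := ε) hLd0 hlow rfl hfail hF0 hFp ?_ hY0.le hε.le
    refine hbS.trans (mul_le_mul_of_nonneg_right (by linarith) (by linarith))

end Pool.Agent.U153
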