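import Pool.Agent.U153.BlId
import Pool.Agent.Q257.LC.KerU
import Pool.Agent.Q151.LC.Con1

/-!
# Short cycles: comparison of the walk in an environment with the free walk, on average
-/

set_option autoImplicit false
set_option linter.unusedSectionVars false
set_option linter.unusedVariables false

namespace Pool.Agent.U153

open Finset Equiv Matrix Q292.LC
open Pool.Agent.Q68.LC (DS DS_one DS_mul DS_TT)

section gen

variable {V : Type} [Fintype V] [DecidableEq V]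

/-- the sum of the absolute values of all entries -/
noncomputable def n1 (M : Matrix V V ℝ) : ℝ := ∑ x, ∑ y, |M x y|

theorem n1_nonneg (M : Matrix V V ℝ) : 0 ≤ n1 M :=
  Finset.sum_nonneg fun x _ => Finset.sum_nonneg fun y _ => abs_nonneg _

theorem n1_add (M N : Matrix V V ℝ) : n1 (M + N) ≤ n1 M + n1 N := by
  unfold n1
  rw [← Finset.sum_add_distrib]
  refine Finset.sum_le_sum fun x _ => ?_
  rw [← Finset.sum_add_distrib]
  exact Finset.sum_le_sum fun y _ => by rw [Matrix.add_apply]; exact abs_add_le _ _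

theorem n1_left {Q : Matrix V V ℝ} (hQ : DS Q) (M : Matrix V V ℝ) : n1 (Q * M) ≤ n1 M := by
  unfold n1
  calc ∑ x, ∑ y, |(Q * M) x y| ≤ ∑ x, ∑ y, ∑ z, Q x z * |M z y| := by
        refine Finset.sum_le_sum fun x _ => Finset.sum_le_sum fun y _ => ?_
        rw [Matrix.mul_apply]
        refine (Finset.abs_sum_le_sum_abs _ _).trans (Finset.sum_le_sum fun z _ => ?_)
        rw [abs_mul, abs_of_nonneg (hQ.nn x z)]
    _ = ∑ z, (∑ x, Q x z) * ∑ y, |M z y| := by
        have h1 : ∀ x, ∑ y, ∑ z, Q x z * |M z y| = ∑ z, Q x z * ∑ y, |M z y| := by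
          intro x
          rw [Finset.sum_comm]
          exact Finset.sum_congr rfl fun z _ => by rw [Finset.mul_sum]
        simp only [h1]
        rw [Finset.sum_comm]
        exact Finset.sum_congr rfl fun z _ => by rw [Finset.sum_mul]
    _ = _ := Finset.sum_congr rfl fun z _ => by rw [hQ.col, one_mul]

theorem n1_right {Q : Matrix V V ℝ} (hQ : DS Q) (M : Matrix V V ℝ) : n1 (M * Q) ≤ n1 M := by
  unfold n1
  refine Finset.sum_le_sum fun x _ => ?_
  calc ∑ y, |(M * Q) x y| ≤ ∑ y, ∑ z, |M x z| * Q z y := by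
        refine Finset.sum_le_sum fun y _ => ?_
        rw [Matrix.mul_apply]
        refine (Finset.abs_sum_le_sum_abs _ _).trans (Finset.sum_le_sum fun z _ => ?_)
        rw [abs_mul, abs_of_nonneg (hQ.nn z y)]
    _ = ∑ z, |M x z| * ∑ y, Q z y := by
        rw [Finset.sum_comm]
        exact Finset.sum_congr rfl fun z _ => by rw [Finset.mul_sum]
    _ = _ := Finset.sum_congr rfl fun z _ => by rw [hQ.row, mul_one]

theorem DS_pow {Q : Matrix V V ℝ} (hQ : DS Q) (k : ℕ) : DS (Q ^ k) := by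
  induction k with
  | zero => rw [pow_zero]; exact DS_one
  | succ k ih => rw [pow_succ]; exact DS_mul ih hQ

/-- telescoping -/
theorem n1_pow {T P : Matrix V V ℝ} (hT : DS T) (hP : DS P) (k : ℕ) :
    n1 (T ^ k - P ^ k) ≤ k * n1 (T - P) := by
  induction k with
  | zero =>
    simp [n1]
  | succ k ih =>
    have h1 : T ^ (k + 1) - P ^ (k + 1) = T ^ k * (T - P) + (T ^ k - P ^ k) * P := by
      rw [pow_succ, pow_succ, Matrix.mul_sub, Matrix.sub_mul]
      abel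
    rw [h1]
    have h2 := n1_add (T ^ k * (T - P)) ((T ^ k - P ^ k) * P)
    have h3 := n1_left (DS_pow hT k) (T - P)
    have h4 := n1_right hP (T ^ k - P ^ k)
    push_cast
    linarith

theorem diag_right {M Q : Matrix V V ℝ} {s : ℝ} (hQ0 : ∀ x y, 0 ≤ Q x y) (hQ : ∀ x y, Q x y ≤ s)
    (B : Finset V) : ∑ x ∈ B, |(M * Q) x x| ≤ s * n1 M := by
  calc ∑ x ∈ B, |(M * Q) x x| ≤ ∑ x, |(M * Q) x x| :=
        Finset.sum_le_sum_of_subset_of_nonneg (Finset.subset_univ _) fun _ _ _ => abs_nonneg _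
    _ ≤ ∑ x, ∑ z, |M x z| * s := by
        refine Finset.sum_le_sum fun x _ => ?_
        rw [Matrix.mul_apply]
        refine (Finset.abs_sum_le_sum_abs _ _).trans (Finset.sum_le_sum fun z _ => ?_)
        rw [abs_mul, abs_of_nonneg (hQ0 z x)]
        exact mul_le_mul_of_nonneg_left (hQ z x) (abs_nonneg _)
    _ = _ := by
        unfold n1
        simp only [← Finset.sum_mul]
        ring

theorem diag_left {M Q : Matrix V V ℝ} {s : ℝ} (hs : 0 ≤ s) (B : Finset V)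
    (hQ0 : ∀ x y, 0 ≤ Q x y) (hQ : ∀ x ∈ B, ∀ y, Q x y ≤ s) :
    ∑ x ∈ B, |(Q * M) x x| ≤ s * n1 M := by
  calc ∑ x ∈ B, |(Q * M) x x| ≤ ∑ x ∈ B, ∑ z, s * |M z x| := by
        refine Finset.sum_le_sum fun x hx => ?_
        rw [Matrix.mul_apply]
        refine (Finset.abs_sum_le_sum_abs _ _).trans (Finset.sum_le_sum fun z _ => ?_)
        rw [abs_mul, abs_of_nonneg (hQ0 x z)]
        exact mul_le_mul_of_nonneg_right (hQ x hx z) (abs_nonneg _)
    _ ≤ ∑ x, ∑ z, s * |M z x| :=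
        Finset.sum_le_sum_of_subset_of_nonneg (Finset.subset_univ _) fun _ _ _ =>
          Finset.sum_nonneg fun _ _ => mul_nonneg hs (abs_nonneg _)
    _ = _ := by
        unfold n1
        rw [Finset.sum_comm]
        simp only [← Finset.mul_sum]

theorem pow_zero_out {T : Matrix V V ℝ} {A : Finset V} (h0 : ∀ x, x ∉ A → ∀ y ∈ A, T x y = 0)
    (k : ℕ) (x : V) (hx : x ∉ A) (y : V) (hy : y ∈ A) : (T ^ k) x y = 0 := by
  cases k with
  | zero =>
    rw [pow_zero, Matrix.one_apply_ne]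
    rintro rfl
    exact hx hy
  | succ k =>
    induction k generalizing y with
    | zero =>
      rw [zero_add, pow_one]
      exact h0 x hx y hy
    | succ k ih =>
      rw [pow_succ, Matrix.mul_apply]
      refine Finset.sum_eq_zero fun z _ => ?_
      by_cases hz : z ∈ A
      · rw [ih z hz, zero_mul]
      · rw [h0 z hz y hy, mul_zero]

/-- THE COMPARISON: return probabilities, summed over the points outside `A` -/
theorem bl_cmp {T₁ T₂ P₁ P₂ : Matrix V V ℝ} (hT₁ : DS T₁) (hT₂ : DS T₂) (hP₁ : DS P₁)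
    (hP₂ : DS P₂) (A : Finset V) (h0 : ∀ x, x ∉ A → ∀ y ∈ A, (T₁ * T₂) x y = 0) {s S : ℝ}
    (hs : 0 ≤ s) (hs1 : ∀ x, x ∉ A → ∀ y, T₁ x y ≤ s) (hs2 : ∀ x y, P₂ x y ≤ s)
    (hs3 : ∀ x y, (P₁ * P₂) x y ≤ s)
    (hS1 : n1 (T₁ - P₁) ≤ S) (hS2 : n1 (T₂ - P₂) ≤ S) (hS3 : n1 (T₁ * T₂ - P₁ * P₂) ≤ S)
    (k : ℕ) :
    ∑ x ∈ univ \ A, |((T₁ * T₂) ^ (k + 1)) x x - ((P₁ * P₂) ^ (k + 1)) x x| ≤
      (k + 2) * (s * S) := by
  obtain ⟨T, hTd⟩ : ∃ T, T = T₁ * T₂ := ⟨_, rfl⟩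
  obtain ⟨P, hPd⟩ : ∃ P, P = P₁ * P₂ := ⟨_, rfl⟩
  rw [← hTd] at h0 hS3
  rw [← hPd] at hs3 hS3
  rw [← hTd, ← hPd]
  have hT : DS T := by rw [hTd]; exact DS_mul hT₁ hT₂
  have hP : DS P := by rw [hPd]; exact DS_mul hP₁ hP₂
  have hTk := DS_pow hT k
  have h1 : T ^ (k + 1) - P ^ (k + 1) = (T ^ k * T₁) * (T₂ - P₂) + (T ^ k * (T₁ - P₁)) * P₂ +
      (T ^ k - P ^ k) * P := by
    rw [pow_succ, pow_succ]
    have e1 : T ^ k * T = (T ^ k * T₁) * T₂ := by rw [Matrix.mul_assoc, ← hTd]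
    have e2 : (T ^ k * P₁) * P₂ = T ^ k * P := by rw [Matrix.mul_assoc, ← hPd]
    rw [e1, Matrix.mul_sub, Matrix.mul_sub, Matrix.sub_mul, Matrix.sub_mul, e2]
    abel
  have h2 : ∀ x, (T ^ (k + 1)) x x - (P ^ (k + 1)) x x =
      ((T ^ k * T₁) * (T₂ - P₂)) x x + ((T ^ k * (T₁ - P₁)) * P₂) x x +
        ((T ^ k - P ^ k) * P) x x := by
    intro x
    rw [← Matrix.sub_apply, h1, Matrix.add_apply, Matrix.add_apply]
  have h3 : ∀ x ∈ univ \ A, ∀ y, (T ^ k * T₁) x y ≤ s := by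
    intro x hx y
    have hx' : x ∉ A := (Finset.mem_sdiff.1 hx).2
    rw [Matrix.mul_apply]
    calc ∑ z, (T ^ k) x z * T₁ z y ≤ ∑ z, (T ^ k) x z * s := by
          refine Finset.sum_le_sum fun z _ => ?_
          by_cases hz : z ∈ A
          · rw [pow_zero_out h0 k x hx' z hz, zero_mul, zero_mul]
          · exact mul_le_mul_of_nonneg_left (hs1 z hz y) (hTk.nn x z)
      _ = s := by rw [← Finset.sum_mul, hTk.row, one_mul]
  have h4 := diag_left (M := T₂ - P₂) hs (univ \ A) (DS_mul hTk hT₁).nn h3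
  have h5 := diag_right (M := T ^ k * (T₁ - P₁)) hP₂.nn hs2 (univ \ A)
  have h6 := diag_right (M := T ^ k - P ^ k) hP.nn hs3 (univ \ A)
  have h7 := n1_left hTk (T₁ - P₁)
  have h8 := n1_pow hT hP k
  have hS0 : 0 ≤ S := (n1_nonneg _).trans hS1
  calc ∑ x ∈ univ \ A, |(T ^ (k + 1)) x x - (P ^ (k + 1)) x x|
      ≤ ∑ x ∈ univ \ A, (|((T ^ k * T₁) * (T₂ - P₂)) x x| +
        |((T ^ k * (T₁ - P₁)) * P₂) x x| + |((T ^ k - P ^ k) * P) x x|) := by
        refine Finset.sum_le_sum fun x _ => ?_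
        rw [h2 x]
        exact (abs_add_le _ _).trans (add_le_add (abs_add_le _ _) le_rfl)
    _ = ∑ x ∈ univ \ A, |((T ^ k * T₁) * (T₂ - P₂)) x x| +
        ∑ x ∈ univ \ A, |((T ^ k * (T₁ - P₁)) * P₂) x x| +
        ∑ x ∈ univ \ A, |((T ^ k - P ^ k) * P) x x| := by
        rw [Finset.sum_add_distrib, Finset.sum_add_distrib]
    _ ≤ s * S + s * S + s * (k * S) := by
        refine add_le_add (add_le_add ?_ ?_) ?_
        · exact h4.trans (mul_le_mul_of_nonneg_left hS2 hs)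
        · exact h5.trans (mul_le_mul_of_nonneg_left (h7.trans hS1) hs)
        · refine h6.trans (mul_le_mul_of_nonneg_left (h8.trans ?_) hs)
          exact mul_le_mul_of_nonneg_left hS3 (Nat.cast_nonneg k)
    _ = _ := by ring

/-- the powers of the killed kernel -/
theorem bl_pow_eq {T : Matrix V V ℝ} {A : Finset V} (h0 : ∀ x, x ∉ A → ∀ y ∈ A, T x y = 0)
    (k : ℕ) (x : V) (hx : x ∉ A) (y : V) :
    (T * (dg (univ \ A) * T) ^ k) x y = (T ^ (k + 1)) x y := by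
  induction k generalizing y with
  | zero => simp
  | succ k ih =>
    rw [Pool.Agent.Q257.LC.pow_right, pow_succ, Matrix.mul_apply]
    refine Finset.sum_congr rfl fun c _ => ?_
    by_cases hc : c ∈ A
    · have h1 : (T ^ (k + 1)) x c = 0 := pow_zero_out h0 (k + 1) x hx c hc
      rw [if_neg (fun h => (Finset.mem_sdiff.1 h).2 hc), h1, zero_mul]
    · rw [if_pos (Finset.mem_sdiff.2 ⟨Finset.mem_univ _, hc⟩), ih c]

end gen

section torus

variable {d L : ℕ} [NeZero L]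

/-- the sum of all contact numbers -/
theorem bl_cc_sum (hd : 1 ≤ d) (hL : 3 ≤ L) {σ : ℕ → (Fin d → ZMod L) × Fin d} (hσ : Per σ)
    (ω : ℕ → Bool) (A : Finset (Fin d → ZMod L)) {δ : ℝ} {q u ρ : ℕ} (hδ : 0 < δ)
    (hδd : 2 * d * δ ≤ 1) (hδq : δ * q ≤ 2)
    (hj : ∀ j < u, ∀ a ∈ A,
      jumps (ed ∘ σ) ω (j * (q * ms d L)) ((j + 1) * (q * ms d L)) a ≤ ρ) :
    ∑ x, cc (ed ∘ σ) ω A δ (u * (q * ms d L)) x ≤ (8 * ρ + 16 * d) * (u * A.card) := by
  have h2 : ∀ x y : Fin d → ZMod L, td x y ≤ d * L := by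
    intro x y
    unfold td
    calc ∑ i, (x i - y i).valMinAbs.natAbs ≤ ∑ _i : Fin d, L := by
          refine Finset.sum_le_sum fun i _ => ?_
          have := ZMod.natAbs_valMinAbs_le (x i - y i)
          omega
      _ = d * L := by rw [Finset.sum_const, Finset.card_univ, Fintype.card_fin, smul_eq_mul]
  have h3 : bal (0 : Fin d → ZMod L) (d * L) = univ := by
    ext x
    unfold bal
    simp [h2]
  have h := (Pool.Agent.Q151.LC.con2 Pool.Agent.Q187.LC.Tch.tch) d L hd hL σ hσ ω A δ 0 q u ρ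
    (d * L) (d * L) 0 hδ hδd hδq le_rfl hj (by
      intro k _ y
      rw [Finset.filter_false_of_mem, Finset.sum_empty]
      intro x _
      exact not_lt.2 (h2 x y))
  rw [h3] at h
  refine h.trans (mul_le_mul_of_nonneg_left ?_ (by positivity))
  calc ∑ j ∈ Finset.range u, (((((A.image (gp (ed ∘ σ) ω (j * (q * ms d L)))) ∩
        bal 0 (d * L + d * L + ρ + 1)).card : ℕ) : ℝ) + 0 * A.card)
      ≤ ∑ _j ∈ Finset.range u, (A.card : ℝ) := by
        refine Finset.sum_le_sum fun j _ => ?_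
        rw [zero_mul, add_zero]
        exact_mod_cast (Finset.card_le_card Finset.inter_subset_left).trans
          Finset.card_image_le
    _ = _ := by rw [Finset.sum_const, Finset.card_range, nsmul_eq_mul]

/-- difference of the kernels -/
theorem bl_n1 (hd : 1 ≤ d) (hL : 3 ≤ L) {σ : ℕ → (Fin d → ZMod L) × Fin d} (hσ : Per σ)
    (ω : ℕ → Bool) (A : Finset (Fin d → ZMod L)) {δ : ℝ} {q u ρ : ℕ} (hδ : 0 < δ)
    (hδd : 2 * d * δ ≤ 1) (hδq : δ * q ≤ 2)
    (hj : ∀ j < u, ∀ a ∈ A,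
      jumps (ed ∘ σ) ω (j * (q * ms d L)) ((j + 1) * (q * ms d L)) a ≤ ρ) :
    n1 (TT (ed ∘ σ) ω A δ (u * (q * ms d L)) - PP (ed ∘ σ) δ (u * (q * ms d L))) ≤
      (8 * ρ + 16 * d) * (u * A.card) := by
  have hδ1 : δ ≤ 1 := by
    have : (1 : ℝ) ≤ d := by exact_mod_cast hd
    nlinarith
  refine le_trans ?_ (bl_cc_sum hd hL hσ ω A hδ hδd hδq hj)
  unfold n1
  refine Finset.sum_le_sum fun x _ => ?_
  refine le_trans (le_of_eq ?_)
    (Pool.Agent.Q151.LC.con1 _ (ed ∘ σ) ω A δ (u * (q * ms d L)) x hδ.le hδ1)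
  refine Finset.sum_congr rfl fun y _ => ?_
  rw [Matrix.sub_apply, abs_sub_comm]

end torus

end Pool.Agent.U153
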