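import Pool.Agent.U153.BlSum

/-!
# Short cycles: the sum of the Green function over the diagonal in a good environment
-/

set_option autoImplicit false
set_option linter.unusedSectionVars false
set_option linter.unusedVariables false

namespace Pool.Agent.U153

open Finset Equiv Matrix Q292.LC Filter Topology
open Pool.Agent.Q68.LC (DS DS_one DS_mul DS_TT)
open Pool.Agent.Q257.LC (TT_units sh_ed)

/-- the tail of the series of `(k + 1) ^ (-d/2)` -/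
noncomputable def tl (d k₀ : ℕ) : ℝ := ∑' k : ℕ, (((k + k₀ : ℕ) : ℝ) + 1) ^ (-(d / 2 : ℝ))

theorem tl_summable (d : ℕ) (hd : 3 ≤ d) :
    Summable (fun k : ℕ => ((k : ℝ) + 1) ^ (-(d / 2 : ℝ))) := by
  have hd3 : (3 : ℝ) ≤ d := by exact_mod_cast hd
  have h1 : Summable (fun k : ℕ => (k : ℝ) ^ (-(d / 2 : ℝ))) :=
    Real.summable_nat_rpow.2 (by linarith)
  have h2 := (summable_nat_add_iff 1).2 h1
  refine h2.congr fun k => ?_
  push_cast
  rfl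

theorem tl_nonneg (d k₀ : ℕ) : 0 ≤ tl d k₀ := tsum_nonneg fun k => by positivity

section torus

variable {d L : ℕ} [NeZero L]

theorem PP_units {σ : ℕ → (Fin d → ZMod L) × Fin d} (hσ : Per σ) {δ : ℝ} (hδ0 : 0 ≤ δ)
    (hδ1 : δ ≤ 1) (q j u : ℕ) :
    PP (ed ∘ σ) δ ((j + u) * (q * ms d L)) = PP (ed ∘ σ) δ (j * (q * ms d L)) *
      PP (ed ∘ σ) δ (u * (q * ms d L)) := by
  have h := TT_units Pool.Agent.Q68.LC.bas2 hσ (fun _ => false) ∅ hδ0 hδ1 q j u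
  rw [Finset.image_empty] at h
  exact h

theorem PP_pow {σ : ℕ → (Fin d → ZMod L) × Fin d} (hσ : Per σ) {δ : ℝ} (hδ0 : 0 ≤ δ)
    (hδ1 : δ ≤ 1) (q K k : ℕ) :
    (PP (ed ∘ σ) δ (K * (q * ms d L))) ^ k = PP (ed ∘ σ) δ ((k * K) * (q * ms d L)) := by
  induction k with
  | zero =>
    rw [pow_zero, Nat.zero_mul, Nat.zero_mul]
    rfl
  | succ k ih =>
    rw [pow_succ, ih, ← PP_units hσ hδ0 hδ1]
    congr 2
    ring

theorem inv_image {V : Type} [DecidableEq V] (g : Perm V) (A : Finset V) (h : Inv g A) :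
    A.image g = A := by
  refine Finset.eq_of_subset_of_card_le (fun y hy => ?_) ?_
  · obtain ⟨a, ha, rfl⟩ := Finset.mem_image.1 hy
    exact h a ha
  · rw [Finset.card_image_of_injective _ g.injective]

/-- upper bound of the entries of a power -/
theorem DS_pow_le {V : Type} [Fintype V] [DecidableEq V] {P : Matrix V V ℝ} (hP : DS P) {s : ℝ}
    (hs : ∀ x y, P x y ≤ s) (k : ℕ) (x y : V) : (P ^ (k + 1)) x y ≤ s := by
  rw [pow_succ, Matrix.mul_apply]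
  calc ∑ z, (P ^ k) x z * P z y ≤ ∑ z, (P ^ k) x z * s :=
        Finset.sum_le_sum fun z _ => mul_le_mul_of_nonneg_left (hs z y) ((DS_pow hP k).nn x z)
    _ = s := by rw [← Finset.sum_mul, (DS_pow hP k).row, one_mul]

/-- the truncated Green function of the free kernel -/
noncomputable def fS {V : Type} [Fintype V] [DecidableEq V] (w : ℝ) (k₀ : ℕ) (P : Matrix V V ℝ)
    (x : V) : ℝ := ∑ k ∈ Finset.range k₀, w ^ (k + 1) * (P ^ (k + 1)) x x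

theorem bl_env (d : ℕ) (hd : 3 ≤ d) : ∃ (C m : ℕ) (Cs : ℝ), 1 ≤ C ∧ 0 < Cs ∧ ∀ Z : ℕ, C ≤ Z →
    ∀ (L K lam r ρ κ₀ : ℕ) [NeZero L], lam ≤ Z → ρ ≤ Z → κ₀ + 1 ≤ Z → (L : ℝ) ^ d ≤ Real.exp Z →
    Z ^ m ≤ r → 8 * Z ^ m ≤ L → Z ^ m ≤ K → K ≤ L ^ 2 → ∃ q₀ : ℕ, ∀ q ≥ q₀,
    ∀ σ : ℕ → (Fin d → ZMod L) × Fin d, Per σ → ∀ δ : ℝ, 1 ≤ δ * q → δ * q ≤ 2 →
    (∀ x y, PP (ed ∘ σ) δ (K * (q * ms d L)) x y ≤ Cs * (K : ℝ) ^ (-(d / 2 : ℝ))) ∧
    ∀ (ω : ℕ → Bool) (A : Finset (Fin d → ZMod L)), Inv (gp (ed ∘ σ) ω (K * (q * ms d L))) A →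
    Gd σ q K lam r ρ κ₀ ω A → ∀ (w : ℝ) (k₀ : ℕ), 0 ≤ w → w < 1 →
    (∑ x ∈ univ \ A, gG w (univ \ A) (TT (ed ∘ σ) ω A δ (K * (q * ms d L))) x x ≤
      ∑ x, fS w k₀ (PP (ed ∘ σ) δ (K * (q * ms d L))) x +
        (L : ℝ) ^ d * (C / ((L : ℝ) ^ d * (1 - w)) + Cs * (K : ℝ) ^ (-(d / 2 : ℝ)) * tl d k₀) +
        (k₀ * (k₀ + 1)) * ((Cs * (K : ℝ) ^ (-(d / 2 : ℝ))) * ((8 * ρ + 16 * d) * K + 1)) * A.card) ∧
    (∑ x, fS w k₀ (PP (ed ∘ σ) δ (K * (q * ms d L))) x -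
        (k₀ * (k₀ + 1)) * ((Cs * (K : ℝ) ^ (-(d / 2 : ℝ))) * ((8 * ρ + 16 * d) * K + 1)) * A.card ≤
      ∑ x ∈ univ \ A, gG w (univ \ A) (TT (ed ∘ σ) ω A δ (K * (q * ms d L))) x x) := by
  obtain ⟨Ck, ml, c, hCk, hc, hker⟩ := bl_ker d hd
  have hd1 : 1 ≤ d := by omega
  obtain ⟨Cf, hCf, hfre⟩ := Pool.Agent.Q257.LC.fre d hd1
  have hd0 : (0 : ℝ) < d := by positivity
  -- constants
  obtain ⟨c3, hc3⟩ : ∃ c3 : ℝ, c3 = (c / 9) ^ (-(d / 2 : ℝ)) := ⟨_, rfl⟩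
  obtain ⟨e3, he3⟩ : ∃ e3 : ℝ, e3 = (1 / 3 : ℝ) ^ (-(d / 2 : ℝ)) := ⟨_, rfl⟩
  have hc30 : 0 < c3 := by rw [hc3]; positivity
  have he31 : 1 ≤ e3 := by
    rw [he3]
    apply Real.one_le_rpow_of_pos_of_le_one_of_nonpos (by norm_num) (by norm_num)
    rw [neg_nonpos]; positivity
  have he30 : 0 < e3 := by linarith
  refine ⟨Ck + 4, ml + 2, Ck + c3 + Cf * (e3 + 1), by omega, by positivity, ?_⟩
  intro Z hZ L K lam r ρ κ₀ _ hlam hρ hκ hLd hr hL hK hKL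
  obtain ⟨Cs, hCs⟩ : ∃ Cs : ℝ, Cs = Ck + c3 + Cf * (e3 + 1) := ⟨_, rfl⟩
  rw [← hCs]
  obtain ⟨n1', n2, n3, n4, n5, n6, hL3, n8, n9, n10⟩ :=
    Pool.Agent.Q257.LC.ker_nat Z ml r ρ K L (by omega) hρ hr hL hK
  have hZ1 : 1 ≤ Z ^ ml := Nat.one_le_pow _ _ (by omega)
  have hZ2 : 9 * Z ^ ml ≤ K := by
    have : Z ^ (ml + 2) = Z * Z * Z ^ ml := by ring
    have h2 : 9 ≤ Z * Z := by nlinarith
    calc 9 * Z ^ ml ≤ Z * Z * Z ^ ml := Nat.mul_le_mul_right _ h2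
      _ = Z ^ (ml + 2) := this.symm
      _ ≤ K := hK
  obtain ⟨K1, hK1⟩ : ∃ K1, K1 = K / 2 := ⟨_, rfl⟩
  obtain ⟨K2, hK2⟩ : ∃ K2, K2 = K - K / 2 := ⟨_, rfl⟩
  have hKK : K = K1 + K2 := by omega
  obtain ⟨q1, hq1⟩ := hker Z (by omega) L K lam (r - ρ) ρ (κ₀ + 1) hlam hρ hκ hLd n1' n3 (by omega)
  obtain ⟨q2, hq2⟩ := hker Z (by omega) L K1 lam (r - ρ) ρ (κ₀ + 1) hlam hρ hκ hLd n1' n3 (by omega)
  obtain ⟨q3, hq3⟩ := hfre L hL3 K
  obtain ⟨q4, hq4⟩ := exists_nat_gt (4 * (d : ℝ))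
  refine ⟨q1 + q2 + q3 + q4 + 2, ?_⟩
  intro q hq σ hσ δ h1 h2
  have hqr : (2 : ℝ) ≤ q := by
    have : 2 ≤ q := by omega
    exact_mod_cast this
  have hq0 : (0 : ℝ) < q := by linarith
  have hδ : 0 < δ := by
    by_contra h
    push Not at h
    have := mul_nonpos_of_nonpos_of_nonneg h hq0.le
    linarith
  have hδ1 : δ ≤ 1 := by
    have : δ * 2 ≤ δ * q := mul_le_mul_of_nonneg_left hqr hδ.le
    linarith
  have hδd : 2 * d * δ ≤ 1 := by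
    have h3 : 4 * (d : ℝ) ≤ q := by
      have : (q4 : ℝ) ≤ q := by exact_mod_cast (by omega : q4 ≤ q)
      linarith
    have h4 : 4 * (d : ℝ) * δ ≤ q * δ := mul_le_mul_of_nonneg_right h3 hδ.le
    have h5 : q * δ ≤ 2 := by rw [mul_comm]; exact h2
    linarith
  have hL0 : (0 : ℝ) < L := by
    have : 0 < L := by omega
    exact_mod_cast this
  have hK0 : (0 : ℝ) < K := by exact_mod_cast n10
  have hLd0 : (0 : ℝ) < (L : ℝ) ^ d := by positivity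
  obtain ⟨X, hX⟩ : ∃ X : ℝ, X = (K : ℝ) ^ (-(d / 2 : ℝ)) := ⟨_, rfl⟩
  have hX0 : 0 < X := by rw [hX]; positivity
  rw [← hX]
  -- 1 / L^d ≤ X
  have hLX : 1 / (L : ℝ) ^ d ≤ X := by
    rw [hX, Real.rpow_neg hK0.le, one_div]
    refine inv_anti₀ (by positivity) ?_
    have h3 : (K : ℝ) ≤ (L : ℝ) ^ 2 := by exact_mod_cast hKL
    calc (K : ℝ) ^ (d / 2 : ℝ) ≤ ((L : ℝ) ^ 2) ^ (d / 2 : ℝ) :=
          Real.rpow_le_rpow hK0.le h3 (by positivity)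
      _ = (L : ℝ) ^ d := by
          rw [← Real.rpow_natCast, ← Real.rpow_mul hL0.le, ← Real.rpow_natCast]
          congr 1
          push_cast
          ring
  have hpow : ∀ K' : ℝ, (K : ℝ) ≤ 3 * K' → K' ^ (-(d / 2 : ℝ)) ≤ e3 * X := by
    intro K' hK'
    rw [he3, hX, ← Real.mul_rpow (by norm_num) hK0.le]
    refine Real.rpow_le_rpow_of_nonpos (by positivity) (by linarith) ?_
    rw [neg_nonpos]
    positivity
  have hK1r : (K : ℝ) ≤ 3 * K1 := by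
    have : K ≤ 3 * K1 := by omega
    exact_mod_cast this
  have hK2r : (K : ℝ) ≤ 3 * K2 := by
    have : K ≤ 3 * K2 := by omega
    exact_mod_cast this
  -- free kernel bounds
  have hP : ∀ K' : ℕ, K' ≤ K → (K : ℝ) ≤ 3 * K' → ∀ x y,
      PP (ed ∘ σ) δ (K' * (q * ms d L)) x y ≤ Cs * X := by
    intro K' hK' hK3 x y
    have h3 := (hq3 q (by omega) σ hσ δ h1 h2).1 (K' * q) (Nat.mul_le_mul_right q hK') x y
    rw [Nat.mul_assoc] at h3
    have hK'0 : (0 : ℝ) < K' := by linarith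
    have h4 : (1 + ((K' * q : ℕ) : ℝ) * δ) ^ (-(d / 2 : ℝ)) ≤ (K' : ℝ) ^ (-(d / 2 : ℝ)) := by
      refine Real.rpow_le_rpow_of_nonpos hK'0 ?_ (by rw [neg_nonpos]; positivity)
      push_cast
      have h6 : (K' : ℝ) * 1 ≤ K' * (δ * q) := mul_le_mul_of_nonneg_left h1 hK'0.le
      have h7 : (K' : ℝ) * (δ * q) = K' * q * δ := by ring
      linarith
    have h5 := hpow K' hK3
    have hCf0 : 0 < Cf := by linarith
    calc PP (ed ∘ σ) δ (K' * (q * ms d L)) x y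
        ≤ Cf * ((1 + ((K' * q : ℕ) : ℝ) * δ) ^ (-(d / 2 : ℝ)) + 1 / (L : ℝ) ^ d) := h3
      _ ≤ Cf * (e3 * X + X) := mul_le_mul_of_nonneg_left (add_le_add (h4.trans h5) hLX) hCf0.le
      _ = (Cf * (e3 + 1)) * X := by ring
      _ ≤ Cs * X := by
          refine mul_le_mul_of_nonneg_right ?_ hX0.le
          rw [hCs]
          have : (0 : ℝ) ≤ Ck := Nat.cast_nonneg _
          linarith
  refine ⟨hP K le_rfl (by linarith), ?_⟩
  intro ω A hInv hGd w k₀ hw0 hw1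
  have hEv : Ev σ q K lam (r - ρ) ρ (κ₀ + 1) ω A :=
    Pool.Agent.Q277.LC.ge d L hL3 σ hσ q K lam (r - ρ) ρ κ₀ ω A (by omega) n10
      (by rw [n2]; exact hGd)
  obtain ⟨T, hT⟩ : ∃ T, T = TT (ed ∘ σ) ω A δ (K * (q * ms d L)) := ⟨_, rfl⟩
  obtain ⟨P, hPd⟩ : ∃ P, P = PP (ed ∘ σ) δ (K * (q * ms d L)) := ⟨_, rfl⟩
  obtain ⟨T1, hT1⟩ : ∃ T1, T1 = TT (ed ∘ σ) ω A δ (K1 * (q * ms d L)) := ⟨_, rfl⟩
  obtain ⟨ω1, hω1⟩ : ∃ ω1 : ℕ → Bool, ω1 = sh (K1 * (q * ms d L)) ω := ⟨_, rfl⟩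
  obtain ⟨A1, hA1⟩ : ∃ A1, A1 = A.image (gp (ed ∘ σ) ω (K1 * (q * ms d L))) := ⟨_, rfl⟩
  obtain ⟨T2, hT2⟩ : ∃ T2, T2 = TT (ed ∘ σ) ω1 A1 δ (K2 * (q * ms d L)) := ⟨_, rfl⟩
  obtain ⟨P1, hP1⟩ : ∃ P1, P1 = PP (ed ∘ σ) δ (K1 * (q * ms d L)) := ⟨_, rfl⟩
  obtain ⟨P2, hP2⟩ : ∃ P2, P2 = PP (ed ∘ σ) δ (K2 * (q * ms d L)) := ⟨_, rfl⟩
  have hTT : T = T1 * T2 := by
    rw [hT, hT1, hT2, hω1, hA1, hKK]
    exact TT_units Pool.Agent.Q68.LC.bas2 hσ ω A hδ.le hδ1 q K1 K2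
  have hPP : P = P1 * P2 := by
    rw [hPd, hP1, hP2, hKK]
    exact PP_units hσ hδ.le hδ1 q K1 K2
  have hE1 : Ev σ q K1 lam (r - ρ) ρ (κ₀ + 1) ω A := bl_Ev_fst hL3 hσ hEv K1 (by omega)
  have hE2 : Ev σ q K2 lam (r - ρ) ρ (κ₀ + 1) ω1 A1 := by
    rw [hω1, hA1]
    exact (Pool.Agent.Q277.LC.sub d L hL3 σ hσ q K lam (r - ρ) ρ (κ₀ + 1) ω A hEv K1 K2
      (by omega)).2
  have hDT : DS T := by rw [hT]; exact DS_TT _ _ _ hδ.le hδ1 _
  have hDT1 : DS T1 := by rw [hT1]; exact DS_TT _ _ _ hδ.le hδ1 _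
  have hDT2 : DS T2 := by rw [hT2]; exact DS_TT _ _ _ hδ.le hδ1 _
  have hDP1 : DS P1 := by rw [hP1]; exact DS_TT _ _ _ hδ.le hδ1 _
  have hDP2 : DS P2 := by rw [hP2]; exact DS_TT _ _ _ hδ.le hδ1 _
  have hDP : DS P := by rw [hPd]; exact DS_TT _ _ _ hδ.le hδ1 _
  have hz : ∀ x, x ∉ A → ∀ y ∈ A, T x y = 0 := by
    intro x hx y hy
    rw [hT]
    refine (Pool.Agent.Q68.LC.bas2 _ (ed ∘ σ) ω A δ hδ.le hδ1).2.2.2.2.1 _ x hx y ?_
    rw [inv_image _ A hInv]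
    exact hy
  have hCsn : 0 < Cs := by rw [hCs]; positivity
  have hs0 : 0 ≤ Cs * X := by positivity
  -- the sup of the first half
  have hs1 : ∀ x, x ∉ A → ∀ y, T1 x y ≤ Cs * X := by
    intro x hx y
    have h3 := hq2 q (by omega) σ hσ δ h1 h2 ω A hE1 ∅ x y (disjoint_empty_left _) hx 0
    rw [pow_zero, Matrix.mul_one, ← hT1] at h3
    have h4 : (c * (K1 : ℝ) / 3 * (((0 : ℕ) : ℝ) + 1)) ^ (-(d / 2 : ℝ)) ≤ c3 * X := by
      rw [hc3, hX, ← Real.mul_rpow (by positivity) hK0.le]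
      refine Real.rpow_le_rpow_of_nonpos (by positivity) ?_ (by rw [neg_nonpos]; positivity)
      push_cast
      have h6 : c * (K : ℝ) ≤ c * (3 * K1) := mul_le_mul_of_nonneg_left hK1r hc.le
      linarith
    have h5 : (Ck : ℝ) / (L : ℝ) ^ d ≤ Ck * X := by
      rw [div_eq_mul_one_div]
      exact mul_le_mul_of_nonneg_left hLX (Nat.cast_nonneg _)
    calc T1 x y ≤ Ck * X + c3 * X := h3.trans (add_le_add h5 h4)
      _ = (Ck + c3) * X := by ring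
      _ ≤ Cs * X := by
          refine mul_le_mul_of_nonneg_right ?_ hX0.le
          rw [hCs]
          have : 0 ≤ Cf * (e3 + 1) := by positivity
          linarith
  -- the differences
  obtain ⟨S, hS⟩ : ∃ S : ℝ, S = (8 * ρ + 16 * d) * K * A.card := ⟨_, rfl⟩
  have hρd : (0 : ℝ) ≤ 8 * ρ + 16 * d := by positivity
  have hAc : (0 : ℝ) ≤ A.card := Nat.cast_nonneg _
  have hKle1 : (K1 : ℝ) ≤ K := by exact_mod_cast (by omega : K1 ≤ K)
  have hKle2 : (K2 : ℝ) ≤ K := by exact_mod_cast (by omega : K2 ≤ K)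
  have hS1 : n1 (T1 - P1) ≤ S := by
    rw [hT1, hP1, hS]
    refine (bl_n1 hd1 hL3 hσ ω A hδ hδd h2 hE1.2.1).trans ?_
    rw [mul_assoc]
    exact mul_le_mul_of_nonneg_left (mul_le_mul_of_nonneg_right hKle1 hAc) hρd
  have hS2 : n1 (T2 - P2) ≤ S := by
    rw [hT2, hP2, hS]
    refine (bl_n1 hd1 hL3 hσ ω1 A1 hδ hδd h2 hE2.2.1).trans ?_
    rw [mul_assoc]
    refine mul_le_mul_of_nonneg_left (mul_le_mul hKle2 ?_ (Nat.cast_nonneg _) hK0.le) hρd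
    rw [hA1]
    exact_mod_cast Finset.card_image_le
  have hS3 : n1 (T1 * T2 - P1 * P2) ≤ S := by
    rw [← hTT, ← hPP, hT, hPd, hS]
    refine (bl_n1 hd1 hL3 hσ ω A hδ hδd h2 hEv.2.1).trans ?_
    rw [mul_assoc]
  have hcmp := fun k => bl_cmp hDT1 hDT2 hDP1 hDP2 A (by rw [← hTT]; exact hz) hs0 hs1
    (by rw [hP2]; exact hP K2 (by omega) hK2r)
    (by rw [← hPP, hPd]; exact hP K le_rfl (by linarith)) hS1 hS2 hS3 k
  rw [← hTT, ← hPP] at hcmp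
  have hPs : ∀ x y, P x y ≤ Cs * X := by rw [hPd]; exact hP K le_rfl (by linarith)
  rw [← hT, ← hPd]
  -- the error
  have hS0 : 0 ≤ S := by rw [hS]; exact mul_nonneg (mul_nonneg hρd hK0.le) hAc
  have hsum : ∑ k ∈ Finset.range k₀, ((k : ℝ) + 2) * ((Cs * X) * S) ≤
      k₀ * (k₀ + 1) * ((Cs * X) * S) := by
    rw [← Finset.sum_mul]
    refine mul_le_mul_of_nonneg_right ?_ (by positivity)
    calc ∑ k ∈ Finset.range k₀, ((k : ℝ) + 2) ≤ ∑ _k ∈ Finset.range k₀, ((k₀ : ℝ) + 1) := by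
          refine Finset.sum_le_sum fun k hk => ?_
          have : (k : ℝ) + 1 ≤ k₀ := by exact_mod_cast Finset.mem_range.1 hk
          linarith
      _ = _ := by rw [Finset.sum_const, Finset.card_range, nsmul_eq_mul]
  have hdiff : |∑ x ∈ univ \ A, fS w k₀ T x - ∑ x ∈ univ \ A, fS w k₀ P x| ≤
      k₀ * (k₀ + 1) * ((Cs * X) * S) := by
    refine le_trans ?_ hsum
    have e1 : ∑ x ∈ univ \ A, fS w k₀ T x - ∑ x ∈ univ \ A, fS w k₀ P x =
        ∑ k ∈ Finset.range k₀, w ^ (k + 1) *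
          ∑ x ∈ univ \ A, ((T ^ (k + 1)) x x - (P ^ (k + 1)) x x) := by
      unfold fS
      rw [Finset.sum_comm, Finset.sum_comm (s := univ \ A) (t := Finset.range k₀)
        (f := fun x k => w ^ (k + 1) * (P ^ (k + 1)) x x), ← Finset.sum_sub_distrib]
      refine Finset.sum_congr rfl fun k _ => ?_
      rw [Finset.sum_sub_distrib, mul_sub, Finset.mul_sum, Finset.mul_sum]
    rw [e1]
    refine (Finset.abs_sum_le_sum_abs _ _).trans (Finset.sum_le_sum fun k _ => ?_)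
    rw [abs_mul, abs_of_nonneg (pow_nonneg hw0 _)]
    have h3 : w ^ (k + 1) ≤ 1 := pow_le_one₀ hw0 hw1.le
    have h4 := (Finset.abs_sum_le_sum_abs (fun x => (T ^ (k + 1)) x x - (P ^ (k + 1)) x x)
      (univ \ A)).trans (hcmp k)
    calc w ^ (k + 1) * |∑ x ∈ univ \ A, ((T ^ (k + 1)) x x - (P ^ (k + 1)) x x)|
        ≤ 1 * |∑ x ∈ univ \ A, ((T ^ (k + 1)) x x - (P ^ (k + 1)) x x)| :=
          mul_le_mul_of_nonneg_right h3 (abs_nonneg _)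
      _ ≤ _ := by rw [one_mul]; exact h4
  have hfP0 : ∀ x, 0 ≤ fS w k₀ P x := fun x => Finset.sum_nonneg fun k _ =>
    mul_nonneg (pow_nonneg hw0 _) ((DS_pow hDP (k + 1)).nn x x)
  have hfPs : ∀ x, fS w k₀ P x ≤ k₀ * (Cs * X) := by
    intro x
    unfold fS
    calc ∑ k ∈ Finset.range k₀, w ^ (k + 1) * (P ^ (k + 1)) x x
        ≤ ∑ _k ∈ Finset.range k₀, (Cs * X) := by
          refine Finset.sum_le_sum fun k _ => ?_
          have h3 : w ^ (k + 1) ≤ 1 := pow_le_one₀ hw0 hw1.le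
          have h4 := DS_pow_le hDP hPs k x x
          have h5 := (DS_pow hDP (k + 1)).nn x x
          calc w ^ (k + 1) * (P ^ (k + 1)) x x ≤ 1 * (P ^ (k + 1)) x x :=
                mul_le_mul_of_nonneg_right h3 h5
            _ ≤ _ := by rw [one_mul]; exact h4
      _ = _ := by rw [Finset.sum_const, Finset.card_range, nsmul_eq_mul]
  have hsplit : ∑ x, fS w k₀ P x = ∑ x ∈ univ \ A, fS w k₀ P x + ∑ x ∈ A, fS w k₀ P x :=
    (Finset.sum_sdiff (Finset.subset_univ A)).symm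
  have hAs : ∑ x ∈ A, fS w k₀ P x ≤ k₀ * (Cs * X) * A.card := by
    refine (Finset.sum_le_sum fun x _ => hfPs x).trans (le_of_eq ?_)
    rw [Finset.sum_const, nsmul_eq_mul]
    ring
  have hA0 : 0 ≤ ∑ x ∈ A, fS w k₀ P x := Finset.sum_nonneg fun x _ => hfP0 x
  have herr : k₀ * (k₀ + 1) * ((Cs * X) * S) + k₀ * (Cs * X) * A.card ≤
      (k₀ * (k₀ + 1)) * ((Cs * X) * ((8 * ρ + 16 * d) * K + 1)) * A.card := by
    rw [hS]
    have hk0 : (0 : ℝ) ≤ k₀ := Nat.cast_nonneg _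
    have h3 : 0 ≤ (k₀ : ℝ) * k₀ * (Cs * X) * A.card := mul_nonneg (by positivity) hAc
    have h4 : (k₀ * (k₀ + 1)) * ((Cs * X) * ((8 * ρ + 16 * d) * K + 1)) * (A.card : ℝ) =
        k₀ * (k₀ + 1) * ((Cs * X) * ((8 * ρ + 16 * d) * K * A.card)) +
        k₀ * (Cs * X) * A.card + (k₀ : ℝ) * k₀ * (Cs * X) * A.card := by ring
    rw [h4]
    linarith
  have herr0 : 0 ≤ k₀ * (Cs * X) * (A.card : ℝ) := mul_nonneg (by positivity) hAc
  constructor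
  · -- upper bound
    have hU : ∀ x ∈ univ \ A, gG w (univ \ A) T x x ≤ fS w k₀ T x +
        (Ck / (L : ℝ) ^ d / (1 - w) + (c / 3) ^ (-(d / 2 : ℝ)) * X * tl d k₀) := by
      intro x hx
      have hx' : x ∉ A := (Finset.mem_sdiff.1 hx).2
      have hsm : Summable (fun k : ℕ => (c * K / 3 * ((k : ℝ) + 1)) ^ (-(d / 2 : ℝ))) := by
        refine ((tl_summable d hd).mul_left ((c * K / 3) ^ (-(d / 2 : ℝ)))).congr fun k => ?_
        rw [← Real.mul_rpow (by positivity) (by positivity)]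
      have h3 := gG_le (T := T) (A := A) hDT.nn hDT.row hw0 hw1 hz x hx' k₀ (Ck / (L : ℝ) ^ d)
        (fun k => (c * K / 3 * ((k : ℝ) + 1)) ^ (-(d / 2 : ℝ))) (by positivity) hsm
        (fun k => by positivity) (by
          intro k
          rw [hT]
          exact hq1 q (by omega) σ hσ δ h1 h2 ω A hEv (univ \ A) x x sdiff_disjoint hx' k)
      have h4 : ∑' k : ℕ, (c * K / 3 * (((k + k₀ : ℕ) : ℝ) + 1)) ^ (-(d / 2 : ℝ)) =
          (c / 3) ^ (-(d / 2 : ℝ)) * X * tl d k₀ := by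
        unfold tl
        rw [← tsum_mul_left]
        refine tsum_congr fun k => ?_
        rw [hX, ← Real.mul_rpow (by positivity) hK0.le, ← Real.mul_rpow (by positivity)
          (by positivity)]
        congr 1
        ring
      rw [h4] at h3
      unfold fS
      linarith
    have h5 : (c / 3) ^ (-(d / 2 : ℝ)) ≤ Cs := by
      have h6 : (c / 3) ^ (-(d / 2 : ℝ)) ≤ c3 := by
        rw [hc3]
        refine Real.rpow_le_rpow_of_nonpos (by positivity) (by linarith) ?_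
        rw [neg_nonpos]; positivity
      rw [hCs]
      have h7 : 0 ≤ Cf * (e3 + 1) := by positivity
      have h8 : (0 : ℝ) ≤ Ck := Nat.cast_nonneg _
      linarith
    have hw : 0 < 1 - w := by linarith
    have h6 : Ck / (L : ℝ) ^ d / (1 - w) + (c / 3) ^ (-(d / 2 : ℝ)) * X * tl d k₀ ≤
        ((Ck + 4 : ℕ) : ℝ) / ((L : ℝ) ^ d * (1 - w)) + Cs * X * tl d k₀ := by
      refine add_le_add ?_ ?_
      · rw [div_div]
        refine div_le_div_of_nonneg_right ?_ (by positivity)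
        push_cast
        linarith
      · exact mul_le_mul_of_nonneg_right (mul_le_mul_of_nonneg_right h5 hX0.le) (tl_nonneg d k₀)
    have h7 : ∑ x ∈ univ \ A, gG w (univ \ A) T x x ≤ ∑ x ∈ univ \ A, fS w k₀ T x +
        (L : ℝ) ^ d * (((Ck + 4 : ℕ) : ℝ) / ((L : ℝ) ^ d * (1 - w)) + Cs * X * tl d k₀) := by
      calc ∑ x ∈ univ \ A, gG w (univ \ A) T x x ≤ ∑ x ∈ univ \ A, (fS w k₀ T x +
            (((Ck + 4 : ℕ) : ℝ) / ((L : ℝ) ^ d * (1 - w)) + Cs * X * tl d k₀)) :=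
            Finset.sum_le_sum fun x hx => (hU x hx).trans (add_le_add le_rfl h6)
        _ = ∑ x ∈ univ \ A, fS w k₀ T x + ((univ \ A).card : ℝ) *
            (((Ck + 4 : ℕ) : ℝ) / ((L : ℝ) ^ d * (1 - w)) + Cs * X * tl d k₀) := by
            rw [Finset.sum_add_distrib, Finset.sum_const, nsmul_eq_mul]
        _ ≤ _ := by
            refine add_le_add le_rfl (mul_le_mul_of_nonneg_right ?_ ?_)
            · have h8 : (univ \ A).card ≤ L ^ d := by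
                refine (Finset.card_le_univ _).trans (le_of_eq ?_)
                rw [Fintype.card_fun, ZMod.card, Fintype.card_fin]
              exact_mod_cast h8
            · have := tl_nonneg d k₀
              positivity
    have h8 := (abs_le.1 hdiff).2
    linarith
  · have h3 : ∑ x ∈ univ \ A, fS w k₀ T x ≤ ∑ x ∈ univ \ A, gG w (univ \ A) T x x := by
      refine Finset.sum_le_sum fun x hx => ?_
      exact gG_ge hDT.nn hDT.row hw0 hw1 hz x (Finset.mem_sdiff.1 hx).2 k₀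
    have h4 := (abs_le.1 hdiff).1
    linarith

end torus

end Pool.Agent.U153
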