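import Pool.Agent.U153.McMom
import Pool.Agent.TH268.PD.Rec

/-!
# The law of the cycle length of a point and the mean number of macroscopic cycles
-/

set_option autoImplicit false

namespace Pool.Agent.U153

open Finset Equiv
open Pool.Agent.Y998.ST (stirExp nnRate stirLaw nn_nonneg law_nonneg exp_const exp_nonneg cycleLen)
open Pool.Agent.R517.PDS (dens stirExp_sum stirExp_smul dens_mem stirExp_mono)
open Pool.Agent.TH268.PD (Cyc cyOf)

/-- `1` up to `a`, `0` from `b` on -/
noncomputable def rmp (a b u : ℝ) : ℝ := max 0 (min 1 ((b - u) / (b - a)))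

theorem rmp_cont (a b : ℝ) : Continuous (rmp a b) := by
  unfold rmp
  fun_prop

theorem rmp_nonneg (a b u : ℝ) : 0 ≤ rmp a b u := le_max_left _ _

theorem rmp_le (a b u : ℝ) : rmp a b u ≤ 1 := max_le zero_le_one (min_le_left _ _)

theorem rmp_one {a b u : ℝ} (hab : a < b) (hu : u ≤ a) : rmp a b u = 1 := by
  unfold rmp
  rw [min_eq_left, max_eq_right zero_le_one]
  rw [le_div_iff₀ (by linarith)]
  linarith

theorem rmp_zero {a b u : ℝ} (hab : a < b) (hu : b ≤ u) : rmp a b u = 0 := by
  unfold rmp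
  refine max_eq_left ((min_le_right _ _).trans ?_)
  exact div_nonpos_of_nonpos_of_nonneg (by linarith) (by linarith)

theorem rmp_int {a b : ℝ} (h0 : 0 ≤ a) (hab : a < b) (h1 : b ≤ 1) :
    a ≤ (∫ u in (0 : ℝ)..1, rmp a b u) ∧ (∫ u in (0 : ℝ)..1, rmp a b u) ≤ b := by
  have hi : ∀ c e : ℝ, IntervalIntegrable (rmp a b) MeasureTheory.volume c e := fun c e =>
    (rmp_cont a b).intervalIntegrable _ _
  constructor
  · rw [← intervalIntegral.integral_add_adjacent_intervals (hi 0 a) (hi a 1)]
    have h2 : ∫ u in (0 : ℝ)..a, rmp a b u = a := by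
      have : ∫ u in (0 : ℝ)..a, rmp a b u = ∫ _u in (0 : ℝ)..a, (1 : ℝ) := by
        refine intervalIntegral.integral_congr fun u hu => ?_
        rw [Set.uIcc_of_le h0] at hu
        exact rmp_one hab hu.2
      rw [this]
      simp
    have h3 : 0 ≤ ∫ u in a..1, rmp a b u :=
      intervalIntegral.integral_nonneg (by linarith) fun u _ => rmp_nonneg a b u
    linarith
  · rw [← intervalIntegral.integral_add_adjacent_intervals (hi 0 b) (hi b 1)]
    have h2 : ∫ u in b..1, rmp a b u = 0 := by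
      have : ∫ u in b..1, rmp a b u = ∫ _u in b..1, (0 : ℝ) := by
        refine intervalIntegral.integral_congr fun u hu => ?_
        rw [Set.uIcc_of_le h1] at hu
        exact rmp_zero hab hu.1
      rw [this]
      simp
    have h3 : ∫ u in (0 : ℝ)..b, rmp a b u ≤ ∫ _u in (0 : ℝ)..b, (1 : ℝ) :=
      intervalIntegral.integral_mono_on (by linarith) (hi 0 b) (by simp) fun u _ => rmp_le a b u
    have h4 : ∫ _u in (0 : ℝ)..b, (1 : ℝ) = b := by simp
    linarith

/-- distribution function of the fraction of the torus in the cycle of `x` -/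
noncomputable def cdf (d L : ℕ) [NeZero L] (t : ℝ) (x : Fin d → ZMod L) (s : ℝ) : ℝ :=
  stirExp (nnRate d L) t (fun g => if dens g Finset.univ x ≤ s then 1 else 0)

theorem cdf_mono {d L : ℕ} [NeZero L] {t : ℝ} (ht : 0 ≤ t) (x : Fin d → ZMod L) {s s' : ℝ}
    (h : s ≤ s') : cdf d L t x s ≤ cdf d L t x s' := by
  unfold cdf
  refine stirExp_mono nn_nonneg ht _ _ fun g => ?_
  split_ifs with h1 h2
  · exact le_rfl
  · exact absurd (h1.trans h) h2
  · exact zero_le_one
  · exact le_rfl

theorem cdf_mem {d L : ℕ} [NeZero L] {t : ℝ} (ht : 0 ≤ t) (x : Fin d → ZMod L) (s : ℝ) :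
    0 ≤ cdf d L t x s ∧ cdf d L t x s ≤ 1 := by
  unfold cdf
  constructor
  · have h := stirExp_mono (J := nnRate d L) nn_nonneg ht (fun _ => 0)
      (fun g => if dens g Finset.univ x ≤ s then 1 else 0) fun g => by
        split_ifs <;> norm_num
    rwa [exp_const] at h
  · have h := stirExp_mono (J := nnRate d L) nn_nonneg ht
      (fun g => if dens g Finset.univ x ≤ s then 1 else 0) (fun _ => 1) fun g => by
        split_ifs <;> norm_num
    rwa [exp_const] at h

/-- the fraction of the torus in the cycle of a point is asymptotically uniform on `[0, 1]` -/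
theorem mc_law (d : ℕ) (hd : 3 ≤ d) : ∃ m : ℕ, ∀ ε : ℝ, 0 < ε → ∃ L₀ : ℕ,
    ∀ (L : ℕ) [NeZero L], L₀ ≤ L → ∀ t : ℝ, (Real.log L) ^ m ≤ t → ∀ x : Fin d → ZMod L,
      ∀ s : ℝ, 0 ≤ s → s ≤ 1 → |cdf d L t x s - s| ≤ ε := by
  obtain ⟨m, hm⟩ := mc_cont d hd
  refine ⟨m, fun ε hε => ?_⟩
  obtain ⟨M, hM⟩ := exists_nat_gt (4 / ε)
  have hM0 : (0 : ℝ) < M := lt_trans (by positivity) hM
  have hM1 : 0 < M := by exact_mod_cast hM0
  have hMε : 2 / (M : ℝ) ≤ ε / 2 := by
    rw [div_lt_iff₀ hε] at hM
    rw [div_le_iff₀ hM0]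
    linarith
  choose L₀ hL₀ using fun j : ℕ => hm (rmp (j / M) ((j + 1) / M))
    (rmp_cont _ _).continuousOn (ε / 2) (by positivity)
  refine ⟨(Finset.range M).sup L₀, ?_⟩
  intro L _ hL t ht x s hs0 hs1
  have hlog0 : 0 ≤ Real.log L := Real.log_natCast_nonneg L
  have ht00 : 0 ≤ t := (pow_nonneg hlog0 m).trans ht
  -- the grid
  have key : ∀ j : ℕ, j < M → cdf d L t x (j / M) ≤ (j + 1) / M + ε / 2 ∧
      j / M - ε / 2 ≤ cdf d L t x ((j + 1) / M) := by
    intro j hj
    have h1 := hL₀ j L ((Finset.le_sup (Finset.mem_range.2 hj)).trans hL) t ht x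
    have hab : (j : ℝ) / M < (j + 1) / M := div_lt_div_of_pos_right (by linarith) hM0
    have hb1 : ((j : ℝ) + 1) / M ≤ 1 := by
      rw [div_le_one hM0]
      exact_mod_cast hj
    have h2 := rmp_int (a := (j : ℝ) / M) (b := (j + 1) / M) (by positivity) hab hb1
    have h3 : cdf d L t x (j / M) ≤
        stirExp (nnRate d L) t (fun g => rmp (j / M) ((j + 1) / M) (dens g Finset.univ x)) := by
      unfold cdf
      refine stirExp_mono nn_nonneg ht00 _ _ fun g => ?_
      split_ifs with h
      · rw [rmp_one hab h]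
      · exact rmp_nonneg _ _ _
    have h4 : stirExp (nnRate d L) t (fun g => rmp (j / M) ((j + 1) / M)
        (dens g Finset.univ x)) ≤ cdf d L t x ((j + 1) / M) := by
      unfold cdf
      refine stirExp_mono nn_nonneg ht00 _ _ fun g => ?_
      split_ifs with h
      · exact rmp_le _ _ _
      · rw [rmp_zero hab (not_le.1 h).le]
    rw [abs_le] at h1
    constructor <;> linarith [h1.1, h1.2, h2.1, h2.2]
  obtain ⟨j, hj⟩ : ∃ j : ℕ, j = ⌊s * M⌋₊ := ⟨_, rfl⟩
  have hsM : 0 ≤ s * M := by positivity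
  have hj1 : (j : ℝ) ≤ s * M := by rw [hj]; exact Nat.floor_le hsM
  have hj2 : s * M < j + 1 := by rw [hj]; exact Nat.lt_floor_add_one _
  have hj3 : (j : ℝ) / M ≤ s := by rw [div_le_iff₀ hM0]; exact hj1
  have hj4 : s ≤ ((j : ℝ) + 1) / M := by rw [le_div_iff₀ hM0]; exact hj2.le
  have hm01 := cdf_mem ht00 x s
  rw [abs_le]
  constructor
  · -- lower bound
    rcases Nat.eq_zero_or_pos j with h0 | h0
    · have : s ≤ 1 / M := by simpa [h0] using hj4
      have h5 : 1 / (M : ℝ) ≤ 2 / M := div_le_div_of_nonneg_right (by norm_num) hM0.le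
      linarith [hm01.1]
    · obtain ⟨i, rfl⟩ : ∃ i, j = i + 1 := ⟨j - 1, by omega⟩
      have hiM : i < M := by
        have : ((i + 1 : ℕ) : ℝ) ≤ M := hj1.trans (by nlinarith)
        have : i + 1 ≤ M := by exact_mod_cast this
        omega
      have h6 := (key i hiM).2
      push_cast at hj3 hj4
      have h7 := cdf_mono ht00 x hj3
      have h8 : ((i : ℝ) + 1 + 1) / M = i / M + 2 / M := by ring
      rw [h8] at hj4
      linarith
  · -- upper bound
    rcases Nat.lt_or_ge (j + 1) M with h0 | h0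
    · have h6 := (key (j + 1) h0).1
      push_cast at h6
      have h7 := cdf_mono ht00 x hj4
      have h8 : ((j : ℝ) + 1 + 1) / M = j / M + 2 / M := by ring
      rw [h8] at h6
      linarith
    · have h9 : (M : ℝ) ≤ j + 1 := by exact_mod_cast h0
      have h10 : 1 - 1 / (M : ℝ) ≤ j / M := by
        rw [le_div_iff₀ hM0, sub_mul, one_div_mul_cancel hM0.ne']
        linarith
      have h5 : 1 / (M : ℝ) ≤ 2 / M := div_le_div_of_nonneg_right (by norm_num) hM0.le
      linarith [hm01.2]

section card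

variable {V : Type} [Fintype V] [DecidableEq V]

omit [DecidableEq V] in
theorem mc_len (g : Perm V) (x : V) :
    Nat.card {w : V // cyOf g w = cyOf g x} = cycleLen g x := by
  unfold cycleLen
  refine Nat.card_congr (Equiv.subtypeEquivRight fun w => ?_)
  constructor
  · intro h
    have h1 : g.SameCycle w x := Quotient.exact h
    exact h1.symm
  · intro h
    exact Quotient.sound (h.symm : g.SameCycle w x)

theorem mc_len_dens (g : Perm V) (x : V) :
    dens g Finset.univ x = (cycleLen g x : ℝ) / Fintype.card V := by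
  classical
  unfold Pool.Agent.R517.PDS.dens cycleLen
  rw [Finset.card_univ, Finset.sum_boole, Nat.card_eq_fintype_card, Fintype.card_subtype]

theorem mc_len_pos (g : Perm V) (x : V) : 0 < cycleLen g x := by
  classical
  unfold cycleLen
  rw [Nat.card_eq_fintype_card, Fintype.card_pos_iff]
  exact ⟨⟨x, Perm.SameCycle.refl g x⟩⟩

open Classical in
/-- the number of cycles whose length has a given property -/
theorem mc_card (g : Perm V) (p : ℕ → Prop) :
    ((Multiset.card (Multiset.filter p g.partition.parts) : ℕ) : ℝ) =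
      ∑ x, if p (cycleLen g x) then 1 / (cycleLen g x : ℝ) else 0 := by
  have : Finite (Cyc g) := Quotient.finite _
  have : Fintype (Cyc g) := Fintype.ofFinite _
  have h1 := Pool.Agent.TH268.PD.Rec.sum_cyc g (fun c : ℕ => if p c then (1 : ℚ) else 0)
  have h2 := Pool.Agent.TH268.PD.Rec.card_filter_sum p g.partition.parts
  rw [← h1] at h2
  have h3 : ((Multiset.card (Multiset.filter p g.partition.parts) : ℕ) : ℝ) =
      ∑ γ : Cyc g, if p (Nat.card {w : V // cyOf g w = γ}) then (1 : ℝ) else 0 := by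
    have h4 := congrArg (fun q : ℚ => (q : ℝ)) h2
    push_cast at h4
    rw [h4]
    refine Finset.sum_congr rfl fun γ _ => ?_
    split_ifs <;> norm_num
  rw [h3, ← Finset.sum_fiberwise (s := (univ : Finset V)) (g := cyOf g)]
  refine Finset.sum_congr rfl fun γ _ => ?_
  have h5 : ∀ w ∈ (univ : Finset V).filter (fun w => cyOf g w = γ),
      (if p (cycleLen g w) then 1 / (cycleLen g w : ℝ) else 0) =
      (if p (Nat.card {w : V // cyOf g w = γ}) then (1 : ℝ) else 0) /
        (Nat.card {w : V // cyOf g w = γ} : ℝ) := by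
    intro w hw
    rw [← mc_len g w, (Finset.mem_filter.1 hw).2]
    split_ifs <;> simp
  rw [Finset.sum_congr rfl h5, Finset.sum_const, nsmul_eq_mul]
  have h6 : #{w : V | cyOf g w = γ} = Nat.card {w : V // cyOf g w = γ} := by
    rw [Nat.card_eq_fintype_card, Fintype.card_subtype]
  rw [h6]
  have h7 : (Nat.card {w : V // cyOf g w = γ} : ℝ) ≠ 0 := by
    obtain ⟨w, hw⟩ := Quotient.exists_rep γ
    have : 0 < Nat.card {w : V // cyOf g w = γ} := by
      rw [Nat.card_eq_fintype_card, Fintype.card_pos_iff]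
      exact ⟨⟨w, hw⟩⟩
    exact_mod_cast this.ne'
  field_simp

end card

/-- the integral of `1 / max u a` -/
theorem mc_int {a : ℝ} (h0 : 0 < a) (h1 : a ≤ 1) :
    ∫ u in (0 : ℝ)..1, 1 / max u a = 1 - Real.log a := by
  have hc : Continuous fun u : ℝ => 1 / max u a := by
    refine continuous_const.div (continuous_id.max continuous_const) fun u => ?_
    exact (lt_max_of_lt_right h0).ne'
  rw [← intervalIntegral.integral_add_adjacent_intervals (hc.intervalIntegrable 0 a)
    (hc.intervalIntegrable a 1)]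
  have h2 : ∫ u in (0 : ℝ)..a, 1 / max u a = 1 := by
    have : ∫ u in (0 : ℝ)..a, 1 / max u a = ∫ _u in (0 : ℝ)..a, 1 / a := by
      refine intervalIntegral.integral_congr fun u hu => ?_
      rw [Set.uIcc_of_le h0.le] at hu
      rw [max_eq_right hu.2]
    rw [this, intervalIntegral.integral_const, smul_eq_mul, sub_zero, mul_one_div_cancel h0.ne']
  have h3 : ∫ u in a..1, 1 / max u a = - Real.log a := by
    have : ∫ u in a..1, 1 / max u a = ∫ u in a..1, 1 / u := by
      refine intervalIntegral.integral_congr fun u hu => ?_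
      rw [Set.uIcc_of_le h1] at hu
      rw [max_eq_left hu.1]
    rw [this, integral_one_div, one_div, Real.log_inv]
    rw [Set.uIcc_of_le h1]
    intro h
    exact absurd h.1 (not_le.2 h0)
  rw [h2, h3]
  ring

/-- the mean number of cycles with more than `a L ^ d` points tends to `log (1 / a)` -/
theorem mc_number (d : ℕ) (hd : 3 ≤ d) : ∃ m : ℕ, ∀ a : ℝ, 0 < a → a ≤ 1 → ∀ ε : ℝ, 0 < ε →
    ∃ L₀ : ℕ, ∀ (L : ℕ) [NeZero L], L₀ ≤ L → ∀ t : ℝ, (Real.log L) ^ m ≤ t →
      |stirExp (nnRate d L) t (fun g => (open Classical in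
        (Multiset.card (Multiset.filter (fun k : ℕ => a * (L : ℝ) ^ d < (k : ℝ))
          g.partition.parts) : ℝ))) - Real.log (1 / a)| ≤ ε := by
  classical
  obtain ⟨m₁, hm₁⟩ := mc_cont d hd
  obtain ⟨m₂, hm₂⟩ := mc_law d hd
  refine ⟨max m₁ m₂, fun a ha0 ha1 ε hε => ?_⟩
  have hc : Continuous fun u : ℝ => 1 / max u a := by
    refine continuous_const.div (continuous_id.max continuous_const) fun u => ?_
    exact (lt_max_of_lt_right ha0).ne'
  obtain ⟨L₁, hL₁⟩ := hm₁ (fun u => 1 / max u a) hc.continuousOn (ε / 2) (by positivity)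
  obtain ⟨L₂, hL₂⟩ := hm₂ (ε * a / 2) (by positivity)
  refine ⟨max (max L₁ L₂) (⌈Real.exp 1⌉₊ + 1), ?_⟩
  intro L _ hL t ht
  have hLa : L₁ ≤ L := ((le_max_left _ _).trans (le_max_left _ _)).trans hL
  have hLb : L₂ ≤ L := ((le_max_right _ _).trans (le_max_left _ _)).trans hL
  have hLe : ⌈Real.exp 1⌉₊ + 1 ≤ L := (le_max_right _ _).trans hL
  have hl : 1 ≤ Real.log L := by
    have h0 : Real.exp 1 ≤ L := (Nat.le_ceil _).trans (by exact_mod_cast (by omega))
    have hL0 : (0 : ℝ) < L := lt_of_lt_of_le (Real.exp_pos 1) h0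
    rw [Real.le_log_iff_exp_le hL0]
    exact h0
  have ht1 : (Real.log L) ^ m₁ ≤ t := (pow_le_pow_right₀ hl (le_max_left _ _)).trans ht
  have ht2 : (Real.log L) ^ m₂ ≤ t := (pow_le_pow_right₀ hl (le_max_right _ _)).trans ht
  have hV : (0 : ℝ) < (Fintype.card (Fin d → ZMod L) : ℝ) := by
    rw [lc_vol]
    exact lc_vol_pos
  have hVeq : (Fintype.card (Fin d → ZMod L) : ℝ) = (L : ℝ) ^ d := by
    rw [lc_vol]
  -- the count
  have e1 : (fun g : Perm (Fin d → ZMod L) => (Multiset.card (Multiset.filter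
      (fun k : ℕ => a * (L : ℝ) ^ d < (k : ℝ)) g.partition.parts) : ℝ)) =
      fun g => ∑ x : Fin d → ZMod L, (1 / (Fintype.card (Fin d → ZMod L) : ℝ)) *
        (1 / max (dens g Finset.univ x) a -
          (1 / a) * (if dens g Finset.univ x ≤ a then 1 else 0)) := by
    funext g
    rw [mc_card g (fun k : ℕ => a * (L : ℝ) ^ d < (k : ℝ))]
    refine Finset.sum_congr rfl fun x _ => ?_
    have hlen : (0 : ℝ) < cycleLen g x := by exact_mod_cast mc_len_pos g x
    rw [mc_len_dens, ← hVeq]
    by_cases h : a * (Fintype.card (Fin d → ZMod L) : ℝ) < cycleLen g x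
    · have h2 : a < (cycleLen g x : ℝ) / Fintype.card (Fin d → ZMod L) := by
        rwa [lt_div_iff₀ hV]
      rw [if_pos h, if_neg (not_le.2 h2), max_eq_left h2.le, mul_zero, sub_zero]
      field_simp
    · have h2 : (cycleLen g x : ℝ) / Fintype.card (Fin d → ZMod L) ≤ a := by
        rw [div_le_iff₀ hV]
        exact not_lt.1 h
      rw [if_neg h, if_pos h2, max_eq_right h2, mul_one, sub_self, mul_zero]
  rw [e1, stirExp_sum]
  have e2 : ∀ x : Fin d → ZMod L, stirExp (nnRate d L) t (fun g =>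
      (1 / (Fintype.card (Fin d → ZMod L) : ℝ)) * (1 / max (dens g Finset.univ x) a -
          (1 / a) * (if dens g Finset.univ x ≤ a then 1 else 0))) =
      (1 / (Fintype.card (Fin d → ZMod L) : ℝ)) *
        (stirExp (nnRate d L) t (fun g => 1 / max (dens g Finset.univ x) a) -
          (1 / a) * cdf d L t x a) := by
    intro x
    rw [stirExp_smul]
    congr 1
    have e3 : (fun g : Perm (Fin d → ZMod L) => 1 / max (dens g Finset.univ x) a -
          (1 / a) * (if dens g Finset.univ x ≤ a then 1 else 0)) =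
        fun g => 1 / max (dens g Finset.univ x) a +
          (-(1 / a)) * (if dens g Finset.univ x ≤ a then 1 else 0) := by
      funext g
      ring
    rw [e3, Pool.Agent.R517.PDS.stirExp_add, stirExp_smul]
    unfold cdf
    ring
  rw [Finset.sum_congr rfl fun x _ => e2 x]
  have e4 : Real.log (1 / a) = ∑ _x : Fin d → ZMod L,
      (1 / (Fintype.card (Fin d → ZMod L) : ℝ)) * Real.log (1 / a) := by
    rw [Finset.sum_const, Finset.card_univ, nsmul_eq_mul]
    field_simp
  rw [e4, ← Finset.sum_sub_distrib]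
  refine (Finset.abs_sum_le_sum_abs _ _).trans ?_
  have e5 : ∀ x : Fin d → ZMod L, |(1 / (Fintype.card (Fin d → ZMod L) : ℝ)) *
        (stirExp (nnRate d L) t (fun g => 1 / max (dens g Finset.univ x) a) -
          (1 / a) * cdf d L t x a) -
        (1 / (Fintype.card (Fin d → ZMod L) : ℝ)) * Real.log (1 / a)| ≤
        (1 / (Fintype.card (Fin d → ZMod L) : ℝ)) * ε := by
    intro x
    rw [← mul_sub, abs_mul, abs_of_pos (one_div_pos.2 hV)]
    refine mul_le_mul_of_nonneg_left ?_ (one_div_pos.2 hV).le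
    have h5 := hL₁ L hLa t ht1 x
    have h6 := hL₂ L hLb t ht2 x a ha0.le ha1
    rw [mc_int ha0 ha1] at h5
    have h7 : Real.log (1 / a) = - Real.log a := by rw [one_div, Real.log_inv]
    rw [h7]
    have h8 : |(1 / a) * cdf d L t x a - 1| ≤ ε / 2 := by
      have h9 : (1 / a) * cdf d L t x a - 1 = (1 / a) * (cdf d L t x a - a) := by
        field_simp
      rw [h9, abs_mul, abs_of_pos (one_div_pos.2 ha0)]
      calc 1 / a * |cdf d L t x a - a| ≤ 1 / a * (ε * a / 2) :=
            mul_le_mul_of_nonneg_left h6 (one_div_pos.2 ha0).le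
        _ = ε / 2 := by field_simp
    rw [abs_le] at h5 h8 ⊢
    constructor <;> linarith [h5.1, h5.2, h8.1, h8.2]
  refine (Finset.sum_le_sum fun x _ => e5 x).trans (le_of_eq ?_)
  rw [Finset.sum_const, Finset.card_univ, nsmul_eq_mul]
  field_simp

end Pool.Agent.U153
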