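import Pool.Agent.U153.BlLoc2
import Pool.Agent.U153.McLaw
import Pool.Agent.Q292.LC.Tail

/-!
# Short cycles: the density of the short cycles and the local law, all sizes of the torus
-/

set_option autoImplicit false
set_option linter.unusedSectionVars false
set_option linter.unusedVariables false

namespace Pool.Agent.U153

open Finset Equiv Matrix Q292.LC Filter Topology
open Pool.Agent.Y998.ST (stirExp nnRate qq stirLaw totalRate nn_nonneg law_nonneg exp_const cycleLen)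
open Pool.Agent.Q297.LC (stir_add stir_smul stir_sub)
open Pool.Agent.R517.PDS (stirExp_mono)

/-- the probability of a cycle of at most `n` points -/
noncomputable def cl {d L : ℕ} [NeZero L] (t : ℝ) (n : ℕ) (x : Fin d → ZMod L) : ℝ :=
  stirExp (nnRate d L) t (fun g => if (cyc g x).card ≤ n then 1 else 0)

theorem cl_mono {d L : ℕ} [NeZero L] {t : ℝ} (ht : 0 ≤ t) {n n' : ℕ} (h : n ≤ n')
    (x : Fin d → ZMod L) : cl t n x ≤ cl t n' x := by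
  unfold cl
  refine stirExp_mono nn_nonneg ht _ _ fun g => ?_
  by_cases h1 : (cyc g x).card ≤ n
  · rw [if_pos h1, if_pos (h1.trans h)]
  · rw [if_neg h1]
    split_ifs <;> norm_num

theorem pk_eq_cl {d L : ℕ} [NeZero L] (t : ℝ) (j : ℕ) (x : Fin d → ZMod L) :
    pk t (j + 1) x = cl t (j + 1) x - cl t j x := by
  unfold pk cl
  rw [← stir_sub]
  congr 1
  funext g
  by_cases h1 : (cyc g x).card ≤ j
  · rw [if_neg (by omega), if_pos (by omega), if_pos h1]; norm_num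
  · by_cases h2 : (cyc g x).card = j + 1
    · rw [if_pos h2, if_pos (by omega), if_neg h1]; norm_num
    · rw [if_neg h2, if_neg (by omega), if_neg h1]; norm_num

/-- polylogarithmic times: both laws -/
theorem fin_pol (d : ℕ) (hd : 3 ≤ d) : ∃ m : ℕ, 1 ≤ m ∧ ∀ ε : ℝ, 0 < ε →
    (∃ (t₀ η : ℝ) (n₀ : ℕ), 1 ≤ t₀ ∧ 0 < η ∧ 1 ≤ n₀ ∧ ∀ (L : ℕ) [NeZero L] (t : ℝ) (n : ℕ),
      t₀ ≤ t → (Real.log L) ^ m ≤ t → n₀ ≤ n → n * t ^ (d / 2 : ℝ) ≤ η * (L : ℝ) ^ d →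
      ∀ x : Fin d → ZMod L, |t ^ (d / 2 : ℝ) * cl t n x - hkc d * zt d| ≤ ε) ∧
    ∀ j : ℕ, ∃ t₀ η : ℝ, 1 ≤ t₀ ∧ 0 < η ∧ ∀ (L : ℕ) [NeZero L] (t : ℝ),
      t₀ ≤ t → (Real.log L) ^ m ≤ t → t ^ (d / 2 : ℝ) ≤ η * (L : ℝ) ^ d →
      ∀ x : Fin d → ZMod L,
      |t ^ (d / 2 : ℝ) * pk t (j + 1) x - hkc d * ((j : ℝ) + 1) ^ (-(d / 2 : ℝ))| ≤ ε := by
  obtain ⟨m₁, h₁⟩ := law_up d hd
  obtain ⟨m₂, h₂⟩ := law_low d hd
  obtain ⟨m₃, h₃⟩ := local_ind d hd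
  have hlog : ∀ (L : ℕ) [NeZero L] (t : ℝ) (k m : ℕ), 1 ≤ t → k ≤ m → (Real.log L) ^ m ≤ t →
      (Real.log L) ^ k ≤ t := by
    intro L _ t k m ht hk h
    have hLpos : 1 ≤ L := Nat.pos_of_ne_zero (NeZero.ne L)
    have hLr : (1 : ℝ) ≤ L := by exact_mod_cast hLpos
    have h0 := Real.log_nonneg hLr
    rcases le_or_gt 1 (Real.log L) with h1 | h1
    · exact (pow_le_pow_right₀ h1 hk).trans h
    · exact (pow_le_one₀ h0 h1.le).trans ht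
  refine ⟨m₁ + m₂ + m₃ + 1, by omega, fun ε hε => ⟨?_, fun j => ?_⟩⟩
  · obtain ⟨t₁, η₁, ht₁, hη₁, g₁⟩ := h₁ ε hε
    obtain ⟨t₂, η₂, n₀, ht₂, hη₂, hn₀, g₂⟩ := h₂ ε hε
    refine ⟨max t₁ t₂, min η₁ η₂, n₀, ht₁.trans (le_max_left _ _), lt_min hη₁ hη₂, hn₀,
      fun L _ t n ht hl hn hnt x => ?_⟩
    have ht1 : t₁ ≤ t := (le_max_left _ _).trans ht
    have ht2 : t₂ ≤ t := (le_max_right _ _).trans ht
    have ht01 : 1 ≤ t := ht₁.trans ht1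
    have hn1 : (1 : ℝ) ≤ n := by exact_mod_cast (by omega : 1 ≤ n)
    have hT : 0 < t ^ (d / 2 : ℝ) := by positivity
    have hLd : (0 : ℝ) ≤ (L : ℝ) ^ d := by positivity
    have u1 := g₁ L t n ht1 (hlog L t m₁ _ ht01 (by omega) hl) (by omega)
      (hnt.trans (mul_le_mul_of_nonneg_right (min_le_left _ _) hLd)) x
    have u2 := g₂ L t ht2 (hlog L t m₂ _ ht01 (by omega) hl)
      ((le_mul_of_one_le_left hT.le hn1).trans
        (hnt.trans (mul_le_mul_of_nonneg_right (min_le_right _ _) hLd))) x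
    have u3 := mul_le_mul_of_nonneg_left (cl_mono (by linarith : (0 : ℝ) ≤ t) hn x) hT.le
    have u1' : t ^ (d / 2 : ℝ) * cl t n x ≤ hkc d * zt d + ε := u1
    have u2' : hkc d * zt d - ε ≤ t ^ (d / 2 : ℝ) * cl t n₀ x := u2
    rw [abs_le]
    constructor <;> linarith
  · obtain ⟨t₃, η₃, ht₃, hη₃, g₃⟩ := h₃ (j + 1) ε hε
    refine ⟨t₃, η₃, ht₃, hη₃, fun L _ t ht hl hnt x => ?_⟩
    exact g₃ L t ht (hlog L t m₃ _ (ht₃.trans ht) (by omega) hl) hnt x j (by omega)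

open Classical in
/-- transfer to a small torus -/
theorem fin_tr (d : ℕ) (hd : 3 ≤ d) (m : ℕ) (hm : 1 ≤ m) (η ε : ℝ) (hη : 0 < η) (hε : 0 < ε) :
    ∃ t₀ : ℝ, 1 ≤ t₀ ∧ ∀ (t : ℝ) (n : ℕ), t₀ ≤ t → 1 ≤ n →
    (n : ℝ) ≤ Real.exp (t ^ (1 / (2 * m) : ℝ)) → ∃ L₀ : ℕ, ∃ _ : NeZero L₀,
    (Real.log L₀) ^ m ≤ t ∧ n * t ^ (d / 2 : ℝ) ≤ η * (L₀ : ℝ) ^ d ∧
    ∀ (L : ℕ) [NeZero L], t < (Real.log L) ^ m → ∀ k : ℕ, k ≤ n →
    ∀ (x : Fin d → ZMod L) (x₀ : Fin d → ZMod L₀),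
    |t ^ (d / 2 : ℝ) * cl t k x - t ^ (d / 2 : ℝ) * cl t k x₀| ≤ ε := by
  obtain ⟨C, hC, hlcs⟩ := bl_lcs d (by omega)
  have hC0 : 0 < C := by linarith
  obtain ⟨C', hC'⟩ : ∃ C' : ℝ, C' = C * (1 + 1 / ε) := ⟨_, rfl⟩
  have hC'1 : 1 ≤ C' := by
    rw [hC']
    have : 0 < 1 / ε := by positivity
    nlinarith
  have hm0 : (0 : ℝ) < m := by exact_mod_cast hm
  obtain ⟨t₀, ht₀, hp⟩ := tail_params d m hm C' hC'1
  refine ⟨max t₀ ((1 + 1 / η) ^ m), ht₀.trans (le_max_left _ _), fun t n ht hn hn2 => ?_⟩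
  have ht1 : t₀ ≤ t := (le_max_left _ _).trans ht
  have ht2 : (1 + 1 / η) ^ m ≤ t := (le_max_right _ _).trans ht
  have ht01 : 1 ≤ t := ht₀.trans ht1
  have ht00 : 0 < t := by linarith
  obtain ⟨L₀, R₀, D, hL₀, p1, p2, p3, p4, p5, p6, p7⟩ := hp t ht1 n hn hn2
  have : NeZero L₀ := ⟨hL₀⟩
  have hT : 0 < t ^ (d / 2 : ℝ) := by positivity
  have hTT : t ^ (d / 2 : ℝ) * t ^ (-(d / 2 : ℝ)) = 1 := by
    rw [← Real.rpow_add ht00]; simp
  have hL₀1 : (1 : ℝ) ≤ L₀ := by exact_mod_cast Nat.pos_of_ne_zero hL₀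
  have hL₀0 : (0 : ℝ) < L₀ := by linarith
  have hs : ∀ y : ℝ, 0 ≤ y → y ^ m ≤ t → y ≤ t ^ (1 / m : ℝ) := by
    intro y hy h
    calc y = (y ^ m) ^ (1 / m : ℝ) := by
          rw [← Real.rpow_natCast y m, ← Real.rpow_mul hy]
          rw [mul_one_div_cancel hm0.ne', Real.rpow_one]
      _ ≤ _ := Real.rpow_le_rpow (by positivity) h (by positivity)
  have hs2 : (t ^ (1 / m : ℝ)) ^ m = t := by
    rw [← Real.rpow_natCast (t ^ (1 / m : ℝ)) m, ← Real.rpow_mul ht00.le]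
    rw [one_div_mul_cancel hm0.ne', Real.rpow_one]
  refine ⟨L₀, inferInstance, ?_, ?_, ?_⟩
  · have h1 : Real.log L₀ ≤ t ^ (1 / m : ℝ) := (Real.log_le_iff_le_exp hL₀0).2 p1
    calc (Real.log L₀) ^ m ≤ (t ^ (1 / m : ℝ)) ^ m :=
          pow_le_pow_left₀ (Real.log_nonneg hL₀1) h1 m
      _ = t := hs2
  · have h1 : n * t ^ (d / 2 : ℝ) ≤ L₀ := by
      rw [div_le_iff₀ hL₀0] at p6
      calc n * t ^ (d / 2 : ℝ) ≤ (t ^ (-(d / 2 : ℝ)) * L₀) * t ^ (d / 2 : ℝ) :=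
            mul_le_mul_of_nonneg_right p6 hT.le
        _ = (t ^ (d / 2 : ℝ) * t ^ (-(d / 2 : ℝ))) * L₀ := by ring
        _ = L₀ := by rw [hTT, one_mul]
    have h2 : 1 / η ≤ L₀ := by
      have h3 := hs (1 + 1 / η) (by positivity) ht2
      have h4 := Real.add_one_le_exp (t ^ (1 / m : ℝ))
      linarith
    have h3 : 1 ≤ η * L₀ := by
      rw [div_le_iff₀ hη] at h2
      linarith
    have h4 : (L₀ : ℝ) ≤ (L₀ : ℝ) ^ (d - 1) := le_self_pow₀ hL₀1 (by omega)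
    calc n * t ^ (d / 2 : ℝ) ≤ L₀ := h1
      _ ≤ (η * L₀) * L₀ := by nlinarith
      _ ≤ (η * L₀) * (L₀ : ℝ) ^ (d - 1) := mul_le_mul_of_nonneg_left h4 (by positivity)
      _ = η * (L₀ : ℝ) ^ d := by
          rw [mul_assoc, ← pow_succ', Nat.sub_add_cancel (by omega)]
  · intro L _ hl k hk x x₀
    have hLpos : 1 ≤ L := Nat.pos_of_ne_zero (NeZero.ne L)
    have hLr : (1 : ℝ) ≤ L := by exact_mod_cast hLpos
    have hL0 : (0 : ℝ) < L := by linarith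
    have hlogL := Real.log_nonneg hLr
    have h1 : t ^ (1 / m : ℝ) < Real.log L := by
      by_contra hcon
      rw [not_lt] at hcon
      have := pow_le_pow_left₀ hlogL hcon m
      rw [hs2] at this
      linarith
    have h2 : Real.exp (t ^ (1 / m : ℝ)) < L := by
      rw [← Real.lt_log_iff_exp_lt hL0]
      exact h1
    have h3 : L₀ ≤ L := by
      have : (L₀ : ℝ) ≤ L := p1.trans h2.le
      exact_mod_cast this
    have hkD : k * D ≤ R₀ := (Nat.mul_le_mul_right D hk).trans p4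
    have q1 := hlcs L L₀ R₀ p3 (p3.trans h3) t k D ht01 hkD x x₀
    have q2 := hlcs L₀ L R₀ (p3.trans h3) p3 t k D ht01 hkD x₀ x
    obtain ⟨X, hX⟩ : ∃ X : ℝ, X = (2 * (R₀ : ℝ) + 1) ^ d * t * Real.exp (-(D / t)) := ⟨_, rfl⟩
    have hX0 : 0 ≤ X := by rw [hX]; positivity
    have e1 : C * (2 * (R₀ : ℝ) + 1) ^ d * t * Real.exp (-(D / t)) = C * X := by rw [hX]; ring
    have e2 : C' * (2 * (R₀ : ℝ) + 1) ^ d * t * Real.exp (-(D / t)) = C' * X := by rw [hX]; ring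
    rw [e1] at q1 q2
    rw [e2] at p7
    have e3 : C * X ≤ ε * t ^ (-(d / 2 : ℝ)) := by
      have h5 : C * X * (1 / ε) ≤ C' * X := by
        rw [hC']
        have : 0 ≤ C * X := by positivity
        nlinarith
      have h6 := h5.trans p7
      rw [mul_one_div, div_le_iff₀ hε] at h6
      linarith
    have e4 : t ^ (d / 2 : ℝ) * (C * X) ≤ ε := by
      calc t ^ (d / 2 : ℝ) * (C * X) ≤ t ^ (d / 2 : ℝ) * (ε * t ^ (-(d / 2 : ℝ))) :=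
            mul_le_mul_of_nonneg_left e3 hT.le
        _ = ε * (t ^ (d / 2 : ℝ) * t ^ (-(d / 2 : ℝ))) := by ring
        _ = ε := by rw [hTT, mul_one]
    have q1' : cl t k x ≤ cl t k x₀ + C * X := q1
    have q2' : cl t k x₀ ≤ cl t k x + C * X := q2
    have q3 := mul_le_mul_of_nonneg_left q1' hT.le
    have q4 := mul_le_mul_of_nonneg_left q2' hT.le
    rw [mul_add] at q3 q4
    rw [abs_le]
    constructor <;> linarith

/-- DENSITY OF THE SHORT CYCLES -/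
theorem fin_den (d : ℕ) (hd : 3 ≤ d) : ∃ m : ℕ, 1 ≤ m ∧ ∀ ε : ℝ, 0 < ε →
    ∃ (t₀ η : ℝ) (n₀ : ℕ), 1 ≤ t₀ ∧ 0 < η ∧ 1 ≤ n₀ ∧ ∀ (L : ℕ) [NeZero L] (t : ℝ) (n : ℕ),
      t₀ ≤ t → n₀ ≤ n → n * t ^ (d / 2 : ℝ) ≤ η * (L : ℝ) ^ d →
      ((Real.log L) ^ m ≤ t ∨ (n : ℝ) ≤ Real.exp (t ^ (1 / (2 * m) : ℝ))) →
      ∀ x : Fin d → ZMod L, |t ^ (d / 2 : ℝ) * cl t n x - hkc d * zt d| ≤ ε := by
  obtain ⟨m, hm, h⟩ := fin_pol d hd
  refine ⟨m, hm, fun ε hε => ?_⟩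
  obtain ⟨⟨t₁, η, n₀, ht₁, hη, hn₀, h1⟩, -⟩ := h (ε / 2) (by positivity)
  obtain ⟨t₂, ht₂, h2⟩ := fin_tr d hd m hm η (ε / 2) hη (by positivity)
  refine ⟨max t₁ t₂, η, n₀, ht₁.trans (le_max_left _ _), hη, hn₀,
    fun L _ t n ht hn hnt hcase x => ?_⟩
  have hta : t₁ ≤ t := (le_max_left _ _).trans ht
  have htb : t₂ ≤ t := (le_max_right _ _).trans ht
  rcases le_or_gt ((Real.log L) ^ m) t with hl | hl
  · exact (h1 L t n hta hl hn hnt x).trans (by linarith)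
  · have hn' : (n : ℝ) ≤ Real.exp (t ^ (1 / (2 * m) : ℝ)) := by
      rcases hcase with hc | hc
      · exact absurd hc (not_le.2 hl)
      · exact hc
    obtain ⟨L₀, hL₀, a1, a2, a3⟩ := h2 t n htb (by omega) hn'
    have b1 := h1 L₀ t n hta a1 hn a2 0
    have b2 := a3 L hl n le_rfl x 0
    rw [abs_le] at b1 b2 ⊢
    constructor <;> linarith [b1.1, b1.2, b2.1, b2.2]

/-- LOCAL LAW -/
theorem fin_loc (d : ℕ) (hd : 3 ≤ d) (j : ℕ) (ε : ℝ) (hε : 0 < ε) :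
    ∃ t₀ η : ℝ, 1 ≤ t₀ ∧ 0 < η ∧ ∀ (L : ℕ) [NeZero L] (t : ℝ), t₀ ≤ t →
      t ^ (d / 2 : ℝ) ≤ η * (L : ℝ) ^ d → ∀ x : Fin d → ZMod L,
      |t ^ (d / 2 : ℝ) * pk t (j + 1) x - hkc d * ((j : ℝ) + 1) ^ (-(d / 2 : ℝ))| ≤ ε := by
  obtain ⟨m, hm, h⟩ := fin_pol d hd
  obtain ⟨-, h'⟩ := h (ε / 4) (by positivity)
  obtain ⟨t₁, η, ht₁, hη, h1⟩ := h' j
  obtain ⟨t₂, ht₂, h2⟩ := fin_tr d hd m hm η (ε / 4) hη (by positivity)
  have hm0 : (0 : ℝ) < m := by exact_mod_cast hm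
  have hlim : Tendsto (fun t : ℝ => Real.exp (t ^ (1 / (2 * m) : ℝ))) atTop atTop :=
    Real.tendsto_exp_atTop.comp (tendsto_rpow_atTop (by positivity))
  obtain ⟨t₃, ht₃⟩ := eventually_atTop.1 (hlim.eventually_ge_atTop (((j + 1 : ℕ) : ℝ)))
  refine ⟨max t₁ (max t₂ t₃), η, ht₁.trans (le_max_left _ _), hη, fun L _ t ht hnt x => ?_⟩
  have hta : t₁ ≤ t := (le_max_left _ _).trans ht
  have htb : t₂ ≤ t := ((le_max_left _ _).trans (le_max_right _ _)).trans ht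
  have htc : t₃ ≤ t := ((le_max_right _ _).trans (le_max_right _ _)).trans ht
  rcases le_or_gt ((Real.log L) ^ m) t with hl | hl
  · exact (h1 L t hta hl hnt x).trans (by linarith)
  · obtain ⟨L₀, hL₀, a1, a2, a3⟩ := h2 t (j + 1) htb (by omega) (ht₃ t htc)
    have hT : 0 < t ^ (d / 2 : ℝ) := by
      have : 0 < t := by linarith
      positivity
    have a2' : t ^ (d / 2 : ℝ) ≤ η * (L₀ : ℝ) ^ d := by
      refine (le_mul_of_one_le_left hT.le ?_).trans a2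
      push_cast
      linarith [Nat.cast_nonneg (α := ℝ) j]
    have b1 := h1 L₀ t hta a1 a2' 0
    have b2 := a3 L hl (j + 1) le_rfl x 0
    have b3 := a3 L hl j (by omega) x 0
    rw [pk_eq_cl] at b1 ⊢
    rw [mul_sub] at b1 ⊢
    rw [abs_le] at b1 b2 b3 ⊢
    constructor <;> linarith [b1.1, b1.2, b2.1, b2.2, b3.1, b3.2]

end Pool.Agent.U153
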