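import Pool.Agent.Y998.ST.Torus
import Pool.Agent.Y998.CN.Tor

/-!
# Asymptotics of the heat kernel of the torus on the diagonal
-/

set_option autoImplicit false

namespace Pool.Agent.U153

open Finset Filter Topology MeasureTheory
open Pool.Agent.Y998.ST (nnRate qq gk lam rc rc_zero lam_lower qq_eq_hk hk)

/-- the integral of `exp (-x²)` over `[0, y]` -/
noncomputable def ef (y : ℝ) : ℝ := ∫ u in (0:ℝ)..y, Real.exp (-u ^ 2)

theorem ef_lim : Tendsto ef atTop (𝓝 (Real.sqrt Real.pi / 2)) := by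
  have h1 : IntegrableOn (fun x : ℝ => Real.exp (-x ^ 2)) (Set.Ioi 0) := by
    have := (integrable_exp_neg_mul_sq (b := 1) one_pos).integrableOn (s := Set.Ioi (0:ℝ))
    simpa using this
  have h2 := intervalIntegral_tendsto_integral_Ioi (0 : ℝ) h1 tendsto_id
  have h3 : ∫ x in Set.Ioi (0:ℝ), Real.exp (-x ^ 2) = Real.sqrt Real.pi / 2 := by
    have := integral_gaussian_Ioi 1
    simpa using this
  rw [h3] at h2
  exact h2

theorem ef_mono {x y : ℝ} (hxy : x ≤ y) : ef x ≤ ef y := by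
  unfold ef
  have hi : ∀ a b : ℝ, IntervalIntegrable (fun u : ℝ => Real.exp (-u ^ 2)) volume a b := fun a b =>
    (by fun_prop : Continuous fun u : ℝ => Real.exp (-u ^ 2)).intervalIntegrable a b
  rw [← intervalIntegral.integral_add_adjacent_intervals (hi 0 x) (hi x y)]
  have := intervalIntegral.integral_nonneg (μ := volume) hxy (fun u _ => (Real.exp_pos (-u ^ 2)).le)
  linarith

theorem ef_le (y : ℝ) : ef y ≤ Real.sqrt Real.pi / 2 :=
  ge_of_tendsto ef_lim (eventually_atTop.2 ⟨y, fun _ hz => ef_mono hz⟩)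

theorem ef_scale {b : ℝ} (hb : 0 < b) (R : ℝ) :
    ∫ x in (0:ℝ)..R, Real.exp (-(b ^ 2 * x ^ 2)) = (1 / b) * ef (b * R) := by
  unfold ef
  have h := intervalIntegral.integral_comp_mul_left (a := 0) (b := R)
    (fun u : ℝ => Real.exp (-u ^ 2)) hb.ne'
  rw [mul_zero] at h
  have h2 : ∀ x : ℝ, Real.exp (-(b ^ 2 * x ^ 2)) = Real.exp (-(b * x) ^ 2) := by
    intro x
    rw [mul_pow]
  simp only [h2]
  rw [h, smul_eq_mul, one_div]

theorem gauss_anti {b : ℝ} (R : ℝ) :
    AntitoneOn (fun x : ℝ => Real.exp (-(b ^ 2 * x ^ 2))) (Set.Icc 0 R) := by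
  intro x hx y hy hxy
  refine Real.exp_le_exp.2 (neg_le_neg ?_)
  have := hx.1
  gcongr

/-- lower Riemann sum bound -/
theorem gauss_sum_ge {b : ℝ} (hb : 0 < b) (n : ℕ) :
    (1 / b) * ef (b * n) ≤ ∑ m ∈ Finset.range n, Real.exp (-(b ^ 2 * (m : ℝ) ^ 2)) := by
  have h := (gauss_anti (b := b) (0 + n)).integral_le_sum
  rw [zero_add, ef_scale hb] at h
  refine h.trans (le_of_eq (Finset.sum_congr rfl fun m _ => ?_))
  rw [zero_add]

theorem gauss_sum_le {b : ℝ} (hb : 0 < b) (n : ℕ) :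
    ∑ m ∈ Finset.range n, Real.exp (-(b ^ 2 * ((m : ℝ) + 1) ^ 2)) ≤
      (1 / b) * (Real.sqrt Real.pi / 2) := by
  have h := (gauss_anti (b := b) (0 + n)).sum_le_integral
  rw [zero_add, ef_scale hb] at h
  refine le_trans (le_of_eq (Finset.sum_congr rfl fun m _ => ?_))
    (h.trans (mul_le_mul_of_nonneg_left (ef_le _) (by positivity)))
  rw [zero_add]
  push_cast
  rfl

section line

variable {L : ℕ} [NeZero L]

theorem gk_diag (s : ℝ) : gk L s 0 = (1 / L : ℝ) * ∑ k : ZMod L, Real.exp (-(s * lam k)) := by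
  unfold gk
  congr 1
  refine Finset.sum_congr rfl fun k _ => ?_
  rw [mul_zero, rc_zero, mul_one]

theorem lam_int (m : ℤ) : lam ((m : ℤ) : ZMod L) = 2 - 2 * Real.cos (2 * Real.pi * m / L) := by
  unfold lam rc
  have h2 : (ZMod.stdAddChar ((m : ℤ) : ZMod L) : ℂ) =
      Complex.exp (2 * Real.pi * Complex.I * ((m : ℤ) : ℂ) / L) := ZMod.stdAddChar_coe m
  have h3 : (2 * Real.pi * Complex.I * (m : ℂ) / L : ℂ) =
      ((2 * Real.pi * m / L : ℝ) : ℂ) * Complex.I := by
    push_cast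
    ring
  rw [h2, h3, Complex.exp_ofReal_mul_I_re]

theorem gk_lower {s : ℝ} (hs : 0 < s) :
    (1 / Real.pi) * ef (Real.pi * Real.sqrt s) - Real.sqrt s / L ≤ Real.sqrt s * gk L s 0 := by
  have hL : (0 : ℝ) < L := by exact_mod_cast Nat.pos_of_ne_zero (NeZero.ne L)
  have hpi := Real.pi_pos
  have hss : 0 < Real.sqrt s := Real.sqrt_pos.2 hs
  obtain ⟨b, hb⟩ : ∃ b : ℝ, b = 2 * Real.pi * Real.sqrt s / L := ⟨_, rfl⟩
  have hb0 : 0 < b := by rw [hb]; positivity
  obtain ⟨M, hM⟩ : ∃ M : ℕ, M = (L - 1) / 2 := ⟨_, rfl⟩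
  have hL1 : 1 ≤ L := Nat.pos_of_ne_zero (NeZero.ne L)
  obtain ⟨g, hg⟩ : ∃ g : ℤ → ℝ, g = fun m : ℤ => Real.exp (-(b ^ 2 * (m : ℝ) ^ 2)) := ⟨_, rfl⟩
  have hg0 : ∀ m, 0 ≤ g m := fun m => by rw [hg]; exact (Real.exp_pos _).le
  have h1 : ∀ m : ℤ, g m ≤ Real.exp (-(s * lam ((m : ℤ) : ZMod L))) := by
    intro m
    rw [hg, lam_int]
    refine Real.exp_le_exp.2 (neg_le_neg ?_)
    have h2 := Real.one_sub_sq_div_two_le_cos (x := 2 * Real.pi * m / L)
    have h3 : b ^ 2 * (m : ℝ) ^ 2 = s * (2 * Real.pi * m / L) ^ 2 := by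
      rw [hb, div_pow, mul_pow, Real.sq_sqrt hs.le]
      field_simp
    rw [h3]
    refine mul_le_mul_of_nonneg_left ?_ hs.le
    linarith
  -- the sum over the integers in [-M, M]
  have h2 : ∑ m ∈ Finset.Icc (-(M : ℤ)) M, g m ≤ ∑ k : ZMod L, Real.exp (-(s * lam k)) := by
    calc ∑ m ∈ Finset.Icc (-(M : ℤ)) M, g m
        ≤ ∑ m ∈ Finset.Icc (-(M : ℤ)) M, Real.exp (-(s * lam ((m : ℤ) : ZMod L))) :=
          Finset.sum_le_sum fun m _ => h1 m
      _ = ∑ k ∈ (Finset.Icc (-(M : ℤ)) M).image (fun m : ℤ => (m : ZMod L)),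
            Real.exp (-(s * lam k)) := by
          rw [Finset.sum_image]
          intro a ha c hc hac
          rw [Finset.mem_coe, Finset.mem_Icc] at ha hc
          have h3 : ((a - c : ℤ) : ZMod L) = 0 := by
            push_cast
            exact sub_eq_zero.2 hac
          rw [ZMod.intCast_zmod_eq_zero_iff_dvd] at h3
          obtain ⟨t, ht⟩ := h3
          have h4 : |a - c| < L := by
            rw [abs_lt]
            constructor <;> omega
          rw [ht, abs_mul] at h4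
          have h5 : |t| = 0 := by
            by_contra h6
            have h7 : 1 ≤ |t| := by
              have := abs_nonneg t
              omega
            have h8 : (L : ℤ) ≤ |(L : ℤ)| * |t| := by
              rw [abs_of_nonneg (by omega : (0 : ℤ) ≤ L)]
              nlinarith
            omega
          rw [abs_eq_zero] at h5
          rw [h5, mul_zero] at ht
          omega
      _ ≤ _ := Finset.sum_le_sum_of_subset_of_nonneg (Finset.subset_univ _)
          fun k _ _ => (Real.exp_pos _).le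
  have h3 : 2 * ∑ m ∈ Finset.range (M + 1), g m - 1 ≤ ∑ m ∈ Finset.Icc (-(M : ℤ)) M, g m := by
    have h4 : (Finset.range (M + 1)).image (fun m : ℕ => (m : ℤ)) ∪
        (Finset.range M).image (fun m : ℕ => -((m : ℤ) + 1)) ⊆ Finset.Icc (-(M : ℤ)) M := by
      intro m hm
      rw [Finset.mem_Icc]
      rw [Finset.mem_union, Finset.mem_image, Finset.mem_image] at hm
      rcases hm with ⟨a, ha, rfl⟩ | ⟨a, ha, rfl⟩
      · have := Finset.mem_range.1 ha
        constructor <;> omega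
      · have := Finset.mem_range.1 ha
        constructor <;> omega
    have h5 : Disjoint ((Finset.range (M + 1)).image (fun m : ℕ => (m : ℤ)))
        ((Finset.range M).image (fun m : ℕ => -((m : ℤ) + 1))) := by
      rw [Finset.disjoint_left]
      intro m hm hm2
      obtain ⟨a, _, rfl⟩ := Finset.mem_image.1 hm
      obtain ⟨c, _, hc⟩ := Finset.mem_image.1 hm2
      omega
    refine le_trans ?_ (Finset.sum_le_sum_of_subset_of_nonneg h4 fun m _ _ => hg0 m)
    rw [Finset.sum_union h5, Finset.sum_image (fun a _ c _ h => by exact_mod_cast h),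
      Finset.sum_image (by intro a _ c _ hac; simp only at hac; omega)]
    have h6 : ∑ m ∈ Finset.range M, g (-((m : ℤ) + 1)) = ∑ m ∈ Finset.range M, g ((m + 1 : ℕ) : ℤ) := by
      refine Finset.sum_congr rfl fun m _ => ?_
      rw [hg]
      dsimp only
      congr 2
      push_cast
      ring
    have h7 := Finset.sum_range_succ' (fun m : ℕ => g (m : ℤ)) M
    have h8 : g ((0 : ℕ) : ℤ) = 1 := by
      rw [hg]
      simp
    rw [h6]
    rw [h8] at h7
    linarith
  have h4 := gauss_sum_ge hb0 (M + 1)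
  have h5 : ∑ m ∈ Finset.range (M + 1), g m =
      ∑ m ∈ Finset.range (M + 1), Real.exp (-(b ^ 2 * (m : ℝ) ^ 2)) := by
    refine Finset.sum_congr rfl fun m _ => ?_
    rw [hg]
    simp
  have h6 : Real.pi * Real.sqrt s ≤ b * ((M + 1 : ℕ) : ℝ) := by
    have h7 : (L : ℝ) / 2 ≤ ((M + 1 : ℕ) : ℝ) := by
      have : L ≤ 2 * (M + 1) := by omega
      have : (L : ℝ) ≤ 2 * ((M + 1 : ℕ) : ℝ) := by exact_mod_cast this
      linarith
    have h8 : Real.pi * Real.sqrt s = b * (L / 2) := by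
      rw [hb]
      field_simp
    rw [h8]
    exact mul_le_mul_of_nonneg_left h7 hb0.le
  have h7 : ef (Real.pi * Real.sqrt s) ≤ ef (b * ((M + 1 : ℕ) : ℝ)) := ef_mono h6
  rw [gk_diag]
  have h8 : 2 * ((1 / b) * ef (Real.pi * Real.sqrt s)) - 1 ≤
      ∑ k : ZMod L, Real.exp (-(s * lam k)) := by
    have h9 : (1 / b) * ef (Real.pi * Real.sqrt s) ≤ (1 / b) * ef (b * ((M + 1 : ℕ) : ℝ)) :=
      mul_le_mul_of_nonneg_left h7 (by positivity)
    rw [← h5] at h4
    linarith
  have h9 : Real.sqrt s * ((1 / L : ℝ) * (2 * ((1 / b) * ef (Real.pi * Real.sqrt s)) - 1)) =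
      (1 / Real.pi) * ef (Real.pi * Real.sqrt s) - Real.sqrt s / L := by
    rw [hb]
    field_simp
  rw [← h9]
  exact mul_le_mul_of_nonneg_left (mul_le_mul_of_nonneg_left h8 (by positivity)) hss.le

theorem gk_upper {s κ : ℝ} (hs : 0 < s) (hκ : 0 < κ) (hκ1 : κ < 1) :
    Real.sqrt s * gk L s 0 ≤ 1 / (2 * Real.sqrt Real.pi * Real.sqrt (1 - κ)) + Real.sqrt s / L +
      Real.sqrt s * Real.exp (-(2 / 5 * κ * s)) := by
  have hL : (0 : ℝ) < L := by exact_mod_cast Nat.pos_of_ne_zero (NeZero.ne L)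
  have hpi := Real.pi_pos
  have hss : 0 < Real.sqrt s := Real.sqrt_pos.2 hs
  have hk : 0 < Real.sqrt (1 - κ) := Real.sqrt_pos.2 (by linarith)
  obtain ⟨b, hb⟩ : ∃ b : ℝ, b = Real.sqrt (1 - κ) * (2 * Real.pi * Real.sqrt s / L) := ⟨_, rfl⟩
  have hb0 : 0 < b := by rw [hb]; positivity
  have hterm : ∀ k : ZMod L, Real.exp (-(s * lam k)) ≤
      Real.exp (-(b ^ 2 * (k.valMinAbs : ℝ) ^ 2)) + Real.exp (-(2 / 5 * κ * s)) := by
    intro k
    obtain ⟨θ, hθ⟩ : ∃ θ : ℝ, θ = 2 * Real.pi * k.valMinAbs / L := ⟨_, rfl⟩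
    have h1 : lam k = 2 - 2 * Real.cos θ := by
      rw [hθ, ← lam_int, ZMod.coe_valMinAbs]
    have hbθ : b ^ 2 * (k.valMinAbs : ℝ) ^ 2 = s * ((1 - κ) * θ ^ 2) := by
      rw [hb, hθ, mul_pow, div_pow, mul_pow (2 * Real.pi), Real.sq_sqrt hs.le,
        Real.sq_sqrt (by linarith)]
      field_simp
    by_cases hc : θ ^ 2 ≤ κ
    · have h2 : |θ| ≤ 1 := by
        rw [abs_le_one_iff_mul_self_le_one]
        nlinarith
      have h3 := (abs_le.1 (Real.cos_bound h2)).2
      have h4 : |θ| ^ 4 = θ ^ 4 := by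
        rw [show (4 : ℕ) = 2 * 2 by norm_num, pow_mul, pow_mul, sq_abs]
      rw [h4] at h3
      have h5 : (1 - κ) * θ ^ 2 ≤ lam k := by
        rw [h1]
        have h6 : θ ^ 4 = θ ^ 2 * θ ^ 2 := by ring
        nlinarith [sq_nonneg θ, mul_le_mul_of_nonneg_left hc (sq_nonneg θ)]
      refine le_trans (Real.exp_le_exp.2 (neg_le_neg ?_)) (le_add_of_nonneg_right
        (Real.exp_pos _).le)
      rw [hbθ]
      exact mul_le_mul_of_nonneg_left h5 hs.le
    · push Not at hc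
      have h2 := lam_lower k
      have h3 : 16 * ((k.valMinAbs : ℝ) / L) ^ 2 = 4 / Real.pi ^ 2 * θ ^ 2 := by
        rw [hθ]
        field_simp
        ring
      have h4 : 2 / 5 * κ ≤ lam k := by
        refine le_trans ?_ h2
        rw [h3]
        have h5 : 2 / 5 ≤ 4 / Real.pi ^ 2 := by
          rw [div_le_div_iff₀ (by norm_num) (by positivity)]
          have := Real.pi_lt_d2
          nlinarith
        nlinarith
      refine le_trans (Real.exp_le_exp.2 (neg_le_neg ?_)) (le_add_of_nonneg_left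
        (Real.exp_pos _).le)
      nlinarith
  have h1 : ∑ k : ZMod L, Real.exp (-(s * lam k)) ≤
      (1 + 2 * ((1 / b) * (Real.sqrt Real.pi / 2))) + L * Real.exp (-(2 / 5 * κ * s)) := by
    refine (Finset.sum_le_sum fun k _ => hterm k).trans ?_
    rw [Finset.sum_add_distrib, Finset.sum_const, Finset.card_univ, ZMod.card, nsmul_eq_mul]
    refine add_le_add ?_ le_rfl
    have h5 : ∑ k : ZMod L, Real.exp (-(b ^ 2 * (k.valMinAbs : ℝ) ^ 2)) ≤
        ∑ m ∈ Finset.Icc (-(L : ℤ)) L, Real.exp (-(b ^ 2 * (m : ℝ) ^ 2)) := by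
      have h6 : ∑ k : ZMod L, Real.exp (-(b ^ 2 * (k.valMinAbs : ℝ) ^ 2)) =
          ∑ m ∈ Finset.univ.image (fun k : ZMod L => k.valMinAbs),
            Real.exp (-(b ^ 2 * (m : ℝ) ^ 2)) := by
        rw [Finset.sum_image]
        intro a _ b _ hab
        exact ZMod.injective_valMinAbs hab
      rw [h6]
      refine Finset.sum_le_sum_of_subset_of_nonneg ?_ fun m _ _ => (Real.exp_pos _).le
      intro m hm
      obtain ⟨k, _, rfl⟩ := Finset.mem_image.1 hm
      have h7 := ZMod.valMinAbs_mem_Ioc k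
      rw [Finset.mem_Icc]
      have h8 := h7.1
      have h9 := h7.2
      constructor <;> omega
    refine h5.trans ?_
    have h6 : Finset.Icc (-(L : ℤ)) L = insert 0 ((Finset.range L).image (fun m : ℕ => (m : ℤ) + 1) ∪
        (Finset.range L).image (fun m : ℕ => -((m : ℤ) + 1))) := by
      ext m
      simp only [Finset.mem_Icc, Finset.mem_insert, Finset.mem_union, Finset.mem_image,
        Finset.mem_range]
      constructor
      · intro h
        rcases lt_trichotomy m 0 with h0 | h0 | h0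
        · right; right
          exact ⟨(-m - 1).toNat, by omega, by omega⟩
        · left; exact h0
        · right; left
          exact ⟨(m - 1).toNat, by omega, by omega⟩
      · rintro (h | ⟨a, ha, rfl⟩ | ⟨a, ha, rfl⟩) <;> omega
    have hpos : ∀ m : ℤ, 0 ≤ Real.exp (-(b ^ 2 * (m : ℝ) ^ 2)) := fun m => (Real.exp_pos _).le
    rw [h6]
    have h7 : ∑ m ∈ insert (0 : ℤ) ((Finset.range L).image (fun m : ℕ => (m : ℤ) + 1) ∪
        (Finset.range L).image (fun m : ℕ => -((m : ℤ) + 1))), Real.exp (-(b ^ 2 * (m : ℝ) ^ 2)) ≤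
        Real.exp (-(b ^ 2 * ((0 : ℤ) : ℝ) ^ 2)) +
        (∑ m ∈ (Finset.range L).image (fun m : ℕ => (m : ℤ) + 1),
          Real.exp (-(b ^ 2 * (m : ℝ) ^ 2)) +
        ∑ m ∈ (Finset.range L).image (fun m : ℕ => -((m : ℤ) + 1)),
          Real.exp (-(b ^ 2 * (m : ℝ) ^ 2))) := by
      rw [Finset.sum_insert (by
        simp only [Finset.mem_union, Finset.mem_image, Finset.mem_range]
        rintro (⟨a, _, h⟩ | ⟨a, _, h⟩) <;> omega)]
      refine add_le_add le_rfl ?_
      rw [← Finset.sum_union_inter]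
      exact le_add_of_nonneg_right (Finset.sum_nonneg fun m _ => hpos m)
    refine h7.trans ?_
    have hS := gauss_sum_le hb0 L
    have h8 : ∑ m ∈ (Finset.range L).image (fun m : ℕ => (m : ℤ) + 1),
          Real.exp (-(b ^ 2 * (m : ℝ) ^ 2)) ≤ (1 / b) * (Real.sqrt Real.pi / 2) := by
      rw [Finset.sum_image (by intro a _ b _ hab; simp only at hab; omega)]
      refine le_trans (le_of_eq (Finset.sum_congr rfl fun m _ => ?_)) hS
      push_cast
      rfl
    have h9 : ∑ m ∈ (Finset.range L).image (fun m : ℕ => -((m : ℤ) + 1)),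
          Real.exp (-(b ^ 2 * (m : ℝ) ^ 2)) ≤ (1 / b) * (Real.sqrt Real.pi / 2) := by
      rw [Finset.sum_image (by intro a _ b _ hab; simp only at hab; omega)]
      refine le_trans (le_of_eq (Finset.sum_congr rfl fun m _ => ?_)) hS
      push_cast
      congr 2
      ring
    have h10 : Real.exp (-(b ^ 2 * ((0 : ℤ) : ℝ) ^ 2)) = 1 := by simp
    rw [h10]
    linarith
  rw [gk_diag]
  calc Real.sqrt s * ((1 / L : ℝ) * ∑ k : ZMod L, Real.exp (-(s * lam k)))
      ≤ Real.sqrt s * ((1 / L : ℝ) * ((1 + 2 * ((1 / b) * (Real.sqrt Real.pi / 2))) +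
        L * Real.exp (-(2 / 5 * κ * s)))) :=
        mul_le_mul_of_nonneg_left (mul_le_mul_of_nonneg_left h1 (by positivity)) hss.le
    _ = Real.sqrt Real.pi / (2 * Real.pi * Real.sqrt (1 - κ)) + Real.sqrt s / L +
      Real.sqrt s * Real.exp (-(2 / 5 * κ * s)) := by
        rw [hb]
        field_simp
        ring
    _ = _ := by
        congr 2
        have hsp : 0 < Real.sqrt Real.pi := Real.sqrt_pos.2 hpi
        have h11 : Real.sqrt Real.pi * Real.sqrt Real.pi = Real.pi := Real.mul_self_sqrt hpi.le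
        rw [div_eq_div_iff (by positivity) (by positivity)]
        nlinarith

end line

/-- the one-dimensional kernel -/
theorem gk_asym (ε : ℝ) (hε : 0 < ε) : ∃ s₀ η : ℝ, 1 ≤ s₀ ∧ 0 < η ∧ ∀ (L : ℕ) [NeZero L] (s : ℝ),
    s₀ ≤ s → s ≤ η * (L : ℝ) ^ 2 →
    |Real.sqrt s * gk L s 0 - 1 / (2 * Real.sqrt Real.pi)| ≤ ε := by
  have hpi := Real.pi_pos
  have hsp : 0 < Real.sqrt Real.pi := Real.sqrt_pos.2 hpi
  have hsp1 : 1 ≤ Real.sqrt Real.pi := by
    rw [Real.one_le_sqrt]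
    linarith [Real.pi_gt_three]
  -- κ
  obtain ⟨κ, hκ⟩ : ∃ κ : ℝ, κ = min (1 / 2) (ε / 3) := ⟨_, rfl⟩
  have hκ0 : 0 < κ := by rw [hκ]; positivity
  have hκ2 : κ ≤ 1 / 2 := by rw [hκ]; exact min_le_left _ _
  have hκε : κ ≤ ε / 3 := by rw [hκ]; exact min_le_right _ _
  -- limits
  have l1 : Tendsto (fun s : ℝ => (1 / Real.pi) * ef (Real.pi * Real.sqrt s)) atTop
      (𝓝 ((1 / Real.pi) * (Real.sqrt Real.pi / 2))) := by
    refine (ef_lim.comp ?_).const_mul _
    exact (Real.tendsto_sqrt_atTop).const_mul_atTop hpi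
  have e1 : (1 / Real.pi) * (Real.sqrt Real.pi / 2) = 1 / (2 * Real.sqrt Real.pi) := by
    have h11 : Real.sqrt Real.pi * Real.sqrt Real.pi = Real.pi := Real.mul_self_sqrt hpi.le
    rw [one_div, inv_mul_eq_div, div_div, div_eq_div_iff (by positivity) (by positivity)]
    nlinarith
  rw [e1] at l1
  have l2 : Tendsto (fun s : ℝ => Real.sqrt s * Real.exp (-(2 / 5 * κ * s))) atTop (𝓝 0) := by
    have h1 := tendsto_rpow_mul_exp_neg_mul_atTop_nhds_zero (1 / 2) (2 / 5 * κ) (by positivity)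
    refine h1.congr fun s => ?_
    rw [Real.sqrt_eq_rpow, neg_mul]
  have ev := (l1.eventually_const_lt (show 1 / (2 * Real.sqrt Real.pi) - ε / 3 <
    1 / (2 * Real.sqrt Real.pi) by linarith)).and
    (l2.eventually_lt_const (show (0 : ℝ) < ε / 3 by positivity))
  obtain ⟨s₁, hs₁⟩ := eventually_atTop.1 ev
  refine ⟨max s₁ 1, (ε / 3) ^ 2, le_max_right _ _, by positivity, ?_⟩
  intro L _ s hs hsL
  have hs1 : 1 ≤ s := (le_max_right _ _).trans hs
  obtain ⟨h1, h2⟩ := hs₁ s ((le_max_left _ _).trans hs)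
  have hs0 : 0 < s := by linarith
  have hL : (0 : ℝ) < L := by exact_mod_cast Nat.pos_of_ne_zero (NeZero.ne L)
  have h3 : Real.sqrt s / L ≤ ε / 3 := by
    rw [div_le_iff₀ hL, Real.sqrt_le_left (by positivity), mul_pow]
    exact hsL
  have h4 := gk_lower (L := L) hs0
  have h5 := gk_upper (L := L) hs0 hκ0 (by linarith : κ < 1)
  have h6 : 1 / (2 * Real.sqrt Real.pi * Real.sqrt (1 - κ)) ≤ 1 / (2 * Real.sqrt Real.pi) + κ := by
    have h7 : 1 / Real.sqrt (1 - κ) ≤ 1 + κ := by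
      have hk : 0 < Real.sqrt (1 - κ) := Real.sqrt_pos.2 (by linarith)
      rw [div_le_iff₀ hk, ← Real.sqrt_sq (show (0 : ℝ) ≤ 1 + κ by linarith),
        ← Real.sqrt_mul (sq_nonneg _), Real.one_le_sqrt]
      nlinarith [mul_pos hκ0 hκ0]
    have h8 : 1 / (2 * Real.sqrt Real.pi * Real.sqrt (1 - κ)) =
        1 / (2 * Real.sqrt Real.pi) * (1 / Real.sqrt (1 - κ)) := by
      rw [one_div_mul_one_div]
    have h9 : 1 / (2 * Real.sqrt Real.pi) ≤ 1 := by
      rw [div_le_one (by positivity)]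
      linarith
    have h10 : 0 < 1 / (2 * Real.sqrt Real.pi) := by positivity
    rw [h8]
    calc 1 / (2 * Real.sqrt Real.pi) * (1 / Real.sqrt (1 - κ)) ≤
          1 / (2 * Real.sqrt Real.pi) * (1 + κ) := mul_le_mul_of_nonneg_left h7 h10.le
      _ ≤ _ := by nlinarith
  rw [abs_le]
  constructor <;> linarith

/-- the constant of the heat kernel -/
noncomputable def hkc (d : ℕ) : ℝ := (4 * Real.pi) ^ (-(d / 2 : ℝ))

theorem hkc_eq (d : ℕ) : hkc d = (1 / (2 * Real.sqrt Real.pi)) ^ d := by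
  unfold hkc
  have hpi := Real.pi_pos
  have h1 : 2 * Real.sqrt Real.pi = Real.sqrt (4 * Real.pi) := by
    rw [Real.sqrt_mul (by norm_num), show (4 : ℝ) = 2 ^ 2 by norm_num,
      Real.sqrt_sq (by norm_num)]
  rw [h1, one_div, inv_pow, Real.sqrt_eq_rpow, ← Real.rpow_natCast, ← Real.rpow_mul (by positivity),
    Real.rpow_neg (by positivity)]
  congr 2
  ring

/-- THE HEAT KERNEL ON THE DIAGONAL -/
theorem bl_hk (d : ℕ) (ε : ℝ) (hε : 0 < ε) : ∃ s₀ η : ℝ, 1 ≤ s₀ ∧ 0 < η ∧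
    ∀ (L : ℕ) [NeZero L] (s : ℝ), 3 ≤ L → s₀ ≤ s → s ≤ η * (L : ℝ) ^ 2 →
    ∀ x : Fin d → ZMod L, |s ^ (d / 2 : ℝ) * qq (nnRate d L) s x x - hkc d| ≤ ε := by
  have hc : ContinuousAt (fun y : ℝ => y ^ d) (1 / (2 * Real.sqrt Real.pi)) :=
    (continuous_pow d).continuousAt
  obtain ⟨δ, hδ, h⟩ := Metric.continuousAt_iff.1 hc ε hε
  obtain ⟨s₀, η, h1, h2, h3⟩ := gk_asym (δ / 2) (by positivity)
  refine ⟨s₀, η, h1, h2, fun L _ s hL hs hsL x => ?_⟩
  have h4 := h3 L s hs hsL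
  have hs0 : 0 < s := by linarith
  have h5 : s ^ (d / 2 : ℝ) * qq (nnRate d L) s x x = (Real.sqrt s * gk L s 0) ^ d := by
    rw [qq_eq_hk hL]
    unfold hk
    simp only [sub_self]
    rw [Finset.prod_const, Finset.card_univ, Fintype.card_fin, mul_pow]
    congr 1
    rw [Real.sqrt_eq_rpow, ← Real.rpow_natCast, ← Real.rpow_mul hs0.le]
    congr 1
    ring
  rw [h5, hkc_eq]
  have h6 := h (x := Real.sqrt s * gk L s 0) (by
    rw [Real.dist_eq]
    linarith)
  rw [Real.dist_eq] at h6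
  exact h6.le

end Pool.Agent.U153
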