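import Pool.Agent.U153.LcRes
import Pool.Agent.Q277.LC.Pe
import Pool.Agent.Q257.LC.L1

/-!
# Short cycles: the exact identity for marked points

For a circuit, given the trajectories of the marked particles `A`, the probability that a point is
marked is the mean of the Green function of the walk in the environment of `A`, minus one.
-/

set_option autoImplicit false

namespace Pool.Agent.U153

open Finset Equiv Matrix Q292.LC Filter Topology
open Pool.Agent.Q68.LC (EE_congr EE_const EE_add EE_smul EE_mono EE_succ SS_dg SS_pow SS_le det_pos)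

section gen

variable {V : Type} [Fintype V] [DecidableEq V]

/-- Green function without the term of length zero -/
noncomputable def gG (w : ℝ) (U : Finset V) (T : Matrix V V ℝ) (x y : V) : ℝ :=
  w * (T * (1 - w • (dg U * T))⁻¹) x y

theorem bl_grn (T : Matrix V V ℝ) (w : ℝ) (U : Finset V) (x y : V) (hT0 : ∀ a b, 0 ≤ T a b)
    (hT1 : ∀ a, ∑ b, T a b ≤ 1) (h0 : 0 ≤ w) (h1 : w < 1) :
    Tendsto (fun N : ℕ => ∑ k ∈ Finset.range N, w ^ (k + 1) * (T * (dg U * T) ^ k) x y) atTop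
      (𝓝 (gG w U T x y)) ∧ bd w U T x y = dS w U T * (1 + gG w U T x y) := by
  have hT : Pool.Agent.Q68.LC.SS T := ⟨hT0, hT1⟩
  have hS := SS_dg hT U
  unfold gG
  obtain ⟨S, hSd⟩ : ∃ S, S = dg U * T := ⟨_, rfl⟩
  rw [← hSd] at hS ⊢
  have hpos := det_pos hS h0 h1
  have hd : dS w U T = (1 - w • S).det := by
    unfold dS
    rw [hSd]
  obtain ⟨M, hM⟩ : ∃ M, M = 1 - w • S := ⟨_, rfl⟩
  rw [← hM] at hpos hd ⊢
  have hunit : IsUnit M.det := isUnit_iff_ne_zero.2 hpos.ne'
  -- bordered determinant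
  have hbd : bd w U T x y = M.det * (1 + w * (T * M⁻¹) x y) := by
    have e1 : (1 - w • (dg U * T) + w • Matrix.of fun a b => if a = y then T x b else 0) =
        M + replicateCol Unit (fun a => if a = y then (1:ℝ) else 0) *
          replicateRow Unit (fun b => w * T x b) := by
      rw [← hSd, ← hM]
      congr 1
      ext a b
      rw [Matrix.smul_apply, Matrix.of_apply, Matrix.mul_apply]
      simp
    unfold bd
    rw [e1, Matrix.det_add_replicateCol_mul_replicateRow hunit]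
    congr 1
    rw [Matrix.det_unique, Matrix.add_apply, Matrix.one_apply_eq]
    congr 1
    rw [Matrix.mul_assoc, Matrix.mul_apply]
    simp only [Matrix.replicateRow_apply]
    rw [Matrix.mul_apply, Finset.mul_sum]
    refine Finset.sum_congr rfl fun z _ => ?_
    rw [Matrix.mul_apply]
    simp only [Matrix.replicateCol_apply, mul_ite, mul_one, mul_zero]
    rw [Finset.sum_ite_eq' Finset.univ y, if_pos (Finset.mem_univ _)]
    ring
  have hlim : Tendsto (fun N : ℕ => ∑ k ∈ Finset.range N, w ^ (k + 1) * (T * S ^ k) x y) atTop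
      (𝓝 (w * (T * M⁻¹) x y)) := by
    -- partial sums
    have e1 : ∀ N : ℕ, M * ∑ k ∈ Finset.range N, (w • S) ^ k = 1 - (w • S) ^ N := by
      intro N
      rw [hM]
      exact mul_neg_geom_sum _ _
    have e2 : ∀ N : ℕ, ∑ k ∈ Finset.range N, (w • S) ^ k = M⁻¹ - w ^ N • (M⁻¹ * S ^ N) := by
      intro N
      have h2 : M⁻¹ * (M * ∑ k ∈ Finset.range N, (w • S) ^ k) = M⁻¹ * (1 - (w • S) ^ N) := by
        rw [e1 N]
      rw [Matrix.nonsing_inv_mul_cancel_left _ _ hunit] at h2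
      rw [h2, Matrix.mul_sub, Matrix.mul_one, smul_pow, Matrix.mul_smul]
    have e3 : ∀ N : ℕ, ∑ k ∈ Finset.range N, w ^ (k + 1) * (T * S ^ k) x y =
        w * (T * M⁻¹) x y - w * (w ^ N * (T * (M⁻¹ * S ^ N)) x y) := by
      intro N
      have h3 : ∑ k ∈ Finset.range N, w ^ (k + 1) * (T * S ^ k) x y =
          w * (T * ∑ k ∈ Finset.range N, (w • S) ^ k) x y := by
        rw [Matrix.mul_sum, Matrix.sum_apply, Finset.mul_sum]
        refine Finset.sum_congr rfl fun k _ => ?_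
        rw [smul_pow, Matrix.mul_smul, Matrix.smul_apply, smul_eq_mul, pow_succ]
        ring
      rw [h3, e2, Matrix.mul_sub, Matrix.mul_smul, Matrix.sub_apply, Matrix.smul_apply, smul_eq_mul]
      ring
    -- the error tends to zero
    have e4 : ∀ N : ℕ, |(T * (M⁻¹ * S ^ N)) x y| ≤ ∑ z, |(T * M⁻¹) x z| := by
      intro N
      rw [← Matrix.mul_assoc, Matrix.mul_apply]
      refine (Finset.abs_sum_le_sum_abs _ _).trans (Finset.sum_le_sum fun z _ => ?_)
      rw [abs_mul]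
      have h4 := SS_pow hS N
      rw [abs_of_nonneg (h4.nn z y)]
      exact mul_le_of_le_one_right (abs_nonneg _) (SS_le h4 z y)
    have e5 : Tendsto (fun N : ℕ => w ^ N * (T * (M⁻¹ * S ^ N)) x y) atTop (𝓝 0) := by
      have h5 : Tendsto (fun N : ℕ => w ^ N * ∑ z, |(T * M⁻¹) x z|) atTop (𝓝 0) := by
        have := (tendsto_pow_atTop_nhds_zero_of_lt_one h0 h1).mul_const (∑ z, |(T * M⁻¹) x z|)
        rwa [zero_mul] at this
      refine squeeze_zero_norm (fun N => ?_) h5
      rw [Real.norm_eq_abs, abs_mul, abs_of_nonneg (pow_nonneg h0 N)]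
      exact mul_le_mul_of_nonneg_left (e4 N) (pow_nonneg h0 N)
    have e6 : Tendsto (fun N : ℕ => w * (T * M⁻¹) x y - w * (w ^ N * (T * (M⁻¹ * S ^ N)) x y)) atTop
        (𝓝 (w * (T * M⁻¹) x y - w * 0)) := tendsto_const_nhds.sub (e5.const_mul w)
    rw [mul_zero, sub_zero] at e6
    exact e6.congr fun N => (e3 N).symm
  refine ⟨hlim, ?_⟩
  rw [hbd, hd]

/-- the bordered determinant at a point of `U` -/
theorem bl_bd_erase (w : ℝ) (U : Finset V) (T : Matrix V V ℝ) (x : V) (hx : x ∈ U) :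
    bd w U T x x = dS w (U.erase x) T := by
  unfold bd dS
  congr 1
  ext a b
  unfold dg
  rw [Matrix.add_apply, Matrix.sub_apply, Matrix.sub_apply, Matrix.smul_apply, Matrix.smul_apply,
    Matrix.smul_apply, Matrix.diagonal_mul, Matrix.diagonal_mul, Matrix.of_apply]
  by_cases ha : a = x
  · subst ha
    simp [hx]
  · simp [ha]

/-- one permutation -/
theorem bl_perm (g : Perm V) (A : Finset V) (hA : Inv g A) (x : V) (hx : x ∉ A) (w : ℝ) :
    dS w ((univ \ A).erase x) (pm g) - dS w (univ \ A) (pm g) =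
      w ^ (cyc g x).card * dS w (univ \ (A ∪ cyc g x)) (pm g) := by
  have hxU : x ∈ univ \ A := Finset.mem_sdiff.2 ⟨Finset.mem_univ _, hx⟩
  have hC : cyc g x ⊆ univ \ A := by
    intro y hy
    refine Finset.mem_sdiff.2 ⟨Finset.mem_univ _, fun hyA => hx ?_⟩
    exact Pool.Agent.Q153.LC.inv_same g A hA y x hyA ((lc_mem_cyc g x y).1 hy).symm
  have h1 := Pool.Agent.Q153.LC.p4d w (univ \ A) g x hxU hC
  have h2 := Pool.Agent.Q153.LC.dS_sdiff w ((univ \ A).erase x) g x (Finset.notMem_erase x _)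
    (cyc g x) subset_rfl
  have h3 : ((univ \ A).erase x) \ cyc g x = univ \ (A ∪ cyc g x) := by
    ext y
    simp only [Finset.mem_sdiff, Finset.mem_erase, Finset.mem_union, Finset.mem_univ, true_and]
    constructor
    · rintro ⟨⟨_, h5⟩, h6⟩
      tauto
    · intro h5
      refine ⟨⟨?_, fun h => h5 (Or.inl h)⟩, fun h => h5 (Or.inr h)⟩
      rintro rfl
      exact h5 (Or.inr (lc_mem_self g y))
  have h4 : (univ \ A) \ cyc g x = univ \ (A ∪ cyc g x) := by
    ext y
    simp only [Finset.mem_sdiff, Finset.mem_union, Finset.mem_univ, true_and]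
    tauto
  rw [h1, h2, h3, h4]
  ring

/-- the exact identity for determinants with fixed sets -/
theorem bl_l1 (e : ℕ → V × V) (n : ℕ) (δ w : ℝ) (A U : Finset V) (Θ : (ℕ → Bool) → ℝ)
    (hδ0 : 0 ≤ δ) (hδ1 : δ ≤ 1) (hΘ : Rmeas e n A Θ) :
    EE n δ (fun ω => Θ ω * dS w U (pm (gp e ω n))) =
      EE n δ (fun ω => Θ ω * dS w U (TT e ω A δ n)) := by
  have hX1 : Rmeas e n A (fun _ : ℕ → Bool => (1 : Matrix V V ℝ)) := fun _ _ _ => rfl
  have hY : Rmeas e n A (fun _ : ℕ → Bool => (-w) • dg U) := fun _ _ _ => rfl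
  have l2 := Pool.Agent.Q257.LC.l1 V e n δ A Θ _ _ hδ0 hδ1 hΘ hX1 hY
  have hmat : ∀ P : Matrix V V ℝ, (1 : Matrix V V ℝ) + (-w) • dg U * P = 1 - w • (dg U * P) := by
    intro P
    rw [Matrix.smul_mul, neg_smul, sub_eq_add_neg]
  simp only [hmat] at l2
  exact l2

omit [Fintype V] in
/-- measurability of the condition `Inv` -/
theorem bl_inv_meas (e : ℕ → V × V) (n : ℕ) (A : Finset V) :
    Rmeas e n A (fun ω => Inv (gp e ω n) A) := by
  intro ω ω' h
  obtain ⟨h1, -⟩ := Pool.Agent.Q68.LC.agree h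
  have h2 : Inv (gp e ω n) A ↔ Inv (gp e ω' n) A := by
    unfold Q292.LC.Inv
    constructor
    · intro h3 a ha
      rw [← h1 n le_rfl a ha]
      exact h3 a ha
    · intro h3 a ha
      rw [h1 n le_rfl a ha]
      exact h3 a ha
  exact propext h2

open Classical in
/-- one set `A` and one point `x ∉ A` -/
theorem bl_one (e : ℕ → V × V) (n : ℕ) (δ w : ℝ) (A : Finset V) (x : V) (hx : x ∉ A)
    (B : (ℕ → Bool) → Prop) (hδ0 : 0 ≤ δ) (hδ1 : δ ≤ 1) (hw0 : 0 ≤ w) (hw1 : w < 1)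
    (hB : Rmeas e n A B) :
    EE n δ (fun ω => if Inv (gp e ω n) A ∧ B ω then
      w ^ (A.card + (cyc (gp e ω n) x).card) *
        dS w (univ \ (A ∪ cyc (gp e ω n) x)) (pm (gp e ω n)) else 0) =
    EE n δ (fun ω => if Inv (gp e ω n) A ∧ B ω then
      w ^ A.card * (dS w (univ \ A) (TT e ω A δ n) *
        gG w (univ \ A) (TT e ω A δ n) x x) else 0) := by
  obtain ⟨Θ, hΘ⟩ : ∃ Θ : (ℕ → Bool) → ℝ, Θ = fun ω =>
    if Inv (gp e ω n) A ∧ B ω then w ^ A.card else 0 := ⟨_, rfl⟩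
  have hΘm : Rmeas e n A Θ := by
    intro ω ω' h
    have h2 : Inv (gp e ω n) A = Inv (gp e ω' n) A := bl_inv_meas e n A ω ω' h
    have h3 : B ω = B ω' := hB ω ω' h
    rw [hΘ]
    dsimp only
    simp only [h2, h3]
  have hxU : x ∈ univ \ A := Finset.mem_sdiff.2 ⟨Finset.mem_univ _, hx⟩
  have l1 := bl_l1 e n δ w A ((univ \ A).erase x) Θ hδ0 hδ1 hΘm
  have l2 := bl_l1 e n δ w A (univ \ A) Θ hδ0 hδ1 hΘm
  have e1 : (fun ω => if Inv (gp e ω n) A ∧ B ω then
      w ^ (A.card + (cyc (gp e ω n) x).card) *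
        dS w (univ \ (A ∪ cyc (gp e ω n) x)) (pm (gp e ω n)) else 0) =
      fun ω => Θ ω * dS w ((univ \ A).erase x) (pm (gp e ω n)) +
        (-1) * (Θ ω * dS w (univ \ A) (pm (gp e ω n))) := by
    funext ω
    rw [hΘ]
    dsimp only
    by_cases h : Inv (gp e ω n) A ∧ B ω
    · rw [if_pos h, if_pos h]
      have := bl_perm (gp e ω n) A h.1 x hx w
      rw [pow_add]
      linear_combination (-(w ^ A.card)) * this
    · rw [if_neg h, if_neg h]
      ring
  have e2 : (fun ω => if Inv (gp e ω n) A ∧ B ω then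
      w ^ A.card * (dS w (univ \ A) (TT e ω A δ n) *
        gG w (univ \ A) (TT e ω A δ n) x x) else 0) =
      fun ω => Θ ω * dS w ((univ \ A).erase x) (TT e ω A δ n) +
        (-1) * (Θ ω * dS w (univ \ A) (TT e ω A δ n)) := by
    funext ω
    rw [hΘ]
    dsimp only
    by_cases h : Inv (gp e ω n) A ∧ B ω
    · rw [if_pos h, if_pos h]
      obtain ⟨hT0, hTr, -, -, -, -⟩ := Pool.Agent.Q68.LC.bas2 V e ω A δ hδ0 hδ1
      have h5 := (bl_grn (TT e ω A δ n) w (univ \ A) x x (hT0 n) (fun a => (hTr n a).le) hw0 hw1).2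
      rw [bl_bd_erase w _ _ x hxU] at h5
      rw [h5]
      ring
    · rw [if_neg h, if_neg h]
      ring
  rw [e1, e2, EE_add, EE_add, EE_smul, EE_smul, l1, l2]

open Classical in
/-- the mean of the Green function over the good environments of the marked points, without `x` -/
noncomputable def Xi (e : ℕ → V × V) (n : ℕ) (δ w : ℝ) (B : (ℕ → Bool) → Finset V → Prop) (x : V) :
    ℝ :=
  EE n δ (fun ω => ∑ A : Finset V, if x ∉ A ∧ Inv (gp e ω n) A ∧ B ω A then
      w ^ A.card * (dS w (univ \ A) (TT e ω A δ n) *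
        gG w (univ \ A) (TT e ω A δ n) x x) else 0)

open Classical in
theorem bl_Xi (e : ℕ → V × V) (n : ℕ) (δ w : ℝ) (x : V)
    (B : (ℕ → Bool) → Finset V → Prop) (hδ0 : 0 ≤ δ) (hδ1 : δ ≤ 1) (hw0 : 0 ≤ w) (hw1 : w < 1)
    (hB : ∀ A, Rmeas e n A (fun ω => B ω A)) :
    Xi e n δ w B x = EE n δ (fun ω => ∑ A : Finset V, if x ∉ A ∧ Inv (gp e ω n) A ∧ B ω A then
      w ^ (A.card + (cyc (gp e ω n) x).card) *
        dS w (univ \ (A ∪ cyc (gp e ω n) x)) (pm (gp e ω n)) else 0) := by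
  unfold Xi
  rw [Pool.Agent.Q277.LC.EE_sum, Pool.Agent.Q277.LC.EE_sum]
  refine Finset.sum_congr rfl fun A _ => ?_
  by_cases hx : x ∈ A
  · simp [hx]
  · have h := bl_one e n δ w A x hx (fun ω => B ω A) hδ0 hδ1 hw0 hw1 (hB A)
    simp only [hx, not_false_eq_true, true_and]
    exact h.symm

open Classical in
/-- upper bound of `Xi` -/
theorem bl_Xi_le (e : ℕ → V × V) (n : ℕ) (δ w : ℝ) (x : V)
    (B : (ℕ → Bool) → Finset V → Prop) (hδ0 : 0 ≤ δ) (hδ1 : δ ≤ 1) (hw0 : 0 ≤ w) (hw1 : w < 1)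
    (hB : ∀ A, Rmeas e n A (fun ω => B ω A)) :
    Xi e n δ w B x ≤ EE n δ (fun ω => w ^ (cyc (gp e ω n) x).card) := by
  rw [bl_Xi e n δ w x B hδ0 hδ1 hw0 hw1 hB]
  refine EE_mono hδ0 hδ1 fun ω => ?_
  have h := Pool.Agent.Q277.LC.p1_all V (gp e ω n) w (cyc (gp e ω n) x) hw0 hw1
  calc _ ≤ ∑ A : Finset V, w ^ (cyc (gp e ω n) x).card *
        (if Inv (gp e ω n) A ∧ Disjoint A (cyc (gp e ω n) x) then
          w ^ A.card * dS w (univ \ (A ∪ cyc (gp e ω n) x)) (pm (gp e ω n)) else 0) := by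
        refine Finset.sum_le_sum fun A _ => ?_
        have hpos : 0 ≤ dS w (univ \ (A ∪ cyc (gp e ω n) x)) (pm (gp e ω n)) :=
          (Pool.Agent.Q153.LC.p4 V (gp e ω n) 1 w _ hw0 hw1).1.1.le
        by_cases h1 : x ∉ A ∧ Inv (gp e ω n) A ∧ B ω A
        · have h2 : Disjoint A (cyc (gp e ω n) x) := by
            rw [Finset.disjoint_left]
            intro y hy hy2
            exact h1.1 (Pool.Agent.Q153.LC.inv_same _ A h1.2.1 y x hy
              ((lc_mem_cyc _ x y).1 hy2).symm)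
          rw [if_pos h1, if_pos ⟨h1.2.1, h2⟩, pow_add]
          exact le_of_eq (by ring)
        · rw [if_neg h1]
          refine mul_nonneg (by positivity) ?_
          split_ifs
          · positivity
          · exact le_rfl
    _ = _ := by rw [← Finset.mul_sum, h, mul_one]

open Classical in
/-- lower bound of `Xi` for hereditary properties -/
theorem bl_Xi_ge (e : ℕ → V × V) (n : ℕ) (δ w : ℝ) (x : V)
    (B : (ℕ → Bool) → Finset V → Prop) (hδ0 : 0 ≤ δ) (hδ1 : δ ≤ 1) (hw0 : 0 ≤ w) (hw1 : w < 1)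
    (hB : ∀ A, Rmeas e n A (fun ω => B ω A)) (hmon : ∀ ω R R', R' ⊆ R → B ω R → B ω R') :
    PW e n δ w (fun ω A => x ∈ A ∧ B ω A) ≤ Xi e n δ w B x := by
  rw [bl_Xi e n δ w x B hδ0 hδ1 hw0 hw1 hB]
  unfold PW
  refine EE_mono hδ0 hδ1 fun ω => ?_
  obtain ⟨g, hg⟩ : ∃ g, g = gp e ω n := ⟨_, rfl⟩
  rw [← hg]
  beta_reduce
  have q1 : (∑ A : Finset V, if Inv g A ∧ x ∈ A ∧ B ω A then
      w ^ A.card * dS w (univ \ A) (pm g) else 0) =
      ∑ A ∈ (Finset.univ.filter fun A : Finset V => Inv g A ∧ x ∈ A ∧ B ω A),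
        w ^ A.card * dS w (univ \ A) (pm g) := by
    rw [Finset.sum_filter]
  have q2 : (∑ A : Finset V, if x ∉ A ∧ Inv g A ∧ B ω A then
      w ^ (A.card + (cyc g x).card) * dS w (univ \ (A ∪ cyc g x)) (pm g) else 0) =
      ∑ A ∈ (Finset.univ.filter fun A : Finset V => x ∉ A ∧ Inv g A ∧ B ω A),
        w ^ (A.card + (cyc g x).card) * dS w (univ \ (A ∪ cyc g x)) (pm g) := by
    rw [Finset.sum_filter]
  refine le_trans (le_of_eq (Eq.trans ?_ q1)) (le_trans ?_ (le_of_eq (Eq.trans q2.symm ?_)))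
  · exact Finset.sum_congr rfl fun A _ => by congr
  rotate_left
  · exact Finset.sum_congr rfl fun A _ => by congr
  have hpos : ∀ S : Finset V, 0 ≤ dS w S (pm g) := fun S =>
    (Pool.Agent.Q153.LC.p4 V g 1 w S hw0 hw1).1.1.le
  calc _ = ∑ A ∈ (Finset.univ.filter fun A : Finset V => Inv g A ∧ x ∈ A ∧ B ω A),
        w ^ ((A \ cyc g x).card + (cyc g x).card) *
          dS w (univ \ ((A \ cyc g x) ∪ cyc g x)) (pm g) := by
        refine Finset.sum_congr rfl fun A hA => ?_
        rw [Finset.mem_filter] at hA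
        have hs := Pool.Agent.Q153.LC.cyc_sub g A hA.2.1 x hA.2.2.1
        rw [Finset.sdiff_union_of_subset hs]
        congr 2
        rw [Finset.card_sdiff_of_subset hs]
        have := Finset.card_le_card hs
        omega
    _ = ∑ R ∈ (Finset.univ.filter fun A : Finset V => Inv g A ∧ x ∈ A ∧ B ω A).image
          (fun A => A \ cyc g x),
        w ^ (R.card + (cyc g x).card) * dS w (univ \ (R ∪ cyc g x)) (pm g) := by
        rw [Finset.sum_image]
        intro A hA A' hA' hAA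
        rw [Finset.mem_coe, Finset.mem_filter] at hA hA'
        have hs := Pool.Agent.Q153.LC.cyc_sub g A hA.2.1 x hA.2.2.1
        have hs' := Pool.Agent.Q153.LC.cyc_sub g A' hA'.2.1 x hA'.2.2.1
        rw [← Finset.sdiff_union_of_subset hs, ← Finset.sdiff_union_of_subset hs']
        exact congrArg (· ∪ cyc g x) hAA
    _ ≤ _ := by
        refine Finset.sum_le_sum_of_subset_of_nonneg ?_ fun R _ _ =>
          mul_nonneg (by positivity) (hpos _)
        intro R hR
        obtain ⟨A, hA, rfl⟩ := Finset.mem_image.1 hR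
        rw [Finset.mem_filter] at hA ⊢
        refine ⟨Finset.mem_univ _, ?_, Pool.Agent.Q153.LC.inv_sdiff g A _ hA.2.1
          (Pool.Agent.Q153.LC.inv_cyc g x), hmon ω A _ Finset.sdiff_subset hA.2.2.2⟩
        intro h
        exact (Finset.mem_sdiff.1 h).2 (lc_mem_self g x)

end gen

end Pool.Agent.U153
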