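import Pool.Agent.U153.BlCmp
import Pool.Agent.Q257.LC.KerB

/-!
# Short cycles: kernel bounds for every power of the kernel in an environment
-/

set_option autoImplicit false
set_option linter.unusedSectionVars false
set_option linter.unusedVariables false

namespace Pool.Agent.U153

open Finset Equiv Matrix Q292.LC
open Pool.Agent.Q257.LC (one_bound pow_bound pow_zero_col pow_eq_sdiff TT_units sh_ed)

/-- first window -/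
theorem bl_Ev_fst {d L : ℕ} [NeZero L] (hL : 3 ≤ L) {σ : ℕ → (Fin d → ZMod L) × Fin d}
    (hσ : Per σ) {q K lam r ρ κ₀ : ℕ} {ω : ℕ → Bool} {R : Finset (Fin d → ZMod L)}
    (hEv : Ev σ q K lam r ρ κ₀ ω R) (K1 : ℕ) (hK1 : K1 ≤ K) : Ev σ q K1 lam r ρ κ₀ ω R := by
  have h4 := (Pool.Agent.Q277.LC.sub d L hL σ hσ q K lam r ρ κ₀ ω R hEv 0 K1 (by omega)).2
  have h5 : sh (0 * (q * ms d L)) ω = ω := by
    funext k
    simp [sh]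
  have h6 : R.image (gp (ed ∘ σ) ω (0 * (q * ms d L))) = R := by
    rw [Nat.zero_mul]
    simp [gp]
  rw [h5, h6] at h4
  exact h4

theorem bl_ker (d : ℕ) (hd : 3 ≤ d) : ∃ (C ml : ℕ) (c : ℝ), 1 ≤ C ∧ 0 < c ∧ ∀ Z : ℕ, C ≤ Z →
    ∀ (L K lam r ρ κ₀ : ℕ) [NeZero L], lam ≤ Z → ρ ≤ Z → κ₀ ≤ Z → (L : ℝ) ^ d ≤ Real.exp Z →
    Z ^ ml ≤ r → 8 * Z ^ ml ≤ L → 3 * Z ^ ml ≤ K → ∃ q₀ : ℕ, ∀ q ≥ q₀,
    ∀ σ : ℕ → (Fin d → ZMod L) × Fin d, Per σ → ∀ δ : ℝ, 1 ≤ δ * q → δ * q ≤ 2 →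
    ∀ (ω : ℕ → Bool) (R : Finset (Fin d → ZMod L)), Ev σ q K lam r ρ κ₀ ω R →
    ∀ (U : Finset (Fin d → ZMod L)) (x y : Fin d → ZMod L), Disjoint U R → x ∉ R →
    ∀ k : ℕ, (TT (ed ∘ σ) ω R δ (K * (q * ms d L)) *
      (dg U * TT (ed ∘ σ) ω R δ (K * (q * ms d L))) ^ k) x y ≤
      C / (L : ℝ) ^ d + (c * K / 3 * ((k : ℝ) + 1)) ^ (-(d / 2 : ℝ)) := by
  obtain ⟨Cl, ml, c, hCl, hc, hlap⟩ := Pool.Agent.Q257.LC.lap d hd
  have hd1 : 1 ≤ d := by omega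
  have hB1 := Pool.Agent.Q68.LC.bas1
  have hB2 := Pool.Agent.Q68.LC.bas2
  refine ⟨Cl, ml, c, hCl, hc, ?_⟩
  intro Z hZ L K lam r ρ κ₀ _ hlam hρ hκ hLd hr hL hK
  have hZ1 : 1 ≤ Z ^ ml := Nat.one_le_pow _ _ (by omega)
  have hL3 : 3 ≤ L := by omega
  have n10 : 1 ≤ K := by omega
  obtain ⟨q1, hq1⟩ := hlap Z hZ L K lam r ρ κ₀ hlam hρ hκ hLd hr hL (by omega)
  obtain ⟨q2, hq2⟩ := hlap Z hZ L (K / 2) lam r ρ κ₀ hlam hρ hκ hLd hr hL (by omega)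
  obtain ⟨q3, hq3⟩ := hlap Z hZ L (K - K / 2) lam r ρ κ₀ hlam hρ hκ hLd hr hL (by omega)
  refine ⟨q1 + q2 + q3 + 2, ?_⟩
  intro q hq σ hσ δ h1 h2 ω R hEv U x y hUR hxR
  have hqr : (2 : ℝ) ≤ q := by
    have : 2 ≤ q := by omega
    exact_mod_cast this
  have hδ : 0 < δ := by
    by_contra h
    push Not at h
    nlinarith
  have hδ1 : δ ≤ 1 := by nlinarith
  obtain ⟨hσr, hEvr, hTr⟩ := Pool.Agent.Q187.LC.Rev.rev d L hd1 hL3 σ hσ q K lam r ρ κ₀ ω R δ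
  have hB := hB2 _ (ed ∘ σ) ω R δ hδ.le hδ1
  obtain ⟨T, hT⟩ : ∃ T, T = TT (ed ∘ σ) ω R δ (K * (q * ms d L)) := ⟨_, rfl⟩
  obtain ⟨R', hR'⟩ : ∃ R', R' = R.image (gp (ed ∘ σ) ω (K * (q * ms d L))) := ⟨_, rfl⟩
  have hT0 : ∀ x y, 0 ≤ T x y := by
    rw [hT]
    exact hB.1 _
  have hrow : ∀ x, ∑ y, T x y = 1 := by
    rw [hT]
    exact hB.2.1 _
  have hcol : ∀ y, ∑ x, T x y = 1 := by
    rw [hT]
    exact hB.2.2.1 _
  have hz : ∀ a, a ∉ R → ∀ b ∈ R', T a b = 0 := by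
    rw [hT, hR']
    exact hB.2.2.2.2.1 _
  have hL0 : (0 : ℝ) < L := by
    have : 0 < L := by omega
    exact_mod_cast this
  have hK0 : (0 : ℝ) < K := by exact_mod_cast n10
  obtain ⟨m0, hm0⟩ : ∃ m0 : ℝ, m0 = Cl / (L : ℝ) ^ d := ⟨_, rfl⟩
  have hm0n : 0 ≤ m0 := by
    rw [hm0]
    positivity
  rw [← hT, ← hm0]
  by_cases hy : y ∈ R'
  · intro k
    rw [pow_zero_col T R R' U hUR hz k x hxR y hy]
    positivity
  · -- the kernel of all powers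
    have hUR2 : Disjoint (U \ R') R := disjoint_of_subset_left sdiff_subset hUR
    have hUR3 : Disjoint (U \ R') R' := sdiff_disjoint
    have hLap1 : ∀ f : (Fin d → ZMod L) → ℝ, (∀ x, 0 ≤ f x) → (∀ x ∈ R, f x = 0) →
        ∑ x, f x ≤ 1 → ∑ x, (vecMul f T x) ^ 2 ≤
        max m0 (((∑ x, (f x) ^ 2) ^ (-(2 / d : ℝ)) + c * K) ^ (-(d / 2 : ℝ))) := by
      rw [hT, hm0]
      exact hq1 q (by omega) σ hσ δ h1 h2 ω R hEv
    have hLap2 : ∀ f : (Fin d → ZMod L) → ℝ, (∀ x, 0 ≤ f x) → (∀ x ∈ R', f x = 0) →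
        ∑ x, f x ≤ 1 → ∑ x, (vecMul f Tᵀ x) ^ 2 ≤
        max m0 (((∑ x, (f x) ^ 2) ^ (-(2 / d : ℝ)) + c * K) ^ (-(d / 2 : ℝ))) := by
      rw [hT, hR', hm0, ← hTr]
      exact hq1 q (by omega) (rvs σ) hσr δ h1 h2 _ _ (hEvr hEv)
    intro k
    rcases Nat.eq_zero_or_pos k with hk | hk
    · subst hk
      rw [pow_zero, Matrix.mul_one]
      -- two halves
      obtain ⟨K1, hK1⟩ : ∃ K1, K1 = K / 2 := ⟨_, rfl⟩
      obtain ⟨K2, hK2⟩ : ∃ K2, K2 = K - K / 2 := ⟨_, rfl⟩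
      have hKK : K = K1 + K2 := by omega
      obtain ⟨T1, hT1⟩ : ∃ T1, T1 = TT (ed ∘ σ) ω R δ (K1 * (q * ms d L)) := ⟨_, rfl⟩
      obtain ⟨ω1, hω1⟩ : ∃ ω1 : ℕ → Bool, ω1 = sh (K1 * (q * ms d L)) ω := ⟨_, rfl⟩
      obtain ⟨R1, hR1⟩ : ∃ R1, R1 = R.image (gp (ed ∘ σ) ω (K1 * (q * ms d L))) := ⟨_, rfl⟩
      obtain ⟨T2, hT2⟩ : ∃ T2, T2 = TT (ed ∘ σ) ω1 R1 δ (K2 * (q * ms d L)) := ⟨_, rfl⟩
      have hTT : T = T1 * T2 := by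
        rw [hT, hT1, hT2, hω1, hR1, hKK]
        exact TT_units hB2 hσ ω R hδ.le hδ1 q K1 K2
      have hE1 : Ev σ q K1 lam r ρ κ₀ ω R := bl_Ev_fst hL3 hσ hEv K1 (by omega)
      have hE2 : Ev σ q K2 lam r ρ κ₀ ω1 R1 := by
        rw [hω1, hR1]
        exact (Pool.Agent.Q277.LC.sub d L hL3 σ hσ q K lam r ρ κ₀ ω R hEv K1 K2 (by omega)).2
      obtain ⟨-, hEvr2, hTr2⟩ := Pool.Agent.Q187.LC.Rev.rev d L hd1 hL3 σ hσ q K2 lam r ρ κ₀ ω1 R1 δ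
      have hB1' := hB2 _ (ed ∘ σ) ω R δ hδ.le hδ1
      have hB2' := hB2 _ (ed ∘ σ) ω1 R1 δ hδ.le hδ1
      have hy2 : y ∉ R1.image (gp (ed ∘ σ) ω1 (K2 * (q * ms d L))) := by
        intro h7
        apply hy
        rw [hR1, image_image] at h7
        rw [hR', hKK, add_mul, (hB1 _ (ed ∘ σ) ω).1, sh_ed hσ, ← hω1]
        obtain ⟨a, ha, hay⟩ := mem_image.1 h7
        exact mem_image.2 ⟨a, ha, hay⟩
      rw [hTT]
      refine one_bound T1 T2 ?_ ?_ ?_ ?_ ?_ ?_ R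
        (R1.image (gp (ed ∘ σ) ω1 (K2 * (q * ms d L)))) d hd1 m0 c K K1 K2 hc hK0 ?_ ?_ hm0n
        ?_ ?_ x y hxR hy2
      · rw [hT1]
        exact hB1'.1 _
      · rw [hT1]
        exact hB1'.2.1 _
      · rw [hT1]
        exact hB1'.2.2.1 _
      · rw [hT2]
        exact hB2'.1 _
      · rw [hT2]
        exact hB2'.2.1 _
      · rw [hT2]
        exact hB2'.2.2.1 _
      · have : K ≤ 3 * K1 := by omega
        exact_mod_cast this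
      · have : K ≤ 3 * K2 := by omega
        exact_mod_cast this
      · rw [hT1, hm0, hK1]
        rw [hK1] at hE1
        exact hq2 q (by omega) σ hσ δ h1 h2 ω R hE1
      · rw [hT2, hm0, ← hTr2]
        have hE3 := hEvr2 hE2
        subst hK2
        exact hq3 q (by omega) (rvs σ) hσr δ h1 h2 _ _ hE3
    · rw [pow_eq_sdiff T R R' U hUR hz k x hxR y]
      exact pow_bound T hT0 hrow hcol R R' (U \ R') hUR2 hUR3 d hd1 m0 c K hc hK0 hm0n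
        hLap1 hLap2 x y hxR hy k hk

end Pool.Agent.U153
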