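import Pool.Agent.U153.BlStir

/-!
# Short cycles: the density of the points in short cycles, at polylogarithmic times
-/

set_option autoImplicit false
set_option linter.unusedSectionVars false
set_option linter.unusedVariables false

namespace Pool.Agent.U153

open Finset Equiv Matrix Q292.LC Filter Topology
open Pool.Agent.Y998.ST (stirExp nnRate qq stirLaw totalRate qq_eq_hk hk)

/-- `∑_{k ≥ 1} k^(-d/2)` -/
noncomputable def zt (d : ℕ) : ℝ := ∑' k : ℕ, ((k : ℝ) + 1) ^ (-(d / 2 : ℝ))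

/-- truncated polylogarithm -/
noncomputable def gz (d : ℕ) (w : ℝ) (k₀ : ℕ) : ℝ :=
  ∑ k ∈ Finset.range k₀, w ^ (k + 1) * ((k : ℝ) + 1) ^ (-(d / 2 : ℝ))

theorem zt_nonneg (d : ℕ) : 0 ≤ zt d := tsum_nonneg fun k => by positivity

theorem hkc_pos (d : ℕ) : 0 < hkc d := by
  unfold hkc
  have := Real.pi_pos
  positivity

theorem gz_le (d : ℕ) (hd : 3 ≤ d) {w : ℝ} (h0 : 0 ≤ w) (h1 : w < 1) (k₀ : ℕ) :
    gz d w k₀ ≤ zt d := by
  unfold gz zt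
  refine le_trans (Finset.sum_le_sum fun k _ => ?_)
    ((tl_summable d hd).sum_le_tsum (Finset.range k₀) fun k _ => by positivity)
  have h2 : w ^ (k + 1) ≤ 1 := pow_le_one₀ h0 h1.le
  have h3 : 0 ≤ ((k : ℝ) + 1) ^ (-(d / 2 : ℝ)) := by positivity
  nlinarith

theorem tl_lim (d : ℕ) : Tendsto (fun k₀ => tl d k₀) atTop (𝓝 0) :=
  tendsto_sum_nat_add (fun k : ℕ => ((k : ℝ) + 1) ^ (-(d / 2 : ℝ)))

theorem zt_split (d : ℕ) (hd : 3 ≤ d) (k₀ : ℕ) :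
    ∑ k ∈ Finset.range k₀, ((k : ℝ) + 1) ^ (-(d / 2 : ℝ)) + tl d k₀ = zt d := by
  unfold tl zt
  exact (tl_summable d hd).sum_add_tsum_nat_add k₀

/-- lower bound of the truncated polylogarithm -/
theorem gz_ge (d : ℕ) (hd : 3 ≤ d) {θ : ℝ} (h0 : 0 ≤ θ) (k₀ : ℕ) (hk : 1 ≤ k₀) (h1 : θ ≤ 1) :
    (1 - θ) * (zt d - tl d k₀) ≤ gz d (1 - θ / k₀) k₀ := by
  rw [← zt_split d hd k₀, add_sub_cancel_right]
  unfold gz
  rw [Finset.mul_sum]
  refine Finset.sum_le_sum fun k hk' => ?_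
  have hk0 : (0 : ℝ) < k₀ := by exact_mod_cast hk
  refine mul_le_mul_of_nonneg_right ?_ (by positivity)
  have h2 : (0 : ℝ) ≤ θ / k₀ := by positivity
  have h2' : θ / k₀ ≤ 1 := by
    rw [div_le_one hk0]
    have : (1 : ℝ) ≤ k₀ := by exact_mod_cast hk
    linarith
  have h3 : (1 - θ / k₀) ^ k₀ ≤ (1 - θ / k₀) ^ (k + 1) :=
    pow_le_pow_of_le_one (by linarith) (by linarith) (by
      have := Finset.mem_range.1 hk'
      omega)
  have h4 : 1 + (k₀ : ℝ) * (-(θ / k₀)) ≤ (1 + -(θ / k₀)) ^ k₀ :=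
    one_add_mul_le_pow (by linarith) k₀
  have h5 : 1 + (k₀ : ℝ) * (-(θ / k₀)) = 1 - θ := by field_simp; ring
  rw [h5, ← sub_eq_add_neg] at h4
  exact h4.trans h3

/-- the truncated Green function of the heat kernel -/
theorem hS_asym (d : ℕ) (k₀ : ℕ) (ε : ℝ) (hε : 0 < ε) : ∃ t₀ η : ℝ, 1 ≤ t₀ ∧ 0 < η ∧ η ≤ 1 ∧
    ∀ (L : ℕ) [NeZero L] (t w : ℝ), 3 ≤ L → t₀ ≤ t → t ≤ η * (L : ℝ) ^ 2 → 0 ≤ w → w < 1 →
    ∀ x : Fin d → ZMod L, |hS w k₀ t x - hkc d * gz d w k₀ * t ^ (-(d / 2 : ℝ))| ≤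
      ε * t ^ (-(d / 2 : ℝ)) := by
  obtain ⟨s₀, η, hs₀, hη, h⟩ := bl_hk d (ε / (k₀ + 1)) (by positivity)
  refine ⟨s₀, min (η / (k₀ + 1)) 1, hs₀, by positivity, min_le_right _ _, ?_⟩
  intro L _ t w hL ht htL hw0 hw1 x
  have ht0 : 0 < t := by linarith
  have hX0 : 0 < t ^ (-(d / 2 : ℝ)) := by positivity
  have hL2 : (0 : ℝ) ≤ (L : ℝ) ^ 2 := by positivity
  have h1 : ∀ k ∈ Finset.range k₀, |w ^ (k + 1) * qq (nnRate d L) (((k + 1 : ℕ) : ℝ) * t) x x -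
      hkc d * (w ^ (k + 1) * ((k : ℝ) + 1) ^ (-(d / 2 : ℝ))) * t ^ (-(d / 2 : ℝ))| ≤
      ε / (k₀ + 1) * t ^ (-(d / 2 : ℝ)) := by
    intro k hk
    have hk' : (k : ℝ) + 1 ≤ k₀ := by exact_mod_cast Finset.mem_range.1 hk
    obtain ⟨s, hs⟩ : ∃ s : ℝ, s = ((k + 1 : ℕ) : ℝ) * t := ⟨_, rfl⟩
    have hs' : s = ((k : ℝ) + 1) * t := by rw [hs]; push_cast; rfl
    have hk0 : (0 : ℝ) ≤ k := Nat.cast_nonneg k
    have hst : t ≤ s := by
      rw [hs']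
      nlinarith
    have hs0 : 0 < s := by linarith
    have h2 := h L s hL (by linarith) (by
      rw [hs']
      calc ((k : ℝ) + 1) * t ≤ (k₀ + 1) * (min (η / (k₀ + 1)) 1 * (L : ℝ) ^ 2) :=
            mul_le_mul (by linarith) htL ht0.le (by positivity)
        _ ≤ (k₀ + 1) * (η / (k₀ + 1) * (L : ℝ) ^ 2) := by
            refine mul_le_mul_of_nonneg_left (mul_le_mul_of_nonneg_right (min_le_left _ _) hL2)
              (by positivity)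
        _ = η * (L : ℝ) ^ 2 := by field_simp) x
    rw [← hs]
    have h3 : s ^ (-(d / 2 : ℝ)) = ((k : ℝ) + 1) ^ (-(d / 2 : ℝ)) * t ^ (-(d / 2 : ℝ)) := by
      rw [hs', Real.mul_rpow (by positivity) ht0.le]
    have h4 : w ^ (k + 1) * qq (nnRate d L) s x x -
        hkc d * (w ^ (k + 1) * ((k : ℝ) + 1) ^ (-(d / 2 : ℝ))) * t ^ (-(d / 2 : ℝ)) =
        w ^ (k + 1) * (s ^ (-(d / 2 : ℝ)) * (s ^ (d / 2 : ℝ) * qq (nnRate d L) s x x - hkc d)) := by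
      have h5 : s ^ (-(d / 2 : ℝ)) * (s ^ (d / 2 : ℝ) * qq (nnRate d L) s x x - hkc d) =
          qq (nnRate d L) s x x - hkc d * s ^ (-(d / 2 : ℝ)) := by
        have h6 : s ^ (-(d / 2 : ℝ)) * s ^ (d / 2 : ℝ) = 1 := by
          rw [← Real.rpow_add hs0]
          simp
        calc s ^ (-(d / 2 : ℝ)) * (s ^ (d / 2 : ℝ) * qq (nnRate d L) s x x - hkc d) =
              (s ^ (-(d / 2 : ℝ)) * s ^ (d / 2 : ℝ)) * qq (nnRate d L) s x x -
              hkc d * s ^ (-(d / 2 : ℝ)) := by ring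
          _ = _ := by rw [h6, one_mul]
      rw [h5, h3]
      ring
    rw [h4, abs_mul, abs_mul, abs_of_nonneg (pow_nonneg hw0 _),
      abs_of_nonneg (by positivity : (0 : ℝ) ≤ s ^ (-(d / 2 : ℝ)))]
    have h6 : s ^ (-(d / 2 : ℝ)) ≤ t ^ (-(d / 2 : ℝ)) :=
      Real.rpow_le_rpow_of_nonpos ht0 hst (by rw [neg_nonpos]; positivity)
    have h7 : w ^ (k + 1) ≤ 1 := pow_le_one₀ hw0 hw1.le
    calc w ^ (k + 1) * (s ^ (-(d / 2 : ℝ)) *
          |s ^ (d / 2 : ℝ) * qq (nnRate d L) s x x - hkc d|)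
        ≤ 1 * (t ^ (-(d / 2 : ℝ)) * (ε / (k₀ + 1))) :=
          mul_le_mul h7 (mul_le_mul h6 h2 (abs_nonneg _) hX0.le) (by positivity) (by norm_num)
      _ = _ := by ring
  have h2 : hS w k₀ t x - hkc d * gz d w k₀ * t ^ (-(d / 2 : ℝ)) =
      ∑ k ∈ Finset.range k₀, (w ^ (k + 1) * qq (nnRate d L) (((k + 1 : ℕ) : ℝ) * t) x x -
      hkc d * (w ^ (k + 1) * ((k : ℝ) + 1) ^ (-(d / 2 : ℝ))) * t ^ (-(d / 2 : ℝ))) := by
    unfold hS gz
    rw [Finset.sum_sub_distrib, Finset.mul_sum, Finset.sum_mul]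
  rw [h2]
  refine (Finset.abs_sum_le_sum_abs _ _).trans ((Finset.sum_le_sum h1).trans ?_)
  rw [Finset.sum_const, Finset.card_range, nsmul_eq_mul]
  have h3 : (k₀ : ℝ) * (ε / (k₀ + 1) * t ^ (-(d / 2 : ℝ))) =
      (k₀ / (k₀ + 1)) * (ε * t ^ (-(d / 2 : ℝ))) := by ring
  rw [h3]
  have h4 : (k₀ : ℝ) / (k₀ + 1) ≤ 1 := by
    rw [div_le_one (by positivity)]
    linarith
  have h5 : 0 ≤ ε * t ^ (-(d / 2 : ℝ)) := by positivity
  nlinarith

/-- bounds of the generating function -/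
theorem gen_bd (d : ℕ) (hd : 3 ≤ d) : ∃ (C₀ : ℝ) (m : ℕ), 1 ≤ C₀ ∧ ∀ (k₀ : ℕ) (ε : ℝ), 0 < ε →
    ∃ t₀ η : ℝ, 1 ≤ t₀ ∧ 0 < η ∧ η ≤ 1 ∧ ∀ (L : ℕ) [NeZero L] (t w : ℝ), t₀ ≤ t →
    t ≤ η * (L : ℝ) ^ 2 → (Real.log L) ^ m ≤ t → 0 ≤ w → w < 1 →
    t * (1 / ((L : ℝ) ^ d * (1 - w))) ≤ 1 → ∀ x : Fin d → ZMod L,
    t ^ (d / 2 : ℝ) * stirExp (nnRate d L) t (fun g => w ^ (cyc g x).card) ≤
      hkc d * gz d w k₀ + (ε + C₀ * tl d k₀) +
        C₀ * (t ^ (d / 2 : ℝ) * (1 / ((L : ℝ) ^ d * (1 - w)))) ∧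
    hkc d * gz d w k₀ ≤
      t ^ (d / 2 : ℝ) * stirExp (nnRate d L) t (fun g => w ^ (cyc g x).card) +
      ε * (1 + t ^ (d / 2 : ℝ) * (1 / ((L : ℝ) ^ d * (1 - w)))) := by
  obtain ⟨C₀, m, hC₀, hst⟩ := bl_stir d hd
  refine ⟨C₀, m, hC₀, fun k₀ ε hε => ?_⟩
  obtain ⟨t₁, ht₁, h1⟩ := hst k₀ (ε / 2) (by positivity)
  obtain ⟨t₂, η, ht₂, hη, hη1, h2⟩ := hS_asym d k₀ (ε / 2) (by positivity)
  refine ⟨max (max t₁ t₂) 10, η, le_trans ht₁ ((le_max_left _ _).trans (le_max_left _ _)),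
    hη, hη1, ?_⟩
  intro L _ t w ht htL hlog hw0 hw1 hY x
  have ht1 : t₁ ≤ t := ((le_max_left _ _).trans (le_max_left _ _)).trans ht
  have ht2 : t₂ ≤ t := ((le_max_right _ _).trans (le_max_left _ _)).trans ht
  have ht10 : 10 ≤ t := (le_max_right _ _).trans ht
  have ht0 : 0 < t := by linarith
  have hLpos : 1 ≤ L := Nat.pos_of_ne_zero (NeZero.ne L)
  have hLr : (1 : ℝ) ≤ L := by exact_mod_cast hLpos
  have hL2 : (0 : ℝ) ≤ (L : ℝ) ^ 2 := by positivity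
  have htL2 : t ≤ (L : ℝ) ^ 2 := by
    calc t ≤ η * (L : ℝ) ^ 2 := htL
      _ ≤ 1 * (L : ℝ) ^ 2 := mul_le_mul_of_nonneg_right hη1 hL2
      _ = _ := one_mul _
  have hL3 : 3 ≤ L := by
    by_contra hcon
    have h1 : L ≤ 2 := by omega
    have h2 : (L : ℝ) ≤ 2 := by exact_mod_cast h1
    have h3 : (L : ℝ) ^ 2 ≤ 2 ^ 2 := pow_le_pow_left₀ (by linarith) h2 2
    linarith
  have hY' : 1 / ((L : ℝ) ^ d * (1 - w)) ≤ 1 / t := by
    rw [le_div_iff₀ ht0, mul_comm]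
    exact hY
  obtain ⟨h3, h4⟩ := h1 L t w ht1 htL2 hlog hw0 hw1 hY' x
  have h5 := h2 L t w hL3 ht2 htL hw0 hw1 x
  have hX : t ^ (d / 2 : ℝ) * t ^ (-(d / 2 : ℝ)) = 1 := by
    rw [← Real.rpow_add ht0]
    simp
  have hT0 : 0 ≤ t ^ (d / 2 : ℝ) := by positivity
  obtain ⟨T, hT⟩ : ∃ T : ℝ, T = t ^ (d / 2 : ℝ) := ⟨_, rfl⟩
  obtain ⟨X, hXd⟩ : ∃ X : ℝ, X = t ^ (-(d / 2 : ℝ)) := ⟨_, rfl⟩
  obtain ⟨E, hE⟩ : ∃ E : ℝ, E = stirExp (nnRate d L) t (fun g => w ^ (cyc g x).card) := ⟨_, rfl⟩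
  obtain ⟨Y, hYd⟩ : ∃ Y : ℝ, Y = 1 / ((L : ℝ) ^ d * (1 - w)) := ⟨_, rfl⟩
  obtain ⟨H, hH⟩ : ∃ H : ℝ, H = hS w k₀ t x := ⟨_, rfl⟩
  rw [← hE, ← hYd, ← hXd, ← hH] at h3 h4
  rw [← hXd, ← hH] at h5
  rw [← hT, ← hXd] at hX
  rw [← hT] at hT0
  rw [← hE, ← hYd, ← hT]
  have h6 := (abs_le.1 h5).1
  have h7 := (abs_le.1 h5).2
  constructor
  · have h8 : E ≤ (hkc d * gz d w k₀ + (ε + C₀ * tl d k₀)) * X + C₀ * Y := by
      have : (hkc d * gz d w k₀ + (ε + C₀ * tl d k₀)) * X = hkc d * gz d w k₀ * X +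
        ε / 2 * X + (ε / 2 + C₀ * tl d k₀) * X := by ring
      linarith
    calc T * E ≤ T * ((hkc d * gz d w k₀ + (ε + C₀ * tl d k₀)) * X + C₀ * Y) :=
          mul_le_mul_of_nonneg_left h8 hT0
      _ = (hkc d * gz d w k₀ + (ε + C₀ * tl d k₀)) * (T * X) + C₀ * (T * Y) := by ring
      _ = _ := by rw [hX, mul_one]
  · have hYn : 0 ≤ Y := by
      rw [hYd]
      have : 0 < 1 - w := by linarith
      positivity
    have h8 : hkc d * gz d w k₀ * X ≤ E + ε * (X + Y) := by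
      have : ε * (X + Y) = ε / 2 * (X + Y) + ε / 2 * X + ε / 2 * Y := by ring
      have h9 : 0 ≤ ε / 2 * Y := by positivity
      linarith
    calc hkc d * gz d w k₀ = T * (hkc d * gz d w k₀ * X) := by
          rw [show T * (hkc d * gz d w k₀ * X) = hkc d * gz d w k₀ * (T * X) by ring, hX, mul_one]
      _ ≤ T * (E + ε * (X + Y)) := mul_le_mul_of_nonneg_left h8 hT0
      _ = T * E + ε * (T * X + T * Y) := by ring
      _ = _ := by rw [hX]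

/-- from the condition on `t ^ (d/2) / L ^ d` to the one on `t / L ^ 2` -/
theorem t_le_L2 {d : ℕ} (hd : 1 ≤ d) {η t l : ℝ} (hη : 0 < η) (ht : 0 < t) (hl : 0 < l)
    (h : t ^ (d / 2 : ℝ) ≤ η ^ (d / 2 : ℝ) * l ^ d) : t ≤ η * l ^ 2 := by
  by_contra hcon
  push Not at hcon
  have hd0 : (0 : ℝ) < d := by exact_mod_cast hd
  have h1 : (η * l ^ 2) ^ (d / 2 : ℝ) < t ^ (d / 2 : ℝ) :=
    Real.rpow_lt_rpow (by positivity) hcon (by positivity)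
  have h2 : (η * l ^ 2) ^ (d / 2 : ℝ) = η ^ (d / 2 : ℝ) * l ^ d := by
    rw [Real.mul_rpow hη.le (by positivity)]
    congr 1
    rw [← Real.rpow_natCast, ← Real.rpow_mul hl.le, ← Real.rpow_natCast]
    congr 1
    push_cast
    ring
  linarith

/-- UPPER BOUND of the density of the points in cycles of at most `n` points -/
theorem law_up (d : ℕ) (hd : 3 ≤ d) : ∃ m : ℕ, ∀ ε : ℝ, 0 < ε → ∃ t₀ η : ℝ, 1 ≤ t₀ ∧ 0 < η ∧
    ∀ (L : ℕ) [NeZero L] (t : ℝ) (n : ℕ), t₀ ≤ t → (Real.log L) ^ m ≤ t → 1 ≤ n →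
    n * t ^ (d / 2 : ℝ) ≤ η * (L : ℝ) ^ d → ∀ x : Fin d → ZMod L,
    t ^ (d / 2 : ℝ) * stirExp (nnRate d L) t (fun g => if (cyc g x).card ≤ n then 1 else 0) ≤
      hkc d * zt d + ε := by
  obtain ⟨C₀, m, hC₀, hgen⟩ := gen_bd d hd
  refine ⟨m, fun ε hε => ?_⟩
  have hC0 : 0 < C₀ := by linarith
  have hz := zt_nonneg d
  have hk := hkc_pos d
  -- the tail
  obtain ⟨k₀, hk₀⟩ := (((tl_lim d).const_mul C₀).eventually_lt_const
    (show C₀ * 0 < ε / 8 by rw [mul_zero]; positivity)).exists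
  obtain ⟨θ, hθ⟩ : ∃ θ : ℝ, θ = min (1 / 2) (ε / (4 * (hkc d * zt d + ε))) := ⟨_, rfl⟩
  have hθ0 : 0 < θ := by rw [hθ]; positivity
  have hθ1 : θ ≤ 1 / 2 := by rw [hθ]; exact min_le_left _ _
  have hθ2 : θ * (4 * (hkc d * zt d + ε)) ≤ ε := by
    have : θ ≤ ε / (4 * (hkc d * zt d + ε)) := by rw [hθ]; exact min_le_right _ _
    rwa [le_div_iff₀ (by positivity)] at this
  obtain ⟨t₀, η, ht₀, hη, hη1, hg⟩ := hgen k₀ (ε / 8) (by positivity)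
  refine ⟨t₀, min (min (η ^ (d / 2 : ℝ)) θ) (θ * (ε / (8 * C₀))), ht₀, by positivity, ?_⟩
  obtain ⟨η', hη'⟩ : ∃ η' : ℝ, η' = min (min (η ^ (d / 2 : ℝ)) θ) (θ * (ε / (8 * C₀))) := ⟨_, rfl⟩
  have e1 : η' ≤ η ^ (d / 2 : ℝ) := by
    rw [hη']; exact (min_le_left _ _).trans (min_le_left _ _)
  have e2 : η' ≤ θ := by rw [hη']; exact (min_le_left _ _).trans (min_le_right _ _)
  have e3 : η' ≤ θ * (ε / (8 * C₀)) := by rw [hη']; exact min_le_right _ _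
  rw [← hη']
  intro L _ t n ht hlog hn hnt x
  have ht1 : 1 ≤ t := ht₀.trans ht
  have ht0 : 0 < t := by linarith
  have hLpos : 1 ≤ L := Nat.pos_of_ne_zero (NeZero.ne L)
  have hLr : (1 : ℝ) ≤ L := by exact_mod_cast hLpos
  have hLd : (0 : ℝ) < (L : ℝ) ^ d := by positivity
  have hn1 : (1 : ℝ) ≤ n := by exact_mod_cast hn
  have hn0 : (0 : ℝ) < n := by linarith
  obtain ⟨T, hT⟩ : ∃ T : ℝ, T = t ^ (d / 2 : ℝ) := ⟨_, rfl⟩
  have hd3 : (3 : ℝ) ≤ d := by exact_mod_cast hd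
  have hTt : t ≤ T := by
    rw [hT]
    calc t = t ^ (1 : ℝ) := (Real.rpow_one t).symm
      _ ≤ _ := Real.rpow_le_rpow_of_exponent_le ht1 (by linarith)
  have hT0 : 0 < T := by linarith
  rw [← hT] at hnt ⊢
  have hTL : T ≤ η' * (L : ℝ) ^ d := by
    calc T = 1 * T := (one_mul T).symm
      _ ≤ n * T := mul_le_mul_of_nonneg_right hn1 hT0.le
      _ ≤ _ := hnt
  have htL : t ≤ η * (L : ℝ) ^ 2 := by
    refine t_le_L2 (d := d) (by omega) hη ht0 (by linarith : (0 : ℝ) < L) ?_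
    rw [← hT]
    exact hTL.trans (mul_le_mul_of_nonneg_right e1 hLd.le)
  -- the parameter
  obtain ⟨w, hw⟩ : ∃ w : ℝ, w = 1 - θ / n := ⟨_, rfl⟩
  have hθn : θ / n ≤ 1 / 2 := by
    rw [div_le_iff₀ hn0]
    nlinarith
  have hw0 : 0 ≤ w := by rw [hw]; linarith
  have hw1 : w < 1 := by
    rw [hw]
    have : 0 < θ / n := by positivity
    linarith
  have hY : 1 / ((L : ℝ) ^ d * (1 - w)) = n / (θ * (L : ℝ) ^ d) := by
    have h1 : 1 - w = θ / n := by rw [hw]; ring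
    rw [h1]
    field_simp
  have hTY : T * (1 / ((L : ℝ) ^ d * (1 - w))) ≤ η' / θ := by
    rw [hY]
    have h1 : T * (n / (θ * (L : ℝ) ^ d)) = (n * T) / (θ * (L : ℝ) ^ d) := by ring
    rw [h1, div_le_div_iff₀ (by positivity) hθ0]
    calc n * T * θ ≤ (η' * (L : ℝ) ^ d) * θ := mul_le_mul_of_nonneg_right hnt hθ0.le
      _ = _ := by ring
  have hY0 : 0 ≤ 1 / ((L : ℝ) ^ d * (1 - w)) := by
    have : 0 < 1 - w := by linarith
    positivity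
  have htY : t * (1 / ((L : ℝ) ^ d * (1 - w))) ≤ 1 := by
    calc t * (1 / ((L : ℝ) ^ d * (1 - w))) ≤ T * (1 / ((L : ℝ) ^ d * (1 - w))) :=
          mul_le_mul_of_nonneg_right hTt hY0
      _ ≤ η' / θ := hTY
      _ ≤ 1 := by rw [div_le_one hθ0]; exact e2
  have h1 := (hg L t w ht htL hlog hw0 hw1 htY x).1
  rw [← hT] at h1
  obtain ⟨E, hE⟩ : ∃ E : ℝ, E = stirExp (nnRate d L) t (fun g => w ^ (cyc g x).card) := ⟨_, rfl⟩
  rw [← hE] at h1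
  have h2 : T * E ≤ hkc d * zt d + ε / 2 := by
    have f1 : hkc d * gz d w k₀ ≤ hkc d * zt d :=
      mul_le_mul_of_nonneg_left (gz_le d hd hw0 hw1 k₀) hk.le
    have f2 : C₀ * (T * (1 / ((L : ℝ) ^ d * (1 - w)))) ≤ ε / 8 := by
      calc C₀ * (T * (1 / ((L : ℝ) ^ d * (1 - w)))) ≤ C₀ * (η' / θ) :=
            mul_le_mul_of_nonneg_left hTY hC0.le
        _ ≤ C₀ * (ε / (8 * C₀)) := by
            refine mul_le_mul_of_nonneg_left ?_ hC0.le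
            rw [div_le_iff₀ hθ0, mul_comm]
            exact e3
        _ = ε / 8 := by field_simp
    linarith
  -- Bernoulli
  have h3 : ∀ g : Perm (Fin d → ZMod L), (1 - θ) * (if (cyc g x).card ≤ n then (1 : ℝ) else 0) ≤
      w ^ (cyc g x).card := by
    intro g
    split_ifs with h
    · have h3 : w ^ n ≤ w ^ (cyc g x).card := pow_le_pow_of_le_one hw0 hw1.le h
      have h4 : 1 + (n : ℝ) * (-(θ / n)) ≤ (1 + -(θ / n)) ^ n :=
        one_add_mul_le_pow (by linarith) n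
      have h5 : 1 + (n : ℝ) * (-(θ / n)) = 1 - θ := by field_simp; ring
      have h6 : (1 + -(θ / (n : ℝ))) = w := by rw [hw]; ring
      rw [h5, h6] at h4
      linarith
    · rw [mul_zero]
      exact pow_nonneg hw0 _
  have h4 := Pool.Agent.Y998.ST.exp_mono (J := nnRate d L) Pool.Agent.Y998.ST.nn_nonneg
    (t := t) (by linarith) h3
  rw [Pool.Agent.Q297.LC.stir_smul, ← hE] at h4
  obtain ⟨p, hp⟩ : ∃ p : ℝ, p = stirExp (nnRate d L) t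
    (fun g => if (cyc g x).card ≤ n then 1 else 0) := ⟨_, rfl⟩
  rw [← hp] at h4 ⊢
  have h5 : (1 - θ) * (T * p) ≤ hkc d * zt d + ε / 2 := by
    calc (1 - θ) * (T * p) = T * ((1 - θ) * p) := by ring
      _ ≤ T * E := mul_le_mul_of_nonneg_left h4 hT0.le
      _ ≤ _ := h2
  have h6 : hkc d * zt d + ε / 2 ≤ (1 - θ) * (hkc d * zt d + ε) := by
    have h7 : 0 ≤ hkc d * zt d := by positivity
    nlinarith
  exact le_of_mul_le_mul_left (h5.trans h6) (by linarith)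

/-- LOWER BOUND of the density of the points in cycles of at most `n₀` points -/
theorem law_low (d : ℕ) (hd : 3 ≤ d) : ∃ m : ℕ, ∀ ε : ℝ, 0 < ε → ∃ (t₀ η : ℝ) (n₀ : ℕ),
    1 ≤ t₀ ∧ 0 < η ∧ 1 ≤ n₀ ∧
    ∀ (L : ℕ) [NeZero L] (t : ℝ), t₀ ≤ t → (Real.log L) ^ m ≤ t →
    t ^ (d / 2 : ℝ) ≤ η * (L : ℝ) ^ d → ∀ x : Fin d → ZMod L,
    hkc d * zt d - ε ≤
      t ^ (d / 2 : ℝ) * stirExp (nnRate d L) t (fun g => if (cyc g x).card ≤ n₀ then 1 else 0) := by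
  obtain ⟨C₀, m, hC₀, hgen⟩ := gen_bd d hd
  refine ⟨m, fun ε hε => ?_⟩
  have hC0 : 0 < C₀ := by linarith
  have hz := zt_nonneg d
  have hk := hkc_pos d
  obtain ⟨k₁, hk₁⟩ := eventually_atTop.1 ((((tl_lim d).const_mul (C₀ + hkc d)).eventually_lt_const
    (show (C₀ + hkc d) * 0 < ε / 8 by rw [mul_zero]; positivity)))
  obtain ⟨k₀, hk₀⟩ : ∃ k₀ : ℕ, k₀ = k₁ + 1 := ⟨_, rfl⟩
  have htl := hk₁ k₀ (by omega)
  have htl0 := tl_nonneg d k₀
  have hk1 : (1 : ℝ) ≤ k₀ := by rw [hk₀]; push_cast; linarith [Nat.cast_nonneg (α := ℝ) k₁]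
  have hk0 : (0 : ℝ) < k₀ := by linarith
  -- the parameters w < w'
  obtain ⟨θ, hθ⟩ : ∃ θ : ℝ, θ = min (1 / 2) (ε / (8 * (hkc d * zt d + 1))) := ⟨_, rfl⟩
  have hθ0 : 0 < θ := by rw [hθ]; positivity
  have hθ1 : θ ≤ 1 / 2 := by rw [hθ]; exact min_le_left _ _
  have hθ2 : θ * (hkc d * zt d) ≤ ε / 8 := by
    have h1 : θ ≤ ε / (8 * (hkc d * zt d + 1)) := by rw [hθ]; exact min_le_right _ _
    rw [le_div_iff₀ (by positivity)] at h1
    have h2 : 0 ≤ hkc d * zt d := by positivity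
    nlinarith
  obtain ⟨w, hw⟩ : ∃ w : ℝ, w = 1 - θ / k₀ := ⟨_, rfl⟩
  obtain ⟨w', hw'⟩ : ∃ w' : ℝ, w' = 1 - θ / k₀ / 2 := ⟨_, rfl⟩
  have hθk0 : 0 < θ / k₀ := by positivity
  have hθk : θ / k₀ ≤ 1 / 2 := by
    rw [div_le_iff₀ hk0]
    nlinarith
  have hw0 : 0 < w := by rw [hw]; linarith
  have hww : w < w' := by rw [hw, hw']; linarith
  have hw1 : w' < 1 := by rw [hw']; linarith
  have hw'0 : 0 < w' := by linarith
  have hG : hkc d * zt d - ε / 4 ≤ hkc d * gz d w k₀ := by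
    have h1 := gz_ge d hd hθ0.le k₀ (by omega) (by linarith)
    rw [← hw] at h1
    have h2 := mul_le_mul_of_nonneg_left h1 hk.le
    have h3 : hkc d * tl d k₀ ≤ (C₀ + hkc d) * tl d k₀ :=
      mul_le_mul_of_nonneg_right (by linarith) htl0
    have h4 : hkc d * ((1 - θ) * (zt d - tl d k₀)) = hkc d * zt d - θ * (hkc d * zt d) -
        hkc d * tl d k₀ + θ * (hkc d * tl d k₀) := by ring
    have h5 : 0 ≤ θ * (hkc d * tl d k₀) := by positivity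
    linarith
  -- n₀
  have hr : w / w' < 1 := by rw [div_lt_one hw'0]; exact hww
  have hr0 : 0 < w / w' := by positivity
  obtain ⟨n₀, hn₀⟩ := (((tendsto_pow_atTop_nhds_zero_of_lt_one hr0.le hr).const_mul
    (hkc d * zt d + 1 + ε + C₀)).eventually_lt_const
    (show (hkc d * zt d + 1 + ε + C₀) * 0 < ε / 8 by rw [mul_zero]; positivity)).exists
  obtain ⟨t₀, η, ht₀, hη, hη1, hg⟩ := hgen k₀ (min (ε / 8) 1) (by positivity)
  refine ⟨t₀, min (min (η ^ (d / 2 : ℝ)) 1) (1 - w') , n₀ + 1, ht₀, by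
    have : 0 < 1 - w' := by linarith
    positivity, by omega, ?_⟩
  obtain ⟨η', hη'⟩ : ∃ η' : ℝ, η' = min (min (η ^ (d / 2 : ℝ)) 1) (1 - w') := ⟨_, rfl⟩
  have e1 : η' ≤ η ^ (d / 2 : ℝ) := by
    rw [hη']; exact (min_le_left _ _).trans (min_le_left _ _)
  have e3 : η' ≤ 1 - w' := by rw [hη']; exact min_le_right _ _
  rw [← hη']
  intro L _ t ht hlog hnt x
  have ht1 : 1 ≤ t := ht₀.trans ht
  have ht0 : 0 < t := by linarith
  have hLpos : 1 ≤ L := Nat.pos_of_ne_zero (NeZero.ne L)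
  have hLr : (1 : ℝ) ≤ L := by exact_mod_cast hLpos
  have hLd : (0 : ℝ) < (L : ℝ) ^ d := by positivity
  obtain ⟨T, hT⟩ : ∃ T : ℝ, T = t ^ (d / 2 : ℝ) := ⟨_, rfl⟩
  have hd3 : (3 : ℝ) ≤ d := by exact_mod_cast hd
  have hTt : t ≤ T := by
    rw [hT]
    calc t = t ^ (1 : ℝ) := (Real.rpow_one t).symm
      _ ≤ _ := Real.rpow_le_rpow_of_exponent_le ht1 (by linarith)
  have hT0 : 0 < T := by linarith
  rw [← hT] at hnt ⊢
  have htL : t ≤ η * (L : ℝ) ^ 2 := by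
    refine t_le_L2 (d := d) (by omega) hη ht0 (by linarith : (0 : ℝ) < L) ?_
    rw [← hT]
    exact hnt.trans (mul_le_mul_of_nonneg_right e1 hLd.le)
  -- both parameters
  have hY : ∀ v : ℝ, v ≤ w' → T * (1 / ((L : ℝ) ^ d * (1 - v))) ≤ 1 := by
    intro v hv
    have h1 : 0 < 1 - v := by linarith
    rw [mul_one_div, div_le_one (by positivity)]
    calc T ≤ η' * (L : ℝ) ^ d := hnt
      _ ≤ (1 - v) * (L : ℝ) ^ d := mul_le_mul_of_nonneg_right (by linarith) hLd.le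
      _ = _ := mul_comm _ _
  have hY2 : ∀ v : ℝ, v ≤ w' → t * (1 / ((L : ℝ) ^ d * (1 - v))) ≤ 1 := by
    intro v hv
    have h1 : 0 < 1 - v := by linarith
    exact (mul_le_mul_of_nonneg_right hTt (by positivity)).trans (hY v hv)
  have h1 := (hg L t w ht htL hlog hw0.le (by linarith) (hY2 w hww.le) x).2
  have h2 := (hg L t w' ht htL hlog hw'0.le hw1 (hY2 w' le_rfl) x).1
  rw [← hT] at h1 h2
  obtain ⟨E, hE⟩ : ∃ E : ℝ, E = stirExp (nnRate d L) t (fun g => w ^ (cyc g x).card) := ⟨_, rfl⟩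
  obtain ⟨E', hE'⟩ : ∃ E' : ℝ, E' = stirExp (nnRate d L) t (fun g => w' ^ (cyc g x).card) :=
    ⟨_, rfl⟩
  rw [← hE] at h1
  rw [← hE'] at h2
  have h3 : T * E' ≤ hkc d * zt d + 1 + ε + C₀ := by
    have f1 : hkc d * gz d w' k₀ ≤ hkc d * zt d :=
      mul_le_mul_of_nonneg_left (gz_le d hd hw'0.le hw1 k₀) hk.le
    have f2 : C₀ * (T * (1 / ((L : ℝ) ^ d * (1 - w')))) ≤ C₀ * 1 :=
      mul_le_mul_of_nonneg_left (hY w' le_rfl) hC0.le
    have f3 : C₀ * tl d k₀ ≤ (C₀ + hkc d) * tl d k₀ :=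
      mul_le_mul_of_nonneg_right (by linarith) htl0
    have f4 : min (ε / 8) 1 ≤ 1 := min_le_right _ _
    linarith
  have hpt : ∀ g : Perm (Fin d → ZMod L), w ^ (cyc g x).card ≤
      (if (cyc g x).card ≤ n₀ + 1 then (1 : ℝ) else 0) +
        (w / w') ^ n₀ * w' ^ (cyc g x).card := by
    intro g
    have h0 : 0 ≤ (w / w') ^ n₀ * w' ^ (cyc g x).card := by positivity
    split_ifs with h
    · have : w ^ (cyc g x).card ≤ 1 := pow_le_one₀ hw0.le (by linarith)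
      linarith
    · rw [zero_add]
      have h4 : (w / w') ^ (cyc g x).card ≤ (w / w') ^ n₀ :=
        pow_le_pow_of_le_one hr0.le hr.le (by omega)
      calc w ^ (cyc g x).card = (w / w') ^ (cyc g x).card * w' ^ (cyc g x).card := by
            rw [div_pow]
            field_simp
        _ ≤ _ := mul_le_mul_of_nonneg_right h4 (by positivity)
  have h4 := Pool.Agent.Y998.ST.exp_mono (J := nnRate d L) Pool.Agent.Y998.ST.nn_nonneg
    (t := t) (by linarith) hpt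
  rw [Pool.Agent.Q297.LC.stir_add, Pool.Agent.Q297.LC.stir_smul, ← hE, ← hE'] at h4
  obtain ⟨p, hp⟩ : ∃ p : ℝ, p = stirExp (nnRate d L) t
    (fun g => if (cyc g x).card ≤ n₀ + 1 then 1 else 0) := ⟨_, rfl⟩
  rw [← hp] at h4 ⊢
  have h5 : T * E ≤ T * p + ε / 8 := by
    calc T * E ≤ T * (p + (w / w') ^ n₀ * E') := mul_le_mul_of_nonneg_left h4 hT0.le
      _ = T * p + (w / w') ^ n₀ * (T * E') := by ring
      _ ≤ T * p + (w / w') ^ n₀ * (hkc d * zt d + 1 + ε + C₀) :=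
          add_le_add le_rfl (mul_le_mul_of_nonneg_left h3 (by positivity))
      _ ≤ T * p + ε / 8 := by
          rw [mul_comm ((w / w') ^ n₀)]
          exact add_le_add le_rfl hn₀.le
  have h6 : min (ε / 8) 1 * (1 + T * (1 / ((L : ℝ) ^ d * (1 - w)))) ≤ ε / 8 * 2 := by
    refine mul_le_mul (min_le_left _ _) (by linarith [hY w hww.le]) ?_ (by positivity)
    have : 0 < 1 - w := by linarith
    positivity
  linarith

end Pool.Agent.U153
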