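import Pool.Agent.Q297.LC.Lcs
import Pool.Agent.Q66.LC.Jmp
import Pool.Agent.Q292.LC.FinT

/-!
# Short cycles do not see the size of the torus, in both directions

The proofs are those of Pool.Agent.Q297.LC.Loc and Pool.Agent.Q297.LC.Lcs, which do not use that one
torus is the smaller one.
-/

set_option autoImplicit false
set_option linter.unusedSectionVars false
set_option linter.unusedVariables false

namespace Pool.Agent.U153

open Finset Equiv Matrix Q292.LC
open Pool.Agent.Y998.ST (stirExp nnRate qq stirLaw totalRate)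
open Pool.Agent.Q297.LC

open Classical in
theorem bl_loc (d L L₀ R₀ : ℕ) [NeZero L] [NeZero L₀] (hd : 1 ≤ d) (h1 : 4 * R₀ + 8 ≤ L₀)
    (hL : 4 * R₀ + 8 ≤ L) :
  ∃ (σ : ℕ → (Fin d → ZMod L) × Fin d) (σ₀ : ℕ → (Fin d → ZMod L₀) × Fin d), Per σ ∧ Per σ₀ ∧
  ∀ (s n D : ℕ) (δ : ℝ), 0 ≤ δ → δ ≤ 1 → n * D ≤ R₀ →
  EE (s * ms d L) δ (fun ω => if (cyc (gp (ed ∘ σ) ω (s * ms d L)) 0).card ≤ n then 1 else 0) ≤
  EE (s * ms d L₀) δ (fun ω =>
    if (cyc (gp (ed ∘ σ₀) ω (s * ms d L₀)) 0).card ≤ n then 1 else 0) +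
  EE (s * ms d L) δ (fun ω => if ∃ y ∈ bal (0 : Fin d → ZMod L) R₀,
    D < jumps (ed ∘ σ) ω 0 (s * ms d L) y then 1 else 0) := by
  obtain ⟨s₁, pz, hp⟩ := exists_PZ d R₀ hd
  obtain ⟨σ, hσ⟩ := exists_SG hd hp L hL
  obtain ⟨σ₀, hσ₀⟩ := exists_SG hd hp L₀ h1
  refine ⟨σ, σ₀, hσ.per, hσ₀.per, fun s n D δ h0 hδ hn => ?_⟩
  set F : (ℕ → Bool) → ℝ := fun ω => if Evt pz R₀ (s * s₁) n ω then 1 else 0 with hF
  have e1 : EE (s * ms d L) δ (fun ω => F (red d L s s₁ ω)) = EE (s * s₁) δ F :=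
    mrg (s * ms d L) (s * s₁) (fun k => k / s₁ * ms d L + k % s₁) δ F
      (fun k hk => red_lt hp.pos hσ.le hk) (red_inj hp.pos hσ.le).injOn
  have e2 : EE (s * ms d L₀) δ (fun ω => F (red d L₀ s s₁ ω)) = EE (s * s₁) δ F :=
    mrg (s * ms d L₀) (s * s₁) (fun k => k / s₁ * ms d L₀ + k % s₁) δ F
      (fun k hk => red_lt hp.pos hσ₀.le hk) (red_inj hp.pos hσ₀.le).injOn
  have i1 : EE (s * ms d L₀) δ (fun ω => F (red d L₀ s s₁ ω)) ≤
      EE (s * ms d L₀) δ (fun ω =>
        if (cyc (gp (ed ∘ σ₀) ω (s * ms d L₀)) 0).card ≤ n then 1 else 0) := by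
    refine Pool.Agent.Q68.LC.EE_mono h0 hδ fun ω => ?_
    rw [hF]
    simp only
    by_cases h : Evt pz R₀ (s * s₁) n (red d L₀ s s₁ ω)
    · rw [if_pos h, if_pos (back hp hσ₀ h1 s n ω h)]
    · rw [if_neg h]
      split_ifs <;> norm_num
  have i2 : EE (s * ms d L) δ (fun ω =>
        if (cyc (gp (ed ∘ σ) ω (s * ms d L)) 0).card ≤ n then 1 else 0) ≤
      EE (s * ms d L) δ (fun ω => F (red d L s s₁ ω) +
        (if ∃ y ∈ bal (0 : Fin d → ZMod L) R₀, D < jumps (ed ∘ σ) ω 0 (s * ms d L) y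
          then 1 else 0)) := by
    refine Pool.Agent.Q68.LC.EE_mono h0 hδ fun ω => ?_
    rw [hF]
    simp only
    by_cases h : (cyc (gp (ed ∘ σ) ω (s * ms d L)) 0).card ≤ n
    · rw [if_pos h]
      by_cases h' : ∃ y ∈ bal (0 : Fin d → ZMod L) R₀, D < jumps (ed ∘ σ) ω 0 (s * ms d L) y
      · rw [if_pos h']
        split_ifs <;> norm_num
      · rw [if_neg h', if_pos]
        · norm_num
        · push Not at h'
          exact fwd hp hσ hL s n D ω hn h h'
    · rw [if_neg h]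
      split_ifs <;> norm_num
  rw [Pool.Agent.Q68.LC.EE_add, e1, ← e2] at i2
  exact i2.trans (by linarith)

open Classical in
theorem bl_lcs (d : ℕ) (hd : 1 ≤ d) : ∃ C : ℝ, 1 ≤ C ∧ ∀ (L L₀ R₀ : ℕ) [NeZero L] [NeZero L₀],
  4 * R₀ + 8 ≤ L₀ → 4 * R₀ + 8 ≤ L → ∀ (t : ℝ) (n D : ℕ), 1 ≤ t → n * D ≤ R₀ →
  ∀ (x : Fin d → ZMod L) (x₀ : Fin d → ZMod L₀),
  stirExp (nnRate d L) t (fun g => if (cyc g x).card ≤ n then 1 else 0) ≤
    stirExp (nnRate d L₀) t (fun g => if (cyc g x₀).card ≤ n then 1 else 0) +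
    C * (2 * R₀ + 1) ^ d * t * Real.exp (-(D / t)) := by
  obtain ⟨Cj, hCj, hJ⟩ := Pool.Agent.Q66.LC.jmp d hd
  refine ⟨Cj * Real.exp 1, ?_, fun L L₀ R₀ _ _ h1 h2 t n D ht hn x x₀ => ?_⟩
  · have : (1 : ℝ) ≤ Real.exp 1 := Real.one_le_exp (by norm_num)
    nlinarith
  rw [cyc_trans t n x, cyc_trans t n x₀]
  have hL₀3 : 3 ≤ L₀ := by omega
  have hL3 : 3 ≤ L := by omega
  set K := ⌊t⌋₊ with hK
  have hKt : (K : ℝ) ≤ t := Nat.floor_le (by linarith)
  have hK1 : 1 ≤ K := Nat.le_floor (by rw [Nat.cast_one]; exact ht)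
  have hK1' : (1 : ℝ) ≤ K := by exact_mod_cast hK1
  have hKpos : (0 : ℝ) < K := by linarith
  have htK : t < K + 1 := Nat.lt_floor_add_one t
  have ht2K : t ≤ 2 * K := by linarith
  obtain ⟨σ, σ₀, hσ, hσ₀, hloc⟩ := bl_loc d L L₀ R₀ hd h1 h2
  obtain ⟨CL, hCL⟩ := tro d L hd hL3 K
  obtain ⟨CL₀, hCL₀⟩ := tro d L₀ hd hL₀3 K
  set B : ℝ := (2 * R₀ + 1) ^ d * t * (Cj * (Real.exp 1 * Real.exp (-(D / t)))) with hB
  -- the bound for the circuits
  have hq : ∀ q : ℕ, 2 ≤ q → 2 * Cj ≤ q →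
      stirExp (nnRate d L) t (fun g => if (cyc g 0).card ≤ n then 1 else 0) ≤
        stirExp (nnRate d L₀) t (fun g => if (cyc g 0).card ≤ n then 1 else 0) + B +
          (CL + CL₀) / q := by
    intro q hq2 hqC
    have hq' : (0 : ℝ) < q := by
      have : 0 < q := by omega
      exact_mod_cast this
    have hδq : t / (K * q) * q = t / K := by field_simp
    have a2 : t / (K * q) * q ≤ 2 := by
      rw [hδq, div_le_iff₀ hKpos]; linarith
    have a0 : 0 < t / (K * q) := by positivity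
    have hq2' : (2 : ℝ) ≤ q := by exact_mod_cast hq2
    have a3 : t / (K * q) ≤ 1 := by
      rw [div_le_one (by positivity)]
      nlinarith
    have a4 : Cj * (t / (K * q)) ≤ 1 := by
      have : Cj * (t / (K * q)) = Cj * t / (K * q) := by ring
      rw [this, div_le_one (by positivity)]
      nlinarith
    set δ : ℝ := t / (K * q) with hδ
    have a6 : ((K * q : ℕ) : ℝ) * δ = t := by
      rw [hδ]; push_cast; field_simp
    have b1 := (hCL q (by omega) σ hσ δ a0.le a3 a2 (K * q) le_rfl).1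
      (fun g => if (cyc g 0).card ≤ n then 1 else 0) (fun g => by split_ifs <;> norm_num)
    have b2 := (hCL₀ q (by omega) σ₀ hσ₀ δ a0.le a3 a2 (K * q) le_rfl).1
      (fun g => if (cyc g 0).card ≤ n then 1 else 0) (fun g => by split_ifs <;> norm_num)
    rw [a6] at b1 b2
    have b3 := hloc (K * q) n D δ a0.le a3 hn
    -- the jumps
    have b4 : EE (K * q * ms d L) δ (fun ω => if ∃ y ∈ bal (0 : Fin d → ZMod L) R₀,
        D < jumps (ed ∘ σ) ω 0 (K * q * ms d L) y then (1 : ℝ) else 0) ≤ B := by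
      have c1 : ∀ ω : ℕ → Bool, (if ∃ y ∈ bal (0 : Fin d → ZMod L) R₀,
          D < jumps (ed ∘ σ) ω 0 (K * q * ms d L) y then (1 : ℝ) else 0) ≤
          ∑ p ∈ bal (0 : Fin d → ZMod L) R₀ ×ˢ Finset.range K,
            (if D / K < jumps (ed ∘ σ) ω (p.2 * (q * ms d L)) ((p.2 + 1) * (q * ms d L)) p.1
              then (1 : ℝ) else 0) := by
        intro ω
        split_ifs with h
        · obtain ⟨y, hy, hyD⟩ := h
          have c2 : ∃ j < K, D / K < jumps (ed ∘ σ) ω (j * (q * ms d L))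
              ((j + 1) * (q * ms d L)) y := by
            by_contra hcon
            push Not at hcon
            have c3 := jumps_units (ed ∘ σ) ω (q * ms d L) y (D / K) K hcon
            have c4 : K * (D / K) ≤ D := Nat.mul_div_le D K
            rw [← Nat.mul_assoc] at c3
            omega
          obtain ⟨j, hj, hjD⟩ := c2
          have c5 := Finset.single_le_sum (f := fun p : (Fin d → ZMod L) × ℕ =>
            (if D / K < jumps (ed ∘ σ) ω (p.2 * (q * ms d L)) ((p.2 + 1) * (q * ms d L)) p.1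
              then (1 : ℝ) else 0)) (s := bal (0 : Fin d → ZMod L) R₀ ×ˢ Finset.range K)
            (fun p _ => by split_ifs <;> norm_num) (a := (y, j))
            (Finset.mem_product.2 ⟨hy, Finset.mem_range.2 hj⟩)
          simp only [if_pos hjD] at c5
          exact c5
        · exact Finset.sum_nonneg fun p _ => by split_ifs <;> norm_num
      refine (Pool.Agent.Q68.LC.EE_mono a0.le a3 c1).trans ?_
      rw [Pool.Agent.Q277.LC.EE_sum]
      have c6 : ∀ p ∈ bal (0 : Fin d → ZMod L) R₀ ×ˢ Finset.range K,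
          EE (K * q * ms d L) δ (fun ω => if D / K < jumps (ed ∘ σ) ω (p.2 * (q * ms d L))
            ((p.2 + 1) * (q * ms d L)) p.1 then (1 : ℝ) else 0) ≤
            Cj * (Real.exp 1 * Real.exp (-(D / t))) := by
        intro p hp
        have hpK := Finset.mem_range.1 (Finset.mem_product.1 hp).2
        have c7 := hJ L hL3 σ hσ q K p.2 (D / K) δ p.1 a0 a4 a2 hpK
        rw [Nat.mul_assoc]
        refine c7.trans (mul_le_mul_of_nonneg_left ?_ (by linarith))
        rw [← Real.exp_add, Real.exp_le_exp]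
        have c8 : (D : ℝ) < K * ((D / K : ℕ) : ℝ) + K := by
          have : D < K * (D / K) + K := by
            have e1 := Nat.div_add_mod D K
            have e2 := Nat.mod_lt D hK1
            omega
          exact_mod_cast this
        have c9 : (D : ℝ) / K < ((D / K : ℕ) : ℝ) + 1 := by
          rw [div_lt_iff₀ hKpos]; linarith
        have c10 : (D : ℝ) / t ≤ D / K :=
          div_le_div_of_nonneg_left (Nat.cast_nonneg D) hKpos hKt
        linarith
      refine (Finset.sum_le_card_nsmul _ _ _ c6).trans ?_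
      rw [Finset.card_product, Finset.card_range, nsmul_eq_mul, hB]
      have c11 : ((bal (0 : Fin d → ZMod L) R₀).card : ℝ) ≤ (2 * R₀ + 1) ^ d := by
        exact_mod_cast Pool.Agent.Q277.LC.card_bal_le (0 : Fin d → ZMod L) R₀
      push_cast
      refine mul_le_mul_of_nonneg_right ?_ (by positivity)
      exact mul_le_mul c11 hKt (by positivity) (by positivity)
    have b5 := (abs_le.1 b1).1
    have b6 := (abs_le.1 b2).2
    rw [add_div]
    linarith
  have hlim : stirExp (nnRate d L) t (fun g => if (cyc g 0).card ≤ n then 1 else 0) ≤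
      stirExp (nnRate d L₀) t (fun g => if (cyc g 0).card ≤ n then 1 else 0) + B := by
    refine le_of_forall_pos_le_add fun ε hε => ?_
    obtain ⟨q₁, hq₁⟩ := exists_nat_gt (|CL + CL₀| / ε)
    obtain ⟨q₂, hq₂⟩ := exists_nat_gt (2 * Cj)
    set q := max (max 2 q₂) (q₁ + 1) with hqd
    have e1 : (q₂ : ℝ) ≤ q := by
      have : q₂ ≤ q := by omega
      exact_mod_cast this
    have h3 := hq q (by omega) (by linarith)
    refine h3.trans (add_le_add le_rfl ?_)
    have hq' : (q₁ : ℝ) < q := by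
      have : q₁ < q := by omega
      exact_mod_cast this
    have hqp : (0 : ℝ) < q := by
      have : 0 < q := by omega
      exact_mod_cast this
    rw [div_le_iff₀ hqp]
    have h4 : |CL + CL₀| < q * ε := by
      have := hq₁.trans hq'
      rwa [div_lt_iff₀ hε] at this
    linarith [le_abs_self (CL + CL₀)]
  refine hlim.trans (le_of_eq ?_)
  rw [hB]
  ring

end Pool.Agent.U153
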