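import Pool.Agent.U153.BlLaw
import Pool.Agent.U153.BlLoc

/-!
# Short cycles: the law of the length of a short cycle
-/

set_option autoImplicit false
set_option linter.unusedSectionVars false
set_option linter.unusedVariables false

namespace Pool.Agent.U153

open Finset Equiv Matrix Q292.LC Filter Topology
open Pool.Agent.Y998.ST (stirExp nnRate qq stirLaw totalRate)
open Pool.Agent.Q297.LC (stir_add stir_smul)

/-- polylogarithm -/
noncomputable def Li (d : ℕ) (w : ℝ) : ℝ := ∑' k : ℕ, w ^ (k + 1) * ((k : ℝ) + 1) ^ (-(d / 2 : ℝ))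

theorem Li_summable (d : ℕ) (hd : 3 ≤ d) {w : ℝ} (h0 : 0 ≤ w) (h1 : w < 1) :
    Summable (fun k : ℕ => w ^ (k + 1) * ((k : ℝ) + 1) ^ (-(d / 2 : ℝ))) := by
  refine Summable.of_nonneg_of_le (fun k => by positivity) (fun k => ?_) (tl_summable d hd)
  have h2 : w ^ (k + 1) ≤ 1 := pow_le_one₀ h0 h1.le
  have h3 : 0 ≤ ((k : ℝ) + 1) ^ (-(d / 2 : ℝ)) := by positivity
  nlinarith

theorem Li_bounds (d : ℕ) (hd : 3 ≤ d) {w : ℝ} (h0 : 0 ≤ w) (h1 : w < 1) (k₀ : ℕ) :
    gz d w k₀ ≤ Li d w ∧ Li d w ≤ gz d w k₀ + w ^ (k₀ + 1) * zt d ∧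
      Li d w ≤ gz d w k₀ + tl d k₀ := by
  have hs := Li_summable d hd h0 h1
  have h2 : gz d w k₀ + ∑' k : ℕ, w ^ (k + k₀ + 1) * (((k + k₀ : ℕ) : ℝ) + 1) ^ (-(d / 2 : ℝ)) =
      Li d w := hs.sum_add_tsum_nat_add k₀
  have hs2 := (summable_nat_add_iff k₀).2 hs
  have hst := (summable_nat_add_iff k₀).2 (tl_summable d hd)
  refine ⟨?_, ?_, ?_⟩
  · rw [← h2]
    exact le_add_of_nonneg_right (tsum_nonneg fun k => by positivity)
  · rw [← h2]
    refine add_le_add le_rfl ?_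
    unfold zt
    rw [← tsum_mul_left]
    refine hs2.tsum_le_tsum (fun k => ?_) ((tl_summable d hd).mul_left _)
    refine mul_le_mul ?_ ?_ (by positivity) (by positivity)
    · exact pow_le_pow_of_le_one h0 h1.le (by omega)
    · refine Real.rpow_le_rpow_of_nonpos (by positivity) ?_ (by rw [neg_nonpos]; positivity)
      push_cast
      linarith [Nat.cast_nonneg (α := ℝ) k₀]
  · rw [← h2]
    refine add_le_add le_rfl ?_
    unfold tl
    refine hs2.tsum_le_tsum (fun k => ?_) hst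
    have h3 : w ^ (k + k₀ + 1) ≤ 1 := pow_le_one₀ h0 h1.le
    have h4 : 0 ≤ (((k + k₀ : ℕ) : ℝ) + 1) ^ (-(d / 2 : ℝ)) := by positivity
    calc w ^ (k + k₀ + 1) * (((k + k₀ : ℕ) : ℝ) + 1) ^ (-(d / 2 : ℝ)) ≤
          1 * (((k + k₀ : ℕ) : ℝ) + 1) ^ (-(d / 2 : ℝ)) := mul_le_mul_of_nonneg_right h3 h4
      _ = _ := one_mul _

/-- the generating function at a fixed parameter -/
theorem gen_lim (d : ℕ) (hd : 3 ≤ d) : ∃ m : ℕ, ∀ w : ℝ, 0 ≤ w → w < 1 → ∀ ε : ℝ, 0 < ε →
    ∃ t₀ η : ℝ, 1 ≤ t₀ ∧ 0 < η ∧ ∀ (L : ℕ) [NeZero L] (t : ℝ), t₀ ≤ t → (Real.log L) ^ m ≤ t →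
    t ^ (d / 2 : ℝ) ≤ η * (L : ℝ) ^ d → ∀ x : Fin d → ZMod L,
    |t ^ (d / 2 : ℝ) * stirExp (nnRate d L) t (fun g => w ^ (cyc g x).card) - hkc d * Li d w| ≤
      ε := by
  obtain ⟨C₀, m, hC₀, hgen⟩ := gen_bd d hd
  refine ⟨m, fun w hw0 hw1 ε hε => ?_⟩
  have hC0 : 0 < C₀ := by linarith
  have hk := hkc_pos d
  obtain ⟨k₀, hk₀⟩ := (((tl_lim d).const_mul (C₀ + hkc d)).eventually_lt_const
    (show (C₀ + hkc d) * 0 < ε / 4 by rw [mul_zero]; positivity)).exists
  have htl0 := tl_nonneg d k₀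
  obtain ⟨t₀, η, ht₀, hη, hη1, hg⟩ := hgen k₀ (ε / 4) (by positivity)
  have h1w : 0 < 1 - w := by linarith
  refine ⟨t₀, min (min (η ^ (d / 2 : ℝ)) (1 - w)) ((1 - w) * (ε / (4 * C₀))), ht₀,
    by positivity, ?_⟩
  obtain ⟨η', hη'⟩ : ∃ η' : ℝ, η' = min (min (η ^ (d / 2 : ℝ)) (1 - w))
    ((1 - w) * (ε / (4 * C₀))) := ⟨_, rfl⟩
  have e1 : η' ≤ η ^ (d / 2 : ℝ) := by
    rw [hη']; exact (min_le_left _ _).trans (min_le_left _ _)
  have e2 : η' ≤ 1 - w := by rw [hη']; exact (min_le_left _ _).trans (min_le_right _ _)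
  have e3 : η' ≤ (1 - w) * (ε / (4 * C₀)) := by rw [hη']; exact min_le_right _ _
  rw [← hη']
  intro L _ t ht hlog hnt x
  have ht1 : 1 ≤ t := ht₀.trans ht
  have ht0 : 0 < t := by linarith
  have hLpos : 1 ≤ L := Nat.pos_of_ne_zero (NeZero.ne L)
  have hLr : (1 : ℝ) ≤ L := by exact_mod_cast hLpos
  have hLd : (0 : ℝ) < (L : ℝ) ^ d := by positivity
  obtain ⟨T, hT⟩ : ∃ T : ℝ, T = t ^ (d / 2 : ℝ) := ⟨_, rfl⟩
  have hd3 : (3 : ℝ) ≤ d := by exact_mod_cast hd
  have hTt : t ≤ T := by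
    rw [hT]
    calc t = t ^ (1 : ℝ) := (Real.rpow_one t).symm
      _ ≤ _ := Real.rpow_le_rpow_of_exponent_le ht1 (by linarith)
  have hT0 : 0 < T := by linarith
  rw [← hT] at hnt ⊢
  have htL : t ≤ η * (L : ℝ) ^ 2 := by
    refine t_le_L2 (d := d) (by omega) hη ht0 (by linarith : (0 : ℝ) < L) ?_
    rw [← hT]
    exact hnt.trans (mul_le_mul_of_nonneg_right e1 hLd.le)
  obtain ⟨Y, hYd⟩ : ∃ Y : ℝ, Y = 1 / ((L : ℝ) ^ d * (1 - w)) := ⟨_, rfl⟩
  have hY0 : 0 ≤ Y := by rw [hYd]; positivity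
  have hTY : T * Y ≤ η' / (1 - w) := by
    rw [hYd, mul_one_div, div_le_div_iff₀ (by positivity) h1w]
    calc T * (1 - w) ≤ (η' * (L : ℝ) ^ d) * (1 - w) := mul_le_mul_of_nonneg_right hnt h1w.le
      _ = _ := by ring
  have hTY1 : T * Y ≤ 1 := hTY.trans (by rw [div_le_one h1w]; exact e2)
  have htY : t * Y ≤ 1 := (mul_le_mul_of_nonneg_right hTt hY0).trans hTY1
  obtain ⟨h1, h2⟩ := hg L t w ht htL hlog hw0 hw1 (by rw [← hYd]; exact htY) x
  rw [← hT, ← hYd] at h1 h2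
  obtain ⟨E, hE⟩ : ∃ E : ℝ, E = stirExp (nnRate d L) t (fun g => w ^ (cyc g x).card) := ⟨_, rfl⟩
  rw [← hE] at h1 h2 ⊢
  obtain ⟨b1, -, b3⟩ := Li_bounds d hd hw0 hw1 k₀
  have f1 := mul_le_mul_of_nonneg_left b1 hk.le
  have f3 := mul_le_mul_of_nonneg_left b3 hk.le
  have f4 : C₀ * (T * Y) ≤ ε / 4 := by
    calc C₀ * (T * Y) ≤ C₀ * (η' / (1 - w)) := mul_le_mul_of_nonneg_left hTY hC0.le
      _ ≤ C₀ * (ε / (4 * C₀)) := by
          refine mul_le_mul_of_nonneg_left ?_ hC0.le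
          rw [div_le_iff₀ h1w, mul_comm]
          exact e3
      _ = ε / 4 := by field_simp
  have f5 : C₀ * tl d k₀ ≤ (C₀ + hkc d) * tl d k₀ :=
    mul_le_mul_of_nonneg_right (by linarith) htl0
  have f6 : hkc d * tl d k₀ ≤ (C₀ + hkc d) * tl d k₀ :=
    mul_le_mul_of_nonneg_right (by linarith) htl0
  have f7 : ε / 4 * (1 + T * Y) ≤ ε / 4 * 2 :=
    mul_le_mul_of_nonneg_left (by linarith) (by positivity)
  have f8 : hkc d * (gz d w k₀ + tl d k₀) = hkc d * gz d w k₀ + hkc d * tl d k₀ := by ring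
  rw [abs_le]
  constructor <;> linarith

/-- the probability of a cycle of `k` points -/
noncomputable def pk {d L : ℕ} [NeZero L] (t : ℝ) (k : ℕ) (x : Fin d → ZMod L) : ℝ :=
  stirExp (nnRate d L) t (fun g => if (cyc g x).card = k then 1 else 0)

theorem stir_sum {V ι : Type} [Fintype V] [DecidableEq V] (J : V → V → ℝ) (t : ℝ) (s : Finset ι)
    (F : ι → Perm V → ℝ) :
    stirExp J t (fun g => ∑ i ∈ s, F i g) = ∑ i ∈ s, stirExp J t (F i) := by
  unfold stirExp
  simp only [Finset.mul_sum]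
  rw [Finset.sum_comm]

/-- LOCAL LAW at polylogarithmic times, by induction on the length -/
theorem local_ind (d : ℕ) (hd : 3 ≤ d) : ∃ m : ℕ, ∀ k : ℕ, ∀ ε : ℝ, 0 < ε →
    ∃ t₀ η : ℝ, 1 ≤ t₀ ∧ 0 < η ∧ ∀ (L : ℕ) [NeZero L] (t : ℝ), t₀ ≤ t → (Real.log L) ^ m ≤ t →
    t ^ (d / 2 : ℝ) ≤ η * (L : ℝ) ^ d → ∀ x : Fin d → ZMod L, ∀ j < k,
    |t ^ (d / 2 : ℝ) * pk t (j + 1) x - hkc d * ((j : ℝ) + 1) ^ (-(d / 2 : ℝ))| ≤ ε := by
  obtain ⟨m, hlim⟩ := gen_lim d hd
  refine ⟨m, fun k => ?_⟩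
  have hk := hkc_pos d
  have hz := zt_nonneg d
  induction k with
  | zero =>
    intro ε hε
    exact ⟨1, 1, le_rfl, one_pos, fun L _ t _ _ _ x j hj => absurd hj (Nat.not_lt_zero j)⟩
  | succ k ih =>
    intro ε hε
    -- the parameters
    obtain ⟨M, hM⟩ : ∃ M : ℝ, M = 2 ^ (k + 2) * (hkc d * Li d (1 / 2) + 1) + hkc d * zt d + 1 :=
      ⟨_, rfl⟩
    have hLi0 : 0 ≤ Li d (1 / 2) := tsum_nonneg fun k => by positivity
    have hM0 : 0 < M := by rw [hM]; positivity
    obtain ⟨w, hw⟩ : ∃ w : ℝ, w = min (1 / 2) (ε / (2 * M)) := ⟨_, rfl⟩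
    have hw0 : 0 < w := by rw [hw]; positivity
    have hw2 : w ≤ 1 / 2 := by rw [hw]; exact min_le_left _ _
    have hw1 : w < 1 := by linarith
    have hwM : w * M ≤ ε / 2 := by
      have : w ≤ ε / (2 * M) := by rw [hw]; exact min_le_right _ _
      rw [le_div_iff₀ (by positivity)] at this
      linarith
    obtain ⟨ε₁, hε₁⟩ : ∃ ε₁ : ℝ, ε₁ = ε * w ^ (k + 1) / (4 * (k + 1)) := ⟨_, rfl⟩
    have hε₁0 : 0 < ε₁ := by rw [hε₁]; positivity
    obtain ⟨t₁, η₁, ht₁, hη₁, h1⟩ := ih (min ε₁ ε) (by positivity)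
    obtain ⟨t₂, η₂, ht₂, hη₂, h2⟩ := hlim w hw0.le hw1 ε₁ hε₁0
    obtain ⟨t₃, η₃, ht₃, hη₃, h3⟩ := hlim (1 / 2) (by norm_num) (by norm_num) 1 one_pos
    refine ⟨max t₁ (max t₂ t₃), min η₁ (min η₂ η₃), ht₁.trans (le_max_left _ _),
      by positivity, ?_⟩
    intro L _ t ht hlog hnt x j hj
    have hta : t₁ ≤ t := (le_max_left _ _).trans ht
    have htb : t₂ ≤ t := ((le_max_left _ _).trans (le_max_right _ _)).trans ht
    have htc : t₃ ≤ t := ((le_max_right _ _).trans (le_max_right _ _)).trans ht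
    have ht1 : 1 ≤ t := ht₁.trans hta
    have ht0 : 0 < t := by linarith
    have hLd : (0 : ℝ) ≤ (L : ℝ) ^ d := by positivity
    have hna := hnt.trans (mul_le_mul_of_nonneg_right (min_le_left η₁ (min η₂ η₃)) hLd)
    have hnb := hnt.trans (mul_le_mul_of_nonneg_right
      ((min_le_right η₁ (min η₂ η₃)).trans (min_le_left _ _)) hLd)
    have hnc := hnt.trans (mul_le_mul_of_nonneg_right
      ((min_le_right η₁ (min η₂ η₃)).trans (min_le_right _ _)) hLd)
    have hA := h1 L t hta hlog hna x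
    have hB := h2 L t htb hlog hnb x
    have hC := h3 L t htc hlog hnc x
    obtain ⟨T, hT⟩ : ∃ T : ℝ, T = t ^ (d / 2 : ℝ) := ⟨_, rfl⟩
    have hT0 : 0 < T := by rw [hT]; positivity
    rw [← hT] at hA hB hC ⊢
    by_cases hjk : j < k
    · exact (hA j hjk).trans (min_le_right _ _)
    have hjk' : j = k := by omega
    subst hjk'
    -- pointwise bounds
    have hpt1 : ∀ g : Perm (Fin d → ZMod L),
        ∑ i ∈ Finset.range (j + 1), w ^ (i + 1) * (if (cyc g x).card = i + 1 then (1 : ℝ) else 0) ≤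
          w ^ (cyc g x).card := by
      intro g
      by_cases h : ∃ i ∈ Finset.range (j + 1), (cyc g x).card = i + 1
      · obtain ⟨i, hi, hci⟩ := h
        rw [Finset.sum_eq_single i]
        · rw [if_pos hci, mul_one, hci]
        · intro i' _ hne
          rw [if_neg (by omega), mul_zero]
        · exact fun h => absurd hi h
      · push Not at h
        rw [Finset.sum_eq_zero]
        · positivity
        · intro i hi
          rw [if_neg (h i hi), mul_zero]
    have hpt2 : ∀ g : Perm (Fin d → ZMod L), w ^ (cyc g x).card ≤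
        ∑ i ∈ Finset.range (j + 1), w ^ (i + 1) * (if (cyc g x).card = i + 1 then (1 : ℝ) else 0) +
          (2 * w) ^ (j + 2) * (1 / 2) ^ (cyc g x).card := by
      intro g
      have hc1 : 1 ≤ (cyc g x).card := Finset.card_pos.2 ⟨x, lc_mem_self g x⟩
      by_cases h : (cyc g x).card ≤ j + 1
      · have h4 : w ^ (cyc g x).card ≤ ∑ i ∈ Finset.range (j + 1),
            w ^ (i + 1) * (if (cyc g x).card = i + 1 then (1 : ℝ) else 0) := by
          have h5 := Finset.single_le_sum (f := fun i : ℕ => w ^ (i + 1) *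
            (if (cyc g x).card = i + 1 then (1 : ℝ) else 0)) (s := Finset.range (j + 1))
            (fun i _ => by positivity) (a := (cyc g x).card - 1) (by
              rw [Finset.mem_range]; omega)
          have h6 : (cyc g x).card - 1 + 1 = (cyc g x).card := by omega
          simp only [h6, if_true, mul_one] at h5
          exact h5
        have h5 : 0 ≤ (2 * w) ^ (j + 2) * (1 / 2 : ℝ) ^ (cyc g x).card := by positivity
        linarith
      · have h4 : w ^ (cyc g x).card ≤ (2 * w) ^ (j + 2) * (1 / 2) ^ (cyc g x).card := by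
          calc w ^ (cyc g x).card = (2 * w) ^ (cyc g x).card * (1 / 2) ^ (cyc g x).card := by
                rw [← mul_pow]
                congr 1
                ring
            _ ≤ _ := mul_le_mul_of_nonneg_right
                (pow_le_pow_of_le_one (by positivity) (by linarith) (by omega)) (by positivity)
        have h5 : 0 ≤ ∑ i ∈ Finset.range (j + 1),
            w ^ (i + 1) * (if (cyc g x).card = i + 1 then (1 : ℝ) else 0) :=
          Finset.sum_nonneg fun i _ => by positivity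
        linarith
    have hS : stirExp (nnRate d L) t (fun g => ∑ i ∈ Finset.range (j + 1),
        w ^ (i + 1) * (if (cyc g x).card = i + 1 then (1 : ℝ) else 0)) =
        ∑ i ∈ Finset.range (j + 1), w ^ (i + 1) * pk t (i + 1) x := by
      rw [stir_sum]
      refine Finset.sum_congr rfl fun i _ => ?_
      rw [stir_smul]
      rfl
    have q1 := Pool.Agent.Y998.ST.exp_mono (J := nnRate d L) Pool.Agent.Y998.ST.nn_nonneg
      (t := t) (by linarith) hpt1
    have q2 := Pool.Agent.Y998.ST.exp_mono (J := nnRate d L) Pool.Agent.Y998.ST.nn_nonneg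
      (t := t) (by linarith) hpt2
    rw [stir_add, stir_smul, hS] at q2
    rw [hS] at q1
    obtain ⟨E, hE⟩ : ∃ E : ℝ, E = stirExp (nnRate d L) t (fun g => w ^ (cyc g x).card) := ⟨_, rfl⟩
    obtain ⟨E', hE'⟩ : ∃ E' : ℝ, E' = stirExp (nnRate d L) t
      (fun g => (1 / 2 : ℝ) ^ (cyc g x).card) := ⟨_, rfl⟩
    rw [← hE] at q1 q2 hB
    rw [← hE'] at q2 hC
    rw [Finset.sum_range_succ] at q1 q2
    obtain ⟨b1, b2, -⟩ := Li_bounds d hd hw0.le hw1 (j + 1)
    have hgz : gz d w (j + 1) = gz d w j + w ^ (j + 1) * ((j : ℝ) + 1) ^ (-(d / 2 : ℝ)) := by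
      unfold gz
      rw [Finset.sum_range_succ]
    rw [hgz] at b1 b2
    -- the sums over i < j
    have hdiff : |T * ∑ i ∈ Finset.range j, w ^ (i + 1) * pk t (i + 1) x - hkc d * gz d w j| ≤
        j * ε₁ := by
      unfold gz
      rw [Finset.mul_sum, Finset.mul_sum, ← Finset.sum_sub_distrib]
      refine (Finset.abs_sum_le_sum_abs _ _).trans ?_
      calc ∑ i ∈ Finset.range j, |T * (w ^ (i + 1) * pk t (i + 1) x) -
            hkc d * (w ^ (i + 1) * ((i : ℝ) + 1) ^ (-(d / 2 : ℝ)))|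
          ≤ ∑ _i ∈ Finset.range j, ε₁ := by
            refine Finset.sum_le_sum fun i hi => ?_
            have h4 : T * (w ^ (i + 1) * pk t (i + 1) x) -
                hkc d * (w ^ (i + 1) * ((i : ℝ) + 1) ^ (-(d / 2 : ℝ))) =
                w ^ (i + 1) * (T * pk t (i + 1) x - hkc d * ((i : ℝ) + 1) ^ (-(d / 2 : ℝ))) := by
              ring
            rw [h4, abs_mul, abs_of_nonneg (by positivity)]
            have h5 := (hA i (Finset.mem_range.1 hi)).trans (min_le_left _ _)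
            have h6 : w ^ (i + 1) ≤ 1 := pow_le_one₀ hw0.le hw1.le
            calc w ^ (i + 1) * |T * pk t (i + 1) x - hkc d * ((i : ℝ) + 1) ^ (-(d / 2 : ℝ))|
                ≤ 1 * |T * pk t (i + 1) x - hkc d * ((i : ℝ) + 1) ^ (-(d / 2 : ℝ))| :=
                  mul_le_mul_of_nonneg_right h6 (abs_nonneg _)
              _ ≤ _ := by rw [one_mul]; exact h5
        _ = _ := by rw [Finset.sum_const, Finset.card_range, nsmul_eq_mul]
    obtain ⟨su, hsu⟩ : ∃ s : ℝ, s = ∑ i ∈ Finset.range j, w ^ (i + 1) * pk t (i + 1) x := ⟨_, rfl⟩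
    rw [← hsu] at q1 q2 hdiff
    obtain ⟨u, hu⟩ : ∃ u : ℝ, u = pk t (j + 1) x := ⟨_, rfl⟩
    obtain ⟨v, hv⟩ : ∃ v : ℝ, v = ((j : ℝ) + 1) ^ (-(d / 2 : ℝ)) := ⟨_, rfl⟩
    rw [← hu] at q1 q2 ⊢
    rw [← hv] at b1 b2 ⊢
    obtain ⟨W, hW⟩ : ∃ W : ℝ, W = w ^ (j + 1) := ⟨_, rfl⟩
    have hW0 : 0 < W := by rw [hW]; positivity
    have hW2 : w ^ (j + 1 + 1) = w * W := by rw [hW]; ring
    have hW3 : (2 * w) ^ (j + 2) = 2 ^ (j + 2) * (w * W) := by rw [hW, mul_pow]; ring
    rw [← hW] at q1 q2 b1 b2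
    rw [hW2] at b2
    rw [hW3] at q2
    -- multiply by T
    have q1' : T * su + T * (W * u) ≤ T * E := by
      rw [← mul_add]
      exact mul_le_mul_of_nonneg_left q1 hT0.le
    have q2' : T * E ≤ T * su + T * (W * u) + 2 ^ (j + 2) * (w * W) * (T * E') := by
      calc T * E ≤ T * (su + W * u + 2 ^ (j + 2) * (w * W) * E') :=
            mul_le_mul_of_nonneg_left q2 hT0.le
        _ = _ := by ring
    have hE'b : T * E' ≤ hkc d * Li d (1 / 2) + 1 := by
      have := (abs_le.1 hC).2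
      linarith
    have b1' : hkc d * gz d w j + hkc d * (W * v) ≤ hkc d * Li d w := by
      rw [← mul_add]
      exact mul_le_mul_of_nonneg_left b1 hk.le
    have b2' : hkc d * Li d w ≤ hkc d * gz d w j + hkc d * (W * v) + w * W * (hkc d * zt d) := by
      calc hkc d * Li d w ≤ hkc d * (gz d w j + W * v + w * W * zt d) :=
            mul_le_mul_of_nonneg_left b2 hk.le
        _ = _ := by ring
    have hB1 := (abs_le.1 hB).1
    have hB2 := (abs_le.1 hB).2
    have hD1 := (abs_le.1 hdiff).1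
    have hD2 := (abs_le.1 hdiff).2
    have herr : (j : ℝ) * ε₁ + ε₁ ≤ W * (ε / 4) := by
      rw [hε₁, ← hW]
      have h4 : (j : ℝ) * (ε * W / (4 * (j + 1))) + ε * W / (4 * (j + 1)) = W * (ε / 4) := by
        field_simp
      rw [h4]
    have hM1 : W * (w * (hkc d * zt d)) ≤ W * (ε / 2) := by
      refine mul_le_mul_of_nonneg_left (le_trans ?_ hwM) hW0.le
      refine mul_le_mul_of_nonneg_left ?_ hw0.le
      rw [hM]
      have : 0 ≤ 2 ^ (j + 2) * (hkc d * Li d (1 / 2) + 1) := by positivity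
      linarith
    have hM2 : W * (w * (2 ^ (j + 2) * (hkc d * Li d (1 / 2) + 1))) ≤ W * (ε / 2) := by
      refine mul_le_mul_of_nonneg_left (le_trans ?_ hwM) hW0.le
      refine mul_le_mul_of_nonneg_left ?_ hw0.le
      rw [hM]
      have : 0 ≤ hkc d * zt d := by positivity
      linarith
    have hE'c : 2 ^ (j + 2) * (w * W) * (T * E') ≤
        W * (w * (2 ^ (j + 2) * (hkc d * Li d (1 / 2) + 1))) := by
      calc 2 ^ (j + 2) * (w * W) * (T * E') ≤
            2 ^ (j + 2) * (w * W) * (hkc d * Li d (1 / 2) + 1) :=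
            mul_le_mul_of_nonneg_left hE'b (by positivity)
        _ = _ := by ring
    have hzz : w * W * (hkc d * zt d) = W * (w * (hkc d * zt d)) := by ring
    rw [abs_le]
    constructor
    · have h4 : W * (-ε) ≤ W * (T * u - hkc d * v) := by
        have e1 : W * (T * u - hkc d * v) = T * (W * u) - hkc d * (W * v) := by ring
        rw [e1]
        have e2 : W * (-ε) ≤ -(W * (ε / 4)) - W * (ε / 2) := by
          have : 0 ≤ W * (ε / 4) := by positivity
          linarith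
        linarith
      exact le_of_mul_le_mul_left h4 hW0
    · have h4 : W * (T * u - hkc d * v) ≤ W * ε := by
        have e1 : W * (T * u - hkc d * v) = T * (W * u) - hkc d * (W * v) := by ring
        rw [e1]
        have e2 : W * (ε / 4) + W * (ε / 2) ≤ W * ε := by
          have : 0 ≤ W * (ε / 4) := by positivity
          linarith
        linarith
      exact le_of_mul_le_mul_left h4 hW0

end Pool.Agent.U153
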