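import Pool.Agent.U153.BlCir
import Pool.Agent.U153.BlHk
import Pool.Agent.Q297.LC.Lcs

/-!
# Short cycles: stirring, the generating function of the cycle length
-/

set_option autoImplicit false
set_option linter.unusedSectionVars false
set_option linter.unusedVariables false

namespace Pool.Agent.U153

open Finset Equiv Matrix Q292.LC Filter Topology
open Pool.Agent.Q68.LC (DS DS_one DS_mul DS_TT)
open Pool.Agent.Y998.ST (stirExp nnRate qq stirLaw totalRate qq_eq_hk hk)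
open Pool.Agent.Q297.LC (exists_Per card_cyc tro)

theorem le_of_q {a b C : ℝ} {q₀ : ℕ} (h : ∀ q : ℕ, q₀ ≤ q → 1 ≤ q → a ≤ b + C / q) : a ≤ b := by
  refine le_of_forall_pos_le_add fun ε hε => ?_
  obtain ⟨q₁, hq₁⟩ := exists_nat_gt (|C| / ε)
  have h1 := h (max q₀ (q₁ + 1)) (by omega) (by omega)
  refine h1.trans (add_le_add le_rfl ?_)
  obtain ⟨q, hq⟩ : ∃ q, q = max q₀ (q₁ + 1) := ⟨_, rfl⟩
  rw [← hq]
  have hq' : (q₁ : ℝ) < q := by
    have : q₁ < q := by omega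
    exact_mod_cast this
  have hqp : (0 : ℝ) < q := by
    have : 0 < q := by omega
    exact_mod_cast this
  rw [div_le_iff₀ hqp]
  have h2 : |C| < q * ε := by
    have := hq₁.trans hq'
    rwa [div_lt_iff₀ hε] at this
  linarith [le_abs_self C]

section torus

variable {d L : ℕ} [NeZero L]

theorem trans_fun (t : ℝ) (f : ℕ → ℝ) (x : Fin d → ZMod L) :
    stirExp (nnRate d L) t (fun g => f (cyc g x).card) =
      stirExp (nnRate d L) t (fun g => f (cyc g 0).card) := by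
  unfold stirExp
  rw [← Equiv.sum_comp (MulAut.conj (Equiv.addRight x)).toEquiv]
  refine Finset.sum_congr rfl fun g _ => ?_
  have e1 : (MulAut.conj (Equiv.addRight x)).toEquiv g =
    Equiv.addRight x * g * (Equiv.addRight x)⁻¹ := rfl
  rw [e1, Pool.Agent.Y998.CN.law_conj (Equiv.addRight x)
    (fun a b => Pool.Agent.Y998.CN.nn_trans a b x)]
  have e2 : (cyc (Equiv.addRight x * g * (Equiv.addRight x)⁻¹) x).card = (cyc g 0).card := by
    have e3 : Equiv.addRight x (0 : Fin d → ZMod L) = x := by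
      rw [Equiv.coe_addRight]; simp
    rw [card_cyc, card_cyc]
    have := Pool.Agent.Y998.CN.len_conj (Equiv.addRight x) g (0 : Fin d → ZMod L)
    rw [e3] at this
    exact this
  beta_reduce
  rw [e2]

/-- truncated Green function of the heat kernel -/
noncomputable def hS (w : ℝ) (k₀ : ℕ) (t : ℝ) (x : Fin d → ZMod L) : ℝ :=
  ∑ k ∈ Finset.range k₀, w ^ (k + 1) * qq (nnRate d L) (((k + 1 : ℕ) : ℝ) * t) x x

theorem hS_const (hL : 3 ≤ L) (w : ℝ) (k₀ : ℕ) (t : ℝ) (x : Fin d → ZMod L) :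
    hS w k₀ t x = hS w k₀ t (0 : Fin d → ZMod L) := by
  unfold hS
  refine Finset.sum_congr rfl fun k _ => ?_
  rw [qq_eq_hk hL]
  unfold hk
  simp only [sub_self]

/-- the limit of the truncated Green functions -/
theorem fS_lim (hd : 1 ≤ d) (hL : 3 ≤ L) (K : ℕ) (hK : 1 ≤ K) (k₀ : ℕ) : ∃ C : ℝ, 0 ≤ C ∧
    ∀ (q : ℕ) (t w : ℝ), 2 ≤ q → (K : ℝ) ≤ t → t ≤ 2 * K → 0 ≤ w → w < 1 →
    ∀ σ : ℕ → (Fin d → ZMod L) × Fin d, Per σ → ∀ x,
    |fS w k₀ (PP (ed ∘ σ) (t / (K * q)) (K * (q * ms d L))) x - hS w k₀ t x| ≤ C / q := by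
  have h1 : ∀ k : ℕ, ∃ C : ℝ, ∀ q : ℕ, 1 ≤ q →
      ∀ σ : ℕ → (Fin d → ZMod L) × Fin d, Per σ → ∀ δ : ℝ, 0 ≤ δ → δ ≤ 1 → δ * q ≤ 2 →
      ∀ s ≤ ((k + 1) * K) * q, ∀ x y,
      |PP (ed ∘ σ) δ (s * ms d L) x y - qq (nnRate d L) (s * δ) x y| ≤ C / q := by
    intro k
    obtain ⟨C, hC⟩ := tro d L hd hL ((k + 1) * K)
    exact ⟨C, fun q hq σ hσ δ h0 h1 h2 s hs => (hC q hq σ hσ δ h0 h1 h2 s hs).2⟩
  choose C hC using h1
  refine ⟨∑ k ∈ Finset.range k₀, |C k|, Finset.sum_nonneg fun k _ => abs_nonneg _, ?_⟩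
  intro q t w hq hKt htK hw0 hw1 σ hσ x
  have hq' : (0 : ℝ) < q := by
    have : 0 < q := by omega
    exact_mod_cast this
  have hq2 : (2 : ℝ) ≤ q := by exact_mod_cast hq
  have hK' : (0 : ℝ) < K := by exact_mod_cast hK
  have ht0 : 0 ≤ t := hK'.le.trans hKt
  have h0 : 0 ≤ t / (K * q) := by positivity
  have hδq : t / (K * q) * q = t / K := by field_simp
  have h2 : t / (K * q) * q ≤ 2 := by
    rw [hδq, div_le_iff₀ hK']; linarith
  have h3 : t / (K * q) ≤ 1 := by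
    rw [div_le_one (by positivity)]
    have : (K : ℝ) * 2 ≤ K * q := mul_le_mul_of_nonneg_left hq2 hK'.le
    linarith
  obtain ⟨δ, hδ⟩ : ∃ δ : ℝ, δ = t / (K * q) := ⟨_, rfl⟩
  rw [← hδ] at h0 h2 h3 ⊢
  unfold fS hS
  rw [← Finset.sum_sub_distrib, Finset.sum_div]
  refine (Finset.abs_sum_le_sum_abs _ _).trans (Finset.sum_le_sum fun k _ => ?_)
  rw [← mul_sub, abs_mul, abs_of_nonneg (pow_nonneg hw0 _)]
  have h4 := hC k q (by omega) σ hσ δ h0 h3 h2 (((k + 1) * K) * q) le_rfl x x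
  have h5 : (((((k + 1) * K) * q : ℕ)) : ℝ) * δ = ((k + 1 : ℕ) : ℝ) * t := by
    rw [hδ]
    push_cast
    field_simp
  rw [h5] at h4
  have h6 : (PP (ed ∘ σ) δ (K * (q * ms d L))) ^ (k + 1) =
      PP (ed ∘ σ) δ (((k + 1) * K) * q * ms d L) := by
    rw [PP_pow hσ h0 h3 q K (k + 1), ← Nat.mul_assoc ((k + 1) * K) q (ms d L)]
  rw [h6]
  have h7 : w ^ (k + 1) ≤ 1 := pow_le_one₀ hw0 hw1.le
  calc w ^ (k + 1) * |PP (ed ∘ σ) δ (((k + 1) * K) * q * ms d L) x x -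
        qq (nnRate d L) (((k + 1 : ℕ) : ℝ) * t) x x|
      ≤ 1 * |PP (ed ∘ σ) δ (((k + 1) * K) * q * ms d L) x x -
        qq (nnRate d L) (((k + 1 : ℕ) : ℝ) * t) x x| :=
        mul_le_mul_of_nonneg_right h7 (abs_nonneg _)
    _ ≤ C k / q := by rw [one_mul]; exact h4
    _ ≤ |C k| / q := div_le_div_of_nonneg_right (le_abs_self _) hq'.le

end torus

/-- the generating function of the cycle length and the heat kernel -/
theorem bl_stir (d : ℕ) (hd : 3 ≤ d) : ∃ (C₀ : ℝ) (m : ℕ), 1 ≤ C₀ ∧ ∀ (k₀ : ℕ) (ε : ℝ), 0 < ε →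
    ∃ t₀ : ℝ, 1 ≤ t₀ ∧ ∀ (L : ℕ) [NeZero L] (t w : ℝ), t₀ ≤ t → t ≤ (L : ℝ) ^ 2 →
    (Real.log L) ^ m ≤ t → 0 ≤ w → w < 1 → 1 / ((L : ℝ) ^ d * (1 - w)) ≤ 1 / t →
    ∀ x : Fin d → ZMod L,
    stirExp (nnRate d L) t (fun g => w ^ (cyc g x).card) ≤
      hS w k₀ t x + (ε + C₀ * tl d k₀) * t ^ (-(d / 2 : ℝ)) +
        C₀ * (1 / ((L : ℝ) ^ d * (1 - w))) ∧
    hS w k₀ t x ≤ stirExp (nnRate d L) t (fun g => w ^ (cyc g x).card) +
      ε * (t ^ (-(d / 2 : ℝ)) + 1 / ((L : ℝ) ^ d * (1 - w))) := by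
  obtain ⟨C₁, m₁, hC₁, hcir⟩ := bl_cir d hd
  obtain ⟨D, hD⟩ : ∃ D : ℝ, D = (2 : ℝ) ^ (d / 2 : ℝ) := ⟨_, rfl⟩
  have hD1 : 1 ≤ D := by
    rw [hD]
    exact Real.one_le_rpow (by norm_num) (by positivity)
  refine ⟨C₁ * D, m₁ + 1, by nlinarith, ?_⟩
  intro k₀ ε hε
  obtain ⟨K₀, hK₀⟩ := hcir k₀ (ε / D) (by positivity)
  refine ⟨K₀ + 2 ^ (m₁ + 1) + 10, by
    have : (0 : ℝ) < 2 ^ (m₁ + 1) := by positivity
    have : (0 : ℝ) ≤ K₀ := Nat.cast_nonneg _
    linarith, ?_⟩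
  intro L _ t w ht htL hlog hw0 hw1 hwt x
  have p2 : (0 : ℝ) < 2 ^ (m₁ + 1) := by positivity
  have pK : (0 : ℝ) ≤ K₀ := Nat.cast_nonneg _
  have ht1 : 1 ≤ t := by linarith
  have ht0 : 0 < t := by linarith
  have hLpos : 1 ≤ L := Nat.pos_of_ne_zero (NeZero.ne L)
  have hLr : (1 : ℝ) ≤ L := by exact_mod_cast hLpos
  have hL3 : 3 ≤ L := by
    by_contra hcon
    have h1 : L ≤ 2 := by omega
    have h2 : (L : ℝ) ≤ 2 := by exact_mod_cast h1
    have h3 : (L : ℝ) ^ 2 ≤ 2 ^ 2 := pow_le_pow_left₀ (by linarith) h2 2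
    linarith
  -- the number of units
  obtain ⟨K, hK⟩ : ∃ K, K = ⌊t⌋₊ := ⟨_, rfl⟩
  have hKt : (K : ℝ) ≤ t := by rw [hK]; exact Nat.floor_le (by linarith)
  have hK1 : 1 ≤ K := by rw [hK]; exact Nat.le_floor (by rw [Nat.cast_one]; exact ht1)
  have hK1' : (1 : ℝ) ≤ K := by exact_mod_cast hK1
  have htK : t < K + 1 := by rw [hK]; exact Nat.lt_floor_add_one t
  have ht2K : t ≤ 2 * K := by linarith
  have hKK₀ : K₀ ≤ K := by
    have h1 : (K₀ : ℝ) < K + 1 := by linarith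
    have h2 : K₀ < K + 1 := by exact_mod_cast h1
    omega
  have hKL : K ≤ L ^ 2 := by
    have : (K : ℝ) ≤ ((L ^ 2 : ℕ) : ℝ) := by push_cast; linarith
    exact_mod_cast this
  have hlogK : (Real.log L) ^ m₁ ≤ K := by
    have hℓ : 0 ≤ Real.log L := Real.log_natCast_nonneg L
    have hK2 : t / 2 ≤ K := by linarith
    refine le_trans ?_ hK2
    rcases le_total (Real.log L) 2 with h | h
    · have h1 : (Real.log L) ^ m₁ ≤ 2 ^ m₁ := pow_le_pow_left₀ hℓ h _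
      rw [pow_succ] at p2 ht
      linarith
    · have h2 : (Real.log L) ^ m₁ * 2 ≤ (Real.log L) ^ (m₁ + 1) := by
        rw [pow_succ]
        exact mul_le_mul_of_nonneg_left h (by positivity)
      linarith
  have hwK : 1 / ((L : ℝ) ^ d * (1 - w)) ≤ 2 / K := by
    refine hwt.trans ?_
    rw [div_le_div_iff₀ ht0 (by linarith)]
    linarith
  obtain ⟨q₀, hq₀⟩ := hK₀ L K w hKK₀ hKL hlogK hw0 hw1 hwK
  obtain ⟨Cf, hCf0, hCf⟩ := fS_lim (d := d) (L := L) (by omega) hL3 K hK1 k₀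
  obtain ⟨Ct, hCt⟩ := tro d L (by omega) hL3 K
  obtain ⟨σ, hσ⟩ := exists_Per d L (by omega)
  have hLd0 : (0 : ℝ) < (L : ℝ) ^ d := by positivity
  have hcardV : (Fintype.card (Fin d → ZMod L) : ℝ) = (L : ℝ) ^ d := by
    rw [Fintype.card_fun, ZMod.card, Fintype.card_fin]
    push_cast
    rfl
  obtain ⟨E, hE⟩ : ∃ E : ℝ, E = stirExp (nnRate d L) t (fun g => w ^ (cyc g x).card) := ⟨_, rfl⟩
  obtain ⟨H, hH⟩ : ∃ H : ℝ, H = hS w k₀ t x := ⟨_, rfl⟩
  obtain ⟨Y, hY⟩ : ∃ Y : ℝ, Y = 1 / ((L : ℝ) ^ d * (1 - w)) := ⟨_, rfl⟩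
  have h1w : 0 < 1 - w := by linarith
  have hY0 : 0 < Y := by rw [hY]; positivity
  have hEx : ∀ y : Fin d → ZMod L, stirExp (nnRate d L) t (fun g => w ^ (cyc g y).card) = E := by
    intro y
    rw [hE, trans_fun t (fun n => w ^ n) y, trans_fun t (fun n => w ^ n) x]
  have hHx : ∀ y : Fin d → ZMod L, hS w k₀ t y = H := by
    intro y
    rw [hH, hS_const hL3, hS_const hL3 w k₀ t x]
  rw [← hE, ← hH, ← hY]
  -- the two means for a given `q`
  have hmean : ∀ q : ℕ, 2 ≤ q →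
      |(∑ y, EE (K * (q * ms d L)) (t / (K * q))
        (fun ω => w ^ (cyc (gp (ed ∘ σ) ω (K * (q * ms d L))) y).card)) / (L : ℝ) ^ d - E| ≤
        Ct / q ∧
      |(∑ y, fS w k₀ (PP (ed ∘ σ) (t / (K * q)) (K * (q * ms d L))) y) / (L : ℝ) ^ d - H| ≤
        Cf / q := by
    intro q hq
    have hq' : (0 : ℝ) < q := by
      have : 0 < q := by omega
      exact_mod_cast this
    have hq2 : (2 : ℝ) ≤ q := by exact_mod_cast hq
    have hK' : (0 : ℝ) < K := by linarith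
    have h0 : 0 ≤ t / (K * q) := by positivity
    have hδq : t / (K * q) * q = t / K := by field_simp
    have h2 : t / (K * q) * q ≤ 2 := by
      rw [hδq, div_le_iff₀ hK']; linarith
    have h3 : t / (K * q) ≤ 1 := by
      rw [div_le_one (by positivity)]
      have : (K : ℝ) * 2 ≤ K * q := mul_le_mul_of_nonneg_left hq2 hK'.le
      linarith
    have key : ∀ (f : (Fin d → ZMod L) → ℝ) (a C : ℝ), (∀ y, |f y - a| ≤ C) →
        |(∑ y, f y) / (L : ℝ) ^ d - a| ≤ C := by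
      intro f a C hf
      have e1 : (∑ y, f y) / (L : ℝ) ^ d - a = (∑ y, (f y - a)) / (L : ℝ) ^ d := by
        rw [Finset.sum_sub_distrib, Finset.sum_const, Finset.card_univ, nsmul_eq_mul, hcardV]
        field_simp
      rw [e1, abs_div, abs_of_pos hLd0, div_le_iff₀ hLd0]
      refine (Finset.abs_sum_le_sum_abs _ _).trans ((Finset.sum_le_sum fun y _ => hf y).trans ?_)
      rw [Finset.sum_const, Finset.card_univ, nsmul_eq_mul, hcardV, mul_comm]
    constructor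
    · refine key _ _ _ fun y => ?_
      have h4 := (hCt q (by omega) σ hσ (t / (K * q)) h0 h3 h2 (K * q) le_rfl).1
        (fun g => w ^ (cyc g y).card) (fun g => by
          rw [abs_of_nonneg (pow_nonneg hw0 _)]
          exact pow_le_one₀ hw0 hw1.le)
      have h6 : ((K * q : ℕ) : ℝ) * (t / (K * q)) = t := by
        push_cast; field_simp
      rw [h6, Nat.mul_assoc, hEx y] at h4
      exact h4
    · refine key _ _ _ fun y => ?_
      have h4 := hCf q t w hq hKt ht2K hw0 hw1 σ hσ y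
      rw [hHx y] at h4
      exact h4
  have hX : (K : ℝ) ^ (-(d / 2 : ℝ)) ≤ D * t ^ (-(d / 2 : ℝ)) := by
    have e1 : (t / 2) ^ (-(d / 2 : ℝ)) = (2 : ℝ) ^ (d / 2 : ℝ) * t ^ (-(d / 2 : ℝ)) := by
      rw [Real.div_rpow (by linarith) (by norm_num), Real.rpow_neg (by norm_num : (0 : ℝ) ≤ 2)]
      rw [div_inv_eq_mul]; ring
    rw [hD, ← e1]
    refine Real.rpow_le_rpow_of_nonpos (by linarith) (by linarith) ?_
    have : (0 : ℝ) ≤ d := Nat.cast_nonneg d
    linarith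
  obtain ⟨X, hXd⟩ : ∃ X : ℝ, X = t ^ (-(d / 2 : ℝ)) := ⟨_, rfl⟩
  have hX0 : 0 < X := by rw [hXd]; positivity
  rw [← hXd] at hX ⊢
  have htl := tl_nonneg d k₀
  have hcirq : ∀ q : ℕ, q₀ ≤ q → 2 ≤ q → _ := fun q hq hq2 =>
    hq₀ q hq σ hσ (t / (K * q)) (by
      have hq' : (0 : ℝ) < q := by
        have : 0 < q := by omega
        exact_mod_cast this
      have hK' : (0 : ℝ) < K := by linarith
      have hδq : t / (K * q) * q = t / K := by field_simp
      rw [hδq, le_div_iff₀ hK']; linarith) (by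
      have hq' : (0 : ℝ) < q := by
        have : 0 < q := by omega
        exact_mod_cast this
      have hK' : (0 : ℝ) < K := by linarith
      have hδq : t / (K * q) * q = t / K := by field_simp
      rw [hδq, div_le_iff₀ hK']; linarith)
  constructor
  · refine le_of_q (C := Ct + Cf) (q₀ := q₀ + 2) fun q hq _ => ?_
    obtain ⟨h4, h5⟩ := hmean q (by omega)
    obtain ⟨h6, -⟩ := hcirq q (by omega) (by omega)
    rw [← hY] at h6
    have h7 := (abs_le.1 h4).1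
    have h8 := (abs_le.1 h5).2
    rw [add_div]
    have h9 : (ε / D + C₁ * tl d k₀) * (K : ℝ) ^ (-(d / 2 : ℝ)) ≤
        (ε + C₁ * D * tl d k₀) * X := by
      calc (ε / D + C₁ * tl d k₀) * (K : ℝ) ^ (-(d / 2 : ℝ)) ≤
            (ε / D + C₁ * tl d k₀) * (D * X) :=
            mul_le_mul_of_nonneg_left hX (by positivity)
        _ = (ε + C₁ * D * tl d k₀) * X := by field_simp
    have h10 : C₁ * Y ≤ C₁ * D * Y := by
      refine mul_le_mul_of_nonneg_right ?_ hY0.le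
      nlinarith
    linarith
  · refine le_of_q (C := Ct + Cf) (q₀ := q₀ + 2) fun q hq _ => ?_
    obtain ⟨h4, h5⟩ := hmean q (by omega)
    obtain ⟨-, h6⟩ := hcirq q (by omega) (by omega)
    rw [← hY] at h6
    have h7 := (abs_le.1 h4).2
    have h8 := (abs_le.1 h5).1
    rw [add_div]
    have h9 : ε / D * ((K : ℝ) ^ (-(d / 2 : ℝ)) + Y) ≤ ε * (X + Y) := by
      have f1 : (K : ℝ) ^ (-(d / 2 : ℝ)) + Y ≤ D * (X + Y) := by
        have : Y ≤ D * Y := by nlinarith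
        have e2 : D * (X + Y) = D * X + D * Y := by ring
        linarith
      calc ε / D * ((K : ℝ) ^ (-(d / 2 : ℝ)) + Y) ≤ ε / D * (D * (X + Y)) :=
            mul_le_mul_of_nonneg_left f1 (by positivity)
        _ = _ := by field_simp
    linarith

end Pool.Agent.U153
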