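import Pool.Agent.U153.BlKer
import Pool.Agent.Q297.LC.Tlc

/-!
# Short cycles: the mean over all points
-/

set_option autoImplicit false
set_option linter.unusedSectionVars false
set_option linter.unusedVariables false

namespace Pool.Agent.U153

open Finset Equiv Matrix Q292.LC Filter Topology
open Pool.Agent.Q68.LC (EE_congr EE_const EE_add EE_smul EE_mono EE_succ det_pos SS_dg)

section gen

variable {V : Type} [Fintype V] [DecidableEq V]

open Classical in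
/-- mean of a function of the marked set, with the determinant of the kernel -/
noncomputable def mT (e : ℕ → V × V) (n : ℕ) (δ w : ℝ) (B : (ℕ → Bool) → Finset V → Prop)
    (f : (ℕ → Bool) → Finset V → ℝ) : ℝ :=
  EE n δ (fun ω => ∑ A : Finset V, if Inv (gp e ω n) A ∧ B ω A then
      w ^ A.card * (dS w (univ \ A) (TT e ω A δ n) * f ω A) else 0)

open Classical in
theorem mT_eq (e : ℕ → V × V) (n : ℕ) (δ w : ℝ) (B : (ℕ → Bool) → Finset V → Prop)
    (f : Finset V → ℝ) (hδ0 : 0 ≤ δ) (hδ1 : δ ≤ 1)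
    (hB : ∀ A, Rmeas e n A (fun ω => B ω A)) :
    mT e n δ w B (fun _ A => f A) = PE e n δ w (fun ω A => if B ω A then f A else 0) := by
  unfold mT PE
  rw [Pool.Agent.Q277.LC.EE_sum, Pool.Agent.Q277.LC.EE_sum]
  refine Finset.sum_congr rfl fun A _ => ?_
  obtain ⟨Θ, hΘ⟩ : ∃ Θ : (ℕ → Bool) → ℝ, Θ = fun ω =>
    if Inv (gp e ω n) A ∧ B ω A then w ^ A.card * f A else 0 := ⟨_, rfl⟩
  have hΘm : Rmeas e n A Θ := by
    intro ω ω' h
    have h2 : Inv (gp e ω n) A = Inv (gp e ω' n) A := bl_inv_meas e n A ω ω' h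
    have h3 : B ω A = B ω' A := hB A ω ω' h
    rw [hΘ]
    dsimp only
    simp only [h2, h3]
  have h := bl_l1 e n δ w A (univ \ A) Θ hδ0 hδ1 hΘm
  have e1 : (fun ω => if Inv (gp e ω n) A ∧ B ω A then
      w ^ A.card * (dS w (univ \ A) (TT e ω A δ n) * f A) else 0) =
      fun ω => Θ ω * dS w (univ \ A) (TT e ω A δ n) := by
    funext ω
    rw [hΘ]
    dsimp only
    split_ifs
    · ring
    · ring
  have e2 : (fun ω => if Inv (gp e ω n) A then
      w ^ A.card * dS w (univ \ A) (pm (gp e ω n)) * (if B ω A then f A else 0) else 0) =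
      fun ω => Θ ω * dS w (univ \ A) (pm (gp e ω n)) := by
    funext ω
    rw [hΘ]
    dsimp only
    by_cases h1 : Inv (gp e ω n) A
    · by_cases h2 : B ω A
      · rw [if_pos h1, if_pos h2, if_pos ⟨h1, h2⟩]
        ring
      · rw [if_pos h1, if_neg h2, if_neg (fun h => h2 h.2)]
        ring
    · rw [if_neg h1, if_neg (fun h => h1 h.1)]
      ring
  rw [e1, e2, h]

open Classical in
theorem mT_mono (e : ℕ → V × V) (n : ℕ) (δ w : ℝ) (B : (ℕ → Bool) → Finset V → Prop)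
    (f g : (ℕ → Bool) → Finset V → ℝ) (hδ0 : 0 ≤ δ) (hδ1 : δ ≤ 1) (hw0 : 0 ≤ w) (hw1 : w < 1)
    (h : ∀ ω A, Inv (gp e ω n) A → B ω A → f ω A ≤ g ω A) :
    mT e n δ w B f ≤ mT e n δ w B g := by
  unfold mT
  refine EE_mono hδ0 hδ1 fun ω => Finset.sum_le_sum fun A _ => ?_
  split_ifs with h1
  · obtain ⟨hT0, hTr, -, -, -, -⟩ := Pool.Agent.Q68.LC.bas2 V e ω A δ hδ0 hδ1
    have hp : 0 ≤ dS w (univ \ A) (TT e ω A δ n) :=
      (det_pos (SS_dg ⟨hT0 n, fun x => (hTr n x).le⟩ _) hw0 hw1).le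
    exact mul_le_mul_of_nonneg_left (mul_le_mul_of_nonneg_left (h ω A h1.1 h1.2) hp)
      (by positivity)
  · exact le_rfl

open Classical in
/-- the sum of `Xi` over all points -/
theorem Xi_sum (e : ℕ → V × V) (n : ℕ) (δ w : ℝ) (B : (ℕ → Bool) → Finset V → Prop) :
    ∑ x, Xi e n δ w B x = mT e n δ w B (fun ω A => ∑ x ∈ univ \ A,
      gG w (univ \ A) (TT e ω A δ n) x x) := by
  unfold Xi mT
  rw [← Pool.Agent.Q277.LC.EE_sum]
  congr 1
  funext ω
  rw [Finset.sum_comm]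
  refine Finset.sum_congr rfl fun A _ => ?_
  by_cases h : Inv (gp e ω n) A ∧ B ω A
  · rw [if_pos h, Finset.mul_sum, Finset.mul_sum, ← Finset.sum_sdiff (Finset.subset_univ A)]
    have h1 : ∑ x ∈ A, (if x ∉ A ∧ Inv (gp e ω n) A ∧ B ω A then
        w ^ A.card * (dS w (univ \ A) (TT e ω A δ n) *
          gG w (univ \ A) (TT e ω A δ n) x x) else 0) = 0 :=
      Finset.sum_eq_zero fun x hx => if_neg (fun h => h.1 hx)
    rw [h1, add_zero]
    refine Finset.sum_congr rfl fun x hx => ?_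
    rw [if_pos ⟨(Finset.mem_sdiff.1 hx).2, h⟩]
  · rw [if_neg h]
    exact Finset.sum_eq_zero fun x _ => if_neg (fun h2 => h h2.2)

open Classical in
/-- the mean of the number of marked points -/
theorem PE_card (e : ℕ → V × V) (n : ℕ) (δ w : ℝ) (hδ0 : 0 ≤ δ) (hδ1 : δ ≤ 1) (hw0 : 0 ≤ w)
    (hw1 : w < 1) :
    PE e n δ w (fun _ A => (A.card : ℝ)) =
      ∑ x, EE n δ (fun ω => w ^ (cyc (gp e ω n) x).card) := by
  obtain ⟨-, -, -, -, p5, p6⟩ := Pool.Agent.Q277.LC.peb V e n δ w hδ0 hδ1 hw0 hw1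
  have h1 : ∀ x, EE n δ (fun ω => w ^ (cyc (gp e ω n) x).card) =
      PE e n δ w (fun _ A => if x ∈ A then 1 else 0) := by
    intro x
    rw [← p6 x, ← p5]
    congr 1
    funext ω A
    by_cases h : x ∈ A <;> simp [h]
  simp only [h1]
  unfold PE
  rw [← Pool.Agent.Q277.LC.EE_sum]
  congr 1
  funext ω
  rw [Finset.sum_comm]
  refine Finset.sum_congr rfl fun A _ => ?_
  split_ifs
  · rw [← Finset.mul_sum]
    congr 1
    simp
  · simp

open Classical in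
theorem bl_up (e : ℕ → V × V) (n : ℕ) (δ w : ℝ) (B : (ℕ → Bool) → Finset V → Prop)
    (hδ0 : 0 ≤ δ) (hδ1 : δ ≤ 1) (hw0 : 0 ≤ w) (hw1 : w < 1)
    (hB : ∀ A, Rmeas e n A (fun ω => B ω A)) (hmon : ∀ ω R R', R' ⊆ R → B ω R → B ω R')
    (α β : ℝ) (hα : 0 ≤ α) (hβ : 0 ≤ β)
    (h : ∀ ω A, Inv (gp e ω n) A → B ω A →
      ∑ x ∈ univ \ A, gG w (univ \ A) (TT e ω A δ n) x x ≤ α + β * A.card) :
    ∑ x, EE n δ (fun ω => w ^ (cyc (gp e ω n) x).card) ≤
      (Fintype.card V : ℝ) * PW e n δ w (fun ω A => ¬ B ω A) + α +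
        β * ∑ x, EE n δ (fun ω => w ^ (cyc (gp e ω n) x).card) := by
  obtain ⟨p1, p2, p3, p4, p5, p6⟩ := Pool.Agent.Q277.LC.peb V e n δ w hδ0 hδ1 hw0 hw1
  have h1 : ∀ x, EE n δ (fun ω => w ^ (cyc (gp e ω n) x).card) ≤
      Xi e n δ w B x + PW e n δ w (fun ω A => ¬ B ω A) := by
    intro x
    rw [← p6 x]
    have h2 := Pool.Agent.Q297.LC.PW_split Pool.Agent.Q277.LC.peb e n δ w hδ0 hδ1 hw0 hw1
      (fun _ A => x ∈ A) B
    have h3 := bl_Xi_ge e n δ w x B hδ0 hδ1 hw0 hw1 hB hmon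
    linarith
  have h2 : ∑ x, Xi e n δ w B x ≤ α + β * ∑ x, EE n δ (fun ω => w ^ (cyc (gp e ω n) x).card) := by
    rw [Xi_sum]
    have h3 := mT_mono e n δ w B (fun ω A => ∑ x ∈ univ \ A,
      gG w (univ \ A) (TT e ω A δ n) x x) (fun _ A => α + β * A.card) hδ0 hδ1 hw0 hw1 h
    refine h3.trans ?_
    rw [mT_eq e n δ w B (fun A => α + β * A.card) hδ0 hδ1 hB]
    have h4 : PE e n δ w (fun ω A => if B ω A then α + β * (A.card : ℝ) else 0) ≤
        PE e n δ w (fun ω A => α + β * (A.card : ℝ)) := by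
      refine p4 _ _ fun ω A _ => ?_
      split_ifs
      · exact le_rfl
      · positivity
    refine h4.trans (le_of_eq ?_)
    rw [p2 (fun _ _ => α) (fun _ A => β * (A.card : ℝ)), p3 β (fun _ A => (A.card : ℝ)),
      PE_card e n δ w hδ0 hδ1 hw0 hw1]
    have h5 := p1 (fun _ => α)
    rw [h5, EE_const]
  calc _ ≤ ∑ x, (Xi e n δ w B x + PW e n δ w (fun ω A => ¬ B ω A)) :=
        Finset.sum_le_sum fun x _ => h1 x
    _ = ∑ x, Xi e n δ w B x + (Fintype.card V : ℝ) * PW e n δ w (fun ω A => ¬ B ω A) := by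
        rw [Finset.sum_add_distrib, Finset.sum_const, Finset.card_univ, nsmul_eq_mul]
    _ ≤ _ := by linarith

open Classical in
theorem bl_low (e : ℕ → V × V) (n : ℕ) (δ w : ℝ) (B : (ℕ → Bool) → Finset V → Prop)
    (hδ0 : 0 ≤ δ) (hδ1 : δ ≤ 1) (hw0 : 0 ≤ w) (hw1 : w < 1)
    (hB : ∀ A, Rmeas e n A (fun ω => B ω A))
    (α β : ℝ) (hα : 0 ≤ α) (hβ : 0 ≤ β)
    (h : ∀ ω A, Inv (gp e ω n) A → B ω A →
      α - β * A.card ≤ ∑ x ∈ univ \ A, gG w (univ \ A) (TT e ω A δ n) x x) :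
    α ≤ α * PW e n δ w (fun ω A => ¬ B ω A) +
        (1 + β) * ∑ x, EE n δ (fun ω => w ^ (cyc (gp e ω n) x).card) := by
  obtain ⟨p1, p2, p3, p4, p5, p6⟩ := Pool.Agent.Q277.LC.peb V e n δ w hδ0 hδ1 hw0 hw1
  have h1 : ∑ x, Xi e n δ w B x ≤ ∑ x, EE n δ (fun ω => w ^ (cyc (gp e ω n) x).card) :=
    Finset.sum_le_sum fun x _ => bl_Xi_le e n δ w x B hδ0 hδ1 hw0 hw1 hB
  have h2 : α - α * PW e n δ w (fun ω A => ¬ B ω A) -
      β * ∑ x, EE n δ (fun ω => w ^ (cyc (gp e ω n) x).card) ≤ ∑ x, Xi e n δ w B x := by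
    rw [Xi_sum]
    have h3 := mT_mono e n δ w B (fun _ A => α + (-β) * A.card) (fun ω A => ∑ x ∈ univ \ A,
      gG w (univ \ A) (TT e ω A δ n) x x) hδ0 hδ1 hw0 hw1
      (fun ω A hI hb => by
        have := h ω A hI hb
        linarith)
    refine le_trans ?_ h3
    rw [mT_eq e n δ w B (fun A => α + (-β) * A.card) hδ0 hδ1 hB]
    have h4 : PE e n δ w (fun ω A => (α + (-α) * (if ¬ B ω A then 1 else 0)) +
        (-β) * (A.card : ℝ)) ≤
        PE e n δ w (fun ω A => if B ω A then α + (-β) * (A.card : ℝ) else 0) := by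
      refine p4 _ _ fun ω A _ => ?_
      by_cases hb : B ω A
      · rw [if_neg (not_not.2 hb), if_pos hb]
        simp
      · rw [if_pos hb, if_neg hb]
        have : 0 ≤ β * (A.card : ℝ) := by positivity
        linarith
    refine le_trans (le_of_eq ?_) h4
    have h6 : PE e n δ w (fun ω A => if ¬ B ω A then (1 : ℝ) else 0) =
        PW e n δ w (fun ω A => ¬ B ω A) := by
      rw [← p5]
      congr 1
      funext ω A
      by_cases h : B ω A <;> simp [h]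
    rw [p2 (fun ω A => α + (-α) * (if ¬ B ω A then 1 else 0)) (fun _ A => (-β) * (A.card : ℝ)),
      p3 (-β) (fun _ A => (A.card : ℝ)), PE_card e n δ w hδ0 hδ1 hw0 hw1,
      p2 (fun _ _ => α) (fun ω A => (-α) * (if ¬ B ω A then 1 else 0)),
      p3 (-α) (fun ω A => if ¬ B ω A then 1 else 0), h6]
    have h5 := p1 (fun _ => α)
    rw [h5, EE_const]
    ring
  linarith

/-- partial sums of the Green function from below -/
theorem gG_ge {T : Matrix V V ℝ} {A : Finset V} {w : ℝ} (hT0 : ∀ a b, 0 ≤ T a b)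
    (hTr : ∀ a, ∑ b, T a b = 1) (h0 : 0 ≤ w) (h1 : w < 1)
    (hz : ∀ x, x ∉ A → ∀ y ∈ A, T x y = 0) (x : V) (hx : x ∉ A) (k₀ : ℕ) :
    ∑ k ∈ Finset.range k₀, w ^ (k + 1) * (T ^ (k + 1)) x x ≤ gG w (univ \ A) T x x := by
  have hl := (bl_grn T w (univ \ A) x x hT0 (fun a => (hTr a).le) h0 h1).1
  have hS : Pool.Agent.Q68.LC.SS T := ⟨hT0, fun a => (hTr a).le⟩
  simp only [bl_pow_eq hz _ x hx x] at hl
  refine ge_of_tendsto hl (eventually_atTop.2 ⟨k₀, fun N hN => ?_⟩)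
  refine Finset.sum_le_sum_of_subset_of_nonneg (fun i hi => ?_) fun k _ _ => ?_
  · rw [Finset.mem_range] at hi ⊢
    omega
  · exact mul_nonneg (pow_nonneg h0 _) ((Pool.Agent.Q68.LC.SS_pow hS (k + 1)).nn x x)

/-- and from above -/
theorem gG_le {T : Matrix V V ℝ} {A : Finset V} {w : ℝ} (hT0 : ∀ a b, 0 ≤ T a b)
    (hTr : ∀ a, ∑ b, T a b = 1) (h0 : 0 ≤ w) (h1 : w < 1)
    (hz : ∀ x, x ∉ A → ∀ y ∈ A, T x y = 0) (x : V) (hx : x ∉ A) (k₀ : ℕ) (m0 : ℝ) (a : ℕ → ℝ)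
    (hm0 : 0 ≤ m0) (ha : Summable a) (ha0 : ∀ k, 0 ≤ a k)
    (hT : ∀ k, (T * (dg (univ \ A) * T) ^ k) x x ≤ m0 + a k) :
    gG w (univ \ A) T x x ≤ ∑ k ∈ Finset.range k₀, w ^ (k + 1) * (T ^ (k + 1)) x x +
      m0 / (1 - w) + ∑' k, a (k + k₀) := by
  have hl := (bl_grn T w (univ \ A) x x hT0 (fun a => (hTr a).le) h0 h1).1
  have hw : 0 < 1 - w := by linarith
  refine le_of_tendsto hl (eventually_atTop.2 ⟨k₀, fun N hN => ?_⟩)
  obtain ⟨M, rfl⟩ : ∃ M, N = k₀ + M := ⟨N - k₀, by omega⟩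
  rw [Finset.sum_range_add, add_assoc]
  refine add_le_add (le_of_eq (Finset.sum_congr rfl fun k _ => ?_)) ?_
  · rw [bl_pow_eq hz k x hx x]
  · have h3 : ∀ k, w ^ (k₀ + k + 1) * (T * (dg (univ \ A) * T) ^ (k₀ + k)) x x ≤
        m0 * w ^ k + a (k + k₀) := by
      intro k
      have h4 : w ^ (k₀ + k + 1) ≤ w ^ k := pow_le_pow_of_le_one h0 h1.le (by omega)
      have h5 : w ^ (k₀ + k + 1) ≤ 1 := pow_le_one₀ h0 h1.le
      have h6 : 0 ≤ w ^ (k₀ + k + 1) := pow_nonneg h0 _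
      have h7 := hT (k₀ + k)
      have h8 := ha0 (k₀ + k)
      rw [Nat.add_comm k k₀]
      calc w ^ (k₀ + k + 1) * (T * (dg (univ \ A) * T) ^ (k₀ + k)) x x
          ≤ w ^ (k₀ + k + 1) * (m0 + a (k₀ + k)) := mul_le_mul_of_nonneg_left h7 h6
        _ = w ^ (k₀ + k + 1) * m0 + w ^ (k₀ + k + 1) * a (k₀ + k) := by ring
        _ ≤ w ^ k * m0 + 1 * a (k₀ + k) := add_le_add (mul_le_mul_of_nonneg_right h4 hm0)
            (mul_le_mul_of_nonneg_right h5 h8)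
        _ = _ := by ring
    calc ∑ k ∈ Finset.range M, w ^ (k₀ + k + 1) * (T * (dg (univ \ A) * T) ^ (k₀ + k)) x x
        ≤ ∑ k ∈ Finset.range M, (m0 * w ^ k + a (k + k₀)) := Finset.sum_le_sum fun k _ => h3 k
      _ = m0 * ∑ k ∈ Finset.range M, w ^ k + ∑ k ∈ Finset.range M, a (k + k₀) := by
          rw [Finset.sum_add_distrib, Finset.mul_sum]
      _ ≤ _ := by
          refine add_le_add ?_ ?_
          · rw [div_eq_mul_inv]
            exact mul_le_mul_of_nonneg_left (sum_le_hasSum _ (fun k _ => pow_nonneg h0 k)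
              (hasSum_geometric_of_lt_one h0 h1)) hm0
          · exact ((summable_nat_add_iff k₀).2 ha).sum_le_tsum _ (fun k _ => ha0 _)

end gen

end Pool.Agent.U153
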