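import Pool.Agent.U153.McLaw
import Pool.Agent.TH268.PD.PDsum

/-!
# The longest cycles at polylogarithmic times
-/

set_option autoImplicit false

namespace Pool.Agent.U153

open Finset Equiv MeasureTheory
open Pool.Agent.Y998.ST (stirExp nnRate stirLaw nn_nonneg law_nonneg exp_const exp_nonneg cycleLen)
open Pool.Agent.R517.PDS (stirExp_sum stirExp_smul stirExp_mono)
open Pool.Agent.TH268.PD (pdm stick)
open Pool.Agent.TH268.PD.Lim (Om Y tY mu Sm I S_lower)
open Pool.Agent.Results.MP_b817cf_pr.LocalPoissonDirichlet (cycleFrac pdMean frac_eq pd_eq)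

/-- sorted lists -/
theorem sorted_getD (p : ℕ → Prop) [DecidablePred p] (hp0 : ¬ p 0)
    (hup : ∀ a b, a ≤ b → p a → p b) (l : List ℕ) (hl : l.Pairwise (· ≥ ·)) (i : ℕ) :
    p (l.getD i 0) ↔ i + 1 ≤ l.countP p := by
  induction l generalizing i with
  | nil => simpa using hp0
  | cons a l ih =>
    rw [List.pairwise_cons] at hl
    have hno : ¬ p a → l.countP p = 0 := by
      intro h
      rw [List.countP_eq_zero]
      intro b hb hpb
      exact h (hup b a (hl.1 b hb) (by simpa using hpb))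
    cases i with
    | zero =>
      rw [List.getD_cons_zero, List.countP_cons]
      by_cases h : p a
      · simp [h]
      · simp [h, hno h]
    | succ i =>
      rw [List.getD_cons_succ, ih hl.2, List.countP_cons]
      by_cases h : p a
      · simp [h]
      · simp [h, hno h]

section perm

variable {V : Type} [Fintype V] [DecidableEq V]

/-- the length of the `(i + 1)`-st longest cycle, and `0` if there are at most `i` cycles -/
def longest (g : Perm V) (i : ℕ) : ℕ := (g.partition.parts.sort (· ≥ ·)).getD i 0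

theorem longest_iff (g : Perm V) (p : ℕ → Prop) [DecidablePred p] (hp0 : ¬ p 0)
    (hup : ∀ a b, a ≤ b → p a → p b) (i : ℕ) :
    p (longest g i) ↔ i + 1 ≤ Multiset.card (Multiset.filter p g.partition.parts) := by
  unfold longest
  rw [sorted_getD p hp0 hup _ (Multiset.pairwise_sort _ _)]
  rw [← Multiset.countP_eq_card_filter]
  have h := Multiset.sort_eq g.partition.parts (· ≥ ·)
  conv_rhs => rw [← h]
  rw [Multiset.coe_countP]

theorem mc_frac [Nonempty V] (g : Perm V) (i : ℕ) :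
    cycleFrac g i = (longest g i : ℝ) / Fintype.card V := by
  have hV : (0 : ℝ) < (Fintype.card V : ℝ) := by exact_mod_cast Fintype.card_pos
  have hx : ∀ x : ℝ, 0 < x → (x ≤ (longest g i : ℝ) / Fintype.card V ↔ i + 1 ≤ Multiset.card
      (Multiset.filter (fun c : ℕ => x ≤ (c : ℝ) / Fintype.card V) g.partition.parts)) := by
    intro x hx
    refine longest_iff g (fun c : ℕ => x ≤ (c : ℝ) / Fintype.card V) ?_ ?_ i
    · simp only [Nat.cast_zero, zero_div, not_le]
      exact hx
    · intro a b hab h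
      refine h.trans ?_
      exact div_le_div_of_nonneg_right (by exact_mod_cast hab) hV.le
  have h0 : 0 ≤ cycleFrac g i := by
    rw [frac_eq]
    have : Finite (Pool.Agent.TH268.PD.Cyc g) := Quotient.finite _
    refine Pool.Agent.TH268.PD.top_nonneg _ (fun γ => ?_) i
    unfold Pool.Agent.Y998.LP.bfrac
    positivity
  have hbd : BddAbove {x : ℝ | i + 1 ≤ Multiset.card
      (Multiset.filter (fun c : ℕ => x ≤ (c : ℝ) / Fintype.card V) g.partition.parts)} := by
    refine ⟨(longest g i : ℝ) / Fintype.card V, fun x hx' => ?_⟩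
    rcases le_or_gt x 0 with h | h
    · exact h.trans (by positivity)
    · exact (hx x h).2 hx'
  refine le_antisymm ?_ ?_
  · unfold cycleFrac
    refine Real.sSup_le (fun x hx' => ?_) (by positivity)
    rcases le_or_gt x 0 with h | h
    · exact h.trans (by positivity)
    · exact (hx x h).2 hx'
  · rcases Nat.eq_zero_or_pos (longest g i) with h | h
    · rw [h, Nat.cast_zero, zero_div]
      exact h0
    · have h1 : 0 < (longest g i : ℝ) / Fintype.card V := by positivity
      unfold cycleFrac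
      exact le_csSup hbd ((hx _ h1).1 le_rfl)

end perm

/-- the ordered sticks are bounded below when the first sticks are -/
theorem mc_stick (U : Om) (a : ℝ) (ha : 0 ≤ a) (i : ℕ)
    (h : ∀ j ∈ Finset.range (i + 1), a ≤ (U j : ℝ) ∧ (U j : ℝ) ≤ 1 - a) :
    a ^ (i + 1) ≤ tY U i := by
  have ha1 : a ≤ 1 := (h 0 (Finset.mem_range.2 (by omega))).1.trans (U 0).2.2
  have hg := Pool.Agent.TH268.PD.Lim.good_encard (Y U) (Pool.Agent.TH268.PD.Lim.Y_nonneg U)
    (Pool.Agent.TH268.PD.Lim.Y_le_one U)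
  unfold tY
  refine le_csSup ⟨1, hg.ub i⟩ ?_
  show (((i : ℕ) + 1 : ℕ) : ℕ∞) ≤ Set.encard {j : ℕ | a ^ (i + 1) ≤ Y U j}
  have h1 : (((i : ℕ) + 1 : ℕ) : ℕ∞) = Set.encard ((Finset.range (i + 1) : Finset ℕ) : Set ℕ) := by
    rw [Set.encard_coe_eq_coe_finsetCard, Finset.card_range]
  rw [h1]
  refine Set.encard_le_encard fun j hj => ?_
  have hj' : j < i + 1 := Finset.mem_range.1 (Finset.mem_coe.1 hj)
  show a ^ (i + 1) ≤ (U j : ℝ) * ∏ l ∈ Finset.range j, (1 - (U l : ℝ))
  have h2 : a ^ j ≤ ∏ l ∈ Finset.range j, (1 - (U l : ℝ)) := by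
    have h3 : ∏ _l ∈ Finset.range j, a ≤ ∏ l ∈ Finset.range j, (1 - (U l : ℝ)) :=
      Finset.prod_le_prod (fun _ _ => ha) fun l hl => by
        have := (h l (Finset.mem_range.2 (by have := Finset.mem_range.1 hl; omega))).2
        linarith
    rwa [Finset.prod_const, Finset.card_range] at h3
  calc a ^ (i + 1) ≤ a ^ (j + 1) := pow_le_pow_of_le_one ha ha1 (by omega)
    _ = a * a ^ j := by ring
    _ ≤ (U j : ℝ) * ∏ l ∈ Finset.range j, (1 - (U l : ℝ)) :=
        mul_le_mul (h j (Finset.mem_range.2 hj')).1 h2 (by positivity) (U j).2.1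

/-- lower bound for the Poisson-Dirichlet mean of a ramp -/
theorem mc_pd_pos (i : ℕ) (a : ℝ) (ha : 0 < a) (ha2 : a ≤ 1 / 2) :
    1 - 2 * (i + 1) * a ≤ pdMean (fun u : Fin (i + 1) → ℝ =>
      1 - rmp (a ^ (i + 1) / 2) (a ^ (i + 1)) (u (Fin.last i))) := by
  have hb : 0 < a ^ (i + 1) := by positivity
  obtain ⟨E, hE⟩ : ∃ E : Set Om, E = Set.pi (Finset.range (i + 1) : Set ℕ)
    (fun _ => {u : unitInterval | a ≤ (u : ℝ) ∧ (u : ℝ) ≤ 1 - a}) := ⟨_, rfl⟩
  have hms : MeasurableSet {u : unitInterval | a ≤ (u : ℝ) ∧ (u : ℝ) ≤ 1 - a} :=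
    (measurableSet_le measurable_const measurable_subtype_coe).inter
      (measurableSet_le measurable_subtype_coe measurable_const)
  have hmE : MeasurableSet E := by
    rw [hE]
    exact MeasurableSet.pi (Finset.range (i + 1)).countable_toSet fun _ _ => hms
  have hvol : (volume : Measure unitInterval) {u : unitInterval | a ≤ (u : ℝ) ∧ (u : ℝ) ≤ 1 - a} =
      ENNReal.ofReal (1 - 2 * a) := by
    have h1 : {u : unitInterval | a ≤ (u : ℝ) ∧ (u : ℝ) ≤ 1 - a} =
        Subtype.val ⁻¹' Set.Icc a (1 - a) := by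
      ext u
      simp [Set.mem_Icc]
    rw [h1]
    have h2 : (volume : Measure unitInterval) = Measure.comap Subtype.val volume := rfl
    rw [h2, Measure.comap_apply _ Subtype.val_injective
      (fun s hs => measurableSet_Icc.subtype_image hs) _
      (measurable_subtype_coe measurableSet_Icc)]
    rw [Subtype.image_preimage_coe, Set.inter_eq_right.2, Real.volume_Icc]
    · congr 1
      ring
    · exact Set.Icc_subset_Icc ha.le (by linarith)
  have hmu : (mu E).toReal = (1 - 2 * a) ^ (i + 1) := by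
    rw [hE, Measure.infinitePi_pi _ (fun _ _ => hms), Finset.prod_congr rfl fun _ _ => hvol,
      Finset.prod_const, Finset.card_range, ENNReal.toReal_pow,
      ENNReal.toReal_ofReal (by linarith)]
  have hbern : 1 - 2 * (i + 1) * a ≤ (1 - 2 * a) ^ (i + 1) := by
    have h1 := one_add_mul_le_pow (a := -(2 * a)) (by linarith) (i + 1)
    push_cast at h1
    calc 1 - 2 * ((i : ℝ) + 1) * a = 1 + ((i : ℝ) + 1) * -(2 * a) := by ring
      _ ≤ (1 + -(2 * a)) ^ (i + 1) := h1
      _ = (1 - 2 * a) ^ (i + 1) := by ring_nf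
  refine hbern.trans ?_
  rw [← hmu, pd_eq]
  unfold pdm
  have hint : Integrable (fun U : Om => 1 - rmp (a ^ (i + 1) / 2) (a ^ (i + 1)) (tY U i)) mu := by
    refine Integrable.of_bound (C := 1) ?_ ?_
    · refine Measurable.aestronglyMeasurable ?_
      exact measurable_const.sub ((rmp_cont _ _).measurable.comp
        (Pool.Agent.TH268.PD.Lim.measurable_tY i))
    · refine Filter.Eventually.of_forall fun U => ?_
      rw [Real.norm_eq_abs, abs_le]
      have h1 := rmp_nonneg (a ^ (i + 1) / 2) (a ^ (i + 1)) (tY U i)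
      have h2 := rmp_le (a ^ (i + 1) / 2) (a ^ (i + 1)) (tY U i)
      constructor <;> linarith
  have h1 : ∫ U : Om, E.indicator (fun _ => (1 : ℝ)) U ∂mu = (mu E).toReal := by
    rw [integral_indicator hmE]
    simp [Measure.real]
  rw [← h1]
  refine integral_mono ((integrable_const (1 : ℝ)).indicator hmE) hint ?_
  intro U
  show E.indicator (fun _ => (1 : ℝ)) U ≤ 1 - rmp (a ^ (i + 1) / 2) (a ^ (i + 1)) (tY U i)
  by_cases hU : U ∈ E
  · rw [Set.indicator_of_mem hU]
    have h2 := mc_stick U a ha.le i (by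
      intro j hj
      rw [hE] at hU
      exact hU j (Finset.mem_coe.2 hj))
    rw [rmp_zero (by linarith) h2]
    norm_num
  · rw [Set.indicator_of_notMem hU]
    have h2 := rmp_le (a ^ (i + 1) / 2) (a ^ (i + 1)) (tY U i)
    linarith

/-- every one of the longest cycles is macroscopic with high probability -/
theorem mc_macro (d : ℕ) (hd : 3 ≤ d) : ∃ m : ℕ, ∀ i : ℕ, ∀ η : ℝ, 0 < η → ∃ δ : ℝ, 0 < δ ∧
    ∃ L₀ : ℕ, ∀ (L : ℕ) [NeZero L], L₀ ≤ L → ∀ t : ℝ, (Real.log L) ^ m ≤ t →
      1 - η ≤ stirExp (nnRate d L) t (fun g =>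
        if δ * (L : ℝ) ^ d ≤ (longest g i : ℝ) then 1 else 0) := by
  obtain ⟨m, hm⟩ := lc_pd d hd
  refine ⟨m, fun i η hη => ?_⟩
  obtain ⟨a, ha⟩ : ∃ a : ℝ, a = min (1 / 2) (η / (4 * (i + 1))) := ⟨_, rfl⟩
  have hi0 : (0 : ℝ) < (i : ℝ) + 1 := by positivity
  have ha0 : 0 < a := by
    rw [ha]
    exact lt_min (by norm_num) (by positivity)
  have ha2 : a ≤ 1 / 2 := by rw [ha]; exact min_le_left _ _
  have haη : 2 * ((i : ℝ) + 1) * a ≤ η / 2 := by
    have : a ≤ η / (4 * (i + 1)) := by rw [ha]; exact min_le_right _ _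
    rw [le_div_iff₀ (by positivity)] at this
    linarith
  have hb : 0 < a ^ (i + 1) := by positivity
  obtain ⟨L₀, hL₀⟩ := hm (i + 1) (fun u : Fin (i + 1) → ℝ =>
      1 - rmp (a ^ (i + 1) / 2) (a ^ (i + 1)) (u (Fin.last i)))
    (continuous_const.sub ((rmp_cont _ _).comp (continuous_apply _)))
    ⟨1, fun u => by
      have h1 := rmp_nonneg (a ^ (i + 1) / 2) (a ^ (i + 1)) (u (Fin.last i))
      have h2 := rmp_le (a ^ (i + 1) / 2) (a ^ (i + 1)) (u (Fin.last i))
      rw [abs_le]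
      constructor <;> linarith⟩ (η / 2) (by positivity)
  refine ⟨a ^ (i + 1) / 2, by positivity, L₀, ?_⟩
  intro L _ hL t ht
  have hlog0 : 0 ≤ Real.log L := Real.log_natCast_nonneg L
  have ht00 : 0 ≤ t := (pow_nonneg hlog0 m).trans ht
  have h1 := (abs_le.1 (hL₀ L hL t ht)).1
  have h2 := mc_pd_pos i a ha0 ha2
  have hVeq : (Fintype.card (Fin d → ZMod L) : ℝ) = (L : ℝ) ^ d := by
    rw [lc_vol]
  have hV : (0 : ℝ) < (L : ℝ) ^ d := lc_vol_pos
  have h3 : stirExp (nnRate d L) t (fun g => 1 - rmp (a ^ (i + 1) / 2) (a ^ (i + 1))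
      (cycleFrac g i)) ≤ stirExp (nnRate d L) t (fun g =>
        if a ^ (i + 1) / 2 * (L : ℝ) ^ d ≤ (longest g i : ℝ) then 1 else 0) := by
    refine stirExp_mono nn_nonneg ht00 _ _ fun g => ?_
    split_ifs with h
    · have := rmp_nonneg (a ^ (i + 1) / 2) (a ^ (i + 1)) (cycleFrac g i)
      linarith
    · have h4 : cycleFrac g i ≤ a ^ (i + 1) / 2 := by
        rw [mc_frac, hVeq, div_le_iff₀ hV]
        exact (not_le.1 h).le
      rw [rmp_one (by linarith) h4]
      norm_num
  have h5 : (fun g : Perm (Fin d → ZMod L) => 1 - rmp (a ^ (i + 1) / 2) (a ^ (i + 1))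
      (cycleFrac g ((Fin.last i : Fin (i + 1)) : ℕ))) =
      fun g => 1 - rmp (a ^ (i + 1) / 2) (a ^ (i + 1)) (cycleFrac g i) := by
    funext g
    rw [Fin.val_last]
  rw [h5] at h1
  linarith

/-- the mean fraction of the torus in the `k` longest cycles -/
theorem mc_mass (d : ℕ) (hd : 3 ≤ d) : ∃ m : ℕ, ∀ k : ℕ, ∀ ε : ℝ, 0 < ε →
    ∃ L₀ : ℕ, ∀ (L : ℕ) [NeZero L], L₀ ≤ L → ∀ t : ℝ, (Real.log L) ^ m ≤ t →
      1 - (1 / 2 : ℝ) ^ k - ε ≤ ∑ i ∈ Finset.range k, stirExp (nnRate d L) t (fun g =>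
        (longest g i : ℝ) / (L : ℝ) ^ d) := by
  obtain ⟨m, hm⟩ := lc_pd d hd
  refine ⟨m, fun k ε hε => ?_⟩
  obtain ⟨f, hf⟩ : ∃ f : (Fin k → ℝ) → ℝ, f = fun u => ∑ i, min (max (1 * u i) 0) 1 := ⟨_, rfl⟩
  have hfc : Continuous f := by
    rw [hf]
    fun_prop
  obtain ⟨L₀, hL₀⟩ := hm k f hfc ⟨k, fun u => by
      rw [hf]
      beta_reduce
      refine (Finset.abs_sum_le_sum_abs _ _).trans ?_
      refine (Finset.sum_le_card_nsmul _ _ 1 fun i _ => ?_).trans (le_of_eq ?_)
      · rw [abs_of_nonneg (le_min (le_max_right _ _) zero_le_one)]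
        exact min_le_right _ _
      · rw [Finset.card_univ, Fintype.card_fin, nsmul_eq_mul, mul_one]⟩ ε hε
  refine ⟨L₀, ?_⟩
  intro L _ hL t ht
  have h1 := (abs_le.1 (hL₀ L hL t ht)).1
  have h2 : pdMean f = I (Sm k) := by
    rw [pd_eq, hf, Pool.Agent.TH268.PD.pd_sum k 1 zero_le_one le_rfl, one_mul]
  have h3 := S_lower k
  have hVeq : (Fintype.card (Fin d → ZMod L) : ℝ) = (L : ℝ) ^ d := by
    rw [lc_vol]
  have h4 : stirExp (nnRate d L) t (fun g => f (fun i : Fin k => cycleFrac g i)) =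
      ∑ i ∈ Finset.range k, stirExp (nnRate d L) t (fun g => (longest g i : ℝ) / (L : ℝ) ^ d) := by
    rw [← stirExp_sum]
    congr 1
    funext g
    rw [hf, ← Fin.sum_univ_eq_sum_range (fun i => (longest g i : ℝ) / (L : ℝ) ^ d)]
    refine Finset.sum_congr rfl fun i _ => ?_
    have h5 := mc_frac g i
    rw [hVeq] at h5
    have h6 : 0 ≤ cycleFrac g i := by
      rw [h5]
      positivity
    have h7 : cycleFrac g i ≤ 1 := by
      rw [frac_eq]
      have : Finite (Pool.Agent.TH268.PD.Cyc g) := Quotient.finite _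
      refine Pool.Agent.TH268.PD.top_le_one _ (fun γ => ?_) (fun γ => ?_) i
      · unfold Pool.Agent.Y998.LP.bfrac
        positivity
      · unfold Pool.Agent.Y998.LP.bfrac
        refine div_le_one_of_le₀ ?_ (by positivity)
        rw [Finset.card_univ, ← Nat.card_eq_fintype_card]
        exact_mod_cast Nat.card_le_card_of_injective _ Subtype.val_injective
    rw [one_mul, max_eq_left h6, min_eq_left h7, h5]
  rw [h4, h2] at h1
  linarith

/-- the law of the longest cycle length above `L ^ d / 2` -/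
theorem mc_max (d : ℕ) (hd : 3 ≤ d) : ∃ m : ℕ, ∀ a : ℝ, 1 / 2 ≤ a → a ≤ 1 → ∀ ε : ℝ, 0 < ε →
    ∃ L₀ : ℕ, ∀ (L : ℕ) [NeZero L], L₀ ≤ L → ∀ t : ℝ, (Real.log L) ^ m ≤ t →
      |stirExp (nnRate d L) t (fun g => if a * (L : ℝ) ^ d < (longest g 0 : ℝ) then 1 else 0) -
        Real.log (1 / a)| ≤ ε := by
  obtain ⟨m, hm⟩ := mc_number d hd
  refine ⟨m, fun a ha ha1 ε hε => ?_⟩
  obtain ⟨L₀, hL₀⟩ := hm a (by linarith) ha1 ε hε
  refine ⟨L₀, fun L _ hL t ht => ?_⟩
  have h := hL₀ L hL t ht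
  have hV : (0 : ℝ) < (L : ℝ) ^ d := lc_vol_pos
  have e1 : (fun g : Perm (Fin d → ZMod L) =>
      (if a * (L : ℝ) ^ d < (longest g 0 : ℝ) then (1 : ℝ) else 0)) = fun g => (open Classical in
        (Multiset.card (Multiset.filter (fun k : ℕ => a * (L : ℝ) ^ d < (k : ℝ))
          g.partition.parts) : ℝ)) := by
    classical
    funext g
    have h1 : ((Multiset.card (Multiset.filter (fun k : ℕ => a * (L : ℝ) ^ d < (k : ℝ))
          g.partition.parts) : ℕ)) ≤ 1 := by
      by_contra hc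
      push Not at hc
      obtain ⟨s, hs⟩ : ∃ s, s = Multiset.filter (fun k : ℕ => a * (L : ℝ) ^ d < (k : ℝ))
          g.partition.parts := ⟨_, rfl⟩
      rw [← hs] at hc
      have h2 : s.sum ≤ Fintype.card (Fin d → ZMod L) := by
        rw [← g.partition.parts_sum, hs]
        obtain ⟨u, hu⟩ := Multiset.le_iff_exists_add.1
          (Multiset.filter_le (fun k : ℕ => a * (L : ℝ) ^ d < (k : ℝ)) g.partition.parts)
        conv_rhs => rw [hu]
        rw [Multiset.sum_add]
        exact Nat.le_add_right _ _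
      have h3 : ∀ k ∈ s, a * (L : ℝ) ^ d < (k : ℝ) := by
        intro k hk
        rw [hs] at hk
        exact (Multiset.mem_filter.1 hk).2
      obtain ⟨k₁, s', rfl⟩ : ∃ k s', s = k ::ₘ s' := by
        obtain ⟨k, hk⟩ := Multiset.card_pos_iff_exists_mem.1 (by omega : 0 < Multiset.card s)
        exact ⟨k, _, (Multiset.cons_erase hk).symm⟩
      rw [Multiset.card_cons] at hc
      obtain ⟨k₂, s'', rfl⟩ : ∃ k s'', s' = k ::ₘ s'' := by
        obtain ⟨k, hk⟩ := Multiset.card_pos_iff_exists_mem.1 (by omega : 0 < Multiset.card s')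
        exact ⟨k, _, (Multiset.cons_erase hk).symm⟩
      have h4 := h3 k₁ (by simp)
      have h5 := h3 k₂ (by simp)
      have h6 : ((k₁ + k₂ : ℕ) : ℝ) ≤ (L : ℝ) ^ d := by
        have h7 : k₁ + k₂ ≤ Fintype.card (Fin d → ZMod L) := by
          rw [Multiset.sum_cons, Multiset.sum_cons] at h2
          omega
        have h8 : (Fintype.card (Fin d → ZMod L) : ℝ) = (L : ℝ) ^ d := by rw [lc_vol]
        rw [← h8]
        exact_mod_cast h7
      push_cast at h6
      have h9 : 1 / 2 * (L : ℝ) ^ d ≤ a * (L : ℝ) ^ d := mul_le_mul_of_nonneg_right ha hV.le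
      linarith
    have h2 := longest_iff g (fun k : ℕ => a * (L : ℝ) ^ d < (k : ℝ)) (by
      simp only [Nat.cast_zero, not_lt]
      have : (0 : ℝ) ≤ a := by linarith
      positivity) (fun b c hbc h => lt_of_lt_of_le h (by exact_mod_cast hbc)) 0
    obtain ⟨N, hN⟩ : ∃ N : ℕ, N = Multiset.card (Multiset.filter
      (fun k : ℕ => a * (L : ℝ) ^ d < (k : ℝ)) g.partition.parts) := ⟨_, rfl⟩
    split_ifs with h3
    · have h4 := h2.1 h3
      have h5 : Multiset.card (Multiset.filter (fun k : ℕ => a * (L : ℝ) ^ d < (k : ℝ))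
          g.partition.parts) = 1 := by omega
      rw [h5]
      norm_num
    · have h4 : ¬ (0 + 1 ≤ Multiset.card (Multiset.filter
        (fun k : ℕ => a * (L : ℝ) ^ d < (k : ℝ)) g.partition.parts)) := fun h => h3 (h2.2 h)
      have h5 : Multiset.card (Multiset.filter (fun k : ℕ => a * (L : ℝ) ^ d < (k : ℝ))
          g.partition.parts) = 0 := by omega
      rw [h5]
      norm_num
  rw [e1]
  exact h

end Pool.Agent.U153
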