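import Pool.Agent.U153.BlFin
import Pool.Agent.U153.McTop

/-!
# Short cycles: convergence in total variation and the mass of the longest cycles
-/

set_option autoImplicit false
set_option linter.unusedSectionVars false
set_option linter.unusedVariables false

namespace Pool.Agent.U153

open Finset Equiv Matrix Q292.LC Filter Topology
open Pool.Agent.Y998.ST (stirExp nnRate qq stirLaw totalRate nn_nonneg law_nonneg exp_const cycleLen)
open Pool.Agent.Q297.LC (stir_add stir_smul stir_sub)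
open Pool.Agent.R517.PDS (stirExp_mono stirExp_sum stirExp_smul)
open Pool.Agent.TH268.PD (Cyc cyOf)

/-- `ζ(d/2) (4π)^(-d/2)` -/
noncomputable def bloch (d : ℕ) : ℝ := ∑' k : ℕ, (4 * Real.pi * ((k : ℝ) + 1)) ^ (-(d / 2 : ℝ))

theorem bloch_term (d : ℕ) (k : ℕ) : (4 * Real.pi * ((k : ℝ) + 1)) ^ (-(d / 2 : ℝ)) =
    hkc d * ((k : ℝ) + 1) ^ (-(d / 2 : ℝ)) := by
  unfold hkc
  rw [Real.mul_rpow (by positivity) (by positivity)]

theorem bloch_eq (d : ℕ) : bloch d = hkc d * zt d := by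
  unfold bloch zt
  rw [← tsum_mul_left]
  exact tsum_congr fun k => bloch_term d k

theorem list_top (n₀ : ℕ) (l : List ℕ) (k : ℕ) :
    ∑ i ∈ Finset.range k, l.getD i 0 ≤ (l.map fun c => if c ≤ n₀ then 0 else c).sum + k * n₀ := by
  induction l generalizing k with
  | nil => simp
  | cons a l ih =>
    cases k with
    | zero => simp
    | succ k =>
      rw [Finset.sum_range_succ']
      simp only [List.getD_cons_succ, List.getD_cons_zero, List.map_cons, List.sum_cons]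
      have h := ih k
      have h2 : a ≤ (if a ≤ n₀ then 0 else a) + n₀ := by split_ifs <;> omega
      have h3 : (k + 1) * n₀ = k * n₀ + n₀ := by ring
      rw [h3]
      omega

section perm

variable {V : Type} [Fintype V] [DecidableEq V]

omit [Fintype V] [DecidableEq V] in
theorem ms_cast (n₀ : ℕ) (s : Multiset ℕ) :
    (((s.map fun c => if c ≤ n₀ then 0 else c).sum : ℕ) : ℝ) =
      (((s.map fun c : ℕ => if c ≤ n₀ then (0 : ℚ) else c).sum : ℚ) : ℝ) := by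
  induction s using Multiset.induction_on with
  | empty => simp
  | cons a s ih =>
    simp only [Multiset.map_cons, Multiset.sum_cons, Nat.cast_add, Rat.cast_add, ih]
    split_ifs <;> simp

open Classical in
theorem mc_sum (g : Perm V) (n₀ : ℕ) :
    (((g.partition.parts.map fun c => if c ≤ n₀ then 0 else c).sum : ℕ) : ℝ) =
      ∑ x, if cycleLen g x ≤ n₀ then (0 : ℝ) else 1 := by
  have : Finite (Cyc g) := Quotient.finite _
  have : Fintype (Cyc g) := Fintype.ofFinite _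
  have h1 := Pool.Agent.TH268.PD.Rec.sum_cyc g (fun c : ℕ => if c ≤ n₀ then (0 : ℚ) else c)
  have h2 : (((g.partition.parts.map fun c => if c ≤ n₀ then 0 else c).sum : ℕ) : ℝ) =
      ∑ γ : Cyc g, if Nat.card {w : V // cyOf g w = γ} ≤ n₀ then (0 : ℝ) else
        Nat.card {w : V // cyOf g w = γ} := by
    rw [ms_cast, ← h1, Rat.cast_sum]
    refine Finset.sum_congr rfl fun γ _ => ?_
    split_ifs <;> norm_num
  rw [h2, ← Finset.sum_fiberwise (s := (univ : Finset V)) (g := cyOf g)]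
  refine Finset.sum_congr rfl fun γ _ => ?_
  have h5 : ∀ w ∈ (univ : Finset V).filter (fun w => cyOf g w = γ),
      (if cycleLen g w ≤ n₀ then (0 : ℝ) else 1) =
      (if Nat.card {w : V // cyOf g w = γ} ≤ n₀ then (0 : ℝ) else 1) := by
    intro w hw
    rw [← mc_len g w, (Finset.mem_filter.1 hw).2]
  rw [Finset.sum_congr rfl h5, Finset.sum_const, nsmul_eq_mul]
  have h6 : #{w : V | cyOf g w = γ} = Nat.card {w : V // cyOf g w = γ} := by
    rw [Nat.card_eq_fintype_card, Fintype.card_subtype]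
  rw [h6]
  split_ifs <;> simp

open Classical in
theorem top_le (g : Perm V) (n₀ k : ℕ) :
    ∑ i ∈ Finset.range k, (longest g i : ℝ) ≤
      (Fintype.card V : ℝ) - (∑ x, if cycleLen g x ≤ n₀ then (1 : ℝ) else 0) + k * n₀ := by
  have h1 := list_top n₀ (g.partition.parts.sort (· ≥ ·)) k
  have h2 : ((g.partition.parts.sort (· ≥ ·)).map fun c => if c ≤ n₀ then 0 else c).sum =
      (g.partition.parts.map fun c => if c ≤ n₀ then 0 else c).sum := by
    have h := Multiset.sort_eq g.partition.parts (· ≥ ·)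
    conv_rhs => rw [← h]
    rw [Multiset.map_coe, Multiset.sum_coe]
  rw [h2] at h1
  have h3 : ((∑ i ∈ Finset.range k, (g.partition.parts.sort (· ≥ ·)).getD i 0 : ℕ) : ℝ) ≤
      (((g.partition.parts.map fun c => if c ≤ n₀ then 0 else c).sum + k * n₀ : ℕ) : ℝ) := by
    exact_mod_cast h1
  have h4 := mc_sum g n₀
  have h5 : (Fintype.card V : ℝ) - (∑ x, if cycleLen g x ≤ n₀ then (1 : ℝ) else 0) =
      ∑ x, if cycleLen g x ≤ n₀ then (0 : ℝ) else 1 := by
    have : (Fintype.card V : ℝ) = ∑ _x : V, (1 : ℝ) := by simp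
    rw [this, ← Finset.sum_sub_distrib]
    refine Finset.sum_congr rfl fun x _ => ?_
    split_ifs <;> norm_num
  rw [h5, ← h4]
  push_cast at h3
  unfold longest
  push_cast
  exact h3

end perm

/-- CONVERGENCE IN TOTAL VARIATION of the law of the length of a short cycle -/
theorem bl_tv (d : ℕ) (hd : 3 ≤ d) : ∃ a : ℝ, 0 < a ∧ ∀ ε : ℝ, 0 < ε → ∃ t₀ η : ℝ,
    1 ≤ t₀ ∧ 0 < η ∧ ∀ (L : ℕ) [NeZero L] (t : ℝ) (n : ℕ), t₀ ≤ t → 1 ≤ n →
    n * t ^ (d / 2 : ℝ) ≤ η * (L : ℝ) ^ d →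
    ((n : ℝ) ≤ Real.exp (t ^ a) ∨ (L : ℝ) ≤ Real.exp (t ^ a)) → ∀ x : Fin d → ZMod L,
    ∑ j ∈ Finset.range n, |t ^ (d / 2 : ℝ) * pk t (j + 1) x -
      hkc d * ((j : ℝ) + 1) ^ (-(d / 2 : ℝ))| ≤ ε := by
  obtain ⟨m, hm, h⟩ := fin_den d hd
  have hm0 : (0 : ℝ) < m := by exact_mod_cast hm
  have hk := hkc_pos d
  refine ⟨1 / (2 * m), by positivity, fun ε hε => ?_⟩
  obtain ⟨t₁, η₁, n₀, ht₁, hη₁, hn₀, h1⟩ := h (ε / 8) (by positivity)
  obtain ⟨k₁, hk₁⟩ := eventually_atTop.1 (((tl_lim d).const_mul (hkc d)).eventually_lt_const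
    (show hkc d * 0 < ε / 8 by rw [mul_zero]; positivity))
  obtain ⟨N, hN⟩ : ∃ N : ℕ, N = n₀ + k₁ := ⟨_, rfl⟩
  have htl := hk₁ N (by omega)
  have hN1 : 1 ≤ N := by omega
  have hNr : (1 : ℝ) ≤ N := by exact_mod_cast hN1
  have hN0 : (0 : ℝ) < N := by linarith
  -- local laws
  have hloc : ∃ t₂ η₂ : ℝ, 1 ≤ t₂ ∧ 0 < η₂ ∧ ∀ (L : ℕ) [NeZero L] (t : ℝ), t₂ ≤ t →
      t ^ (d / 2 : ℝ) ≤ η₂ * (L : ℝ) ^ d → ∀ x : Fin d → ZMod L, ∀ j < N,
      |t ^ (d / 2 : ℝ) * pk t (j + 1) x - hkc d * ((j : ℝ) + 1) ^ (-(d / 2 : ℝ))| ≤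
        ε / (8 * N) := by
    have : ∀ K : ℕ, ∃ t₂ η₂ : ℝ, 1 ≤ t₂ ∧ 0 < η₂ ∧ ∀ (L : ℕ) [NeZero L] (t : ℝ), t₂ ≤ t →
        t ^ (d / 2 : ℝ) ≤ η₂ * (L : ℝ) ^ d → ∀ x : Fin d → ZMod L, ∀ j < K,
        |t ^ (d / 2 : ℝ) * pk t (j + 1) x - hkc d * ((j : ℝ) + 1) ^ (-(d / 2 : ℝ))| ≤
          ε / (8 * N) := by
      intro K
      induction K with
      | zero =>
        exact ⟨1, 1, le_rfl, one_pos, fun L _ t _ _ x j hj => absurd hj (by omega)⟩
      | succ K ih =>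
        obtain ⟨a1, b1, ha1, hb1, f1⟩ := ih
        obtain ⟨a2, b2, ha2, hb2, f2⟩ := fin_loc d hd K (ε / (8 * N)) (by positivity)
        refine ⟨max a1 a2, min b1 b2, ha1.trans (le_max_left _ _), lt_min hb1 hb2,
          fun L _ t ht hnt x j hj => ?_⟩
        have hLd : (0 : ℝ) ≤ (L : ℝ) ^ d := by positivity
        rcases Nat.lt_succ_iff_lt_or_eq.1 hj with hj' | hj'
        · exact f1 L t ((le_max_left _ _).trans ht)
            (hnt.trans (mul_le_mul_of_nonneg_right (min_le_left _ _) hLd)) x j hj'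
        · rw [hj']
          exact f2 L t ((le_max_right _ _).trans ht)
            (hnt.trans (mul_le_mul_of_nonneg_right (min_le_right _ _) hLd)) x
    exact this N
  obtain ⟨t₂, η₂, ht₂, hη₂, h2⟩ := hloc
  refine ⟨max t₁ t₂, min (η₁ / N) η₂, ht₁.trans (le_max_left _ _), by positivity,
    fun L _ t n ht hn hnt hcase x => ?_⟩
  have hta : t₁ ≤ t := (le_max_left _ _).trans ht
  have htb : t₂ ≤ t := (le_max_right _ _).trans ht
  have ht01 : 1 ≤ t := ht₁.trans hta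
  have ht00 : 0 < t := by linarith
  have hn1 : (1 : ℝ) ≤ n := by exact_mod_cast hn
  have hT : 0 < t ^ (d / 2 : ℝ) := by positivity
  have hLd : (0 : ℝ) ≤ (L : ℝ) ^ d := by positivity
  have hT1 : t ^ (d / 2 : ℝ) ≤ n * t ^ (d / 2 : ℝ) := le_mul_of_one_le_left hT.le hn1
  have hw2 : t ^ (d / 2 : ℝ) ≤ η₂ * (L : ℝ) ^ d :=
    hT1.trans (hnt.trans (mul_le_mul_of_nonneg_right (min_le_right _ _) hLd))
  have hw1 : n * t ^ (d / 2 : ℝ) ≤ η₁ / N * (L : ℝ) ^ d :=
    hnt.trans (mul_le_mul_of_nonneg_right (min_le_left _ _) hLd)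
  have hw1' : n * t ^ (d / 2 : ℝ) ≤ η₁ * (L : ℝ) ^ d := by
    refine hw1.trans (mul_le_mul_of_nonneg_right ?_ hLd)
    exact div_le_self hη₁.le hNr
  have hsmall : ∑ j ∈ Finset.range N, |t ^ (d / 2 : ℝ) * pk t (j + 1) x -
      hkc d * ((j : ℝ) + 1) ^ (-(d / 2 : ℝ))| ≤ ε / 8 := by
    calc ∑ j ∈ Finset.range N, |t ^ (d / 2 : ℝ) * pk t (j + 1) x -
          hkc d * ((j : ℝ) + 1) ^ (-(d / 2 : ℝ))| ≤ ∑ _j ∈ Finset.range N, ε / (8 * N) :=
          Finset.sum_le_sum fun j hj => h2 L t htb hw2 x j (Finset.mem_range.1 hj)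
      _ = ε / 8 := by
          rw [Finset.sum_const, Finset.card_range, nsmul_eq_mul]
          field_simp
  rcases le_or_gt n N with hnN | hnN
  · refine (Finset.sum_le_sum_of_subset_of_nonneg (Finset.range_mono hnN)
      fun j _ _ => abs_nonneg _).trans (hsmall.trans (by linarith))
  · have hcase' : (Real.log L) ^ m ≤ t ∨ (n : ℝ) ≤ Real.exp (t ^ (1 / (2 * m) : ℝ)) := by
      rcases hcase with hc | hc
      · exact Or.inr hc
      · left
        have hLpos : 1 ≤ L := Nat.pos_of_ne_zero (NeZero.ne L)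
        have hLr : (1 : ℝ) ≤ L := by exact_mod_cast hLpos
        have h3 : Real.log L ≤ t ^ (1 / (2 * m) : ℝ) :=
          (Real.log_le_iff_le_exp (by linarith)).2 hc
        calc (Real.log L) ^ m ≤ (t ^ (1 / (2 * m) : ℝ)) ^ m :=
              pow_le_pow_left₀ (Real.log_nonneg hLr) h3 m
          _ = t ^ (1 / 2 : ℝ) := by
              rw [← Real.rpow_natCast, ← Real.rpow_mul ht00.le]
              congr 1
              field_simp
          _ ≤ t ^ (1 : ℝ) := Real.rpow_le_rpow_of_exponent_le ht01 (by norm_num)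
          _ = t := Real.rpow_one t
    have hcaseN : (Real.log L) ^ m ≤ t ∨ (N : ℝ) ≤ Real.exp (t ^ (1 / (2 * m) : ℝ)) := by
      rcases hcase' with hc | hc
      · exact Or.inl hc
      · right
        exact le_trans (by exact_mod_cast hnN.le) hc
    have a1 := h1 L t n hta (by omega) hw1' hcase' x
    have a2 := h1 L t N hta (by omega) (by
      refine le_trans ?_ hw1'
      exact mul_le_mul_of_nonneg_right (by exact_mod_cast hnN.le) hT.le) hcaseN x
    have e0 : ∀ K : ℕ, ∑ j ∈ Finset.range K, pk t (j + 1) x = cl t K x - cl t 0 x := by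
      intro K
      rw [← Finset.sum_range_sub (fun j => cl t j x)]
      exact Finset.sum_congr rfl fun j _ => pk_eq_cl t j x
    have hsplit : ∀ f : ℕ → ℝ, ∑ j ∈ Finset.range n, f j =
        ∑ j ∈ Finset.range N, f j + ∑ j ∈ Finset.Ico N n, f j := fun f =>
      (Finset.sum_range_add_sum_Ico f hnN.le).symm
    have hpk0 : ∀ j, 0 ≤ pk t (j + 1) x := by
      intro j
      rw [pk_eq_cl]
      linarith [cl_mono ht00.le (Nat.le_succ j) x]
    have f1 : ∑ j ∈ Finset.Ico N n, |t ^ (d / 2 : ℝ) * pk t (j + 1) x -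
        hkc d * ((j : ℝ) + 1) ^ (-(d / 2 : ℝ))| ≤
        t ^ (d / 2 : ℝ) * ∑ j ∈ Finset.Ico N n, pk t (j + 1) x +
        hkc d * ∑ j ∈ Finset.Ico N n, ((j : ℝ) + 1) ^ (-(d / 2 : ℝ)) := by
      rw [Finset.mul_sum, Finset.mul_sum, ← Finset.sum_add_distrib]
      refine Finset.sum_le_sum fun j _ => ?_
      have b1 := mul_nonneg hT.le (hpk0 j)
      have b2 : 0 ≤ hkc d * ((j : ℝ) + 1) ^ (-(d / 2 : ℝ)) := by positivity
      rw [abs_le]
      constructor <;> linarith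
    have f2 : ∑ j ∈ Finset.Ico N n, pk t (j + 1) x = cl t n x - cl t N x := by
      have g1 := hsplit (fun j => pk t (j + 1) x)
      rw [e0 n, e0 N] at g1
      linarith
    have f3 : ∑ j ∈ Finset.Ico N n, ((j : ℝ) + 1) ^ (-(d / 2 : ℝ)) ≤ tl d N := by
      have g1 := (summable_nat_add_iff N).2 (tl_summable d hd)
      rw [Finset.sum_Ico_eq_sum_range]
      have g2 : ∀ k : ℕ, (((N + k : ℕ) : ℝ) + 1) ^ (-(d / 2 : ℝ)) =
          (((k + N : ℕ) : ℝ) + 1) ^ (-(d / 2 : ℝ)) := fun k => by rw [Nat.add_comm]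
      simp_rw [g2]
      exact g1.sum_le_tsum _ fun k _ => by positivity
    have f4 : hkc d * ∑ j ∈ Finset.Ico N n, ((j : ℝ) + 1) ^ (-(d / 2 : ℝ)) ≤ ε / 8 :=
      (mul_le_mul_of_nonneg_left f3 hk.le).trans htl.le
    rw [f2, mul_sub] at f1
    rw [hsplit]
    rw [abs_le] at a1 a2
    linarith [a1.1, a1.2, a2.1, a2.2]

/-- THE MASS OF THE LONGEST CYCLES -/
theorem bl_mass (d : ℕ) (hd : 3 ≤ d) : ∀ ε : ℝ, 0 < ε → ∃ t₀ : ℝ, ∀ t : ℝ, t₀ ≤ t → ∀ k : ℕ,
    ∃ L₀ : ℕ, ∀ (L : ℕ) [NeZero L], L₀ ≤ L →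
    ∑ i ∈ Finset.range k, stirExp (nnRate d L) t (fun g => (longest g i : ℝ) / (L : ℝ) ^ d) ≤
      1 - (hkc d * zt d - ε) * t ^ (-(d / 2 : ℝ)) := by
  classical
  intro ε hε
  obtain ⟨m, hm, h⟩ := fin_den d hd
  have hm0 : (0 : ℝ) < m := by exact_mod_cast hm
  obtain ⟨t₁, η, n₀, ht₁, hη, hn₀, h1⟩ := h (ε / 2) (by positivity)
  have hlim : Tendsto (fun t : ℝ => Real.exp (t ^ (1 / (2 * m) : ℝ))) atTop atTop :=
    Real.tendsto_exp_atTop.comp (tendsto_rpow_atTop (by positivity))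
  obtain ⟨t₃, ht₃⟩ := eventually_atTop.1 (hlim.eventually_ge_atTop ((n₀ : ℝ)))
  refine ⟨max t₁ t₃, fun t ht k => ?_⟩
  have hta : t₁ ≤ t := (le_max_left _ _).trans ht
  have htc : t₃ ≤ t := (le_max_right _ _).trans ht
  have ht01 : 1 ≤ t := ht₁.trans hta
  have ht00 : 0 < t := by linarith
  obtain ⟨T, hTd⟩ : ∃ T : ℝ, T = t ^ (d / 2 : ℝ) := ⟨_, rfl⟩
  have hT : 0 < T := by rw [hTd]; positivity
  have hTi : t ^ (-(d / 2 : ℝ)) = 1 / T := by rw [hTd, Real.rpow_neg ht00.le, one_div]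
  obtain ⟨A, hA⟩ := exists_nat_gt (n₀ * T / η + 2 * k * n₀ * T / ε)
  refine ⟨A + 1, fun L _ hL => ?_⟩
  have hLpos : 1 ≤ L := Nat.pos_of_ne_zero (NeZero.ne L)
  have hLr : (1 : ℝ) ≤ L := by exact_mod_cast hLpos
  have hLd : (0 : ℝ) < (L : ℝ) ^ d := by positivity
  have hLA : (A : ℝ) ≤ (L : ℝ) ^ d := by
    have h2 : (A : ℝ) ≤ L := by exact_mod_cast (by omega : A ≤ L)
    exact h2.trans (le_self_pow₀ hLr (by omega))
  have hx1 : 0 ≤ n₀ * T / η := by positivity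
  have hx2 : 0 ≤ 2 * k * n₀ * T / ε := by positivity
  have c1 : n₀ * T ≤ η * (L : ℝ) ^ d := by
    have : n₀ * T / η ≤ (L : ℝ) ^ d := by linarith
    rw [div_le_iff₀ hη] at this
    linarith
  have c2 : k * n₀ * T ≤ ε / 2 * (L : ℝ) ^ d := by
    have : 2 * k * n₀ * T / ε ≤ (L : ℝ) ^ d := by linarith
    rw [div_le_iff₀ hε] at this
    linarith
  have hden := fun x => h1 L t n₀ hta le_rfl (by rw [← hTd]; exact c1) (Or.inr (ht₃ t htc)) x
  rw [← hTd] at hden
  have hcard : (Fintype.card (Fin d → ZMod L) : ℝ) = (L : ℝ) ^ d := by rw [lc_vol]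
  -- the mean
  have hpt : ∀ g : Perm (Fin d → ZMod L), ∑ i ∈ Finset.range k, (longest g i : ℝ) / (L : ℝ) ^ d ≤
      (1 + k * n₀ / (L : ℝ) ^ d) - (1 / (L : ℝ) ^ d) *
        (∑ x, if cycleLen g x ≤ n₀ then (1 : ℝ) else 0) := by
    intro g
    have h2 := top_le g n₀ k
    rw [hcard] at h2
    rw [← Finset.sum_div, div_le_iff₀ hLd]
    refine h2.trans (le_of_eq ?_)
    field_simp
    ring
  have hsum : ∑ i ∈ Finset.range k, stirExp (nnRate d L) t
      (fun g => (longest g i : ℝ) / (L : ℝ) ^ d) ≤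
      (1 + k * n₀ / (L : ℝ) ^ d) - (1 / (L : ℝ) ^ d) * ∑ x : Fin d → ZMod L, cl t n₀ x := by
    rw [← stir_sum]
    refine (stirExp_mono nn_nonneg ht00.le _ _ hpt).trans (le_of_eq ?_)
    rw [stir_sub, exp_const, stir_smul, stir_sum]
    congr 2
    refine Finset.sum_congr rfl fun x _ => ?_
    unfold cl
    congr 1
    funext g
    rw [cycleLen_eq]
  refine hsum.trans ?_
  have h3 : (L : ℝ) ^ d * ((hkc d * zt d - ε / 2) / T) ≤ ∑ x : Fin d → ZMod L, cl t n₀ x := by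
    calc (L : ℝ) ^ d * ((hkc d * zt d - ε / 2) / T) =
          ∑ _x : Fin d → ZMod L, (hkc d * zt d - ε / 2) / T := by
          rw [Finset.sum_const, Finset.card_univ, nsmul_eq_mul, hcard]
      _ ≤ _ := by
          refine Finset.sum_le_sum fun x _ => ?_
          rw [div_le_iff₀ hT]
          have := (abs_le.1 (hden x)).1
          linarith
  have h4 : (hkc d * zt d - ε / 2) / T ≤ (1 / (L : ℝ) ^ d) * ∑ x : Fin d → ZMod L, cl t n₀ x := by
    rw [one_div, ← div_eq_inv_mul, le_div_iff₀ hLd]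
    linarith
  have h5 : k * n₀ / (L : ℝ) ^ d ≤ (ε / 2) / T := by
    rw [div_le_div_iff₀ hLd hT]
    exact c2
  rw [hTi]
  have h6 : (hkc d * zt d - ε) * (1 / T) = (hkc d * zt d - ε / 2) / T - (ε / 2) / T := by
    field_simp
    ring
  rw [h6]
  linarith

end Pool.Agent.U153
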