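import Mathlib

/-!
# Arithmetic for the statement LAM of the project LC
-/

set_option autoImplicit false

namespace Pool.Agent.U153

/-- arithmetic in LAM -/
theorem lc_arith {d : ℕ} (hd : 3 ≤ d) {Cf ε y η : ℝ} (hCf : 1 ≤ Cf) (hε : 0 < ε) (hy : 1 ≤ y)
    (hη : 0 < η) {K Z lam ρ r₁ r D h Y : ℕ} (hK : (K : ℝ) = y ^ 8) (hZ : 1 ≤ Z) (hlam : lam ≤ Z)
    (hρ : ρ ≤ Z) (hr₁ : d ≤ r₁) (h9 : y ^ 9 ≤ (2 * (r₁ : ℝ)) ^ d) (hr₁y : (r₁ : ℝ) ≤ y ^ 4 * Z)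
    (hD : (D : ℝ) ≤ Cf * y ^ 4 * (Z + Cf) + 1) (hr : (r : ℝ) ≤ y ^ 4)
    (hrh : y ^ 4 ≤ 2 * h * r) (hh : 1 ≤ h)
    (hbig : (1 + 48 * d / ε) * (2 * (4 * d * (d + Cf + Cf ^ 2 + 3) + 3)) ^ d * 2 ^ d *
      (Z : ℝ) ^ (d + 2) * (h : ℝ) ^ d / η ≤ y)
    (hY : Y = lam * (2 * ((d * r + D + ρ + 1) / (r₁ / d)) + 3) ^ d) :
    (Y : ℝ) + (8 * ρ + 16 * d) * (K * (Y + 1)) / ε ≤ η * (r : ℝ) ^ d := by
  have hd0 : (3 : ℝ) ≤ d := by exact_mod_cast hd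
  have hZ0 : (1 : ℝ) ≤ Z := by exact_mod_cast hZ
  have hh0 : (1 : ℝ) ≤ h := by exact_mod_cast hh
  have hy4 : (1 : ℝ) ≤ y ^ 4 := one_le_pow₀ hy
  have hr₁0 : (0 : ℝ) < r₁ := by
    have : 0 < r₁ := by omega
    exact_mod_cast this
  obtain ⟨m, hm⟩ : ∃ m, m = r₁ / d := ⟨_, rfl⟩
  have hm1 : 1 ≤ m := by
    rw [hm]
    exact (Nat.le_div_iff_mul_le (by omega)).2 (by omega)
  have hm2 : (r₁ : ℝ) ≤ 2 * d * m := by
    have h1 : r₁ < r₁ / d * d + d := Nat.lt_div_mul_add (by omega)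
    rw [← hm] at h1
    have h2 : r₁ ≤ 2 * d * m := by nlinarith
    exact_mod_cast h2
  have hm0 : (0 : ℝ) < m := by exact_mod_cast hm1
  rw [← hm] at hY
  obtain ⟨R', hR'⟩ : ∃ R', R' = d * r + D + ρ + 1 := ⟨_, rfl⟩
  rw [← hR'] at hY
  obtain ⟨c₁, hc₁⟩ : ∃ c₁ : ℝ, c₁ = d + Cf + Cf ^ 2 + 3 := ⟨_, rfl⟩
  obtain ⟨c₂, hc₂⟩ : ∃ c₂ : ℝ, c₂ = 4 * d * c₁ + 3 := ⟨_, rfl⟩
  rw [← hc₁, ← hc₂] at hbig
  have hc₁0 : 0 < c₁ := by rw [hc₁]; positivity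
  have hc₂1 : 1 ≤ c₂ := by
    rw [hc₂]
    have : 0 ≤ 4 * (d : ℝ) * c₁ := by positivity
    linarith
  have hR1 : (R' : ℝ) ≤ c₁ * (y ^ 4 * Z) := by
    rw [hR', hc₁]
    push_cast
    have hρ' : (ρ : ℝ) ≤ Z := by exact_mod_cast hρ
    have e1 : (d : ℝ) * r ≤ d * (y ^ 4 * Z) := by
      refine mul_le_mul_of_nonneg_left (hr.trans ?_) (by positivity)
      exact le_mul_of_one_le_right (by positivity) hZ0
    have e2 : Cf * y ^ 4 * (Z + Cf) ≤ (Cf + Cf ^ 2) * (y ^ 4 * Z) := by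
      have : Cf ^ 2 * y ^ 4 ≤ Cf ^ 2 * (y ^ 4 * Z) :=
        mul_le_mul_of_nonneg_left (le_mul_of_one_le_right (by positivity) hZ0) (by positivity)
      nlinarith
    have e3 : (Z : ℝ) ≤ y ^ 4 * Z := le_mul_of_one_le_left (by positivity) hy4
    have e4 : (1 : ℝ) ≤ y ^ 4 * Z := hZ0.trans e3
    nlinarith
  have hX : ((2 * (R' / m) + 3 : ℕ) : ℝ) ≤ c₂ * (y ^ 4 * Z) / r₁ := by
    push_cast
    have e1 : ((R' / m : ℕ) : ℝ) ≤ (R' : ℝ) / m := Nat.cast_div_le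
    have e2 : (R' : ℝ) / m ≤ 2 * d * c₁ * (y ^ 4 * Z) / r₁ := by
      rw [div_le_div_iff₀ hm0 hr₁0]
      calc (R' : ℝ) * r₁ ≤ (c₁ * (y ^ 4 * Z)) * (2 * d * m) :=
            mul_le_mul hR1 hm2 hr₁0.le (by positivity)
        _ = _ := by ring
    have e3 : (3 : ℝ) ≤ 3 * (y ^ 4 * Z) / r₁ := by
      rw [le_div_iff₀ hr₁0]
      linarith
    rw [hc₂]
    calc 2 * ((R' / m : ℕ) : ℝ) + 3 ≤ 2 * (2 * d * c₁ * (y ^ 4 * Z) / r₁) +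
          3 * (y ^ 4 * Z) / r₁ := by linarith
      _ = _ := by ring
  have hy9 : (0 : ℝ) < y ^ 9 := by positivity
  obtain ⟨W, hW⟩ : ∃ W : ℝ, W = (2 * c₂) ^ d * (Z : ℝ) ^ (d + 1) * y ^ (4 * d) := ⟨_, rfl⟩
  have hW0 : 0 < W := by rw [hW]; positivity
  have hYW : (Y : ℝ) ≤ W / y ^ 9 := by
    rw [hY]
    rw [Nat.cast_mul, Nat.cast_pow]
    have hlam' : (lam : ℝ) ≤ Z := by exact_mod_cast hlam
    have e1 : (((2 * (R' / m) + 3 : ℕ) : ℝ)) ^ d ≤ (c₂ * (y ^ 4 * Z) / r₁) ^ d :=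
      pow_le_pow_left₀ (by positivity) hX d
    have e2 : (c₂ * (y ^ 4 * Z) / r₁) ^ d ≤ (2 * c₂) ^ d * (Z : ℝ) ^ d * y ^ (4 * d) / y ^ 9 := by
      rw [div_pow, div_le_div_iff₀ (by positivity) hy9]
      calc (c₂ * (y ^ 4 * Z)) ^ d * y ^ 9 ≤ (c₂ * (y ^ 4 * Z)) ^ d * (2 * (r₁ : ℝ)) ^ d :=
            mul_le_mul_of_nonneg_left h9 (by positivity)
        _ = _ := by
            rw [mul_pow, mul_pow, mul_pow, mul_pow, ← pow_mul]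
            ring
    calc (lam : ℝ) * (((2 * (R' / m) + 3 : ℕ) : ℝ)) ^ d
        ≤ Z * ((2 * c₂) ^ d * (Z : ℝ) ^ d * y ^ (4 * d) / y ^ 9) :=
          mul_le_mul hlam' (e1.trans e2) (by positivity) (by positivity)
      _ = _ := by rw [hW]; ring
  have hWy : y ^ 9 ≤ W := by
    have e1 : y ^ 9 ≤ y ^ (4 * d) := pow_le_pow_right₀ hy (by omega)
    have e2 : 1 ≤ (2 * c₂) ^ d * (Z : ℝ) ^ (d + 1) := by
      have a1 : 1 ≤ (2 * c₂) ^ d := one_le_pow₀ (by linarith)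
      have a2 : 1 ≤ (Z : ℝ) ^ (d + 1) := one_le_pow₀ hZ0
      exact one_le_mul_of_one_le_of_one_le a1 a2
    rw [hW]
    calc y ^ 9 ≤ y ^ (4 * d) := e1
      _ ≤ _ := le_mul_of_one_le_left (by positivity) e2
  have hKY : (K : ℝ) * (Y + 1) ≤ 2 * W / y := by
    rw [hK, le_div_iff₀ (by positivity)]
    have e1 : (Y : ℝ) * y ^ 9 ≤ W := (le_div_iff₀ hy9).1 hYW
    calc y ^ 8 * (Y + 1) * y = Y * y ^ 9 + y ^ 9 := by ring
      _ ≤ 2 * W := by linarith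
  have hcoef : (8 * ρ + 16 * d : ℝ) ≤ 24 * d * Z := by
    have hρ' : (ρ : ℝ) ≤ Z := by exact_mod_cast hρ
    nlinarith
  have hsum : (Y : ℝ) + (8 * ρ + 16 * d) * (K * (Y + 1)) / ε ≤
      (1 + 48 * d / ε) * (Z * W / y) := by
    have e1 : (Y : ℝ) ≤ Z * W / y := by
      refine hYW.trans ?_
      rw [div_le_div_iff₀ hy9 (by positivity)]
      have a1 : y ≤ y ^ 9 := le_self_pow₀ hy (by norm_num)
      calc W * y ≤ W * y ^ 9 := mul_le_mul_of_nonneg_left a1 hW0.le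
        _ ≤ Z * W * y ^ 9 := by
            have : W ≤ Z * W := le_mul_of_one_le_left hW0.le hZ0
            exact mul_le_mul_of_nonneg_right this hy9.le
    have e2 : (8 * ρ + 16 * d) * (K * (Y + 1)) / ε ≤ 24 * d * Z * (2 * W / y) / ε := by
      have : 0 ≤ (K : ℝ) * (Y + 1) := by positivity
      gcongr
    calc _ ≤ Z * W / y + 24 * d * Z * (2 * W / y) / ε := add_le_add e1 e2
      _ = _ := by ring
  refine hsum.trans ?_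
  have hrd : y ^ (4 * d) ≤ (2 * (h : ℝ)) ^ d * (r : ℝ) ^ d := by
    rw [← mul_pow, pow_mul]
    exact pow_le_pow_left₀ (by positivity) hrh d
  have hbig2 : (1 + 48 * d / ε) * (2 * c₂) ^ d * (Z : ℝ) ^ (d + 2) * (2 * (h : ℝ)) ^ d ≤ η * y := by
    rw [div_le_iff₀ hη] at hbig
    calc _ = (1 + 48 * d / ε) * (2 * c₂) ^ d * 2 ^ d * (Z : ℝ) ^ (d + 2) * (h : ℝ) ^ d := by
          rw [mul_pow 2 (h : ℝ)]
          ring
      _ ≤ y * η := hbig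
      _ = _ := by ring
  calc (1 + 48 * d / ε) * (Z * W / y)
      = (1 + 48 * d / ε) * (2 * c₂) ^ d * (Z : ℝ) ^ (d + 2) * y ^ (4 * d) / y := by
        rw [hW]
        ring
    _ ≤ (1 + 48 * d / ε) * (2 * c₂) ^ d * (Z : ℝ) ^ (d + 2) * ((2 * (h : ℝ)) ^ d * (r : ℝ) ^ d) /
        y := by
        gcongr
    _ = ((1 + 48 * d / ε) * (2 * c₂) ^ d * (Z : ℝ) ^ (d + 2) * (2 * (h : ℝ)) ^ d) *
        (r : ℝ) ^ d / y := by ring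
    _ ≤ (η * y) * (r : ℝ) ^ d / y := by gcongr
    _ = _ := by
        field_simp

end Pool.Agent.U153
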