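import Pool.Agent.Q292.LC.Stm7
import Pool.Agent.Q53.LC.Poi

/-!
# Covering of a ball by small balls (statement CNT of the project LC)
-/

set_option autoImplicit false

namespace Pool.Agent.U153

open Finset Equiv Matrix Q292.LC

/-- CNT -/
theorem lc_cnt : S_CNT := by
  intro d L _ hd hL S r₁ R lam hr hS z
  obtain ⟨m, hm⟩ : ∃ m, m = r₁ / d := ⟨_, rfl⟩
  have hm1 : 1 ≤ m := by
    rw [hm]
    exact (Nat.le_div_iff_mul_le (by omega)).2 (by omega)
  have hmd : d * m ≤ r₁ := by
    rw [hm]
    exact Nat.mul_div_le r₁ d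
  rw [← hm]
  obtain ⟨N, hN⟩ : ∃ N, N = R / m := ⟨_, rfl⟩
  rw [← hN]
  obtain ⟨c, hc⟩ : ∃ c : (Fin d → Fin (2 * N + 3)) → (Fin d → ZMod L), c = fun κ i =>
    z i + (((m : ℤ) * (((κ i : ℕ) : ℤ) - N - 1) : ℤ) : ZMod L) := ⟨_, rfl⟩
  have hcov : S ∩ bal z R ⊆ (Finset.univ : Finset (Fin d → Fin (2 * N + 3))).biUnion fun κ =>
      S ∩ bal (c κ) r₁ := by
    intro x hx
    rw [Finset.mem_inter] at hx
    have hxR : td z x ≤ R := by
      have := hx.2
      unfold Q292.LC.bal at this
      rw [Finset.mem_filter] at this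
      exact this.2
    obtain ⟨v, hv⟩ : ∃ v : Fin d → ℤ, v = fun i => -(z i - x i).valMinAbs := ⟨_, rfl⟩
    have hvR : ∀ i, (v i).natAbs ≤ R := by
      intro i
      rw [hv]
      dsimp only
      rw [Int.natAbs_neg]
      refine le_trans ?_ hxR
      unfold Q292.LC.td
      exact Finset.single_le_sum (f := fun i => (z i - x i).valMinAbs.natAbs)
        (fun _ _ => Nat.zero_le _) (Finset.mem_univ i)
    have hvx : ∀ i, ((v i : ℤ) : ZMod L) = x i - z i := by
      intro i
      rw [hv]
      dsimp only
      rw [Int.cast_neg, ZMod.coe_valMinAbs]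
      ring
    have hm0 : (0 : ℤ) < m := by exact_mod_cast hm1
    have hRm : R < (N + 1) * m := by
      rw [hN]
      have := Nat.lt_div_mul_add (a := R) (b := m) (by omega)
      calc R < R / m * m + m := this
        _ = _ := by ring
    have hk1 : ∀ i, -(N : ℤ) - 1 ≤ v i / m := by
      intro i
      rw [Int.le_ediv_iff_mul_le hm0]
      have h1 := hvR i
      have h2 : -(R : ℤ) ≤ v i := by omega
      have h3 : ((R : ℕ) : ℤ) < ((N : ℤ) + 1) * m := by exact_mod_cast hRm
      nlinarith
    have hk2 : ∀ i, v i / m ≤ N := by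
      intro i
      have h1 := hvR i
      have h2 : v i ≤ (R : ℤ) := by omega
      have h3 : v i / m ≤ (R : ℤ) / m := Int.ediv_le_ediv hm0 h2
      rw [hN]
      push_cast
      exact h3
    rw [Finset.mem_biUnion]
    have hlt : ∀ i, (v i / m + N + 1).toNat < 2 * N + 3 := by
      intro i
      have := hk1 i
      have := hk2 i
      omega
    refine ⟨fun i => ⟨(v i / m + N + 1).toNat, hlt i⟩, Finset.mem_univ _, ?_⟩
    rw [Finset.mem_inter]
    refine ⟨hx.1, ?_⟩
    unfold Q292.LC.bal
    rw [Finset.mem_filter]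
    refine ⟨Finset.mem_univ _, ?_⟩
    refine le_trans ?_ hmd
    unfold Q292.LC.td
    calc ∑ i, (c (fun i => ⟨(v i / m + N + 1).toNat, hlt i⟩) i - x i).valMinAbs.natAbs
        ≤ ∑ _i : Fin d, m := by
          refine Finset.sum_le_sum fun i _ => ?_
          have h1 : ((-(v i % m) : ℤ) : ZMod L) =
              c (fun i => ⟨(v i / m + N + 1).toNat, hlt i⟩) i - x i := by
            have h2 : (((v i / m + N + 1).toNat : ℕ) : ℤ) = v i / m + N + 1 := by
              have := hk1 i
              omega
            rw [hc]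
            dsimp only
            rw [h2]
            have h3 : (m : ℤ) * (v i / m + N + 1 - N - 1) = v i - v i % m := by
              have := Int.mul_ediv_add_emod (v i) m
              linarith
            rw [h3]
            push_cast
            rw [hvx i]
            ring
          refine (Pool.Agent.Q53.LC.natAbs_le_of_cast _ _ h1).trans ?_
          have h4 := Int.emod_nonneg (v i) hm0.ne'
          have h5 := Int.emod_lt_of_pos (v i) hm0
          omega
      _ = d * m := by rw [Finset.sum_const, Finset.card_univ, Fintype.card_fin, smul_eq_mul]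
  calc (S ∩ bal z R).card ≤ _ := Finset.card_le_card hcov
    _ ≤ ∑ κ : Fin d → Fin (2 * N + 3), (S ∩ bal (c κ) r₁).card := Finset.card_biUnion_le
    _ ≤ ∑ _κ : Fin d → Fin (2 * N + 3), lam := Finset.sum_le_sum fun κ _ => hS _
    _ = lam * (2 * N + 3) ^ d := by
        rw [Finset.sum_const, Finset.card_univ, Fintype.card_fun, Fintype.card_fin,
          Fintype.card_fin, smul_eq_mul, mul_comm]

end Pool.Agent.U153
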