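import Pool.Agent.Q292.LC.Stm7
import Pool.Agent.Q187.LC.Nas
import Pool.Agent.Q53.LC.Poi

/-!
# The mean over a box and the mean over all boxes (statement DYA of the project LC)
-/

set_option autoImplicit false

namespace Pool.Agent.U153

open Finset Equiv Matrix Q292.LC

/-- difference of two means -/
theorem lc_two_means {X : Type} [DecidableEq X] (A B : Finset X) (hA : A.Nonempty)
    (hB : B.Nonempty) (f : X → ℝ) :
    ((∑ x ∈ A, f x) / A.card - (∑ y ∈ B, f y) / B.card) ^ 2 ≤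
      (∑ x ∈ A, ∑ y ∈ B, (f x - f y) ^ 2) / (A.card * B.card) := by
  have ha : (0 : ℝ) < A.card := by exact_mod_cast Finset.card_pos.2 hA
  have hb : (0 : ℝ) < B.card := by exact_mod_cast Finset.card_pos.2 hB
  have h1 : (∑ x ∈ A, f x) / A.card - (∑ y ∈ B, f y) / B.card =
      (∑ p ∈ A ×ˢ B, (f p.1 - f p.2)) / (A.card * B.card) := by
    rw [Finset.sum_sub_distrib, Finset.sum_product, Finset.sum_product]
    simp only [Finset.sum_const, nsmul_eq_mul]
    rw [← Finset.mul_sum]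
    field_simp
  rw [h1, div_pow, div_le_div_iff₀ (by positivity) (by positivity)]
  have h2 := sq_sum_le_card_mul_sum_sq (s := A ×ˢ B) (f := fun p : X × X => f p.1 - f p.2)
  rw [Finset.card_product] at h2
  push_cast at h2
  rw [← Finset.sum_product' (f := fun x y => (f x - f y) ^ 2)]
  have h3 : (0 : ℝ) ≤ (A.card : ℝ) * B.card := by positivity
  calc (∑ p ∈ A ×ˢ B, (f p.1 - f p.2)) ^ 2 * ((A.card : ℝ) * B.card)
      ≤ ((A.card : ℝ) * B.card * ∑ p ∈ A ×ˢ B, (f p.1 - f p.2) ^ 2) * ((A.card : ℝ) * B.card) :=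
        mul_le_mul_of_nonneg_right h2 h3
    _ = _ := by ring

section torus

variable {d L : ℕ} [NeZero L]

/-- the mean of `f` over `box z s \ Dm` -/
noncomputable def bmean (s : ℕ) (Dm : Finset (Fin d → ZMod L)) (f : (Fin d → ZMod L) → ℝ)
    (z : Fin d → ZMod L) : ℝ := (∑ x ∈ box z s \ Dm, f x) / ((box z s \ Dm).card : ℝ)

theorem lc_card_good (z : Fin d → ZMod L) (r M : ℕ) (hr : 1 ≤ r) (hM : M * r ≤ L)
    (Dm : Finset (Fin d → ZMod L)) (hD : ∀ v, 2 * (Dm ∩ box v r).card ≤ r ^ d) :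
    ((M * r : ℕ) : ℝ) ^ d ≤ 2 * ((box z (M * r) \ Dm).card : ℝ) := by
  have h1 := Pool.Agent.Q187.LC.Nas.card_Dm z r M hr Dm hD
  have h2 := Pool.Agent.Q187.LC.Nas.card_box z (M * r) hM
  have h3 := Finset.card_sdiff_add_card_inter (box z (M * r)) Dm
  rw [Finset.inter_comm] at h3
  have h4 : (M * r) ^ d ≤ 2 * (box z (M * r) \ Dm).card := by omega
  exact_mod_cast h4

/-- comparison of the means over a box and over a sub-box of half the side -/
theorem lc_step (C : ℝ) (hC : 1 ≤ C)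
    (hpoi : ∀ (r M : ℕ),
      1 ≤ r → 1 ≤ M → M * r ≤ L → ∀ (z : Fin d → ZMod L) (Dm : Finset (Fin d → ZMod L)),
      (∀ v, 2 * (Dm ∩ box v r).card ≤ r ^ d) → ∀ f : (Fin d → ZMod L) → ℝ,
      ∑ x ∈ box z (M * r) \ Dm, ∑ y ∈ box z (M * r) \ Dm, (f x - f y) ^ 2 ≤
        C * M ^ (d + 2) * ∑ x ∈ box z (M * r) \ Dm, ∑ y ∈ box z (M * r) \ Dm,
          if td x y ≤ 2 * d * r then (f x - f y) ^ 2 else 0)
    (r M : ℕ) (hr : 1 ≤ r) (hM : 1 ≤ M) (hML : 2 * M * r ≤ L)
    (Dm : Finset (Fin d → ZMod L)) (hD : ∀ v, 2 * (Dm ∩ box v r).card ≤ r ^ d)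
    (f : (Fin d → ZMod L) → ℝ) (z z' : Fin d → ZMod L) (hsub : box z' (M * r) ⊆ box z (2 * M * r)) :
    (bmean (M * r) Dm f z' - bmean (2 * M * r) Dm f z) ^ 2 ≤
      16 * C * (M : ℝ) ^ 2 / (M : ℝ) ^ d / (r : ℝ) ^ (2 * d) *
      ∑ x, ∑ y, (if x ∉ Dm ∧ y ∉ Dm ∧ td x y ≤ 2 * d * r then (f x - f y) ^ 2 else 0) := by
  have hML1 : M * r ≤ L := by nlinarith
  have c1 := lc_card_good z' r M hr hML1 Dm hD
  have c2 := lc_card_good z r (2 * M) hr hML Dm hD
  have hMr : (0 : ℝ) < ((M * r : ℕ) : ℝ) ^ d := by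
    have : 0 < M * r := by positivity
    positivity
  have hMr2 : (0 : ℝ) < ((2 * M * r : ℕ) : ℝ) ^ d := by
    have : 0 < 2 * M * r := by positivity
    positivity
  have p1 : (0 : ℝ) < ((box z' (M * r) \ Dm).card : ℝ) := by linarith
  have p2 : (0 : ℝ) < ((box z (2 * M * r) \ Dm).card : ℝ) := by linarith
  have n1 : (box z' (M * r) \ Dm).Nonempty := Finset.card_pos.1 (by exact_mod_cast p1)
  have n2 : (box z (2 * M * r) \ Dm).Nonempty := Finset.card_pos.1 (by exact_mod_cast p2)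
  have h1 := lc_two_means _ _ n1 n2 f
  have h2 : ∑ x ∈ box z' (M * r) \ Dm, ∑ y ∈ box z (2 * M * r) \ Dm, (f x - f y) ^ 2 ≤
      ∑ x ∈ box z (2 * M * r) \ Dm, ∑ y ∈ box z (2 * M * r) \ Dm, (f x - f y) ^ 2 := by
    refine Finset.sum_le_sum_of_subset_of_nonneg (Finset.sdiff_subset_sdiff hsub le_rfl) ?_
    intro x _ _
    exact Finset.sum_nonneg fun y _ => sq_nonneg _
  have h3 := hpoi r (2 * M) hr (by omega) hML z Dm hD f
  have h4 : ∑ x ∈ box z (2 * M * r) \ Dm, ∑ y ∈ box z (2 * M * r) \ Dm,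
      (if td x y ≤ 2 * d * r then (f x - f y) ^ 2 else 0) ≤
      ∑ x, ∑ y, (if x ∉ Dm ∧ y ∉ Dm ∧ td x y ≤ 2 * d * r then (f x - f y) ^ 2 else 0) := by
    calc _ = ∑ x ∈ box z (2 * M * r) \ Dm, ∑ y ∈ box z (2 * M * r) \ Dm,
          (if x ∉ Dm ∧ y ∉ Dm ∧ td x y ≤ 2 * d * r then (f x - f y) ^ 2 else 0) := by
          refine Finset.sum_congr rfl fun x hx => Finset.sum_congr rfl fun y hy => ?_
          have hx2 := (Finset.mem_sdiff.1 hx).2
          have hy2 := (Finset.mem_sdiff.1 hy).2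
          simp only [hx2, hy2, not_false_eq_true, true_and]
      _ ≤ ∑ x, ∑ y ∈ box z (2 * M * r) \ Dm,
          (if x ∉ Dm ∧ y ∉ Dm ∧ td x y ≤ 2 * d * r then (f x - f y) ^ 2 else 0) := by
          refine Finset.sum_le_sum_of_subset_of_nonneg (Finset.subset_univ _) ?_
          intro x _ _
          refine Finset.sum_nonneg fun y _ => ?_
          split_ifs
          · exact sq_nonneg _
          · exact le_rfl
      _ ≤ _ := by
          refine Finset.sum_le_sum fun x _ =>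
            Finset.sum_le_sum_of_subset_of_nonneg (Finset.subset_univ _) ?_
          intro y _ _
          split_ifs
          · exact sq_nonneg _
          · exact le_rfl
  obtain ⟨E, hE⟩ : ∃ E, E = ∑ x, ∑ y,
    (if x ∉ Dm ∧ y ∉ Dm ∧ td x y ≤ 2 * d * r then (f x - f y) ^ 2 else 0) := ⟨_, rfl⟩
  rw [← hE] at h4 ⊢
  have hE0 : 0 ≤ E := by
    rw [hE]
    refine Finset.sum_nonneg fun x _ => Finset.sum_nonneg fun y _ => ?_
    split_ifs
    · exact sq_nonneg _
    · exact le_rfl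
  have h5 : ∑ x ∈ box z' (M * r) \ Dm, ∑ y ∈ box z (2 * M * r) \ Dm, (f x - f y) ^ 2 ≤
      C * ((2 * M : ℕ) : ℝ) ^ (d + 2) * E :=
    h2.trans (h3.trans (mul_le_mul_of_nonneg_left h4 (by positivity)))
  unfold bmean
  calc _ ≤ _ := h1
    _ ≤ (C * ((2 * M : ℕ) : ℝ) ^ (d + 2) * E) /
        (((box z' (M * r) \ Dm).card : ℝ) * ((box z (2 * M * r) \ Dm).card : ℝ)) := by
        gcongr
    _ ≤ (C * ((2 * M : ℕ) : ℝ) ^ (d + 2) * E) /
        ((((M * r : ℕ) : ℝ) ^ d / 2) * (((2 * M * r : ℕ) : ℝ) ^ d / 2)) := by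
        apply div_le_div_of_nonneg_left (by positivity) (by positivity)
        apply mul_le_mul (by linarith) (by linarith) (by positivity) (by positivity)
    _ = _ := by
        push_cast
        have hM0 : (M : ℝ) ≠ 0 := by positivity
        have hr0 : (r : ℝ) ≠ 0 := by positivity
        rw [mul_pow, mul_pow, mul_pow, mul_pow, pow_add (2 : ℝ), pow_add (M : ℝ),
          show (r : ℝ) ^ (2 * d) = (r : ℝ) ^ d * (r : ℝ) ^ d by rw [two_mul, pow_add]]
        field_simp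
        ring

theorem lc_box_sub (z : Fin d → ZMod L) {a b : ℕ} (h : a ≤ b) : box z a ⊆ box z b := by
  intro x hx
  unfold Q292.LC.box at hx ⊢
  rw [Finset.mem_filter] at hx ⊢
  exact ⟨hx.1, fun i => lt_of_lt_of_le (hx.2 i) h⟩

/-- a box at a corner shifted by at most its side is contained in the box of twice the side -/
theorem lc_box_shift (z : Fin d → ZMod L) (s : ℕ) (u : Fin d → ℕ) (hu : ∀ i, u i ≤ s)
    (hs : 2 * s ≤ L) : box (fun i => z i + ((u i : ℕ) : ZMod L)) s ⊆ box z (2 * s) := by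
  intro x hx
  unfold Q292.LC.box at hx ⊢
  rw [Finset.mem_filter] at hx ⊢
  refine ⟨hx.1, fun i => ?_⟩
  have h1 := hx.2 i
  obtain ⟨a, ha⟩ : ∃ a, a = (x i - (z i + ((u i : ℕ) : ZMod L))).val := ⟨_, rfl⟩
  rw [← ha] at h1
  have h2 : x i - z i = ((a + u i : ℕ) : ZMod L) := by
    have : ((a : ℕ) : ZMod L) = x i - (z i + ((u i : ℕ) : ZMod L)) := by
      rw [ha]
      exact ZMod.natCast_zmod_val _
    push_cast
    rw [this]
    ring
  have h3 := hu i
  rw [h2, ZMod.val_natCast_of_lt (by omega)]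
  omega

/-- DYA -/
theorem lc_dya : S_DYA := by
  intro d hd
  obtain ⟨C, hC, hpoi⟩ := Pool.Agent.Q53.LC.poi d (by omega)
  refine ⟨4096 * C, by linarith, ?_⟩
  intro L _ r hr hrL Dm hD f z
  have hpoi' := fun r M h1 h2 h3 z Dm h4 f => hpoi L r M h1 h2 h3 z Dm h4 f
  obtain ⟨E, hE⟩ : ∃ E, E = ∑ x, ∑ y,
    (if x ∉ Dm ∧ y ∉ Dm ∧ td x y ≤ 2 * d * r then (f x - f y) ^ 2 else 0) := ⟨_, rfl⟩
  have hE0 : 0 ≤ E := by
    rw [hE]
    refine Finset.sum_nonneg fun x _ => Finset.sum_nonneg fun y _ => ?_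
    split_ifs
    · exact sq_nonneg _
    · exact le_rfl
  rw [← hE]
  have hr0 : (0 : ℝ) < r := by exact_mod_cast hr
  obtain ⟨Q, hQ⟩ : ∃ Q, Q = Real.sqrt (16 * C / (r : ℝ) ^ (2 * d) * E) := ⟨_, rfl⟩
  have hQ0 : 0 ≤ Q := by rw [hQ]; exact Real.sqrt_nonneg _
  have hQ2 : Q ^ 2 = 16 * C / (r : ℝ) ^ (2 * d) * E := by
    rw [hQ]
    exact Real.sq_sqrt (by positivity)
  -- one step
  have step : ∀ M : ℕ, 1 ≤ M → 2 * M * r ≤ L → ∀ z z' : Fin d → ZMod L,
      box z' (M * r) ⊆ box z (2 * M * r) →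
      (bmean (M * r) Dm f z' - bmean (2 * M * r) Dm f z) ^ 2 ≤ Q ^ 2 / M := by
    intro M hM hML z z' hsub
    have h1 := lc_step C hC hpoi' r M hr hM hML Dm hD f z z' hsub
    rw [← hE] at h1
    refine h1.trans ?_
    rw [hQ2]
    have hM0 : (1 : ℝ) ≤ M := by exact_mod_cast hM
    have h2 : (M : ℝ) ^ 2 / (M : ℝ) ^ d ≤ 1 / M := by
      rw [div_le_div_iff₀ (by positivity) (by positivity)]
      have : (M : ℝ) ^ 3 ≤ (M : ℝ) ^ d := pow_le_pow_right₀ hM0 hd
      nlinarith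
    calc 16 * C * (M : ℝ) ^ 2 / (M : ℝ) ^ d / (r : ℝ) ^ (2 * d) * E
        = (16 * C / (r : ℝ) ^ (2 * d) * E) * ((M : ℝ) ^ 2 / (M : ℝ) ^ d) := by ring
      _ ≤ (16 * C / (r : ℝ) ^ (2 * d) * E) * (1 / M) :=
          mul_le_mul_of_nonneg_left h2 (by positivity)
      _ = _ := by ring
  -- dyadic chain
  have chain : ∀ J : ℕ, 2 ^ J * r ≤ L → ∀ z : Fin d → ZMod L,
      |bmean r Dm f z - bmean (2 ^ J * r) Dm f z| ≤ 4 * Q * (1 - (3 / 4 : ℝ) ^ J) := by
    intro J
    induction J with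
    | zero =>
      intro _ z
      simp
    | succ J ih =>
      intro hJ z
      have hJ2 : 2 * 2 ^ J * r ≤ L := by rwa [pow_succ, mul_comm (2 ^ J) 2] at hJ
      have hJ1 : 2 ^ J * r ≤ L := by
        refine le_trans ?_ hJ2
        nlinarith [Nat.zero_le (2 ^ J * r)]
      have h1 := ih hJ1 z
      have h2 := step (2 ^ J) Nat.one_le_two_pow hJ2 z z
        (lc_box_sub z (by nlinarith [Nat.zero_le (2 ^ J * r)]))
      have h3 : |bmean (2 ^ J * r) Dm f z - bmean (2 * 2 ^ J * r) Dm f z| ≤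
          Q * (3 / 4 : ℝ) ^ J := by
        refine abs_le_of_sq_le_sq ?_ (by positivity)
        refine h2.trans ?_
        rw [mul_pow, div_eq_mul_inv]
        refine mul_le_mul_of_nonneg_left ?_ (sq_nonneg _)
        rw [← pow_mul, mul_comm J 2, pow_mul]
        push_cast
        rw [← inv_pow]
        refine pow_le_pow_left₀ (by norm_num) (by norm_num) _
      have h4 : 2 ^ (J + 1) * r = 2 * 2 ^ J * r := by ring
      rw [h4]
      have h5 := abs_sub_le (bmean r Dm f z) (bmean (2 ^ J * r) Dm f z)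
        (bmean (2 * 2 ^ J * r) Dm f z)
      have h6 : (0 : ℝ) ≤ (3 / 4 : ℝ) ^ J := by positivity
      rw [pow_succ]
      nlinarith
  -- top scale
  obtain ⟨J, hJ1, hJ2⟩ : ∃ J : ℕ, 2 ^ (J + 1) * r ≤ L ∧ L < 2 ^ (J + 2) * r := by
    have hL0 : L / r ≠ 0 := by
      have : 4 ≤ L / r := (Nat.le_div_iff_mul_le (by omega)).2 hrL
      omega
    have h4 : 4 ≤ L / r := (Nat.le_div_iff_mul_le (by omega)).2 hrL
    have hl1 : 2 ≤ Nat.log 2 (L / r) := by
      have : Nat.log 2 4 ≤ Nat.log 2 (L / r) := Nat.log_mono_right h4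
      have h5 : Nat.log 2 4 = 2 := by
        rw [show (4 : ℕ) = 2 ^ 2 by norm_num, Nat.log_pow (by norm_num)]
      omega
    refine ⟨Nat.log 2 (L / r) - 1, ?_, ?_⟩
    · have h5 : Nat.log 2 (L / r) - 1 + 1 = Nat.log 2 (L / r) := by omega
      rw [h5]
      have h6 := Nat.pow_log_le_self 2 hL0
      calc 2 ^ Nat.log 2 (L / r) * r ≤ (L / r) * r := Nat.mul_le_mul_right _ h6
        _ ≤ L := Nat.div_mul_le_self _ _
    · have h5 : Nat.log 2 (L / r) - 1 + 2 = Nat.log 2 (L / r) + 1 := by omega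
      rw [h5]
      have h6 := Nat.lt_pow_succ_log_self (b := 2) (by norm_num) (L / r)
      have h7 : L / r + 1 ≤ 2 ^ (Nat.log 2 (L / r) + 1) := h6
      have h8 := Nat.lt_div_mul_add (a := L) (b := r) (by omega)
      calc L < L / r * r + r := h8
        _ = (L / r + 1) * r := by ring
        _ ≤ _ := Nat.mul_le_mul_right _ h7
  obtain ⟨m, hm⟩ : ∃ m, m = 2 ^ J := ⟨_, rfl⟩
  have hm1 : 1 ≤ m := by rw [hm]; exact Nat.one_le_two_pow
  have hJ1' : 2 * m * r ≤ L := by
    rw [hm]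
    calc 2 * 2 ^ J * r = 2 ^ (J + 1) * r := by ring
      _ ≤ L := hJ1
  have hJ2' : L < 4 * (m * r) := by
    rw [hm]
    calc L < 2 ^ (J + 2) * r := hJ2
      _ = 4 * (2 ^ J * r) := by ring
  have shift : ∀ (z : Fin d → ZMod L) (u : Fin d → ℕ), (∀ i, u i ≤ m * r) →
      |bmean (m * r) Dm f z - bmean (m * r) Dm f (fun i => z i + ((u i : ℕ) : ZMod L))| ≤
        2 * Q := by
    intro z u hu
    have hmM : (1 : ℝ) ≤ m := by exact_mod_cast hm1
    have hq : Q ^ 2 / m ≤ Q ^ 2 := div_le_self (sq_nonneg _) hmM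
    have h1 := step m hm1 hJ1' z z (lc_box_sub z (by nlinarith [Nat.zero_le (m * r)]))
    have h2 := step m hm1 hJ1' z (fun i => z i + ((u i : ℕ) : ZMod L)) (by
      have := lc_box_shift z (m * r) u hu (by rw [← mul_assoc]; exact hJ1')
      rw [← mul_assoc] at this
      exact this)
    have h3 := abs_le_of_sq_le_sq (h1.trans hq) hQ0
    have h4 := abs_le_of_sq_le_sq (h2.trans hq) hQ0
    have h5 := abs_sub_le (bmean (m * r) Dm f z) (bmean (2 * m * r) Dm f z)
      (bmean (m * r) Dm f (fun i => z i + ((u i : ℕ) : ZMod L)))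
    rw [abs_sub_comm (bmean (2 * m * r) Dm f z)] at h5
    linarith
  have top : ∀ z z' : Fin d → ZMod L,
      |bmean (m * r) Dm f z - bmean (m * r) Dm f z'| ≤ 8 * Q := by
    intro z z'
    obtain ⟨U, hU⟩ : ∃ U : ℕ → Fin d → ℕ, U = fun k i => min ((z' i - z i).val) (k * (m * r)) :=
      ⟨_, rfl⟩
    obtain ⟨Z, hZ⟩ : ∃ Z : ℕ → Fin d → ZMod L, Z = fun k i => z i + ((U k i : ℕ) : ZMod L) :=
      ⟨_, rfl⟩
    have hZ0 : Z 0 = z := by
      rw [hZ, hU]
      funext i
      simp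
    have hZ4 : Z 4 = z' := by
      rw [hZ, hU]
      funext i
      have : (z' i - z i).val ≤ 4 * (m * r) := ((ZMod.val_lt _).trans hJ2').le
      dsimp only
      rw [min_eq_left this, ZMod.natCast_zmod_val]
      ring
    have hstep : ∀ k, |bmean (m * r) Dm f (Z k) - bmean (m * r) Dm f (Z (k + 1))| ≤ 2 * Q := by
      intro k
      have h1 : Z (k + 1) = fun i => Z k i + (((U (k + 1) i - U k i : ℕ)) : ZMod L) := by
        rw [hZ]
        funext i
        have hle : U k i ≤ U (k + 1) i := by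
          rw [hU]
          dsimp only
          exact min_le_min le_rfl (Nat.mul_le_mul_right _ (by omega))
        dsimp only
        rw [add_assoc, ← Nat.cast_add]
        congr 2
        omega
      rw [h1]
      refine shift (Z k) _ fun i => ?_
      rw [hU]
      dsimp only
      have : (k + 1) * (m * r) = k * (m * r) + m * r := by ring
      rw [this]
      omega
    have k0 := hstep 0
    have k1 := hstep 1
    have k2 := hstep 2
    have k3 := hstep 3
    rw [hZ0] at k0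
    norm_num at k0 k1 k2 k3
    rw [hZ4] at k3
    have a1 := abs_sub_le (bmean (m * r) Dm f z) (bmean (m * r) Dm f (Z 1))
      (bmean (m * r) Dm f z')
    have a2 := abs_sub_le (bmean (m * r) Dm f (Z 1)) (bmean (m * r) Dm f (Z 2))
      (bmean (m * r) Dm f z')
    have a3 := abs_sub_le (bmean (m * r) Dm f (Z 2)) (bmean (m * r) Dm f (Z 3))
      (bmean (m * r) Dm f z')
    linarith
  have hall : ∀ z z' : Fin d → ZMod L, |bmean r Dm f z - bmean r Dm f z'| ≤ 16 * Q := by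
    intro z z'
    have hmr : m * r ≤ L := by nlinarith [Nat.zero_le (m * r)]
    have c1 := chain J (by rw [← hm]; exact hmr) z
    have c2 := chain J (by rw [← hm]; exact hmr) z'
    rw [← hm] at c1 c2
    have c3 := top z z'
    have h6 : (0 : ℝ) ≤ (3 / 4 : ℝ) ^ J := by positivity
    have a1 := abs_sub_le (bmean r Dm f z) (bmean (m * r) Dm f z) (bmean r Dm f z')
    have a2 := abs_sub_le (bmean (m * r) Dm f z) (bmean (m * r) Dm f z') (bmean r Dm f z')
    rw [abs_sub_comm (bmean (m * r) Dm f z') (bmean r Dm f z')] at a2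
    nlinarith
  -- the scalar product with `phz`
  have hcard : (Fintype.card (Fin d → ZMod L) : ℝ) = (L : ℝ) ^ d := by
    rw [Fintype.card_fun, ZMod.card, Fintype.card_fin]
    push_cast
    rfl
  have hL0 : (0 : ℝ) < (L : ℝ) ^ d := by
    have : 0 < L := by omega
    positivity
  have hchi : ∀ z', ∑ x, chi r Dm z' x * f x = bmean r Dm f z' := by
    intro z'
    unfold chi bmean
    simp only [ite_mul, zero_mul]
    rw [Finset.sum_ite_mem, Finset.univ_inter, Finset.sum_div]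
    refine Finset.sum_congr rfl fun x _ => ?_
    ring
  have hdot : phz r Dm z ⬝ᵥ f = (∑ z' : Fin d → ZMod L, (bmean r Dm f z - bmean r Dm f z')) /
      (L : ℝ) ^ d := by
    unfold dotProduct phz
    simp only [sub_mul]
    rw [Finset.sum_sub_distrib, hchi, Finset.sum_sub_distrib, Finset.sum_const, Finset.card_univ,
      nsmul_eq_mul, hcard, sub_div, mul_div_cancel_left₀ _ hL0.ne']
    congr 1
    have : ∀ x, (∑ z' : Fin d → ZMod L, chi r Dm z' x) / (L : ℝ) ^ d * f x =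
        (∑ z' : Fin d → ZMod L, chi r Dm z' x * f x) / (L : ℝ) ^ d := by
      intro x
      rw [← Finset.sum_mul]
      ring
    simp only [this]
    rw [← Finset.sum_div, Finset.sum_comm]
    simp only [hchi]
  have hfin : |phz r Dm z ⬝ᵥ f| ≤ 16 * Q := by
    rw [hdot, abs_div, abs_of_pos hL0, div_le_iff₀ hL0]
    calc |∑ z' : Fin d → ZMod L, (bmean r Dm f z - bmean r Dm f z')|
        ≤ ∑ z' : Fin d → ZMod L, |bmean r Dm f z - bmean r Dm f z'| := Finset.abs_sum_le_sum_abs _ _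
      _ ≤ ∑ _z' : Fin d → ZMod L, 16 * Q := Finset.sum_le_sum fun z' _ => hall z z'
      _ = 16 * Q * (L : ℝ) ^ d := by
          rw [Finset.sum_const, Finset.card_univ, nsmul_eq_mul, hcard]
          ring
  calc (phz r Dm z ⬝ᵥ f) ^ 2 = |phz r Dm z ⬝ᵥ f| ^ 2 := (sq_abs _).symm
    _ ≤ (16 * Q) ^ 2 := pow_le_pow_left₀ (abs_nonneg _) hfin 2
    _ = 256 * Q ^ 2 := by ring
    _ = _ := by rw [hQ2]; ring

end torus

end Pool.Agent.U153
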