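import Pool.Agent.U153.LcRes
import Pool.Agent.U153.LcDya

/-!
# Boxes and the torus (a version of the statement DVA of the project LC)
-/

set_option autoImplicit false

namespace Pool.Agent.U153

open Finset Equiv Matrix Q292.LC

section gen

variable {V : Type} [Fintype V] [DecidableEq V]

/-- sum over the cycles of the square of the mass of the cycle -/
noncomputable def cycsq (g : Perm V) (a : V → ℝ) : ℝ :=
  ∑ x, ((cyc g x).card : ℝ) * (cmean g a x) ^ 2

theorem cmean_sub (g : Perm V) (a b : V → ℝ) (x : V) :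
    cmean g (fun y => a y - b y) x = cmean g a x - cmean g b x := by
  unfold cmean
  rw [Finset.sum_sub_distrib, sub_div]

theorem cmean_add (g : Perm V) (a b : V → ℝ) (x : V) :
    cmean g (fun y => a y + b y) x = cmean g a x + cmean g b x := by
  unfold cmean
  rw [Finset.sum_add_distrib, add_div]

theorem cmean_abs (g : Perm V) (a : V → ℝ) (x : V) :
    |cmean g a x| ≤ cmean g (fun y => |a y|) x := by
  unfold cmean
  rw [abs_div, abs_of_pos (lc_card_pos g x)]
  exact div_le_div_of_nonneg_right (Finset.abs_sum_le_sum_abs _ _) (lc_card_pos g x).le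

theorem cmean_congr_cyc (g : Perm V) (a : V → ℝ) {x y : V} (h : y ∈ cyc g x) :
    cmean g a y = cmean g a x := by
  unfold cmean
  rw [lc_cyc_eq g h]

/-- the double sum over pairs in one cycle -/
theorem cyc_double (g : Perm V) (a b : V → ℝ) :
    ∑ x, ∑ y, (if g.SameCycle x y then a x * b y else 0) =
      ∑ x, ((cyc g x).card : ℝ) * (cmean g a x * cmean g b x) := by
  have h1 : ∀ x, ∑ y, (if g.SameCycle x y then a x * b y else 0) =
      a x * (((cyc g x).card : ℝ) * cmean g b x) := by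
    intro x
    rw [← Finset.sum_filter, ← Finset.mul_sum]
    congr 1
    unfold cmean
    rw [mul_div_cancel₀ _ (lc_card_pos g x).ne']
    refine Finset.sum_congr ?_ fun _ _ => rfl
    ext y
    rw [Finset.mem_filter, lc_mem_cyc]
    exact ⟨fun h => h.2, fun h => ⟨Finset.mem_univ _, h⟩⟩
  simp only [h1]
  have h2 := lc_sum_mean g ∅ (fun _ h => absurd h (Finset.notMem_empty _))
    (fun x => a x * (((cyc g x).card : ℝ) * cmean g b x))
  rw [Finset.sdiff_empty] at h2
  rw [← h2]
  refine Finset.sum_congr rfl fun x _ => ?_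
  have h3 : cmean g (fun x => a x * (((cyc g x).card : ℝ) * cmean g b x)) x =
      cmean g a x * (((cyc g x).card : ℝ) * cmean g b x) := by
    unfold cmean
    rw [div_mul_eq_mul_div, Finset.sum_mul]
    congr 1
    refine Finset.sum_congr rfl fun y hy => ?_
    dsimp only
    rw [lc_cyc_eq g hy]
  rw [h3]
  ring

theorem cycsq_eq (g : Perm V) (a : V → ℝ) :
    cycsq g a = ∑ x, ∑ y, (if g.SameCycle x y then a x * a y else 0) := by
  rw [cyc_double]
  unfold cycsq
  refine Finset.sum_congr rfl fun x _ => ?_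
  ring

theorem cycsq_nonneg (g : Perm V) (a : V → ℝ) : 0 ≤ cycsq g a :=
  Finset.sum_nonneg fun _ _ => mul_nonneg (Nat.cast_nonneg _) (sq_nonneg _)

/-- one term is at most the total mass times the mean of the absolute value -/
theorem cyc_term_le (g : Perm V) (a : V → ℝ) (x : V) :
    ((cyc g x).card : ℝ) * (cmean g a x) ^ 2 ≤ (∑ y, |a y|) * cmean g (fun y => |a y|) x := by
  have h1 : ((cyc g x).card : ℝ) * |cmean g a x| ≤ ∑ y, |a y| := by
    unfold cmean
    have hp := lc_card_pos g x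
    rw [abs_div, abs_of_pos hp, mul_div_cancel₀ _ hp.ne']
    exact (Finset.abs_sum_le_sum_abs _ _).trans
      (Finset.sum_le_sum_of_subset_of_nonneg (Finset.subset_univ _) fun _ _ _ => abs_nonneg _)
  have h2 := cmean_abs g a x
  have h3 : (cmean g a x) ^ 2 = |cmean g a x| * |cmean g a x| := by
    rw [← sq, sq_abs]
  rw [h3, ← mul_assoc]
  exact mul_le_mul h1 h2 (abs_nonneg _) (Finset.sum_nonneg fun _ _ => abs_nonneg _)

/-- sum over the cycles in an invariant set: bound by the mass of the set, if the positive and the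
negative part of the total mass are at most one -/
theorem cycsq_le (g : Perm V) (a : V → ℝ) : cycsq g a ≤ (∑ y, |a y|) ^ 2 := by
  unfold cycsq
  have h2 := lc_sum_mean g ∅ (fun _ h => absurd h (Finset.notMem_empty _)) (fun x => |a x|)
  rw [Finset.sdiff_empty] at h2
  calc _ ≤ ∑ x, (∑ y, |a y|) * cmean g (fun y => |a y|) x :=
        Finset.sum_le_sum fun x _ => cyc_term_le g a x
    _ = _ := by
        rw [← Finset.mul_sum, h2]
        ring

/-- the part of an invariant set: two probability vectors -/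
theorem cyc_inv_part (g : Perm V) (A : Finset V) (hA : Q292.LC.Inv g A) (a c : V → ℝ)
    (ha : ∀ x, 0 ≤ a x) (hc : ∀ x, 0 ≤ c x) (ha1 : ∑ x, a x ≤ 1) (hc1 : ∑ x, c x ≤ 1) :
    ∑ x ∈ A, ((cyc g x).card : ℝ) * (cmean g (fun y => a y - c y) x) ^ 2 ≤
      ∑ x ∈ A, (a x + c x) := by
  have h1 : ∀ x, ((cyc g x).card : ℝ) * (cmean g (fun y => a y - c y) x) ^ 2 ≤
      cmean g (fun y => a y + c y) x := by
    intro x
    have hp := lc_card_pos g x
    have e1 : ((cyc g x).card : ℝ) * cmean g (fun y => a y - c y) x =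
        ∑ y ∈ cyc g x, a y - ∑ y ∈ cyc g x, c y := by
      unfold cmean
      rw [mul_div_cancel₀ _ hp.ne', Finset.sum_sub_distrib]
    have a1 : 0 ≤ ∑ y ∈ cyc g x, a y := Finset.sum_nonneg fun y _ => ha y
    have c1 : 0 ≤ ∑ y ∈ cyc g x, c y := Finset.sum_nonneg fun y _ => hc y
    have a2 : ∑ y ∈ cyc g x, a y ≤ 1 :=
      (Finset.sum_le_sum_of_subset_of_nonneg (Finset.subset_univ _) fun y _ _ => ha y).trans ha1
    have c2 : ∑ y ∈ cyc g x, c y ≤ 1 :=
      (Finset.sum_le_sum_of_subset_of_nonneg (Finset.subset_univ _) fun y _ _ => hc y).trans hc1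
    have e2 : |((cyc g x).card : ℝ) * cmean g (fun y => a y - c y) x| ≤ 1 := by
      rw [e1, abs_le]
      constructor <;> linarith
    have e3 : |cmean g (fun y => a y - c y) x| ≤ cmean g (fun y => a y + c y) x := by
      refine (cmean_abs g _ x).trans ?_
      unfold cmean
      refine div_le_div_of_nonneg_right (Finset.sum_le_sum fun y _ => ?_) hp.le
      rw [abs_le]
      have := ha y
      have := hc y
      constructor <;> linarith
    have e4 : ((cyc g x).card : ℝ) * (cmean g (fun y => a y - c y) x) ^ 2 =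
        |((cyc g x).card : ℝ) * cmean g (fun y => a y - c y) x| *
          |cmean g (fun y => a y - c y) x| := by
      rw [← abs_mul, abs_of_nonneg]
      · ring
      · have : ((cyc g x).card : ℝ) * cmean g (fun y => a y - c y) x *
          cmean g (fun y => a y - c y) x = ((cyc g x).card : ℝ) *
          (cmean g (fun y => a y - c y) x) ^ 2 := by ring
        rw [this]
        positivity
    rw [e4]
    calc _ ≤ 1 * |cmean g (fun y => a y - c y) x| :=
          mul_le_mul_of_nonneg_right e2 (abs_nonneg _)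
      _ ≤ _ := by rw [one_mul]; exact e3
  have hinvc : Q292.LC.Inv g (univ \ A) := by
    intro x hx
    rw [Finset.mem_sdiff] at hx ⊢
    refine ⟨Finset.mem_univ _, fun hy => hx.2 ?_⟩
    exact Pool.Agent.Q153.LC.inv_same g A hA (g x) x hy
      (Perm.sameCycle_apply_left.2 (Perm.SameCycle.refl g x))
  have h2 := lc_sum_mean g (univ \ A) hinvc (fun y => a y + c y)
  have h3 : univ \ (univ \ A) = A := by
    ext x
    simp
  rw [h3] at h2
  rw [← h2]
  exact Finset.sum_le_sum fun x _ => h1 x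

end gen

section torus

variable {d L : ℕ} [NeZero L]

/-- the uniform distribution on `box z r` -/
noncomputable def unif (r : ℕ) (z x : Fin d → ZMod L) : ℝ :=
  if x ∈ box z r then 1 / (r : ℝ) ^ d else 0

theorem lc_vol : (Fintype.card (Fin d → ZMod L) : ℝ) = (L : ℝ) ^ d := by
  rw [Fintype.card_fun, ZMod.card, Fintype.card_fin]
  push_cast
  rfl

theorem lc_vol_pos : (0 : ℝ) < (L : ℝ) ^ d := by
  have : 0 < L := Nat.pos_of_ne_zero (NeZero.ne L)
  positivity

theorem unif_sum {r : ℕ} (hr : 1 ≤ r) (hrL : r ≤ L) (z : Fin d → ZMod L) :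
    ∑ x, unif r z x = 1 := by
  unfold unif
  rw [Finset.sum_ite_mem, Finset.univ_inter, Finset.sum_const,
    Pool.Agent.Q187.LC.Nas.card_box z r hrL, nsmul_eq_mul]
  push_cast
  have : (0 : ℝ) < (r : ℝ) ^ d := by positivity
  field_simp

theorem unif_mean {r : ℕ} (hr : 1 ≤ r) (hrL : r ≤ L) (x : Fin d → ZMod L) :
    ∑ z : Fin d → ZMod L, unif r z x = 1 := by
  unfold unif
  rw [← Finset.sum_filter, Finset.sum_const,
    Pool.Agent.Q187.LC.Nas.card_cover x r hrL, nsmul_eq_mul]
  push_cast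
  have : (0 : ℝ) < (r : ℝ) ^ d := by positivity
  field_simp

theorem unif_nonneg (r : ℕ) (z x : Fin d → ZMod L) : 0 ≤ unif r z x := by
  unfold unif
  split_ifs
  · positivity
  · exact le_rfl

/-- `Qb - Qv` is the mean over the boxes of the sum over the cycles of the squared differences of
the fractions in the box and in the torus -/
theorem lc_var {r : ℕ} (hr : 1 ≤ r) (hrL : r ≤ L) (g : Perm (Fin d → ZMod L)) :
    Qb r g - Qv g = (∑ z : Fin d → ZMod L,
      cycsq g (fun y => unif r z y - 1 / (L : ℝ) ^ d)) / (L : ℝ) ^ d := by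
  classical
  have hV := lc_vol_pos (d := d) (L := L)
  have hr0 : (0 : ℝ) < (r : ℝ) ^ d := by positivity
  have e1 : Qb r g = (∑ z : Fin d → ZMod L, ∑ x, ((cyc g x).card : ℝ) *
      (cmean g (unif r z) x) ^ 2) / (L : ℝ) ^ d := by
    have h1 : ∀ z : Fin d → ZMod L, (∑ x ∈ box z r, ∑ y ∈ box z r,
        if g.SameCycle x y then (1 : ℝ) else 0) / (r : ℝ) ^ (2 * d) =
        ∑ x, ((cyc g x).card : ℝ) * (cmean g (unif r z) x) ^ 2 := by
      intro z
      have h2 := cycsq_eq g (unif r z)
      unfold cycsq at h2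
      rw [h2]
      have h3 : ∀ x y, (if g.SameCycle x y then unif r z x * unif r z y else 0) =
          if x ∈ box z r then (if y ∈ box z r then
            (if g.SameCycle x y then (1 : ℝ) else 0) / (r : ℝ) ^ (2 * d) else 0) else 0 := by
        intro x y
        unfold unif
        have h4 : (1 : ℝ) / (r : ℝ) ^ d * (1 / (r : ℝ) ^ d) = 1 / (r : ℝ) ^ (2 * d) := by
          rw [two_mul, pow_add]
          field_simp
        by_cases hx : x ∈ box z r <;> by_cases hy : y ∈ box z r <;>
          by_cases hs : g.SameCycle x y <;> simp only [hx, hy, hs, if_true, if_false, h4, zero_div,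
            mul_zero, zero_mul]
      have h5 : ∀ x, ∑ y, (if x ∈ box z r then (if y ∈ box z r then
            (if g.SameCycle x y then (1 : ℝ) else 0) / (r : ℝ) ^ (2 * d) else 0) else 0) =
          if x ∈ box z r then ∑ y ∈ box z r,
            (if g.SameCycle x y then (1 : ℝ) else 0) / (r : ℝ) ^ (2 * d) else 0 := by
        intro x
        split_ifs
        · rw [Finset.sum_ite_mem, Finset.univ_inter]
        · simp
      simp only [h3, h5]
      rw [Finset.sum_ite_mem, Finset.univ_inter, Finset.sum_div]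
      refine Finset.sum_congr rfl fun x _ => ?_
      rw [Finset.sum_div]
    unfold Qb
    rw [← Finset.sum_congr rfl fun z _ => h1 z, ← Finset.sum_div, div_div, mul_comm]
  have e2 : Qv g = ∑ x, ((cyc g x).card : ℝ) *
      (cmean g (fun _ : Fin d → ZMod L => 1 / (L : ℝ) ^ d) x) ^ 2 := by
    have h2 := cycsq_eq g (fun _ : Fin d → ZMod L => 1 / (L : ℝ) ^ d)
    unfold cycsq at h2
    rw [h2]
    unfold Qv
    rw [Finset.sum_div]
    refine Finset.sum_congr rfl fun x _ => ?_
    rw [Finset.sum_div]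
    refine Finset.sum_congr rfl fun y _ => ?_
    split_ifs
    · rw [two_mul, pow_add]
      field_simp
    · rw [zero_div]
  have e3 : ∀ x, ∑ z : Fin d → ZMod L, cmean g (unif r z) x = 1 := by
    intro x
    unfold cmean
    rw [← Finset.sum_div, Finset.sum_comm]
    simp only [unif_mean hr hrL]
    rw [Finset.sum_const, nsmul_eq_mul, mul_one, div_self (lc_card_pos g x).ne']
  have e4 : ∀ x, cmean g (fun _ : Fin d → ZMod L => 1 / (L : ℝ) ^ d) x = 1 / (L : ℝ) ^ d := by
    intro x
    unfold cmean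
    rw [Finset.sum_const, nsmul_eq_mul, mul_div_cancel_left₀ _ (lc_card_pos g x).ne']
  have e5 : ∀ z : Fin d → ZMod L, cycsq g (fun y => unif r z y - 1 / (L : ℝ) ^ d) =
      ∑ x, ((cyc g x).card : ℝ) * (cmean g (unif r z) x) ^ 2 -
      2 / (L : ℝ) ^ d * ∑ x, ((cyc g x).card : ℝ) * cmean g (unif r z) x +
      ∑ x, ((cyc g x).card : ℝ) * (1 / (L : ℝ) ^ d) ^ 2 := by
    intro z
    unfold cycsq
    rw [Finset.mul_sum, ← Finset.sum_sub_distrib, ← Finset.sum_add_distrib]
    refine Finset.sum_congr rfl fun x _ => ?_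
    rw [cmean_sub, e4]
    ring
  rw [e1, e2]
  simp only [e4, e5]
  rw [Finset.sum_add_distrib, Finset.sum_sub_distrib, ← Finset.mul_sum, Finset.sum_comm (γ := Fin d → ZMod L)
    (f := fun z x => ((cyc g x).card : ℝ) * cmean g (unif r z) x)]
  simp only [← Finset.mul_sum, e3, mul_one]
  rw [Finset.sum_const, Finset.card_univ, nsmul_eq_mul, lc_vol, ← Finset.sum_mul]
  field_simp
  ring

/-- the uniform distributions on the box and on the box without the damaged set -/
theorem unif_chi {r : ℕ} (hr : 1 ≤ r) (hrL : r ≤ L) (Dm : Finset (Fin d → ZMod L)) (η : ℝ)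
    (hη : η ≤ 1 / 2) (hD : ∀ v, ((Dm ∩ box v r).card : ℝ) ≤ η * (r : ℝ) ^ d)
    (z : Fin d → ZMod L) : ∑ x, |unif r z x - chi r Dm z x| ≤ 2 * η := by
  obtain ⟨n, hn⟩ : ∃ n : ℝ, n = ((box z r \ Dm).card : ℝ) := ⟨_, rfl⟩
  obtain ⟨N, hN⟩ : ∃ N : ℝ, N = (r : ℝ) ^ d := ⟨_, rfl⟩
  have hN0 : 0 < N := by rw [hN]; positivity
  have hbox : ((box z r).card : ℝ) = N := by
    rw [Pool.Agent.Q187.LC.Nas.card_box z r hrL, hN]
    push_cast
    rfl
  have hsum : ((Dm ∩ box z r).card : ℝ) = N - n := by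
    have h3 := Finset.card_sdiff_add_card_inter (box z r) Dm
    rw [Finset.inter_comm] at h3
    have h4 : ((box z r \ Dm).card : ℝ) + ((Dm ∩ box z r).card : ℝ) = ((box z r).card : ℝ) := by
      exact_mod_cast h3
    rw [hbox, ← hn] at h4
    linarith
  have hDz := hD z
  rw [hsum, ← hN] at hDz
  have hn0 : 0 < n := by nlinarith
  have hnN : n ≤ N := by
    have : (0 : ℝ) ≤ ((Dm ∩ box z r).card : ℝ) := Nat.cast_nonneg _
    rw [hsum] at this
    linarith
  have h1 : ∀ x, |unif r z x - chi r Dm z x| =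
      (if x ∈ box z r \ Dm then (1 / n - 1 / N) else 0) +
      (if x ∈ Dm ∩ box z r then 1 / N else 0) := by
    intro x
    unfold unif chi
    rw [← hn, ← hN]
    by_cases hx : x ∈ box z r
    · by_cases hy : x ∈ Dm
      · have a1 : x ∉ box z r \ Dm := fun h => (Finset.mem_sdiff.1 h).2 hy
        have a2 : x ∈ Dm ∩ box z r := Finset.mem_inter.2 ⟨hy, hx⟩
        rw [if_pos hx, if_neg a1, if_neg a1, if_pos a2, sub_zero, zero_add,
          abs_of_nonneg (by positivity)]
      · have a1 : x ∈ box z r \ Dm := Finset.mem_sdiff.2 ⟨hx, hy⟩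
        have a2 : x ∉ Dm ∩ box z r := fun h => hy (Finset.mem_inter.1 h).1
        have a3 : 1 / N ≤ 1 / n := one_div_le_one_div_of_le hn0 hnN
        rw [if_pos hx, if_pos a1, if_pos a1, if_neg a2, abs_of_nonpos (by linarith)]
        ring
    · have a1 : x ∉ box z r \ Dm := fun h => hx (Finset.mem_sdiff.1 h).1
      have a2 : x ∉ Dm ∩ box z r := fun h => hx (Finset.mem_inter.1 h).2
      rw [if_neg hx, if_neg a1, if_neg a1, if_neg a2]
      simp
  simp only [h1]
  rw [Finset.sum_add_distrib, Finset.sum_ite_mem, Finset.sum_ite_mem, Finset.univ_inter,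
    Finset.univ_inter, Finset.sum_const, Finset.sum_const, nsmul_eq_mul, nsmul_eq_mul, ← hn, hsum]
  have h2 : n * (1 / n - 1 / N) + (N - n) * (1 / N) = 2 * ((N - n) / N) := by
    field_simp
    ring
  rw [h2]
  have h3 : (N - n) / N ≤ η := by
    rw [div_le_iff₀ hN0]
    exact hDz
  linarith

/-- DVA -/
theorem lc_dva (g : Perm (Fin d → ZMod L)) (A Dm : Finset (Fin d → ZMod L)) (r : ℕ) (η : ℝ)
    (hr : 1 ≤ r) (hrL : r ≤ L) (hA : Q292.LC.Inv g A) (hη0 : 0 ≤ η)
    (hη : η ≤ 1 / 2) (hD : ∀ v, ((Dm ∩ box v r).card : ℝ) ≤ η * (r : ℝ) ^ d) :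
    Qb r g - Qv g ≤ 2 * ∑ z, ∑ x ∈ univ \ A, (cmean g (phz r Dm z) x) ^ 2 + 32 * η ^ 2 +
      2 * A.card / (L : ℝ) ^ d := by
  have hV := lc_vol_pos (d := d) (L := L)
  rw [lc_var hr hrL g, div_le_iff₀ hV]
  obtain ⟨b, hb⟩ : ∃ b : (Fin d → ZMod L) → (Fin d → ZMod L) → ℝ, b = fun z x =>
    unif r z x - chi r Dm z x := ⟨_, rfl⟩
  have hb1 : ∀ z, ∑ x, |b z x| ≤ 2 * η := fun z => by
    rw [hb]
    exact unif_chi hr hrL Dm η hη hD z
  obtain ⟨e, he⟩ : ∃ e : (Fin d → ZMod L) → (Fin d → ZMod L) → ℝ, e = fun z x =>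
    b z x - (∑ z', b z' x) / (L : ℝ) ^ d := ⟨_, rfl⟩
  have he1 : ∀ z, ∑ x, |e z x| ≤ 4 * η := by
    intro z
    have h1 : ∀ x, |e z x| ≤ |b z x| + (∑ z', |b z' x|) / (L : ℝ) ^ d := by
      intro x
      rw [he]
      refine (abs_sub _ _).trans ?_
      rw [abs_div, abs_of_pos hV]
      have := Finset.abs_sum_le_sum_abs (fun z' => b z' x) Finset.univ
      gcongr
    calc ∑ x, |e z x| ≤ ∑ x, (|b z x| + (∑ z', |b z' x|) / (L : ℝ) ^ d) :=
          Finset.sum_le_sum fun x _ => h1 x
      _ = ∑ x, |b z x| + (∑ z', ∑ x, |b z' x|) / (L : ℝ) ^ d := by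
          rw [Finset.sum_add_distrib, ← Finset.sum_div, Finset.sum_comm]
      _ ≤ 2 * η + (∑ _z' : Fin d → ZMod L, 2 * η) / (L : ℝ) ^ d := by
          have := hb1 z
          have h3 : ∑ z', ∑ x, |b z' x| ≤ ∑ _z' : Fin d → ZMod L, 2 * η :=
            Finset.sum_le_sum fun z' _ => hb1 z'
          gcongr
      _ = 4 * η := by
          rw [Finset.sum_const, Finset.card_univ, nsmul_eq_mul, lc_vol]
          field_simp
          ring
  have hdec : ∀ z, (fun y => unif r z y - 1 / (L : ℝ) ^ d) = fun y => phz r Dm z y + e z y := by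
    intro z
    funext y
    rw [he, hb]
    unfold phz
    dsimp only
    rw [Finset.sum_sub_distrib, unif_mean hr hrL, sub_div]
    ring
  have hz : ∀ z, cycsq g (fun y => unif r z y - 1 / (L : ℝ) ^ d) ≤
      ∑ x ∈ A, (unif r z x + 1 / (L : ℝ) ^ d) +
      (2 * (L : ℝ) ^ d * ∑ x ∈ univ \ A, (cmean g (phz r Dm z) x) ^ 2 + 32 * η ^ 2) := by
    intro z
    have h1 : cycsq g (fun y => unif r z y - 1 / (L : ℝ) ^ d) =
        ∑ x ∈ A, ((cyc g x).card : ℝ) *
          (cmean g (fun y => unif r z y - 1 / (L : ℝ) ^ d) x) ^ 2 +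
        ∑ x ∈ univ \ A, ((cyc g x).card : ℝ) *
          (cmean g (fun y => unif r z y - 1 / (L : ℝ) ^ d) x) ^ 2 := by
      unfold cycsq
      rw [add_comm]
      exact (Finset.sum_sdiff (Finset.subset_univ A)).symm
    rw [h1]
    refine add_le_add ?_ ?_
    · refine cyc_inv_part g A hA (unif r z) (fun _ => 1 / (L : ℝ) ^ d) (unif_nonneg r z)
        (fun _ => by positivity) (unif_sum hr hrL z).le ?_
      rw [Finset.sum_const, Finset.card_univ, nsmul_eq_mul, lc_vol]
      exact (mul_one_div_cancel hV.ne').le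
    · have h2 : ∀ x, ((cyc g x).card : ℝ) *
          (cmean g (fun y => unif r z y - 1 / (L : ℝ) ^ d) x) ^ 2 ≤
          2 * (L : ℝ) ^ d * (cmean g (phz r Dm z) x) ^ 2 +
          2 * (((cyc g x).card : ℝ) * (cmean g (e z) x) ^ 2) := by
        intro x
        rw [hdec z, cmean_add g (phz r Dm z) (e z) x]
        have h3 : ((cyc g x).card : ℝ) ≤ (L : ℝ) ^ d := by
          rw [← lc_vol]
          exact_mod_cast Finset.card_le_univ _
        have h4 := lc_card_pos g x
        have h5 := sq_nonneg (cmean g (phz r Dm z) x)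
        have h6 := mul_le_mul_of_nonneg_right h3 h5
        nlinarith [sq_nonneg (cmean g (phz r Dm z) x - cmean g (e z) x),
          mul_nonneg h4.le (sq_nonneg (cmean g (phz r Dm z) x - cmean g (e z) x))]
      calc _ ≤ ∑ x ∈ univ \ A, (2 * (L : ℝ) ^ d * (cmean g (phz r Dm z) x) ^ 2 +
          2 * (((cyc g x).card : ℝ) * (cmean g (e z) x) ^ 2)) :=
            Finset.sum_le_sum fun x _ => h2 x
        _ = 2 * (L : ℝ) ^ d * ∑ x ∈ univ \ A, (cmean g (phz r Dm z) x) ^ 2 +
            2 * ∑ x ∈ univ \ A, ((cyc g x).card : ℝ) * (cmean g (e z) x) ^ 2 := by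
            rw [Finset.sum_add_distrib, ← Finset.mul_sum, ← Finset.mul_sum]
        _ ≤ _ := by
            have h7 : ∑ x ∈ univ \ A, ((cyc g x).card : ℝ) * (cmean g (e z) x) ^ 2 ≤
                cycsq g (e z) :=
              Finset.sum_le_sum_of_subset_of_nonneg (Finset.subset_univ _)
                fun _ _ _ => mul_nonneg (Nat.cast_nonneg _) (sq_nonneg _)
            have h8 := cycsq_le g (e z)
            have h9 : (∑ y, |e z y|) ^ 2 ≤ (4 * η) ^ 2 :=
              pow_le_pow_left₀ (Finset.sum_nonneg fun _ _ => abs_nonneg _) (he1 z) 2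
            nlinarith
  calc ∑ z, cycsq g (fun y => unif r z y - 1 / (L : ℝ) ^ d)
      ≤ ∑ z, (∑ x ∈ A, (unif r z x + 1 / (L : ℝ) ^ d) +
        (2 * (L : ℝ) ^ d * ∑ x ∈ univ \ A, (cmean g (phz r Dm z) x) ^ 2 + 32 * η ^ 2)) :=
        Finset.sum_le_sum fun z _ => hz z
    _ = _ := by
        rw [Finset.sum_add_distrib, Finset.sum_comm]
        simp only [Finset.sum_add_distrib, unif_mean hr hrL, Finset.sum_const, Finset.card_univ,
          nsmul_eq_mul, lc_vol, ← Finset.mul_sum]
        field_simp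
        ring

end torus

end Pool.Agent.U153
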