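import Pool.Agent.U153.LcLam
import Pool.Agent.U153.LcDva
import Pool.Agent.Q292.LC.FinT

/-!
# Boxes of side `√K / h` see the same fractions as the torus (statement DEV of the project LC)
-/

set_option autoImplicit false

namespace Pool.Agent.U153

open Finset Equiv Matrix Q292.LC

section torus

variable {d L : ℕ} [NeZero L]

theorem lc_Qv_nonneg (g : Perm (Fin d → ZMod L)) : 0 ≤ Qv g := by
  classical
  unfold Qv
  refine div_nonneg (sum_nonneg fun x _ => sum_nonneg fun y _ => ?_) (by positivity)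
  split_ifs <;> norm_num

theorem lc_Qb_le {r : ℕ} (hr : 1 ≤ r) (hrL : r ≤ L) (g : Perm (Fin d → ZMod L)) : Qb r g ≤ 1 := by
  classical
  unfold Qb
  have hV := lc_vol_pos (d := d) (L := L)
  have hr0 : (0 : ℝ) < (r : ℝ) ^ (2 * d) := by positivity
  rw [div_le_one (by positivity)]
  calc _ ≤ ∑ z : Fin d → ZMod L, ∑ _x ∈ box z r, ∑ _y ∈ box z r, (1 : ℝ) := by
        refine sum_le_sum fun z _ => sum_le_sum fun x _ => sum_le_sum fun y _ => ?_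
        split_ifs <;> norm_num
    _ = _ := by
        simp only [sum_const, nsmul_eq_mul, mul_one, Pool.Agent.Q187.LC.Nas.card_box _ r hrL]
        rw [card_univ, lc_vol]
        push_cast
        rw [two_mul, pow_add]

theorem lc_QQ_nonneg {r : ℕ} (hr : 1 ≤ r) (hrL : r ≤ L) (g : Perm (Fin d → ZMod L)) :
    0 ≤ Qb r g - Qv g := by
  rw [lc_var hr hrL g]
  exact div_nonneg (sum_nonneg fun z _ => cycsq_nonneg _ _) lc_vol_pos.le

theorem phz_zero (r : ℕ) (Dm : Finset (Fin d → ZMod L)) (z a : Fin d → ZMod L) (h : a ∈ Dm) :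
    phz r Dm z a = 0 := by
  have hc : ∀ z', chi r Dm z' a = 0 := by
    intro z'
    unfold chi
    rw [if_neg]
    intro h1
    exact (mem_sdiff.1 h1).2 h
  unfold phz
  simp [hc]

open Classical in
/-- the expectation of `Qb - Qv` in terms of the failure probability of a good environment -/
theorem lc_dev_exp (e : ℕ → (Fin d → ZMod L) × (Fin d → ZMod L)) (n : ℕ) (δ w ε η Λ κ fl : ℝ)
    (r : ℕ) (B : (ℕ → Bool) → Finset (Fin d → ZMod L) → Prop) (hδ0 : 0 ≤ δ) (hδ1 : δ ≤ 1)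
    (hw0 : 0 ≤ w) (hw1 : w < 1) (hr : 1 ≤ r) (hrL : r ≤ L) (hη0 : 0 ≤ η) (hη : η ≤ 1 / 2)
    (hΛ : 0 ≤ Λ)
    (hBm : ∀ A, Rmeas e n A (fun ω => B ω A))
    (hD : ∀ ω A, B ω A → ∀ v, ((Dmg e ω A δ ε n ∩ box v r).card : ℝ) ≤ η * (r : ℝ) ^ d)
    (hres : ∀ ω A, B ω A → ∀ z,
      phz r (Dmg e ω A δ ε n) z ⬝ᵥ ((1 - w • (dg (univ \ A) * TT e ω A δ n))⁻¹ *ᵥ
        phz r (Dmg e ω A δ ε n) z) ≤ Λ)
    (hfl : PW e n δ w (fun ω A => ¬ B ω A) ≤ fl)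
    (hκ : ∀ x, PW e n δ w (fun ω A => x ∈ A ∧ B ω A) ≤ κ) :
    EE n δ (fun ω => Qb r (gp e ω n) - Qv (gp e ω n)) ≤
      2 * ((L : ℝ) ^ d * ((1 - w) * Λ)) + 32 * η ^ 2 + 2 * κ + fl := by
  obtain ⟨p1, p2, p3, p4, p5, p6⟩ := Pool.Agent.Q277.LC.peb (Fin d → ZMod L) e n δ w hδ0 hδ1 hw0 hw1
  have hV := lc_vol_pos (d := d) (L := L)
  have psum : ∀ (s : Finset (Fin d → ZMod L))
      (F : (Fin d → ZMod L) → (ℕ → Bool) → Finset (Fin d → ZMod L) → ℝ),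
      PE e n δ w (fun ω A => ∑ z ∈ s, F z ω A) = ∑ z ∈ s, PE e n δ w (F z) := by
    intro s F
    induction s using Finset.induction_on with
    | empty =>
      simp only [sum_empty]
      have := p1 (fun _ => (0 : ℝ))
      rw [this]
      exact Pool.Agent.Q68.LC.EE_const n δ 0
    | insert a s ha ih =>
      simp only [sum_insert ha]
      rw [p2, ih]
  rw [← p1]
  obtain ⟨c, hc⟩ : ∃ c, c = 32 * η ^ 2 := ⟨_, rfl⟩
  rw [← hc]
  have hpt : ∀ ω A, Q292.LC.Inv (gp e ω n) A → Qb r (gp e ω n) - Qv (gp e ω n) ≤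
      (2 * ∑ z, (if B ω A then ∑ x ∈ univ \ A,
        ((∑ y ∈ cyc (gp e ω n) x, phz r (Dmg e ω A δ ε n) z y) /
          ((cyc (gp e ω n) x).card : ℝ)) ^ 2 else 0) + c) +
      (2 / (L : ℝ) ^ d * (∑ x, (if x ∈ A ∧ B ω A then (1 : ℝ) else 0)) +
      (if ¬ B ω A then (1 : ℝ) else 0)) := by
    intro ω A hA
    rw [hc]
    by_cases hB : B ω A
    · have h1 := lc_dva (gp e ω n) A (Dmg e ω A δ ε n) r η hr hrL hA hη0 hη (hD ω A hB)
      simp only [hB, if_true, not_true_eq_false, if_false, and_true]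
      have h2 : ∑ x : Fin d → ZMod L, (if x ∈ A then (1 : ℝ) else 0) = A.card := by
        rw [sum_ite_mem, univ_inter, sum_const, nsmul_eq_mul, mul_one]
      rw [h2]
      unfold cmean at h1
      have h3 : 2 * (A.card : ℝ) / (L : ℝ) ^ d = 2 / (L : ℝ) ^ d * A.card := by ring
      rw [h3] at h1
      linarith
    · simp only [hB, if_false, not_false_eq_true, if_true, and_false, sum_const_zero, mul_zero]
      have h1 := lc_Qb_le hr hrL (gp e ω n)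
      have h2 := lc_Qv_nonneg (gp e ω n)
      have h3 : 0 ≤ 32 * η ^ 2 := by positivity
      linarith
  refine (p4 _ _ hpt).trans ?_
  rw [p2, p2, p2, p3, p3, psum, psum]
  have c6 : PE e n δ w (fun ω A => if ¬ B ω A then (1 : ℝ) else 0) ≤ fl := by
    refine le_trans (le_of_eq ?_) hfl
    rw [← p5]
    congr 1
    funext ω A
    congr
  have c1 : PE e n δ w (fun _ _ => c) = c := by
    rw [p1]
    exact Pool.Agent.Q68.LC.EE_const n δ _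
  rw [c1]
  have c2 : ∀ z, PE e n δ w (fun ω A => if B ω A then ∑ x ∈ univ \ A,
        ((∑ y ∈ cyc (gp e ω n) x, phz r (Dmg e ω A δ ε n) z y) /
          ((cyc (gp e ω n) x).card : ℝ)) ^ 2 else 0) ≤ (1 - w) * Λ := by
    intro z
    refine lc_res (Fin d → ZMod L) e n δ w Λ B (fun ω A => phz r (Dmg e ω A δ ε n) z) hδ0 hδ1 hw0
      hw1 hΛ hBm ?_ ?_ ?_
    · intro A ω ω' h
      have h1 := Pool.Agent.Q277.LC.dme (Fin d → ZMod L) e n A δ ε ω ω' h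
      dsimp only at h1 ⊢
      rw [h1]
    · intro ω A a ha
      refine phz_zero r _ z a ?_
      unfold Dmg
      rw [mem_filter]
      exact ⟨mem_univ _, Or.inl ha⟩
    · intro ω A _ hB
      exact hres ω A hB z
  have c3 : ∑ z : Fin d → ZMod L, PE e n δ w (fun ω A => if B ω A then ∑ x ∈ univ \ A,
        ((∑ y ∈ cyc (gp e ω n) x, phz r (Dmg e ω A δ ε n) z y) /
          ((cyc (gp e ω n) x).card : ℝ)) ^ 2 else 0) ≤ (L : ℝ) ^ d * ((1 - w) * Λ) := by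
    calc _ ≤ ∑ _z : Fin d → ZMod L, (1 - w) * Λ := sum_le_sum fun z _ => c2 z
      _ = _ := by rw [sum_const, card_univ, nsmul_eq_mul, lc_vol]
  have c4 : ∑ x : Fin d → ZMod L, PE e n δ w (fun ω A => if x ∈ A ∧ B ω A then (1 : ℝ) else 0) ≤
      (L : ℝ) ^ d * κ := by
    calc _ ≤ ∑ _x : Fin d → ZMod L, κ := by
          refine sum_le_sum fun x _ => ?_
          refine le_trans (le_of_eq ?_) (hκ x)
          rw [← p5]
          congr 1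
          funext ω A
          congr
      _ = _ := by rw [sum_const, card_univ, nsmul_eq_mul, lc_vol]
  have c5 : 2 / (L : ℝ) ^ d * ∑ x : Fin d → ZMod L,
      PE e n δ w (fun ω A => if x ∈ A ∧ B ω A then (1 : ℝ) else 0) ≤ 2 * κ := by
    calc _ ≤ 2 / (L : ℝ) ^ d * ((L : ℝ) ^ d * κ) := mul_le_mul_of_nonneg_left c4 (by positivity)
      _ = _ := by field_simp
  linarith

end torus

/-- DEV -/
theorem lc_dev : S_DEV := by
  intro d hd
  obtain ⟨C₁, m₁, hC₁, hBTL⟩ := all_btl d hd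
  obtain ⟨CA, ε, hCA, hε, hLAM⟩ := lc_lam d hd
  obtain ⟨D, hDdef⟩ : ∃ D, D = d * m₁ + d + 4 := ⟨_, rfl⟩
  refine ⟨2 * (8 * D), CA, ?_⟩
  intro h hh η hη
  have hd0 : (3 : ℝ) ≤ d := by exact_mod_cast hd
  have hC₁' : (1 : ℝ) ≤ C₁ := by exact_mod_cast hC₁
  have hCA' : (1 : ℝ) ≤ CA := by exact_mod_cast hCA
  have hh0 : (1 : ℝ) ≤ h := by exact_mod_cast hCA.trans hh
  -- the small parameter
  obtain ⟨η₁, hη₁⟩ : ∃ η₁ : ℝ, η₁ = min η 1 := ⟨_, rfl⟩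
  have hη₁0 : 0 < η₁ := by rw [hη₁]; exact lt_min hη one_pos
  have hη₁1 : η₁ ≤ 1 := by rw [hη₁]; exact min_le_right _ _
  have hη₁η : η₁ ≤ η := by rw [hη₁]; exact min_le_left _ _
  obtain ⟨η', hη'⟩ : ∃ η' : ℝ, η' = η₁ / 16 := ⟨_, rfl⟩
  have hη'0 : 0 < η' := by rw [hη']; positivity
  have hη'2 : η' ≤ 1 / 2 := by rw [hη']; linarith
  have hη'3 : 32 * η' ^ 2 ≤ η / 8 := by
    rw [hη']
    nlinarith
  -- the threshold
  obtain ⟨T, hT⟩ : ∃ T : ℝ, T = 16 + h + 8 * (CA * (2 * h) ^ (2 * d)) / η + 16 * C₁ / η +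
    4 * (5 * C₁ + 1) / η + CA * (h : ℝ) ^ d / η' + 18 * 3 ^ d * C₁ + (d : ℝ) ^ d + C₁ +
    100 * d * C₁ := ⟨_, rfl⟩
  have q1 : 0 ≤ 8 * (CA * (2 * (h : ℝ)) ^ (2 * d)) / η := by positivity
  have q2 : 0 ≤ 16 * (C₁ : ℝ) / η := by positivity
  have q3 : 0 ≤ 4 * (5 * (C₁ : ℝ) + 1) / η := by positivity
  have q4 : 0 ≤ CA * (h : ℝ) ^ d / η' := by positivity
  have q5 : 0 ≤ 18 * 3 ^ d * (C₁ : ℝ) := by positivity
  have q6 : 0 ≤ (d : ℝ) ^ d := by positivity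
  have q7 : 0 ≤ 100 * (d : ℝ) * C₁ := by positivity
  have hT16 : 16 ≤ T := by rw [hT]; linarith
  refine ⟨⌈Real.exp T⌉₊, ?_⟩
  intro L K _ hL₀ hlogK hK2
  have hLexp : Real.exp T ≤ L := (Nat.le_ceil _).trans (by exact_mod_cast hL₀)
  have hLpos : 1 ≤ L := Nat.pos_of_ne_zero (NeZero.ne L)
  have hLr : (0 : ℝ) < L := by exact_mod_cast hLpos
  obtain ⟨ℓ, hℓ⟩ : ∃ ℓ, ℓ = Real.log L := ⟨_, rfl⟩
  rw [← hℓ] at hlogK
  have hℓT : T ≤ ℓ := by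
    rw [hℓ, Real.le_log_iff_exp_le hLr]
    exact hLexp
  have hℓ1 : 1 ≤ ℓ := by linarith
  have hL3 : 3 ≤ L := by
    have h1 : T + 1 ≤ Real.exp T := Real.add_one_le_exp T
    have h2 : (3 : ℝ) ≤ L := by linarith
    exact_mod_cast h2
  have hLr1 : (1 : ℝ) ≤ L := by exact_mod_cast hLpos
  have hKpos : 1 ≤ K := by
    have h1 : (1 : ℝ) ≤ K := (one_le_pow₀ hℓ1).trans hlogK
    exact_mod_cast h1
  have hKr : (1 : ℝ) ≤ K := by exact_mod_cast hKpos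
  -- the number Z
  obtain ⟨Z, hZ1, hZ2⟩ := Pool.Agent.Q297.LC.exists_root (8 * D) K (by omega)
  have hZℓ : ℓ ^ 2 < (Z : ℝ) + 1 := by
    have h1 : (ℓ ^ 2) ^ (8 * D) < ((Z : ℝ) + 1) ^ (8 * D) := by
      have h3 : (K : ℝ) < ((Z : ℝ) + 1) ^ (8 * D) := by exact_mod_cast hZ2
      rw [← pow_mul]
      linarith
    exact lt_of_pow_lt_pow_left₀ (8 * D) (by positivity) h1
  have hZT : T * ℓ ≤ Z + 1 := by
    have : T * ℓ ≤ ℓ ^ 2 := by
      rw [sq]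
      exact mul_le_mul_of_nonneg_right hℓT (by linarith only [hℓ1])
    linarith only [this, hZℓ]
  have hZℓ2 : (T - 1) * ℓ ≤ Z := by
    have : (T - 1) * ℓ = T * ℓ - ℓ := by ring
    linarith only [this, hZT, hℓ1]
  have hZT1 : T - 1 ≤ (Z : ℝ) :=
    (le_mul_of_one_le_right (by linarith only [hT16]) hℓ1).trans hZℓ2
  have hZ15 : (15 : ℝ) ≤ Z := by linarith
  have hZ15' : 15 ≤ Z := by exact_mod_cast hZ15
  have hZpos : 1 ≤ Z := by omega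
  have hZr : (1 : ℝ) ≤ Z := by exact_mod_cast hZpos
  -- the eighth root of `K`
  obtain ⟨y, hy⟩ : ∃ y : ℝ, y = (K : ℝ) ^ ((1 : ℝ) / 8) := ⟨_, rfl⟩
  have hy0 : 0 ≤ y := by rw [hy]; positivity
  have hy8 : (K : ℝ) = y ^ 8 := by
    rw [hy, ← Real.rpow_natCast, ← Real.rpow_mul (Nat.cast_nonneg K)]
    norm_num
  have hZy : (Z : ℝ) ^ D ≤ y := by
    have h1 : (Z : ℝ) ^ (8 * D) ≤ (K : ℝ) := by exact_mod_cast hZ1
    rw [hy8, mul_comm, pow_mul] at h1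
    exact (pow_le_pow_iff_left₀ (by positivity) hy0 (by norm_num)).1 h1
  have hZpw : ∀ k, k ≤ D → (Z : ℝ) ^ k ≤ y := fun k hk =>
    (pow_le_pow_right₀ hZr hk).trans hZy
  have hZy1 : (Z : ℝ) ≤ y := by
    have := hZpw 1 (by omega)
    rwa [pow_one] at this
  have hy15 : 15 ≤ y := hZ15.trans hZy1
  have hy1 : 1 ≤ y := by linarith
  have hypos : 0 < y := by linarith
  -- `y` and `L`
  have hyL16 : y ^ 16 ≤ (L : ℝ) ^ 3 := by
    have h1 : (K : ℝ) ^ 2 ≤ (L : ℝ) ^ 3 := by exact_mod_cast hK2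
    rw [hy8, ← pow_mul] at h1
    exact h1
  have hyL5 : y ^ 5 ≤ L := by
    have h1 : (y ^ 5) ^ 3 ≤ (L : ℝ) ^ 3 := by
      rw [← pow_mul]
      exact (pow_le_pow_right₀ hy1 (by norm_num)).trans hyL16
    exact (pow_le_pow_iff_left₀ (by positivity) hLr.le (by norm_num)).1 h1
  have hyL : y ≤ L := (le_self_pow₀ hy1 (by norm_num)).trans hyL5
  have hy4L : y ^ 4 ≤ L := (pow_le_pow_right₀ hy1 (by norm_num)).trans hyL5
  have hL3d : (L : ℝ) ^ 3 ≤ (L : ℝ) ^ d := pow_le_pow_right₀ hLr1 hd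
  have hy10 : y ^ 10 ≤ (L : ℝ) ^ d / 2 := by
    have h1 : y ^ 10 * 2 ≤ y ^ 16 := by
      have h2 : (2 : ℝ) ≤ y ^ 6 := by
        have : y ≤ y ^ 6 := le_self_pow₀ hy1 (by norm_num)
        linarith
      calc y ^ 10 * 2 ≤ y ^ 10 * y ^ 6 := mul_le_mul_of_nonneg_left h2 (by positivity)
        _ = y ^ 16 := by ring
    linarith
  have hKL2 : K ≤ L ^ 2 := by
    have h1 : (K : ℝ) ≤ (L : ℝ) ^ 2 := by
      have e1 : (K : ℝ) = (y ^ 4) ^ 2 := by rw [hy8]; ring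
      rw [e1]
      exact pow_le_pow_left₀ (by positivity) hy4L 2
    exact_mod_cast h1
  have hKLd : K ≤ L ^ d := hKL2.trans (Nat.pow_le_pow_right hLpos (by omega))
  -- the radius `r₁`
  obtain ⟨r₁, hr₁a, hr₁b⟩ := Pool.Agent.Q297.LC.exists_root (8 * d) (K ^ 9) (by omega)
  have hKK9 : K ≤ K ^ 9 := Nat.le_self_pow (by norm_num) K
  have hlow : ∀ N : ℕ, N ^ (8 * d) ≤ K ^ 9 → N ≤ r₁ := by
    intro N hN
    have h1 : N ^ (8 * d) < (r₁ + 1) ^ (8 * d) := lt_of_le_of_lt hN hr₁b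
    have h2 := lt_of_pow_lt_pow_left₀ (8 * d) (Nat.zero_le _) h1
    omega
  have hZr₁ : Z ^ m₁ ≤ r₁ := by
    apply hlow
    refine le_trans ?_ hKK9
    refine le_trans ?_ hZ1
    rw [← pow_mul]
    refine Nat.pow_le_pow_right hZpos ?_
    rw [hDdef]
    have : m₁ * (8 * d) = 8 * (d * m₁) := by ring
    omega
  have hdr₁ : d ≤ r₁ := by
    apply hlow
    refine le_trans ?_ hKK9
    have h1 : (d : ℝ) ^ d ≤ Z := by
      have : (d : ℝ) ^ d ≤ T - 1 := by rw [hT]; linarith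
      linarith
    have h2 : d ^ d ≤ Z := by exact_mod_cast h1
    calc d ^ (8 * d) = (d ^ d) ^ 8 := by rw [← pow_mul, mul_comm]
      _ ≤ Z ^ 8 := Nat.pow_le_pow_left h2 8
      _ ≤ Z ^ (8 * D) := Nat.pow_le_pow_right hZpos (by omega)
      _ ≤ K := hZ1
  have hr₁1 : 1 ≤ r₁ := by omega
  have hK9 : K ^ 9 ≤ (2 * r₁) ^ (8 * d) :=
    hr₁b.le.trans (Nat.pow_le_pow_left (by omega) _)
  have hr₁y : (r₁ : ℝ) ^ d ≤ y ^ 9 := by
    have h1 : (r₁ : ℝ) ^ (8 * d) ≤ (K : ℝ) ^ 9 := by exact_mod_cast hr₁a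
    rw [hy8, ← pow_mul, mul_comm 8 d, pow_mul, show 8 * 9 = 9 * 8 by norm_num, pow_mul y] at h1
    exact (pow_le_pow_iff_left₀ (by positivity) (by positivity) (by norm_num)).1 h1
  have hr₁2 : r₁ ^ 2 ≤ K * Z ^ 2 := by
    have h1 : r₁ ^ 2 ≤ K := by
      by_contra hc
      push Not at hc
      have h2 : K ^ (4 * d) < (r₁ ^ 2) ^ (4 * d) := Nat.pow_lt_pow_left hc (by omega)
      rw [← pow_mul, show 2 * (4 * d) = 8 * d by ring] at h2
      have h3 : K ^ 9 ≤ K ^ (4 * d) := Nat.pow_le_pow_right hKpos (by omega)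
      omega
    calc r₁ ^ 2 ≤ K := h1
      _ = K * 1 := (mul_one K).symm
      _ ≤ K * Z ^ 2 := Nat.mul_le_mul_left _ (Nat.one_le_pow _ _ hZpos)
  -- `w` and `κ`
  have hLd : (0 : ℝ) < (L : ℝ) ^ d := by positivity
  obtain ⟨w, hw⟩ : ∃ w : ℝ, w = 1 - y ^ 10 / (L : ℝ) ^ d := ⟨_, rfl⟩
  have hy10p : (0 : ℝ) < y ^ 10 := by positivity
  have hw1 : w < 1 := by
    rw [hw]
    have : 0 < y ^ 10 / (L : ℝ) ^ d := by positivity
    linarith
  have hw2 : 1 / 2 ≤ w := by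
    rw [hw]
    have : y ^ 10 / (L : ℝ) ^ d ≤ 1 / 2 := by
      rw [div_le_div_iff₀ hLd (by norm_num)]
      linarith
    linarith
  have hw0 : 0 ≤ w := by linarith
  have hLw : (L : ℝ) ^ d * (1 - w) = y ^ 10 := by
    rw [hw]
    field_simp
    ring
  obtain ⟨κ, hκ⟩ : ∃ κ : ℝ, κ = C₁ * ((K : ℝ) ^ (-(d / 2 : ℝ)) + 1 / ((L : ℝ) ^ d * (1 - w))) :=
    ⟨_, rfl⟩
  have hKpos' : (0 : ℝ) < K := by linarith
  have hKd : (K : ℝ) ^ ((d : ℝ) / 2) = y ^ (4 * d) := by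
    rw [hy8, ← Real.rpow_natCast, ← Real.rpow_natCast, ← Real.rpow_mul hy0]
    congr 1
    push_cast
    ring
  have hKd' : (K : ℝ) ^ (-((d : ℝ) / 2)) ≤ 1 / y ^ 10 := by
    rw [Real.rpow_neg hKpos'.le, hKd, one_div]
    exact inv_anti₀ hy10p (pow_le_pow_right₀ hy1 (by omega))
  have hκ0 : 0 ≤ κ := by
    rw [hκ, hLw]
    have : 0 ≤ (K : ℝ) ^ (-(d / 2 : ℝ)) := Real.rpow_nonneg (by linarith) _
    positivity
  have hκ1 : κ ≤ 2 * C₁ / y ^ 10 := by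
    rw [hκ, hLw]
    calc (C₁ : ℝ) * ((K : ℝ) ^ (-(d / 2 : ℝ)) + 1 / y ^ 10) ≤ C₁ * (1 / y ^ 10 + 1 / y ^ 10) := by
          gcongr
      _ = _ := by ring
  have hr₁3 : ((2 * r₁ + 1 : ℕ) : ℝ) ^ d ≤ 3 ^ d * y ^ 9 := by
    have h1 : ((2 * r₁ + 1 : ℕ) : ℝ) ≤ 3 * r₁ := by
      have : 2 * r₁ + 1 ≤ 3 * r₁ := by omega
      exact_mod_cast this
    calc ((2 * r₁ + 1 : ℕ) : ℝ) ^ d ≤ (3 * (r₁ : ℝ)) ^ d := pow_le_pow_left₀ (by positivity) h1 d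
      _ = 3 ^ d * (r₁ : ℝ) ^ d := by rw [mul_pow]
      _ ≤ _ := mul_le_mul_of_nonneg_left hr₁y (by positivity)
  have hZT2 : 18 * 3 ^ d * (C₁ : ℝ) ≤ Z := by
    have : 18 * 3 ^ d * (C₁ : ℝ) ≤ T - 1 := by rw [hT]; linarith
    linarith
  have hZ2y : (Z : ℝ) ^ 2 ≤ y := hZpw 2 (by omega)
  have hkey : ((2 * r₁ + 1 : ℕ) : ℝ) ^ d * ((Z + 2) * κ) ≤ Real.exp (-1) := by
    have h1 : ((2 * r₁ + 1 : ℕ) : ℝ) ^ d * ((Z + 2) * κ) ≤
        3 ^ d * y ^ 9 * ((3 * Z) * (2 * C₁ / y ^ 10)) := by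
      have : (Z : ℝ) + 2 ≤ 3 * Z := by linarith
      gcongr
    have h2 : 3 ^ d * y ^ 9 * ((3 * Z) * (2 * C₁ / y ^ 10)) = 6 * 3 ^ d * C₁ * Z / y := by
      field_simp
      ring
    have h3 : 6 * 3 ^ d * C₁ * Z / y ≤ 1 / 3 := by
      rw [div_le_div_iff₀ hypos (by norm_num)]
      calc 6 * 3 ^ d * (C₁ : ℝ) * Z * 3 = (18 * 3 ^ d * C₁) * Z := by ring
        _ ≤ Z * Z := mul_le_mul_of_nonneg_right hZT2 (by linarith only [hZr])
        _ = (Z : ℝ) ^ 2 := by ring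
        _ ≤ y := hZ2y
        _ = 1 * y := (one_mul y).symm
    have h4 : (1 : ℝ) / 3 ≤ Real.exp (-1) := by
      rw [Real.exp_neg, one_div]
      refine inv_anti₀ (Real.exp_pos 1) ?_
      have := Real.exp_one_lt_d9
      linarith
    rw [h2] at h1
    linarith
  have hκZ : ((Z : ℝ) + 2) * κ ≤ 1 := by
    have h1 : 1 ≤ ((2 * r₁ + 1 : ℕ) : ℝ) ^ d := one_le_pow₀ (by
      have : 1 ≤ 2 * r₁ + 1 := by omega
      exact_mod_cast this)
    have h2 : Real.exp (-1) ≤ 1 := Real.exp_le_one_iff.2 (by norm_num)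
    have h3 : 0 ≤ ((Z : ℝ) + 2) * κ := by positivity
    exact (le_mul_of_one_le_left h3 h1).trans (hkey.trans h2)
  have hrL : (Z + 1) * (2 * r₁ + 1) ^ d ≤ L ^ d := by
    have h1 : ((Z : ℝ) + 1) * ((2 * r₁ + 1 : ℕ) : ℝ) ^ d ≤ (L : ℝ) ^ d := by
      calc ((Z : ℝ) + 1) * ((2 * r₁ + 1 : ℕ) : ℝ) ^ d ≤ (2 * Z) * (3 ^ d * y ^ 9) := by
            have : (Z : ℝ) + 1 ≤ 2 * Z := by linarith
            gcongr
        _ = (2 * 3 ^ d) * (Z * y ^ 9) := by ring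
        _ ≤ Z * (Z * y ^ 9) := by
            have : 2 * (3 : ℝ) ^ d ≤ Z := by
              have : 2 * (3 : ℝ) ^ d ≤ 18 * 3 ^ d * C₁ := by
                have h0 : (0 : ℝ) < 3 ^ d := by positivity
                calc 2 * (3 : ℝ) ^ d ≤ 18 * 3 ^ d := by linarith only [h0]
                  _ ≤ 18 * 3 ^ d * C₁ := le_mul_of_one_le_right (by positivity) hC₁'
              exact this.trans hZT2
            gcongr
        _ = (Z : ℝ) ^ 2 * y ^ 9 := by ring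
        _ ≤ y * y ^ 9 := by gcongr
        _ = y ^ 10 := by ring
        _ ≤ (L : ℝ) ^ d / 2 := hy10
        _ ≤ (L : ℝ) ^ d := by linarith
    exact_mod_cast h1
  have hZL : 8 * Z ^ m₁ ≤ L := by
    have h1 : 8 * (Z : ℝ) ^ m₁ ≤ L := by
      calc 8 * (Z : ℝ) ^ m₁ ≤ Z * (Z : ℝ) ^ m₁ := by
            have : (8 : ℝ) ≤ Z := by linarith
            gcongr
        _ = (Z : ℝ) ^ (m₁ + 1) := by ring
        _ ≤ y := by
            refine hZpw _ ?_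
            rw [hDdef]
            have : m₁ ≤ d * m₁ := Nat.le_mul_of_pos_left _ (by omega)
            omega
        _ ≤ L := hyL
    exact_mod_cast h1
  have hZK : Z ^ m₁ ≤ K := by
    refine (Nat.pow_le_pow_right hZpos ?_).trans hZ1
    rw [hDdef]
    have : m₁ ≤ d * m₁ := Nat.le_mul_of_pos_left _ (by omega)
    omega
  have hC₁Z : C₁ ≤ Z := by
    have h1 : (C₁ : ℝ) ≤ Z := by
      have : (C₁ : ℝ) ≤ T - 1 := by rw [hT]; linarith
      linarith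
    exact_mod_cast h1
  have h100 : 100 * d * C₁ * Real.log L ≤ Z := by
    rw [← hℓ]
    have h1 : 100 * (d : ℝ) * C₁ ≤ T - 1 := by rw [hT]; linarith
    calc 100 * (d : ℝ) * C₁ * ℓ ≤ (T - 1) * ℓ := mul_le_mul_of_nonneg_right h1 (by linarith)
      _ ≤ Z := hZℓ2
  have hLZ : (L : ℝ) ^ d ≤ Real.exp Z := by
    rw [Pool.Agent.Q297.LC.pow_exp hLpos, Real.exp_le_exp]
    refine le_trans ?_ h100
    rw [← hℓ]
    have : (d : ℝ) ≤ 100 * d * C₁ := by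
      calc (d : ℝ) ≤ 100 * d := by linarith only [hd0]
        _ ≤ 100 * d * C₁ := le_mul_of_one_le_right (by positivity) hC₁'
    exact mul_le_mul_of_nonneg_right this (by linarith only [hℓ1])
  -- the two packages
  obtain ⟨q₀, hq₀⟩ := hBTL Z hC₁Z L K Z r₁ Z ((Z - 1) / 2) le_rfl le_rfl (by omega) hLZ
    hZr₁ hZL hZK hKLd
  have hbig : ((CA : ℝ) * (Z : ℝ) ^ (d + 2) * (h : ℝ) ^ d / η') ^ 8 ≤ K := by
    rw [hy8]
    refine pow_le_pow_left₀ (by positivity) ?_ 8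
    have h1 : CA * (h : ℝ) ^ d / η' ≤ Z := by
      have : CA * (h : ℝ) ^ d / η' ≤ T - 1 := by rw [hT]; linarith
      linarith
    calc (CA : ℝ) * (Z : ℝ) ^ (d + 2) * (h : ℝ) ^ d / η' =
          (CA * (h : ℝ) ^ d / η') * (Z : ℝ) ^ (d + 2) := by ring
      _ ≤ Z * (Z : ℝ) ^ (d + 2) := by gcongr
      _ = (Z : ℝ) ^ (d + 3) := by ring
      _ ≤ y := hZpw _ (by omega)
  obtain ⟨q₁, hq₁⟩ := hLAM h hh Z hZpos η' hη'0 hη'2 L K Z r₁ Z (2 * ((Z - 1) / 2)) le_rfl le_rfl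
    hLZ hL3 hKL2 hdr₁ hK9 hr₁2 hbig
  refine ⟨max (max q₀ q₁) 2, ?_⟩
  intro q hq σ hσ δ hδ1 hδ2
  have hqa : q₀ ≤ q := ((le_max_left _ _).trans (le_max_left _ _)).trans hq
  have hqb : q₁ ≤ q := ((le_max_right _ _).trans (le_max_left _ _)).trans hq
  have hqc : (2 : ℝ) ≤ q := by exact_mod_cast (le_max_right _ _).trans hq
  have hδ0 : 0 ≤ δ := by
    by_contra hcon
    push Not at hcon
    have : δ * q ≤ 0 := mul_nonpos_of_nonpos_of_nonneg hcon.le (Nat.cast_nonneg _)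
    linarith only [this, hδ1]
  have hδle : δ ≤ 1 := by
    by_contra hcon
    push Not at hcon
    have h0 : (0 : ℝ) < q := by linarith only [hqc]
    have : (q : ℝ) < δ * q := lt_mul_of_one_lt_left h0 hcon
    linarith only [this, hδ2, hqc]
  obtain ⟨b1, b2⟩ := hq₀ q hqa σ hσ δ hδ1 hδ2 w hw0 hw1 κ hκ hκZ
  have b4 := Pool.Agent.Q297.LC.fail_bound (d := d) (C₁ := C₁) (L := L) (K := K) (Z := Z) (r := r₁)
    (κ := κ) (by omega) hC₁ hLpos h100 hKLd hrL hκ0 hkey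
  have b5 := b1.trans b4
  -- `r`
  obtain ⟨s, hs⟩ : ∃ s, s = Nat.sqrt K := ⟨_, rfl⟩
  have hsq : Real.sqrt K = y ^ 4 := by
    rw [hy8, show y ^ 8 = (y ^ 4) ^ 2 by ring, Real.sqrt_sq (by positivity)]
  have hs1 : (s : ℝ) ≤ y ^ 4 := by rw [hs, ← hsq]; exact Real.nat_sqrt_le_real_sqrt
  have hs2 : y ^ 4 < s + 1 := by rw [hs, ← hsq]; exact Real.real_sqrt_lt_nat_sqrt_succ
  have hhT : (h : ℝ) ≤ Z := by
    have : (h : ℝ) ≤ T - 1 := by rw [hT]; linarith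
    linarith
  have hh1 : 1 ≤ h := hCA.trans hh
  have hsh : h ≤ s := by
    have e1 : (h : ℝ) < s + 1 := by
      have : y ≤ y ^ 4 := le_self_pow₀ hy1 (by norm_num)
      linarith
    have e3 : h < s + 1 := by exact_mod_cast e1
    omega
  have hr1 : 1 ≤ Nat.sqrt K / h := by
    rw [← hs]
    exact Nat.div_pos hsh (by omega)
  have hrLL : Nat.sqrt K / h ≤ L := by
    rw [← hs]
    refine (Nat.div_le_self _ _).trans ?_
    have : (s : ℝ) ≤ L := hs1.trans hy4L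
    exact_mod_cast this
  refine ⟨hr1, hrLL, ?_⟩
  obtain ⟨r, hr⟩ : ∃ r, r = Nat.sqrt K / h := ⟨_, rfl⟩
  rw [← hr] at hr1 hrLL ⊢
  have hrh : y ^ 4 ≤ 2 * h * r := by
    have e1 : s < s / h * h + h := Nat.lt_div_mul_add (by omega)
    rw [hs, ← hr, ← hs] at e1
    have e2 : s + 1 ≤ 2 * h * r := by
      calc s + 1 ≤ r * h + h := e1
        _ ≤ r * h + r * h := Nat.add_le_add_left (Nat.le_mul_of_pos_left _ hr1) _
        _ = 2 * h * r := by ring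
    have e3 : (s : ℝ) + 1 ≤ 2 * h * r := by exact_mod_cast e2
    linarith only [e3, hs2]
  have hr0 : (0 : ℝ) < r := by exact_mod_cast hr1
  obtain ⟨Λ, hΛ⟩ : ∃ Λ : ℝ, Λ = CA * (K : ℝ) ^ (d / 2 : ℝ) / (r : ℝ) ^ (2 * d) := ⟨_, rfl⟩
  have hΛ0 : 0 ≤ Λ := by
    rw [hΛ]
    have : 0 ≤ (K : ℝ) ^ (d / 2 : ℝ) := Real.rpow_nonneg hKpos'.le _
    positivity
  obtain ⟨n, hn⟩ : ∃ n, n = K * (q * ms d L) := ⟨_, rfl⟩
  obtain ⟨B, hB⟩ : ∃ B : (ℕ → Bool) → Finset (Fin d → ZMod L) → Prop, B = fun ω A =>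
    Gd σ q K Z r₁ Z (2 * ((Z - 1) / 2)) ω A := ⟨_, rfl⟩
  have hBm : ∀ A, Rmeas (ed ∘ σ) n A (fun ω => B ω A) := by
    intro A
    rw [hB, hn]
    exact (Pool.Agent.Q154.LC.gdm d L σ q K Z r₁ Z (2 * ((Z - 1) / 2))).1 A
  have hall : ∀ ω A, B ω A → (∀ v, ((Dmg (ed ∘ σ) ω A δ ε n ∩ box v r).card : ℝ) ≤
      η' * (r : ℝ) ^ d) ∧ ∀ z,
      phz r (Dmg (ed ∘ σ) ω A δ ε n) z ⬝ᵥ ((1 - w • (dg (univ \ A) * TT (ed ∘ σ) ω A δ n))⁻¹ *ᵥ
        phz r (Dmg (ed ∘ σ) ω A δ ε n) z) ≤ Λ := by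
    intro ω A hBA
    rw [hB] at hBA
    obtain ⟨Dm, hDm⟩ : ∃ Dm, Dm = Dmg (ed ∘ σ) ω A δ ε (K * (q * ms d L)) := ⟨_, rfl⟩
    obtain ⟨-, -, -, a1, a2⟩ := hq₁ q hqb σ hσ δ hδ1 hδ2 ω A hBA r hr Dm hDm
    rw [hn, hΛ, ← hDm]
    exact ⟨a1, fun z => a2 z w hw2 hw1⟩
  rw [← hn] at b5 b2 ⊢
  have b5' : PW (ed ∘ σ) n δ w (fun ω A => ¬ B ω A) ≤ (5 * C₁ + 1) * (1 / (L : ℝ) ^ d) := by
    rw [hB]
    exact b5
  have b2' : ∀ x, PW (ed ∘ σ) n δ w (fun ω A => x ∈ A ∧ B ω A) ≤ κ := by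
    rw [hB]
    exact b2
  have hmain := lc_dev_exp (ed ∘ σ) n δ w ε η' Λ κ
    ((5 * C₁ + 1) * (1 / (L : ℝ) ^ d)) r B hδ0 hδle hw0 hw1 hr1 hrLL hη'0.le hη'2 hΛ0
    hBm (fun ω A h => (hall ω A h).1) (fun ω A h => (hall ω A h).2) b5' b2'
  refine hmain.trans ?_
  -- the four terms
  have t1 : 2 * ((L : ℝ) ^ d * ((1 - w) * Λ)) ≤ η / 4 := by
    have e1 : (L : ℝ) ^ d * ((1 - w) * Λ) = y ^ 10 * Λ := by
      rw [← mul_assoc, hLw]
    rw [e1, hΛ, hKd]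
    have e2 : (y ^ 4) ^ (2 * d) ≤ (2 * (h : ℝ)) ^ (2 * d) * (r : ℝ) ^ (2 * d) := by
      rw [← mul_pow]
      exact pow_le_pow_left₀ (by positivity) hrh _
    have e3 : (CA : ℝ) * y ^ (4 * d) / (r : ℝ) ^ (2 * d) ≤
        CA * (2 * (h : ℝ)) ^ (2 * d) / y ^ (4 * d) := by
      rw [div_le_div_iff₀ (by positivity) (by positivity)]
      calc (CA : ℝ) * y ^ (4 * d) * y ^ (4 * d) = CA * (y ^ 4) ^ (2 * d) := by
            rw [← pow_mul, mul_assoc, ← pow_add]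
            congr 2
            ring
        _ ≤ CA * ((2 * (h : ℝ)) ^ (2 * d) * (r : ℝ) ^ (2 * d)) :=
            mul_le_mul_of_nonneg_left e2 (by positivity)
        _ = _ := by ring
    have e4 : y ^ 10 * (CA * (2 * (h : ℝ)) ^ (2 * d) / y ^ (4 * d)) ≤
        CA * (2 * (h : ℝ)) ^ (2 * d) / y := by
      rw [← mul_div_assoc, div_le_div_iff₀ (by positivity) hypos]
      have e5 : y ^ 11 ≤ y ^ (4 * d) := pow_le_pow_right₀ hy1 (by omega)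
      calc y ^ 10 * (CA * (2 * (h : ℝ)) ^ (2 * d)) * y = (CA * (2 * (h : ℝ)) ^ (2 * d)) * y ^ 11 := by
            ring
        _ ≤ _ := mul_le_mul_of_nonneg_left e5 (by positivity)
    have e6 : CA * (2 * (h : ℝ)) ^ (2 * d) / y ≤ η / 8 := by
      rw [div_le_div_iff₀ hypos (by norm_num)]
      have e7 : 8 * (CA * (2 * (h : ℝ)) ^ (2 * d)) / η ≤ y := by
        have : 8 * (CA * (2 * (h : ℝ)) ^ (2 * d)) / η ≤ T - 1 := by rw [hT]; linarith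
        linarith
      rw [div_le_iff₀ hη] at e7
      linarith
    calc 2 * (y ^ 10 * (CA * y ^ (4 * d) / (r : ℝ) ^ (2 * d)))
        ≤ 2 * (y ^ 10 * (CA * (2 * (h : ℝ)) ^ (2 * d) / y ^ (4 * d))) := by gcongr
      _ ≤ 2 * (η / 8) := by linarith
      _ = η / 4 := by ring
  have t2 : 2 * κ ≤ η / 4 := by
    have e1 : 2 * (C₁ : ℝ) / y ^ 10 ≤ 2 * C₁ / y := by
      have : y ≤ y ^ 10 := le_self_pow₀ hy1 (by norm_num)
      gcongr
    have e2 : 2 * (C₁ : ℝ) / y ≤ η / 8 := by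
      rw [div_le_div_iff₀ hypos (by norm_num)]
      have e7 : 16 * (C₁ : ℝ) / η ≤ y := by
        have : 16 * (C₁ : ℝ) / η ≤ T - 1 := by rw [hT]; linarith
        linarith
      rw [div_le_iff₀ hη] at e7
      linarith
    linarith
  have t3 : (5 * C₁ + 1) * (1 / (L : ℝ) ^ d) ≤ η / 4 := by
    have e1 : y ≤ (L : ℝ) ^ d := hyL.trans (le_self_pow₀ hLr1 (by omega))
    have e2 : (5 * (C₁ : ℝ) + 1) * (1 / (L : ℝ) ^ d) ≤ (5 * C₁ + 1) * (1 / y) := by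
      have := one_div_le_one_div_of_le hypos e1
      gcongr
    have e3 : (5 * (C₁ : ℝ) + 1) * (1 / y) ≤ η / 4 := by
      rw [mul_one_div, div_le_div_iff₀ hypos (by norm_num)]
      have e7 : 4 * (5 * (C₁ : ℝ) + 1) / η ≤ y := by
        have : 4 * (5 * (C₁ : ℝ) + 1) / η ≤ T - 1 := by rw [hT]; linarith
        linarith
      rw [div_le_iff₀ hη] at e7
      linarith
    linarith
  linarith

end Pool.Agent.U153
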