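import Pool.Agent.Q292.LC.Stm7
import Pool.Agent.Q68.LC.Bas2
import Pool.Agent.Q68.LC.Grn

/-!
# Resolvent and energy (statement ENG of the project LC)
-/

set_option autoImplicit false

namespace Pool.Agent.U153

open Finset Equiv Matrix Q292.LC

section gen

variable {V : Type} [Fintype V] [DecidableEq V]

theorem lc_rowmul (T : Matrix V V ℝ) (w : ℝ) (A : Finset V) (f : V → ℝ) (x : V) :
    ((1 - w • (dg (univ \ A) * T)) *ᵥ f) x = f x - (if x ∈ A then 0 else w * (T *ᵥ f) x) := by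
  rw [Matrix.sub_mulVec, Matrix.one_mulVec, Matrix.smul_mulVec, ← Matrix.mulVec_mulVec]
  unfold dg
  rw [Pi.sub_apply, Pi.smul_apply, Matrix.mulVec_diagonal]
  by_cases hx : x ∈ A
  · simp [hx]
  · simp [hx]

/-- the solution of `(1 - w 1_{A^c} T) f = φ`, `φ = 0` on `A`: the scalar product with `φ` -/
theorem lc_dot (T : Matrix V V ℝ) (w : ℝ) (A : Finset V) (f φ : V → ℝ)
    (hφ : ∀ a ∈ A, φ a = 0) (hf : (1 - w • (dg (univ \ A) * T)) *ᵥ f = φ) :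
    (∀ a ∈ A, f a = 0) ∧ (∀ x, x ∉ A → φ x = f x - w * (T *ᵥ f) x) ∧
    φ ⬝ᵥ f = ∑ x, (f x) ^ 2 - w * ∑ x, ∑ y, T x y * (f x * f y) := by
  have h1 : ∀ a ∈ A, f a = 0 := by
    intro a ha
    have h := congrFun hf a
    rw [lc_rowmul, if_pos ha, sub_zero, hφ a ha] at h
    exact h
  have h2 : ∀ x, x ∉ A → φ x = f x - w * (T *ᵥ f) x := by
    intro x hx
    have h := congrFun hf x
    rw [lc_rowmul, if_neg hx] at h
    exact h.symm
  refine ⟨h1, h2, ?_⟩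
  have h3 : ∀ x, φ x * f x = (f x) ^ 2 - w * ∑ y, T x y * (f x * f y) := by
    intro x
    by_cases hx : x ∈ A
    · rw [hφ x hx, h1 x hx]
      simp
    · rw [h2 x hx]
      have : (T *ᵥ f) x = ∑ y, T x y * f y := rfl
      rw [this, sub_mul, mul_assoc, Finset.sum_mul]
      congr 1
      · ring
      · congr 1
        refine Finset.sum_congr rfl fun y _ => ?_
        ring
  unfold dotProduct
  simp only [h3]
  rw [Finset.sum_sub_distrib, ← Finset.mul_sum]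

theorem lc_isUnit {T : Matrix V V ℝ} (hT0 : ∀ x y, 0 ≤ T x y) (hTr : ∀ x, ∑ y, T x y = 1)
    {w : ℝ} (h0 : 0 ≤ w) (h1 : w < 1) (A : Finset V) :
    IsUnit (1 - w • (dg (univ \ A) * T)).det :=
  isUnit_iff_ne_zero.2 (Pool.Agent.Q68.LC.det_ne
    (Pool.Agent.Q68.LC.SS_dg ⟨hT0, fun x => (hTr x).le⟩ _) h0 h1)

/-- the energy of a doubly stochastic matrix -/
theorem lc_energy {T : Matrix V V ℝ} (hTr : ∀ x, ∑ y, T x y = 1) (hTc : ∀ y, ∑ x, T x y = 1)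
    (f : V → ℝ) : ∑ x, ∑ y, T x y * (f x - f y) ^ 2 =
      2 * ∑ x, (f x) ^ 2 - 2 * ∑ x, ∑ y, T x y * (f x * f y) := by
  have h1 : ∑ x, ∑ y, T x y * (f x) ^ 2 = ∑ x, (f x) ^ 2 := by
    refine Finset.sum_congr rfl fun x _ => ?_
    rw [← Finset.sum_mul, hTr, one_mul]
  have h2 : ∑ x, ∑ y, T x y * (f y) ^ 2 = ∑ x, (f x) ^ 2 := by
    rw [Finset.sum_comm]
    refine Finset.sum_congr rfl fun x _ => ?_
    rw [← Finset.sum_mul, hTc, one_mul]
  have h3 : ∀ x y, T x y * (f x - f y) ^ 2 = T x y * (f x) ^ 2 + T x y * (f y) ^ 2 -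
      2 * (T x y * (f x * f y)) := fun x y => by ring
  simp only [h3, Finset.sum_sub_distrib, Finset.sum_add_distrib, ← Finset.mul_sum]
  rw [h1, h2]
  ring

/-- ENG -/
theorem lc_eng : S_ENG := by
  intro V _ _ e ω A n δ w Λ φ hδ0 hδ1 hw0 hw1 hΛ hφ hE
  obtain ⟨hT0, hTr, hTc, -, -, -⟩ := Pool.Agent.Q68.LC.bas2 V e ω A δ hδ0 hδ1
  obtain ⟨T, hT⟩ : ∃ T, T = TT e ω A δ n := ⟨_, rfl⟩
  have hT0' : ∀ x y, 0 ≤ T x y := fun x y => by rw [hT]; exact hT0 n x y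
  have hTr' : ∀ x, ∑ y, T x y = 1 := fun x => by rw [hT]; exact hTr n x
  have hTc' : ∀ y, ∑ x, T x y = 1 := fun y => by rw [hT]; exact hTc n y
  rw [← hT] at hE ⊢
  have hw00 : (0 : ℝ) ≤ w := by linarith
  have hdet := lc_isUnit hT0' hTr' hw00 hw1 A
  obtain ⟨f, hf⟩ : ∃ f, f = (1 - w • (dg (univ \ A) * T))⁻¹ *ᵥ φ := ⟨_, rfl⟩
  have hf2 : (1 - w • (dg (univ \ A) * T)) *ᵥ f = φ := by
    rw [hf, Matrix.mulVec_mulVec, Matrix.mul_nonsing_inv _ hdet, Matrix.one_mulVec]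
  rw [← hf]
  obtain ⟨-, -, h3⟩ := lc_dot T w A f φ hφ hf2
  have h4 := lc_energy hTr' hTc' f
  have h5 := hE f
  have hE0 : 0 ≤ ∑ x, ∑ y, T x y * (f x - f y) ^ 2 :=
    Finset.sum_nonneg fun x _ => Finset.sum_nonneg fun y _ => mul_nonneg (hT0' x y) (sq_nonneg _)
  have hF0 : 0 ≤ ∑ x, (f x) ^ 2 := Finset.sum_nonneg fun x _ => sq_nonneg _
  generalize ∑ x, ∑ y, T x y * (f x - f y) ^ 2 = E at *
  generalize ∑ x, ∑ y, T x y * (f x * f y) = S at *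
  generalize ∑ x, (f x) ^ 2 = F at *
  generalize φ ⬝ᵥ f = X at *
  have h6 : X = (1 - w) * F + w / 2 * E := by rw [h3, h4]; ring
  have h7 : E / 4 ≤ X := by
    rw [h6]
    nlinarith
  by_contra hc
  push Not at hc
  have hX : 0 < X := lt_of_le_of_lt (by positivity) hc
  have : X ^ 2 ≤ Λ * (4 * X) := h5.trans (mul_le_mul_of_nonneg_left (by linarith) hΛ)
  nlinarith

end gen

end Pool.Agent.U153
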