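import Pool.Agent.U153.LcPd
import Pool.Agent.R517.PDS.Fin5

/-!
# Several points in one cycle and the Poisson-Dirichlet law for all sets at polylogarithmic times
-/

set_option autoImplicit false

namespace Pool.Agent.U153

open Finset Equiv Q292.LC
open Pool.Agent.Y998.ST (stirExp nnRate stirLaw nn_nonneg law_nonneg)
open Pool.Agent.Y998.LP (NN bfrac tdist)
open Pool.Agent.TH268.PD (top pdm)
open Pool.Agent.R517.PDS (DR PP hom_shift dens QQ_mean II_eq one_cycle exists_tuple zero_box QQ)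
open Pool.Agent.Results.MP_b817cf_pr.LocalPoissonDirichlet (cycleFrac setFrac pdMean frac_eq pd_eq
  torusDist)

/-- long times -/
theorem lc_long (d : ℕ) (hd : 3 ≤ d) (A : ℝ) (hA : 0 < A) (L : ℕ) (hL1 : 1 ≤ L)
    (hLA4 : A ^ 4 ≤ L) (t : ℝ) (ht00 : 0 ≤ t) (hcase : (L : ℝ) ^ 3 ≤ t ^ 2) :
    A * (L : ℝ) ^ (((d : ℝ) + 2) / (d + 1)) ≤ t := by
  have hd0 : (3 : ℝ) ≤ d := by exact_mod_cast hd
  have hL1r : (1 : ℝ) ≤ L := by exact_mod_cast hL1
  have hL0 : (0 : ℝ) < L := by linarith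
  have h1 : (L : ℝ) ^ (((d : ℝ) + 2) / (d + 1)) ≤ (L : ℝ) ^ ((5 : ℝ) / 4) := by
    refine Real.rpow_le_rpow_of_exponent_le hL1r ?_
    rw [div_le_div_iff₀ (by positivity) (by norm_num)]
    linarith
  have h2 : A ≤ (L : ℝ) ^ ((1 : ℝ) / 4) := by
    have h3 : (A ^ 4) ^ ((1 : ℝ) / 4) ≤ (L : ℝ) ^ ((1 : ℝ) / 4) :=
      Real.rpow_le_rpow (by positivity) hLA4 (by norm_num)
    have h4 : (A ^ 4) ^ ((1 : ℝ) / 4) = A := by
      rw [← Real.rpow_natCast, ← Real.rpow_mul hA.le]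
      norm_num
    rwa [h4] at h3
  have h3 : (L : ℝ) ^ ((3 : ℝ) / 2) ≤ t := by
    have h4 : ((L : ℝ) ^ ((3 : ℝ) / 2)) ^ 2 ≤ t ^ 2 := by
      rw [← Real.rpow_natCast, ← Real.rpow_mul hL0.le]
      have : (3 : ℝ) / 2 * ((2 : ℕ) : ℝ) = ((3 : ℕ) : ℝ) := by norm_num
      rw [this, Real.rpow_natCast]
      exact hcase
    exact (pow_le_pow_iff_left₀ (by positivity) ht00 (by norm_num)).1 h4
  calc A * (L : ℝ) ^ (((d : ℝ) + 2) / (d + 1)) ≤ (L : ℝ) ^ ((1 : ℝ) / 4) * (L : ℝ) ^ ((5 : ℝ) / 4) :=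
        mul_le_mul h2 h1 (by positivity) (by positivity)
    _ = (L : ℝ) ^ ((3 : ℝ) / 2) := by
        rw [← Real.rpow_add hL0]
        norm_num
    _ ≤ t := h3

section torus

variable {d L : ℕ} [NeZero L]

theorem lc_box_image (r : ℕ) (z : Fin d → ZMod L) :
    (Pool.Agent.R517.PDS.box d L r).image (fun b => z + b) = Q292.LC.box z r := by
  ext x
  unfold Pool.Agent.R517.PDS.box Q292.LC.box
  rw [Finset.mem_image, Finset.mem_filter]
  constructor
  · rintro ⟨b, hb, rfl⟩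
    rw [Finset.mem_filter] at hb
    refine ⟨Finset.mem_univ _, fun i => ?_⟩
    rw [Pi.add_apply, add_sub_cancel_left]
    exact hb.2 i
  · rintro ⟨-, h⟩
    refine ⟨x - z, ?_, by abel⟩
    rw [Finset.mem_filter]
    exact ⟨Finset.mem_univ _, fun i => h i⟩

theorem lc_card_pbox {r : ℕ} (hrL : r ≤ L) : (Pool.Agent.R517.PDS.box d L r).card = r ^ d := by
  have h1 := lc_box_image (d := d) (L := L) r 0
  have h2 := congrArg Finset.card h1
  rw [Finset.card_image_of_injective _ (fun a b h => add_left_cancel h),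
    Pool.Agent.Q187.LC.Nas.card_box _ r hrL] at h2
  exact h2

/-- the homogenization estimate for a box -/
theorem lc_hom {r : ℕ} (hr : 1 ≤ r) (hrL : r ≤ L) (t η : ℝ)
    (h : stirExp (nnRate d L) t (fun g => Qb r g - Qv g) ≤ η) :
    stirExp (nnRate d L) t (fun g => DR g Finset.univ fun x =>
      (if x ∈ Pool.Agent.R517.PDS.box d L r then
        1 / ((Pool.Agent.R517.PDS.box d L r).card : ℝ) else 0) -
        1 / (Fintype.card (Fin d → ZMod L) : ℝ)) ≤ η := by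
  obtain ⟨z, hz⟩ := lc_exists_box hr hrL t η h
  have hB : 0 < (Pool.Agent.R517.PDS.box d L r).card := by
    rw [lc_card_pbox hrL]
    positivity
  rw [← hom_shift t _ hB z]
  refine le_trans (le_of_eq ?_) hz
  congr 1
  funext g
  rw [← lc_DR hrL g z]
  congr 1
  funext x
  rw [lc_box_image]
  unfold Pool.Agent.R517.PDL.ds
  rw [if_pos (Finset.mem_univ x), Finset.card_univ]

end torus

/-- all of `K` given points are in one cycle with probability about `1 / K` -/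
theorem lc_kpt (d : ℕ) (hd : 3 ≤ d) : ∃ m : ℕ, ∀ K : ℕ, 1 ≤ K → ∀ ε : ℝ, 0 < ε → ∃ L₀ : ℕ,
    ∀ (L : ℕ) [NeZero L], L₀ ≤ L → ∀ t : ℝ, (Real.log L) ^ m ≤ t →
    ∀ b : Fin K → Fin d → ZMod L, Function.Injective b →
      |stirExp (nnRate d L) t (fun g =>
        (open Classical in if ∀ i j, g.SameCycle (b i) (b j) then (1 : ℝ) else 0)) - 1 / K| ≤
        ε := by
  obtain ⟨m, hm⟩ := lc_dev_stir d hd
  refine ⟨m, ?_⟩
  intro K hK ε hε
  obtain ⟨C, hC, hdist⟩ := Pool.Agent.Y998.LQ.t_dist d (by omega)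
  have hK1 : (1 : ℝ) ≤ K := by exact_mod_cast hK
  obtain ⟨A, hA, hlong⟩ := Pool.Agent.R517.PDS.kpt d (by omega) K hK ε hε
  obtain ⟨δ, hδ⟩ : ∃ δ : ℝ, δ = ε / (20 * K * C) := ⟨_, rfl⟩
  have hδ0 : 0 < δ := by rw [hδ]; positivity
  have hδ2 : 20 * K * (C * δ) = ε := by rw [hδ]; field_simp
  obtain ⟨θ, hθ⟩ : ∃ θ : ℝ, θ = ε / (8 * K) := ⟨_, rfl⟩
  have hθ0 : 0 < θ := by rw [hθ]; positivity
  have hθ1 : 8 * K * θ = ε := by rw [hθ]; field_simp
  obtain ⟨N₀, hN₀⟩ := exists_nat_gt (24 * (K : ℝ) ^ 2 / ε + K)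
  obtain ⟨L₁, hL₁⟩ := hm δ hδ0 N₀ (θ ^ 2) (by positivity)
  refine ⟨max L₁ (⌈A ^ 4⌉₊ + ⌈A⌉₊ + 3), ?_⟩
  intro L _ hL t ht b hb
  have hLa : L₁ ≤ L := (le_max_left _ _).trans hL
  have hLb : ⌈A ^ 4⌉₊ + ⌈A⌉₊ + 3 ≤ L := (le_max_right _ _).trans hL
  have hL3 : 3 ≤ L := by omega
  have hLA4 : A ^ 4 ≤ L := (Nat.le_ceil _).trans (by exact_mod_cast (by omega : ⌈A ^ 4⌉₊ ≤ L))
  have hLA : A ≤ L := (Nat.le_ceil _).trans (by exact_mod_cast (by omega : ⌈A⌉₊ ≤ L))
  have hlog0 : 0 ≤ Real.log L := Real.log_natCast_nonneg L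
  have ht00 : 0 ≤ t := (pow_nonneg hlog0 m).trans ht
  rcases le_or_gt (t ^ 2) ((L : ℝ) ^ 3) with hcase | hcase
  · obtain ⟨r, hr1, hrL, hrN, hrd, hQ⟩ := hL₁ L hLa t ht hcase
    have hh := lc_hom hr1 hrL t _ hQ
    have ht0 : 0 < t := by
      rcases ht00.lt_or_eq with h | h
      · exact h
      · exfalso
        rw [← h, Real.sqrt_zero, mul_zero] at hrd
        have h1 : (1 : ℝ) ≤ r := by exact_mod_cast hr1
        have hd0 : (3 : ℝ) ≤ d := by exact_mod_cast hd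
        nlinarith
    have hst : 0 < Real.sqrt t := Real.sqrt_pos.2 ht0
    obtain ⟨B, hB⟩ : ∃ B, B = Pool.Agent.R517.PDS.box d L r := ⟨_, rfl⟩
    rw [← hB] at hh
    have hcard : B.card = r ^ d := by rw [hB]; exact lc_card_pbox hrL
    have hNB : N₀ ≤ B.card := by
      rw [hcard]
      exact hrN.trans (Nat.le_self_pow (by omega) r)
    have hNBr : (N₀ : ℝ) ≤ B.card := by exact_mod_cast hNB
    have hKB : 24 * (K : ℝ) ^ 2 / ε + K ≤ B.card := hN₀.le.trans hNBr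
    have hpos24 : 0 < 24 * (K : ℝ) ^ 2 / ε := by positivity
    have hKc : K ≤ B.card := by
      have : (K : ℝ) ≤ B.card := by linarith
      exact_mod_cast this
    have hB0 : 0 < B.card := by omega
    have hB0r : (0 : ℝ) < B.card := by exact_mod_cast hB0
    obtain ⟨η, hη⟩ : ∃ η : ℝ, η = C * δ := ⟨_, rfl⟩
    have hη0 : 0 ≤ η := by rw [hη]; positivity
    have hNN : ∀ v x y : Fin d → ZMod L, x ∈ B → y ∈ B →
        NN (nnRate d L) t (swap (v + x) (v + y)) ≤ η := by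
      intro v x y hx hy
      rw [hB] at hx hy
      refine (hdist L hL3 t ht0 (v + x) (v + y)).trans ?_
      rw [div_le_iff₀ hst]
      have h1 : (tdist (v + x) (v + y) : ℝ) ≤ d * r := by
        exact_mod_cast Pool.Agent.R517.PDS.tdist_box r v x y hx hy
      calc C * (tdist (v + x) (v + y) : ℝ) ≤ C * (δ * Real.sqrt t) :=
            mul_le_mul_of_nonneg_left (h1.trans hrd) hC.le
        _ = η * Real.sqrt t := by rw [hη]; ring
    have hNN0 : ∀ v, ∀ z ∈ B, NN (nnRate d L) t (swap v (v + z)) ≤ η := by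
      intro v z hz
      have h1 := hNN v 0 z (hB ▸ zero_box hr1) hz
      rwa [add_zero] at h1
    obtain ⟨n, hn⟩ : ∃ n : ℕ, K = n + 1 := ⟨K - 1, by omega⟩
    subst hn
    rw [← hη] at hδ2
    obtain ⟨Mn, hMn⟩ : ∃ Mn : ℝ, Mn = stirExp (nnRate d L) t
      (fun g => dens g Finset.univ (0 : Fin d → ZMod L) ^ n) := ⟨_, rfl⟩
    obtain ⟨Er, hEr⟩ : ∃ Er : ℝ, Er = n * (2 * η) + (n + 2 * (n : ℝ) ^ 2) / B.card +
      n * θ := ⟨_, rfl⟩
    have hmain : ∀ b' : Fin (n + 1) → Fin d → ZMod L, Function.Injective b' →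
        |(∑ g, stirLaw (nnRate d L) t g *
        (open Classical in if ∀ i j, g.SameCycle (b' i) (b' j) then (1 : ℝ) else 0)) - Mn| ≤ Er := by
      intro b' hb'
      have h1 := QQ_mean hL3 ht0.le B hB0 (b' 0) (fun i => b' i.succ)
        (fun i h => (Fin.succ_ne_zero i) (hb' h))
        (fun i j hij h => hij (Fin.succ_injective _ (hb' h))) η θ hη0 hθ0 hNN0 hh
      rw [← hMn, ← hEr] at h1
      have h2 : QQ (nnRate d L) t (b' 0) (fun i => b' i.succ) =
          ∑ g, stirLaw (nnRate d L) t g *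
        (open Classical in if ∀ i j, g.SameCycle (b' i) (b' j) then (1 : ℝ) else 0) := by
        unfold Pool.Agent.R517.PDS.QQ stirExp
        refine Finset.sum_congr rfl fun g _ => ?_
        beta_reduce
        rw [II_eq]
      rwa [h2] at h1
    obtain ⟨b₀, hb₀, hb₀B⟩ := exists_tuple B (n + 1) hKc
    have h3 := hmain b hb
    have h4 := hmain b₀ hb₀
    have h5 := one_cycle (nnRate d L) t hK b₀ hb₀ η hη0 (by
      intro i j
      have := hNN 0 (b₀ i) (b₀ j) (hb₀B i) (hb₀B j)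
      rwa [zero_add, zero_add] at this)
    have hErle : 2 * Er + (n + 1 : ℕ) * η ≤ ε := by
      have e1 : (((n + 1 : ℕ) : ℝ)) = n + 1 := by push_cast; rfl
      rw [e1] at hK1 hδ2 hθ1 hKB hpos24 ⊢
      have hn0 : (0 : ℝ) ≤ n := by positivity
      have g1 : (n + 2 * (n : ℝ) ^ 2) / B.card ≤ ε / 8 := by
        rw [div_le_iff₀ hB0r]
        have g2 : 24 * ((n : ℝ) + 1) ^ 2 / ε ≤ B.card := by linarith
        rw [div_le_iff₀ hε] at g2
        nlinarith
      rw [hEr]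
      nlinarith
    have h6 := abs_sub_le (∑ g, stirLaw (nnRate d L) t g *
        (open Classical in if ∀ i j, g.SameCycle (b i) (b j) then (1 : ℝ) else 0)) Mn
        (1 / ((n + 1 : ℕ) : ℝ))
    have h7 := abs_sub_le Mn (∑ g, stirLaw (nnRate d L) t g *
        (open Classical in if ∀ i j, g.SameCycle (b₀ i) (b₀ j) then (1 : ℝ) else 0))
        (1 / ((n + 1 : ℕ) : ℝ))
    have h4' := h4
    rw [abs_sub_comm] at h4'
    unfold Pool.Agent.Y998.ST.stirExp
    linarith only [h3, h4', h5, h6, h7, hErle]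
  · exact hlong L hLA t (lc_long d hd A hA L (by omega) hLA4 t ht00 hcase.le) b hb

end Pool.Agent.U153
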