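import Pool.Agent.U153.LcDya
import Pool.Agent.U153.LcCnt
import Pool.Agent.U153.LcEng
import Pool.Agent.U153.LcAr
import Pool.Agent.Q257.LC.LapA
import Pool.Agent.Q257.LC.KerU
import Pool.Agent.Q151.LC.Con2
import Pool.Agent.Q151.LC.Nea
import Pool.Agent.Q187.LC.Tch

/-!
# The damaged set is sparse and the resolvent form is small (statement LAM of the project LC)
-/

set_option autoImplicit false

namespace Pool.Agent.U153

open Finset Equiv Matrix Q292.LC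
open Pool.Agent.Q257.LC (mem_bal bal_mono box_sub card_bal_ge td_comm cc_nonneg)

section count

variable {d L : ℕ} [NeZero L]

/-- number of damaged points in a box -/
theorem lc_dm_count (hd : 1 ≤ d) (hL : 3 ≤ L)
    (σ : ℕ → (Fin d → ZMod L) × Fin d) (hσ : Per σ) (ω : ℕ → Bool)
    (A : Finset (Fin d → ZMod L)) {δ τ ε : ℝ} {q K ρ lam r₁ κ₀ D r : ℕ} (hK : 1 ≤ K)
    (hδ : 0 < δ) (h2 : 2 * d * δ ≤ 1) (h3 : δ * q ≤ 2) (hτ : 0 ≤ τ) (hε : 0 < ε)
    (hG : Gd σ q K lam r₁ ρ κ₀ ω A) (hr₁ : d ≤ r₁)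
    (htail : ∀ k ≤ K * (q * ms d L), ∀ y, ∑ x ∈ univ.filter (fun x => D < td x y),
      PP (ed ∘ σ) δ k x y ≤ τ)
    (hτA : τ * A.card ≤ 1) (Y : ℕ) (hY : Y = lam * (2 * ((d * r + D + ρ + 1) / (r₁ / d)) + 3) ^ d)
    (v : Fin d → ZMod L) :
    ((Dmg (ed ∘ σ) ω A δ ε (K * (q * ms d L)) ∩ box v r).card : ℝ) ≤
      Y + (8 * ρ + 16 * d) * (K * (Y + 1)) / ε := by
  classical
  have hδ1 : δ ≤ 1 := by
    have hd' : (1 : ℝ) ≤ d := by exact_mod_cast hd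
    nlinarith
  obtain ⟨hE1, hE2, -⟩ := hG
  have hV : ∀ j < K, ∀ v R, R ≤ d * r + D + ρ + 1 →
      ((A.image (gp (ed ∘ σ) ω (j * (q * ms d L)))) ∩ bal v R).card ≤ Y := by
    intro j hj v R hR
    have h4 : ∀ v, ((A.image (gp (ed ∘ σ) ω (j * (q * ms d L)))) ∩ bal v r₁).card ≤ lam := by
      intro v
      by_contra hc
      push Not at hc
      exact hE1 ⟨j, hj, v, hc⟩
    have h5 := lc_cnt d L hd hL _ r₁ (d * r + D + ρ + 1) lam hr₁ h4 v
    rw [← hY] at h5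
    exact (card_le_card (inter_subset_inter_left (bal_mono v hR))).trans h5
  set n := K * (q * ms d L) with hn
  set G := univ.filter (fun x => ε < cc (ed ∘ σ) ω A δ n x) ∩ bal v (d * r) with hG
  have hsub : Dmg (ed ∘ σ) ω A δ ε n ∩ box v r ⊆ (A ∩ bal v (d * r)) ∪ G := by
    intro x hx
    rw [mem_inter] at hx
    have h4 := box_sub v r hx.2
    have h5 := hx.1
    unfold Dmg at h5
    rw [mem_filter] at h5
    rw [mem_union, mem_inter, hG, mem_inter, mem_filter]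
    have := h5.2
    tauto
  have hc1 : ((A ∩ bal v (d * r)).card : ℝ) ≤ Y := by
    have h4 := hV 0 (by omega) v (d * r) (by omega)
    rw [Nat.zero_mul] at h4
    have h5 : A.image (gp (ed ∘ σ) ω 0) = A := by simp [gp]
    rw [h5] at h4
    exact_mod_cast h4
  have hc2 : (G.card : ℝ) ≤ (8 * ρ + 16 * d) * (K * (Y + 1)) / ε := by
    rw [le_div_iff₀ hε]
    calc (G.card : ℝ) * ε = ∑ _x ∈ G, ε := by rw [sum_const, nsmul_eq_mul]
      _ ≤ ∑ x ∈ G, cc (ed ∘ σ) ω A δ n x := by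
          refine sum_le_sum fun x hx => ?_
          rw [hG, mem_inter, mem_filter] at hx
          exact hx.1.2.le
      _ ≤ ∑ x ∈ bal v (d * r), cc (ed ∘ σ) ω A δ n x :=
          sum_le_sum_of_subset_of_nonneg inter_subset_right
            fun x _ _ => cc_nonneg Pool.Agent.Q68.LC.bas2 _ ω A hδ.le hδ1 n x
      _ ≤ (8 * ρ + 16 * d) * ∑ j ∈ Finset.range K,
            (((A.image (gp (ed ∘ σ) ω (j * (q * ms d L)))) ∩ bal v (d * r + D + ρ + 1)).card +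
              τ * A.card) :=
          Pool.Agent.Q151.LC.con2 Pool.Agent.Q187.LC.Tch.tch d L hd hL σ hσ ω A δ τ q K ρ (d * r) D v
            hδ h2 h3 hτ hE2 htail
      _ ≤ (8 * ρ + 16 * d) * ∑ _j ∈ Finset.range K, ((Y : ℝ) + 1) := by
          refine mul_le_mul_of_nonneg_left (sum_le_sum fun j hj => ?_) (by positivity)
          refine add_le_add ?_ hτA
          exact_mod_cast hV j (mem_range.1 hj) v _ le_rfl
      _ = (8 * ρ + 16 * d) * (K * (Y + 1)) := by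
          rw [sum_const, card_range, nsmul_eq_mul]
  calc ((Dmg (ed ∘ σ) ω A δ ε n ∩ box v r).card : ℝ) ≤ (((A ∩ bal v (d * r)) ∪ G).card : ℝ) := by
        exact_mod_cast card_le_card hsub
    _ ≤ ((A ∩ bal v (d * r)).card : ℝ) + G.card := by exact_mod_cast card_union_le _ _
    _ ≤ _ := add_le_add hc1 hc2

end count

/-- LAM -/
theorem lc_lam : S_LAM := by
  intro d hd
  obtain ⟨Cf, hCf, hfre⟩ := Pool.Agent.Q257.LC.fre d (by omega)
  obtain ⟨CD, hCD, hdya⟩ := lc_dya d hd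
  have hd0 : (3 : ℝ) ≤ d := by exact_mod_cast hd
  obtain ⟨ε, hε⟩ : ∃ ε : ℝ, ε = 1 / (8 * Cf * (2 * d * Cf) ^ d) := ⟨_, rfl⟩
  have hε0 : 0 < ε := by rw [hε]; positivity
  obtain ⟨c₃, hc₃⟩ : ∃ c₃ : ℝ, c₃ = (1 + 48 * d / ε) *
    (2 * (4 * d * (d + Cf + Cf ^ 2 + 3) + 3)) ^ d * 2 ^ d := ⟨_, rfl⟩
  have hc₃0 : 0 ≤ c₃ := by rw [hc₃]; positivity
  obtain ⟨C, hC⟩ : ∃ C : ℕ, C = ⌈4 * Cf + 8 * d * Cf + 64 * CD * Cf + c₃ + 4⌉₊ := ⟨_, rfl⟩
  have hC0 : 4 * Cf + 8 * d * Cf + 64 * CD * Cf + c₃ + 4 ≤ (C : ℝ) := by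
    rw [hC]; exact Nat.le_ceil _
  have hdC : 0 ≤ 8 * d * Cf := by positivity
  have hCC : 0 ≤ 64 * CD * Cf := by positivity
  have hC4 : (4 : ℝ) ≤ C := by linarith
  have hC4' : 4 ≤ C := by exact_mod_cast hC4
  refine ⟨C, ε, by omega, hε0, ?_⟩
  intro h hh Z hZ η hη hη2 L K lam r₁ ρ κ₀ _ hlam hρ hLZ hL hKL hr₁ hK9 hr₁2 hbig
  obtain ⟨q₀, hq₀⟩ := hfre L hL K
  refine ⟨max q₀ (4 * d + 1), ?_⟩
  intro q hq σ hσ δ hδ1 hδ2 ω A hG r hr Dm hDm
  have hqq : q₀ ≤ q := (le_max_left _ _).trans hq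
  have hq4 : 4 * d + 1 ≤ q := (le_max_right _ _).trans hq
  have hq4' : (4 * d + 1 : ℝ) ≤ q := by exact_mod_cast hq4
  have hδ0 : 0 < δ := by
    by_contra hc
    push Not at hc
    have : δ * q ≤ 0 := mul_nonpos_of_nonpos_of_nonneg hc (Nat.cast_nonneg _)
    linarith
  have h2d : 2 * d * δ ≤ 1 := by
    have : δ * (4 * d + 1) ≤ δ * q := mul_le_mul_of_nonneg_left hq4' hδ0.le
    nlinarith
  have hδle : δ ≤ 1 := by nlinarith
  obtain ⟨-, hfreb, hfrec⟩ := hq₀ q hqq σ hσ δ hδ1 hδ2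
  -- the eighth root of `K`
  have hZ0 : (1 : ℝ) ≤ Z := by exact_mod_cast hZ
  have hh4 : (4 : ℝ) ≤ h := hC4.trans (by exact_mod_cast hh)
  have hh0 : (1 : ℝ) ≤ h := by linarith
  have hhd : (h : ℝ) ≤ (h : ℝ) ^ d := le_self_pow₀ hh0 (by omega)
  obtain ⟨y, hy⟩ : ∃ y : ℝ, y = (K : ℝ) ^ ((1 : ℝ) / 8) := ⟨_, rfl⟩
  have hy0 : 0 ≤ y := by rw [hy]; positivity
  have hy8 : (K : ℝ) = y ^ 8 := by
    rw [hy, ← Real.rpow_natCast, ← Real.rpow_mul (Nat.cast_nonneg K)]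
    norm_num
  have hyb : (C : ℝ) * (Z : ℝ) ^ (d + 2) * (h : ℝ) ^ d / η ≤ y := by
    have := hbig
    rw [hy8] at this
    exact (pow_le_pow_iff_left₀ (by positivity) hy0 (by norm_num)).1 this
  have hZd : (1 : ℝ) ≤ (Z : ℝ) ^ (d + 2) := one_le_pow₀ hZ0
  have hCh : (C : ℝ) * h ≤ y := by
    refine le_trans ?_ hyb
    rw [le_div_iff₀ hη]
    have e1 : (C : ℝ) * h ≤ C * (Z : ℝ) ^ (d + 2) * (h : ℝ) ^ d := by
      calc (C : ℝ) * h ≤ C * (h : ℝ) ^ d := mul_le_mul_of_nonneg_left hhd (by positivity)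
        _ = C * 1 * (h : ℝ) ^ d := by ring
        _ ≤ _ := by gcongr
    calc (C : ℝ) * h * η ≤ C * h * 1 := mul_le_mul_of_nonneg_left (by linarith) (by positivity)
      _ ≤ _ := by rw [mul_one]; exact e1
  have hCy : (C : ℝ) ≤ y := (le_mul_of_one_le_right (by positivity) hh0).trans hCh
  have hy1 : 1 ≤ y := by linarith
  have hy4 : y ≤ y ^ 4 := le_self_pow₀ hy1 (by norm_num)
  have hsq : Real.sqrt K = y ^ 4 := by
    rw [hy8, show y ^ 8 = (y ^ 4) ^ 2 by ring, Real.sqrt_sq (by positivity)]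
  have hK1 : 1 ≤ K := by
    have : (1 : ℝ) ≤ K := by rw [hy8]; exact one_le_pow₀ hy1
    exact_mod_cast this
  have hyL : y ^ 4 ≤ L := by
    rw [← hsq]
    apply Real.sqrt_le_iff.2
    exact ⟨by positivity, by exact_mod_cast hKL⟩
  -- `r`
  obtain ⟨s, hs⟩ : ∃ s, s = Nat.sqrt K := ⟨_, rfl⟩
  rw [← hs] at hr
  have hs1 : (s : ℝ) ≤ y ^ 4 := by rw [hs, ← hsq]; exact Real.nat_sqrt_le_real_sqrt
  have hs2 : y ^ 4 < s + 1 := by rw [hs, ← hsq]; exact Real.real_sqrt_lt_nat_sqrt_succ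
  have hh1 : 1 ≤ h := by omega
  have hsh : h ≤ s := by
    have e1 : (4 : ℝ) * h ≤ y := le_trans (mul_le_mul_of_nonneg_right hC4 (by positivity)) hCh
    have e2 : (h : ℝ) < s + 1 := by linarith
    have e3 : h < s + 1 := by exact_mod_cast e2
    omega
  have hr1 : 1 ≤ r := by
    rw [hr]
    exact Nat.div_pos hsh (by omega)
  have hrh : y ^ 4 ≤ 2 * h * r := by
    have e1 : s < s / h * h + h := Nat.lt_div_mul_add (by omega)
    rw [← hr] at e1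
    have e2 : s + 1 ≤ 2 * h * r := by nlinarith
    have e3 : (s : ℝ) + 1 ≤ 2 * h * r := by exact_mod_cast e2
    linarith
  have hrhs : (r : ℝ) * h ≤ y ^ 4 := by
    have e1 : s / h * h ≤ s := Nat.div_mul_le_self _ _
    rw [← hr] at e1
    have e2 : (r : ℝ) * h ≤ s := by exact_mod_cast e1
    linarith
  have hr4 : (r : ℝ) ≤ y ^ 4 := by
    have : (r : ℝ) ≤ r * h := le_mul_of_one_le_right (by positivity) hh0
    linarith
  have hrL : 4 * r ≤ L := by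
    have e1 : (4 : ℝ) * r ≤ L := by
      have : (4 : ℝ) * r ≤ h * r := mul_le_mul_of_nonneg_right hh4 (by positivity)
      linarith
    exact_mod_cast e1
  -- counting
  have hcount : ∀ v, ((Dm ∩ box v r).card : ℝ) ≤ η * (r : ℝ) ^ d := by
    intro v
    obtain ⟨D, hD⟩ : ∃ D : ℕ, D = ⌈Cf * y ^ 4 * (Z + Cf)⌉₊ := ⟨_, rfl⟩
    have hD1 : Cf * y ^ 4 * (Z + Cf) ≤ D := by rw [hD]; exact Nat.le_ceil _
    have hD2 : (D : ℝ) ≤ Cf * y ^ 4 * (Z + Cf) + 1 := by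
      rw [hD]; exact (Nat.ceil_lt_add_one (by positivity)).le
    have htail : ∀ k ≤ K * (q * ms d L), ∀ y, ∑ x ∈ univ.filter (fun x => D < td x y),
        PP (ed ∘ σ) δ k x y ≤ Real.exp (-(Z : ℝ)) := by
      intro k hk x
      refine (hfreb K hK1 le_rfl k hk D x).trans ?_
      rw [hsq]
      have e1 : (Z : ℝ) + Cf ≤ D / (Cf * y ^ 4) := by
        rw [le_div_iff₀ (by positivity)]
        linarith
      have e2 : Real.exp (-(D / (Cf * y ^ 4))) ≤ Real.exp (-(Z : ℝ)) * Real.exp (-Cf) := by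
        rw [← Real.exp_add]
        apply Real.exp_le_exp.2
        linarith
      have e3 : Cf * Real.exp (-Cf) ≤ 1 := by
        rw [Real.exp_neg, ← div_eq_mul_inv, div_le_one (Real.exp_pos _)]
        have := Real.add_one_le_exp Cf
        linarith
      calc Cf * Real.exp (-(D / (Cf * y ^ 4)))
          ≤ Cf * (Real.exp (-(Z : ℝ)) * Real.exp (-Cf)) :=
            mul_le_mul_of_nonneg_left e2 (by linarith)
        _ = Real.exp (-(Z : ℝ)) * (Cf * Real.exp (-Cf)) := by ring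
        _ ≤ Real.exp (-(Z : ℝ)) * 1 := mul_le_mul_of_nonneg_left e3 (Real.exp_pos _).le
        _ = _ := mul_one _
    have hτA : Real.exp (-(Z : ℝ)) * A.card ≤ 1 := by
      have e1 : (A.card : ℝ) ≤ (L : ℝ) ^ d := by
        have h1 : A.card ≤ Fintype.card (Fin d → ZMod L) := Finset.card_le_univ A
        rw [Fintype.card_fun, ZMod.card, Fintype.card_fin] at h1
        exact_mod_cast h1
      calc Real.exp (-(Z : ℝ)) * A.card ≤ Real.exp (-(Z : ℝ)) * Real.exp Z :=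
            mul_le_mul_of_nonneg_left (e1.trans hLZ) (Real.exp_pos _).le
        _ = 1 := by rw [← Real.exp_add, neg_add_cancel, Real.exp_zero]
    have e1 := lc_dm_count (κ₀ := κ₀) (by omega) hL σ hσ ω A hK1 hδ0 h2d hδ2 (Real.exp_pos _).le hε0 hG hr₁
      htail hτA _ rfl v (r := r)
    rw [hDm]
    refine e1.trans ?_
    refine lc_arith hd hCf hε0 hy1 hη hy8 hZ hlam hρ hr₁ ?_ ?_ hD2 hr4 hrh hh1 ?_ rfl
    · have e2 : ((K : ℝ)) ^ 9 ≤ (2 * (r₁ : ℝ)) ^ (8 * d) := by exact_mod_cast hK9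
      rw [hy8, ← pow_mul, show 8 * 9 = 9 * 8 by norm_num, pow_mul, mul_comm 8 d, pow_mul] at e2
      exact (pow_le_pow_iff_left₀ (by positivity) (by positivity) (by norm_num)).1 e2
    · have e2 : ((r₁ : ℝ)) ^ 2 ≤ (K : ℝ) * (Z : ℝ) ^ 2 := by exact_mod_cast hr₁2
      rw [hy8, show y ^ 8 * (Z : ℝ) ^ 2 = (y ^ 4 * Z) ^ 2 by ring] at e2
      exact (pow_le_pow_iff_left₀ (by positivity) (by positivity) (by norm_num)).1 e2
    · refine le_trans ?_ hyb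
      rw [← hc₃]
      have : c₃ ≤ C := by linarith
      gcongr
  refine ⟨hr1, hrL, by rw [hsq]; exact hrh, hcount, ?_⟩
  intro z w hw0 hw1
  -- energy
  obtain ⟨ℓ, hℓ⟩ : ∃ ℓ : ℕ, ℓ = ⌊y ^ 4 / (2 * Cf)⌋₊ := ⟨_, rfl⟩
  have hℓ1 : (ℓ : ℝ) ≤ y ^ 4 / (2 * Cf) := by
    rw [hℓ]; exact Nat.floor_le (by positivity)
  have hℓ2 : y ^ 4 / (2 * Cf) < ℓ + 1 := by
    rw [hℓ]; exact Nat.lt_floor_add_one _
  obtain ⟨p, hp⟩ : ∃ p : ℝ, p = (K : ℝ) ^ (-(d / 2 : ℝ)) / Cf := ⟨_, rfl⟩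
  have hKpos : (0 : ℝ) < K := by exact_mod_cast hK1
  have hp0 : 0 < p := by rw [hp]; positivity
  have hKd : (K : ℝ) ^ ((d : ℝ) / 2) = y ^ (4 * d) := by
    rw [hy8, ← Real.rpow_natCast, ← Real.rpow_natCast, ← Real.rpow_mul hy0]
    congr 1
    push_cast
    ring
  have hKd' : (K : ℝ) ^ (-((d : ℝ) / 2)) = (y ^ (4 * d))⁻¹ := by
    rw [Real.rpow_neg hKpos.le, hKd]
  have hPP : ∀ x x' : Fin d → ZMod L, td x x' ≤ 2 * ℓ →
      p ≤ PP (ed ∘ σ) δ (K * (q * ms d L)) x x' := by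
    intro x x' hx
    have e1 := hfrec K hK1 le_rfl hKL x x' (by
      rw [hsq]
      have e2 : (td x x' : ℝ) ≤ 2 * ℓ := by exact_mod_cast hx
      calc (td x x' : ℝ) ≤ 2 * (y ^ 4 / (2 * Cf)) := by linarith
        _ = _ := by field_simp)
    rw [hp]
    exact e1
  have hDm2 : ∀ x, x ∉ Dm → x ∉ A ∧ cc (ed ∘ σ) ω A δ (K * (q * ms d L)) x ≤ ε := by
    intro x hx
    rw [hDm] at hx
    unfold Dmg at hx
    rw [mem_filter] at hx
    push Not at hx
    exact hx (mem_univ _)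
  have hball : 8 * ε ≤ p * (bal (0 : Fin d → ZMod L) ℓ).card := by
    have e1 : (ℓ / d + 1) ^ d ≤ (bal (0 : Fin d → ZMod L) ℓ).card := by
      refine card_bal_ge ℓ (ℓ / d) (Nat.mul_div_le ℓ d) ?_
      have a1 : (ℓ : ℝ) ≤ y ^ 4 / 2 := by
        refine hℓ1.trans ?_
        rw [div_le_div_iff₀ (by positivity) (by norm_num)]
        nlinarith [pow_pos (lt_of_lt_of_le one_pos hy1) 4]
      have a2 : (ℓ : ℝ) < L := by
        have : 0 < y ^ 4 := by positivity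
        linarith
      have a3 : ℓ < L := by exact_mod_cast a2
      exact (Nat.div_le_self _ _).trans_lt a3
    have e2 : y ^ 4 / (2 * d * Cf) ≤ ((ℓ / d + 1 : ℕ) : ℝ) := by
      have a1 : ℓ < ℓ / d * d + d := Nat.lt_div_mul_add (by omega)
      have a2 : ℓ + 1 ≤ (ℓ / d + 1) * d := by nlinarith
      have a3 : (ℓ : ℝ) + 1 ≤ ((ℓ / d + 1 : ℕ) : ℝ) * d := by exact_mod_cast a2
      have a4 : y ^ 4 / (2 * Cf) ≤ ((ℓ / d + 1 : ℕ) : ℝ) * d := by linarith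
      rw [div_le_iff₀ (by positivity)] at a4 ⊢
      calc y ^ 4 ≤ _ := a4
        _ = _ := by ring
    have e3 : (y ^ 4 / (2 * d * Cf)) ^ d ≤ ((bal (0 : Fin d → ZMod L) ℓ).card : ℝ) := by
      refine (pow_le_pow_left₀ (by positivity) e2 d).trans ?_
      exact_mod_cast e1
    calc 8 * ε = p * (y ^ 4 / (2 * d * Cf)) ^ d := by
          rw [hp, hKd', hε, div_pow, ← pow_mul]
          have : (y : ℝ) ^ (4 * d) ≠ 0 := by positivity
          field_simp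
      _ ≤ _ := mul_le_mul_of_nonneg_left e3 hp0.le
  have h2dr : 2 * d * r ≤ ℓ := by
    have e1 : (2 * d * r : ℝ) ≤ y ^ 4 / (4 * Cf) := by
      rw [le_div_iff₀ (by positivity)]
      have e2 : 8 * d * Cf ≤ (h : ℝ) := by
        have : (C : ℝ) ≤ h := by exact_mod_cast hh
        linarith
      calc (2 * d * r : ℝ) * (4 * Cf) = (8 * d * Cf) * r := by ring
        _ ≤ h * r := mul_le_mul_of_nonneg_right e2 (by positivity)
        _ ≤ y ^ 4 := by linarith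
    have e3 : y ^ 4 / (4 * Cf) + 1 ≤ y ^ 4 / (2 * Cf) := by
      have e4 : 1 ≤ y ^ 4 / (4 * Cf) := by
        rw [le_div_iff₀ (by positivity)]
        linarith
      have e5 : y ^ 4 / (2 * Cf) = y ^ 4 / (4 * Cf) + y ^ 4 / (4 * Cf) := by
        field_simp
        ring
      linarith
    have e6 : ((2 * d * r : ℕ) : ℝ) < ((ℓ : ℕ) : ℝ) := by
      push_cast
      linarith
    exact (Nat.cast_lt.1 e6).le
  have hDm3 : ∀ v, 2 * (Dm ∩ box v r).card ≤ r ^ d := by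
    intro v
    have e1 := hcount v
    have e2 : (0 : ℝ) < (r : ℝ) ^ d := by positivity
    have e3 : (2 : ℝ) * ((Dm ∩ box v r).card : ℝ) ≤ (r : ℝ) ^ d := by nlinarith
    exact_mod_cast e3
  have hphz : ∀ a ∈ A, phz r Dm z a = 0 := by
    intro a ha
    have haD : a ∈ Dm := by
      rw [hDm]
      unfold Dmg
      rw [mem_filter]
      exact ⟨mem_univ _, Or.inl ha⟩
    have hc : ∀ z', chi r Dm z' a = 0 := by
      intro z'
      unfold chi
      rw [if_neg]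
      intro h1
      exact (mem_sdiff.1 h1).2 haD
    unfold phz
    simp [hc]
  have hE : ∀ f : (Fin d → ZMod L) → ℝ, (phz r Dm z ⬝ᵥ f) ^ 2 ≤
      (16 * CD / (p * (r : ℝ) ^ (2 * d))) *
        ∑ x, ∑ y, TT (ed ∘ σ) ω A δ (K * (q * ms d L)) x y * (f x - f y) ^ 2 := by
    intro f
    have e1 := hdya L r hr1 hrL Dm hDm3 f z
    have e2 := (Pool.Agent.Q151.LC.nea d L (by omega) hL σ hσ ω A Dm δ ε p (K * (q * ms d L)) ℓ
      hδ0.le hδle hp0 hε0.le hPP hDm2 hball f).2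
    have e3 : ∑ x, ∑ y, (if x ∉ Dm ∧ y ∉ Dm ∧ td x y ≤ 2 * d * r then (f x - f y) ^ 2 else 0) ≤
        ∑ x, ∑ y, (if x ∉ Dm ∧ y ∉ Dm ∧ td x y ≤ ℓ then (f x - f y) ^ 2 else 0) := by
      refine sum_le_sum fun x _ => sum_le_sum fun y _ => ?_
      by_cases h1 : x ∉ Dm ∧ y ∉ Dm ∧ td x y ≤ 2 * d * r
      · rw [if_pos h1, if_pos ⟨h1.1, h1.2.1, h1.2.2.trans h2dr⟩]
      · rw [if_neg h1]
        split_ifs
        · exact sq_nonneg _
        · exact le_rfl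
    have hr0 : (0 : ℝ) < (r : ℝ) ^ (2 * d) := by positivity
    generalize ∑ x, ∑ y, (if x ∉ Dm ∧ y ∉ Dm ∧ td x y ≤ 2 * d * r then
      (f x - f y) ^ 2 else 0) = E1 at *
    generalize ∑ x, ∑ y, (if x ∉ Dm ∧ y ∉ Dm ∧ td x y ≤ ℓ then (f x - f y) ^ 2 else 0) = E2 at *
    generalize ∑ x, ∑ y, TT (ed ∘ σ) ω A δ (K * (q * ms d L)) x y * (f x - f y) ^ 2 = E3 at *
    have e4 : E1 ≤ 16 / p * E3 := by
      have : E2 ≤ 16 / p * E3 := by
        rw [div_mul_eq_mul_div, le_div_iff₀ hp0]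
        linarith
      linarith
    calc _ ≤ CD / (r : ℝ) ^ (2 * d) * E1 := e1
      _ ≤ CD / (r : ℝ) ^ (2 * d) * (16 / p * E3) :=
          mul_le_mul_of_nonneg_left e4 (by positivity)
      _ = _ := by
          field_simp
  have hfin := lc_eng (Fin d → ZMod L) (ed ∘ σ) ω A (K * (q * ms d L)) δ w
    (16 * CD / (p * (r : ℝ) ^ (2 * d))) (phz r Dm z) hδ0.le hδle hw0 hw1 (by positivity) hphz hE
  refine hfin.trans ?_
  rw [hKd, hp, hKd']
  have hy4d : (0 : ℝ) < y ^ (4 * d) := by positivity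
  have hr0 : (0 : ℝ) < (r : ℝ) ^ (2 * d) := by positivity
  have e1 : 4 * (16 * CD / ((y ^ (4 * d))⁻¹ / Cf * (r : ℝ) ^ (2 * d))) =
      64 * CD * Cf * y ^ (4 * d) / (r : ℝ) ^ (2 * d) := by
    field_simp
    ring
  rw [e1]
  have e2 : 64 * CD * Cf ≤ C := by linarith
  gcongr

end Pool.Agent.U153
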