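import Pool.Agent.U153.LcEng
import Pool.Agent.Q277.LC.Pe
import Pool.Agent.Q257.LC.L1

/-!
# Resolvent bound for the unmarked cycles (statement RES of the project LC)
-/

set_option autoImplicit false

namespace Pool.Agent.U153

open Finset Equiv Matrix Q292.LC

section gen

variable {V : Type} [Fintype V] [DecidableEq V]

/-- matrix determinant lemma for `M + φ φᵀ` -/
theorem lc_mdl {M : Matrix V V ℝ} (hM : IsUnit M.det) (φ : V → ℝ) :
    (M + Matrix.of fun a b => φ a * φ b).det = M.det * (1 + φ ⬝ᵥ (M⁻¹ *ᵥ φ)) := by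
  have e1 : (M + Matrix.of fun a b => φ a * φ b) =
      M + replicateCol Unit φ * replicateRow Unit φ := by
    congr 1
    ext a b
    rw [Matrix.of_apply, Matrix.mul_apply]
    simp
  rw [e1, Matrix.det_add_replicateCol_mul_replicateRow hM]
  congr 1
  rw [Matrix.det_unique, Matrix.add_apply, Matrix.one_apply_eq]
  congr 1
  rw [Matrix.mul_assoc, Matrix.mul_apply]
  simp only [Matrix.replicateRow_apply]
  rfl

/-- the sum over a cycle does not change when the permutation is applied -/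
theorem lc_cyc_sum (g : Perm V) (x : V) (f : V → ℝ) :
    ∑ y ∈ cyc g x, f (g y) = ∑ y ∈ cyc g x, f y := by
  refine Finset.sum_bij' (fun y _ => g y) (fun y _ => g⁻¹ y) ?_ ?_ ?_ ?_ ?_
  · intro y hy
    unfold cyc at hy ⊢
    rw [Finset.mem_filter] at hy ⊢
    exact ⟨Finset.mem_univ _, hy.2.trans (Perm.sameCycle_apply_right.2 (Perm.SameCycle.refl g y))⟩
  · intro y hy
    unfold cyc at hy ⊢
    rw [Finset.mem_filter] at hy ⊢
    exact ⟨Finset.mem_univ _, Perm.sameCycle_symm_apply_right.2 hy.2⟩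
  · intro y _
    simp
  · intro y _
    simp
  · intro y _
    rfl

/-- mean over the cycle of `x` -/
noncomputable def cmean (g : Perm V) (φ : V → ℝ) (x : V) : ℝ :=
  (∑ y ∈ cyc g x, φ y) / ((cyc g x).card : ℝ)

theorem lc_cyc_eq (g : Perm V) {x y : V} (h : y ∈ cyc g x) : cyc g y = cyc g x := by
  unfold cyc at *
  rw [Finset.mem_filter] at h
  ext z
  rw [Finset.mem_filter, Finset.mem_filter]
  exact ⟨fun h2 => ⟨Finset.mem_univ _, h.2.trans h2.2⟩,
    fun h2 => ⟨Finset.mem_univ _, h.2.symm.trans h2.2⟩⟩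

theorem lc_mem_cyc (g : Perm V) (x y : V) : y ∈ cyc g x ↔ g.SameCycle x y := by
  unfold cyc
  rw [Finset.mem_filter]
  exact ⟨fun h => h.2, fun h => ⟨Finset.mem_univ _, h⟩⟩

theorem lc_mem_self (g : Perm V) (x : V) : x ∈ cyc g x :=
  (lc_mem_cyc g x x).2 (Perm.SameCycle.refl g x)

theorem lc_card_pos (g : Perm V) (x : V) : 0 < ((cyc g x).card : ℝ) := by
  exact_mod_cast Finset.card_pos.2 ⟨x, lc_mem_self g x⟩

/-- averaging over cycles: the sum over an invariant set of the cycle means -/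
theorem lc_sum_mean (g : Perm V) (A : Finset V) (hA : Inv g A) (h : V → ℝ) :
    ∑ x ∈ univ \ A, cmean g h x = ∑ x ∈ univ \ A, h x := by
  have hinv : ∀ x y, g.SameCycle x y → x ∈ univ \ A → y ∈ univ \ A := by
    intro x y hxy hx
    rw [Finset.mem_sdiff] at hx ⊢
    refine ⟨Finset.mem_univ _, fun hy => hx.2 (Pool.Agent.Q153.LC.inv_same g A hA y x hy hxy.symm)⟩
  unfold cmean
  have h1 : ∀ x ∈ univ \ A, (∑ y ∈ cyc g x, h y) / ((cyc g x).card : ℝ) =
      ∑ y ∈ univ \ A, if g.SameCycle x y then h y / ((cyc g y).card : ℝ) else 0 := by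
    intro x hx
    rw [← Finset.sum_filter, Finset.sum_div]
    have h2 : (univ \ A).filter (fun y => g.SameCycle x y) = cyc g x := by
      ext y
      rw [Finset.mem_filter, lc_mem_cyc]
      exact ⟨fun h => h.2, fun h => ⟨hinv x y h hx, h⟩⟩
    rw [h2]
    refine Finset.sum_congr rfl fun y hy => ?_
    rw [lc_cyc_eq g hy]
  rw [Finset.sum_congr rfl h1, Finset.sum_comm]
  refine Finset.sum_congr rfl fun y hy => ?_
  rw [← Finset.sum_filter, Finset.sum_const]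
  have h2 : (univ \ A).filter (fun x => g.SameCycle x y) = cyc g y := by
    ext x
    rw [Finset.mem_filter, lc_mem_cyc]
    exact ⟨fun h => h.2.symm, fun h => ⟨hinv y x h hy, h.symm⟩⟩
  rw [h2, nsmul_eq_mul]
  have := lc_card_pos g y
  field_simp

/-- Cauchy-Schwarz for cycle means -/
theorem lc_mean_sq (g : Perm V) (f : V → ℝ) (x : V) :
    (cmean g f x) ^ 2 ≤ cmean g (fun y => (f y) ^ 2) x := by
  unfold cmean
  have hp := lc_card_pos g x
  rw [div_pow, div_le_div_iff₀ (by positivity) hp]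
  have h := sq_sum_le_card_mul_sum_sq (s := cyc g x) (f := f)
  calc (∑ y ∈ cyc g x, f y) ^ 2 * ((cyc g x).card : ℝ)
      ≤ (((cyc g x).card : ℝ) * ∑ y ∈ cyc g x, (f y) ^ 2) * ((cyc g x).card : ℝ) :=
        mul_le_mul_of_nonneg_right h hp.le
    _ = (∑ y ∈ cyc g x, (f y) ^ 2) * ((cyc g x).card : ℝ) ^ 2 := by ring

/-- the deterministic inequality for one permutation -/
theorem lc_res_det (g : Perm V) (A : Finset V) (hA : Inv g A) (w : ℝ) (hw0 : 0 ≤ w) (hw1 : w < 1)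
    (φ : V → ℝ) (hφ : ∀ a ∈ A, φ a = 0) :
    ∑ x ∈ univ \ A, (cmean g φ x) ^ 2 ≤
      (1 - w) * (φ ⬝ᵥ ((1 - w • (dg (univ \ A) * pm g))⁻¹ *ᵥ φ)) := by
  have hP0 : ∀ x y, 0 ≤ (pm g) x y := by
    intro x y
    unfold pm
    rw [Matrix.of_apply]
    split_ifs <;> norm_num
  have hPr : ∀ x, ∑ y, (pm g) x y = 1 := by
    intro x
    unfold pm
    simp [Matrix.of_apply]
  have hPc : ∀ y, ∑ x, (pm g) x y = 1 := by
    intro y
    unfold pm
    simp only [Matrix.of_apply]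
    have : ∀ x, (if g x = y then (1 : ℝ) else 0) = if x = g⁻¹ y then 1 else 0 := by
      intro x
      congr 1
      rw [Perm.eq_inv_iff_eq]
    simp [this]
  have hdet := lc_isUnit hP0 hPr hw0 hw1 A
  obtain ⟨f, hf⟩ : ∃ f, f = (1 - w • (dg (univ \ A) * pm g))⁻¹ *ᵥ φ := ⟨_, rfl⟩
  have hf2 : (1 - w • (dg (univ \ A) * pm g)) *ᵥ f = φ := by
    rw [hf, Matrix.mulVec_mulVec, Matrix.mul_nonsing_inv _ hdet, Matrix.one_mulVec]
  rw [← hf]
  obtain ⟨h1, h2, h3⟩ := lc_dot (pm g) w A f φ hφ hf2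
  have h4 := lc_energy hPr hPc f
  have hE0 : 0 ≤ ∑ x, ∑ y, (pm g) x y * (f x - f y) ^ 2 :=
    Finset.sum_nonneg fun x _ => Finset.sum_nonneg fun y _ => mul_nonneg (hP0 x y) (sq_nonneg _)
  have h5 : (1 - w) * ∑ x, (f x) ^ 2 ≤ φ ⬝ᵥ f := by
    rw [h3]
    have := mul_nonneg hw0 hE0
    nlinarith
  have hPf : ∀ x, ((pm g) *ᵥ f) x = f (g x) := by
    intro x
    have : ((pm g) *ᵥ f) x = ∑ y, (pm g) x y * f y := rfl
    rw [this]
    unfold pm
    simp [Matrix.of_apply]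
  -- cycle means
  have h6 : ∀ x ∈ univ \ A, cmean g φ x = (1 - w) * cmean g f x := by
    intro x hx
    have hx2 : x ∉ A := (Finset.mem_sdiff.1 hx).2
    have h7 : ∑ y ∈ cyc g x, φ y = (1 - w) * ∑ y ∈ cyc g x, f y := by
      have : ∀ y ∈ cyc g x, φ y = f y - w * f (g y) := by
        intro y hy
        rw [← hPf y]
        refine h2 y fun hyA => hx2 ?_
        exact Pool.Agent.Q153.LC.inv_same g A hA y x hyA ((lc_mem_cyc g x y).1 hy).symm
      rw [Finset.sum_congr rfl this, Finset.sum_sub_distrib, ← Finset.mul_sum, lc_cyc_sum]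
      ring
    unfold cmean
    rw [h7]
    ring
  have h8 : ∑ x ∈ univ \ A, (cmean g φ x) ^ 2 ≤ (1 - w) ^ 2 * ∑ x ∈ univ \ A, (f x) ^ 2 := by
    calc ∑ x ∈ univ \ A, (cmean g φ x) ^ 2
        = (1 - w) ^ 2 * ∑ x ∈ univ \ A, (cmean g f x) ^ 2 := by
          rw [Finset.mul_sum]
          refine Finset.sum_congr rfl fun x hx => ?_
          rw [h6 x hx]
          ring
      _ ≤ (1 - w) ^ 2 * ∑ x ∈ univ \ A, cmean g (fun y => (f y) ^ 2) x := by
          refine mul_le_mul_of_nonneg_left (Finset.sum_le_sum fun x _ => lc_mean_sq g f x)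
            (sq_nonneg _)
      _ = _ := by rw [lc_sum_mean g A hA]
  have h9 : ∑ x ∈ univ \ A, (f x) ^ 2 ≤ ∑ x, (f x) ^ 2 :=
    Finset.sum_le_sum_of_subset_of_nonneg (Finset.subset_univ _) fun _ _ _ => sq_nonneg _
  calc _ ≤ (1 - w) ^ 2 * ∑ x ∈ univ \ A, (f x) ^ 2 := h8
    _ ≤ (1 - w) ^ 2 * ∑ x, (f x) ^ 2 := mul_le_mul_of_nonneg_left h9 (sq_nonneg _)
    _ = (1 - w) * ((1 - w) * ∑ x, (f x) ^ 2) := by ring
    _ ≤ _ := mul_le_mul_of_nonneg_left h5 (by linarith)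

theorem lc_pm_nonneg (g : Perm V) (x y : V) : 0 ≤ (pm g) x y := by
  unfold pm
  rw [Matrix.of_apply]
  split_ifs <;> norm_num

theorem lc_pm_row (g : Perm V) (x : V) : ∑ y, (pm g) x y = 1 := by
  unfold pm
  simp [Matrix.of_apply]

open Classical in
/-- RES -/
theorem lc_res : S_RES := by
  intro V _ _ e n δ w Λ B φ hδ0 hδ1 hw0 hw1 hΛ hB hφm hφ0 hres
  -- the bound for one `A`
  have key : ∀ A : Finset V,
      EE n δ (fun ω => if Inv (gp e ω n) A then
        w ^ A.card * dS w (univ \ A) (pm (gp e ω n)) * (if B ω A then ∑ x ∈ univ \ A,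
          ((∑ y ∈ cyc (gp e ω n) x, φ ω A y) / ((cyc (gp e ω n) x).card : ℝ)) ^ 2 else 0) else 0) ≤
      (1 - w) * Λ * EE n δ (fun ω => if Inv (gp e ω n) A then
        w ^ A.card * dS w (univ \ A) (pm (gp e ω n)) else 0) := by
    intro A
    obtain ⟨Θ, hΘ⟩ : ∃ Θ : (ℕ → Bool) → ℝ, Θ = fun ω =>
      if Inv (gp e ω n) A ∧ B ω A then w ^ A.card else 0 := ⟨_, rfl⟩
    have hΘ0 : ∀ ω, 0 ≤ Θ ω := by
      intro ω
      rw [hΘ]
      dsimp only
      split_ifs
      · positivity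
      · exact le_rfl
    have hΘm : Rmeas e n A Θ := by
      intro ω ω' h
      obtain ⟨h1, -⟩ := Pool.Agent.Q68.LC.agree h
      have h2 : Inv (gp e ω n) A ↔ Inv (gp e ω' n) A := by
        unfold Q292.LC.Inv
        constructor
        · intro h3 a ha
          rw [← h1 n le_rfl a ha]
          exact h3 a ha
        · intro h3 a ha
          rw [h1 n le_rfl a ha]
          exact h3 a ha
      have h3 : B ω A = B ω' A := hB A ω ω' h
      rw [hΘ]
      dsimp only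
      simp only [h2, h3]
    have hX : Rmeas e n A (fun ω => (1 : Matrix V V ℝ) +
        Matrix.of fun a b => φ ω A a * φ ω A b) := by
      intro ω ω' h
      have h3 : φ ω A = φ ω' A := hφm A ω ω' h
      dsimp only
      rw [h3]
    have hX1 : Rmeas e n A (fun _ : ℕ → Bool => (1 : Matrix V V ℝ)) := fun _ _ _ => rfl
    have hY : Rmeas e n A (fun _ : ℕ → Bool => (-w) • dg (univ \ A)) := fun _ _ _ => rfl
    have l1 := Pool.Agent.Q257.LC.l1 V e n δ A Θ _ _ hδ0 hδ1 hΘm hX hY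
    have l2 := Pool.Agent.Q257.LC.l1 V e n δ A Θ _ _ hδ0 hδ1 hΘm hX1 hY
    have hmat : ∀ P : Matrix V V ℝ, (1 : Matrix V V ℝ) + (-w) • dg (univ \ A) * P =
        1 - w • (dg (univ \ A) * P) := by
      intro P
      rw [Matrix.smul_mul, neg_smul, sub_eq_add_neg]
    have hmat2 : ∀ (P Q : Matrix V V ℝ), (1 : Matrix V V ℝ) + Q + (-w) • dg (univ \ A) * P =
        (1 - w • (dg (univ \ A) * P)) + Q := by
      intro P Q
      rw [← hmat P]
      abel
    simp only [hmat, hmat2] at l1 l2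
    obtain ⟨MP, hMP⟩ : ∃ MP : (ℕ → Bool) → Matrix V V ℝ, MP = fun ω =>
      1 - w • (dg (univ \ A) * pm (gp e ω n)) := ⟨_, rfl⟩
    obtain ⟨MT, hMT⟩ : ∃ MT : (ℕ → Bool) → Matrix V V ℝ, MT = fun ω =>
      1 - w • (dg (univ \ A) * TT e ω A δ n) := ⟨_, rfl⟩
    have hMPu : ∀ ω, IsUnit (MP ω).det := by
      intro ω
      rw [hMP]
      exact lc_isUnit (lc_pm_nonneg _) (lc_pm_row _) hw0 hw1 A
    have hTT : ∀ ω, (∀ x y, 0 ≤ TT e ω A δ n x y) ∧ (∀ x, ∑ y, TT e ω A δ n x y = 1) := by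
      intro ω
      obtain ⟨hT0, hTr, -, -, -, -⟩ := Pool.Agent.Q68.LC.bas2 V e ω A δ hδ0 hδ1
      exact ⟨hT0 n, hTr n⟩
    have hMTu : ∀ ω, IsUnit (MT ω).det := by
      intro ω
      rw [hMT]
      exact lc_isUnit (hTT ω).1 (hTT ω).2 hw0 hw1 A
    have hMPp : ∀ ω, 0 < (MP ω).det := by
      intro ω
      rw [hMP]
      exact Pool.Agent.Q68.LC.det_pos (Pool.Agent.Q68.LC.SS_dg
        ⟨lc_pm_nonneg _, fun x => (lc_pm_row _ x).le⟩ _) hw0 hw1
    have hMTp : ∀ ω, 0 < (MT ω).det := by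
      intro ω
      rw [hMT]
      exact Pool.Agent.Q68.LC.det_pos (Pool.Agent.Q68.LC.SS_dg
        ⟨(hTT ω).1, fun x => ((hTT ω).2 x).le⟩ _) hw0 hw1
    have l1' : EE n δ (fun ω => Θ ω * ((MP ω).det * (1 + φ ω A ⬝ᵥ ((MP ω)⁻¹ *ᵥ φ ω A)))) =
        EE n δ (fun ω => Θ ω * ((MT ω).det * (1 + φ ω A ⬝ᵥ ((MT ω)⁻¹ *ᵥ φ ω A)))) := by
      have a1 : ∀ ω, (MP ω).det * (1 + φ ω A ⬝ᵥ ((MP ω)⁻¹ *ᵥ φ ω A)) =
          (MP ω + Matrix.of fun a b => φ ω A a * φ ω A b).det := fun ω =>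
        (lc_mdl (hMPu ω) _).symm
      have a2 : ∀ ω, (MT ω).det * (1 + φ ω A ⬝ᵥ ((MT ω)⁻¹ *ᵥ φ ω A)) =
          (MT ω + Matrix.of fun a b => φ ω A a * φ ω A b).det := fun ω =>
        (lc_mdl (hMTu ω) _).symm
      simp only [a1, a2]
      simp only [hMP, hMT]
      exact l1
    have l2' : EE n δ (fun ω => Θ ω * (MP ω).det) = EE n δ (fun ω => Θ ω * (MT ω).det) := by
      simp only [hMP, hMT]
      exact l2
    have l3 : EE n δ (fun ω => Θ ω * ((MP ω).det * (φ ω A ⬝ᵥ ((MP ω)⁻¹ *ᵥ φ ω A)))) =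
        EE n δ (fun ω => Θ ω * ((MT ω).det * (φ ω A ⬝ᵥ ((MT ω)⁻¹ *ᵥ φ ω A)))) := by
      have b1 : EE n δ (fun ω => Θ ω * ((MP ω).det * (1 + φ ω A ⬝ᵥ ((MP ω)⁻¹ *ᵥ φ ω A)))) =
          EE n δ (fun ω => Θ ω * (MP ω).det) +
          EE n δ (fun ω => Θ ω * ((MP ω).det * (φ ω A ⬝ᵥ ((MP ω)⁻¹ *ᵥ φ ω A)))) := by
        rw [← Pool.Agent.Q68.LC.EE_add]
        congr 1
        funext ω
        ring
      have b2 : EE n δ (fun ω => Θ ω * ((MT ω).det * (1 + φ ω A ⬝ᵥ ((MT ω)⁻¹ *ᵥ φ ω A)))) =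
          EE n δ (fun ω => Θ ω * (MT ω).det) +
          EE n δ (fun ω => Θ ω * ((MT ω).det * (φ ω A ⬝ᵥ ((MT ω)⁻¹ *ᵥ φ ω A)))) := by
        rw [← Pool.Agent.Q68.LC.EE_add]
        congr 1
        funext ω
        ring
      linarith
    -- pointwise bounds
    have c1 : EE n δ (fun ω => if Inv (gp e ω n) A then
        w ^ A.card * dS w (univ \ A) (pm (gp e ω n)) * (if B ω A then ∑ x ∈ univ \ A,
          ((∑ y ∈ cyc (gp e ω n) x, φ ω A y) / ((cyc (gp e ω n) x).card : ℝ)) ^ 2 else 0) else 0) ≤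
        EE n δ (fun ω => (1 - w) *
          (Θ ω * ((MP ω).det * (φ ω A ⬝ᵥ ((MP ω)⁻¹ *ᵥ φ ω A))))) := by
      refine Pool.Agent.Q68.LC.EE_mono hδ0 hδ1 fun ω => ?_
      by_cases hI : Inv (gp e ω n) A
      · by_cases hb : B ω A
        · rw [if_pos hI, if_pos hb]
          have hdS : dS w (univ \ A) (pm (gp e ω n)) = (MP ω).det := by
            rw [hMP]
            rfl
          have hΘω : Θ ω = w ^ A.card := by
            rw [hΘ]
            dsimp only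
            rw [if_pos ⟨hI, hb⟩]
          rw [hdS, hΘω]
          have d1 := lc_res_det (gp e ω n) A hI w hw0 hw1 (φ ω A) (hφ0 ω A)
          have d2 : (1 - w • (dg (univ \ A) * pm (gp e ω n))) = MP ω := by rw [hMP]
          rw [d2] at d1
          have d3 : 0 ≤ w ^ A.card * (MP ω).det := mul_nonneg (by positivity) (hMPp ω).le
          calc w ^ A.card * (MP ω).det * ∑ x ∈ univ \ A,
                ((∑ y ∈ cyc (gp e ω n) x, φ ω A y) / ((cyc (gp e ω n) x).card : ℝ)) ^ 2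
              ≤ w ^ A.card * (MP ω).det * ((1 - w) * (φ ω A ⬝ᵥ ((MP ω)⁻¹ *ᵥ φ ω A))) :=
                mul_le_mul_of_nonneg_left d1 d3
            _ = _ := by ring
        · rw [if_pos hI, if_neg hb, hΘ]
          dsimp only
          rw [if_neg (fun h => hb h.2)]
          simp
      · rw [if_neg hI, hΘ]
        dsimp only
        rw [if_neg (fun h => hI h.1)]
        simp
    have c2 : EE n δ (fun ω => Θ ω * ((MT ω).det * (φ ω A ⬝ᵥ ((MT ω)⁻¹ *ᵥ φ ω A)))) ≤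
        EE n δ (fun ω => Λ * (Θ ω * (MT ω).det)) := by
      refine Pool.Agent.Q68.LC.EE_mono hδ0 hδ1 fun ω => ?_
      by_cases hI : Inv (gp e ω n) A ∧ B ω A
      · have d1 := hres ω A hI.1 hI.2
        have d2 : (1 - w • (dg (univ \ A) * TT e ω A δ n)) = MT ω := by rw [hMT]
        rw [d2] at d1
        have d3 : 0 ≤ Θ ω * (MT ω).det := mul_nonneg (hΘ0 ω) (hMTp ω).le
        calc Θ ω * ((MT ω).det * (φ ω A ⬝ᵥ ((MT ω)⁻¹ *ᵥ φ ω A)))
            = Θ ω * (MT ω).det * (φ ω A ⬝ᵥ ((MT ω)⁻¹ *ᵥ φ ω A)) := by ring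
          _ ≤ Θ ω * (MT ω).det * Λ := mul_le_mul_of_nonneg_left d1 d3
          _ = _ := by ring
      · have : Θ ω = 0 := by
          rw [hΘ]
          dsimp only
          rw [if_neg hI]
        rw [this]
        simp
    have c3 : EE n δ (fun ω => Θ ω * (MP ω).det) ≤ EE n δ (fun ω => if Inv (gp e ω n) A then
        w ^ A.card * dS w (univ \ A) (pm (gp e ω n)) else 0) := by
      refine Pool.Agent.Q68.LC.EE_mono hδ0 hδ1 fun ω => ?_
      have hdS : dS w (univ \ A) (pm (gp e ω n)) = (MP ω).det := by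
        rw [hMP]
        rfl
      have d3 : 0 ≤ w ^ A.card * (MP ω).det := mul_nonneg (by positivity) (hMPp ω).le
      rw [hdS, hΘ]
      dsimp only
      by_cases hI : Inv (gp e ω n) A
      · by_cases hb : B ω A
        · rw [if_pos hI, if_pos ⟨hI, hb⟩]
        · rw [if_pos hI, if_neg (fun h => hb h.2), zero_mul]
          exact d3
      · rw [if_neg hI, if_neg (fun h => hI h.1), zero_mul]
    rw [Pool.Agent.Q68.LC.EE_smul] at c1 c2
    have hw : 0 ≤ 1 - w := by linarith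
    calc _ ≤ (1 - w) * EE n δ (fun ω => Θ ω * ((MP ω).det * (φ ω A ⬝ᵥ ((MP ω)⁻¹ *ᵥ φ ω A)))) := c1
      _ = (1 - w) * EE n δ (fun ω => Θ ω * ((MT ω).det * (φ ω A ⬝ᵥ ((MT ω)⁻¹ *ᵥ φ ω A)))) := by
          rw [l3]
      _ ≤ (1 - w) * (Λ * EE n δ (fun ω => Θ ω * (MT ω).det)) :=
          mul_le_mul_of_nonneg_left c2 hw
      _ = (1 - w) * Λ * EE n δ (fun ω => Θ ω * (MP ω).det) := by rw [l2']; ring
      _ ≤ _ := mul_le_mul_of_nonneg_left c3 (mul_nonneg hw hΛ)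
  -- sum over `A`
  unfold PE
  rw [Pool.Agent.Q277.LC.EE_sum]
  calc _ ≤ ∑ A : Finset V, (1 - w) * Λ * EE n δ (fun ω => if Inv (gp e ω n) A then
        w ^ A.card * dS w (univ \ A) (pm (gp e ω n)) else 0) :=
        Finset.sum_le_sum fun A _ => key A
    _ = (1 - w) * Λ := by
        rw [← Finset.mul_sum, ← Pool.Agent.Q277.LC.EE_sum]
        simp only [Pool.Agent.Q277.LC.wt_sum _ w hw0 hw1]
        rw [Pool.Agent.Q68.LC.EE_const, mul_one]

end gen

end Pool.Agent.U153
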