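import Pool.Agent.U153.LcKpt

/-!
# The Poisson-Dirichlet law for all sets at polylogarithmic times
-/

set_option autoImplicit false

namespace Pool.Agent.U153

open Finset Equiv Q292.LC
open Pool.Agent.Y998.ST (stirExp nnRate stirLaw nn_nonneg law_nonneg)
open Pool.Agent.Y998.LP (NN bfrac tdist)
open Pool.Agent.TH268.PD (top pdm)
open Pool.Agent.R517.PDS (DR PP)
open Pool.Agent.Results.MP_b817cf_pr.LocalPoissonDirichlet (cycleFrac setFrac pdMean frac_eq pd_eq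
  torusDist set_eq)

/-- the two-point function -/
theorem lc_two (d : ℕ) (hd : 3 ≤ d) : ∃ m : ℕ, ∀ ε : ℝ, 0 < ε → ∃ L₀ : ℕ,
    ∀ (L : ℕ) [NeZero L], L₀ ≤ L → ∀ t : ℝ, (Real.log L) ^ m ≤ t →
    ∀ x y : Fin d → ZMod L, x ≠ y → |PP (nnRate d L) t x y - 1 / 2| ≤ ε := by
  obtain ⟨m, hm⟩ := lc_kpt d hd
  refine ⟨m, fun ε hε => ?_⟩
  obtain ⟨L₀, hL₀⟩ := hm 2 (by norm_num) ε hε
  refine ⟨L₀, fun L _ hL t ht x y hxy => ?_⟩
  have hb : Function.Injective (![x, y] : Fin 2 → Fin d → ZMod L) := by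
    intro i j hij
    fin_cases i <;> fin_cases j <;> simp_all
  have h := hL₀ L hL t ht ![x, y] hb
  have e1 : PP (nnRate d L) t x y = stirExp (nnRate d L) t (fun g =>
        (open Classical in if ∀ i j, g.SameCycle ((![x, y] : Fin 2 → Fin d → ZMod L) i)
          ((![x, y] : Fin 2 → Fin d → ZMod L) j) then (1 : ℝ) else 0)) := by
    unfold Pool.Agent.R517.PDS.PP
    congr 1
    funext g
    have : (∀ i j, g.SameCycle ((![x, y] : Fin 2 → Fin d → ZMod L) i)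
          ((![x, y] : Fin 2 → Fin d → ZMod L) j)) ↔ g.SameCycle x y := by
      constructor
      · intro h
        exact h 0 1
      · intro h i j
        fin_cases i <;> fin_cases j <;> simp [h, h.symm, Perm.SameCycle.refl]
    simp only [this]
  rw [e1]
  exact_mod_cast h

/-- the Poisson-Dirichlet law for all sets -/
theorem lc_sets (d : ℕ) (hd : 3 ≤ d) : ∃ m : ℕ, ∀ (k : ℕ) (f : (Fin k → ℝ) → ℝ), Continuous f →
    (∃ C, ∀ u, |f u| ≤ C) → ∀ ε : ℝ, 0 < ε → ∃ N L₀ : ℕ, ∀ (L : ℕ) [NeZero L], L₀ ≤ L →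
    ∀ t : ℝ, (Real.log L) ^ m ≤ t → ∀ S : Finset (Fin d → ZMod L), N ≤ S.card →
    |stirExp (nnRate d L) t (fun g => f (fun i : Fin k => setFrac S g i)) - pdMean f| ≤ ε := by
  obtain ⟨m₁, hm₁⟩ := lc_dev_stir d hd
  obtain ⟨m₂, hm₂⟩ := lc_two d hd
  refine ⟨max m₁ m₂, ?_⟩
  intro k f hf hb ε hε
  obtain ⟨C₀, hC₀⟩ := hb
  obtain ⟨⟨T, hT, κ, hκ, N₁, hfar⟩, -⟩ :=
    Pool.Agent.Results.MP_b817cf_pr.SetsBeyondDiffusiveScale.result d (by omega) k f hf ⟨C₀, hC₀⟩ ε hε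
  obtain ⟨C, hC, hdist⟩ := Pool.Agent.Y998.LQ.t_dist d (by omega)
  obtain ⟨δT, hδT, N₀, hN₀, κT, hκT, htr⟩ :=
    Pool.Agent.R517.PDL.t_TRANS2 k f hf C₀ hC₀ ε hε
  obtain ⟨N₂, hN₂⟩ := exists_nat_gt (8 / κT)
  obtain ⟨L₁, hL₁⟩ := hm₁ (δT / C) (by positivity) (N₀ + N₂) 1 one_pos
  obtain ⟨L₂, hL₂⟩ := hm₂ (κT / 16) (by positivity)
  have hd0 : (3 : ℝ) ≤ d := by exact_mod_cast hd
  refine ⟨N₁ + N₂, max (max L₁ L₂) (⌈Real.exp 1⌉₊ + ⌈(d / κ) ^ 5⌉₊ + ⌈T⌉₊ + 3), ?_⟩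
  intro L _ hL t ht S hS
  have hLa : L₁ ≤ L := ((le_max_left _ _).trans (le_max_left _ _)).trans hL
  have hLa2 : L₂ ≤ L := ((le_max_right _ _).trans (le_max_left _ _)).trans hL
  have hLb : ⌈Real.exp 1⌉₊ + ⌈(d / κ) ^ 5⌉₊ + ⌈T⌉₊ + 3 ≤ L := (le_max_right _ _).trans hL
  have hL3 : 3 ≤ L := by omega
  have hLe : Real.exp 1 ≤ L :=
    (Nat.le_ceil _).trans (by exact_mod_cast (by omega : ⌈Real.exp 1⌉₊ ≤ L))
  have hLκ : (d / κ) ^ 5 ≤ L :=
    (Nat.le_ceil _).trans (by exact_mod_cast (by omega : ⌈(d / κ) ^ 5⌉₊ ≤ L))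
  have hLT : T ≤ L := (Nat.le_ceil _).trans (by exact_mod_cast (by omega : ⌈T⌉₊ ≤ L))
  have hLr : (3 : ℝ) ≤ L := by exact_mod_cast hL3
  have hL0 : (0 : ℝ) < L := by linarith
  have hL1r : (1 : ℝ) ≤ L := by linarith
  have hlog1 : 1 ≤ Real.log L := by
    rw [Real.le_log_iff_exp_le hL0]
    exact hLe
  have ht1 : (Real.log L) ^ m₁ ≤ t := (pow_le_pow_right₀ hlog1 (le_max_left _ _)).trans ht
  have ht2 : (Real.log L) ^ m₂ ≤ t := (pow_le_pow_right₀ hlog1 (le_max_right _ _)).trans ht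
  have ht00 : 0 ≤ t := (pow_nonneg (by linarith) m₁).trans ht1
  rcases le_or_gt (t ^ 2) ((L : ℝ) ^ 3) with hcase | hcase
  · obtain ⟨r, hr1, hrL, hrN, hrd, -⟩ := hL₁ L hLa t ht1 hcase
    have ht0 : 0 < t := lt_of_lt_of_le (pow_pos (by linarith) m₁) ht1
    have hst : 0 < Real.sqrt t := Real.sqrt_pos.2 ht0
    obtain ⟨B, hB⟩ : ∃ B : Finset (Fin d → ZMod L), B = Q292.LC.box 0 r := ⟨_, rfl⟩
    have hcard : B.card = r ^ d := by
      rw [hB]; exact Pool.Agent.Q187.LC.Nas.card_box _ r hrL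
    have hNB : N₀ + N₂ ≤ B.card := by
      rw [hcard]
      exact hrN.trans (Nat.le_self_pow (by omega) r)
    have hinv : ∀ M : ℕ, N₂ ≤ M → 1 / (M : ℝ) ≤ κT / 8 ∧ 0 < M := by
      intro M hM
      have h0 : (0 : ℝ) < 8 / κT := by positivity
      have h1 : 8 / κT ≤ (M : ℝ) := hN₂.le.trans (by exact_mod_cast hM)
      have hM0 : (0 : ℝ) < M := lt_of_lt_of_le h0 h1
      refine ⟨?_, by exact_mod_cast hM0⟩
      rw [div_le_iff₀ hκT] at h1
      rw [div_le_iff₀ hM0]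
      linarith
    obtain ⟨iB, pB⟩ := hinv B.card (by omega)
    obtain ⟨iS, pS⟩ := hinv S.card (by omega)
    have hsmall := Pool.Agent.R517.PDL.ds_small (J := nnRate d L) nn_nonneg ht00 B S pB pS
      (κT / 16) (by positivity) (fun x _ y _ hxy => hL₂ L hLa2 t ht2 x y hxy)
    have key := htr (Fin d → ZMod L) (nnRate d L) nn_nonneg t ht00 B (by omega) (by
        intro x hx y hy
        rw [hB] at hx hy
        refine (hdist L hL3 t ht0 x y).trans ?_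
        rw [div_le_iff₀ hst]
        have h1 : (tdist x y : ℝ) ≤ d * r := by exact_mod_cast lc_tdist_box r 0 x y hx hy
        calc C * (tdist x y : ℝ) ≤ C * (δT / C * Real.sqrt t) :=
              mul_le_mul_of_nonneg_left (h1.trans hrd) hC.le
          _ = δT * Real.sqrt t := by
              field_simp) S (by
        refine hsmall.trans ?_
        linarith)
    simp only [set_eq, pd_eq]
    exact key
  · have h3 : (L : ℝ) ^ ((3 : ℝ) / 2) ≤ t := by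
      have h4 : ((L : ℝ) ^ ((3 : ℝ) / 2)) ^ 2 ≤ t ^ 2 := by
        rw [← Real.rpow_natCast, ← Real.rpow_mul hL0.le]
        have : (3 : ℝ) / 2 * ((2 : ℕ) : ℝ) = ((3 : ℕ) : ℝ) := by norm_num
        rw [this, Real.rpow_natCast]
        exact hcase.le
      exact (pow_le_pow_iff_left₀ (by positivity) ht00 (by norm_num)).1 h4
    have hLt : (L : ℝ) ≤ t := by
      refine le_trans ?_ h3
      calc (L : ℝ) = (L : ℝ) ^ (1 : ℝ) := (Real.rpow_one _).symm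
        _ ≤ _ := Real.rpow_le_rpow_of_exponent_le hL1r (by norm_num)
    refine hfar L hL3 t (hLT.trans hLt) S (by omega) ?_
    intro x _ y _
    refine (Pool.Agent.Results.MP_b817cf_pr.LocalPoissonDirichlet.dist_le x y).trans ?_
    have ht1' : 1 ≤ t := hL1r.trans hLt
    have h5 : (L : ℝ) ^ ((6 : ℝ) / 5) ≤ t ^ (((d : ℝ) + 1) / (d + 2)) := by
      calc (L : ℝ) ^ ((6 : ℝ) / 5) = ((L : ℝ) ^ ((3 : ℝ) / 2)) ^ ((4 : ℝ) / 5) := by
            rw [← Real.rpow_mul hL0.le]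
            norm_num
        _ ≤ t ^ ((4 : ℝ) / 5) := Real.rpow_le_rpow (by positivity) h3 (by norm_num)
        _ ≤ _ := by
            refine Real.rpow_le_rpow_of_exponent_le ht1' ?_
            rw [div_le_div_iff₀ (by norm_num) (by positivity)]
            linarith
    have h6 : (d : ℝ) / κ ≤ (L : ℝ) ^ ((1 : ℝ) / 5) := by
      have h7 : ((d / κ) ^ 5) ^ ((1 : ℝ) / 5) ≤ (L : ℝ) ^ ((1 : ℝ) / 5) :=
        Real.rpow_le_rpow (by positivity) hLκ (by norm_num)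
      have h8 : (((d : ℝ) / κ) ^ 5) ^ ((1 : ℝ) / 5) = d / κ := by
        rw [← Real.rpow_natCast, ← Real.rpow_mul (by positivity)]
        norm_num
      rwa [h8] at h7
    have h9 : (L : ℝ) ^ ((6 : ℝ) / 5) = (L : ℝ) ^ ((1 : ℝ) / 5) * L := by
      conv_rhs => rw [← Real.rpow_one (L : ℝ), Real.rpow_one (L : ℝ)]
      nth_rewrite 3 [← Real.rpow_one (L : ℝ)]
      rw [← Real.rpow_add hL0]
      norm_num
    rw [div_le_iff₀ hκ] at h6
    calc (d : ℝ) * L ≤ ((L : ℝ) ^ ((1 : ℝ) / 5) * κ) * L :=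
          mul_le_mul_of_nonneg_right h6 hL0.le
      _ = κ * ((L : ℝ) ^ ((1 : ℝ) / 5) * L) := by ring
      _ = κ * (L : ℝ) ^ ((6 : ℝ) / 5) := by rw [h9]
      _ ≤ κ * t ^ (((d : ℝ) + 1) / (d + 2)) := mul_le_mul_of_nonneg_left h5 hκ.le

end Pool.Agent.U153
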