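import Pool.Agent.U153.LcSets

/-!
# The cycle length of a point is asymptotically uniform at polylogarithmic times
-/

set_option autoImplicit false

namespace Pool.Agent.U153

open Finset Equiv
open Pool.Agent.Y998.ST (stirExp nnRate stirLaw nn_nonneg law_nonneg exp_const exp_nonneg cycleLen)
open Pool.Agent.R517.PDS (dens II QQ II_eq II_mean fib' stirExp_sum stirExp_smul dens_mem QQ_mem
  stirExp_mono)

section gen

variable {d L : ℕ} [NeZero L]

theorem mc_pow_eq (t : ℝ) (n : ℕ) (x : Fin d → ZMod L) :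
    stirExp (nnRate d L) t (fun g => dens g Finset.univ x ^ n) =
      ∑ z ∈ Fintype.piFinset fun _ : Fin n => (Finset.univ : Finset (Fin d → ZMod L)),
        QQ (nnRate d L) t x z / ((Finset.univ : Finset (Fin d → ZMod L)).card : ℝ) ^ n := by
  classical
  have e1 : (fun g : Perm (Fin d → ZMod L) => dens g Finset.univ x ^ n) =
      fun g => ∑ z ∈ Fintype.piFinset fun _ : Fin n => (Finset.univ : Finset (Fin d → ZMod L)),
        1 / ((Finset.univ : Finset (Fin d → ZMod L)).card : ℝ) ^ n * II g x z := by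
    funext g
    have h := II_mean g Finset.univ x (fun _ : Fin n => (0 : Fin d → ZMod L))
    simp only [zero_add, Finset.image_id'] at h
    rw [Finset.prod_const, Finset.card_univ, Fintype.card_fin] at h
    rw [h]
    exact Finset.sum_congr rfl fun z _ => by ring
  rw [e1, stirExp_sum]
  refine Finset.sum_congr rfl fun z _ => ?_
  rw [stirExp_smul]
  unfold QQ
  ring

end gen

/-- the moments of the fraction of the torus in the cycle of a point -/
theorem mc_mom (d : ℕ) (hd : 3 ≤ d) : ∃ m : ℕ, ∀ n : ℕ, ∀ ε : ℝ, 0 < ε → ∃ L₀ : ℕ,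
    ∀ (L : ℕ) [NeZero L], L₀ ≤ L → ∀ t : ℝ, (Real.log L) ^ m ≤ t → ∀ x : Fin d → ZMod L,
      |stirExp (nnRate d L) t (fun g => dens g Finset.univ x ^ n) - 1 / ((n : ℝ) + 1)| ≤ ε := by
  classical
  obtain ⟨m, hm⟩ := lc_kpt d hd
  refine ⟨m, fun n ε hε => ?_⟩
  obtain ⟨L₁, hL₁⟩ := hm (n + 1) (by omega) (ε / 2) (half_pos hε)
  obtain ⟨N, hN⟩ := exists_nat_gt (2 * ((n : ℝ) + (n : ℝ) ^ 2) / ε)
  refine ⟨max L₁ (N + 3), ?_⟩
  intro L _ hL t ht x
  have hLa : L₁ ≤ L := (le_max_left _ _).trans hL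
  have hLb : N + 3 ≤ L := (le_max_right _ _).trans hL
  have hlog0 : 0 ≤ Real.log L := Real.log_natCast_nonneg L
  have ht00 : 0 ≤ t := (pow_nonneg hlog0 m).trans ht
  obtain ⟨B, hB⟩ : ∃ B : Finset (Fin d → ZMod L), B = Finset.univ := ⟨_, rfl⟩
  have hBc : (B.card : ℝ) = (L : ℝ) ^ d := by
    rw [hB, Finset.card_univ, lc_vol]
  have hLr : (N : ℝ) + 3 ≤ L := by exact_mod_cast hLb
  have hL1 : (1 : ℝ) ≤ L := by
    have : (0 : ℝ) ≤ N := Nat.cast_nonneg N
    linarith
  have hBL : (L : ℝ) ≤ B.card := by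
    rw [hBc]
    exact le_self_pow₀ hL1 (by omega)
  have hB0r : (0 : ℝ) < B.card := by linarith
  have hB0 : 0 < B.card := by exact_mod_cast hB0r
  have hbn : (0 : ℝ) < (B.card : ℝ) ^ n := by positivity
  obtain ⟨P, hP⟩ : ∃ P : Finset (Fin n → Fin d → ZMod L), P = Fintype.piFinset fun _ => B :=
    ⟨_, rfl⟩
  have hPc : (P.card : ℝ) = (B.card : ℝ) ^ n := by
    rw [hP]
    simp [Fintype.card_piFinset]
  have hK0 : (0 : ℝ) < (n : ℝ) + 1 := by positivity
  have hK1 : 1 / ((n : ℝ) + 1) ≤ 1 := by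
    rw [div_le_one hK0]
    have : (0 : ℝ) ≤ n := Nat.cast_nonneg n
    linarith
  have hK2 : 0 ≤ 1 / ((n : ℝ) + 1) := by positivity
  rw [mc_pow_eq, ← hB, ← hP]
  have e1 : ∑ z ∈ P, QQ (nnRate d L) t x z / (B.card : ℝ) ^ n - 1 / ((n : ℝ) + 1) =
      ∑ z ∈ P, (QQ (nnRate d L) t x z - 1 / ((n : ℝ) + 1)) / (B.card : ℝ) ^ n := by
    rw [← Finset.sum_div, ← Finset.sum_div, Finset.sum_sub_distrib, Finset.sum_const, nsmul_eq_mul,
      hPc, sub_div, mul_div_cancel_left₀ _ hbn.ne']
  rw [e1]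
  refine (Finset.abs_sum_le_sum_abs _ _).trans ?_
  have hpt : ∀ z ∈ P, |(QQ (nnRate d L) t x z - 1 / ((n : ℝ) + 1)) / (B.card : ℝ) ^ n| ≤
      (ε / 2 + (∑ i, if z i = x then (1 : ℝ) else 0) +
        (∑ i, ∑ j, if i ≠ j ∧ z i = z j then (1 : ℝ) else 0)) / (B.card : ℝ) ^ n := by
    intro z _
    rw [abs_div, abs_of_pos hbn]
    refine div_le_div_of_nonneg_right ?_ hbn.le
    have n1 : 0 ≤ ∑ i, if z i = x then (1 : ℝ) else 0 :=
      Finset.sum_nonneg fun i _ => by split_ifs <;> norm_num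
    have n2' : ∀ i, 0 ≤ ∑ j, if i ≠ j ∧ z i = z j then (1 : ℝ) else 0 := fun i =>
      Finset.sum_nonneg fun j _ => by split_ifs <;> norm_num
    have n2 : 0 ≤ ∑ i, ∑ j, if i ≠ j ∧ z i = z j then (1 : ℝ) else 0 :=
      Finset.sum_nonneg fun i _ => n2' i
    have q1 := QQ_mem (J := nnRate d L) nn_nonneg ht00 x z
    have hle1 : |QQ (nnRate d L) t x z - 1 / ((n : ℝ) + 1)| ≤ 1 :=
      abs_le.2 ⟨by linarith [q1.1, q1.2], by linarith [q1.1, q1.2]⟩
    by_cases c1 : ∃ i, z i = x
    · obtain ⟨i, hi⟩ := c1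
      have := Finset.single_le_sum (f := fun i => if z i = x then (1 : ℝ) else 0)
        (fun i _ => by split_ifs <;> norm_num) (Finset.mem_univ i)
      rw [if_pos hi] at this
      linarith
    by_cases c2 : ∃ i j, i ≠ j ∧ z i = z j
    · obtain ⟨i, j, hij⟩ := c2
      have a1 := Finset.single_le_sum
        (f := fun j => if i ≠ j ∧ z i = z j then (1 : ℝ) else 0)
        (fun i _ => by split_ifs <;> norm_num) (Finset.mem_univ j)
      have a2 := Finset.single_le_sum
        (f := fun i => ∑ j, if i ≠ j ∧ z i = z j then (1 : ℝ) else 0)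
        (fun i _ => n2' i) (Finset.mem_univ i)
      rw [if_pos hij] at a1
      linarith
    have hinj : Function.Injective (Fin.cons x z : Fin (n + 1) → Fin d → ZMod L) := by
      rw [Fin.cons_injective_iff]
      constructor
      · rintro ⟨i, hi⟩
        exact c1 ⟨i, hi⟩
      · intro i j hij
        by_contra hne
        exact c2 ⟨i, j, hne, hij⟩
    have h1 := hL₁ L hLa t ht (Fin.cons x z : Fin (n + 1) → Fin d → ZMod L) hinj
    have h2 : QQ (nnRate d L) t x z = stirExp (nnRate d L) t (fun g =>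
        (open Classical in if ∀ i j, g.SameCycle
          ((Fin.cons x z : Fin (n + 1) → Fin d → ZMod L) i)
          ((Fin.cons x z : Fin (n + 1) → Fin d → ZMod L) j) then (1 : ℝ) else 0)) := by
      unfold QQ
      congr 1
      funext g
      exact II_eq g (Fin.cons x z : Fin (n + 1) → Fin d → ZMod L)
    rw [← h2] at h1
    push_cast at h1
    linarith
  refine (Finset.sum_le_sum hpt).trans ?_
  rw [← Finset.sum_div, div_le_iff₀ hbn, Finset.sum_add_distrib, Finset.sum_add_distrib,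
    Finset.sum_const, nsmul_eq_mul, hPc]
  have t1 : ∑ z ∈ P, ∑ i, (if z i = x then (1 : ℝ) else 0) ≤
      n * ((B.card : ℝ) ^ n * (1 / B.card)) := by
    rw [Finset.sum_comm]
    refine (Finset.sum_le_card_nsmul _ _ ((B.card : ℝ) ^ n * (1 / B.card)) fun i _ => ?_).trans
      (le_of_eq ?_)
    · rw [hP]
      refine fib' B hB0 i (fun z => z i = x) ?_
      intro z z' hz hz' _
      exact hz.trans hz'.symm
    · rw [Finset.card_univ, Fintype.card_fin, nsmul_eq_mul]
  have t2 : ∑ z ∈ P, ∑ i, ∑ j, (if i ≠ j ∧ z i = z j then (1 : ℝ) else 0) ≤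
      n * (n * ((B.card : ℝ) ^ n * (1 / B.card))) := by
    rw [Finset.sum_comm]
    refine (Finset.sum_le_card_nsmul _ _ (n * ((B.card : ℝ) ^ n * (1 / B.card)))
      fun i _ => ?_).trans (le_of_eq ?_)
    · rw [Finset.sum_comm]
      refine (Finset.sum_le_card_nsmul _ _ ((B.card : ℝ) ^ n * (1 / B.card)) fun j _ => ?_).trans
        (le_of_eq ?_)
      · rw [hP]
        refine fib' B hB0 i (fun z => i ≠ j ∧ z i = z j) ?_
        intro z z' hz hz' ho
        have h2 := ho j (Ne.symm hz.1)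
        rw [hz.2, hz'.2, h2]
      · rw [Finset.card_univ, Fintype.card_fin, nsmul_eq_mul]
    · rw [Finset.card_univ, Fintype.card_fin, nsmul_eq_mul]
  have hfin : ((n : ℝ) + (n : ℝ) ^ 2) * (1 / B.card) ≤ ε / 2 := by
    rw [mul_one_div, div_le_iff₀ hB0r]
    have h3 : 2 * ((n : ℝ) + (n : ℝ) ^ 2) / ε ≤ B.card := by linarith
    rw [div_le_iff₀ hε] at h3
    linarith
  calc (B.card : ℝ) ^ n * (ε / 2) + ∑ z ∈ P, ∑ i, (if z i = x then (1 : ℝ) else 0) +
        ∑ z ∈ P, ∑ i, ∑ j, (if i ≠ j ∧ z i = z j then (1 : ℝ) else 0) ≤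
        (B.card : ℝ) ^ n * (ε / 2) + n * ((B.card : ℝ) ^ n * (1 / B.card)) +
          n * (n * ((B.card : ℝ) ^ n * (1 / B.card))) := add_le_add (add_le_add le_rfl t1) t2
    _ = (B.card : ℝ) ^ n * (ε / 2) +
        (B.card : ℝ) ^ n * (((n : ℝ) + (n : ℝ) ^ 2) * (1 / B.card)) := by ring
    _ ≤ (B.card : ℝ) ^ n * (ε / 2) + (B.card : ℝ) ^ n * (ε / 2) :=
        add_le_add le_rfl (mul_le_mul_of_nonneg_left hfin hbn.le)
    _ = ε * (B.card : ℝ) ^ n := by ring

/-- weak convergence of the fraction of the torus in the cycle of a point -/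
theorem mc_cont (d : ℕ) (hd : 3 ≤ d) : ∃ m : ℕ, ∀ F : ℝ → ℝ, ContinuousOn F (Set.Icc 0 1) →
    ∀ ε : ℝ, 0 < ε → ∃ L₀ : ℕ, ∀ (L : ℕ) [NeZero L], L₀ ≤ L →
    ∀ t : ℝ, (Real.log L) ^ m ≤ t → ∀ x : Fin d → ZMod L,
      |stirExp (nnRate d L) t (fun g => F (dens g Finset.univ x)) - ∫ u in (0 : ℝ)..1, F u| ≤ ε := by
  obtain ⟨m, hm⟩ := mc_mom d hd
  refine ⟨m, fun F hF ε hε => ?_⟩
  obtain ⟨p, hp⟩ := exists_polynomial_near_of_continuousOn 0 1 F hF (ε / 3) (by positivity)
  obtain ⟨A, hA⟩ : ∃ A : ℝ, A = 1 + ∑ n ∈ Finset.range (p.natDegree + 1), |p.coeff n| := ⟨_, rfl⟩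
  have hA0 : 0 < A := by
    rw [hA]
    have : 0 ≤ ∑ n ∈ Finset.range (p.natDegree + 1), |p.coeff n| :=
      Finset.sum_nonneg fun _ _ => abs_nonneg _
    linarith
  choose L₀ hL₀ using fun n : ℕ => hm n (ε / (3 * A)) (by positivity)
  refine ⟨(Finset.range (p.natDegree + 1)).sup L₀, ?_⟩
  intro L _ hL t ht x
  have hlog0 : 0 ≤ Real.log L := Real.log_natCast_nonneg L
  have ht00 : 0 ≤ t := (pow_nonneg hlog0 m).trans ht
  have hLn : ∀ n ∈ Finset.range (p.natDegree + 1), L₀ n ≤ L := fun n hn =>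
    (Finset.le_sup hn).trans hL
  -- the polynomial
  have e1 : stirExp (nnRate d L) t (fun g => p.eval (dens g Finset.univ x)) =
      ∑ n ∈ Finset.range (p.natDegree + 1), p.coeff n *
        stirExp (nnRate d L) t (fun g => dens g Finset.univ x ^ n) := by
    simp only [Polynomial.eval_eq_sum_range]
    rw [stirExp_sum]
    exact Finset.sum_congr rfl fun n _ => stirExp_smul _ _ _ _
  have e2 : ∫ u in (0 : ℝ)..1, p.eval u =
      ∑ n ∈ Finset.range (p.natDegree + 1), p.coeff n * (1 / ((n : ℝ) + 1)) := by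
    simp only [Polynomial.eval_eq_sum_range]
    rw [intervalIntegral.integral_finsetSum]
    · refine Finset.sum_congr rfl fun n _ => ?_
      rw [intervalIntegral.integral_const_mul, integral_pow]
      simp
    · intro n _
      exact (continuous_const.mul (continuous_pow n)).intervalIntegrable _ _
  have s1 : |stirExp (nnRate d L) t (fun g => p.eval (dens g Finset.univ x)) -
      ∫ u in (0 : ℝ)..1, p.eval u| ≤ ε / 3 := by
    rw [e1, e2, ← Finset.sum_sub_distrib]
    refine (Finset.abs_sum_le_sum_abs _ _).trans ?_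
    have : ∀ n ∈ Finset.range (p.natDegree + 1), |p.coeff n *
        stirExp (nnRate d L) t (fun g => dens g Finset.univ x ^ n) -
        p.coeff n * (1 / ((n : ℝ) + 1))| ≤ |p.coeff n| * (ε / (3 * A)) := by
      intro n hn
      rw [← mul_sub, abs_mul]
      exact mul_le_mul_of_nonneg_left (hL₀ n L (hLn n hn) t ht x) (abs_nonneg _)
    refine (Finset.sum_le_sum this).trans ?_
    rw [← Finset.sum_mul]
    have h3 : ∑ n ∈ Finset.range (p.natDegree + 1), |p.coeff n| ≤ A := by rw [hA]; linarith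
    calc (∑ n ∈ Finset.range (p.natDegree + 1), |p.coeff n|) * (ε / (3 * A)) ≤
          A * (ε / (3 * A)) := mul_le_mul_of_nonneg_right h3 (by positivity)
      _ = ε / 3 := by field_simp
  have s2 : |stirExp (nnRate d L) t (fun g => F (dens g Finset.univ x)) -
      stirExp (nnRate d L) t (fun g => p.eval (dens g Finset.univ x))| ≤ ε / 3 := by
    have hb : ∀ g : Perm (Fin d → ZMod L), |F (dens g Finset.univ x) -
        p.eval (dens g Finset.univ x)| ≤ ε / 3 := by
      intro g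
      have h4 := hp (dens g Finset.univ x) ⟨(dens_mem g _ x).1, (dens_mem g _ x).2⟩
      rw [abs_sub_comm]
      exact h4.le
    have h5 : stirExp (nnRate d L) t (fun g => F (dens g Finset.univ x)) ≤
        stirExp (nnRate d L) t (fun g => p.eval (dens g Finset.univ x)) + ε / 3 := by
      have h6 : stirExp (nnRate d L) t (fun g => p.eval (dens g Finset.univ x) + ε / 3) =
          stirExp (nnRate d L) t (fun g => p.eval (dens g Finset.univ x)) + ε / 3 := by
        rw [Pool.Agent.R517.PDS.stirExp_add, exp_const]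
      rw [← h6]
      refine stirExp_mono nn_nonneg ht00 _ _ fun g => ?_
      have h9 := (abs_le.1 (hb g)).2
      beta_reduce
      linarith
    have h7 : stirExp (nnRate d L) t (fun g => p.eval (dens g Finset.univ x)) ≤
        stirExp (nnRate d L) t (fun g => F (dens g Finset.univ x)) + ε / 3 := by
      have h6 : stirExp (nnRate d L) t (fun g => F (dens g Finset.univ x) + ε / 3) =
          stirExp (nnRate d L) t (fun g => F (dens g Finset.univ x)) + ε / 3 := by
        rw [Pool.Agent.R517.PDS.stirExp_add, exp_const]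
      rw [← h6]
      refine stirExp_mono nn_nonneg ht00 _ _ fun g => ?_
      have h9 := (abs_le.1 (hb g)).1
      beta_reduce
      linarith
    rw [abs_le]
    constructor <;> linarith
  have s3 : |(∫ u in (0 : ℝ)..1, p.eval u) - ∫ u in (0 : ℝ)..1, F u| ≤ ε / 3 := by
    have hFi : IntervalIntegrable F MeasureTheory.volume 0 1 :=
      ContinuousOn.intervalIntegrable (by rwa [Set.uIcc_of_le zero_le_one])
    have hpi : IntervalIntegrable (fun u => p.eval u) MeasureTheory.volume 0 1 :=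
      (Polynomial.continuous p).intervalIntegrable _ _
    rw [← intervalIntegral.integral_sub hpi hFi]
    have h8 := intervalIntegral.norm_integral_le_of_norm_le_const (a := (0 : ℝ)) (b := 1)
      (C := ε / 3) (f := fun u => p.eval u - F u) (by
        intro u hu
        rw [Set.uIoc_of_le zero_le_one] at hu
        rw [Real.norm_eq_abs]
        exact (hp u ⟨hu.1.le, hu.2⟩).le)
    rw [Real.norm_eq_abs] at h8
    simpa using h8
  rw [abs_le] at s1 s2 s3 ⊢
  constructor <;> linarith [s1.1, s1.2, s2.1, s2.2, s3.1, s3.2]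

end Pool.Agent.U153
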