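import Pool.Agent.Y13.QM.Fin

/-!
# N-vector models in two dimensions: an improved recursion for the influence of the boundary
-/

set_option autoImplicit false
set_option linter.unusedSectionVars false
set_option linter.unusedVariables false

noncomputable section

namespace Pool.Agent.U153

open MvPolynomial MeasureTheory Pool.Agent.H5R2.ON Pool.Agent.H717R2.ON3 Pool.Agent.H983R2.ONJ
open Pool.Agent.H983R2.ONJ.Aux993 Pool.Agent.H983R2.ONJ.Aux348

/-- Conditioning on the spins outside a smaller set. -/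
theorem nv_tower {N L : ℕ} [NeZero L] (hN : N ≠ 0) {H : Conf N L → ℝ}
    (hH : Continuous H) {Λ' Λ : Finset (Tor L)}
    (h : Λ' ⊆ Λ) (η : Conf N L) {Φ D : Conf N L → ℝ} (hΦ : Continuous Φ) (hD : Continuous D)
    (hDloc : ∀ S S' : Conf N L, (∀ x, x ∉ Λ' → S x = S' x) → D S = D S')
    (hm : ∀ η' : Conf N L, |gH H Λ' η' Φ| ≤ D η') :
    |gH H Λ η Φ| ≤ gH H Λ η D := by
  obtain ⟨CF, hCF⟩ := st_bdd hΦ
  obtain ⟨CD, hCD⟩ := st_bdd hD
  obtain ⟨C, hC⟩ := st_bdd (cont_w hH)
  have hs := (gib2_continuous_splice (N := N) Λ η).measurable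
  have hZ := Z_pos hN hH Λ η
  set Z := ∫ S, Real.exp (H (splice Λ S η)) ∂(prior N L) with hZdef
  have hDsp : ∀ S' S : Conf N L, D (splice Λ' S' S) = D S := fun S' S =>
    hDloc _ _ fun x hx => by simp [splice, hx]
  have hm1 : Measurable (fun S : Conf N L => Φ (splice Λ S η) *
      Real.exp (H (splice Λ S η))) :=
    (hΦ.measurable.comp hs).mul ((cont_w hH).measurable.comp hs)
  have hb1 : ∀ S : Conf N L, |Φ (splice Λ S η) * Real.exp (H (splice Λ S η))| ≤ CF * C :=
    fun S => by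
    rw [abs_mul]
    exact mul_le_mul (hCF _) (hC _) (abs_nonneg _) ((abs_nonneg _).trans (hCF (splice Λ S η)))
  obtain ⟨e1, -⟩ := gib2_resample hN Λ' hm1 _ hb1
  have hm2 : Measurable (fun S : Conf N L => D (splice Λ S η) *
      Real.exp (H (splice Λ S η))) :=
    (hD.measurable.comp hs).mul ((cont_w hH).measurable.comp hs)
  have hb2 : ∀ S : Conf N L, |D (splice Λ S η) * Real.exp (H (splice Λ S η))| ≤ CD * C :=
    fun S => by
    rw [abs_mul]
    exact mul_le_mul (hCD _) (hC _) (abs_nonneg _) ((abs_nonneg _).trans (hCD (splice Λ S η)))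
  obtain ⟨e2, i2⟩ := gib2_resample hN Λ' hm2 _ hb2
  have r1 : ∀ S : Conf N L, ∫ S', Φ (splice Λ (splice Λ' S' S) η) *
      Real.exp (H (splice Λ (splice Λ' S' S) η)) ∂(prior N L) =
      (gH H Λ' (splice Λ S η) Φ) *
        ∫ S', Real.exp (H (splice Λ' S' (splice Λ S η))) ∂(prior N L) := by
    intro S
    have hZ' := Z_pos hN hH Λ' (splice Λ S η)
    unfold gH
    rw [div_mul_cancel₀ _ hZ'.ne']
    congr 1
    funext S'
    rw [gib2_splice h]
  have r2 : ∀ S : Conf N L, ∫ S', D (splice Λ (splice Λ' S' S) η) *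
      Real.exp (H (splice Λ (splice Λ' S' S) η)) ∂(prior N L) =
      D (splice Λ S η) *
        ∫ S', Real.exp (H (splice Λ' S' (splice Λ S η))) ∂(prior N L) := by
    intro S
    rw [← integral_const_mul]
    congr 1
    funext S'
    rw [gib2_splice h, hDsp]
  have hnum : |∫ S, Φ (splice Λ S η) * Real.exp (H (splice Λ S η)) ∂(prior N L)| ≤
      ∫ S, D (splice Λ S η) * Real.exp (H (splice Λ S η)) ∂(prior N L) := by
    rw [e1, e2, ← Real.norm_eq_abs]
    refine norm_integral_le_of_norm_le i2 (Filter.Eventually.of_forall fun S => ?_)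
    rw [r1 S, r2 S, Real.norm_eq_abs, abs_mul]
    have hZ' := Z_pos hN hH Λ' (splice Λ S η)
    rw [abs_of_pos hZ']
    exact mul_le_mul_of_nonneg_right (hm _) hZ'.le
  show |(∫ S, Φ (splice Λ S η) * Real.exp (H (splice Λ S η)) ∂(prior N L)) / Z| ≤
    (∫ S, D (splice Λ S η) * Real.exp (H (splice Λ S η)) ∂(prior N L)) / Z
  rw [abs_div, abs_of_pos hZ]
  exact div_le_div_of_nonneg_right hnum hZ.le

/-- Rotating all spins. -/
theorem nv_rot {N L : ℕ} [NeZero L]
    (f : EuclideanSpace ℝ (Fin N) ≃ₗᵢ[ℝ] EuclideanSpace ℝ (Fin N)) (g : Sph N ≃ₜ Sph N)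
    (hg : ∀ s, (g s : EuclideanSpace ℝ (Fin N)) = f s) {H : Conf N L → ℝ}
    (hHinv : ∀ S : Conf N L, H (fun x => g (S x)) = H S) (Λ : Finset (Tor L)) (η : Conf N L)
    (F : Conf N L → ℝ) :
    gH H Λ (fun x => g (η x)) F = gH H Λ η (fun S => F (fun x => g (S x))) := by
  have hsp : ∀ S : Conf N L, splice Λ (fun x => g (S x)) (fun x => g (η x)) =
      fun x => g (splice Λ S η x) := by
    intro S
    funext x
    unfold splice
    split_ifs <;> rfl
  unfold gH
  congr 1
  · rw [← integral_prior_rot N L (fun _ => f) (fun _ => g) (fun _ => hg)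
      (fun S => F (splice Λ S (fun x => g (η x))) *
        Real.exp (H (splice Λ S (fun x => g (η x)))))]
    refine integral_congr_ae (Filter.Eventually.of_forall fun S => ?_)
    simp only
    rw [hsp, hHinv]
  · rw [← integral_prior_rot N L (fun _ => f) (fun _ => g) (fun _ => hg)
      (fun S => Real.exp (H (splice Λ S (fun x => g (η x)))))]
    refine integral_congr_ae (Filter.Eventually.of_forall fun S => ?_)
    simp only
    rw [hsp, hHinv]

/-- An isometry of the space on the sphere. -/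
def sphIso {N : ℕ} (f : EuclideanSpace ℝ (Fin N) ≃ₗᵢ[ℝ] EuclideanSpace ℝ (Fin N)) :
    Sph N ≃ₜ Sph N where
  toFun s := ⟨f s, by simp⟩
  invFun s := ⟨f.symm s, by simp⟩
  left_inv s := by ext1; simp
  right_inv s := by ext1; simp
  continuous_toFun := by fun_prop
  continuous_invFun := by fun_prop

theorem enG_inv {N L : ℕ} [NeZero L] {ι : Type} [Fintype ι] (Gm : Gr (Tor L) ι)
    (f : EuclideanSpace ℝ (Fin N) ≃ₗᵢ[ℝ] EuclideanSpace ℝ (Fin N)) (S : Conf N L) :
    enG Gm (fun x => sphIso f (S x)) = enG Gm S := by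
  unfold enG
  refine Finset.sum_congr rfl fun e _ => ?_
  exact f.inner_map_map _ _

theorem pS_inv {N L : ℕ} [NeZero L] (c : Tor L × Tor L → ℝ)
    (f : EuclideanSpace ℝ (Fin N) ≃ₗᵢ[ℝ] EuclideanSpace ℝ (Fin N)) (S : Conf N L) :
    pS c (fun x => sphIso f (S x)) = pS c S := by
  unfold pS
  refine Finset.sum_congr rfl fun e _ => ?_
  congr 1
  exact f.inner_map_map _ _

/-- The influence on all linear functions of the spin. -/
theorem nv_vec {N L : ℕ} [NeZero L] (hN : N ≠ 0) {H : Conf N L → ℝ} (hH : Continuous H)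
    (hHinv : ∀ (f : EuclideanSpace ℝ (Fin N) ≃ₗᵢ[ℝ] EuclideanSpace ℝ (Fin N)) (S : Conf N L),
      H (fun x => sphIso f (S x)) = H S) (Λ : Finset (Tor L)) (p : Tor L) (m : ℝ) (i : Fin N)
    (hinf : ∀ η : Conf N L, |gH H Λ η (fun S => cc i (S p))| ≤ m) (η : Conf N L)
    (a : Fin N → ℝ) :
    |gH H Λ η (fun S => ∑ b, a b * cc b (S p))| ≤ m * √(∑ b, a b ^ 2) := by
  obtain ⟨v, hv⟩ : ∃ v : EuclideanSpace ℝ (Fin N), v = WithLp.toLp 2 a := ⟨_, rfl⟩
  have hvn : ‖v‖ = √(∑ b, a b ^ 2) := by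
    rw [EuclideanSpace.norm_eq, hv]
    congr 1
    refine Finset.sum_congr rfl fun b _ => ?_
    simp
  have hin : ∀ s : Sph N, inner ℝ v (s : EuclideanSpace ℝ (Fin N)) = ∑ b, a b * cc b s := by
    intro s
    rw [PiLp.inner_apply, hv]
    refine Finset.sum_congr rfl fun b _ => ?_
    simp only [RCLike.inner_apply, conj_trivial, cc]
    ring
  rw [← hvn]
  by_cases hv0 : ‖v‖ = 0
  · have h1 : v = 0 := norm_eq_zero.1 hv0
    have h2 : (fun S : Conf N L => ∑ b, a b * cc b (S p)) = fun _ => 0 := by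
      funext S
      rw [← hin, h1, inner_zero_left]
    rw [h2, gH_const hN hH, hv0, mul_zero, abs_zero]
  have hvp : 0 < ‖v‖ := lt_of_le_of_ne (norm_nonneg _) (Ne.symm hv0)
  obtain ⟨u, hu⟩ : ∃ u : EuclideanSpace ℝ (Fin N), u = ‖v‖⁻¹ • v := ⟨_, rfl⟩
  have hun : ‖u‖ = 1 := by
    rw [hu, norm_smul, norm_inv, norm_norm, inv_mul_cancel₀ hv0]
  obtain ⟨e, he⟩ : ∃ e : EuclideanSpace ℝ (Fin N), e = EuclideanSpace.single i 1 := ⟨_, rfl⟩
  have hen : ‖e‖ = 1 := by rw [he]; simp
  obtain ⟨f, hf⟩ : ∃ f : EuclideanSpace ℝ (Fin N) ≃ₗᵢ[ℝ] EuclideanSpace ℝ (Fin N), f u = e :=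
    ⟨Submodule.reflection (Submodule.span ℝ {u - e})ᗮ,
      Submodule.reflection_sub (by rw [hun, hen])⟩
  have hcc : ∀ s : Sph N, cc i (sphIso f s) = inner ℝ u (s : EuclideanSpace ℝ (Fin N)) := by
    intro s
    rw [← f.inner_map_map, hf, he]
    rw [EuclideanSpace.inner_single_left]
    simp [cc, sphIso]
  have h1 : gH H Λ η (fun S => ∑ b, a b * cc b (S p)) =
      ‖v‖ * gH H Λ (fun x => sphIso f (η x)) (fun S => cc i (S p)) := by
    rw [nv_rot f (sphIso f) (fun _ => rfl) (hHinv f), ← gH_smul]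
    congr 1
    funext S
    rw [hcc, hu, inner_smul_left, ← hin]
    simp only [conj_trivial]
    rw [← mul_assoc, mul_inv_cancel₀ hv0, one_mul]
  rw [h1, abs_mul, abs_of_pos hvp, mul_comm]
  exact mul_le_mul_of_nonneg_right (hinf _) hvp.le

/-- Finite sums of continuous functions. -/
theorem nv_sum {N L : ℕ} [NeZero L] (hN : N ≠ 0) {H : Conf N L → ℝ} (hH : Continuous H)
    (Λ : Finset (Tor L)) (η : Conf N L) {κ : Type} (s : Finset κ) (F : κ → Conf N L → ℝ)
    (hF : ∀ b, Continuous (F b)) :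
    gH H Λ η (fun S => ∑ b ∈ s, F b S) = ∑ b ∈ s, gH H Λ η (F b) := by
  classical
  induction s using Finset.induction_on with
  | empty =>
    simp only [Finset.sum_empty]
    exact gH_const hN hH Λ η 0
  | insert b s hb ih =>
    simp only [Finset.sum_insert hb]
    have hc : Continuous (fun S => ∑ b ∈ s, F b S) := continuous_finsetSum _ fun b _ => hF b
    obtain ⟨B₁, hB₁⟩ := st_bdd (hF b)
    obtain ⟨B₂, hB₂⟩ := st_bdd hc
    rw [gH_add hN hH Λ η (hF b).measurable hc.measurable (max B₁ B₂)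
      (fun S => (hB₁ S).trans (le_max_left _ _)) (fun S => (hB₂ S).trans (le_max_right _ _)), ih]

theorem nv_mono {N L : ℕ} [NeZero L] (hN : N ≠ 0) {H : Conf N L → ℝ} (hH : Continuous H)
    (Λ : Finset (Tor L)) (η : Conf N L) {F G : Conf N L → ℝ} (hF : Continuous F)
    (hG : Continuous G) (h : ∀ S, F S ≤ G S) : gH H Λ η F ≤ gH H Λ η G := by
  obtain ⟨B₁, hB₁⟩ := st_bdd hF
  obtain ⟨B₂, hB₂⟩ := st_bdd hG
  exact gH_mono hN hH Λ η hF.measurable hG.measurable (max B₁ B₂)
      (fun S => (hB₁ S).trans (le_max_left _ _)) (fun S => (hB₂ S).trans (le_max_right _ _)) h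

/-- The mean of a square root. -/
theorem nv_sqrt {N L : ℕ} [NeZero L] (hN : N ≠ 0) {H : Conf N L → ℝ} (hH : Continuous H)
    (Λ : Finset (Tor L)) (η : Conf N L) {Q : Conf N L → ℝ} (hQ : Continuous Q)
    (hQ0 : ∀ S, 0 ≤ Q S) {s : ℝ} (hs : 0 < s) (h : gH H Λ η Q ≤ s ^ 2) :
    gH H Λ η (fun S => √(Q S)) ≤ s := by
  have h1 : gH H Λ η (fun S => √(Q S)) ≤ gH H Λ η (fun S => 1 / (2 * s) * Q S + s / 2) := by
    refine nv_mono hN hH Λ η (Real.continuous_sqrt.comp hQ)
      ((hQ.const_mul _).add continuous_const) fun S => ?_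
    have h6 : √(Q S) ^ 2 = Q S := Real.sq_sqrt (hQ0 S)
    obtain ⟨z, hz⟩ : ∃ z : ℝ, z = √(Q S) := ⟨_, rfl⟩
    rw [← hz] at h6 ⊢
    have h5 : 0 ≤ (z - s) ^ 2 := sq_nonneg _
    have h7 : 1 / (2 * s) * Q S + s / 2 - z = (z - s) ^ 2 / (2 * s) := by
      rw [← h6]; field_simp; ring
    have h8 : 0 ≤ (z - s) ^ 2 / (2 * s) := by positivity
    linarith
  obtain ⟨B, hB⟩ := st_bdd (hQ.const_mul (1 / (2 * s)))
  rw [gH_add hN hH Λ η (hQ.const_mul _).measurable measurable_const (max B (s / 2))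
    (fun S => (hB S).trans (le_max_left _ _))
    (fun _ => by rw [abs_of_pos (by positivity)]; exact le_max_right _ _),
    gH_smul, gH_const hN hH] at h1
  refine h1.trans ?_
  have h9 : 1 / (2 * s) * gH H Λ η Q ≤ 1 / (2 * s) * s ^ 2 :=
    mul_le_mul_of_nonneg_left h (by positivity)
  have h10 : 1 / (2 * s) * s ^ 2 = s / 2 := by field_simp
  linarith

/-- The improved recursion: all `N - 1` transversal components are used. -/
theorem nv_core {N L : ℕ} [NeZero L] (hN : 3 ≤ N) {V : ℝ} (hV : 0 < V) {ι : Type} [Fintype ι]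
    (Gm : Gr (Tor L) ι) (β : ℝ) (R m : ℝ) (hRpos : 0 < R) (hm : 0 ≤ m) (p : Tor L)
    (hmain : ∀ (W : WFun Gm β (ball p R)), ∃ U : Alg (Tor L),
      W.E (U ^ 2) ≤ V ∧ W.E (X (p, 0)) = W.E (U * X (p, 1)) ∧
      ∀ σ σ' : Tor L × Fin 3 → ℝ,
        (∀ x, R / 8 ≤ tnorm (x - p) → ∀ g, σ (x, g) = σ' (x, g)) →
          eval σ U = eval σ' U)
    (hinf : ∀ (η : Conf N L) (i : Fin N),
      |gH (fun S => β * enG Gm S) (ball p (R / 10)) η (fun S => cc i (S p))| ≤ m)
    (η : Conf N L) (i : Fin N) :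
    |gH (fun S => β * enG Gm S) (ball p R) η (fun S => cc i (S p))| ≤
      m * √(V / (V + (N - 1))) := by
  classical
  have hN0 : N ≠ 0 := by omega
  have hNr : (3 : ℝ) ≤ N := by exact_mod_cast hN
  have hHc : Continuous (fun S : Conf N L => β * enG Gm S) :=
    (continuous_enG Gm).const_mul β
  obtain ⟨H, hH⟩ : ∃ H : Conf N L → ℝ, H = fun S => β * enG Gm S := ⟨_, rfl⟩
  rw [← hH] at hHc hinf ⊢
  have hHinv : ∀ (f : EuclideanSpace ℝ (Fin N) ≃ₗᵢ[ℝ] EuclideanSpace ℝ (Fin N))
      (S : Conf N L), H (fun x => sphIso f (S x)) = H S := by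
    intro f S
    rw [hH]
    simp only
    rw [enG_inv]
  -- one component
  have hone : ∀ b : Fin N, ∃ G : Conf N L → ℝ, Continuous G ∧
      (∀ S S' : Conf N L, (∀ x, x ∉ ball p (R / 10) → S x = S' x) → G S = G S') ∧
      (b ≠ i → gH H (ball p R) η (fun S => G S ^ 2) ≤ V ∧
        gH H (ball p R) η (fun S => G S * cc b (S p)) =
          gH H (ball p R) η (fun S => cc i (S p))) ∧ (b = i → ∀ S, G S = V) := by
    intro b
    by_cases hb : b = i
    · exact ⟨fun _ => V, continuous_const, fun _ _ _ => rfl, fun h => absurd hb h,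
        fun _ _ => rfl⟩
    obtain ⟨k, hk⟩ : ∃ k : Fin N, k ∉ ({i, b} : Finset (Fin N)) := by
      by_contra hcon
      push Not at hcon
      have h1 : (Finset.univ : Finset (Fin N)) ⊆ {i, b} := fun k _ => hcon k
      have h2 := Finset.card_le_card h1
      have h3 : ({i, b} : Finset (Fin N)).card ≤ 2 := Finset.card_le_two
      rw [Finset.card_univ, Fintype.card_fin] at h2
      omega
    simp only [Finset.mem_insert, Finset.mem_singleton, not_or] at hk
    obtain ⟨c, hc⟩ : ∃ c : Fin 3 → Fin N, c = ![i, b, k] := ⟨_, rfl⟩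
    have hc0 : c 0 = i := by rw [hc]; rfl
    have hc1 : c 1 = b := by rw [hc]; rfl
    have hc2 : c 2 = k := by rw [hc]; rfl
    have hci : Function.Injective c := by
      intro x y hxy
      fin_cases x <;> fin_cases y <;> simp [hc0, hc1, hc2] at hxy ⊢
      · exact hb hxy.symm
      · exact hk.1 hxy.symm
      · exact hb hxy
      · exact hk.2 hxy.symm
      · exact hk.1 hxy
      · exact hk.2 hxy
    obtain ⟨W, hW⟩ := gH_wfun hN0 Gm β (ball p R) η c hci
    rw [← hH] at hW
    obtain ⟨U, hU2, hUX, hUloc⟩ := hmain W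
    refine ⟨fun S => eval (pt c S) U, st_eval_cont c U, ?_, fun _ => ⟨?_, ?_⟩,
      fun h => absurd h hb⟩
    · intro S S' hSS
      refine hUloc _ _ fun x hx g => ?_
      have hx' : x ∉ ball p (R / 10) := by
        unfold ball
        rw [Finset.mem_filter]
        intro h
        have := h.2
        linarith
      simp only [pt, hSS x hx']
    · have h3 := hW (U ^ 2)
      rw [h3] at hU2
      refine le_of_eq_of_le ?_ hU2
      congr 1
      funext S
      rw [map_pow]
    · have h1 := hW (X (p, 0))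
      have h2 := hW (U * X (p, 1))
      rw [hUX, h2] at h1
      have h3 : (fun S : Conf N L => eval (pt c S) (X (p, (0 : Fin 3)) : Alg (Tor L))) =
          fun S => cc i (S p) := by
        funext S
        rw [eval_X]
        simp only [pt, hc0]
      have h4 : (fun S : Conf N L => eval (pt c S) (U * X (p, (1 : Fin 3)) : Alg (Tor L))) =
          fun S => eval (pt c S) U * cc b (S p) := by
        funext S
        rw [map_mul, eval_X]
        simp only [pt, hc1]
      rw [h3, h4] at h1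
      exact h1
  choose G hGc hGloc hG1 hG2 using hone
  have hccc : ∀ b : Fin N, Continuous (fun S : Conf N L => cc b (S p)) := fun b =>
    (st_cc_cont _).comp (continuous_apply _)
  obtain ⟨M, hM⟩ : ∃ M : ℝ, M = gH H (ball p R) η (fun S => cc i (S p)) := ⟨_, rfl⟩
  rw [← hM]
  have hsub : ball p (R / 10) ⊆ ball p R := by
    intro z hz
    unfold ball at hz ⊢
    rw [Finset.mem_filter] at hz ⊢
    exact ⟨hz.1, hz.2.trans (by linarith)⟩
  have hQc : Continuous (fun S : Conf N L => ∑ b, G b S ^ 2) :=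
    continuous_finsetSum _ fun b _ => (hGc b).pow 2
  -- conditioning
  have h1 := nv_tower hN0 hHc hsub η (Φ := fun S => ∑ b, G b S * cc b (S p))
    (D := fun S => m * √(∑ b, G b S ^ 2))
    (continuous_finsetSum _ fun b _ => (hGc b).mul (hccc b))
    ((Real.continuous_sqrt.comp hQc).const_mul m)
    (by
      intro S S' hSS
      have hs : ∀ b, G b S = G b S' := fun b => hGloc b S S' hSS
      simp only [hs])
    (by
      intro η'
      have h2 := nv_vec hN0 hHc hHinv (ball p (R / 10)) p m i (fun η => hinf η i) η'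
        (fun b => G b η')
      refine le_trans (le_of_eq ?_) h2
      congr 1
      unfold gH
      congr 1
      refine integral_congr_ae (Filter.Eventually.of_forall fun S => ?_)
      have hs : ∀ b, G b (splice (ball p (R / 10)) S η') = G b η' := fun b =>
        hGloc b (splice (ball p (R / 10)) S η') η' fun x hx => by simp [splice, hx]
      simp only [hs])
  -- the left side
  have hcard : ((Finset.univ.erase i : Finset (Fin N)).card : ℝ) = N - 1 := by
    rw [Finset.card_erase_of_mem (Finset.mem_univ i), Finset.card_univ, Fintype.card_fin,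
      Nat.cast_sub (by omega)]
    norm_num
  have h2 : gH H (ball p R) η (fun S => ∑ b, G b S * cc b (S p)) = (V + (N - 1)) * M := by
    rw [nv_sum hN0 hHc (ball p R) η Finset.univ (fun b S => G b S * cc b (S p))
      (fun b => (hGc b).mul (hccc b)), ← Finset.add_sum_erase _ _ (Finset.mem_univ i)]
    have h3 : gH H (ball p R) η (fun S => G i S * cc i (S p)) = V * M := by
      have : (fun S : Conf N L => G i S * cc i (S p)) = fun S => V * cc i (S p) := by
        funext S
        rw [hG2 i rfl]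
      rw [this, gH_smul, hM]
    rw [h3, Finset.sum_congr rfl fun b hb => ((hG1 b (Finset.ne_of_mem_erase hb)).2.trans
      hM.symm), Finset.sum_const, nsmul_eq_mul, hcard]
    ring
  -- the right side
  have h3 : gH H (ball p R) η (fun S => ∑ b, G b S ^ 2) ≤ V * (V + (N - 1)) := by
    rw [nv_sum hN0 hHc (ball p R) η Finset.univ (fun b S => G b S ^ 2)
      (fun b => (hGc b).pow 2), ← Finset.add_sum_erase _ _ (Finset.mem_univ i)]
    have h4 : gH H (ball p R) η (fun S => G i S ^ 2) = V ^ 2 := by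
      have : (fun S : Conf N L => G i S ^ 2) = fun _ => V ^ 2 := by
        funext S
        rw [hG2 i rfl]
      rw [this, gH_const hN0 hHc]
    have h5 : ∑ b ∈ Finset.univ.erase i, gH H (ball p R) η (fun S => G b S ^ 2) ≤
        ∑ _b ∈ Finset.univ.erase i, V :=
      Finset.sum_le_sum fun b hb => (hG1 b (Finset.ne_of_mem_erase hb)).1
    rw [Finset.sum_const, nsmul_eq_mul, hcard] at h5
    rw [h4]
    nlinarith
  have hVN : 0 < V + (N - 1) := by linarith
  have hs : 0 < √(V * (V + (N - 1))) := Real.sqrt_pos.2 (by positivity)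
  have h4 : gH H (ball p R) η (fun S => m * √(∑ b, G b S ^ 2)) ≤
      m * √(V * (V + (N - 1))) := by
    rw [gH_smul]
    refine mul_le_mul_of_nonneg_left ?_ hm
    refine nv_sqrt hN0 hHc (ball p R) η hQc (fun S => Finset.sum_nonneg fun b _ =>
      sq_nonneg _) hs ?_
    rw [Real.sq_sqrt (by positivity)]
    exact h3
  have h5 := h1.trans h4
  rw [h2, abs_mul, abs_of_pos hVN] at h5
  have h6 : √(V * (V + (N - 1))) = (V + (N - 1)) * √(V / (V + (N - 1))) := by
    have e1 : V * (V + ((N : ℝ) - 1)) = (V + (N - 1)) ^ 2 * (V / (V + (N - 1))) := by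
      field_simp
    rw [e1, Real.sqrt_mul (by positivity), Real.sqrt_sq hVN.le]
  rw [h6] at h5
  have h7 : (V + ((N : ℝ) - 1)) * |M| ≤ (V + (N - 1)) * (m * √(V / (V + (N - 1)))) := by
    linarith
  exact le_of_mul_le_mul_left h7 hVN

end Pool.Agent.U153
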