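import Pool.Agent.U153.Nv1

/-!
# N-vector models in two dimensions: the variance of the averaged point split current
-/

set_option autoImplicit false
set_option linter.unusedSectionVars false
set_option linter.unusedVariables false

noncomputable section

namespace Pool.Agent.U153

open MvPolynomial Pool.Agent.H5R2.ON Pool.Agent.H717R2.ON3 Pool.Agent.H983R2.ONJ
open Pool.Agent.Y13.QM

/-- The variance for given numbers of scales. -/
theorem nv_var : ∃ C₁ C₂ K₂ : ℝ, 0 < C₁ ∧ 0 < C₂ ∧ 0 < K₂ ∧ ∀ K : ℝ, 0 ≤ K →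
    ∀ (n m n₀ : ℕ), 0 < n → 0 < n₀ → K₂ * K ≤ n₀ → ∀ R : ℝ,
      (100 * 16 ^ ((n₀ + 1) * m + n)) ^ 2 ≤ R → ∀ (L : ℕ) [NeZero L], 2 * R < L →
      ∀ {ι : Type} [Fintype ι]
      (G : Gr (Tor L) ι) (β ρ : ℝ), Nice G β ρ K → 1 ≤ ρ → ρ ≤ √R → ∀ (p : Tor L)
      (W : WFun G β (ball p R)), ∃ U : Alg (Tor L),
      W.E (U ^ 2) ≤ C₁ * (1 + K ^ 2) / n + C₂ * (1 + K ^ 2) * (1 / 2) ^ m ∧
      W.E (X (p, 0)) = W.E (U * X (p, 1)) ∧
      ∀ σ σ' : Tor L × Fin 3 → ℝ,
        (∀ x, R / 8 ≤ tnorm (x - p) → ∀ g, σ (x, g) = σ' (x, g)) →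
          eval σ U = eval σ' U := by
  classical
  obtain ⟨C₁, hC₁, hone⟩ := single_scale
  obtain ⟨C₂, hC₂, hcross⟩ := cross_scale
  obtain ⟨K₂, hK₂, hchain⟩ := chain_exists
  refine ⟨C₁, C₂, K₂, hC₁, hC₂, hK₂, ?_⟩
  intro K hK n m n₀ hn0 hn₀ hKn₀ R hbig L _ hL ι _ G β ρ hG hρ1 hρR p W
  have hR0 : 0 < R := lt_of_lt_of_le (by positivity) hbig
  have hs0 : 0 < √R := Real.sqrt_pos.2 hR0
  have hss : √R * √R = R := Real.mul_self_sqrt hR0.le
  have hs16 : 100 * 16 ^ ((n₀ + 1) * m + n) ≤ √R := Real.le_sqrt_of_sq_le hbig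
  have h16 : ∀ j : ℕ, (1 : ℝ) ≤ 16 ^ j := fun j => one_le_pow₀ (by norm_num)
  have hs100 : 100 ≤ √R := by
    have := h16 ((n₀ + 1) * m + n)
    linarith
  have hρ24 : ρ ≤ R / 24 := by
    rw [le_div_iff₀ (by norm_num)]
    nlinarith
  have hρ0 : 0 ≤ ρ := by linarith
  set l : ℕ → ℝ := fun j => 16 ^ j * ρ with hl
  have hρl : ∀ j, ρ ≤ l j := fun j => by
    have := mul_le_mul_of_nonneg_right (h16 j) hρ0
    rwa [one_mul] at this
  have hl1 : ∀ j, 1 ≤ l j := fun j => hρ1.trans (hρl j)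
  have hln : ∀ j < n, l j ≤ 16 ^ n * √R := by
    intro j hj
    have h1 : (16 : ℝ) ^ j ≤ 16 ^ n := pow_le_pow_right₀ (by norm_num) hj.le
    exact mul_le_mul h1 hρR hρ0 (by positivity)
  have hlC : ∀ j < n, 16 ^ ((n₀ + 1) * m) * (7 * l j) ≤ 3 * R / 10 := by
    intro j hj
    have h1 := hln j hj
    have h2 : 100 * 16 ^ ((n₀ + 1) * m + n) * √R ≤ √R * √R :=
      mul_le_mul_of_nonneg_right hs16 hs0.le
    rw [hss, pow_add] at h2
    have h3 : (16 : ℝ) ^ ((n₀ + 1) * m) * (7 * l j) ≤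
        16 ^ ((n₀ + 1) * m) * (7 * (16 ^ n * √R)) := by
      refine mul_le_mul_of_nonneg_left ?_ (by positivity)
      linarith
    have h4 : (16 : ℝ) ^ ((n₀ + 1) * m) * (7 * (16 ^ n * √R)) =
        7 / 100 * (100 * (16 ^ ((n₀ + 1) * m) * 16 ^ n) * √R) := by ring
    rw [h4] at h3
    linarith
  have hlR : ∀ j < n, 100 * l j ≤ R := by
    intro j hj
    have h1 := hln j hj
    have h2 : 100 * 16 ^ n * √R ≤ √R * √R := by
      refine mul_le_mul_of_nonneg_right (le_trans ?_ hs16) hs0.le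
      refine mul_le_mul_of_nonneg_left ?_ (by norm_num)
      exact pow_le_pow_right₀ (by norm_num) (Nat.le_add_left _ _)
    linarith
  have h1 : ∀ i < n, W.E (UU G β (kl R p (l i)) 2 ^ 2) ≤ C₁ * (1 + K ^ 2) := by
    intro i hi
    exact hone K hK R (l i) ρ β (hl1 i) hρ0 (hρl i) (hlR i hi) L hL G hG p W
  have h2 : ∀ i < n, ∀ j < n, i < j →
      |W.E (UU G β (kl R p (l j)) 2 * UU G β (kl R p (l i)) 2)| ≤
        C₂ * (1 + K ^ 2) * (1 / 2) ^ m := by
    intro i hi j hj hij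
    refine hcross K hK R (l i) (l j) ρ β m (hl1 i) hρ0 (hρl i) ?_ (hlR j hj) L hL G hG p W ?_
    · have h3 : (16 : ℝ) ^ (i + 1) ≤ 16 ^ j := pow_le_pow_right₀ (by norm_num) hij
      rw [pow_succ] at h3
      have h4 := mul_le_mul_of_nonneg_right h3 hρ0
      show 16 * (16 ^ i * ρ) ≤ 16 ^ j * ρ
      linarith
    · intro a ha
      refine hchain L G β ρ K hG hρ0 hK n₀ hn₀ hKn₀ (ball p R) a (3 * R / 10) ?_ m (7 * l i)
        (by linarith [hl1 i]) (by linarith [hl1 i, hρl i]) (hlC i hi)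
      intro x hx
      rw [mem_ball]
      have := tri x a p
      linarith
  refine ⟨-((1 / (n : ℝ)) • ∑ j ∈ Finset.range n, UU G β (kl R p (l j)) 2), ?_, ?_, ?_⟩
  · exact Aux467.avg_sq W hn0 _ (by positivity) h1 h2
  · rw [neg_mul, smul_mul_assoc, Finset.sum_mul, map_neg, map_smul, map_sum]
    have hn' : (0 : ℝ) < n := by exact_mod_cast hn0
    rw [Finset.sum_congr rfl fun j hj =>
      Aux467.ibp_scale W hG (hl1 j) (hρl j) (hlR j (Finset.mem_range.1 hj))]
    rw [Finset.sum_const, Finset.card_range, nsmul_eq_mul, smul_eq_mul]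
    field_simp
  · intro σ σ' hσ
    have h3 : ∀ j ∈ Finset.range n, eval σ (UU G β (kl R p (l j)) 2) =
        eval σ' (UU G β (kl R p (l j)) 2) := by
      intro j hj
      have hj' := Finset.mem_range.1 hj
      apply eval_UU_congr G β (A := {x : Tor L | R / 8 ≤ tnorm (x - p)})
        (B := {x : Tor L | R / 6 ≤ tnorm (x - p)})
      · intro x y h
        obtain ⟨h4, h5, _⟩ := kl_supp (hl1 j) (hlR j hj') h
        exact ⟨h4, h5⟩
      · intro e he
        have h4 := hG.range e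
        have h5 := tri (G.s e) (G.t e) p
        have h6 := tri (G.t e) (G.s e) p
        rw [tnorm_sub_comm (G.s e) (G.t e)] at h5
        simp only [Set.mem_ofPred_eq] at he ⊢
        rcases he with h | h
        · exact ⟨by linarith, by linarith⟩
        · exact ⟨by linarith, by linarith⟩
      · intro x hx j
        exact hσ x hx j
    simp only [map_neg, smul_eval, map_sum]
    rw [Finset.sum_congr rfl h3]

end Pool.Agent.U153
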