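import Pool.Agent.U153.Nv2

/-!
# N-vector models in two dimensions: the recursion of the influence of the boundary
-/

set_option autoImplicit false
set_option linter.unusedSectionVars false
set_option linter.unusedVariables false

noncomputable section

namespace Pool.Agent.U153

open MvPolynomial Pool.Agent.H5R2.ON Pool.Agent.H717R2.ON3 Pool.Agent.H983R2.ONJ
open Pool.Agent.H983R2.ONJ.Aux993
open Pool.Agent.Y13.QM

/-- an elementary inequality for logarithms -/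
theorem nv_log (D : ℝ) (hD : 1 ≤ D) (K T : ℝ) (hK : 0 ≤ K)
    (hT : 200 * D ^ 2 * ((1 + K) * Real.log (2 + K)) ≤ T) :
    D * (1 + K) * (2 * Real.log T + 1) ≤ T := by
  have hl2 : 0.69 < Real.log 2 := by have := Real.log_two_gt_d9; linarith
  have hl : Real.log 2 ≤ Real.log (2 + K) := Real.log_le_log (by norm_num) (by linarith)
  have hl0 : 0 < Real.log (2 + K) := by linarith
  have hu : 0 < 1 + K := by linarith
  obtain ⟨s, hs⟩ : ∃ s : ℝ, s = T / (1 + K) := ⟨_, rfl⟩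
  have hTs : T = s * (1 + K) := by rw [hs]; field_simp
  have hs1 : 200 * D ^ 2 * Real.log (2 + K) ≤ s := by
    rw [hs, le_div_iff₀ hu]
    linarith
  have hD2 : 1 ≤ D ^ 2 := one_le_pow₀ hD
  have hs2 : 100 * D ^ 2 ≤ s := by
    refine le_trans ?_ hs1
    nlinarith
  have hs0 : 0 < s := by nlinarith
  have hsq : 10 * D ≤ √s := by
    refine Real.le_sqrt_of_sq_le ?_
    nlinarith
  have hss : √s * √s = s := Real.mul_self_sqrt hs0.le
  have hsq1 : 1 ≤ √s := by linarith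
  have hlogs : Real.log s ≤ 2 * √s := by
    have h1 : Real.log s = 2 * Real.log (√s) := by
      rw [Real.log_sqrt hs0.le]; ring
    have h2 := Real.log_le_sub_one_of_pos (show 0 < √s by linarith)
    linarith
  have hlogT : Real.log T = Real.log s + Real.log (1 + K) := by
    rw [hTs, Real.log_mul hs0.ne' hu.ne']
  have hlogu : Real.log (1 + K) ≤ Real.log (2 + K) := Real.log_le_log hu (by linarith)
  have h3 : D * (4 * Real.log (2 + K)) ≤ s := by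
    refine le_trans ?_ hs1
    have : D ≤ D ^ 2 := by nlinarith
    nlinarith
  have h4 : D * (2 * Real.log s + 1) ≤ s / 2 := by
    have h5 : D * (2 * Real.log s + 1) ≤ D * (5 * √s) := by
      refine mul_le_mul_of_nonneg_left ?_ (by linarith)
      linarith
    nlinarith
  have h5 : D * (2 * Real.log T + 1) ≤ s := by
    rw [hlogT]
    nlinarith
  calc D * (1 + K) * (2 * Real.log T + 1) = D * (2 * Real.log T + 1) * (1 + K) := by ring
    _ ≤ s * (1 + K) := mul_le_mul_of_nonneg_right h5 hu.le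
    _ = T := hTs.symm

/-- `16 ^ n` in terms of the exponential -/
theorem nv_16 (n : ℕ) (R : ℝ) (hR : 0 < R) (h : 10 + 6 * (n : ℝ) ≤ Real.log R) :
    (100 * 16 ^ n : ℝ) ^ 2 ≤ R := by
  have h2 : Real.log 2 < 0.6932 := by have := Real.log_two_lt_d9; linarith
  have h16 : Real.log 16 ≤ 3 := by
    have : (16 : ℝ) = 2 ^ 4 := by norm_num
    rw [this, Real.log_pow]
    push_cast
    linarith
  have h100 : Real.log 100 ≤ 5 := by
    have h3 : Real.log 100 ≤ Real.log 128 := Real.log_le_log (by norm_num) (by norm_num)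
    have h4 : (128 : ℝ) = 2 ^ 7 := by norm_num
    rw [h4, Real.log_pow] at h3
    push_cast at h3
    linarith
  rw [← Real.log_le_log_iff (by positivity) hR, Real.log_pow, Real.log_mul (by norm_num)
    (by positivity), Real.log_pow]
  push_cast
  have hn : (0 : ℝ) ≤ n := n.cast_nonneg
  nlinarith

/-- The variance in terms of the radius. -/
theorem nv_varT : ∃ C₃ C₄ : ℝ, 0 < C₃ ∧ 1 ≤ C₄ ∧ ∀ K : ℝ, 0 ≤ K → ∀ R : ℝ, 0 < R →
      C₄ * ((1 + K) * Real.log (2 + K)) ≤ Real.log R → ∀ (L : ℕ) [NeZero L], 2 * R < L →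
      ∀ {ι : Type} [Fintype ι]
      (G : Gr (Tor L) ι) (β ρ : ℝ), Nice G β ρ K → 1 ≤ ρ → ρ ≤ √R → ∀ (p : Tor L)
      (W : WFun G β (ball p R)), ∃ U : Alg (Tor L),
      W.E (U ^ 2) ≤ C₃ * (1 + K ^ 2) / Real.log R ∧
      W.E (X (p, 0)) = W.E (U * X (p, 1)) ∧
      ∀ σ σ' : Tor L × Fin 3 → ℝ,
        (∀ x, R / 8 ≤ tnorm (x - p) → ∀ g, σ (x, g) = σ' (x, g)) →
          eval σ U = eval σ' U := by
  obtain ⟨C₁, C₂, K₂, hC₁, hC₂, hK₂, hvar⟩ := nv_var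
  obtain ⟨D, hD⟩ : ∃ D : ℝ, D = 18 * (K₂ + 3) := ⟨_, rfl⟩
  have hD1 : 1 ≤ D := by rw [hD]; linarith
  refine ⟨24 * C₁ + C₂, 200 * D ^ 2, by positivity, by nlinarith, ?_⟩
  intro K hK R hR hRT L _ hL ι _ G β ρ hG hρ1 hρR p W
  obtain ⟨T, hT⟩ : ∃ T : ℝ, T = Real.log R := ⟨_, rfl⟩
  rw [← hT] at hRT ⊢
  have hlogT := nv_log D hD1 K T hK hRT
  have hl2 : 0.69 < Real.log 2 := by have := Real.log_two_gt_d9; linarith
  have hl : Real.log 2 ≤ Real.log (2 + K) := Real.log_le_log (by norm_num) (by linarith)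
  have hT60 : 100 ≤ T := by
    refine le_trans ?_ hRT
    have h1 : 0.69 ≤ (1 + K) * Real.log (2 + K) := by nlinarith
    have h2 : 200 ≤ 200 * D ^ 2 := by nlinarith
    have h3 : 54 ≤ D := by rw [hD]; linarith
    nlinarith
  have hT0 : 0 < T := by linarith
  have hlT : 0 ≤ Real.log T := Real.log_nonneg (by linarith)
  -- the numbers of scales
  obtain ⟨n, hn⟩ : ∃ n : ℕ, n = ⌊T / 12⌋₊ := ⟨_, rfl⟩
  obtain ⟨m, hm⟩ : ∃ m : ℕ, m = ⌈2 * Real.log T⌉₊ := ⟨_, rfl⟩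
  obtain ⟨n₀, hn₀⟩ : ∃ n₀ : ℕ, n₀ = ⌈K₂ * K⌉₊ + 1 := ⟨_, rfl⟩
  have hn1 : (n : ℝ) ≤ T / 12 := by rw [hn]; exact Nat.floor_le (by positivity)
  have hn2 : T / 24 ≤ n := by
    have := Nat.lt_floor_add_one (T / 12)
    rw [hn]
    linarith
  have hnpos : 0 < n := by
    have : (0 : ℝ) < n := by linarith
    exact_mod_cast this
  have hm1 : (m : ℝ) ≤ 2 * Real.log T + 1 := by
    rw [hm]; exact (Nat.ceil_lt_add_one (by positivity)).le
  have hm2 : 2 * Real.log T ≤ m := by rw [hm]; exact Nat.le_ceil _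
  have hn₀1 : (n₀ : ℝ) ≤ K₂ * K + 2 := by
    rw [hn₀]; push_cast
    have := (Nat.ceil_lt_add_one (show 0 ≤ K₂ * K by positivity)).le
    linarith
  have hn₀2 : K₂ * K ≤ n₀ := by
    rw [hn₀]; push_cast
    have := Nat.le_ceil (K₂ * K)
    linarith
  have hprod : ((n₀ : ℝ) + 1) * m ≤ T / 18 := by
    have h1 : (n₀ : ℝ) + 1 ≤ (K₂ + 3) * (1 + K) := by nlinarith
    have h2 : ((n₀ : ℝ) + 1) * m ≤ (K₂ + 3) * (1 + K) * (2 * Real.log T + 1) :=
      mul_le_mul h1 hm1 (Nat.cast_nonneg _) (by positivity)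
    rw [hD] at hlogT
    linarith
  have hbig : (100 * 16 ^ ((n₀ + 1) * m + n) : ℝ) ^ 2 ≤ R := by
    refine nv_16 _ R hR ?_
    rw [← hT]
    push_cast
    linarith
  obtain ⟨U, hU1, hU2, hU3⟩ := hvar K hK n m n₀ hnpos (by omega) hn₀2 R hbig L hL G β ρ hG hρ1
    hρR p W
  refine ⟨U, hU1.trans ?_, hU2, hU3⟩
  have hK2 : 0 < 1 + K ^ 2 := by positivity
  have h1 : C₁ * (1 + K ^ 2) / n ≤ C₁ * (1 + K ^ 2) * (24 / T) := by
    rw [div_eq_mul_inv]
    refine mul_le_mul_of_nonneg_left ?_ (by positivity)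
    rw [← one_div, div_le_div_iff₀ (by exact_mod_cast hnpos) hT0]
    linarith
  have h2 : ((1 : ℝ) / 2) ^ m ≤ 1 / T := by
    rw [← Real.log_le_log_iff (by positivity) (by positivity), Real.log_pow, Real.log_div
      (by norm_num) (by norm_num), Real.log_div (by norm_num) hT0.ne', Real.log_one]
    have h3 : 2 * Real.log T * 0.69 ≤ m * Real.log 2 := by
      refine mul_le_mul hm2 hl2.le (by norm_num) (Nat.cast_nonneg _)
    nlinarith
  have h3 : C₂ * (1 + K ^ 2) * (1 / 2) ^ m ≤ C₂ * (1 + K ^ 2) * (1 / T) :=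
    mul_le_mul_of_nonneg_left h2 (by positivity)
  refine (add_le_add h1 h3).trans (le_of_eq ?_)
  field_simp

/-- The variance for a given number of components. -/
theorem nv_varN (δ : ℝ) (hδ : 0 < δ) : ∃ C₄ : ℝ, 1 ≤ C₄ ∧ ∀ K : ℝ, 0 ≤ K → ∀ N : ℕ, 3 ≤ N →
      ∀ R : ℝ, 0 < R →
      C₄ * (1 + K ^ 2 / N + (1 + K) * Real.log (2 + K ^ 2 / N)) ≤ Real.log R →
      ∀ (L : ℕ) [NeZero L], 2 * R < L →
      ∀ {ι : Type} [Fintype ι]
      (G : Gr (Tor L) ι) (β ρ : ℝ), Nice G β ρ K → 1 ≤ ρ → ρ ≤ √R → ∀ (p : Tor L)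
      (W : WFun G β (ball p R)), ∃ U : Alg (Tor L),
      W.E (U ^ 2) ≤ δ * (N - 1) ∧
      W.E (X (p, 0)) = W.E (U * X (p, 1)) ∧
      ∀ σ σ' : Tor L × Fin 3 → ℝ,
        (∀ x, R / 8 ≤ tnorm (x - p) → ∀ g, σ (x, g) = σ' (x, g)) →
          eval σ U = eval σ' U := by
  obtain ⟨C₁, C₂, K₂, hC₁, hC₂, hK₂, hvar⟩ := nv_var
  obtain ⟨c₁, hc₁⟩ : ∃ c₁ : ℝ, c₁ = 3 * C₁ / δ := ⟨_, rfl⟩
  have hc₁0 : 0 < c₁ := by rw [hc₁]; positivity
  obtain ⟨c₂, hc₂⟩ : ∃ c₂ : ℝ, c₂ = Real.log (1 + 3 * C₂ / δ) := ⟨_, rfl⟩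
  have hc₂0 : 0 ≤ c₂ := by
    rw [hc₂]; exact Real.log_nonneg (by have : 0 < 3 * C₂ / δ := by positivity
                                        linarith)
  refine ⟨100 + 6 * c₁ + 12 * (K₂ + 3) * (2 * c₂ + 4), by
    have : 0 < 12 * (K₂ + 3) * (2 * c₂ + 4) := by positivity
    linarith, ?_⟩
  intro K hK N hN R hR hRT L _ hL ι _ G β ρ hG hρ1 hρR p W
  have hNr : (3 : ℝ) ≤ N := by exact_mod_cast hN
  have hNpos : (0 : ℝ) < N := by linarith
  obtain ⟨q, hq⟩ : ∃ q : ℝ, q = K ^ 2 / N := ⟨_, rfl⟩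
  have hq0 : 0 ≤ q := by rw [hq]; positivity
  rw [← hq] at hRT
  have hl2 : 0.69 < Real.log 2 := by have := Real.log_two_gt_d9; linarith
  have hl : Real.log 2 ≤ Real.log (2 + q) := Real.log_le_log (by norm_num) (by linarith)
  have hl0 : 0 < Real.log (2 + q) := by linarith
  -- the numbers of scales
  obtain ⟨n, hn⟩ : ∃ n : ℕ, n = ⌈c₁ * (1 + q)⌉₊ := ⟨_, rfl⟩
  obtain ⟨m, hm⟩ : ∃ m : ℕ, m = ⌈2 * (c₂ + Real.log (2 + q))⌉₊ := ⟨_, rfl⟩
  obtain ⟨n₀, hn₀⟩ : ∃ n₀ : ℕ, n₀ = ⌈K₂ * K⌉₊ + 1 := ⟨_, rfl⟩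
  have hn1 : (n : ℝ) ≤ c₁ * (1 + q) + 1 := by
    rw [hn]; exact (Nat.ceil_lt_add_one (by positivity)).le
  have hn2 : c₁ * (1 + q) ≤ n := by rw [hn]; exact Nat.le_ceil _
  have hnpos : 0 < n := by
    have h1 : 0 < c₁ * (1 + q) := by positivity
    have : (0 : ℝ) < n := by linarith
    exact_mod_cast this
  have hm1 : (m : ℝ) ≤ 2 * (c₂ + Real.log (2 + q)) + 1 := by
    rw [hm]; exact (Nat.ceil_lt_add_one (by positivity)).le
  have hm2 : 2 * (c₂ + Real.log (2 + q)) ≤ m := by rw [hm]; exact Nat.le_ceil _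
  have hn₀1 : (n₀ : ℝ) ≤ K₂ * K + 2 := by
    rw [hn₀]; push_cast
    have := (Nat.ceil_lt_add_one (show 0 ≤ K₂ * K by positivity)).le
    linarith
  have hn₀2 : K₂ * K ≤ n₀ := by
    rw [hn₀]; push_cast
    have := Nat.le_ceil (K₂ * K)
    linarith
  have hprod : ((n₀ : ℝ) + 1) * m ≤ (K₂ + 3) * (2 * (2 * c₂ + 4)) *
      ((1 + K) * Real.log (2 + q)) := by
    have h1 : (n₀ : ℝ) + 1 ≤ (K₂ + 3) * (1 + K) := by nlinarith
    have h3 : (m : ℝ) ≤ 2 * (2 * c₂ + 4) * Real.log (2 + q) := by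
      refine hm1.trans ?_
      nlinarith
    have h2 : ((n₀ : ℝ) + 1) * m ≤ (K₂ + 3) * (1 + K) * (2 * (2 * c₂ + 4) * Real.log (2 + q)) :=
      mul_le_mul h1 h3 (Nat.cast_nonneg _) (by positivity)
    linarith
  have hbig : (100 * 16 ^ ((n₀ + 1) * m + n) : ℝ) ^ 2 ≤ R := by
    refine nv_16 _ R hR ?_
    refine le_trans ?_ hRT
    push_cast
    obtain ⟨Y, hY⟩ : ∃ Y : ℝ, Y = (1 + K) * Real.log (2 + q) := ⟨_, rfl⟩
    have hY0 : 0 < Y := by rw [hY]; positivity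
    rw [← hY] at hprod ⊢
    have h5 : 0 ≤ 12 * (K₂ + 3) * (2 * c₂ + 4) * (1 + q) := by positivity
    have h6 : 0 ≤ (100 + 6 * c₁) * Y := by positivity
    nlinarith
  obtain ⟨U, hU1, hU2, hU3⟩ := hvar K hK n m n₀ hnpos (by omega) hn₀2 R hbig L hL G β ρ hG hρ1
    hρR p W
  refine ⟨U, hU1.trans ?_, hU2, hU3⟩
  have hK2 : 0 < 1 + K ^ 2 := by positivity
  have hKN : 1 + K ^ 2 ≤ (1 + q) * N := by
    rw [hq, add_mul, div_mul_cancel₀ _ hNpos.ne']
    linarith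
  have h1 : C₁ * (1 + K ^ 2) / n ≤ δ * N / 3 := by
    rw [div_le_iff₀ (by exact_mod_cast hnpos)]
    have h2 : C₁ = c₁ * δ / 3 := by rw [hc₁]; field_simp
    calc C₁ * (1 + K ^ 2) ≤ C₁ * ((1 + q) * N) := mul_le_mul_of_nonneg_left hKN hC₁.le
      _ = δ * N / 3 * (c₁ * (1 + q)) := by rw [h2]; ring
      _ ≤ δ * N / 3 * n := mul_le_mul_of_nonneg_left hn2 (by positivity)
  have h2 : ((1 : ℝ) / 2) ^ m ≤ 1 / ((1 + 3 * C₂ / δ) * (2 + q)) := by
    have h3p : 0 < 1 + 3 * C₂ / δ := by positivity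
    rw [← Real.log_le_log_iff (by positivity) (by positivity), Real.log_pow, Real.log_div
      (by norm_num) (by norm_num), Real.log_div (by norm_num) (by positivity), Real.log_one,
      Real.log_mul h3p.ne' (by positivity), ← hc₂]
    have h3 : 2 * (c₂ + Real.log (2 + q)) * 0.69 ≤ m * Real.log 2 := by
      refine mul_le_mul hm2 hl2.le (by norm_num) (Nat.cast_nonneg _)
    nlinarith
  have h3 : C₂ * (1 + K ^ 2) * (1 / 2) ^ m ≤ δ * N / 3 := by
    have h4 : C₂ * (1 + K ^ 2) * (1 / 2) ^ m ≤ C₂ * ((1 + q) * N) *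
        (1 / ((1 + 3 * C₂ / δ) * (2 + q))) := by
      refine mul_le_mul ?_ h2 (by positivity) (by positivity)
      exact mul_le_mul_of_nonneg_left hKN hC₂.le
    refine h4.trans ?_
    rw [mul_one_div, div_le_iff₀ (by positivity)]
    have h5 : δ * N / 3 * ((1 + 3 * C₂ / δ) * (2 + q)) = (δ / 3 + C₂) * N * (2 + q) := by
      field_simp
    rw [h5]
    have h6 : 0 ≤ C₂ * N := by positivity
    have h7 : 0 ≤ δ / 3 * N * (2 + q) := by positivity
    nlinarith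
  have h8 : δ * N / 3 + δ * N / 3 ≤ δ * (N - 1) := by nlinarith
  linarith

end Pool.Agent.U153
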