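import Pool.Agent.U153.Nv3

/-!
# N-vector models in two dimensions: one step of the recursion
-/

set_option autoImplicit false
set_option linter.unusedSectionVars false
set_option linter.unusedVariables false

noncomputable section

namespace Pool.Agent.U153

open MvPolynomial Pool.Agent.H5R2.ON Pool.Agent.H717R2.ON3 Pool.Agent.H983R2.ONJ
open Pool.Agent.H983R2.ONJ.Aux993
open Pool.Agent.Y13.QM

/-- One step of the recursion, for a given bound on the variance. -/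
theorem nv_step0 (a : ℝ) (ha : 0 < a) : ∃ K R₁ : ℝ, 0 < K ∧ 1 ≤ R₁ ∧ ∀ A : ℝ, 0 ≤ A →
    ∀ N : ℕ, 3 ≤ N → ∀ R : ℝ, R₁ ≤ R → 1 + A ≤ R → ∀ V : ℝ, 0 < V →
      (∀ (L : ℕ) [NeZero L], 2 * R < L → ∀ {ι : Type} [Fintype ι]
        (G : Gr (Tor L) ι) (β ρ : ℝ), Nice G β ρ (A * K) → 1 ≤ ρ → ρ ≤ √R → ∀ (p : Tor L)
        (W : WFun G β (ball p R)), ∃ U : Alg (Tor L),
          W.E (U ^ 2) ≤ V ∧
          W.E (X (p, 0)) = W.E (U * X (p, 1)) ∧
          ∀ σ σ' : Tor L × Fin 3 → ℝ,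
            (∀ x, R / 8 ≤ tnorm (x - p) → ∀ g, σ (x, g) = σ' (x, g)) →
            eval σ U = eval σ' U) →
      ∀ m : ℝ, 0 ≤ m →
      MBJ N A a (R / 10) m → MBJ N A a R (m * √(V / (V + (N - 1))) + (9 / 10) / R ^ 4) := by
  obtain ⟨K, hK, hnice⟩ := Pool.Agent.Y13.QM.nice_lin a ha
  obtain ⟨C, hC, htr⟩ := Pool.Agent.Y13.QM.trunc_lin a ha
  obtain ⟨R₁, hR₁, herr⟩ := Pool.Agent.Y13.QM.err_small C a hC ha
  refine ⟨K, R₁, hK, hR₁, ?_⟩
  intro A hA N hN R hRR₁ hAR V hV hmain m hm hMB L _ hL c hc p η i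
  have hN0 : N ≠ 0 := by omega
  have hR1 : 1 ≤ R := hR₁.trans hRR₁
  have hRpos : 0 < R := by linarith
  have hsq : 1 ≤ √R := Real.one_le_sqrt.2 hR1
  obtain ⟨k, n, hn, hkc, hkr, hcomp⟩ := htr A hA L c hc p R (√R) hR1 (Real.sqrt_nonneg R)
  have hNice := hnice A hA L k n (√R) hn (Real.sqrt_nonneg R) hkc hkr
  have hHeq : (fun S : Conf N L => (1 / (n : ℝ)) * enG (gJ k) S) =
      pS (fun e => (k e : ℝ) / n) := by
    funext S
    exact enG_gJ k n S
  have h1 : |gH (fun S : Conf N L => (1 / (n : ℝ)) * enG (gJ k) S) (ball p R) η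
      (fun S => cc i (S p))| ≤ m * √(V / (V + (N - 1))) := by
    refine nv_core hN hV (gJ k) (1 / (n : ℝ)) R m hRpos hm p ?_ ?_ η i
    · intro W
      exact hmain L hL (gJ k) (1 / (n : ℝ)) (√R) hNice hsq le_rfl p W
    · intro η' j
      rw [hHeq]
      exact hMB L (by linarith) _ hkc p η' j
  have hFc : Continuous (fun S : Conf N L => cc i (S p)) :=
    (st_cc_cont _).comp (continuous_apply _)
  have h2 := hcomp N hN0 η (fun S => cc i (S p)) hFc.measurable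
    (fun S => st_cc_abs_le _ _)
  have h3 : gH (pS c) (ball p R) η (fun S => cc i (S p)) =
      gH (fun S : Conf N L => (1 / (n : ℝ)) * enG (gJ k) S) (ball p R) η
        (fun S => cc i (S p)) +
      (gH (pS c) (ball p R) η (fun S => cc i (S p)) -
        gH (fun S : Conf N L => (1 / (n : ℝ)) * enG (gJ k) S) (ball p R) η
          (fun S => cc i (S p))) := by ring
  have h4 : Real.exp (C * (1 + A) * R ^ 2 * Real.exp (-(a / 2) * √R)) - 1 ≤ (9 / 10) / R ^ 4 := by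
    refine le_trans ?_ (herr R hRR₁)
    refine sub_le_sub_right (Real.exp_le_exp.2 ?_) 1
    refine mul_le_mul_of_nonneg_right ?_ (Real.exp_pos _).le
    have h5 : C * (1 + A) * R ^ 2 ≤ C * R * R ^ 2 := by gcongr
    refine h5.trans (le_of_eq (by ring))
  rw [h3]
  exact (abs_add_le _ _).trans (add_le_add h1 (h2.trans h4))

/-- `(1 + A K) log (2 + A K)` in terms of `(1 + A) log (2 + A)` -/
theorem nv_XK (A K : ℝ) (hA : 0 ≤ A) (hK : 0 < K) :
    (1 + A * K) * Real.log (2 + A * K) ≤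
      (1 + K) * (1 + 2 * K) * ((1 + A) * Real.log (2 + A)) := by
  have hl2 : 0.69 < Real.log 2 := by have := Real.log_two_gt_d9; linarith
  have hl : Real.log 2 ≤ Real.log (2 + A) := Real.log_le_log (by norm_num) (by linarith)
  have h1 : Real.log (2 + A * K) ≤ Real.log (2 + A) + Real.log (1 + K) := by
    rw [← Real.log_mul (by positivity) (by positivity)]
    refine Real.log_le_log (by positivity) ?_
    nlinarith
  have h2 : Real.log (1 + K) ≤ K := by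
    have := Real.log_le_sub_one_of_pos (show 0 < 1 + K by linarith)
    linarith
  have h3 : Real.log (2 + A * K) ≤ (1 + 2 * K) * Real.log (2 + A) := by
    nlinarith
  have h4 : 0 ≤ Real.log (2 + A * K) := Real.log_nonneg (by nlinarith [mul_nonneg hA hK.le])
  have h5 : 1 + A * K ≤ (1 + K) * (1 + A) := by nlinarith
  calc (1 + A * K) * Real.log (2 + A * K) ≤ ((1 + K) * (1 + A)) *
        ((1 + 2 * K) * Real.log (2 + A)) :=
        mul_le_mul h5 h3 h4 (by positivity)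
    _ = _ := by ring

/-- One step of the recursion. -/
theorem nv_step (a : ℝ) (ha : 0 < a) : ∃ C₅ C₆ : ℝ, 1 ≤ C₅ ∧ 1 ≤ C₆ ∧ ∀ A : ℝ, 0 ≤ A →
    ∀ N : ℕ, 3 ≤ N → ∀ R : ℝ, 0 < R → C₆ * ((1 + A) * Real.log (2 + A)) ≤ Real.log R →
      ∀ m : ℝ, 0 ≤ m → MBJ N A a (R / 10) m →
      MBJ N A a R (m * √((C₅ * (1 + A ^ 2) / Real.log R) /
        ((C₅ * (1 + A ^ 2) / Real.log R) + (N - 1))) + (9 / 10) / R ^ 4) := by
  obtain ⟨K, R₁, hK, hR₁, hstep⟩ := nv_step0 a ha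
  obtain ⟨C₃, C₄, hC₃, hC₄, hvar⟩ := nv_varT
  have hlog := Real.log_nonneg hR₁
  refine ⟨C₃ * (1 + K ^ 2) + 1, C₄ * ((1 + K) * (1 + 2 * K)) + 2 * Real.log R₁ + 4, ?_, ?_, ?_⟩
  · have : 0 < C₃ * (1 + K ^ 2) := by positivity
    linarith
  · have : 0 < C₄ * ((1 + K) * (1 + 2 * K)) := by positivity
    linarith
  intro A hA N hN R hR hRT m hm hMB
  have hl2 : 0.69 < Real.log 2 := by have := Real.log_two_gt_d9; linarith
  have hl : Real.log 2 ≤ Real.log (2 + A) := Real.log_le_log (by norm_num) (by linarith)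
  obtain ⟨Y, hY⟩ : ∃ Y : ℝ, Y = (1 + A) * Real.log (2 + A) := ⟨_, rfl⟩
  have hY1 : 0.69 ≤ Y := by rw [hY]; nlinarith
  have hY2 : 0.69 * (1 + A) ≤ Y := by rw [hY]; nlinarith
  have hXK := nv_XK A K hA hK
  rw [← hY] at hRT hXK
  have hP : 0 ≤ C₄ * ((1 + K) * (1 + 2 * K)) * Y := by positivity
  have hLY : 0 ≤ Real.log R₁ * Y := by positivity
  have hR1 : R₁ ≤ R := by
    rw [← Real.log_le_log_iff (by linarith) hR]
    refine le_trans ?_ hRT
    nlinarith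
  have hAR : 1 + A ≤ R := by
    have h1 : 2 * Y ≤ Real.log R := by
      refine le_trans ?_ hRT
      nlinarith
    have h2 := Real.add_one_le_exp (Real.log R)
    rw [Real.exp_log hR] at h2
    linarith
  have hRT' : C₄ * ((1 + A * K) * Real.log (2 + A * K)) ≤ Real.log R := by
    refine le_trans ?_ hRT
    have h1 : C₄ * ((1 + A * K) * Real.log (2 + A * K)) ≤
        C₄ * ((1 + K) * (1 + 2 * K) * Y) := mul_le_mul_of_nonneg_left hXK (by linarith)
    nlinarith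
  have hT0 : 0 < Real.log R := by
    refine lt_of_lt_of_le ?_ hRT
    have : 0 < C₄ * ((1 + K) * (1 + 2 * K)) := by positivity
    nlinarith
  refine hstep A hA N hN R hR1 hAR _ (by positivity) ?_ m hm hMB
  intro L _ hL ι _ G β ρ hG hρ1 hρR p W
  obtain ⟨U, hU1, hU2, hU3⟩ := hvar (A * K) (by positivity) R hR hRT' L hL G β ρ hG hρ1 hρR p W
  refine ⟨U, hU1.trans ?_, hU2, hU3⟩
  refine div_le_div_of_nonneg_right ?_ hT0.le
  have h1 : C₃ * (1 + (A * K) ^ 2) ≤ C₃ * ((1 + K ^ 2) * (1 + A ^ 2)) := by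
    refine mul_le_mul_of_nonneg_left ?_ hC₃.le
    nlinarith [sq_nonneg A, sq_nonneg K]
  nlinarith [sq_nonneg A]

/-- One step with a small variance. -/
theorem nv_stepN (a : ℝ) (ha : 0 < a) (ε : ℝ) (hε : 0 < ε) : ∃ C : ℝ, 1 ≤ C ∧
    ∀ A : ℝ, 0 ≤ A → ∀ N : ℕ, 3 ≤ N → ∀ R : ℝ, 0 < R →
      C * (1 + A ^ 2 / N + (1 + A) * Real.log (2 + A ^ 2 / N)) ≤ Real.log R → ∀ m : ℝ, 0 ≤ m →
      MBJ N A a (R / 10) m → MBJ N A a R (ε * m + (9 / 10) / R ^ 4) := by
  obtain ⟨K, R₁, hK, hR₁, hstep⟩ := nv_step0 a ha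
  obtain ⟨C₄, hC₄, hvar⟩ := nv_varN (ε ^ 2) (by positivity)
  have hlog := Real.log_nonneg hR₁
  refine ⟨C₄ * ((1 + K ^ 2) * (1 + K) * (1 + 2 * K ^ 2)) + 2 * Real.log R₁ + 4, ?_, ?_⟩
  · have : 0 < C₄ * ((1 + K ^ 2) * (1 + K) * (1 + 2 * K ^ 2)) := by positivity
    linarith
  intro A hA N hN R hR hRT m hm hMB
  have hNr : (3 : ℝ) ≤ N := by exact_mod_cast hN
  have hNpos : (0 : ℝ) < N := by linarith
  obtain ⟨q, hq⟩ : ∃ q : ℝ, q = A ^ 2 / N := ⟨_, rfl⟩
  have hq0 : 0 ≤ q := by rw [hq]; positivity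
  rw [← hq] at hRT
  have hl2 : 0.69 < Real.log 2 := by have := Real.log_two_gt_d9; linarith
  have hl : Real.log 2 ≤ Real.log (2 + q) := Real.log_le_log (by norm_num) (by linarith)
  have hl0 : 0 < Real.log (2 + q) := by linarith
  obtain ⟨Y, hY⟩ : ∃ Y : ℝ, Y = 1 + q + (1 + A) * Real.log (2 + q) := ⟨_, rfl⟩
  have hY1 : 1 ≤ Y := by rw [hY]; nlinarith
  have hY2 : 0.69 * (1 + A) ≤ Y := by rw [hY]; nlinarith
  rw [← hY] at hRT
  have hP : 0 ≤ C₄ * ((1 + K ^ 2) * (1 + K) * (1 + 2 * K ^ 2)) * Y := by positivity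
  have hLY : 0 ≤ Real.log R₁ * Y := by positivity
  have hR1 : R₁ ≤ R := by
    rw [← Real.log_le_log_iff (by linarith) hR]
    refine le_trans ?_ hRT
    nlinarith
  have hAR : 1 + A ≤ R := by
    have h1 : 2 * Y ≤ Real.log R := by
      refine le_trans ?_ hRT
      nlinarith
    have h2 := Real.add_one_le_exp (Real.log R)
    rw [Real.exp_log hR] at h2
    linarith
  have hqK : (A * K) ^ 2 / N = K ^ 2 * q := by rw [hq]; ring
  have hXK : 1 + (A * K) ^ 2 / N + (1 + A * K) * Real.log (2 + (A * K) ^ 2 / N) ≤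
      (1 + K ^ 2) * (1 + K) * (1 + 2 * K ^ 2) * Y := by
    rw [hqK]
    have h1 : Real.log (2 + K ^ 2 * q) ≤ Real.log (2 + q) + Real.log (1 + K ^ 2) := by
      rw [← Real.log_mul (by positivity) (by positivity)]
      refine Real.log_le_log (by positivity) ?_
      nlinarith [sq_nonneg K]
    have h2 : Real.log (1 + K ^ 2) ≤ K ^ 2 := by
      have := Real.log_le_sub_one_of_pos (show 0 < 1 + K ^ 2 by positivity)
      linarith
    have h3 : Real.log (2 + K ^ 2 * q) ≤ (1 + 2 * K ^ 2) * Real.log (2 + q) := by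
      nlinarith [sq_nonneg K]
    have h4 : 0 ≤ Real.log (2 + K ^ 2 * q) :=
      Real.log_nonneg (by nlinarith [mul_nonneg (sq_nonneg K) hq0])
    have h5 : 1 + A * K ≤ (1 + K) * (1 + A) := by nlinarith
    have h6 : (1 + A * K) * Real.log (2 + K ^ 2 * q) ≤ ((1 + K) * (1 + A)) *
        ((1 + 2 * K ^ 2) * Real.log (2 + q)) := mul_le_mul h5 h3 h4 (by positivity)
    have h7 : 1 + K ^ 2 * q ≤ (1 + K ^ 2) * (1 + q) := by nlinarith [sq_nonneg K]
    have h8 : (1 + K ^ 2) * (1 + q) ≤ (1 + K ^ 2) * (1 + K) * (1 + 2 * K ^ 2) * (1 + q) := by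
      refine mul_le_mul_of_nonneg_right ?_ (by linarith)
      have h9 : 1 ≤ (1 + K) * (1 + 2 * K ^ 2) := by nlinarith [sq_nonneg K, mul_nonneg hK.le (sq_nonneg K)]
      nlinarith [sq_nonneg K]
    have h9 : ((1 + K) * (1 + A)) * ((1 + 2 * K ^ 2) * Real.log (2 + q)) ≤
        (1 + K ^ 2) * (1 + K) * (1 + 2 * K ^ 2) * ((1 + A) * Real.log (2 + q)) := by
      have h10 : 0 ≤ (1 + K) * (1 + 2 * K ^ 2) * ((1 + A) * Real.log (2 + q)) := by positivity
      nlinarith [sq_nonneg K]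
    rw [hY]
    linarith
  have hRT' : C₄ * (1 + (A * K) ^ 2 / N + (1 + A * K) * Real.log (2 + (A * K) ^ 2 / N)) ≤
      Real.log R := by
    refine le_trans ?_ hRT
    have h1 := mul_le_mul_of_nonneg_left hXK (show 0 ≤ C₄ by linarith)
    nlinarith
  have hV : 0 < ε ^ 2 * ((N : ℝ) - 1) := by
    have : (0 : ℝ) < N - 1 := by linarith
    positivity
  have h := hstep A hA N hN R hR1 hAR (ε ^ 2 * ((N : ℝ) - 1)) hV ?_ m hm hMB
  · refine st_MBJ_mono h ?_
    have h1 : √(ε ^ 2 * ((N : ℝ) - 1) / (ε ^ 2 * ((N : ℝ) - 1) + (N - 1))) ≤ ε := by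
      refine Real.sqrt_le_iff.2 ⟨hε.le, ?_⟩
      rw [div_le_iff₀ (by linarith)]
      have : 0 ≤ ε ^ 2 * (ε ^ 2 * ((N : ℝ) - 1)) := by positivity
      nlinarith
    have h2 := mul_le_mul_of_nonneg_left h1 hm
    linarith
  · intro L _ hL ι _ G β ρ hG hρ1 hρR p W
    exact hvar (A * K) (by positivity) N hN R hR hRT' L hL G β ρ hG hρ1 hρR p W

end Pool.Agent.U153
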