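import Pool.Agent.Q277.LC.Kha
import Pool.Agent.Q66.LC.Jmp
import Pool.Agent.Q257.LC.KerU

/-!
# Planar project, part 9: closeness of pairs in two dimensions
-/

set_option autoImplicit false
set_option linter.unusedSectionVars false

namespace Pool.Agent.U153

open Finset Equiv Matrix Q292.LC
open Pool.Agent.Q277.LC
open Pool.Agent.Q68.LC (EE_congr EE_const EE_add EE_smul EE_mono EE_succ)

theorem sum_log (δ : ℝ) (hδ : 0 < δ) (N : ℕ) :
    δ * ∑ s ∈ Finset.range (N + 1), 1 / (1 + (s : ℝ) * δ) ≤ δ + Real.log (1 + (N : ℝ) * δ) := by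
  induction N with
  | zero => simp
  | succ N ih =>
    rw [Finset.sum_range_succ, mul_add]
    obtain ⟨a, ha⟩ : ∃ a, a = 1 + (N : ℝ) * δ := ⟨_, rfl⟩
    have ha1 : 1 ≤ a := by
      rw [ha]
      have : 0 ≤ (N : ℝ) * δ := by positivity
      linarith
    have hb : 1 + ((N + 1 : ℕ) : ℝ) * δ = a + δ := by
      rw [ha]
      push_cast
      ring
    rw [hb]
    rw [← ha] at ih
    have h1 : δ * (1 / (a + δ)) ≤ Real.log (a + δ) - Real.log a := by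
      rw [← Real.log_div (by linarith) (by linarith)]
      have h2 := Real.one_sub_inv_le_log_of_pos (x := (a + δ) / a) (by positivity)
      refine le_trans (le_of_eq ?_) h2
      field_simp
      ring
    linarith

section torus

variable {d L : ℕ} [NeZero L]

theorem kha_gen (C K q : ℕ) (hC1 : 1 ≤ C) (hq2 : 2 ≤ q) {σ : ℕ → (Fin d → ZMod L) × Fin d}
    (hσ : Per σ) (δ : ℝ) (hδ1 : 1 ≤ δ * q) (hδ2 : δ * q ≤ 2)
    (hmain : ∀ x y, x ≠ y → EE (K * (q * ms d L)) δ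
      (fun ω => (clo σ (K * q) ω x y : ℝ)) ≤ C * q) (x y : Fin d → ZMod L) (hxy : x ≠ y) (m : ℕ) :
    EE (K * (q * ms d L)) δ (fun ω => if 4 * C * m * q < clo σ (K * q) ω x y then (1 : ℝ)
      else 0) ≤ (1 / 2) ^ m := by
  have hqR : (2 : ℝ) ≤ q := by exact_mod_cast hq2
  have hδ0 : 0 < δ := by
    by_contra h
    push Not at h
    have : δ * q ≤ 0 := mul_nonpos_of_nonpos_of_nonneg h (by linarith)
    linarith
  have hδle : δ ≤ 1 := by nlinarith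
  have hn : K * q * ms d L = K * (q * ms d L) := by rw [mul_assoc]
  rcases Nat.eq_zero_or_pos m with h0 | h0
  · subst h0
    rw [pow_zero]
    have h1 : EE (K * (q * ms d L)) δ (fun ω => if 4 * C * 0 * q < clo σ (K * q) ω x y then
        (1 : ℝ) else 0) ≤ EE (K * (q * ms d L)) δ (fun _ => 1) := by
      refine EE_mono hδ0.le hδle fun ω => ?_
      split_ifs <;> norm_num
    rw [EE_const] at h1
    exact h1
  obtain ⟨B, hB⟩ : ∃ B : ℕ, B = C * q := ⟨_, rfl⟩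
  have hB1 : 1 ≤ B := by
    rw [hB]
    exact Nat.mul_pos hC1 (by omega)
  have hBR : (B : ℝ) = C * q := by rw [hB]; push_cast; ring
  have hmom := kha_mom hσ (K * q) δ B hδ0.le hδle (by positivity) (by
    intro x y hxy
    rw [hn, hBR]
    exact hmain x y hxy) m (K * q) le_rfl (K * (q * ms d L)) hn.le x y hxy
  have hch := choose_lb B m hB1 h0
  have hchp : (0 : ℝ) < ((4 * B * m).choose m : ℝ) := lt_of_lt_of_le (by
    have : (0 : ℝ) < ((2 * B : ℕ) : ℝ) := by exact_mod_cast (by omega : 0 < 2 * B)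
    positivity) hch
  have h1 : EE (K * (q * ms d L)) δ (fun ω => if 4 * C * m * q < clo σ (K * q) ω x y then
      (1 : ℝ) else 0) ≤ EE (K * (q * ms d L)) δ (fun ω =>
        1 / ((4 * B * m).choose m : ℝ) * ((clo σ (K * q) ω x y).choose m : ℝ)) := by
    refine EE_mono hδ0.le hδle fun ω => ?_
    split_ifs with hc
    · rw [one_div_mul_eq_div, one_le_div hchp]
      have h3 : 4 * B * m ≤ clo σ (K * q) ω x y := by
        have : 4 * B * m = 4 * C * m * q := by rw [hB]; ring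
        omega
      exact_mod_cast Nat.choose_le_choose m h3
    · positivity
  refine le_trans h1 ?_
  rw [EE_smul]
  calc 1 / ((4 * B * m).choose m : ℝ) * EE (K * (q * ms d L)) δ
        (fun ω => ((clo σ (K * q) ω x y).choose m : ℝ))
      ≤ 1 / ((4 * B * m).choose m : ℝ) * (B : ℝ) ^ m :=
        mul_le_mul_of_nonneg_left hmom (by positivity)
    _ ≤ 1 / ((2 * B : ℕ) : ℝ) ^ m * (B : ℝ) ^ m := by
        refine mul_le_mul_of_nonneg_right ?_ (by positivity)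
        refine one_div_le_one_div_of_le ?_ hch
        have : (0 : ℝ) < ((2 * B : ℕ) : ℝ) := by exact_mod_cast (by omega : 0 < 2 * B)
        positivity
    _ = (1 / 2) ^ m := by
        have hBp : (B : ℝ) ≠ 0 := by
          have : (0 : ℝ) < B := by exact_mod_cast hB1
          exact this.ne'
        rw [one_div_mul_eq_div, ← div_pow]
        congr 1
        push_cast
        field_simp

open Classical in
theorem omp_gen (hd : 1 ≤ d) (CJ : ℝ) (hJ1 : 1 ≤ CJ)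
    (hJ2 : ∀ σ : ℕ → (Fin d → ZMod L) × Fin d, Per σ → ∀ (q K j ρ : ℕ) (δ : ℝ)
      (x : Fin d → ZMod L), 0 < δ → CJ * δ ≤ 1 → δ * q ≤ 2 → j < K →
      EE (K * (q * ms d L)) δ (fun ω => if ρ < jumps (ed ∘ σ) ω (j * (q * ms d L))
        ((j + 1) * (q * ms d L)) x then 1 else 0) ≤ CJ * Real.exp (-(ρ : ℝ)))
    (CK K ρ κ₀ q : ℕ) (hKL : K ≤ L ^ d) (hq2 : 2 ≤ q)
    (hqJ : 2 * CJ ≤ q) {σ : ℕ → (Fin d → ZMod L) × Fin d}
    (hσ : Per σ) (δ : ℝ) (hδ1 : 1 ≤ δ * q) (hδ2 : δ * q ≤ 2)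
    (hkh : ∀ x y : Fin d → ZMod L, x ≠ y → ∀ m : ℕ, EE (K * (q * ms d L)) δ
      (fun ω => if CK * m * q < clo σ (K * q) ω x y then (1 : ℝ) else 0) ≤ (1 / 2) ^ m) :
    EE (K * (q * ms d L)) δ (fun ω => if Om σ q K ρ κ₀ ω then 0 else 1) ≤
      CJ * ((L : ℝ) ^ (2 * d) * Real.exp (-(ρ : ℝ))) + (L : ℝ) ^ (2 * d) * (1 / 2) ^ (κ₀ / CK) := by
  have hqR : (2 : ℝ) ≤ q := by exact_mod_cast hq2
  have hδ0 : 0 < δ := by
    by_contra h
    push Not at h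
    have : δ * q ≤ 0 := mul_nonpos_of_nonpos_of_nonneg h (by linarith)
    linarith
  have hδle : δ ≤ 1 := by nlinarith
  have hCδ : CJ * δ ≤ 1 := by nlinarith
  have hcard : (Fintype.card (Fin d → ZMod L) : ℝ) = (L : ℝ) ^ d := by
    rw [Fintype.card_fun, Fintype.card_fin, ZMod.card]
    push_cast
    rfl
  have hkd : ∀ ω : ℕ → Bool, (if Om σ q K ρ κ₀ ω then (0 : ℝ) else 1) ≤
      (∑ j ∈ Finset.range K, ∑ x : Fin d → ZMod L,
        if ρ < jumps (ed ∘ σ) ω (j * (q * ms d L)) ((j + 1) * (q * ms d L)) x then (1 : ℝ) else 0) +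
      ∑ p : (Fin d → ZMod L) × (Fin d → ZMod L), if p.1 ≠ p.2 then
        (if CK * (κ₀ / CK) * q < clo σ (K * q) ω p.1 p.2 then (1 : ℝ) else 0) else 0 := by
    intro ω
    have hn1 : 0 ≤ ∑ j ∈ Finset.range K, ∑ x : Fin d → ZMod L,
        (if ρ < jumps (ed ∘ σ) ω (j * (q * ms d L)) ((j + 1) * (q * ms d L)) x then (1 : ℝ)
          else 0) := by
      refine Finset.sum_nonneg fun j _ => Finset.sum_nonneg fun x _ => ?_
      split_ifs <;> norm_num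
    have hn2 : 0 ≤ ∑ p : (Fin d → ZMod L) × (Fin d → ZMod L), (if p.1 ≠ p.2 then
        (if CK * (κ₀ / CK) * q < clo σ (K * q) ω p.1 p.2 then (1 : ℝ) else 0) else 0) := by
      refine Finset.sum_nonneg fun p _ => ?_
      split_ifs <;> norm_num
    split_ifs with hOm
    · linarith
    unfold Om at hOm
    rw [not_and_or] at hOm
    rcases hOm with h | h
    · push Not at h
      obtain ⟨j, hj, a, ha⟩ := h
      have h1 : (1 : ℝ) ≤ ∑ j ∈ Finset.range K, ∑ x : Fin d → ZMod L,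
          (if ρ < jumps (ed ∘ σ) ω (j * (q * ms d L)) ((j + 1) * (q * ms d L)) x then (1 : ℝ)
            else 0) := by
        have h2 : ∑ x : Fin d → ZMod L,
          (if ρ < jumps (ed ∘ σ) ω (j * (q * ms d L)) ((j + 1) * (q * ms d L)) x then (1 : ℝ)
            else 0) ≤ ∑ j ∈ Finset.range K, ∑ x : Fin d → ZMod L,
          (if ρ < jumps (ed ∘ σ) ω (j * (q * ms d L)) ((j + 1) * (q * ms d L)) x then (1 : ℝ)
            else 0) := by
          refine Finset.single_le_sum (f := fun j => ∑ x : Fin d → ZMod L,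
            (if ρ < jumps (ed ∘ σ) ω (j * (q * ms d L)) ((j + 1) * (q * ms d L)) x then (1 : ℝ)
            else 0)) (fun j _ => Finset.sum_nonneg fun x _ => by split_ifs <;> norm_num)
            (Finset.mem_range.2 hj)
        refine le_trans ?_ h2
        have h3 : (if ρ < jumps (ed ∘ σ) ω (j * (q * ms d L)) ((j + 1) * (q * ms d L)) a then
          (1 : ℝ) else 0) ≤ ∑ x : Fin d → ZMod L,
          (if ρ < jumps (ed ∘ σ) ω (j * (q * ms d L)) ((j + 1) * (q * ms d L)) x then (1 : ℝ)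
            else 0) := by
          refine Finset.single_le_sum (f := fun x =>
            (if ρ < jumps (ed ∘ σ) ω (j * (q * ms d L)) ((j + 1) * (q * ms d L)) x then (1 : ℝ)
            else 0)) (fun x _ => by split_ifs <;> norm_num) (Finset.mem_univ a)
        rw [if_pos ha] at h3
        exact h3
      linarith
    · push Not at h
      obtain ⟨a, b, hab, hc⟩ := h
      have h3 : (if a ≠ b then
        (if CK * (κ₀ / CK) * q < clo σ (K * q) ω a b then (1 : ℝ) else 0) else 0) ≤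
          ∑ p : (Fin d → ZMod L) × (Fin d → ZMod L), (if p.1 ≠ p.2 then
        (if CK * (κ₀ / CK) * q < clo σ (K * q) ω p.1 p.2 then (1 : ℝ) else 0) else 0) := by
        refine Finset.single_le_sum (f := fun p : (Fin d → ZMod L) × (Fin d → ZMod L) =>
          (if p.1 ≠ p.2 then
        (if CK * (κ₀ / CK) * q < clo σ (K * q) ω p.1 p.2 then (1 : ℝ) else 0) else 0))
          (fun p _ => by split_ifs <;> norm_num) (Finset.mem_univ (a, b))
      have h4 : CK * (κ₀ / CK) * q < clo σ (K * q) ω a b := by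
        refine lt_of_le_of_lt ?_ hc
        exact Nat.mul_le_mul_right _ (Nat.mul_div_le _ _)
      rw [if_pos hab, if_pos h4] at h3
      linarith
  have hE : EE (K * (q * ms d L)) δ (fun ω => if Om σ q K ρ κ₀ ω then (0 : ℝ) else 1) ≤
      (∑ j ∈ Finset.range K, ∑ x : Fin d → ZMod L, CJ * Real.exp (-(ρ : ℝ))) +
      ∑ p : (Fin d → ZMod L) × (Fin d → ZMod L), (1 / 2 : ℝ) ^ (κ₀ / CK) := by
    refine le_trans (EE_mono hδ0.le hδle hkd) ?_
    rw [EE_add, EE_sum, EE_sum]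
    refine add_le_add ?_ ?_
    · refine Finset.sum_le_sum fun j hj => ?_
      rw [EE_sum]
      refine Finset.sum_le_sum fun x _ => ?_
      have := hJ2 σ hσ q K j ρ δ x hδ0 hCδ hδ2 (Finset.mem_range.1 hj)
      convert this
    · refine Finset.sum_le_sum fun p _ => ?_
      by_cases hp : p.1 ≠ p.2
      · have := hkh p.1 p.2 hp (κ₀ / CK)
        simp only [if_pos hp]
        exact this
      · simp only [if_neg hp]
        rw [EE_const]
        positivity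
  refine le_trans hE ?_
  simp only [Finset.sum_const, Finset.card_univ, Finset.card_range, nsmul_eq_mul,
    Fintype.card_prod]
  push_cast
  rw [hcard]
  have hKR : (K : ℝ) ≤ (L : ℝ) ^ d := by exact_mod_cast hKL
  have h2d : (L : ℝ) ^ (2 * d) = (L : ℝ) ^ d * (L : ℝ) ^ d := by rw [two_mul, pow_add]
  have hLd : (0 : ℝ) ≤ (L : ℝ) ^ d := by positivity
  have t1 : (K : ℝ) * ((L : ℝ) ^ d * (CJ * Real.exp (-(ρ : ℝ)))) ≤
      CJ * ((L : ℝ) ^ (2 * d) * Real.exp (-(ρ : ℝ))) := by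
    rw [h2d]
    have he : 0 ≤ Real.exp (-(ρ : ℝ)) := (Real.exp_pos _).le
    calc (K : ℝ) * ((L : ℝ) ^ d * (CJ * Real.exp (-(ρ : ℝ))))
        ≤ (L : ℝ) ^ d * ((L : ℝ) ^ d * (CJ * Real.exp (-(ρ : ℝ)))) := by
          refine mul_le_mul_of_nonneg_right hKR (by positivity)
      _ = CJ * ((L : ℝ) ^ d * (L : ℝ) ^ d * Real.exp (-(ρ : ℝ))) := by ring
  rw [h2d]
  rw [h2d] at t1
  linarith

end torus

/-- expected closeness in two dimensions -/
theorem clo2 : ∃ C : ℕ, 1 ≤ C ∧ ∀ (L : ℕ) [NeZero L], 3 ≤ L → ∀ K ℓ : ℕ,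
    K ≤ L ^ 2 → 1 ≤ ℓ → (1 + 2 * K : ℝ) ≤ Real.exp ℓ →
    ∃ q₀ : ℕ, ∀ q ≥ q₀, ∀ σ : ℕ → (Fin 2 → ZMod L) × Fin 2, Per σ → ∀ δ : ℝ,
    1 ≤ δ * q → δ * q ≤ 2 → ∀ x y, x ≠ y →
    EE (K * (q * ms 2 L)) δ (fun ω => (clo σ (K * q) ω x y : ℝ)) ≤ ((C * ℓ : ℕ) : ℝ) * q := by
  obtain ⟨C, hC1, hC⟩ := Pool.Agent.Q257.LC.fre 2 (by norm_num)
  refine ⟨⌈49 ^ 2 * C * 3⌉₊, ?_, ?_⟩
  · rw [Nat.one_le_ceil_iff]
    positivity
  intro L _ hL K ℓ hKL hℓ hℓK
  obtain ⟨q₀, hq₀⟩ := hC L hL K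
  refine ⟨max q₀ 2, ?_⟩
  intro q hq σ hσ δ hδ1 hδ2 x y hxy
  have hqq : q₀ ≤ q := le_trans (le_max_left _ _) hq
  have hq2 : 2 ≤ q := le_trans (le_max_right _ _) hq
  obtain ⟨f1, -, -⟩ := hq₀ q hqq σ hσ δ hδ1 hδ2
  have hqR : (2 : ℝ) ≤ q := by exact_mod_cast hq2
  have hδ0 : 0 < δ := by
    by_contra h
    push Not at h
    have : δ * q ≤ 0 := mul_nonpos_of_nonpos_of_nonneg h (by linarith)
    linarith
  have hδle : δ ≤ 1 := by nlinarith
  have hn : K * q * ms 2 L ≤ K * (q * ms 2 L) := by rw [mul_assoc]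
  rw [EE_clo σ (K * q) _ δ hn x y]
  have hC0 : 0 ≤ C := by linarith
  have hterm : ∀ s ∈ Finset.range (K * q), EE (s * ms 2 L) δ (fun ω =>
      if td (gp (ed ∘ σ) ω (s * ms 2 L) x) (gp (ed ∘ σ) ω (s * ms 2 L) y) ≤ 3 then (1 : ℝ)
        else 0) ≤ 49 ^ 2 * (C * (1 / (1 + (s : ℝ) * δ) + 1 / (L : ℝ) ^ 2)) := by
    intro s hs
    rw [Finset.mem_range] at hs
    have hs0 : (0 : ℝ) ≤ (s : ℝ) * δ := by positivity
    have ha1 : 1 ≤ 1 + (s : ℝ) * δ := by linarith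
    have hpow : (1 + (s : ℝ) * δ) ^ (-(((2 : ℕ) : ℝ) / 2)) = 1 / (1 + (s : ℝ) * δ) := by
      have : (-(((2 : ℕ) : ℝ) / 2)) = (-1 : ℝ) := by norm_num
      rw [this, Real.rpow_neg_one, one_div]
    have hS : ∀ x y, PP (ed ∘ σ) δ (s * ms 2 L) x y ≤
        C * (1 / (1 + (s : ℝ) * δ) + 1 / (L : ℝ) ^ 2) := by
      intro x y
      have := f1 s hs.le x y
      rwa [hpow] at this
    exact close_le (ed ∘ σ) (s * ms 2 L) δ _ hδ0.le hδle hS (by positivity) x y hxy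
  refine le_trans (Finset.sum_le_sum hterm) ?_
  rw [← Finset.mul_sum, ← Finset.mul_sum, Finset.sum_add_distrib, Finset.sum_const,
    Finset.card_range, nsmul_eq_mul]
  have hLpos : (0 : ℝ) < (L : ℝ) ^ 2 := by
    have : (0 : ℝ) < L := by exact_mod_cast Nat.pos_of_ne_zero (NeZero.ne L)
    positivity
  have hℓr : (1 : ℝ) ≤ ℓ := by exact_mod_cast hℓ
  have hsum : ∑ s ∈ Finset.range (K * q), 1 / (1 + (s : ℝ) * δ) ≤ 1 + ℓ * q := by
    rcases Nat.eq_zero_or_pos (K * q) with h | h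
    · rw [h]
      simp
      positivity
    · obtain ⟨N, hN⟩ : ∃ N, K * q = N + 1 := ⟨K * q - 1, by omega⟩
      rw [hN]
      have h1 := sum_log δ hδ0 N
      have h2 : Real.log (1 + (N : ℝ) * δ) ≤ ℓ := by
        rw [Real.log_le_iff_le_exp (by positivity)]
        refine le_trans ?_ hℓK
        have h3 : (N : ℝ) ≤ K * q := by exact_mod_cast (by omega : N ≤ K * q)
        have h4 : (N : ℝ) * δ ≤ (K * q) * δ := mul_le_mul_of_nonneg_right h3 hδ0.le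
        have h5 : (K * q : ℝ) * δ = K * (δ * q) := by ring
        have h6 : (K : ℝ) * (δ * q) ≤ K * 2 := mul_le_mul_of_nonneg_left hδ2 (Nat.cast_nonneg _)
        linarith
      have h3 : δ * ∑ s ∈ Finset.range (N + 1), 1 / (1 + (s : ℝ) * δ) ≤ δ * (1 + ℓ * q) := by
        have : δ * (1 + ℓ * q) = δ + ℓ * (δ * q) := by ring
        rw [this]
        nlinarith
      exact le_of_mul_le_mul_left h3 hδ0
  have hKq : ((K * q : ℕ) : ℝ) * (1 / (L : ℝ) ^ 2) ≤ q := by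
    rw [mul_one_div, div_le_iff₀ hLpos]
    push_cast
    rw [mul_comm]
    refine mul_le_mul_of_nonneg_left ?_ (by positivity)
    exact_mod_cast hKL
  have hfin : ∑ s ∈ Finset.range (K * q), 1 / (1 + (s : ℝ) * δ) +
      ((K * q : ℕ) : ℝ) * (1 / (L : ℝ) ^ 2) ≤ 3 * ℓ * q := by
    have h1 : (q : ℝ) ≤ ℓ * q := by nlinarith
    nlinarith
  have hceil : 49 ^ 2 * C * 3 ≤ (⌈49 ^ 2 * C * 3⌉₊ : ℝ) := Nat.le_ceil _
  calc 49 ^ 2 * (C * (∑ s ∈ Finset.range (K * q), 1 / (1 + (s : ℝ) * δ) +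
        ((K * q : ℕ) : ℝ) * (1 / (L : ℝ) ^ 2)))
      ≤ 49 ^ 2 * (C * (3 * ℓ * q)) := by
        refine mul_le_mul_of_nonneg_left (mul_le_mul_of_nonneg_left hfin (by linarith)) (by positivity)
    _ = (49 ^ 2 * C * 3) * (ℓ * q) := by ring
    _ ≤ (⌈49 ^ 2 * C * 3⌉₊ : ℝ) * (ℓ * q) := mul_le_mul_of_nonneg_right hceil (by positivity)
    _ = ((⌈49 ^ 2 * C * 3⌉₊ * ℓ : ℕ) : ℝ) * q := by
        push_cast
        ring

open Classical in
/-- the analogue of `S_OMP` for `d = 2` -/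
theorem omp2 : ∃ C : ℕ, 1 ≤ C ∧ ∀ (L : ℕ) [NeZero L], 3 ≤ L → ∀ K ℓ : ℕ,
    K ≤ L ^ 2 → 1 ≤ ℓ → (1 + 2 * K : ℝ) ≤ Real.exp ℓ → ∀ ρ κ₀ : ℕ,
    ∃ q₀ : ℕ, ∀ q ≥ q₀, ∀ σ : ℕ → (Fin 2 → ZMod L) × Fin 2, Per σ → ∀ δ : ℝ,
    1 ≤ δ * q → δ * q ≤ 2 →
    EE (K * (q * ms 2 L)) δ (fun ω => if Om σ q K ρ κ₀ ω then 0 else 1) ≤
      C * ((L : ℝ) ^ 4 * Real.exp (-(ρ : ℝ)) + (L : ℝ) ^ 4 * (1 / 2) ^ (κ₀ / (C * ℓ))) := by
  obtain ⟨C, hC1, hC⟩ := clo2
  obtain ⟨CJ, hJ1, hJ2⟩ := Pool.Agent.Q66.LC.jmp 2 (by norm_num)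
  refine ⟨⌈CJ⌉₊ + 4 * C, by omega, ?_⟩
  intro L _ hL K ℓ hKL hℓ hℓK ρ κ₀
  obtain ⟨q₀, hq₀⟩ := hC L hL K ℓ hKL hℓ hℓK
  refine ⟨q₀ + 2 + ⌈2 * CJ⌉₊, ?_⟩
  intro q hq σ hσ δ hδ1 hδ2
  have hqJ : 2 * CJ ≤ q := (Nat.le_ceil _).trans (by exact_mod_cast (by omega : ⌈2 * CJ⌉₊ ≤ q))
  have hk : ∀ x y : Fin 2 → ZMod L, x ≠ y → ∀ m : ℕ, EE (K * (q * ms 2 L)) δ
      (fun ω => if (4 * (C * ℓ)) * m * q < clo σ (K * q) ω x y then (1 : ℝ) else 0) ≤
      (1 / 2) ^ m := fun x y hxy m =>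
    kha_gen (C * ℓ) K q (Nat.mul_pos hC1 hℓ) (by omega) hσ δ hδ1 hδ2
      (hq₀ q (by omega) σ hσ δ hδ1 hδ2) x y hxy m
  have h := omp_gen (by norm_num) CJ hJ1 (hJ2 L hL) (4 * (C * ℓ)) K ρ κ₀ q hKL (by omega) hqJ hσ δ
    hδ1 hδ2 hk
  refine h.trans ?_
  have hL0 : (0 : ℝ) ≤ (L : ℝ) ^ 4 := by positivity
  have h1 : CJ ≤ ((⌈CJ⌉₊ + 4 * C : ℕ) : ℝ) := by
    push_cast
    have := Nat.le_ceil CJ
    have : (0 : ℝ) ≤ C := Nat.cast_nonneg _
    linarith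
  have h2 : (1 : ℝ) ≤ ((⌈CJ⌉₊ + 4 * C : ℕ) : ℝ) := by
    exact_mod_cast (by omega : 1 ≤ ⌈CJ⌉₊ + 4 * C)
  have h3 : (1 / 2 : ℝ) ^ (κ₀ / (4 * (C * ℓ))) ≤ (1 / 2) ^ (κ₀ / ((⌈CJ⌉₊ + 4 * C) * ℓ)) := by
    refine pow_le_pow_of_le_one (by norm_num) (by norm_num) ?_
    refine Nat.div_le_div_left ?_ (Nat.mul_pos (by omega) (Nat.mul_pos hC1 hℓ))
    rw [← mul_assoc]
    exact Nat.mul_le_mul_right _ (by omega)
  rw [mul_add]
  refine add_le_add ?_ ?_
  · exact mul_le_mul_of_nonneg_right h1 (by positivity)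
  · calc (L : ℝ) ^ (2 * 2) * (1 / 2) ^ (κ₀ / (4 * (C * ℓ))) ≤
        (L : ℝ) ^ 4 * (1 / 2) ^ (κ₀ / ((⌈CJ⌉₊ + 4 * C) * ℓ)) :=
          mul_le_mul_of_nonneg_left h3 hL0
      _ ≤ _ := le_mul_of_one_le_left (by positivity) h2

end Pool.Agent.U153
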