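import Pool.Agent.U153.PlKer
import Pool.Agent.U153.PlClo
import Pool.Agent.Q277.LC.Bad

/-!
# Planar project, part 10: the environment of the marked particles is good, `d = 2`
-/

set_option autoImplicit false
set_option linter.unusedSectionVars false
set_option linter.unusedVariables false

namespace Pool.Agent.U153

open Finset Equiv Matrix Q292.LC
open Pool.Agent.Q277.LC
open Pool.Agent.Q151.LC (sig_per mem_bal)
open Pool.Agent.Q68.LC (EE_congr EE_const EE_add EE_smul EE_mono EE_succ)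

/-- from the bound of the Green function to the bordered determinant -/
theorem bd_of_ker2 {L : ℕ} [NeZero L] (σ : ℕ → (Fin 2 → ZMod L) × Fin 2)
    (q K lam r ρ κ₀ Z : ℕ) (C δ w κ : ℝ)
    (hC : 0 ≤ C) (hδ0 : 0 ≤ δ) (hδ1 : δ ≤ 1) (hw1 : w < 1) (hwZ : Real.exp (-(Z : ℝ)) ≤ 1 - w)
    (hL : 0 < L) (hκ : C * ((Z : ℝ) ^ 10 / K + 1 / ((L : ℝ) ^ 2 * (1 - w))) ≤ κ)
    (hker : ∀ (ω : ℕ → Bool) (R : Finset (Fin 2 → ZMod L)), Gd σ q K lam r ρ κ₀ ω R →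
      ∀ (w : ℝ) (U : Finset (Fin 2 → ZMod L)) (x y : Fin 2 → ZMod L), 0 ≤ w → w < 1 →
      Real.exp (-(Z : ℝ)) ≤ 1 - w →
      Disjoint U R → x ∉ R → x ∉ U → y ∉ U → ∀ N : ℕ,
      ∑ k ∈ Finset.range N, w ^ (k + 1) * (TT (ed ∘ σ) ω R δ (K * (q * ms 2 L)) *
        (dg U * TT (ed ∘ σ) ω R δ (K * (q * ms 2 L))) ^ k) x y ≤
        C * ((Z : ℝ) ^ 10 / K + 1 / ((L : ℝ) ^ 2 * (1 - w)))) :
    ∀ (ω : ℕ → Bool) (R : Finset (Fin 2 → ZMod L)), Gd σ q K lam r ρ κ₀ ω R →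
      ∀ w' : ℝ, 0 ≤ w' → w' ≤ w → ∀ U : Finset (Fin 2 → ZMod L), Disjoint U R →
      ∀ x, x ∉ R → x ∉ U → ∀ y, y ∉ U →
      bd w' U (TT (ed ∘ σ) ω R δ (K * (q * ms 2 L))) x y -
        dS w' U (TT (ed ∘ σ) ω R δ (K * (q * ms 2 L))) ≤
        κ * dS w' U (TT (ed ∘ σ) ω R δ (K * (q * ms 2 L))) := by
  intro ω R hG w' hw0 hww U hUR x hxR hxU y hyU
  obtain ⟨b1, b2, -⟩ := Pool.Agent.Q68.LC.bas2 (Fin 2 → ZMod L) (ed ∘ σ) ω R δ hδ0 hδ1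
  have hw1' : w' < 1 := lt_of_le_of_lt hww hw1
  obtain ⟨-, g2⟩ := Pool.Agent.Q68.LC.grn (Fin 2 → ZMod L)
    (TT (ed ∘ σ) ω R δ (K * (q * ms 2 L))) w' κ U x y (fun a b => b1 _ a b)
    (fun a => (b2 _ a).le) hw0 hw1'
  refine g2 fun N => ?_
  refine le_trans (hker ω R hG w' U x y hw0 hw1' (by linarith) hUR hxR hxU hyU N)
    (le_trans ?_ hκ)
  refine mul_le_mul_of_nonneg_left ?_ hC
  have hLp : (0 : ℝ) < (L : ℝ) ^ 2 := by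
    have : (0 : ℝ) < L := by exact_mod_cast hL
    positivity
  have h1 : 1 / ((L : ℝ) ^ 2 * (1 - w')) ≤ 1 / ((L : ℝ) ^ 2 * (1 - w)) := by
    refine one_div_le_one_div_of_le (by
      have : 0 < 1 - w := by linarith
      positivity) ?_
    exact mul_le_mul_of_nonneg_left (by linarith) hLp.le
  linarith

open Classical in
/-- the analogue of `S_BTL` for `d = 2` -/
theorem btl2 : ∃ (C m : ℕ), 1 ≤ C ∧ ∀ Z : ℕ, C ≤ Z →
    ∀ (L K lam r ρ κ₀ ℓ : ℕ) [NeZero L], lam ≤ Z → ρ ≤ Z → 2 * κ₀ + 1 ≤ Z →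
    Z ^ m ≤ r → 8 * Z ^ m ≤ L → Z ^ m ≤ K → K ≤ L ^ 2 → 1 ≤ ℓ → (1 + 2 * K : ℝ) ≤ Real.exp ℓ →
    ∃ q₀ : ℕ, ∀ q ≥ q₀,
    ∀ σ : ℕ → (Fin 2 → ZMod L) × Fin 2, Per σ → ∀ δ : ℝ, 1 ≤ δ * q → δ * q ≤ 2 →
    ∀ w : ℝ, 0 ≤ w → w < 1 → Real.exp (-(Z : ℝ)) ≤ 1 - w → ∀ κ : ℝ,
    κ = C * ((Z : ℝ) ^ 10 / K + 1 / ((L : ℝ) ^ 2 * (1 - w))) → (lam + 2) * κ ≤ 1 →
    PW (ed ∘ σ) (K * (q * ms 2 L)) δ w (fun ω A => ¬ Gd σ q K lam r ρ (2 * κ₀) ω A) ≤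
      C * ((L : ℝ) ^ 4 * Real.exp (-(ρ : ℝ)) + (L : ℝ) ^ 4 * (1 / 2) ^ (κ₀ / (C * ℓ))) +
      K * (L : ℝ) ^ 4 * (lam + 1) * ((2 * r + 1 : ℕ) : ℝ) ^ 2 *
        (((2 * r + 1 : ℕ) : ℝ) ^ 2 * ((lam + 2) * κ)) ^ lam ∧
    ∀ x, PW (ed ∘ σ) (K * (q * ms 2 L)) δ w
      (fun ω A => x ∈ A ∧ Gd σ q K lam r ρ (2 * κ₀) ω A) ≤ κ := by
  obtain ⟨C1, m, hC1, hK1⟩ := ker2
  obtain ⟨C3, hC3, hO3⟩ := omp2
  obtain ⟨C, hC⟩ : ∃ C, C = max C1 C3 := ⟨_, rfl⟩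
  have c1 : C1 ≤ C := by rw [hC]; exact le_max_left _ _
  have c3 : C3 ≤ C := by rw [hC]; exact le_max_right _ _
  refine ⟨C, m, by omega, ?_⟩
  intro Z hZ L K lam r ρ κ₀ ℓ _ h1 h2 h3 h5 h6 h7 h8 hℓ hℓK
  have hZ1 : 1 ≤ Z := by omega
  have hZm : 1 ≤ Z ^ m := Nat.one_le_pow _ _ hZ1
  have hL3 : 3 ≤ L := by omega
  obtain ⟨q1, hq1⟩ := hK1 Z (by omega) L K lam r ρ (2 * κ₀) h1 h2 h3 (by omega) (by omega)
    (by omega)
  obtain ⟨q3, hq3⟩ := hO3 L hL3 K ℓ h8 hℓ hℓK ρ κ₀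
  refine ⟨q1 + q3 + 2, ?_⟩
  intro q hq σ hσ δ hδ1 hδ2 w hw0 hw1 hwZ κ hκ hlκ
  obtain ⟨hδ0, hδle⟩ := del_pos (by omega) hδ1 hδ2
  have hL0 : 0 < L := Nat.pos_of_ne_zero (NeZero.ne L)
  have hLp : (0 : ℝ) < (L : ℝ) ^ 2 := by
    have : (0 : ℝ) < L := by exact_mod_cast hL0
    positivity
  have hbr : 0 ≤ ((Z : ℝ) ^ 10 / K + 1 / ((L : ℝ) ^ 2 * (1 - w))) := by
    have : 0 < 1 - w := by linarith
    positivity
  have hκ0 : 0 ≤ κ := by rw [hκ]; positivity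
  have hK0 : 0 < K := by omega
  have hms : 0 < ms 2 L := ms_pos' (by norm_num)
  have hU : 0 < q * ms 2 L := Nat.mul_pos (by omega) hms
  obtain ⟨g1, g2⟩ := Pool.Agent.Q154.LC.gdm 2 L σ q K lam r ρ (2 * κ₀)
  obtain ⟨P1, P2, P3, P4, P5, P6⟩ := peb (Fin 2 → ZMod L) (ed ∘ σ) (K * (q * ms 2 L)) δ w
    hδ0.le hδle hw0 hw1
  have hCκ : (C1 : ℝ) * ((Z : ℝ) ^ 10 / K + 1 / ((L : ℝ) ^ 2 * (1 - w))) ≤ κ := by
    rw [hκ]
    exact mul_le_mul_of_nonneg_right (by exact_mod_cast c1) hbr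
  have hbd := bd_of_ker2 σ q K lam r ρ (2 * κ₀) Z C1 δ w κ (by positivity) hδ0.le hδle hw1 hwZ hL0
    hCκ (fun ω R hG => hq1 q (by omega) σ hσ δ hδ1 hδ2 ω R hG)
  constructor
  · -- first claim
    have t2 : PW (ed ∘ σ) (K * (q * ms 2 L)) δ w (fun ω A => Om σ q K ρ κ₀ ω ∧
        viol (ed ∘ σ) (q * ms 2 L) K (fun v => bal v r) lam ω A) ≤
        K * (L : ℝ) ^ 4 * (lam + 1) * ((2 * r + 1 : ℕ) : ℝ) ^ 2 *
        (((2 * r + 1 : ℕ) : ℝ) ^ 2 * ((lam + 2) * κ)) ^ lam := by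
      have hmain := Pool.Agent.Q257.LC.badp (Fin 2 → ZMod L) (ed ∘ σ) (q * ms 2 L) K lam
        ((2 * r + 1) ^ 2) δ w κ (fun v => bal v r) (fun ω => Om σ q K ρ κ₀ ω)
        (fun ω R => Gd σ q K lam r ρ (2 * κ₀) ω R) hδ0.le hδle hw0 hw1 hκ0 hlκ hU hK0
        (fun k => by simp only [Function.comp_apply]; rw [sig_per hσ])
        (fun v => card_bal_le v r) g1 g2 hbd
        (fun ω hOm j hj R hR => omr 2 L (by norm_num) hL3 σ hσ q K lam r ρ κ₀ j ω (by omega) hj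
          hOm R hR)
      refine le_trans hmain ?_
      have hcard : (Fintype.card (Fin 2 → ZMod L) : ℝ) = (L : ℝ) ^ 2 := by
        rw [Fintype.card_fun, Fintype.card_fin, ZMod.card]
        push_cast
        rfl
      rw [hcard]
      obtain ⟨b, hb⟩ : ∃ b : ℕ, b = (2 * r + 1) ^ 2 := ⟨_, rfl⟩
      have hbR : ((2 * r + 1 : ℕ) : ℝ) ^ 2 = (b : ℝ) := by rw [hb]; push_cast; ring
      rw [← hb, hbR]
      have hch : (b.choose (lam + 1) : ℝ) ≤ (b : ℝ) ^ (lam + 1) := by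
        exact_mod_cast Nat.choose_le_pow b (lam + 1)
      have hx0 : 0 ≤ ((lam : ℝ) + 2) * κ := by positivity
      calc (K : ℝ) * ((L : ℝ) ^ 2) ^ 2 * (b.choose (lam + 1) : ℝ) * (lam + 1) *
            ((lam + 2) * κ) ^ lam
          ≤ (K : ℝ) * ((L : ℝ) ^ 2) ^ 2 * (b : ℝ) ^ (lam + 1) * (lam + 1) *
            ((lam + 2) * κ) ^ lam := by
            have h8 : 0 ≤ ((lam : ℝ) + 2) * κ := hx0
            gcongr
        _ = K * (L : ℝ) ^ 4 * (lam + 1) * (b : ℝ) * ((b : ℝ) * ((lam + 2) * κ)) ^ lam := by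
            rw [mul_pow (b : ℝ), pow_succ]
            ring
    have t3 := hq3 q (by omega) σ hσ δ hδ1 hδ2
    rw [← P5]
    refine le_trans (P4 _ (fun ω A =>
          (if Om σ q K ρ κ₀ ω then (0 : ℝ) else 1) +
          (if Om σ q K ρ κ₀ ω ∧ viol (ed ∘ σ) (q * ms 2 L) K (fun v => bal v r) lam ω A
            then (1 : ℝ) else 0)) ?_) ?_
    · intro ω A _
      by_cases ho : Om σ q K ρ κ₀ ω
      · by_cases hv : viol (ed ∘ σ) (q * ms 2 L) K (fun v => bal v r) lam ω A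
        · simp only [ho, hv, and_self, if_true]
          split_ifs <;> norm_num
        · have hGd := gd_of_om σ q K lam r ρ κ₀ ω A ho hv
          simp only [hGd, ho, hv, not_true_eq_false, and_false, if_true, if_false]
          norm_num
      · simp only [ho, false_and, if_false]
        split_ifs <;> norm_num
    rw [P2, P1, PE_ind]
    refine add_le_add ?_ t2
    refine le_trans t3 ?_
    have s1 : (1 / 2 : ℝ) ^ (κ₀ / (C3 * ℓ)) ≤ (1 / 2) ^ (κ₀ / (C * ℓ)) := by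
      refine pow_le_pow_of_le_one (by norm_num) (by norm_num) ?_
      exact Nat.div_le_div_left (Nat.mul_le_mul_right _ c3) (Nat.mul_pos (by omega) (by omega))
    have s2 : (C3 : ℝ) ≤ C := by exact_mod_cast c3
    have s3 : 0 ≤ Real.exp (-(ρ : ℝ)) := (Real.exp_pos _).le
    have s4 : (0 : ℝ) ≤ (L : ℝ) ^ 4 := by positivity
    calc (C3 : ℝ) * ((L : ℝ) ^ 4 * Real.exp (-(ρ : ℝ)) +
          (L : ℝ) ^ 4 * (1 / 2) ^ (κ₀ / (C3 * ℓ)))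
        ≤ (C : ℝ) * ((L : ℝ) ^ 4 * Real.exp (-(ρ : ℝ)) +
          (L : ℝ) ^ 4 * (1 / 2) ^ (κ₀ / (C3 * ℓ))) :=
          mul_le_mul_of_nonneg_right s2 (by positivity)
      _ ≤ _ := by
          refine mul_le_mul_of_nonneg_left ?_ (by positivity)
          have := mul_le_mul_of_nonneg_left s1 s4
          linarith
  · intro x
    refine mrk (Fin 2 → ZMod L) (ed ∘ σ) (K * (q * ms 2 L)) δ w κ
      (fun ω A => Gd σ q K lam r ρ (2 * κ₀) ω A) hδ0.le hδle hw0 hw1 hκ0 g1 g2 ?_ x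
    intro ω R hG U hUR x hxR hxU y hyU
    exact hbd ω R hG w hw0 le_rfl U hUR x hxR hxU y hyU

end Pool.Agent.U153
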