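import Pool.Agent.U153.PlLam
import Pool.Agent.U153.LcCnt

/-!
# Planar project, part 13: boxes of side `√K / h` see the same fractions as the torus, `d = 2`
-/

set_option autoImplicit false
set_option linter.unusedSectionVars false

namespace Pool.Agent.U153

open Finset Equiv Matrix Q292.LC
open Pool.Agent.Q257.LC (mem_bal bal_mono box_sub)

section torus

variable {d L : ℕ} [NeZero L]

open Classical in
/-- the expectation of `Qb - Qv` in terms of the failure probability of a good environment -/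
theorem pl_dev_exp (e : ℕ → (Fin d → ZMod L) × (Fin d → ZMod L)) (n : ℕ) (δ w η Λ κ fl : ℝ)
    (r : ℕ) (B : (ℕ → Bool) → Finset (Fin d → ZMod L) → Prop) (hδ0 : 0 ≤ δ) (hδ1 : δ ≤ 1)
    (hw0 : 0 ≤ w) (hw1 : w < 1) (hr : 1 ≤ r) (hrL : r ≤ L) (hη0 : 0 ≤ η) (hη : η ≤ 1 / 2)
    (hΛ : 0 ≤ Λ)
    (hBm : ∀ A, Rmeas e n A (fun ω => B ω A))
    (hD : ∀ ω A, B ω A → ∀ v, ((A ∩ box v r).card : ℝ) ≤ η * (r : ℝ) ^ d)
    (hres : ∀ ω A, Q292.LC.Inv (gp e ω n) A → B ω A → ∀ z,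
      phz r A z ⬝ᵥ ((1 - w • (dg (univ \ A) * TT e ω A δ n))⁻¹ *ᵥ phz r A z) ≤ Λ)
    (hfl : PW e n δ w (fun ω A => ¬ B ω A) ≤ fl)
    (hκ : ∀ x, PW e n δ w (fun ω A => x ∈ A ∧ B ω A) ≤ κ) :
    EE n δ (fun ω => Qb r (gp e ω n) - Qv (gp e ω n)) ≤
      2 * ((L : ℝ) ^ d * ((1 - w) * Λ)) + 32 * η ^ 2 + 2 * κ + fl := by
  obtain ⟨p1, p2, p3, p4, p5, p6⟩ := Pool.Agent.Q277.LC.peb (Fin d → ZMod L) e n δ w hδ0 hδ1 hw0 hw1
  have hV := lc_vol_pos (d := d) (L := L)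
  have psum : ∀ (s : Finset (Fin d → ZMod L))
      (F : (Fin d → ZMod L) → (ℕ → Bool) → Finset (Fin d → ZMod L) → ℝ),
      PE e n δ w (fun ω A => ∑ z ∈ s, F z ω A) = ∑ z ∈ s, PE e n δ w (F z) := by
    intro s F
    induction s using Finset.induction_on with
    | empty =>
      simp only [sum_empty]
      have := p1 (fun _ => (0 : ℝ))
      rw [this]
      exact Pool.Agent.Q68.LC.EE_const n δ 0
    | insert a s ha ih =>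
      simp only [sum_insert ha]
      rw [p2, ih]
  rw [← p1]
  obtain ⟨c, hc⟩ : ∃ c, c = 32 * η ^ 2 := ⟨_, rfl⟩
  rw [← hc]
  have hpt : ∀ ω A, Q292.LC.Inv (gp e ω n) A → Qb r (gp e ω n) - Qv (gp e ω n) ≤
      (2 * ∑ z, (if B ω A then ∑ x ∈ univ \ A,
        ((∑ y ∈ cyc (gp e ω n) x, phz r A z y) /
          ((cyc (gp e ω n) x).card : ℝ)) ^ 2 else 0) + c) +
      (2 / (L : ℝ) ^ d * (∑ x, (if x ∈ A ∧ B ω A then (1 : ℝ) else 0)) +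
      (if ¬ B ω A then (1 : ℝ) else 0)) := by
    intro ω A hA
    rw [hc]
    by_cases hB : B ω A
    · have h1 := lc_dva (gp e ω n) A A r η hr hrL hA hη0 hη (hD ω A hB)
      simp only [hB, if_true, not_true_eq_false, if_false, and_true]
      have h2 : ∑ x : Fin d → ZMod L, (if x ∈ A then (1 : ℝ) else 0) = A.card := by
        rw [sum_ite_mem, univ_inter, sum_const, nsmul_eq_mul, mul_one]
      rw [h2]
      unfold cmean at h1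
      have h3 : 2 * (A.card : ℝ) / (L : ℝ) ^ d = 2 / (L : ℝ) ^ d * A.card := by ring
      rw [h3] at h1
      linarith
    · simp only [hB, if_false, not_false_eq_true, if_true, and_false, sum_const_zero, mul_zero]
      have h1 := lc_Qb_le hr hrL (gp e ω n)
      have h2 := lc_Qv_nonneg (gp e ω n)
      have h3 : 0 ≤ 32 * η ^ 2 := by positivity
      linarith
  refine (p4 _ _ hpt).trans ?_
  rw [p2, p2, p2, p3, p3, psum, psum]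
  have c6 : PE e n δ w (fun ω A => if ¬ B ω A then (1 : ℝ) else 0) ≤ fl := by
    refine le_trans (le_of_eq ?_) hfl
    rw [← p5]
    congr 1
    funext ω A
    congr
  have c1 : PE e n δ w (fun _ _ => c) = c := by
    rw [p1]
    exact Pool.Agent.Q68.LC.EE_const n δ _
  rw [c1]
  have c2 : ∀ z, PE e n δ w (fun ω A => if B ω A then ∑ x ∈ univ \ A,
        ((∑ y ∈ cyc (gp e ω n) x, phz r A z y) /
          ((cyc (gp e ω n) x).card : ℝ)) ^ 2 else 0) ≤ (1 - w) * Λ := by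
    intro z
    refine lc_res (Fin d → ZMod L) e n δ w Λ B (fun ω A => phz r A z) hδ0 hδ1 hw0
      hw1 hΛ hBm ?_ ?_ ?_
    · intro A ω ω' h
      rfl
    · intro ω A a ha
      exact phz_zero r _ z a ha
    · intro ω A hI hB
      exact hres ω A hI hB z
  have c3 : ∑ z : Fin d → ZMod L, PE e n δ w (fun ω A => if B ω A then ∑ x ∈ univ \ A,
        ((∑ y ∈ cyc (gp e ω n) x, phz r A z y) /
          ((cyc (gp e ω n) x).card : ℝ)) ^ 2 else 0) ≤ (L : ℝ) ^ d * ((1 - w) * Λ) := by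
    calc _ ≤ ∑ _z : Fin d → ZMod L, (1 - w) * Λ := sum_le_sum fun z _ => c2 z
      _ = _ := by rw [sum_const, card_univ, nsmul_eq_mul, lc_vol]
  have c4 : ∑ x : Fin d → ZMod L, PE e n δ w (fun ω A => if x ∈ A ∧ B ω A then (1 : ℝ) else 0) ≤
      (L : ℝ) ^ d * κ := by
    calc _ ≤ ∑ _x : Fin d → ZMod L, κ := by
          refine sum_le_sum fun x _ => ?_
          refine le_trans (le_of_eq ?_) (hκ x)
          rw [← p5]
          congr 1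
          funext ω A
          congr
      _ = _ := by rw [sum_const, card_univ, nsmul_eq_mul, lc_vol]
  have c5 : 2 / (L : ℝ) ^ d * ∑ x : Fin d → ZMod L,
      PE e n δ w (fun ω A => if x ∈ A ∧ B ω A then (1 : ℝ) else 0) ≤ 2 * κ := by
    calc _ ≤ 2 / (L : ℝ) ^ d * ((L : ℝ) ^ d * κ) := mul_le_mul_of_nonneg_left c4 (by positivity)
      _ = _ := by field_simp
  linarith

end torus

/-- the failure probability in `btl2` -/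
theorem pl_fail {C₁ L K Z r l : ℕ} {κ : ℝ} (hC₁ : 1 ≤ C₁) (hL : 1 ≤ L) (hℓ1 : 1 ≤ Real.log L)
    (hl : 1 ≤ l) (hl4 : (l : ℝ) ≤ 4 * Real.log L)
    (hZ : 1000 * C₁ * Real.log L ^ 2 ≤ Z) (hK : K ≤ L ^ 2)
    (hr : (Z + 1) * (2 * r + 1) ^ 2 ≤ L ^ 2) (hκ0 : 0 ≤ κ)
    (hκ : ((2 * r + 1 : ℕ) : ℝ) ^ 2 * ((Z + 2) * κ) ≤ Real.exp (-1)) :
    C₁ * ((L : ℝ) ^ 4 * Real.exp (-(Z : ℝ)) + (L : ℝ) ^ 4 * (1 / 2) ^ ((Z - 1) / 2 / (C₁ * l))) +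
      K * (L : ℝ) ^ 4 * (Z + 1) * ((2 * r + 1 : ℕ) : ℝ) ^ 2 *
        (((2 * r + 1 : ℕ) : ℝ) ^ 2 * ((Z + 2) * κ)) ^ Z ≤ (5 * C₁ + 1) * (1 / (L : ℝ)) := by
  obtain ⟨ℓ, hℓ⟩ : ∃ ℓ, ℓ = Real.log L := ⟨_, rfl⟩
  rw [← hℓ] at hℓ1 hl4 hZ
  have hC' : (1 : ℝ) ≤ C₁ := by exact_mod_cast hC₁
  have e4 : (L : ℝ) ^ 4 = Real.exp (4 * ℓ) := by
    rw [Pool.Agent.Q297.LC.pow_exp hL, ← hℓ]; norm_num
  have e2 : (L : ℝ) ^ 2 = Real.exp (2 * ℓ) := by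
    rw [Pool.Agent.Q297.LC.pow_exp hL, ← hℓ]; norm_num
  have e1 : (L : ℝ) = Real.exp ℓ := by
    rw [hℓ, Real.exp_log (by exact_mod_cast hL)]
  have einv : 1 / (L : ℝ) = Real.exp (-ℓ) := by
    rw [e1, Real.exp_neg, one_div]
  have hℓℓ : ℓ ≤ ℓ ^ 2 := by rw [sq]; exact le_mul_of_one_le_left (by linarith) hℓ1
  have hZ9 : 9 * ℓ ≤ Z := by
    refine le_trans ?_ hZ
    calc 9 * ℓ ≤ 1000 * 1 * ℓ ^ 2 := by linarith
      _ ≤ 1000 * C₁ * ℓ ^ 2 := by gcongr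
  -- first term
  have t1 : (L : ℝ) ^ 4 * Real.exp (-(Z : ℝ)) ≤ 1 / (L : ℝ) := by
    rw [e4, einv, ← Real.exp_add, Real.exp_le_exp]
    linarith
  -- second term
  have t2 : (L : ℝ) ^ 4 * (1 / 2) ^ ((Z - 1) / 2 / (C₁ * l)) ≤ 4 * (1 / (L : ℝ)) := by
    obtain ⟨b, hb⟩ : ∃ b, b = C₁ * l := ⟨_, rfl⟩
    have hbpos : 0 < b := by rw [hb]; exact Nat.mul_pos (by omega) (by omega)
    have hbr : (0 : ℝ) < b := by exact_mod_cast hbpos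
    rw [← hb]
    obtain ⟨n, hn⟩ : ∃ n, n = (Z - 1) / 2 / b := ⟨_, rfl⟩
    rw [← hn]
    have n1 : (Z - 1) / 2 < b * n + b := by
      have e1 := Nat.div_add_mod ((Z - 1) / 2) b
      have e2 := Nat.mod_lt ((Z - 1) / 2) hbpos
      rw [← hn] at e1
      omega
    have n2 : Z ≤ 2 * (b * n) + 2 * b + 1 := by omega
    have n3 : (Z : ℝ) ≤ 2 * (b * n) + 2 * b + 1 := by exact_mod_cast n2
    have hb1 : (1 : ℝ) ≤ b := by exact_mod_cast hbpos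
    have n4 : (Z : ℝ) / (2 * b) - 2 ≤ n := by
      rw [sub_le_iff_le_add, div_le_iff₀ (by positivity)]
      nlinarith
    have hb4 : (b : ℝ) ≤ C₁ * (4 * ℓ) := by
      rw [hb]
      push_cast
      gcongr
    have n5 : 125 * ℓ ≤ (Z : ℝ) / (2 * b) := by
      rw [le_div_iff₀ (by positivity)]
      refine le_trans ?_ hZ
      calc 125 * ℓ * (2 * b) ≤ 125 * ℓ * (2 * (C₁ * (4 * ℓ))) := by gcongr
        _ = _ := by ring
    have l2 := Real.log_two_gt_d9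
    have l2' := Real.log_two_lt_d9
    have f1 : ((1 : ℝ) / 2) ^ n = Real.exp (-(n * Real.log 2)) := by
      rw [one_div, inv_pow, Real.exp_neg, ← Real.log_pow, Real.exp_log (by positivity)]
    have f4 : (4 : ℝ) = Real.exp (2 * Real.log 2) := by
      rw [show (2 : ℝ) * Real.log 2 = ((2 : ℕ) : ℝ) * Real.log 2 by norm_num, ← Real.log_pow,
        Real.exp_log (by positivity)]
      norm_num
    rw [f1, e4, einv, ← Real.exp_add]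
    nth_rw 2 [f4]
    rw [← Real.exp_add, Real.exp_le_exp]
    have n6 : (125 * ℓ - 2) * Real.log 2 ≤ n * Real.log 2 :=
      mul_le_mul_of_nonneg_right (by linarith) (by linarith)
    nlinarith
  -- third term
  have t3 : K * (L : ℝ) ^ 4 * (Z + 1) * ((2 * r + 1 : ℕ) : ℝ) ^ 2 *
        (((2 * r + 1 : ℕ) : ℝ) ^ 2 * ((Z + 2) * κ)) ^ Z ≤ 1 / (L : ℝ) := by
    have k1 : (K : ℝ) ≤ Real.exp (2 * ℓ) := by rw [← e2]; exact_mod_cast hK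
    have k2 : ((Z : ℝ) + 1) * ((2 * r + 1 : ℕ) : ℝ) ^ 2 ≤ Real.exp (2 * ℓ) := by
      rw [← e2]; exact_mod_cast hr
    have k3 : (((2 * r + 1 : ℕ) : ℝ) ^ 2 * ((Z + 2) * κ)) ^ Z ≤ Real.exp (-(Z : ℝ)) := by
      have h1 := pow_le_pow_left₀ (by positivity) hκ Z
      refine h1.trans (le_of_eq ?_)
      rw [← Real.exp_nat_mul]
      congr 1
      ring
    have k4 : K * (L : ℝ) ^ 4 * (Z + 1) * ((2 * r + 1 : ℕ) : ℝ) ^ 2 *
        (((2 * r + 1 : ℕ) : ℝ) ^ 2 * ((Z + 2) * κ)) ^ Z =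
        K * (L : ℝ) ^ 4 * ((Z + 1) * ((2 * r + 1 : ℕ) : ℝ) ^ 2) *
        (((2 * r + 1 : ℕ) : ℝ) ^ 2 * ((Z + 2) * κ)) ^ Z := by ring
    rw [k4, e4]
    calc K * Real.exp (4 * ℓ) * ((Z + 1) * ((2 * r + 1 : ℕ) : ℝ) ^ 2) *
        (((2 * r + 1 : ℕ) : ℝ) ^ 2 * ((Z + 2) * κ)) ^ Z
        ≤ Real.exp (2 * ℓ) * Real.exp (4 * ℓ) * Real.exp (2 * ℓ) * Real.exp (-(Z : ℝ)) := by
          gcongr
      _ = Real.exp (8 * ℓ - Z) := by
          rw [← Real.exp_add, ← Real.exp_add, ← Real.exp_add]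
          congr 1
          ring
      _ ≤ 1 / (L : ℝ) := by
          rw [einv, Real.exp_le_exp]
          linarith
  have hinv : 0 ≤ 1 / (L : ℝ) := by positivity
  nlinarith

/-- DEV for `d = 2` -/
theorem pl_dev : ∃ m h₀ : ℕ, ∀ h : ℕ, h₀ ≤ h → ∀ η : ℝ, 0 < η → ∃ L₀ : ℕ,
    ∀ (L K : ℕ) [NeZero L], L₀ ≤ L → (Real.log L) ^ m ≤ K → K ^ 2 ≤ L ^ 3 →
    ∃ q₀ : ℕ, ∀ q ≥ q₀, ∀ σ : ℕ → (Fin 2 → ZMod L) × Fin 2, Per σ → ∀ δ : ℝ,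
    1 ≤ δ * q → δ * q ≤ 2 →
    1 ≤ Nat.sqrt K / h ∧ Nat.sqrt K / h ≤ L ∧
    EE (K * (q * ms 2 L)) δ (fun ω => Qb (Nat.sqrt K / h) (gp (ed ∘ σ) ω (K * (q * ms 2 L))) -
      Qv (gp (ed ∘ σ) ω (K * (q * ms 2 L)))) ≤ η := by
  obtain ⟨C₁, m₁, hC₁, hBTL⟩ := btl2
  obtain ⟨C₂, m₂, hC₂, hLAM⟩ := pl_lam
  obtain ⟨m₀, hm₀⟩ : ∃ m₀, m₀ = m₁ + m₂ + 1 := ⟨_, rfl⟩
  obtain ⟨D, hDdef⟩ : ∃ D, D = 2 * m₀ + 14 := ⟨_, rfl⟩
  refine ⟨3 * (8 * D), 1, ?_⟩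
  intro h hh η hη
  have hC₁' : (1 : ℝ) ≤ C₁ := by exact_mod_cast hC₁
  have hC₂' : (1 : ℝ) ≤ C₂ := by exact_mod_cast hC₂
  have hh0 : (1 : ℝ) ≤ h := by exact_mod_cast hh
  -- the small parameter
  obtain ⟨η₁, hη₁⟩ : ∃ η₁ : ℝ, η₁ = min η 1 := ⟨_, rfl⟩
  have hη₁0 : 0 < η₁ := by rw [hη₁]; exact lt_min hη one_pos
  have hη₁1 : η₁ ≤ 1 := by rw [hη₁]; exact min_le_right _ _
  have hη₁η : η₁ ≤ η := by rw [hη₁]; exact min_le_left _ _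
  obtain ⟨η', hη'⟩ : ∃ η' : ℝ, η' = η₁ / 16 := ⟨_, rfl⟩
  have hη'0 : 0 < η' := by rw [hη']; positivity
  have hη'2 : η' ≤ 1 / 2 := by rw [hη']; linarith
  have hη'3 : 32 * η' ^ 2 ≤ η / 8 := by
    rw [hη']
    nlinarith
  -- the threshold
  obtain ⟨T, hT⟩ : ∃ T : ℝ, T = 16 + 2 * h + 8 * (C₂ * (4 * (h : ℝ) ^ 2 + 1)) / η + 16 * C₁ / η +
    4 * (5 * C₁ + 1) / η + 225 / η' + 162 * C₁ + C₂ + 1000 * C₁ := ⟨_, rfl⟩
  have q1 : 0 ≤ 8 * (C₂ * (4 * (h : ℝ) ^ 2 + 1)) / η := by positivity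
  have q2 : 0 ≤ 16 * (C₁ : ℝ) / η := by positivity
  have q3 : 0 ≤ 4 * (5 * (C₁ : ℝ) + 1) / η := by positivity
  have q4 : 0 ≤ 225 / η' := by positivity
  have hT16 : 16 ≤ T := by rw [hT]; linarith
  refine ⟨⌈Real.exp T⌉₊, ?_⟩
  intro L K _ hL₀ hlogK hK2
  have hLexp : Real.exp T ≤ L := (Nat.le_ceil _).trans (by exact_mod_cast hL₀)
  have hLpos : 1 ≤ L := Nat.pos_of_ne_zero (NeZero.ne L)
  have hLr : (0 : ℝ) < L := by exact_mod_cast hLpos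
  obtain ⟨ℓ, hℓ⟩ : ∃ ℓ, ℓ = Real.log L := ⟨_, rfl⟩
  rw [← hℓ] at hlogK
  have hℓT : T ≤ ℓ := by
    rw [hℓ, Real.le_log_iff_exp_le hLr]
    exact hLexp
  have hℓ1 : 1 ≤ ℓ := by linarith
  have hL3 : 3 ≤ L := by
    have h1 : T + 1 ≤ Real.exp T := Real.add_one_le_exp T
    have h2 : (3 : ℝ) ≤ L := by linarith
    exact_mod_cast h2
  have hLr1 : (1 : ℝ) ≤ L := by exact_mod_cast hLpos
  have hLr3 : (3 : ℝ) ≤ L := by exact_mod_cast hL3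
  have hKpos : 1 ≤ K := by
    have h1 : (1 : ℝ) ≤ K := (one_le_pow₀ hℓ1).trans hlogK
    exact_mod_cast h1
  have hKr : (1 : ℝ) ≤ K := by exact_mod_cast hKpos
  -- the number Z
  obtain ⟨Z, hZ1, hZ2⟩ := Pool.Agent.Q297.LC.exists_root (8 * D) K (by omega)
  have hZℓ : ℓ ^ 3 < (Z : ℝ) + 1 := by
    have h1 : (ℓ ^ 3) ^ (8 * D) < ((Z : ℝ) + 1) ^ (8 * D) := by
      have h3 : (K : ℝ) < ((Z : ℝ) + 1) ^ (8 * D) := by exact_mod_cast hZ2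
      rw [← pow_mul]
      linarith
    exact lt_of_pow_lt_pow_left₀ (8 * D) (by positivity) h1
  have hℓ2 : 1 ≤ ℓ ^ 2 := one_le_pow₀ hℓ1
  have hZT : T * ℓ ^ 2 ≤ Z + 1 := by
    have : T * ℓ ^ 2 ≤ ℓ ^ 3 := by
      rw [show ℓ ^ 3 = ℓ * ℓ ^ 2 by ring]
      exact mul_le_mul_of_nonneg_right hℓT (by positivity)
    linarith only [this, hZℓ]
  have hZℓ2 : (T - 1) * ℓ ^ 2 ≤ Z := by
    have : (T - 1) * ℓ ^ 2 = T * ℓ ^ 2 - ℓ ^ 2 := by ring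
    linarith only [this, hZT, hℓ2]
  have hZT1 : T - 1 ≤ (Z : ℝ) :=
    (le_mul_of_one_le_right (by linarith only [hT16]) hℓ2).trans hZℓ2
  have hZ15 : (15 : ℝ) ≤ Z := by linarith
  have hZ15' : 15 ≤ Z := by exact_mod_cast hZ15
  have hZpos : 1 ≤ Z := by omega
  have hZr : (1 : ℝ) ≤ Z := by exact_mod_cast hZpos
  -- the eighth root of `K`
  obtain ⟨y, hy⟩ : ∃ y : ℝ, y = (K : ℝ) ^ ((1 : ℝ) / 8) := ⟨_, rfl⟩
  have hy0 : 0 ≤ y := by rw [hy]; positivity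
  have hy8 : (K : ℝ) = y ^ 8 := by
    rw [hy, ← Real.rpow_natCast, ← Real.rpow_mul (Nat.cast_nonneg K)]
    norm_num
  have hZy : (Z : ℝ) ^ D ≤ y := by
    have h1 : (Z : ℝ) ^ (8 * D) ≤ (K : ℝ) := by exact_mod_cast hZ1
    rw [hy8, mul_comm, pow_mul] at h1
    exact (pow_le_pow_iff_left₀ (by positivity) hy0 (by norm_num)).1 h1
  have hZpw : ∀ k, k ≤ D → (Z : ℝ) ^ k ≤ y := fun k hk =>
    (pow_le_pow_right₀ hZr hk).trans hZy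
  have hZy1 : (Z : ℝ) ≤ y := by
    have := hZpw 1 (by omega)
    rwa [pow_one] at this
  have hy15 : 15 ≤ y := hZ15.trans hZy1
  have hy1 : 1 ≤ y := by linarith
  have hypos : 0 < y := by linarith
  -- `y` and `L`
  have hyL16 : y ^ 16 ≤ (L : ℝ) ^ 3 := by
    have h1 : (K : ℝ) ^ 2 ≤ (L : ℝ) ^ 3 := by exact_mod_cast hK2
    rw [hy8, ← pow_mul] at h1
    exact h1
  have hyL5 : y ^ 5 ≤ L := by
    have h1 : (y ^ 5) ^ 3 ≤ (L : ℝ) ^ 3 := by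
      rw [← pow_mul]
      exact (pow_le_pow_right₀ hy1 (by norm_num)).trans hyL16
    exact (pow_le_pow_iff_left₀ (by positivity) hLr.le (by norm_num)).1 h1
  have hyL : y ≤ L := (le_self_pow₀ hy1 (by norm_num)).trans hyL5
  have hy4L : y ^ 4 ≤ L := (pow_le_pow_right₀ hy1 (by norm_num)).trans hyL5
  have hy4 : y ^ 4 ≤ (L : ℝ) ^ 2 / 2 := by
    have h1 : (L : ℝ) * 2 ≤ (L : ℝ) ^ 2 := by
      rw [sq]
      exact mul_le_mul_of_nonneg_left (by linarith) hLr.le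
    linarith
  have hKL2 : K ≤ L ^ 2 := by
    have h1 : (K : ℝ) ≤ (L : ℝ) ^ 2 := by
      have e1 : (K : ℝ) = (y ^ 4) ^ 2 := by rw [hy8]; ring
      rw [e1]
      exact pow_le_pow_left₀ (by positivity) hy4L 2
    exact_mod_cast h1
  -- the radius `r₁`
  obtain ⟨r₁, hr₁⟩ : ∃ r₁, r₁ = Z ^ m₀ := ⟨_, rfl⟩
  have hr₁r : (r₁ : ℝ) = (Z : ℝ) ^ m₀ := by rw [hr₁]; push_cast; rfl
  have hZr₁ : Z ≤ r₁ := by
    rw [hr₁]
    exact Nat.le_self_pow (by omega) Z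
  have hr₁1 : 1 ≤ r₁ := by omega
  have hr₁15 : 15 ≤ r₁ := by omega
  have hr₁3 : ((2 * r₁ + 1 : ℕ) : ℝ) ^ 2 ≤ 9 * (Z : ℝ) ^ (2 * m₀) := by
    have h1 : ((2 * r₁ + 1 : ℕ) : ℝ) ≤ 3 * r₁ := by
      have : 2 * r₁ + 1 ≤ 3 * r₁ := by omega
      exact_mod_cast this
    calc ((2 * r₁ + 1 : ℕ) : ℝ) ^ 2 ≤ (3 * (r₁ : ℝ)) ^ 2 := pow_le_pow_left₀ (by positivity) h1 2
      _ = 9 * (r₁ : ℝ) ^ 2 := by ring
      _ = 9 * (Z : ℝ) ^ (2 * m₀) := by rw [hr₁r, ← pow_mul, mul_comm m₀ 2]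
  -- `w` and `κ`
  have hLd : (0 : ℝ) < (L : ℝ) ^ 2 := by positivity
  obtain ⟨w, hw⟩ : ∃ w : ℝ, w = 1 - y ^ 4 / (L : ℝ) ^ 2 := ⟨_, rfl⟩
  have hy4p : (0 : ℝ) < y ^ 4 := by positivity
  have hw1 : w < 1 := by
    rw [hw]
    have : 0 < y ^ 4 / (L : ℝ) ^ 2 := by positivity
    linarith
  have hw0 : 0 ≤ w := by
    rw [hw]
    have : y ^ 4 / (L : ℝ) ^ 2 ≤ 1 / 2 := by
      rw [div_le_div_iff₀ hLd (by norm_num)]
      linarith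
    linarith
  have hLw : (L : ℝ) ^ 2 * (1 - w) = y ^ 4 := by
    rw [hw]
    field_simp
    ring
  obtain ⟨κ, hκ⟩ : ∃ κ : ℝ, κ = C₁ * ((Z : ℝ) ^ 10 / K + 1 / ((L : ℝ) ^ 2 * (1 - w))) :=
    ⟨_, rfl⟩
  have hKpos' : (0 : ℝ) < K := by linarith
  have hZ10 : (Z : ℝ) ^ 10 ≤ y := hZpw 10 (by omega)
  have hZK10 : (Z : ℝ) ^ 10 / K ≤ 1 / y ^ 7 := by
    rw [hy8, div_le_div_iff₀ (by positivity) (by positivity)]
    calc (Z : ℝ) ^ 10 * y ^ 7 ≤ y * y ^ 7 := by gcongr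
      _ = 1 * y ^ 8 := by ring
  have hκ0 : 0 ≤ κ := by
    rw [hκ, hLw]
    positivity
  have hκ1 : κ ≤ 2 * C₁ / y ^ 4 := by
    rw [hκ, hLw]
    have h1 : 1 / y ^ 7 ≤ 1 / y ^ 4 :=
      one_div_le_one_div_of_le (by positivity) (pow_le_pow_right₀ hy1 (by norm_num))
    calc (C₁ : ℝ) * ((Z : ℝ) ^ 10 / K + 1 / y ^ 4) ≤ C₁ * (1 / y ^ 4 + 1 / y ^ 4) :=
          mul_le_mul_of_nonneg_left (add_le_add (hZK10.trans h1) le_rfl) (by positivity)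
      _ = _ := by ring
  have hZT2 : 162 * (C₁ : ℝ) ≤ Z := by
    have : 162 * (C₁ : ℝ) ≤ T - 1 := by rw [hT]; linarith
    linarith
  have hkey : ((2 * r₁ + 1 : ℕ) : ℝ) ^ 2 * ((Z + 2) * κ) ≤ Real.exp (-1) := by
    have h1 : ((2 * r₁ + 1 : ℕ) : ℝ) ^ 2 * ((Z + 2) * κ) ≤
        9 * (Z : ℝ) ^ (2 * m₀) * ((3 * Z) * (2 * C₁ / y ^ 4)) := by
      have : (Z : ℝ) + 2 ≤ 3 * Z := by linarith
      gcongr
    have h2 : 9 * (Z : ℝ) ^ (2 * m₀) * ((3 * Z) * (2 * C₁ / y ^ 4)) =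
        54 * C₁ * (Z : ℝ) ^ (2 * m₀ + 1) / y ^ 4 := by
      rw [pow_succ]
      ring
    have h3 : 54 * C₁ * (Z : ℝ) ^ (2 * m₀ + 1) / y ^ 4 ≤ 1 / 3 := by
      rw [div_le_div_iff₀ hy4p (by norm_num)]
      calc 54 * C₁ * (Z : ℝ) ^ (2 * m₀ + 1) * 3 = (162 * C₁) * (Z : ℝ) ^ (2 * m₀ + 1) := by ring
        _ ≤ Z * (Z : ℝ) ^ (2 * m₀ + 1) := mul_le_mul_of_nonneg_right hZT2 (by positivity)
        _ = (Z : ℝ) ^ (2 * m₀ + 2) := by ring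
        _ ≤ y := hZpw _ (by omega)
        _ ≤ y ^ 4 := le_self_pow₀ hy1 (by norm_num)
        _ = 1 * y ^ 4 := (one_mul _).symm
    have h4 : (1 : ℝ) / 3 ≤ Real.exp (-1) := by
      rw [Real.exp_neg, one_div]
      refine inv_anti₀ (Real.exp_pos 1) ?_
      have := Real.exp_one_lt_d9
      linarith
    rw [h2] at h1
    linarith
  have hκZ : ((Z : ℝ) + 2) * κ ≤ 1 := by
    have h1 : 1 ≤ ((2 * r₁ + 1 : ℕ) : ℝ) ^ 2 := one_le_pow₀ (by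
      have : 1 ≤ 2 * r₁ + 1 := by omega
      exact_mod_cast this)
    have h2 : Real.exp (-1) ≤ 1 := Real.exp_le_one_iff.2 (by norm_num)
    have h3 : 0 ≤ ((Z : ℝ) + 2) * κ := by positivity
    exact (le_mul_of_one_le_left h3 h1).trans (hkey.trans h2)
  have hrL : (Z + 1) * (2 * r₁ + 1) ^ 2 ≤ L ^ 2 := by
    have h1 : ((Z : ℝ) + 1) * ((2 * r₁ + 1 : ℕ) : ℝ) ^ 2 ≤ (L : ℝ) ^ 2 := by
      calc ((Z : ℝ) + 1) * ((2 * r₁ + 1 : ℕ) : ℝ) ^ 2 ≤ (2 * Z) * (9 * (Z : ℝ) ^ (2 * m₀)) := by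
            have : (Z : ℝ) + 1 ≤ 2 * Z := by linarith
            gcongr
        _ = 18 * (Z * (Z : ℝ) ^ (2 * m₀)) := by ring
        _ ≤ (Z * Z) * (Z * (Z : ℝ) ^ (2 * m₀)) := by
            have : (18 : ℝ) ≤ Z * Z := by nlinarith
            gcongr
        _ = (Z : ℝ) ^ (2 * m₀ + 3) := by ring
        _ ≤ y := hZpw _ (by omega)
        _ ≤ L := hyL
        _ ≤ (L : ℝ) ^ 2 := le_self_pow₀ hLr1 (by norm_num)
    exact_mod_cast h1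
  have hZL : 8 * Z ^ m₀ ≤ L := by
    have h1 : 8 * (Z : ℝ) ^ m₀ ≤ L := by
      calc 8 * (Z : ℝ) ^ m₀ ≤ Z * (Z : ℝ) ^ m₀ := by
            have : (8 : ℝ) ≤ Z := by linarith
            gcongr
        _ = (Z : ℝ) ^ (m₀ + 1) := by ring
        _ ≤ y := hZpw _ (by omega)
        _ ≤ L := hyL
    exact_mod_cast h1
  have hZK : Z ^ m₀ ≤ K := (Nat.pow_le_pow_right hZpos (by omega)).trans hZ1
  have hm₁ : Z ^ m₁ ≤ Z ^ m₀ := Nat.pow_le_pow_right hZpos (by omega)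
  have hm₂ : Z ^ m₂ ≤ Z ^ m₀ := Nat.pow_le_pow_right hZpos (by omega)
  have hC₁Z : C₁ ≤ Z := by
    have h1 : (C₁ : ℝ) ≤ Z := by linarith
    exact_mod_cast h1
  have hC₂Z : C₂ ≤ Z := by
    have h1 : (C₂ : ℝ) ≤ Z := by
      have : (C₂ : ℝ) ≤ T - 1 := by rw [hT]; linarith
      linarith
    exact_mod_cast h1
  have h1000 : 1000 * C₁ * Real.log L ^ 2 ≤ Z := by
    rw [← hℓ]
    have h1 : 1000 * (C₁ : ℝ) ≤ T - 1 := by rw [hT]; linarith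
    calc 1000 * (C₁ : ℝ) * ℓ ^ 2 ≤ (T - 1) * ℓ ^ 2 := mul_le_mul_of_nonneg_right h1 (by positivity)
      _ ≤ Z := hZℓ2
  have hLZ : (L : ℝ) ^ 2 ≤ Real.exp Z := by
    rw [Pool.Agent.Q297.LC.pow_exp hLpos, Real.exp_le_exp]
    refine le_trans ?_ h1000
    rw [← hℓ]
    have hℓℓ : ℓ ≤ ℓ ^ 2 := by rw [sq]; exact le_mul_of_one_le_left (by linarith) hℓ1
    calc ((2 : ℕ) : ℝ) * ℓ ≤ 1000 * 1 * ℓ ^ 2 := by
          push_cast
          linarith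
      _ ≤ 1000 * C₁ * ℓ ^ 2 := by gcongr
  have hwZ : Real.exp (-(Z : ℝ)) ≤ 1 - w := by
    rw [hw]
    have h1 : Real.exp (-(Z : ℝ)) ≤ 1 / (L : ℝ) ^ 2 := by
      rw [Real.exp_neg, one_div]
      exact inv_anti₀ hLd hLZ
    have h2 : 1 / (L : ℝ) ^ 2 ≤ y ^ 4 / (L : ℝ) ^ 2 := by
      have : 1 ≤ y ^ 4 := one_le_pow₀ hy1
      gcongr
    linarith
  -- `l`
  obtain ⟨l, hl⟩ : ∃ l : ℕ, l = ⌈3 * ℓ⌉₊ := ⟨_, rfl⟩
  have hl3 : 3 * ℓ ≤ l := by rw [hl]; exact Nat.le_ceil _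
  have hl4 : (l : ℝ) ≤ 4 * ℓ := by
    have : (l : ℝ) < 3 * ℓ + 1 := by rw [hl]; exact Nat.ceil_lt_add_one (by linarith)
    linarith
  have hl1 : 1 ≤ l := by
    have : (1 : ℝ) ≤ l := by linarith
    exact_mod_cast this
  have hlK : (1 + 2 * K : ℝ) ≤ Real.exp l := by
    have h1 : (L : ℝ) ^ 3 ≤ Real.exp l := by
      rw [Pool.Agent.Q297.LC.pow_exp hLpos, Real.exp_le_exp, ← hℓ]
      exact_mod_cast hl3
    have h2 : (K : ℝ) ≤ (L : ℝ) ^ 2 := by exact_mod_cast hKL2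
    have h3 : 1 + 2 * (L : ℝ) ^ 2 ≤ (L : ℝ) ^ 3 := by nlinarith
    linarith
  -- the two packages
  obtain ⟨q₀, hq₀⟩ := hBTL Z hC₁Z L K Z r₁ Z ((Z - 1) / 2) l le_rfl le_rfl (by omega)
    (by rw [hr₁]; exact hm₁) (by omega) (by omega) hKL2 hl1 hlK
  obtain ⟨q₁, hq₁⟩ := hLAM Z hC₂Z L K Z r₁ Z (2 * ((Z - 1) / 2)) le_rfl le_rfl (by omega)
    (by rw [hr₁]; exact hm₂) (by omega) (by omega) hKL2 hLZ
  refine ⟨max (max q₀ q₁) 2, ?_⟩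
  intro q hq σ hσ δ hδ1 hδ2
  have hqa : q₀ ≤ q := ((le_max_left _ _).trans (le_max_left _ _)).trans hq
  have hqb : q₁ ≤ q := ((le_max_right _ _).trans (le_max_left _ _)).trans hq
  have hqc : (2 : ℝ) ≤ q := by exact_mod_cast (le_max_right _ _).trans hq
  have hδ0 : 0 ≤ δ := by
    by_contra hcon
    push Not at hcon
    have : δ * q ≤ 0 := mul_nonpos_of_nonpos_of_nonneg hcon.le (Nat.cast_nonneg _)
    linarith only [this, hδ1]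
  have hδle : δ ≤ 1 := by
    by_contra hcon
    push Not at hcon
    have h0 : (0 : ℝ) < q := by linarith only [hqc]
    have : (q : ℝ) < δ * q := lt_mul_of_one_lt_left h0 hcon
    linarith only [this, hδ2, hqc]
  obtain ⟨b1, b2⟩ := hq₀ q hqa σ hσ δ hδ1 hδ2 w hw0 hw1 hwZ κ hκ hκZ
  have b4 := pl_fail (C₁ := C₁) (L := L) (K := K) (Z := Z) (r := r₁) (l := l)
    (κ := κ) hC₁ hLpos (by rw [← hℓ]; exact hℓ1) hl1 (by rw [← hℓ]; exact hl4) h1000 hKL2 hrL hκ0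
    hkey
  have b5 := b1.trans b4
  -- `r`
  obtain ⟨s, hs⟩ : ∃ s, s = Nat.sqrt K := ⟨_, rfl⟩
  have hsq : Real.sqrt K = y ^ 4 := by
    rw [hy8, show y ^ 8 = (y ^ 4) ^ 2 by ring, Real.sqrt_sq (by positivity)]
  have hs1 : (s : ℝ) ≤ y ^ 4 := by rw [hs, ← hsq]; exact Real.nat_sqrt_le_real_sqrt
  have hs2 : y ^ 4 < s + 1 := by rw [hs, ← hsq]; exact Real.real_sqrt_lt_nat_sqrt_succ
  have hhT : 2 * (h : ℝ) ≤ Z := by
    have : 2 * (h : ℝ) ≤ T - 1 := by rw [hT]; linarith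
    linarith
  have hsh : h ≤ s := by
    have e1 : (h : ℝ) < s + 1 := by
      have : y ≤ y ^ 4 := le_self_pow₀ hy1 (by norm_num)
      linarith
    have e3 : h < s + 1 := by exact_mod_cast e1
    omega
  have hr1 : 1 ≤ Nat.sqrt K / h := by
    rw [← hs]
    exact Nat.div_pos hsh (by omega)
  have hrLL : Nat.sqrt K / h ≤ L := by
    rw [← hs]
    refine (Nat.div_le_self _ _).trans ?_
    have : (s : ℝ) ≤ L := hs1.trans hy4L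
    exact_mod_cast this
  refine ⟨hr1, hrLL, ?_⟩
  obtain ⟨r, hr⟩ : ∃ r, r = Nat.sqrt K / h := ⟨_, rfl⟩
  rw [← hr] at hr1 hrLL ⊢
  have hrh : y ^ 4 ≤ 2 * h * r := by
    have e1 : s < s / h * h + h := Nat.lt_div_mul_add (by omega)
    rw [hs, ← hr, ← hs] at e1
    have e2 : s + 1 ≤ 2 * h * r := by
      calc s + 1 ≤ r * h + h := e1
        _ ≤ r * h + r * h := Nat.add_le_add_left (Nat.le_mul_of_pos_left _ hr1) _
        _ = 2 * h * r := by ring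
    have e3 : (s : ℝ) + 1 ≤ 2 * h * r := by exact_mod_cast e2
    linarith only [e3, hs2]
  have hr0 : (0 : ℝ) < r := by exact_mod_cast hr1
  -- `r₁ ≤ r`
  have hr₁le : r₁ ≤ r := by
    have e1 : (Z : ℝ) * (r₁ : ℝ) ≤ Z * r := by
      calc (Z : ℝ) * (r₁ : ℝ) = (Z : ℝ) ^ (m₀ + 1) := by rw [hr₁r]; ring
        _ ≤ y := hZpw _ (by omega)
        _ ≤ y ^ 4 := le_self_pow₀ hy1 (by norm_num)
        _ ≤ 2 * h * r := hrh
        _ ≤ Z * r := by gcongr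
    have e2 : (r₁ : ℝ) ≤ r := le_of_mul_le_mul_left e1 (by linarith)
    exact_mod_cast e2
  obtain ⟨Λ, hΛ⟩ : ∃ Λ : ℝ, Λ = C₂ * (1 / (r : ℝ) ^ 2 + (Z : ℝ) ^ 10 / K) := ⟨_, rfl⟩
  have hΛ0 : 0 ≤ Λ := by
    rw [hΛ]
    positivity
  obtain ⟨n, hn⟩ : ∃ n, n = K * (q * ms 2 L) := ⟨_, rfl⟩
  obtain ⟨B, hB⟩ : ∃ B : (ℕ → Bool) → Finset (Fin 2 → ZMod L) → Prop, B = fun ω A =>
    Gd σ q K Z r₁ Z (2 * ((Z - 1) / 2)) ω A := ⟨_, rfl⟩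
  have hBm : ∀ A, Rmeas (ed ∘ σ) n A (fun ω => B ω A) := by
    intro A
    rw [hB, hn]
    exact (Pool.Agent.Q154.LC.gdm 2 L σ q K Z r₁ Z (2 * ((Z - 1) / 2))).1 A
  have hdens : ∀ ω A, B ω A → ∀ v, ((A ∩ box v r).card : ℝ) ≤ η' * (r : ℝ) ^ 2 := by
    intro ω A hBA v
    rw [hB] at hBA
    have hball : ∀ v, (A ∩ bal v r₁).card ≤ Z := by
      intro v
      by_contra hcon
      push Not at hcon
      refine hBA.1 ⟨0, by omega, v, ?_⟩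
      rw [Nat.zero_mul]
      have : A.image (gp (ed ∘ σ) ω 0) = A := by
        have : (gp (ed ∘ σ) ω 0) = 1 := rfl
        rw [this]
        simp
      rw [this]
      exact hcon
    have h1 := lc_cnt 2 L (by norm_num) hL3 A r₁ (2 * r) Z (by omega) hball v
    have h2 : (A ∩ box v r).card ≤ Z * (2 * (2 * r / (r₁ / 2)) + 3) ^ 2 :=
      (Finset.card_le_card (Finset.inter_subset_inter le_rfl (box_sub v r))).trans h1
    have h3 : r₁ * (2 * (2 * r / (r₁ / 2)) + 3) ≤ 15 * r := by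
      have h4 : r₁ ≤ 3 * (r₁ / 2) := by omega
      have h5 : r₁ / 2 * (2 * r / (r₁ / 2)) ≤ 2 * r := Nat.mul_div_le _ _
      calc r₁ * (2 * (2 * r / (r₁ / 2)) + 3) = 2 * (r₁ * (2 * r / (r₁ / 2))) + 3 * r₁ := by ring
        _ ≤ 2 * ((3 * (r₁ / 2)) * (2 * r / (r₁ / 2))) + 3 * r₁ := by gcongr
        _ = 6 * (r₁ / 2 * (2 * r / (r₁ / 2))) + 3 * r₁ := by ring
        _ ≤ 6 * (2 * r) + 3 * r := by gcongr
        _ = 15 * r := by ring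
    have h6 : r₁ ^ 2 * (A ∩ box v r).card ≤ 225 * Z * r ^ 2 := by
      calc r₁ ^ 2 * (A ∩ box v r).card ≤ r₁ ^ 2 * (Z * (2 * (2 * r / (r₁ / 2)) + 3) ^ 2) := by
            gcongr
        _ = Z * (r₁ * (2 * (2 * r / (r₁ / 2)) + 3)) ^ 2 := by ring
        _ ≤ Z * (15 * r) ^ 2 := by gcongr
        _ = 225 * Z * r ^ 2 := by ring
    have h7 : (r₁ : ℝ) ^ 2 * ((A ∩ box v r).card : ℝ) ≤ 225 * Z * (r : ℝ) ^ 2 := by exact_mod_cast h6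
    have h8 : 225 ≤ η' * Z := by
      have : 225 / η' ≤ Z := by
        have : 225 / η' ≤ T - 1 := by rw [hT]; linarith
        linarith
      rwa [div_le_iff₀ hη'0, mul_comm] at this
    have hr₁p : (0 : ℝ) < (r₁ : ℝ) ^ 2 := by
      have : (0 : ℝ) < r₁ := by exact_mod_cast (by omega : 0 < r₁)
      positivity
    refine le_of_mul_le_mul_left (h7.trans ?_) hr₁p
    have h9 : (Z : ℝ) ≤ r₁ := by exact_mod_cast hZr₁
    calc 225 * (Z : ℝ) * (r : ℝ) ^ 2 ≤ (η' * Z) * Z * (r : ℝ) ^ 2 := by gcongr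
      _ = η' * (Z : ℝ) ^ 2 * (r : ℝ) ^ 2 := by ring
      _ ≤ η' * (r₁ : ℝ) ^ 2 * (r : ℝ) ^ 2 := by gcongr
      _ = _ := by ring
  have hres : ∀ ω A, Q292.LC.Inv (gp (ed ∘ σ) ω n) A → B ω A → ∀ z,
      phz r A z ⬝ᵥ ((1 - w • (dg (univ \ A) * TT (ed ∘ σ) ω A δ n))⁻¹ *ᵥ phz r A z) ≤ Λ := by
    intro ω A hI hBA z
    have hd := hdens ω A hBA
    rw [hB] at hBA
    rw [hn] at hI ⊢
    rw [hΛ]
    refine hq₁ q hqb σ hσ δ hδ1 hδ2 ω A hBA hI r hr1 hrLL ?_ w hw0 hw1 hwZ z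
    intro v
    have h1 := hd v
    have h2 : (2 * (A ∩ box v r).card : ℝ) ≤ (r : ℝ) ^ 2 := by
      have : η' * (r : ℝ) ^ 2 ≤ 1 / 2 * (r : ℝ) ^ 2 := by gcongr
      linarith
    exact_mod_cast h2
  rw [← hn] at b5 b2 ⊢
  have b5' : PW (ed ∘ σ) n δ w (fun ω A => ¬ B ω A) ≤ (5 * C₁ + 1) * (1 / (L : ℝ)) := by
    rw [hB]
    exact b5
  have b2' : ∀ x, PW (ed ∘ σ) n δ w (fun ω A => x ∈ A ∧ B ω A) ≤ κ := by
    rw [hB]
    exact b2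
  have hmain := pl_dev_exp (ed ∘ σ) n δ w η' Λ κ
    ((5 * C₁ + 1) * (1 / (L : ℝ))) r B hδ0 hδle hw0 hw1 hr1 hrLL hη'0.le hη'2 hΛ0
    hBm hdens hres b5' b2'
  refine hmain.trans ?_
  -- the four terms
  have t1 : 2 * ((L : ℝ) ^ 2 * ((1 - w) * Λ)) ≤ η / 4 := by
    have e1 : (L : ℝ) ^ 2 * ((1 - w) * Λ) = y ^ 4 * Λ := by
      rw [← mul_assoc, hLw]
    have e2 : 1 / (r : ℝ) ^ 2 ≤ 4 * (h : ℝ) ^ 2 / y ^ 8 := by
      rw [div_le_div_iff₀ (by positivity) (by positivity)]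
      calc (1 : ℝ) * y ^ 8 = (y ^ 4) ^ 2 := by ring
        _ ≤ (2 * (h : ℝ) * r) ^ 2 := pow_le_pow_left₀ (by positivity) hrh 2
        _ = 4 * (h : ℝ) ^ 2 * (r : ℝ) ^ 2 := by ring
    have e3 : 4 * (h : ℝ) ^ 2 / y ^ 8 ≤ 4 * (h : ℝ) ^ 2 / y ^ 5 := by
      have : y ^ 5 ≤ y ^ 8 := pow_le_pow_right₀ hy1 (by norm_num)
      gcongr
    have e4 : 1 / y ^ 7 ≤ 1 / y ^ 5 :=
      one_div_le_one_div_of_le (by positivity) (pow_le_pow_right₀ hy1 (by norm_num))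
    have e5 : Λ ≤ C₂ * (4 * (h : ℝ) ^ 2 + 1) / y ^ 5 := by
      rw [hΛ, mul_div_assoc]
      refine mul_le_mul_of_nonneg_left ?_ (by positivity)
      rw [add_div]
      linarith
    have e6 : y ^ 4 * (C₂ * (4 * (h : ℝ) ^ 2 + 1) / y ^ 5) = C₂ * (4 * (h : ℝ) ^ 2 + 1) / y := by
      field_simp
    have e7 : C₂ * (4 * (h : ℝ) ^ 2 + 1) / y ≤ η / 8 := by
      rw [div_le_div_iff₀ hypos (by norm_num)]
      have e8 : 8 * (C₂ * (4 * (h : ℝ) ^ 2 + 1)) / η ≤ y := by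
        have : 8 * (C₂ * (4 * (h : ℝ) ^ 2 + 1)) / η ≤ T - 1 := by rw [hT]; linarith
        linarith
      rw [div_le_iff₀ hη] at e8
      linarith
    rw [e1]
    calc 2 * (y ^ 4 * Λ) ≤ 2 * (y ^ 4 * (C₂ * (4 * (h : ℝ) ^ 2 + 1) / y ^ 5)) := by gcongr
      _ = 2 * (C₂ * (4 * (h : ℝ) ^ 2 + 1) / y) := by rw [e6]
      _ ≤ 2 * (η / 8) := by linarith
      _ = η / 4 := by ring
  have t2 : 2 * κ ≤ η / 4 := by
    have e1 : 2 * (C₁ : ℝ) / y ^ 4 ≤ 2 * C₁ / y := by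
      have : y ≤ y ^ 4 := le_self_pow₀ hy1 (by norm_num)
      gcongr
    have e2 : 2 * (C₁ : ℝ) / y ≤ η / 8 := by
      rw [div_le_div_iff₀ hypos (by norm_num)]
      have e7 : 16 * (C₁ : ℝ) / η ≤ y := by
        have : 16 * (C₁ : ℝ) / η ≤ T - 1 := by rw [hT]; linarith
        linarith
      rw [div_le_iff₀ hη] at e7
      linarith
    linarith
  have t3 : (5 * C₁ + 1) * (1 / (L : ℝ)) ≤ η / 4 := by
    have e2 : (5 * (C₁ : ℝ) + 1) * (1 / (L : ℝ)) ≤ (5 * C₁ + 1) * (1 / y) := by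
      have := one_div_le_one_div_of_le hypos hyL
      gcongr
    have e3 : (5 * (C₁ : ℝ) + 1) * (1 / y) ≤ η / 4 := by
      rw [mul_one_div, div_le_div_iff₀ hypos (by norm_num)]
      have e7 : 4 * (5 * (C₁ : ℝ) + 1) / η ≤ y := by
        have : 4 * (5 * (C₁ : ℝ) + 1) / η ≤ T - 1 := by rw [hT]; linarith
        linarith
      rw [div_le_iff₀ hη] at e7
      linarith
    linarith
  linarith

end Pool.Agent.U153
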