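import Pool.Agent.Q53.LC.Swd

/-!
# Planar project, part 1: decrease of the square norm in one sweep, off a set which contains all
positions visited by the particles of the environment
-/

set_option autoImplicit false

namespace Pool.Agent.U153

open Finset Equiv Matrix Q292.LC
open Pool.Agent.Q53.LC

section gen

variable {V : Type} [DecidableEq V] [Fintype V]

theorem pl_kv_univ (e : ℕ → V × V) (ω : ℕ → Bool) (A : Finset V) (δ : ℝ) (g : V → ℝ) (n : ℕ) :
    kv e ω A δ univ g n = vecMul g (TT e ω A δ n) := by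
  induction n with
  | zero =>
    change g = vecMul g 1
    rw [Matrix.vecMul_one]
  | succ n ih =>
    funext y
    rw [kv_succ_in e ω A δ univ g n y (Finset.mem_univ y), ih]
    change vecMul (vecMul g (TT e ω A δ n)) (Mx e ω A δ n) y = vecMul g (TT e ω A δ n * Mx e ω A δ n) y
    rw [Matrix.vecMul_vecMul]

end gen

theorem pl_swd {d L : ℕ} [NeZero L] (hd : 1 ≤ d) {σ : ℕ → (Fin d → ZMod L) × Fin d}
    (hσ : Per σ) (ω : ℕ → Bool) (A D : Finset (Fin d → ZMod L)) (δ : ℝ)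
    (g : (Fin d → ZMod L) → ℝ) (hδ : 0 < δ) (hδ2 : 16 * d * δ ≤ 1)
    (hD : ∀ k ≤ ms d L, ∀ a ∈ A, gp (ed ∘ σ) ω k a ∈ D) :
    ∑ y, (vecMul g (TT (ed ∘ σ) ω A δ (ms d L)) y) ^ 2 +
    δ / 2 * ∑ i : (Fin d → ZMod L) × Fin d, (if (ed i).1 ∉ D ∧ (ed i).2 ∉ D then
      (g (ed i).1 - g (ed i).2) ^ 2 else 0) ≤ ∑ y, (g y) ^ 2 := by
  obtain ⟨e, he⟩ : ∃ e : ℕ → (Fin d → ZMod L) × (Fin d → ZMod L), e = ed ∘ σ := ⟨_, rfl⟩
  have hek : ∀ k, e k = ed (σ k) := fun k => by rw [he]; rfl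
  rw [← he] at hD ⊢
  have hd' : (1 : ℝ) ≤ d := by exact_mod_cast hd
  obtain ⟨M, hM⟩ : ∃ M, M = ms d L := ⟨_, rfl⟩
  rw [← hM] at hD ⊢
  rw [← pl_kv_univ]
  -- touched steps with coin true stay in `D`
  have hmove : ∀ k < M, ω k = true → tch e ω A k → (e k).1 ∈ D ∧ (e k).2 ∈ D := by
    rintro k hk hω ⟨a, ha, h⟩
    have h0 := hD k hk.le a ha
    have h1 := hD (k + 1) hk a ha
    have h2 : gp e ω (k + 1) a = swap (e k).1 (e k).2 (gp e ω k a) := by
      change (if ω k then swap (e k).1 (e k).2 * gp e ω k else gp e ω k) a = _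
      rw [if_pos hω]
      rfl
    rw [h2] at h1
    rcases h with h | h
    · rw [h] at h0 h1
      rw [swap_apply_left] at h1
      exact ⟨h0, h1⟩
    · rw [h] at h0 h1
      rw [swap_apply_right] at h1
      exact ⟨h1, h0⟩
  have hfree : ∀ k < M, (e k).1 ∉ D → (e k).2 ∉ D → ¬ tch e ω A k := by
    rintro k hk h1 h2 ⟨a, ha, h5⟩
    have h0 := hD k hk.le a ha
    rcases h5 with h5 | h5
    · rw [h5] at h0
      exact h1 h0
    · rw [h5] at h0
      exact h2 h0
  obtain ⟨G, hG⟩ : ∃ G : ℕ → (Fin d → ZMod L) → ℝ, G = kv e ω A δ univ g := ⟨_, rfl⟩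
  obtain ⟨w, hw⟩ : ∃ w : ℕ → ℝ, w = wv e ω A δ univ g := ⟨_, rfl⟩
  have hw0 : ∀ j, 0 ≤ w j := fun j => hw ▸ wv_nonneg e ω A δ univ g j
  -- variation
  have hvar1 : ∀ j < M, ∀ y, y ∉ D → |G j y - G (j + 1) y| ≤ δ * (inc (e j) y * w j) := by
    intro j hj y hy
    have hr : 0 ≤ δ * (inc (e j) y * w j) :=
      mul_nonneg hδ.le (mul_nonneg (inc_nonneg _ _) (hw0 j))
    rw [hG, kv_succ_in e ω A δ univ g j y (Finset.mem_univ y), vecMul_Mx]
    split_ifs with h1 h2
    · obtain ⟨h4, h5⟩ := hmove j hj h2 h1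
      have h6 : (e j).1 ≠ y := fun h => hy (h ▸ h4)
      have h7 : (e j).2 ≠ y := fun h => hy (h ▸ h5)
      rw [swap_apply_of_ne_of_ne h6.symm h7.symm, sub_self, abs_zero]
      exact hr
    · rw [sub_self, abs_zero]
      exact hr
    · have h3 : w j = |G j (e j).1 - G j (e j).2| := by
        rw [hw, hG]
        unfold wv
        rw [if_neg h1]
      have h4 : kv e ω A δ univ g j y - ((1 - δ) * kv e ω A δ univ g j y +
          δ * kv e ω A δ univ g j (swap (e j).1 (e j).2 y)) =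
          δ * (kv e ω A δ univ g j y - kv e ω A δ univ g j (swap (e j).1 (e j).2 y)) := by ring
      rw [h4, abs_mul, abs_of_pos hδ]
      apply mul_le_mul_of_nonneg_left _ hδ.le
      by_cases h5 : (e j).1 = y
      · rw [← h5, swap_apply_left]
        unfold inc
        rw [if_pos rfl, h3, hG]
        have : (0 : ℝ) ≤ if (e j).2 = (e j).1 then 1 else 0 := by split_ifs <;> norm_num
        nlinarith [abs_nonneg (kv e ω A δ univ g j (e j).1 - kv e ω A δ univ g j (e j).2)]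
      · by_cases h6 : (e j).2 = y
        · rw [← h6, swap_apply_right]
          unfold inc
          rw [if_pos rfl, h3, hG, abs_sub_comm]
          have : (0 : ℝ) ≤ if (e j).1 = (e j).2 then 1 else 0 := by split_ifs <;> norm_num
          nlinarith [abs_nonneg (kv e ω A δ univ g j (e j).1 - kv e ω A δ univ g j (e j).2)]
        · rw [swap_apply_of_ne_of_ne (Ne.symm h5) (Ne.symm h6), sub_self, abs_zero]
          exact mul_nonneg (inc_nonneg _ _) (hw0 j)
  obtain ⟨S, hS⟩ : ∃ S : (Fin d → ZMod L) → ℝ, ∀ y, S y = ∑ j ∈ Finset.range M, inc (e j) y * w j :=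
    ⟨_, fun _ => rfl⟩
  have hvar2 : ∀ n ≤ M, ∀ y, y ∉ D →
      |g y - G n y| ≤ δ * ∑ j ∈ Finset.range n, inc (e j) y * w j := by
    intro n
    induction n with
    | zero =>
      intro _ y _
      rw [hG]
      simp [kv]
    | succ n ih =>
      intro hn y hy
      have h1 := ih (by omega) y hy
      have h2 := hvar1 n (by omega) y hy
      rw [Finset.sum_range_succ, mul_add]
      have h3 : g y - G (n + 1) y = (g y - G n y) + (G n y - G (n + 1) y) := by ring
      rw [h3]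
      exact (abs_add_le _ _).trans (add_le_add h1 h2)
  have hvar : ∀ n ≤ M, ∀ y, y ∉ D → |g y - G n y| ≤ δ * S y := by
    intro n hn y hy
    refine (hvar2 n hn y hy).trans (mul_le_mul_of_nonneg_left ?_ hδ.le)
    rw [hS]
    exact Finset.sum_le_sum_of_subset_of_nonneg (Finset.range_mono hn)
      fun j _ _ => mul_nonneg (inc_nonneg _ _) (hw0 j)
  obtain ⟨Q, hQ⟩ : ∃ Q : (Fin d → ZMod L) → ℝ, ∀ y,
      Q y = ∑ j ∈ Finset.range M, inc (e j) y * (w j) ^ 2 := ⟨_, fun _ => rfl⟩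
  have hdeg : ∀ y, ∑ j ∈ Finset.range M, inc (e j) y = 2 * d := by
    intro y
    rw [hM, he]
    exact sum_deg_sweep hσ y
  have hSQ : ∀ y, (S y) ^ 2 ≤ 2 * d * Q y := by
    intro y
    rw [hS, hQ, ← hdeg y]
    apply Finset.sum_sq_le_sum_mul_sum_of_sq_le_mul
    · intro j _
      exact inc_nonneg _ _
    · intro j _
      exact mul_nonneg (inc_nonneg _ _) (sq_nonneg _)
    · intro j _
      exact le_of_eq (by ring)
  -- the terms
  have hterm : ∀ k < M, (if (e k).1 ∉ D ∧ (e k).2 ∉ D then (g (e k).1 - g (e k).2) ^ 2 else 0) ≤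
      2 * (w k) ^ 2 + 8 * d * δ ^ 2 * (Q (e k).1 + Q (e k).2) := by
    intro k hk
    have hQ0 : ∀ y, 0 ≤ Q y := fun y => by
      rw [hQ]
      exact Finset.sum_nonneg fun j _ => mul_nonneg (inc_nonneg _ _) (sq_nonneg _)
    have hr : 0 ≤ 2 * (w k) ^ 2 + 8 * d * δ ^ 2 * (Q (e k).1 + Q (e k).2) := by
      have := hQ0 (e k).1
      have := hQ0 (e k).2
      positivity
    split_ifs with h1
    · have h3 := hfree k hk h1.1 h1.2
      have h4 : w k = |G k (e k).1 - G k (e k).2| := by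
        rw [hw, hG]
        unfold wv
        rw [if_neg h3]
      have h5 := hvar k hk.le (e k).1 h1.1
      have h6 := hvar k hk.le (e k).2 h1.2
      have h7 : |g (e k).1 - g (e k).2| ≤ w k + (δ * S (e k).1 + δ * S (e k).2) := by
        have h8 : g (e k).1 - g (e k).2 = (G k (e k).1 - G k (e k).2) +
            ((g (e k).1 - G k (e k).1) - (g (e k).2 - G k (e k).2)) := by ring
        rw [h8, h4]
        refine (abs_add_le _ _).trans (add_le_add le_rfl ?_)
        exact (abs_sub _ _).trans (add_le_add h5 h6)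
      have h8 : (g (e k).1 - g (e k).2) ^ 2 ≤ (w k + (δ * S (e k).1 + δ * S (e k).2)) ^ 2 := by
        rw [← sq_abs]
        exact pow_le_pow_left₀ (abs_nonneg _) h7 2
      have h9 := hSQ (e k).1
      have h10 := hSQ (e k).2
      have h11 : (w k + (δ * S (e k).1 + δ * S (e k).2)) ^ 2 ≤
          2 * (w k) ^ 2 + 4 * δ ^ 2 * ((S (e k).1) ^ 2 + (S (e k).2) ^ 2) := by
        nlinarith [sq_nonneg (w k - (δ * S (e k).1 + δ * S (e k).2)),
          sq_nonneg (δ * S (e k).1 - δ * S (e k).2)]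
      have h12 : 4 * δ ^ 2 * ((S (e k).1) ^ 2 + (S (e k).2) ^ 2) ≤
          4 * δ ^ 2 * (2 * d * Q (e k).1 + 2 * d * Q (e k).2) :=
        mul_le_mul_of_nonneg_left (add_le_add h9 h10) (by positivity)
      calc (g (e k).1 - g (e k).2) ^ 2 ≤ _ := h8
        _ ≤ _ := h11
        _ ≤ 2 * (w k) ^ 2 + 4 * δ ^ 2 * (2 * d * Q (e k).1 + 2 * d * Q (e k).2) := by linarith
        _ = _ := by ring
    · exact hr
  obtain ⟨W, hW⟩ : ∃ W : ℝ, W = ∑ j ∈ Finset.range M, (w j) ^ 2 := ⟨_, rfl⟩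
  have hQsum : ∑ k ∈ Finset.range M, (Q (e k).1 + Q (e k).2) = 4 * d * W := by
    simp only [hQ]
    have h1 : ∀ k, ∑ j ∈ Finset.range M, inc (e j) (e k).1 * w j ^ 2 +
        ∑ j ∈ Finset.range M, inc (e j) (e k).2 * w j ^ 2 =
        ∑ j ∈ Finset.range M, (inc (e k) (e j).1 + inc (e k) (e j).2) * w j ^ 2 := by
      intro k
      rw [← Finset.sum_add_distrib]
      refine Finset.sum_congr rfl fun j _ => ?_
      rw [← add_mul]
      congr 1
      unfold inc
      simp only [eq_comm (a := (e j).1), eq_comm (a := (e j).2)]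
      ring
    simp only [h1]
    rw [Finset.sum_comm]
    have h2 : ∀ j, ∑ k ∈ Finset.range M, (inc (e k) (e j).1 + inc (e k) (e j).2) * w j ^ 2 =
        4 * d * w j ^ 2 := by
      intro j
      rw [← Finset.sum_mul, Finset.sum_add_distrib, hdeg, hdeg]
      ring
    simp only [h2]
    rw [← Finset.mul_sum, ← hW]
  have hW0 : 0 ≤ W := by
    rw [hW]
    exact Finset.sum_nonneg fun j _ => sq_nonneg _
  have hsum : ∑ i : (Fin d → ZMod L) × Fin d, (if (ed i).1 ∉ D ∧ (ed i).2 ∉ D then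
      (g (ed i).1 - g (ed i).2) ^ 2 else 0) ≤ 3 * W := by
    rw [← sum_sweep hσ (fun i => if (ed i).1 ∉ D ∧ (ed i).2 ∉ D then
      (g (ed i).1 - g (ed i).2) ^ 2 else 0), ← hM]
    have h1 : ∑ k ∈ Finset.range M, (if (ed (σ k)).1 ∉ D ∧ (ed (σ k)).2 ∉ D then
      (g (ed (σ k)).1 - g (ed (σ k)).2) ^ 2 else 0) ≤
      ∑ k ∈ Finset.range M, (2 * (w k) ^ 2 + 8 * d * δ ^ 2 * (Q (e k).1 + Q (e k).2)) := by
      refine Finset.sum_le_sum fun k hk => ?_
      rw [← hek]
      exact hterm k (Finset.mem_range.1 hk)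
    refine h1.trans ?_
    rw [Finset.sum_add_distrib, ← Finset.mul_sum, ← Finset.mul_sum, hQsum, ← hW]
    have h2 : (16 * d * δ) ^ 2 ≤ 1 := by
      have : 0 ≤ 16 * d * δ := by positivity
      nlinarith
    have h3 : 8 * d * δ ^ 2 * (4 * d * W) = (16 * d * δ) ^ 2 * W / 8 := by ring
    rw [h3]
    nlinarith
  have hδ3 : δ ≤ 1 / 16 := by nlinarith
  have hfin := kv_sq e ω A δ univ g M
  rw [← hw, ← hW] at hfin
  have h1 : δ / 2 * ∑ i : (Fin d → ZMod L) × Fin d, (if (ed i).1 ∉ D ∧ (ed i).2 ∉ D then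
      (g (ed i).1 - g (ed i).2) ^ 2 else 0) ≤ δ / 2 * (3 * W) :=
    mul_le_mul_of_nonneg_left hsum (by positivity)
  have h2 : δ / 2 * (3 * W) ≤ 2 * δ * (1 - δ) * W := by
    have h3 : 0 ≤ δ * W := mul_nonneg hδ.le hW0
    nlinarith
  linarith

end Pool.Agent.U153
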