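import Pool.Agent.U153.PlNash
import Pool.Agent.U153.PlSwd
import Pool.Agent.Q257.LC.KerU

/-!
# Planar project, part 4: one unit of the evolution in a sparse environment
-/

set_option autoImplicit false
set_option linter.unusedSectionVars false

namespace Pool.Agent.U153

open Finset Equiv Matrix Q292.LC
open Pool.Agent.Q257.LC (td_comm td_tri mem_bal bal_mono vecMul_sq_le sum_vecMul_sq_le sum_vecMul
  vecMul_nonneg SMOb)
open Pool.Agent.Q151.LC (jumps_mono jumps_add td_jumps sh_per)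
open Pool.Agent.Q277.LC (gp_window jumps_window card_image_inter)

section gen

variable {V : Type} [DecidableEq V]

/-- positions visited in the steps `[i, i + m]` -/
def Vis (e : ℕ → V × V) (ω : ℕ → Bool) (A : Finset V) (i m : ℕ) : Finset V :=
  A.biUnion fun a => (Finset.range (m + 1)).image fun k => gp e ω (i + k) a

theorem card_visit (e : ℕ → V × V) (ω : ℕ → Bool) (a : V) (i m : ℕ) :
    ((Finset.range (m + 1)).image fun k => gp e ω (i + k) a).card ≤ jumps e ω i (i + m) a + 1 := by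
  induction m with
  | zero => simp
  | succ m ih =>
    rw [Finset.range_add_one, Finset.image_insert,
      jumps_add e ω a (i := i) (j := i + m) (l := i + (m + 1)) (by omega) (by omega)]
    by_cases h : ω (i + m) = true ∧ tch e ω {a} (i + m)
    · have h3 : 1 ≤ jumps e ω (i + m) (i + (m + 1)) a := by
        unfold jumps
        rw [Nat.one_le_iff_ne_zero, Ne, Finset.card_eq_zero, ← Ne,
          ← Finset.nonempty_iff_ne_empty]
        exact ⟨i + m, Finset.mem_filter.2 ⟨Finset.mem_Ico.2 ⟨le_refl _, by omega⟩, h⟩⟩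
      have := Finset.card_insert_le (gp e ω (i + (m + 1)) a)
        ((Finset.range (m + 1)).image fun k => gp e ω (i + k) a)
      omega
    · have h4 : gp e ω (i + (m + 1)) a = gp e ω (i + m) a := by
        change (if ω (i + m) then swap (e (i + m)).1 (e (i + m)).2 * gp e ω (i + m)
          else gp e ω (i + m)) a = _
        split_ifs with h5
        · have h6 : ¬ tch e ω {a} (i + m) := fun h7 => h ⟨h5, h7⟩
          rw [Pool.Agent.Q151.LC.tch_single] at h6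
          push Not at h6
          rw [Perm.mul_apply, swap_apply_of_ne_of_ne h6.1 h6.2]
        · rfl
      rw [h4, Finset.insert_eq_of_mem]
      · omega
      · exact Finset.mem_image.2 ⟨m, Finset.mem_range.2 (by omega), rfl⟩

end gen

section torus

variable {d L : ℕ} [NeZero L]

theorem card_Vis (σ : ℕ → (Fin d → ZMod L) × Fin d) (ω : ℕ → Bool) (A : Finset (Fin d → ZMod L))
    (i m lam ρ R : ℕ) (v : Fin d → ZMod L)
    (hc : ((A.image (gp (ed ∘ σ) ω i)) ∩ bal v (R + ρ)).card ≤ lam)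
    (hj : ∀ a ∈ A, jumps (ed ∘ σ) ω i (i + m) a ≤ ρ) :
    (Vis (ed ∘ σ) ω A i m ∩ bal v R).card ≤ lam * (ρ + 1) := by
  have h1 : Vis (ed ∘ σ) ω A i m ∩ bal v R ⊆ (A.filter fun a => gp (ed ∘ σ) ω i a ∈
      bal v (R + ρ)).biUnion fun a => (Finset.range (m + 1)).image
        fun k => gp (ed ∘ σ) ω (i + k) a := by
    intro x hx
    rw [Finset.mem_inter] at hx
    obtain ⟨hx1, hx2⟩ := hx
    unfold Vis at hx1
    rw [Finset.mem_biUnion] at hx1 ⊢
    obtain ⟨a, ha, hx1⟩ := hx1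
    refine ⟨a, ?_, hx1⟩
    rw [Finset.mem_filter]
    refine ⟨ha, ?_⟩
    rw [Finset.mem_image] at hx1
    obtain ⟨k, hk, rfl⟩ := hx1
    rw [Finset.mem_range] at hk
    rw [mem_bal] at hx2 ⊢
    have h2 := td_jumps σ ω i k a
    have h3 : jumps (ed ∘ σ) ω i (i + k) a ≤ jumps (ed ∘ σ) ω i (i + m) a :=
      jumps_mono _ _ _ le_rfl (by omega)
    have h4 := hj a ha
    have h5 := td_tri v (gp (ed ∘ σ) ω (i + k) a) (gp (ed ∘ σ) ω i a)
    omega
  refine (Finset.card_le_card h1).trans (Finset.card_biUnion_le.trans ?_)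
  rw [card_image_inter] at hc
  calc ∑ a ∈ A.filter fun a => gp (ed ∘ σ) ω i a ∈ bal v (R + ρ),
        ((Finset.range (m + 1)).image fun k => gp (ed ∘ σ) ω (i + k) a).card
      ≤ ∑ _a ∈ A.filter fun a => gp (ed ∘ σ) ω i a ∈ bal v (R + ρ), (ρ + 1) := by
        refine Finset.sum_le_sum fun a ha => ?_
        have := card_visit (ed ∘ σ) ω a i m
        have := hj a (Finset.mem_filter.1 ha).1
        omega
    _ = (A.filter fun a => gp (ed ∘ σ) ω i a ∈ bal v (R + ρ)).card * (ρ + 1) := by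
        rw [Finset.sum_const, smul_eq_mul]
    _ ≤ lam * (ρ + 1) := Nat.mul_le_mul_right _ hc

/-- smoothing, from the bare conditions -/
theorem pl_smooth {C : ℕ} (hS : SMOb d C) (hL : 3 ≤ L)
    (σ : ℕ → (Fin d → ZMod L) × Fin d) (hσ : Per σ) (ω : ℕ → Bool)
    (A : Finset (Fin d → ZMod L)) {δ : ℝ} {q u R lam ρ κ₀ : ℕ} (z : Fin d → ZMod L)
    (hδ : 0 < δ) (hδ1 : δ ≤ 1) (hC : C * δ ≤ 1) (h1 : 1 ≤ δ * q) (h2 : δ * q ≤ 2) (hz : z ∉ A)
    (hu : 1 ≤ u) (hcard : (A ∩ bal z (R + ρ * u + 4)).card ≤ lam)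
    (hE2 : ∀ j < u, ∀ a ∈ A,
      jumps (ed ∘ σ) ω (j * (q * ms d L)) ((j + 1) * (q * ms d L)) a ≤ ρ)
    (hE3 : ∀ a ∈ A, ∀ b ∈ A, a ≠ b → ((Finset.range (u * q)).filter fun s =>
      td (gp (ed ∘ σ) ω (s * ms d L) a) (gp (ed ∘ σ) ω (s * ms d L) b) ≤ 3).card ≤ κ₀ * q)
    (h4 : 4 * lam ^ 2 * κ₀ ≤ u) (h5 : 4 * lam * ρ ≤ q) (h6 : C * (lam * ρ + 1) * u ≤ R)
    (h7 : 4 * R + 8 ≤ L) (S : Finset (Fin d → ZMod L)) (N : ℝ)
    (hN : ((S ∩ bal z R).card : ℝ) ≤ N) :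
    ∑ x ∈ S, TT (ed ∘ σ) ω A δ (u * (q * ms d L)) z x ≤
      Real.sqrt (N * (20 / Real.sqrt u)) + Real.exp (-(u : ℝ)) := by
  obtain ⟨g, hg1, hg2, hg3⟩ := hS L hL σ hσ ω A δ q u R lam ρ κ₀ z hδ hC h1 h2 hz hu hcard hE2
    hE3 h4 h5 h6 h7
  set T := TT (ed ∘ σ) ω A δ (u * (q * ms d L)) with hT
  have hB := Pool.Agent.Q68.LC.bas2 (Fin d → ZMod L) (ed ∘ σ) ω A δ hδ.le hδ1
  have hrow : ∑ y, T z y = 1 := hB.2.1 _ z
  have e1 : ∑ x ∈ S, T z x = ∑ x ∈ S, g x + ∑ x ∈ S, (T z x - g x) := by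
    rw [← sum_add_distrib]
    exact sum_congr rfl fun x _ => by ring
  have e2 : ∑ x ∈ S, (T z x - g x) ≤ Real.exp (-(u : ℝ)) := by
    calc ∑ x ∈ S, (T z x - g x) ≤ ∑ x, (T z x - g x) :=
          sum_le_sum_of_subset_of_nonneg (subset_univ _) fun x _ _ => by
            have := (hg1 x).2.1
            linarith
      _ = 1 - ∑ y, g y := by rw [sum_sub_distrib, hrow]
      _ ≤ _ := hg3
  have e3 : ∑ x ∈ S, g x = ∑ x ∈ S ∩ bal z R, g x := by
    symm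
    refine sum_subset inter_subset_left fun x hx hx2 => ?_
    by_contra hgx
    exact hx2 (mem_inter.2 ⟨hx, (mem_bal _ _ _).2 ((hg1 x).2.2 hgx)⟩)
  have e4 : ∑ x ∈ S ∩ bal z R, g x ≤ Real.sqrt (N * (20 / Real.sqrt u)) := by
    apply Real.le_sqrt_of_sq_le
    calc (∑ x ∈ S ∩ bal z R, g x) ^ 2 ≤ ((S ∩ bal z R).card : ℝ) * ∑ x ∈ S ∩ bal z R, g x ^ 2 :=
          sq_sum_le_card_mul_sum_sq
      _ ≤ N * (20 / Real.sqrt u) := by
          have h10 : ∑ x ∈ S ∩ bal z R, g x ^ 2 ≤ 20 / Real.sqrt u :=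
            (sum_le_sum_of_subset_of_nonneg (subset_univ _) fun x _ _ => sq_nonneg _).trans hg2
          exact mul_le_mul hN h10 (sum_nonneg fun x _ => sq_nonneg _)
            (le_trans (Nat.cast_nonneg _) hN)
  rw [e1, e3]
  exact add_le_add e4 e2

/-- evolution over `s` sweeps -/
noncomputable def fs (σ : ℕ → (Fin d → ZMod L) × Fin d) (ω : ℕ → Bool)
    (A : Finset (Fin d → ZMod L)) (δ : ℝ) (f : (Fin d → ZMod L) → ℝ) (s : ℕ) :
    (Fin d → ZMod L) → ℝ :=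
  vecMul f (TT (ed ∘ σ) ω A δ (s * ms d L))

theorem fs_add {σ : ℕ → (Fin d → ZMod L) × Fin d} (hσ : Per σ)
    (ω : ℕ → Bool) (A : Finset (Fin d → ZMod L)) {δ : ℝ} (h0 : 0 ≤ δ) (h1 : δ ≤ 1)
    (f : (Fin d → ZMod L) → ℝ) (s t : ℕ) :
    fs σ ω A δ f (s + t) = vecMul (fs σ ω A δ f s)
      (TT (ed ∘ σ) (sh (s * ms d L) ω) (A.image (gp (ed ∘ σ) ω (s * ms d L))) δ (t * ms d L)) := by
  unfold fs
  have h := (Pool.Agent.Q68.LC.bas2 _ (ed ∘ σ) ω A δ h0 h1).2.2.2.2.2 (s * ms d L) (t * ms d L)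
  rw [sh_per hσ] at h
  rw [Matrix.vecMul_vecMul, add_mul, h]

theorem fs_zero (σ : ℕ → (Fin d → ZMod L) × Fin d) (ω : ℕ → Bool)
    (A : Finset (Fin d → ZMod L)) {δ : ℝ} (h0 : 0 ≤ δ) (h1 : δ ≤ 1)
    {f : (Fin d → ZMod L) → ℝ} (hf : ∀ x ∈ A, f x = 0) (s : ℕ) (x : Fin d → ZMod L)
    (hx : x ∈ A.image (gp (ed ∘ σ) ω (s * ms d L))) : fs σ ω A δ f s x = 0 := by
  refine sum_eq_zero fun y _ => ?_
  by_cases hy : y ∈ A
  · rw [hf y hy, zero_mul]
  · beta_reduce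
    rw [(Pool.Agent.Q68.LC.bas2 _ (ed ∘ σ) ω A δ h0 h1).2.2.2.2.1 _ y hy x hx, mul_zero]

theorem fs_mono {σ : ℕ → (Fin d → ZMod L) × Fin d} (hσ : Per σ)
    (ω : ℕ → Bool) (A : Finset (Fin d → ZMod L)) {δ : ℝ} (h0 : 0 ≤ δ) (h1 : δ ≤ 1)
    (f : (Fin d → ZMod L) → ℝ) (s t : ℕ) :
    ∑ x, fs σ ω A δ f (s + t) x ^ 2 ≤ ∑ x, fs σ ω A δ f s x ^ 2 := by
  rw [fs_add hσ ω A h0 h1 f s t]
  have h := Pool.Agent.Q68.LC.bas2 _ (ed ∘ σ) (sh (s * ms d L) ω)
    (A.image (gp (ed ∘ σ) ω (s * ms d L))) δ h0 h1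
  exact sum_vecMul_sq_le _ _ (h.1 _) (fun y => (h.2.2.1 _ y).le) (fun x => (h.2.1 _ x).le)

theorem fs_zero_time (σ : ℕ → (Fin d → ZMod L) × Fin d) (ω : ℕ → Bool)
    (A : Finset (Fin d → ZMod L)) (δ : ℝ) (f : (Fin d → ZMod L) → ℝ) : fs σ ω A δ f 0 = f := by
  unfold fs
  rw [Nat.zero_mul]
  change vecMul f 1 = f
  rw [Matrix.vecMul_one]

/-- the conditions in a window which starts at sweep `i` -/
theorem pl_window {σ : ℕ → (Fin d → ZMod L) × Fin d} (hσ : Per σ) {q u lam r ρ κ₀ i : ℕ}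
    {ω : ℕ → Bool} {A : Finset (Fin d → ZMod L)} (hE : Ev σ q (u + 1) lam r ρ κ₀ ω A)
    (hi : i ≤ q) :
    (∀ R, R + ρ ≤ r → ∀ z,
      ((A.image (gp (ed ∘ σ) ω (i * ms d L))) ∩ bal z R).card ≤ lam) ∧
    (∀ j < u, ∀ a ∈ A.image (gp (ed ∘ σ) ω (i * ms d L)),
      jumps (ed ∘ σ) (sh (i * ms d L) ω) (j * (q * ms d L)) ((j + 1) * (q * ms d L)) a ≤ 2 * ρ) ∧
    (∀ a ∈ A.image (gp (ed ∘ σ) ω (i * ms d L)), ∀ b ∈ A.image (gp (ed ∘ σ) ω (i * ms d L)),
      a ≠ b → ((Finset.range (u * q)).filter fun s =>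
        td (gp (ed ∘ σ) (sh (i * ms d L) ω) (s * ms d L) a)
          (gp (ed ∘ σ) (sh (i * ms d L) ω) (s * ms d L) b) ≤ 3).card ≤ κ₀ * q) := by
  obtain ⟨h1, h2, h3⟩ := hE
  have him : i * ms d L ≤ q * ms d L := Nat.mul_le_mul_right _ hi
  refine ⟨?_, ?_, ?_⟩
  · intro R hR z
    rw [card_image_inter]
    have h4 := h1 0 (Nat.zero_le _) z
    rw [Nat.zero_mul] at h4
    have h5 : A.image (gp (ed ∘ σ) ω 0) = A := by simp [gp]
    rw [h5] at h4
    refine le_trans (Finset.card_le_card ?_) h4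
    intro a ha
    rw [Finset.mem_filter] at ha
    rw [Finset.mem_inter]
    refine ⟨ha.1, ?_⟩
    have h6 := ha.2
    rw [mem_bal] at h6 ⊢
    have h7 := td_jumps σ ω 0 (i * ms d L) a
    rw [Nat.zero_add] at h7
    have h8 : jumps (ed ∘ σ) ω 0 (i * ms d L) a ≤ ρ := by
      refine (jumps_mono _ _ _ (by omega) ?_).trans (h2 0 (by omega) a ha.1)
      rw [Nat.zero_add, one_mul]
      exact him
    have h9 : gp (ed ∘ σ) ω 0 a = a := rfl
    rw [h9] at h7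
    have h10 := td_tri z (gp (ed ∘ σ) ω (i * ms d L) a) a
    omega
  · intro j hj a' ha'
    obtain ⟨a, ha, rfl⟩ := Finset.mem_image.1 ha'
    have e1 := jumps_window hσ i (j * q) (q * ms d L) ω a
    have e3 : j * (q * ms d L) = j * q * ms d L := by ring
    have e4 : (j + 1) * (q * ms d L) = j * q * ms d L + q * ms d L := by ring
    rw [e3, e4, e1]
    have g1 := h2 j (by omega) a ha
    have g2 := h2 (j + 1) (by omega) a ha
    have e5 : (j + 1 + 1) * (q * ms d L) = j * q * ms d L + q * ms d L + q * ms d L := by ring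
    rw [e3, e4] at g1
    rw [e4, e5] at g2
    refine (jumps_mono _ _ _ (i' := j * q * ms d L)
      (j' := j * q * ms d L + q * ms d L + q * ms d L) (by omega) (by omega)).trans ?_
    rw [jumps_add (ed ∘ σ) ω a (i := j * q * ms d L) (j := j * q * ms d L + q * ms d L)
      (l := j * q * ms d L + q * ms d L + q * ms d L) (by omega) (by omega)]
    omega
  · intro a' ha' b' hb' hab
    obtain ⟨a, ha, rfl⟩ := Finset.mem_image.1 ha'
    obtain ⟨b, hb, rfl⟩ := Finset.mem_image.1 hb'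
    have hne : a ≠ b := fun h => hab (by rw [h])
    refine le_trans ?_ (h3 a ha b hb hne)
    refine Finset.card_le_card_of_injOn (fun s => s + i) ?_
      (fun x _ y _ h => Nat.add_right_cancel h)
    intro s hs
    simp only [Finset.coe_filter, Finset.mem_range, Set.mem_ofPred_eq] at hs ⊢
    obtain ⟨hs1, hs2⟩ := hs
    refine ⟨?_, ?_⟩
    · have : (u + 1) * q = u * q + q := by ring
      omega
    · rw [gp_window hσ, gp_window hσ] at hs2
      have e7 : (s + i) * ms d L = i * ms d L + s * ms d L := by ring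
      rw [e7]
      exact hs2

end torus

/-- One unit after `u` units of smoothing. -/
theorem pl_unit {L : ℕ} [NeZero L] {C : ℕ} (hS : SMOb 2 C) (hL : 3 ≤ L)
    {σ : ℕ → (Fin 2 → ZMod L) × Fin 2} (hσ : Per σ) {ω : ℕ → Bool}
    {A : Finset (Fin 2 → ZMod L)} {δ N : ℝ} {q u R lam r ρ κ₀ r₀ : ℕ}
    (hδ : 0 < δ) (hδ32 : 32 * δ ≤ 1) (hC : C * δ ≤ 1) (h1 : 1 ≤ δ * q) (h2 : δ * q ≤ 2)
    (hu : 1 ≤ u) (hE : Ev σ q (u + 1) lam r ρ κ₀ ω A)
    (hr1 : R + 2 * ρ * u + 4 + ρ ≤ r) (h4 : 4 * lam ^ 2 * κ₀ ≤ u) (h5 : 4 * lam * (2 * ρ) ≤ q)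
    (h6 : C * (lam * (2 * ρ) + 1) * u ≤ R) (h7 : 4 * R + 8 ≤ L)
    (hr2 : R + 8 * r₀ + ρ ≤ r) (hr3 : 16 * r₀ + ρ ≤ r)
    (hN : (((2 * (8 * r₀) + 1) * (lam * (ρ + 1)) : ℕ) : ℝ) ≤ N)
    (hsm : Real.sqrt (N * (20 / Real.sqrt u)) + Real.exp (-(u : ℝ)) ≤ 1 / 16)
    {f : (Fin 2 → ZMod L) → ℝ} (hf : ∀ x ∈ A, f x = 0) :
    ∃ D : Finset (Fin 2 → ZMod L), (∀ v, (D ∩ bal v (16 * r₀)).card ≤ lam * (ρ + 1)) ∧
      ∀ i < q, ∑ x ∈ Dms (8 * r₀) D, fs σ ω A δ f (u * q + i) x ^ 2 ≤ (∑ x, f x ^ 2) / 16 ∧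
        ∑ x, fs σ ω A δ f (u * q + i + 1) x ^ 2 + δ / 2 * en D (fs σ ω A δ f (u * q + i)) ≤
          ∑ x, fs σ ω A δ f (u * q + i) x ^ 2 := by
  have hδ1 : δ ≤ 1 := by linarith
  obtain ⟨D, hD⟩ : ∃ D, D = Vis (ed ∘ σ) ω A (u * (q * ms 2 L)) (q * ms 2 L) := ⟨_, rfl⟩
  obtain ⟨hE1, hE2, hE3⟩ := id hE
  have hjD : ∀ a ∈ A, jumps (ed ∘ σ) ω (u * (q * ms 2 L)) (u * (q * ms 2 L) + q * ms 2 L) a ≤ ρ := by
    intro a ha
    have := hE2 u (by omega) a ha
    rwa [show (u + 1) * (q * ms 2 L) = u * (q * ms 2 L) + q * ms 2 L by ring] at this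
  have hcard : ∀ v R', R' + ρ ≤ r → (D ∩ bal v R').card ≤ lam * (ρ + 1) := by
    intro v R' hR'
    rw [hD]
    refine card_Vis σ ω A _ _ lam ρ R' v ?_ hjD
    exact (Finset.card_le_card (Finset.inter_subset_inter_left (bal_mono v hR'))).trans
      (hE1 u (by omega) v)
  refine ⟨D, fun v => hcard v _ hr3, ?_⟩
  intro i hi
  constructor
  · -- smoothing in the window which starts at sweep `i`
    obtain ⟨w1, w2, w3⟩ := pl_window hσ hE hi.le
    have e0 : u * q + i = i + u * q := by ring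
    have e1 : u * q * ms 2 L = u * (q * ms 2 L) := by ring
    rw [e0, fs_add hσ ω A hδ.le hδ1 f i (u * q), e1]
    obtain ⟨Ai, hAi⟩ : ∃ Ai, Ai = A.image (gp (ed ∘ σ) ω (i * ms 2 L)) := ⟨_, rfl⟩
    obtain ⟨ωi, hωi⟩ : ∃ ωi, ωi = sh (i * ms 2 L) ω := ⟨_, rfl⟩
    rw [← hAi] at w1 w2 w3 ⊢
    rw [← hωi] at w2 w3 ⊢
    obtain ⟨T, hT⟩ : ∃ T, T = TT (ed ∘ σ) ωi Ai δ (u * (q * ms 2 L)) := ⟨_, rfl⟩
    rw [← hT]
    have hB := Pool.Agent.Q68.LC.bas2 _ (ed ∘ σ) ωi Ai δ hδ.le hδ1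
    obtain ⟨S, hSd⟩ : ∃ S, S = Dms (8 * r₀) D := ⟨_, rfl⟩
    rw [← hSd]
    calc ∑ x ∈ S, vecMul (fs σ ω A δ f i) T x ^ 2
        ≤ ∑ x ∈ S, ∑ z, fs σ ω A δ f i z ^ 2 * T z x := by
          rw [hT]
          exact sum_le_sum fun x _ => vecMul_sq_le _ _ (hB.1 _) (fun y => (hB.2.2.1 _ y).le) x
      _ = ∑ z, fs σ ω A δ f i z ^ 2 * ∑ x ∈ S, T z x := by
          rw [sum_comm]
          exact sum_congr rfl fun z _ => by rw [mul_sum]
      _ ≤ ∑ z, fs σ ω A δ f i z ^ 2 * (1 / 16) := by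
          refine sum_le_sum fun z _ => ?_
          by_cases hz : z ∈ Ai
          · rw [fs_zero σ ω A hδ.le hδ1 hf i z (by rw [← hAi]; exact hz)]
            simp
          · refine mul_le_mul_of_nonneg_left ?_ (sq_nonneg _)
            refine le_trans ?_ hsm
            rw [hT]
            refine pl_smooth hS hL σ hσ ωi Ai z hδ hδ1 hC h1 h2 hz hu ?_ w2 w3 h4 h5 h6 h7 S N ?_
            · exact w1 _ (by omega) z
            · refine le_trans ?_ hN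
              have h9 := card_Dms (m := 8 * r₀) (D := D) (b := lam * (ρ + 1)) (R := R) z
                (hcard z _ hr2)
              rw [hSd]
              exact_mod_cast h9
      _ = (∑ z, fs σ ω A δ f i z ^ 2) / 16 := by
          rw [← sum_mul]
          ring
      _ ≤ (∑ x, f x ^ 2) / 16 := by
          have h10 := fs_mono hσ ω A hδ.le hδ1 f 0 i
          rw [Nat.zero_add, fs_zero_time] at h10
          linarith
  · -- dissipation in the sweep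
    rw [fs_add hσ ω A hδ.le hδ1 f (u * q + i) 1, Nat.one_mul]
    have h8 := pl_swd (d := 2) (by norm_num) hσ (sh ((u * q + i) * ms 2 L) ω)
      (A.image (gp (ed ∘ σ) ω ((u * q + i) * ms 2 L))) D δ (fs σ ω A δ f (u * q + i)) hδ
      (by push_cast; linarith) ?_
    · unfold en et
      exact h8
    · intro k hk a' ha'
      obtain ⟨a, ha, rfl⟩ := Finset.mem_image.1 ha'
      rw [gp_window hσ, hD]
      unfold Vis
      rw [Finset.mem_biUnion]
      refine ⟨a, ha, ?_⟩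
      rw [Finset.mem_image]
      refine ⟨i * ms 2 L + k, ?_, ?_⟩
      · rw [Finset.mem_range]
        have : (i + 1) * ms 2 L ≤ q * ms 2 L := Nat.mul_le_mul_right _ hi
        have e3 : (i + 1) * ms 2 L = i * ms 2 L + ms 2 L := by ring
        omega
      · congr 2
        ring

end Pool.Agent.U153
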