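import Pool.Agent.Q187.LC.Nas
import Pool.Agent.Q257.LC.Geo
import Pool.Agent.Q53.LC.Poi
import Pool.Agent.Q277.LC.Ex

/-!
# Planar project, part 2: energy of near pairs off a sparse set of the two-dimensional torus
-/

set_option autoImplicit false
set_option linter.unusedSectionVars false

namespace Pool.Agent.U153

open Finset Equiv Matrix Q292.LC
open Pool.Agent.Q257.LC (td_comm td_tri mem_bal bal_mono)

section geo

variable {L : ℕ} [NeZero L]

/-- the vector `(a, b)` -/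
def sv (L a b : ℕ) : Fin 2 → ZMod L := ![(a : ZMod L), (b : ZMod L)]

/-- energy density at an edge off `D` -/
def et (D : Finset (Fin 2 → ZMod L)) (f : (Fin 2 → ZMod L) → ℝ)
    (i : (Fin 2 → ZMod L) × Fin 2) : ℝ :=
  if (ed i).1 ∉ D ∧ (ed i).2 ∉ D then (f (ed i).1 - f (ed i).2) ^ 2 else 0

omit [NeZero L] in
theorem et_nonneg (D : Finset (Fin 2 → ZMod L)) (f : (Fin 2 → ZMod L) → ℝ)
    (i : (Fin 2 → ZMod L) × Fin 2) : 0 ≤ et D f i := by
  unfold et
  split_ifs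
  · positivity
  · exact le_rfl

theorem pl_seg (u : ℕ → ℝ) (N a b : ℕ) (ha : a ≤ N) (hb : b ≤ N) :
    (u a - u b) ^ 2 ≤ N * ∑ j ∈ Finset.range N, (u j - u (j + 1)) ^ 2 := by
  have key : ∀ a b, a ≤ b → b ≤ N →
      (u a - u b) ^ 2 ≤ N * ∑ j ∈ Finset.range N, (u j - u (j + 1)) ^ 2 := by
    intro a b hab hb
    have h1 : u a - u b = ∑ j ∈ Finset.Ico a b, (u j - u (j + 1)) := by
      have h2 := Finset.sum_Ico_sub u hab
      have h3 : ∑ j ∈ Finset.Ico a b, (u j - u (j + 1)) = -∑ j ∈ Finset.Ico a b, (u (j + 1) - u j) := by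
        rw [← Finset.sum_neg_distrib]
        exact Finset.sum_congr rfl fun j _ => by ring
      rw [h3, h2]
      ring
    rw [h1]
    refine sq_sum_le_card_mul_sum_sq.trans ?_
    rw [Nat.card_Ico]
    have h4 : ((b - a : ℕ) : ℝ) ≤ N := by exact_mod_cast (by omega : b - a ≤ N)
    have h5 : ∑ j ∈ Finset.Ico a b, (u j - u (j + 1)) ^ 2 ≤
        ∑ j ∈ Finset.range N, (u j - u (j + 1)) ^ 2 := by
      refine Finset.sum_le_sum_of_subset_of_nonneg ?_ fun j _ _ => sq_nonneg _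
      intro j hj
      rw [Finset.mem_Ico] at hj
      rw [Finset.mem_range]
      omega
    exact mul_le_mul h4 h5 (Finset.sum_nonneg fun j _ => sq_nonneg _) (Nat.cast_nonneg _)
  rcases le_total a b with h | h
  · exact key a b h hb
  · have := key b a h ha
    rwa [← neg_sub, neg_sq]

theorem ed_row (c : Fin 2 → ZMod L) (j b : ℕ) :
    ed (c + sv L j b, (0 : Fin 2)) = (c + sv L j b, c + sv L (j + 1) b) := by
  unfold ed sv
  refine Prod.ext rfl ?_
  funext i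
  fin_cases i
  · simp
    ring
  · simp
    rfl

theorem ed_col (c : Fin 2 → ZMod L) (a j : ℕ) :
    ed (c + sv L a j, (1 : Fin 2)) = (c + sv L a j, c + sv L a (j + 1)) := by
  unfold ed sv
  refine Prod.ext rfl ?_
  funext i
  fin_cases i
  · simp
    rfl
  · simp
    ring

/-- energy in a box -/
def eb (D : Finset (Fin 2 → ZMod L)) (f : (Fin 2 → ZMod L) → ℝ) (N : ℕ) (c : Fin 2 → ZMod L) : ℝ :=
  ∑ a ∈ Finset.range (N + 1), ∑ b ∈ Finset.range (N + 1), ∑ i : Fin 2, et D f (c + sv L a b, i)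

theorem pl_row (D : Finset (Fin 2 → ZMod L)) (f : (Fin 2 → ZMod L) → ℝ) (N : ℕ)
    (c : Fin 2 → ZMod L) (b : ℕ) (hb : b ≤ N) (h : ∀ a ≤ N, c + sv L a b ∉ D) (a₁ a₂ : ℕ)
    (h1 : a₁ ≤ N) (h2 : a₂ ≤ N) :
    (f (c + sv L a₁ b) - f (c + sv L a₂ b)) ^ 2 ≤ N * eb D f N c := by
  refine (pl_seg (fun a => f (c + sv L a b)) N a₁ a₂ h1 h2).trans
    (mul_le_mul_of_nonneg_left ?_ (Nat.cast_nonneg _))
  unfold eb
  refine (Finset.sum_le_sum fun j hj => ?_).trans (Finset.sum_le_sum_of_subset_of_nonneg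
    (Finset.range_mono (Nat.le_succ N)) fun a _ _ => Finset.sum_nonneg fun b _ =>
      Finset.sum_nonneg fun i _ => et_nonneg _ _ _)
  rw [Finset.mem_range] at hj
  have h3 : (f (c + sv L j b) - f (c + sv L (j + 1) b)) ^ 2 = et D f (c + sv L j b, 0) := by
    unfold et
    rw [ed_row, if_pos ⟨h j hj.le, h (j + 1) hj⟩]
  rw [h3]
  refine le_trans ?_ (Finset.single_le_sum (f := fun b => ∑ i : Fin 2, et D f (c + sv L j b, i))
    (fun b _ => Finset.sum_nonneg fun i _ => et_nonneg _ _ _)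
    (Finset.mem_range.2 (Nat.lt_succ_of_le hb)))
  exact Finset.single_le_sum (f := fun i => et D f (c + sv L j b, i))
    (fun i _ => et_nonneg _ _ _) (Finset.mem_univ _)

theorem pl_col (D : Finset (Fin 2 → ZMod L)) (f : (Fin 2 → ZMod L) → ℝ) (N : ℕ)
    (c : Fin 2 → ZMod L) (a : ℕ) (ha : a ≤ N) (h : ∀ b ≤ N, c + sv L a b ∉ D) (b₁ b₂ : ℕ)
    (h1 : b₁ ≤ N) (h2 : b₂ ≤ N) :
    (f (c + sv L a b₁) - f (c + sv L a b₂)) ^ 2 ≤ N * eb D f N c := by
  refine (pl_seg (fun b => f (c + sv L a b)) N b₁ b₂ h1 h2).trans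
    (mul_le_mul_of_nonneg_left ?_ (Nat.cast_nonneg _))
  unfold eb
  refine le_trans ?_ (Finset.single_le_sum
    (f := fun a => ∑ b ∈ Finset.range (N + 1), ∑ i : Fin 2, et D f (c + sv L a b, i))
    (fun a _ => Finset.sum_nonneg fun b _ => Finset.sum_nonneg fun i _ => et_nonneg _ _ _)
    (Finset.mem_range.2 (Nat.lt_succ_of_le ha)))
  refine (Finset.sum_le_sum fun j hj => ?_).trans (Finset.sum_le_sum_of_subset_of_nonneg
    (Finset.range_mono (Nat.le_succ N)) fun b _ _ => Finset.sum_nonneg fun i _ => et_nonneg _ _ _)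
  rw [Finset.mem_range] at hj
  have h3 : (f (c + sv L a j) - f (c + sv L a (j + 1))) ^ 2 = et D f (c + sv L a j, 1) := by
    unfold et
    rw [ed_col, if_pos ⟨h j hj.le, h (j + 1) hj⟩]
  rw [h3]
  exact Finset.single_le_sum (f := fun i => et D f (c + sv L a j, i))
    (fun i _ => et_nonneg _ _ _) (Finset.mem_univ _)

theorem eb_nonneg (D : Finset (Fin 2 → ZMod L)) (f : (Fin 2 → ZMod L) → ℝ) (N : ℕ)
    (c : Fin 2 → ZMod L) : 0 ≤ eb D f N c :=
  Finset.sum_nonneg fun a _ => Finset.sum_nonneg fun b _ => Finset.sum_nonneg fun i _ =>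
    et_nonneg _ _ _

theorem pl_pair (D : Finset (Fin 2 → ZMod L)) (f : (Fin 2 → ZMod L) → ℝ) (N : ℕ)
    (c : Fin 2 → ZMod L) (a₁ b₁ a₂ b₂ a : ℕ) (ha₁ : a₁ ≤ N) (hb₁ : b₁ ≤ N) (ha₂ : a₂ ≤ N)
    (hb₂ : b₂ ≤ N) (ha : a ≤ N) (h1 : ∀ a ≤ N, c + sv L a b₁ ∉ D)
    (h2 : ∀ a ≤ N, c + sv L a b₂ ∉ D) (h3 : ∀ b ≤ N, c + sv L a b ∉ D) :
    (f (c + sv L a₁ b₁) - f (c + sv L a₂ b₂)) ^ 2 ≤ 9 * N * eb D f N c := by
  have e1 := pl_row D f N c b₁ hb₁ h1 a₁ a ha₁ ha
  have e2 := pl_col D f N c a ha h3 b₁ b₂ hb₁ hb₂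
  have e3 := pl_row D f N c b₂ hb₂ h2 a a₂ ha ha₂
  nlinarith [sq_nonneg ((f (c + sv L a₁ b₁) - f (c + sv L a b₁)) -
    (f (c + sv L a b₁) - f (c + sv L a b₂))), sq_nonneg ((f (c + sv L a b₁) - f (c + sv L a b₂)) -
    (f (c + sv L a b₂) - f (c + sv L a₂ b₂))), sq_nonneg ((f (c + sv L a₁ b₁) - f (c + sv L a b₁)) -
    (f (c + sv L a b₂) - f (c + sv L a₂ b₂)))]

/-- total energy -/
def en (D : Finset (Fin 2 → ZMod L)) (f : (Fin 2 → ZMod L) → ℝ) : ℝ :=
  ∑ i : (Fin 2 → ZMod L) × Fin 2, et D f i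

theorem en_nonneg (D : Finset (Fin 2 → ZMod L)) (f : (Fin 2 → ZMod L) → ℝ) : 0 ≤ en D f :=
  Finset.sum_nonneg fun i _ => et_nonneg _ _ _

theorem sum_eb (D : Finset (Fin 2 → ZMod L)) (f : (Fin 2 → ZMod L) → ℝ) (N : ℕ) :
    ∑ c, eb D f N c = ((N : ℝ) + 1) ^ 2 * en D f := by
  unfold eb
  rw [Finset.sum_comm]
  have h1 : ∀ a ∈ Finset.range (N + 1), ∑ c : Fin 2 → ZMod L, ∑ b ∈ Finset.range (N + 1),
      ∑ i : Fin 2, et D f (c + sv L a b, i) = ((N : ℝ) + 1) * en D f := by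
    intro a _
    rw [Finset.sum_comm]
    have h2 : ∀ b ∈ Finset.range (N + 1), ∑ c : Fin 2 → ZMod L,
        ∑ i : Fin 2, et D f (c + sv L a b, i) = en D f := by
      intro b _
      refine (Equiv.sum_comp (Equiv.addRight (sv L a b))
        (fun c => ∑ i : Fin 2, et D f (c, i))).trans ?_
      unfold en
      rw [Fintype.sum_prod_type]
    rw [Finset.sum_congr rfl h2, Finset.sum_const, Finset.card_range, nsmul_eq_mul]
    push_cast
    ring
  rw [Finset.sum_congr rfl h1, Finset.sum_const, Finset.card_range, nsmul_eq_mul]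
  push_cast
  ring

omit [NeZero L] in
theorem td_fin2 (x y : Fin 2 → ZMod L) :
    td x y = (x 0 - y 0).valMinAbs.natAbs + (x 1 - y 1).valMinAbs.natAbs := by
  unfold td
  rw [Fin.sum_univ_two]

/-- the points whose horizontal neighbourhood meets `D` -/
def Dms (m : ℕ) (D : Finset (Fin 2 → ZMod L)) : Finset (Fin 2 → ZMod L) :=
  (Finset.range (2 * m + 1)).biUnion fun a => D.image fun p => p + sv L m 0 - sv L a 0

theorem not_Dms {m : ℕ} {D : Finset (Fin 2 → ZMod L)} {x : Fin 2 → ZMod L} (hx : x ∉ Dms m D)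
    (a : ℕ) (ha : a ≤ 2 * m) : x + sv L a 0 - sv L m 0 ∉ D := by
  intro h
  apply hx
  unfold Dms
  rw [Finset.mem_biUnion]
  refine ⟨a, Finset.mem_range.2 (by omega), ?_⟩
  rw [Finset.mem_image]
  refine ⟨_, h, ?_⟩
  abel

theorem Dms_sub {m : ℕ} {D : Finset (Fin 2 → ZMod L)} : D ⊆ Dms m D := by
  intro x hx
  by_contra h
  have h1 := not_Dms h m (by omega)
  rw [add_sub_cancel_right] at h1
  exact h1 hx

theorem card_Dms {m : ℕ} {D : Finset (Fin 2 → ZMod L)} {b R : ℕ} (z : Fin 2 → ZMod L)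
    (hD : (D ∩ bal z (R + m)).card ≤ b) : (Dms m D ∩ bal z R).card ≤ (2 * m + 1) * b := by
  have h1 : Dms m D ∩ bal z R ⊆ (Finset.range (2 * m + 1)).biUnion fun a =>
      (D ∩ bal z (R + m)).image fun p => p + sv L m 0 - sv L a 0 := by
    intro x hx
    rw [Finset.mem_inter] at hx
    obtain ⟨hx1, hx2⟩ := hx
    unfold Dms at hx1
    rw [Finset.mem_biUnion] at hx1 ⊢
    obtain ⟨a, ha, hx1⟩ := hx1
    refine ⟨a, ha, ?_⟩
    rw [Finset.mem_image] at hx1 ⊢
    obtain ⟨p, hp, hpx⟩ := hx1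
    refine ⟨p, ?_, hpx⟩
    rw [Finset.mem_inter]
    refine ⟨hp, ?_⟩
    rw [mem_bal] at hx2 ⊢
    have h2 : td x p ≤ m := by
      rw [td_fin2, ← hpx]
      rw [Finset.mem_range] at ha
      have e0 : (p + sv L m 0 - sv L a 0) 0 - p 0 = (((m : ℤ) - (a : ℤ) : ℤ) : ZMod L) := by
        change p 0 + (m : ZMod L) - (a : ZMod L) - p 0 = _
        push_cast
        ring
      have e1 : (p + sv L m 0 - sv L a 0) 1 - p 1 = ((0 : ℤ) : ZMod L) := by
        change p 1 + ((0 : ℕ) : ZMod L) - ((0 : ℕ) : ZMod L) - p 1 = _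
        push_cast
        ring
      have g0 := Pool.Agent.Q53.LC.natAbs_le_of_cast _ _ e0.symm
      have g1 := Pool.Agent.Q53.LC.natAbs_le_of_cast _ _ e1.symm
      omega
    have h3 := td_tri z x p
    omega
  refine (Finset.card_le_card h1).trans (Finset.card_biUnion_le.trans ?_)
  calc ∑ a ∈ Finset.range (2 * m + 1), ((D ∩ bal z (R + m)).image
        fun p => p + sv L m 0 - sv L a 0).card ≤ ∑ _a ∈ Finset.range (2 * m + 1), b :=
        Finset.sum_le_sum fun a _ => Finset.card_image_le.trans hD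
    _ = (2 * m + 1) * b := by rw [Finset.sum_const, Finset.card_range, smul_eq_mul]

/-- a free column -/
theorem exists_col {D : Finset (Fin 2 → ZMod L)} {N b : ℕ} (hN : N < L) (hb : b ≤ N)
    (c : Fin 2 → ZMod L) (hD : (D ∩ bal c (2 * N)).card ≤ b) :
    ∃ a ≤ N, ∀ b ≤ N, c + sv L a b ∉ D := by
  by_contra hc
  push Not at hc
  choose! β hβ1 hβ2 using hc
  have h1 : (Finset.range (N + 1)).card ≤ (D ∩ bal c (2 * N)).card := by
    refine Finset.card_le_card_of_injOn (fun a => c + sv L a (β a)) ?_ ?_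
    · intro a ha
      rw [Finset.mem_coe, Finset.mem_range] at ha
      rw [Finset.mem_coe, Finset.mem_inter]
      refine ⟨hβ2 a (by omega), ?_⟩
      change c + sv L a (β a) ∈ bal c (2 * N)
      rw [mem_bal, td_fin2]
      have e0 : c 0 - (c + sv L a (β a)) 0 = ((-(a : ℤ) : ℤ) : ZMod L) := by
        change c 0 - (c 0 + (a : ZMod L)) = _
        push_cast
        ring
      have e1 : c 1 - (c + sv L a (β a)) 1 = ((-(β a : ℤ) : ℤ) : ZMod L) := by
        change c 1 - (c 1 + (β a : ZMod L)) = _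
        push_cast
        ring
      have g0 := Pool.Agent.Q53.LC.natAbs_le_of_cast _ _ e0.symm
      have g1 := Pool.Agent.Q53.LC.natAbs_le_of_cast _ _ e1.symm
      have := hβ1 a (by omega)
      omega
    · intro a ha a' ha' h
      rw [Finset.mem_coe, Finset.mem_range] at ha ha'
      have h2 := congrFun h 0
      have h3 : (a : ZMod L) = (a' : ZMod L) := by
        have : c 0 + (a : ZMod L) = c 0 + (a' : ZMod L) := h2
        exact add_left_cancel this
      have h4 := congrArg ZMod.val h3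
      rwa [ZMod.val_natCast_of_lt (by omega), ZMod.val_natCast_of_lt (by omega)] at h4
  rw [Finset.card_range] at h1
  omega

/-- near pairs -/
theorem pl_near_pair {D : Finset (Fin 2 → ZMod L)} {s b : ℕ} (hN : 2 * s < L) (hb : b ≤ 2 * s)
    (hD : ∀ v, (D ∩ bal v (4 * s)).card ≤ b) (f : (Fin 2 → ZMod L) → ℝ) (x y : Fin 2 → ZMod L)
    (hx : x ∉ Dms (2 * s) D) (hy : y ∉ Dms (2 * s) D) (hxy : td x y ≤ s) :
    (f x - f y) ^ 2 ≤ 18 * s * eb D f (2 * s) (x - sv L s s) := by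
  obtain ⟨a, ha, hcol⟩ := exists_col (N := 2 * s) hN hb (x - sv L s s) (by
    have := hD (x - sv L s s)
    rwa [show 2 * (2 * s) = 4 * s by ring])
  -- coordinates of `y`
  rw [td_comm, td_fin2] at hxy
  obtain ⟨v0, hv0⟩ : ∃ v : ℤ, v = (y 0 - x 0).valMinAbs := ⟨_, rfl⟩
  obtain ⟨v1, hv1⟩ : ∃ v : ℤ, v = (y 1 - x 1).valMinAbs := ⟨_, rfl⟩
  rw [← hv0, ← hv1] at hxy
  obtain ⟨a₂, ha₂⟩ : ∃ a₂ : ℕ, (a₂ : ℤ) = s + v0 := ⟨(s + v0).toNat, by omega⟩
  obtain ⟨b₂, hb₂⟩ : ∃ b₂ : ℕ, (b₂ : ℤ) = s + v1 := ⟨(s + v1).toNat, by omega⟩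
  have hc0 : ((v0 : ℤ) : ZMod L) = y 0 - x 0 := by rw [hv0, ZMod.coe_valMinAbs]
  have hc1 : ((v1 : ℤ) : ZMod L) = y 1 - x 1 := by rw [hv1, ZMod.coe_valMinAbs]
  have hA : (a₂ : ZMod L) = s + (y 0 - x 0) := by
    rw [← hc0]
    have := congrArg (fun n : ℤ => (n : ZMod L)) ha₂
    push_cast at this
    exact this
  have hB : (b₂ : ZMod L) = s + (y 1 - x 1) := by
    rw [← hc1]
    have := congrArg (fun n : ℤ => (n : ZMod L)) hb₂
    push_cast at this
    exact this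
  have hex : x - sv L s s + sv L s s = x := sub_add_cancel _ _
  have hey : x - sv L s s + sv L a₂ b₂ = y := by
    funext i
    fin_cases i
    · change x 0 - (s : ZMod L) + (a₂ : ZMod L) = y 0
      rw [hA]
      ring
    · change x 1 - (s : ZMod L) + (b₂ : ZMod L) = y 1
      rw [hB]
      ring
  have h := pl_pair D f (2 * s) (x - sv L s s) s s a₂ b₂ a (by omega) (by omega) (by omega)
    (by omega) ha ?_ ?_ hcol
  · rw [hex, hey] at h
    push_cast at h
    linarith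
  · intro a' ha'
    have h1 := not_Dms hx (a' + s) (by omega)
    have h2 : x - sv L s s + sv L a' s = x + sv L (a' + s) 0 - sv L (2 * s) 0 := by
      funext i
      fin_cases i
      · change x 0 - (s : ZMod L) + (a' : ZMod L) = x 0 + ((a' + s : ℕ) : ZMod L) -
          ((2 * s : ℕ) : ZMod L)
        push_cast
        ring
      · change x 1 - (s : ZMod L) + (s : ZMod L) = x 1 + ((0 : ℕ) : ZMod L) - ((0 : ℕ) : ZMod L)
        push_cast
        ring
    rw [h2]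
    exact h1
  · intro a' ha'
    obtain ⟨a₃, ha₃⟩ : ∃ a₃ : ℕ, (a₃ : ℤ) = (a' : ℤ) + 2 * s - a₂ := ⟨((a' : ℤ) + 2 * s - a₂).toNat,
      by omega⟩
    have h1 := not_Dms hy a₃ (by omega)
    have hA3 : (a₃ : ZMod L) = a' + 2 * s - a₂ := by
      have := congrArg (fun n : ℤ => (n : ZMod L)) ha₃
      push_cast at this
      exact this
    have h2 : x - sv L s s + sv L a' b₂ = y + sv L a₃ 0 - sv L (2 * s) 0 := by
      funext i
      fin_cases i
      · change x 0 - (s : ZMod L) + (a' : ZMod L) = y 0 + (a₃ : ZMod L) - ((2 * s : ℕ) : ZMod L)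
        rw [hA3, hA]
        push_cast
        ring
      · change x 1 - (s : ZMod L) + (b₂ : ZMod L) = y 1 + ((0 : ℕ) : ZMod L) - ((0 : ℕ) : ZMod L)
        rw [hB]
        push_cast
        ring
    rw [h2]
    exact h1

/-- The energy of near pairs. -/
theorem pl_near {D : Finset (Fin 2 → ZMod L)} {s b : ℕ} (hs : 1 ≤ s) (hN : 2 * s < L)
    (hb : b ≤ 2 * s) (hD : ∀ v, (D ∩ bal v (4 * s)).card ≤ b) (f : (Fin 2 → ZMod L) → ℝ) :
    ∑ x, ∑ y, (if x ∉ Dms (2 * s) D ∧ y ∉ Dms (2 * s) D ∧ td x y ≤ s then (f x - f y) ^ 2 else 0) ≤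
      1458 * (s : ℝ) ^ 5 * en D f := by
  have hs' : (1 : ℝ) ≤ s := by exact_mod_cast hs
  have h1 : ∀ x, ∑ y, (if x ∉ Dms (2 * s) D ∧ y ∉ Dms (2 * s) D ∧ td x y ≤ s then
      (f x - f y) ^ 2 else 0) ≤ ((2 * s + 1 : ℕ) : ℝ) ^ 2 * (18 * s * eb D f (2 * s) (x - sv L s s)) := by
    intro x
    have he := eb_nonneg D f (2 * s) (x - sv L s s)
    calc ∑ y, (if x ∉ Dms (2 * s) D ∧ y ∉ Dms (2 * s) D ∧ td x y ≤ s then
        (f x - f y) ^ 2 else 0) ≤ ∑ y ∈ bal x s, 18 * s * eb D f (2 * s) (x - sv L s s) := by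
          unfold bal
          rw [Finset.sum_filter]
          refine Finset.sum_le_sum fun y _ => ?_
          split_ifs with g1 g2 g3
          · exact pl_near_pair hN hb hD f x y g1.1 g1.2.1 g1.2.2
          · exact absurd g1.2.2 g2
          · positivity
          · exact le_rfl
      _ = ((bal x s).card : ℝ) * (18 * s * eb D f (2 * s) (x - sv L s s)) := by
          rw [Finset.sum_const, nsmul_eq_mul]
      _ ≤ _ := by
          refine mul_le_mul_of_nonneg_right ?_ (by positivity)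
          exact_mod_cast Pool.Agent.Q277.LC.card_bal_le x s
  refine (Finset.sum_le_sum fun x _ => h1 x).trans ?_
  rw [← Finset.mul_sum, ← Finset.mul_sum]
  have h2 : ∑ x : Fin 2 → ZMod L, eb D f (2 * s) (x - sv L s s) =
      ((2 * s : ℕ) + 1 : ℝ) ^ 2 * en D f := by
    rw [← sum_eb]
    exact Equiv.sum_comp (Equiv.subRight (sv L s s)) (fun c => eb D f (2 * s) c)
  rw [h2]
  have hE := en_nonneg D f
  have h3 : (2 * (s : ℝ) + 1) ^ 2 ≤ 9 * (s : ℝ) ^ 2 := by nlinarith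
  push_cast
  calc (2 * (s : ℝ) + 1) ^ 2 * (18 * s * ((2 * (s : ℝ) + 1) ^ 2 * en D f)) =
      18 * s * ((2 * (s : ℝ) + 1) ^ 2 * (2 * (s : ℝ) + 1) ^ 2) * en D f := by ring
    _ ≤ 18 * s * ((9 * (s : ℝ) ^ 2) * (9 * (s : ℝ) ^ 2)) * en D f := by gcongr
    _ = 1458 * (s : ℝ) ^ 5 * en D f := by ring

end geo

end Pool.Agent.U153
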