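import Pool.Agent.U153.PlLap3

/-!
# Planar project, part 8: the Green function in a good environment, `d = 2`
-/

set_option autoImplicit false
set_option linter.unusedSectionVars false

namespace Pool.Agent.U153

open Finset Equiv Matrix Q292.LC
open Pool.Agent.Q257.LC (pow_zero_col pow_eq_sdiff pow_bound one_bound TT_units sh_ed)

/-- the analogue of `S_KER` for `d = 2` -/
def S_KER2 : Prop := ∃ (C m : ℕ), 1 ≤ C ∧ ∀ Z : ℕ, C ≤ Z →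
  ∀ (L K lam r ρ κ₀ : ℕ) [NeZero L], lam ≤ Z → ρ ≤ Z → κ₀ + 1 ≤ Z →
  Z ^ m ≤ r → 8 * Z ^ m ≤ L → Z ^ m ≤ K → ∃ q₀ : ℕ, ∀ q ≥ q₀,
  ∀ σ : ℕ → (Fin 2 → ZMod L) × Fin 2, Per σ → ∀ δ : ℝ, 1 ≤ δ * q → δ * q ≤ 2 →
  ∀ (ω : ℕ → Bool) (R : Finset (Fin 2 → ZMod L)), Gd σ q K lam r ρ κ₀ ω R →
  ∀ (w : ℝ) (U : Finset (Fin 2 → ZMod L)) (x y : Fin 2 → ZMod L), 0 ≤ w → w < 1 →
  Real.exp (-(Z : ℝ)) ≤ 1 - w →
  Disjoint U R → x ∉ R → x ∉ U → y ∉ U → ∀ N : ℕ,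
  ∑ k ∈ Finset.range N, w ^ (k + 1) * (TT (ed ∘ σ) ω R δ (K * (q * ms 2 L)) *
    (dg U * TT (ed ∘ σ) ω R δ (K * (q * ms 2 L))) ^ k) x y ≤
    C * ((Z : ℝ) ^ 10 / K + 1 / ((L : ℝ) ^ 2 * (1 - w)))

theorem green_sum2 (a : ℕ → ℝ) (w m0 c K Z : ℝ) (hw0 : 0 ≤ w) (hw1 : w < 1)
    (hwZ : Real.exp (-Z) ≤ 1 - w) (hm0 : 0 ≤ m0) (hc : 0 < c) (hK : 0 < K)
    (ha : ∀ k, a k ≤ m0 + (c * K / 3 * ((k : ℝ) + 1)) ^ (-(((2 : ℕ) : ℝ) / 2))) (N : ℕ) :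
    ∑ k ∈ range N, w ^ (k + 1) * a k ≤ m0 / (1 - w) + 3 * Z / (c * K) := by
  have hlog : ∑ k ∈ range N, w ^ (k + 1) / ((k : ℝ) + 1) ≤ Z := by
    have h1 := Real.hasSum_pow_div_log_of_abs_lt_one (x := w) (by rw [abs_of_nonneg hw0]; exact hw1)
    have h2 := sum_le_hasSum (range N) (fun k _ => by positivity) h1
    refine h2.trans ?_
    have h3 : -Z ≤ Real.log (1 - w) := by
      rw [Real.le_log_iff_exp_le (by linarith)]
      exact hwZ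
    linarith
  have h3 : ∀ k ∈ range N, w ^ (k + 1) * a k ≤ m0 * w ^ k +
      3 / (c * K) * (w ^ (k + 1) / ((k : ℝ) + 1)) := by
    intro k _
    have h4 : (c * K / 3 * ((k : ℝ) + 1)) ^ (-(((2 : ℕ) : ℝ) / 2)) =
        3 / (c * K) * (1 / ((k : ℝ) + 1)) := by
      have : (-(((2 : ℕ) : ℝ) / 2)) = (-1 : ℝ) := by norm_num
      rw [this, Real.rpow_neg_one]
      field_simp
    have h5 : w ^ (k + 1) ≤ w ^ k := pow_le_pow_of_le_one hw0 hw1.le (Nat.le_succ k)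
    have h7 : 0 ≤ w ^ (k + 1) := pow_nonneg hw0 _
    calc w ^ (k + 1) * a k ≤ w ^ (k + 1) * (m0 + 3 / (c * K) * (1 / ((k : ℝ) + 1))) := by
          rw [← h4]
          exact mul_le_mul_of_nonneg_left (ha k) h7
      _ = w ^ (k + 1) * m0 + 3 / (c * K) * (w ^ (k + 1) / ((k : ℝ) + 1)) := by ring
      _ ≤ w ^ k * m0 + 3 / (c * K) * (w ^ (k + 1) / ((k : ℝ) + 1)) :=
          add_le_add (mul_le_mul_of_nonneg_right h5 hm0) le_rfl
      _ = _ := by ring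
  have h9 : ∑ k ∈ range N, w ^ k ≤ (1 - w)⁻¹ :=
    sum_le_hasSum _ (fun k _ => pow_nonneg hw0 k) (hasSum_geometric_of_lt_one hw0 hw1)
  calc ∑ k ∈ range N, w ^ (k + 1) * a k ≤ ∑ k ∈ range N, (m0 * w ^ k +
      3 / (c * K) * (w ^ (k + 1) / ((k : ℝ) + 1))) := sum_le_sum h3
    _ = m0 * ∑ k ∈ range N, w ^ k + 3 / (c * K) * ∑ k ∈ range N, w ^ (k + 1) / ((k : ℝ) + 1) := by
        rw [sum_add_distrib, mul_sum, mul_sum]
    _ ≤ m0 * (1 - w)⁻¹ + 3 / (c * K) * Z :=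
        add_le_add (mul_le_mul_of_nonneg_left h9 hm0)
          (mul_le_mul_of_nonneg_left hlog (by positivity))
    _ = _ := by
        rw [div_eq_mul_inv]
        ring

theorem ker2 : S_KER2 := by
  obtain ⟨Cl, ml, c, hCl, hc, hlap⟩ := lap2
  obtain ⟨S, hS⟩ : ∃ S : ℝ, S = 3 / c := ⟨_, rfl⟩
  refine ⟨⌈S⌉₊ + Cl + 3, ml + 2, by omega, ?_⟩
  intro Z hZ L K lam r ρ κ₀ _ hlam hρ hκ hr hL hK
  obtain ⟨n1, n2, n3, n4, n5, n6, hL3, n8, n9, n10⟩ :=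
    Pool.Agent.Q257.LC.ker_nat Z ml r ρ K L (by omega) hρ hr hL hK
  obtain ⟨q1, hq1⟩ := hlap Z (by omega) L K lam (r - ρ) ρ (κ₀ + 1) hlam hρ hκ n1 n3 n4
  obtain ⟨q2, hq2⟩ := hlap Z (by omega) L (K / 2) lam (r - ρ) ρ (κ₀ + 1) hlam hρ hκ n1 n3 n5
  obtain ⟨q3, hq3⟩ := hlap Z (by omega) L (K - K / 2) lam (r - ρ) ρ (κ₀ + 1) hlam hρ hκ n1
    n3 n6
  refine ⟨q1 + q2 + q3 + 2, ?_⟩
  intro q hq σ hσ δ h1 h2 ω R hGd w U x y hw0 hw1 hwZ hUR hxR hxU hyU N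
  have hqr : (2 : ℝ) ≤ q := by
    have : 2 ≤ q := by omega
    exact_mod_cast this
  have hδ : 0 < δ := by
    by_contra h
    push Not at h
    nlinarith
  have hδ1 : δ ≤ 1 := by nlinarith
  have hEv : Ev σ q K lam (r - ρ) ρ (κ₀ + 1) ω R :=
    Pool.Agent.Q277.LC.ge 2 L hL3 σ hσ q K lam (r - ρ) ρ κ₀ ω R (by omega) n10
      (by rw [n2]; exact hGd)
  obtain ⟨hσr, hEvr, hTr⟩ := Pool.Agent.Q187.LC.Rev.rev 2 L (by norm_num) hL3 σ hσ q K lam (r - ρ)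
    ρ (κ₀ + 1) ω R δ
  have hB := Pool.Agent.Q68.LC.bas2 _ (ed ∘ σ) ω R δ hδ.le hδ1
  obtain ⟨T, hT⟩ : ∃ T, T = TT (ed ∘ σ) ω R δ (K * (q * ms 2 L)) := ⟨_, rfl⟩
  obtain ⟨R', hR'⟩ : ∃ R', R' = R.image (gp (ed ∘ σ) ω (K * (q * ms 2 L))) := ⟨_, rfl⟩
  have hT0 : ∀ x y, 0 ≤ T x y := by
    rw [hT]
    exact hB.1 _
  have hrow : ∀ x, ∑ y, T x y = 1 := by
    rw [hT]
    exact hB.2.1 _
  have hcol : ∀ y, ∑ x, T x y = 1 := by
    rw [hT]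
    exact hB.2.2.1 _
  have hz : ∀ a, a ∉ R → ∀ b ∈ R', T a b = 0 := by
    rw [hT, hR']
    exact hB.2.2.2.2.1 _
  have hL0 : (0 : ℝ) < L := by
    have : 0 < L := by omega
    exact_mod_cast this
  have hK0 : (0 : ℝ) < K := by exact_mod_cast n10
  have hZ0 : (0 : ℝ) < Z := by exact_mod_cast (by omega : 0 < Z)
  obtain ⟨m0, hm0⟩ : ∃ m0 : ℝ, m0 = Cl / (L : ℝ) ^ 2 := ⟨_, rfl⟩
  have hm0n : 0 ≤ m0 := by
    rw [hm0]
    positivity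
  obtain ⟨c9, hc9⟩ : ∃ c9 : ℝ, c9 = c / (Z : ℝ) ^ 9 := ⟨_, rfl⟩
  have hc90 : 0 < c9 := by rw [hc9]; positivity
  rw [← hT]
  have hCS : S ≤ ((⌈S⌉₊ + Cl + 3 : ℕ) : ℝ) := by
    push_cast
    have := Nat.le_ceil S
    have : (0 : ℝ) ≤ Cl := Nat.cast_nonneg _
    linarith
  have hCC : (Cl : ℝ) ≤ ((⌈S⌉₊ + Cl + 3 : ℕ) : ℝ) := by
    push_cast
    have : (0 : ℝ) ≤ (⌈S⌉₊ : ℝ) := Nat.cast_nonneg _
    linarith
  have hw : 0 < 1 - w := by linarith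
  by_cases hy : y ∈ R'
  · have h3 : ∀ k ∈ range N, w ^ (k + 1) * (T * (dg U * T) ^ k) x y = 0 := fun k _ => by
      rw [pow_zero_col T R R' U hUR hz k x hxR y hy, mul_zero]
    rw [sum_eq_zero h3]
    positivity
  · -- the kernel of all powers
    have hUR2 : Disjoint (U \ R') R := disjoint_of_subset_left sdiff_subset hUR
    have hUR3 : Disjoint (U \ R') R' := sdiff_disjoint
    have hLap1 : ∀ f : (Fin 2 → ZMod L) → ℝ, (∀ x, 0 ≤ f x) → (∀ x ∈ R, f x = 0) →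
        ∑ x, f x ≤ 1 → ∑ x, (vecMul f T x) ^ 2 ≤
        max m0 (((∑ x, (f x) ^ 2) ^ (-(2 / ((2 : ℕ) : ℝ))) + c9 * K) ^
          (-(((2 : ℕ) : ℝ) / 2))) := by
      rw [hT, hm0, hc9]
      exact (hq1 q (by omega) σ hσ δ h1 h2 ω R hEv).1
    have hLap2 : ∀ f : (Fin 2 → ZMod L) → ℝ, (∀ x, 0 ≤ f x) → (∀ x ∈ R', f x = 0) →
        ∑ x, f x ≤ 1 → ∑ x, (vecMul f Tᵀ x) ^ 2 ≤
        max m0 (((∑ x, (f x) ^ 2) ^ (-(2 / ((2 : ℕ) : ℝ))) + c9 * K) ^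
          (-(((2 : ℕ) : ℝ) / 2))) := by
      rw [hT, hR', hm0, ← hTr, hc9]
      exact (hq1 q (by omega) (rvs σ) hσr δ h1 h2 _ _ (hEvr hEv)).1
    have hpow : ∀ k : ℕ, (T * (dg U * T) ^ k) x y ≤
        m0 + (c9 * K / 3 * ((k : ℝ) + 1)) ^ (-(((2 : ℕ) : ℝ) / 2)) := by
      intro k
      rcases Nat.eq_zero_or_pos k with hk | hk
      · subst hk
        rw [pow_zero, Matrix.mul_one]
        -- two halves
        obtain ⟨K1, hK1⟩ : ∃ K1, K1 = K / 2 := ⟨_, rfl⟩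
        obtain ⟨K2, hK2⟩ : ∃ K2, K2 = K - K / 2 := ⟨_, rfl⟩
        have hKK : K = K1 + K2 := by omega
        obtain ⟨T1, hT1⟩ : ∃ T1, T1 = TT (ed ∘ σ) ω R δ (K1 * (q * ms 2 L)) := ⟨_, rfl⟩
        obtain ⟨ω1, hω1⟩ : ∃ ω1 : ℕ → Bool, ω1 = sh (K1 * (q * ms 2 L)) ω := ⟨_, rfl⟩
        obtain ⟨R1, hR1⟩ : ∃ R1, R1 = R.image (gp (ed ∘ σ) ω (K1 * (q * ms 2 L))) := ⟨_, rfl⟩
        obtain ⟨T2, hT2⟩ : ∃ T2, T2 = TT (ed ∘ σ) ω1 R1 δ (K2 * (q * ms 2 L)) := ⟨_, rfl⟩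
        have hTT : T = T1 * T2 := by
          rw [hT, hT1, hT2, hω1, hR1, hKK]
          exact TT_units Pool.Agent.Q68.LC.bas2 hσ ω R hδ.le hδ1 q K1 K2
        have hE1 : Ev σ q K1 lam (r - ρ) ρ (κ₀ + 1) ω R := by
          have h4 := (Pool.Agent.Q277.LC.sub 2 L hL3 σ hσ q K lam (r - ρ) ρ (κ₀ + 1) ω R hEv 0 K1
            (by omega)).2
          have h5 : sh (0 * (q * ms 2 L)) ω = ω := by
            funext k
            simp [sh]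
          have h6 : R.image (gp (ed ∘ σ) ω (0 * (q * ms 2 L))) = R := by
            rw [Nat.zero_mul]
            simp [gp]
          rw [h5, h6] at h4
          exact h4
        have hE2 : Ev σ q K2 lam (r - ρ) ρ (κ₀ + 1) ω1 R1 := by
          rw [hω1, hR1]
          exact (Pool.Agent.Q277.LC.sub 2 L hL3 σ hσ q K lam (r - ρ) ρ (κ₀ + 1) ω R hEv K1 K2
            (by omega)).2
        obtain ⟨-, hEvr2, hTr2⟩ := Pool.Agent.Q187.LC.Rev.rev 2 L (by norm_num) hL3 σ hσ q K2 lam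
          (r - ρ) ρ (κ₀ + 1) ω1 R1 δ
        have hB1' := Pool.Agent.Q68.LC.bas2 _ (ed ∘ σ) ω R δ hδ.le hδ1
        have hB2' := Pool.Agent.Q68.LC.bas2 _ (ed ∘ σ) ω1 R1 δ hδ.le hδ1
        have hy2 : y ∉ R1.image (gp (ed ∘ σ) ω1 (K2 * (q * ms 2 L))) := by
          intro h7
          apply hy
          rw [hR1, image_image] at h7
          rw [hR', hKK, add_mul, (Pool.Agent.Q68.LC.bas1 _ (ed ∘ σ) ω).1, sh_ed hσ, ← hω1]
          obtain ⟨a, ha, hay⟩ := mem_image.1 h7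
          exact mem_image.2 ⟨a, ha, hay⟩
        rw [hTT]
        refine one_bound T1 T2 ?_ ?_ ?_ ?_ ?_ ?_ R
          (R1.image (gp (ed ∘ σ) ω1 (K2 * (q * ms 2 L)))) 2 (by norm_num) m0 c9 K K1 K2 hc90 hK0
          ?_ ?_ hm0n ?_ ?_ x y hxR hy2
        · rw [hT1]
          exact hB1'.1 _
        · rw [hT1]
          exact hB1'.2.1 _
        · rw [hT1]
          exact hB1'.2.2.1 _
        · rw [hT2]
          exact hB2'.1 _
        · rw [hT2]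
          exact hB2'.2.1 _
        · rw [hT2]
          exact hB2'.2.2.1 _
        · rw [hK1]
          exact_mod_cast n8
        · rw [hK2]
          exact_mod_cast n9
        · rw [hT1, hm0, hK1, hc9]
          rw [hK1] at hE1
          exact (hq2 q (by omega) σ hσ δ h1 h2 ω R hE1).1
        · rw [hT2, hm0, ← hTr2, hc9]
          have hE3 := hEvr2 hE2
          subst hK2
          exact (hq3 q (by omega) (rvs σ) hσr δ h1 h2 _ _ hE3).1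
      · rw [pow_eq_sdiff T R R' U hUR hz k x hxR y]
        exact pow_bound T hT0 hrow hcol R R' (U \ R') hUR2 hUR3 2 (by norm_num) m0 c9 K hc90 hK0
          hm0n hLap1 hLap2 x y hxR hy k hk
    refine (green_sum2 (fun k => (T * (dg U * T) ^ k) x y) w m0 c9 K Z hw0 hw1 hwZ hm0n hc90 hK0
      hpow N).trans ?_
    rw [mul_add, add_comm]
    refine add_le_add ?_ ?_
    · have e1 : 3 * (Z : ℝ) / (c9 * K) = S * ((Z : ℝ) ^ 10 / K) := by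
        rw [hc9, hS]
        field_simp
      rw [e1]
      exact mul_le_mul_of_nonneg_right hCS (by positivity)
    · rw [hm0, div_div, mul_one_div]
      exact div_le_div_of_nonneg_right hCC (by positivity)

end Pool.Agent.U153
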