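import Pool.Agent.U153.PlRes
import Pool.Agent.U153.PlBtl
import Pool.Agent.U153.LcDev

/-!
# Planar project, part 12: the resolvent form of `phz`, `d = 2`
-/

set_option autoImplicit false
set_option linter.unusedSectionVars false

namespace Pool.Agent.U153

open Finset Equiv Matrix Q292.LC

section phz

variable {L : ℕ} [NeZero L]

theorem pl_chi_sum {r : ℕ} (hr : 1 ≤ r) (hrL : r ≤ L) {A : Finset (Fin 2 → ZMod L)}
    (hA : ∀ v, 2 * (A ∩ box v r).card ≤ r ^ 2) (z : Fin 2 → ZMod L) :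
    ∑ x, chi r A z x = 1 ∧ (∀ x, 0 ≤ chi r A z x ∧ chi r A z x ≤ 2 / (r : ℝ) ^ 2) := by
  have h1 := Finset.card_sdiff_add_card_inter (box z r) A
  rw [Pool.Agent.Q187.LC.Nas.card_box z r hrL, Finset.inter_comm] at h1
  have h2 := hA z
  have h3 : r ^ 2 ≤ 2 * (box z r \ A).card := by omega
  have hr0 : (0 : ℝ) < (r : ℝ) ^ 2 := by
    have : (0 : ℝ) < r := by exact_mod_cast hr
    positivity
  have h4 : (r : ℝ) ^ 2 ≤ 2 * ((box z r \ A).card : ℝ) := by exact_mod_cast h3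
  have h5 : 0 < ((box z r \ A).card : ℝ) := by linarith
  refine ⟨?_, fun x => ?_⟩
  · unfold chi
    rw [← Finset.sum_filter, Finset.sum_const, nsmul_eq_mul]
    have : (univ.filter fun x => x ∈ box z r \ A) = box z r \ A := by ext x; simp
    rw [this]
    field_simp
  · unfold chi
    split_ifs
    · refine ⟨by positivity, ?_⟩
      rw [div_le_div_iff₀ h5 hr0]
      linarith
    · exact ⟨le_rfl, by positivity⟩

/-- elementary properties of `phz` -/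
theorem pl_phz {r : ℕ} (hr : 1 ≤ r) (hrL : r ≤ L) {A : Finset (Fin 2 → ZMod L)}
    (hA : ∀ v, 2 * (A ∩ box v r).card ≤ r ^ 2) (z : Fin 2 → ZMod L) :
    ∑ x, phz r A z x = 0 ∧ ∑ x, |phz r A z x| ≤ 2 ∧
      ∑ x, (phz r A z x) ^ 2 ≤ 8 / (r : ℝ) ^ 2 := by
  have hr1 : (1 : ℝ) ≤ r := by exact_mod_cast hr
  have hr0 : (0 : ℝ) < (r : ℝ) ^ 2 := by positivity
  have hrL' : (r : ℝ) ≤ L := by exact_mod_cast hrL
  have hL0 : (0 : ℝ) < L := by linarith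
  have hV : (0 : ℝ) < (L : ℝ) ^ 2 := by positivity
  have hcard : ((univ : Finset (Fin 2 → ZMod L)).card : ℝ) = (L : ℝ) ^ 2 := by
    rw [Finset.card_univ]
    exact lc_vol
  obtain ⟨μ, hμ⟩ : ∃ μ : (Fin 2 → ZMod L) → ℝ, μ = fun x =>
    (∑ z' : Fin 2 → ZMod L, chi r A z' x) / (L : ℝ) ^ 2 := ⟨_, rfl⟩
  have hphz : ∀ x, phz r A z x = chi r A z x - μ x := fun x => by rw [hμ]; rfl
  have hμ0 : ∀ x, 0 ≤ μ x := fun x => by
    rw [hμ]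
    exact div_nonneg (Finset.sum_nonneg fun z' _ => ((pl_chi_sum hr hrL hA z').2 x).1) hV.le
  have hμs : ∑ x, μ x = 1 := by
    rw [hμ]
    simp only
    rw [← Finset.sum_div, Finset.sum_comm]
    simp only [(pl_chi_sum hr hrL hA _).1]
    rw [Finset.sum_const, nsmul_eq_mul, mul_one, hcard, div_self hV.ne']
  have hμle : ∀ x, μ x ≤ 2 / (L : ℝ) ^ 2 := fun x => by
    rw [hμ]
    simp only
    refine div_le_div_of_nonneg_right ?_ hV.le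
    calc ∑ z' : Fin 2 → ZMod L, chi r A z' x ≤
        ∑ z' : Fin 2 → ZMod L, (if x ∈ box z' r then 2 / (r : ℝ) ^ 2 else 0) := by
          refine Finset.sum_le_sum fun z' _ => ?_
          split_ifs with h
          · exact ((pl_chi_sum hr hrL hA z').2 x).2
          · unfold chi
            rw [if_neg]
            intro h'
            exact h (Finset.mem_sdiff.1 h').1
      _ = 2 := by
          rw [← Finset.sum_filter, Finset.sum_const, nsmul_eq_mul,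
            Pool.Agent.Q187.LC.Nas.card_cover x r hrL]
          push_cast
          field_simp
  obtain ⟨hs, hp⟩ := pl_chi_sum hr hrL hA z
  have habs : ∀ x, |phz r A z x| ≤ chi r A z x + μ x := fun x => by
    rw [hphz]
    have := (hp x).1
    have := hμ0 x
    rw [abs_le]
    constructor <;> linarith
  have h1 : ∑ x, |phz r A z x| ≤ 2 := by
    refine (Finset.sum_le_sum fun x _ => habs x).trans ?_
    rw [Finset.sum_add_distrib, hs, hμs]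
    norm_num
  refine ⟨?_, h1, ?_⟩
  · simp only [hphz]
    rw [Finset.sum_sub_distrib, hs, hμs, sub_self]
  · have h2 : ∀ x, |phz r A z x| ≤ 4 / (r : ℝ) ^ 2 := by
      intro x
      have h3 : 2 / (L : ℝ) ^ 2 ≤ 2 / (r : ℝ) ^ 2 :=
        div_le_div_of_nonneg_left (by norm_num) hr0 (pow_le_pow_left₀ (by linarith) hrL' 2)
      have h4 : 4 / (r : ℝ) ^ 2 = 2 / (r : ℝ) ^ 2 + 2 / (r : ℝ) ^ 2 := by ring
      have := habs x
      have := (hp x).2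
      have := hμle x
      linarith
    calc ∑ x, (phz r A z x) ^ 2 = ∑ x, |phz r A z x| * |phz r A z x| := by
          refine Finset.sum_congr rfl fun x _ => ?_
          rw [← sq, sq_abs]
      _ ≤ ∑ x, 4 / (r : ℝ) ^ 2 * |phz r A z x| :=
          Finset.sum_le_sum fun x _ => mul_le_mul_of_nonneg_right (h2 x) (abs_nonneg _)
      _ = 4 / (r : ℝ) ^ 2 * ∑ x, |phz r A z x| := by rw [Finset.mul_sum]
      _ ≤ 4 / (r : ℝ) ^ 2 * 2 := mul_le_mul_of_nonneg_left h1 (by positivity)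
      _ = 8 / (r : ℝ) ^ 2 := by ring

end phz

theorem inv_image {V : Type} [Fintype V] [DecidableEq V] (g : Perm V) (A : Finset V)
    (h : Q292.LC.Inv g A) : A.image g = A := by
  refine Finset.eq_of_subset_of_card_le ?_ ?_
  · intro x hx
    obtain ⟨a, ha, rfl⟩ := Finset.mem_image.1 hx
    exact h a ha
  · rw [Finset.card_image_of_injective _ g.injective]

/-- the resolvent form of `phz` in a good environment -/
theorem pl_lam : ∃ (C m : ℕ), 1 ≤ C ∧ ∀ Z : ℕ, C ≤ Z →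
    ∀ (L K lam r₁ ρ κ₀ : ℕ) [NeZero L], lam ≤ Z → ρ ≤ Z → κ₀ + 1 ≤ Z →
    Z ^ m ≤ r₁ → 8 * Z ^ m ≤ L → Z ^ m ≤ K → K ≤ L ^ 2 → (L : ℝ) ^ 2 ≤ Real.exp Z →
    ∃ q₀ : ℕ, ∀ q ≥ q₀,
    ∀ σ : ℕ → (Fin 2 → ZMod L) × Fin 2, Per σ → ∀ δ : ℝ, 1 ≤ δ * q → δ * q ≤ 2 →
    ∀ (ω : ℕ → Bool) (A : Finset (Fin 2 → ZMod L)), Gd σ q K lam r₁ ρ κ₀ ω A →
    Q292.LC.Inv (gp (ed ∘ σ) ω (K * (q * ms 2 L))) A → ∀ r : ℕ, 1 ≤ r → r ≤ L →
    (∀ v, 2 * (A ∩ box v r).card ≤ r ^ 2) → ∀ w : ℝ, 0 ≤ w → w < 1 →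
    Real.exp (-(Z : ℝ)) ≤ 1 - w → ∀ z,
    phz r A z ⬝ᵥ ((1 - w • (dg (univ \ A) * TT (ed ∘ σ) ω A δ (K * (q * ms 2 L))))⁻¹ *ᵥ
      phz r A z) ≤ C * (1 / (r : ℝ) ^ 2 + (Z : ℝ) ^ 10 / K) := by
  obtain ⟨Cl, ml, c, hCl, hc, hlap⟩ := lap2
  obtain ⟨c', hc'⟩ : ∃ c' : ℝ, c' = min c 1 := ⟨_, rfl⟩
  have hc'0 : 0 < c' := by rw [hc']; exact lt_min hc one_pos
  have hc'1 : c' ≤ 1 := by rw [hc']; exact min_le_right _ _
  have hc'c : c' ≤ c := by rw [hc']; exact min_le_left _ _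
  obtain ⟨S, hS⟩ : ∃ S : ℝ, S = (32 * Cl + 12) / c' := ⟨_, rfl⟩
  refine ⟨⌈S⌉₊ + Cl + ⌈1 / c'⌉₊ + 48, ml + 12, by omega, ?_⟩
  intro Z hZ L K lam r₁ ρ κ₀ _ hlam hρ hκ hr hL hK hKL hLZ
  have hS0 : 0 ≤ S := by rw [hS]; positivity
  have hZ3 : 3 ≤ Z := by omega
  have hZ1 : 1 ≤ Z := by omega
  have p1 : Z ^ (ml + 2) ≤ Z ^ (ml + 12) := Nat.pow_le_pow_right hZ1 (by omega)
  obtain ⟨n1, n2, n3, n4, -, -, hL3, -, -, n10⟩ :=
    Pool.Agent.Q257.LC.ker_nat Z ml r₁ ρ K L hZ3 hρ (by omega) (by omega) (by omega)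
  obtain ⟨q1, hq1⟩ := hlap Z (by omega) L K lam (r₁ - ρ) ρ (κ₀ + 1) hlam hρ hκ n1 n3 n4
  refine ⟨q1 + 2, ?_⟩
  intro q hq σ hσ δ h1 h2 ω A hGd hInv r hr1 hrL hAr w hw0 hw1 hwZ z
  obtain ⟨hδ, hδ1⟩ := Pool.Agent.Q277.LC.del_pos (by omega : 2 ≤ q) h1 h2
  have hEv : Ev σ q K lam (r₁ - ρ) ρ (κ₀ + 1) ω A :=
    Pool.Agent.Q277.LC.ge 2 L hL3 σ hσ q K lam (r₁ - ρ) ρ κ₀ ω A (by omega) n10
      (by rw [n2]; exact hGd)
  obtain ⟨hσr, hEvr, hTr⟩ := Pool.Agent.Q187.LC.Rev.rev 2 L (by norm_num) hL3 σ hσ q K lam (r₁ - ρ)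
    ρ (κ₀ + 1) ω A δ
  have hB := Pool.Agent.Q68.LC.bas2 _ (ed ∘ σ) ω A δ hδ.le hδ1
  have himg := inv_image _ _ hInv
  rw [himg] at hEvr hTr
  obtain ⟨T, hT⟩ : ∃ T, T = TT (ed ∘ σ) ω A δ (K * (q * ms 2 L)) := ⟨_, rfl⟩
  have hT0 : ∀ x y, 0 ≤ T x y := by
    rw [hT]
    exact hB.1 _
  have hrow : ∀ x, ∑ y, T x y = 1 := by
    rw [hT]
    exact hB.2.1 _
  have hcol : ∀ y, ∑ x, T x y = 1 := by
    rw [hT]
    exact hB.2.2.1 _
  have hTA : ∀ x, x ∉ A → ∀ b ∈ A, T x b = 0 := by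
    intro x hx b hb
    rw [hT]
    refine hB.2.2.2.2.1 _ x hx b ?_
    rw [himg]
    exact hb
  have hTA' : ∀ a ∈ A, ∀ b, b ∉ A → T a b = 0 := by
    intro a ha b hb
    rw [hT, hB.2.2.2.1 _ a ha b, if_neg]
    intro h
    exact hb (h ▸ hInv a ha)
  have hL0 : (0 : ℝ) < L := by exact_mod_cast (by omega : 0 < L)
  have hK0 : (0 : ℝ) < K := by exact_mod_cast n10
  have hZ0 : (0 : ℝ) < Z := by exact_mod_cast (by omega : 0 < Z)
  have hZ1r : (1 : ℝ) ≤ Z := by exact_mod_cast hZ1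
  have hKLr : (K : ℝ) ≤ (L : ℝ) ^ 2 := by exact_mod_cast hKL
  have hL2 : (0 : ℝ) < (L : ℝ) ^ 2 := by positivity
  have hZ9 : (1 : ℝ) ≤ (Z : ℝ) ^ 9 := one_le_pow₀ hZ1r
  obtain ⟨κ, hκd⟩ : ∃ κ : ℝ, κ = c / (Z : ℝ) ^ 9 * K := ⟨_, rfl⟩
  have hκ0 : 0 < κ := by rw [hκd]; positivity
  obtain ⟨x, hx⟩ : ∃ x : ℝ, x = c' * K / ((L : ℝ) ^ 2 * (Z : ℝ) ^ 9) := ⟨_, rfl⟩
  have hx0 : 0 < x := by rw [hx]; positivity
  have hx1 : x ≤ 1 := by
    rw [hx, div_le_one (by positivity)]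
    calc c' * K ≤ 1 * (L : ℝ) ^ 2 := by gcongr
      _ ≤ (L : ℝ) ^ 2 * (Z : ℝ) ^ 9 := by
          rw [one_mul]
          exact le_mul_of_one_le_right hL2.le hZ9
  have hcZ : 1 ≤ c' * Z := by
    have : 1 / c' ≤ Z := (Nat.le_ceil _).trans (by exact_mod_cast (by omega : ⌈1 / c'⌉₊ ≤ Z))
    rw [div_le_iff₀ hc'0] at this
    linarith
  have hxZ : Real.exp (-(Z : ℝ)) ≤ x := by
    have h3 : (Z : ℝ) ^ 10 ≤ K := by
      have : Z ^ 10 ≤ K := (Nat.pow_le_pow_right hZ1 (by omega)).trans hK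
      exact_mod_cast this
    have h4 : (Z : ℝ) ^ 9 ≤ c' * K := by
      calc (Z : ℝ) ^ 9 ≤ (c' * Z) * (Z : ℝ) ^ 9 := le_mul_of_one_le_left (by positivity) hcZ
        _ = c' * (Z : ℝ) ^ 10 := by ring
        _ ≤ c' * K := mul_le_mul_of_nonneg_left h3 hc'0.le
    have h5 : 1 / (L : ℝ) ^ 2 ≤ x := by
      rw [hx, div_le_div_iff₀ hL2 (by positivity)]
      nlinarith
    refine le_trans ?_ h5
    rw [Real.exp_neg, one_div]
    exact inv_anti₀ hL2 hLZ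
  obtain ⟨f1, f2, f3⟩ := pl_phz hr1 hrL hAr z
  have hl := hq1 q (by omega) σ hσ δ h1 h2 ω A hEv
  have hl' := hq1 q (by omega) (rvs σ) hσr δ h1 h2 _ _ (hEvr hEv)
  rw [hTr] at hl'
  rw [← hT, ← hκd] at hl hl'
  have hxx : ∀ s : ℝ, 0 ≤ s → s / (1 + c * K / ((L : ℝ) ^ 2 * (Z : ℝ) ^ 9)) ≤ s / (1 + x) := by
    intro s hs
    refine div_le_div_of_nonneg_left hs (by linarith) ?_
    rw [hx]
    gcongr
  rw [← hT]
  refine (pl_resolvent hT0 hrow hcol A hTA hTA' (Cl / (L : ℝ) ^ 2) κ x w Z (by positivity) hκ0 hx0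
    hx1 hxZ hZ1 hw0 hw1 hwZ hl.1
    (fun f hf hf0 => (hl.2 f hf hf0).trans (hxx _ (Finset.sum_nonneg fun y _ => sq_nonneg _)))
    hl'.1
    (fun f hf hf0 => (hl'.2 f hf hf0).trans (hxx _ (Finset.sum_nonneg fun y _ => sq_nonneg _)))
    (phz r A z) (fun a ha => phz_zero r A z a ha) f1 f2).trans ?_
  have hr0 : (0 : ℝ) < (r : ℝ) ^ 2 := by
    have : (0 : ℝ) < r := by exact_mod_cast hr1
    positivity
  have e1 : 6 * ∑ y, phz r A z y ^ 2 ≤ 48 * (1 / (r : ℝ) ^ 2) := by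
    calc 6 * ∑ y, phz r A z y ^ 2 ≤ 6 * (8 / (r : ℝ) ^ 2) :=
          mul_le_mul_of_nonneg_left f3 (by norm_num)
      _ = _ := by ring
  have e2 : 32 * (Cl / (L : ℝ) ^ 2) * Z / x + 12 * Z / κ ≤ S * ((Z : ℝ) ^ 10 / K) := by
    have e3 : 32 * (Cl / (L : ℝ) ^ 2) * Z / x = 32 * Cl / c' * ((Z : ℝ) ^ 10 / K) := by
      rw [hx]
      field_simp
    have e4 : 12 * Z / κ ≤ 12 / c' * ((Z : ℝ) ^ 10 / K) := by
      calc 12 * Z / κ = 12 / c * ((Z : ℝ) ^ 10 / K) := by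
            rw [hκd]
            field_simp
        _ ≤ 12 / c' * ((Z : ℝ) ^ 10 / K) := by gcongr
    rw [hS]
    calc 32 * (Cl / (L : ℝ) ^ 2) * Z / x + 12 * Z / κ ≤
        32 * Cl / c' * ((Z : ℝ) ^ 10 / K) + 12 / c' * ((Z : ℝ) ^ 10 / K) := by
          rw [e3]
          exact add_le_add le_rfl e4
      _ = _ := by ring
  have g1 : (48 : ℝ) ≤ ((⌈S⌉₊ + Cl + ⌈1 / c'⌉₊ + 48 : ℕ) : ℝ) := by
    exact_mod_cast (by omega : 48 ≤ ⌈S⌉₊ + Cl + ⌈1 / c'⌉₊ + 48)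
  have g2 : S ≤ ((⌈S⌉₊ + Cl + ⌈1 / c'⌉₊ + 48 : ℕ) : ℝ) :=
    (Nat.le_ceil S).trans (by exact_mod_cast (by omega : ⌈S⌉₊ ≤ ⌈S⌉₊ + Cl + ⌈1 / c'⌉₊ + 48))
  have g3 := mul_le_mul_of_nonneg_right g1 (show 0 ≤ 1 / (r : ℝ) ^ 2 by positivity)
  have g4 := mul_le_mul_of_nonneg_right g2 (show 0 ≤ (Z : ℝ) ^ 10 / K by positivity)
  rw [mul_add]
  linarith

end Pool.Agent.U153
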