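import Pool.Agent.U153.PlEnv

/-!
# Planar project, part 5: decay of the square norm in a sparse environment, `d = 2`
-/

set_option autoImplicit false
set_option linter.unusedSectionVars false

namespace Pool.Agent.U153

open Finset Equiv Matrix Q292.LC
open Pool.Agent.Q257.LC (SMOb sum_vecMul vecMul_nonneg)

theorem pl_avg (G E : ℕ → ℝ) (q : ℕ) (δ X K : ℝ) (hδ : 0 < δ) (h1 : 1 ≤ δ * q) (hK : 0 ≤ K)
    (hE0 : ∀ i < q, 0 ≤ E i) (h : ∀ i < q, G i ≤ X + K * E i)
    (hE : ∀ i < q, G (i + 1) + δ / 2 * E i ≤ G i) : G q ≤ X + 2 * K * (G 0 - G q) := by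
  have hmono : ∀ i ≤ q, ∀ j ≤ i, G i ≤ G j := by
    intro i
    induction i with
    | zero =>
      intro _ j hj
      rw [Nat.le_zero.1 hj]
    | succ i ih =>
      intro hi j hj
      rcases Nat.lt_or_ge j (i + 1) with hj' | hj'
      · have g1 := hE i (by omega)
        have g2 := hE0 i (by omega)
        have g3 := ih (by omega) j (by omega)
        have g4 : 0 ≤ δ / 2 * E i := by positivity
        linarith
      · have : j = i + 1 := by omega
        rw [this]
  have hsumE : ∀ n ≤ q, δ / 2 * ∑ i ∈ Finset.range n, E i ≤ G 0 - G n := by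
    intro n
    induction n with
    | zero => intro _; simp
    | succ n ih =>
      intro hn
      rw [Finset.sum_range_succ, mul_add]
      have g1 := ih (by omega)
      have g2 := hE n (by omega)
      linarith
  have hsum : ∑ i ∈ Finset.range q, G i ≤ q * X + K * ∑ i ∈ Finset.range q, E i := by
    rw [Finset.mul_sum]
    calc ∑ i ∈ Finset.range q, G i ≤ ∑ i ∈ Finset.range q, (X + K * E i) :=
          Finset.sum_le_sum fun i hi => h i (Finset.mem_range.1 hi)
      _ = _ := by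
          rw [Finset.sum_add_distrib, Finset.sum_const, Finset.card_range, nsmul_eq_mul]
  have hlow : (q : ℝ) * G q ≤ ∑ i ∈ Finset.range q, G i := by
    calc (q : ℝ) * G q = ∑ _i ∈ Finset.range q, G q := by
          rw [Finset.sum_const, Finset.card_range, nsmul_eq_mul]
      _ ≤ _ := Finset.sum_le_sum fun i hi => hmono q le_rfl i (Finset.mem_range.1 hi).le
  have h2 := hsumE q le_rfl
  have h3 : (δ * q) * (G q - X) ≤ 2 * K * (G 0 - G q) := by
    have h4 : K * (δ / 2 * ∑ i ∈ Finset.range q, E i) ≤ K * (G 0 - G q) :=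
      mul_le_mul_of_nonneg_left h2 hK
    have h5 : δ * (q * G q) ≤ δ * (q * X + K * ∑ i ∈ Finset.range q, E i) :=
      mul_le_mul_of_nonneg_left (hlow.trans hsum) hδ.le
    nlinarith
  have h6 : 0 ≤ 2 * K * (G 0 - G q) := by
    have := hmono q le_rfl 0 (Nat.zero_le _)
    have : 0 ≤ G 0 - G q := by linarith
    positivity
  rcases le_or_gt (G q - X) 0 with h7 | h7
  · linarith
  · nlinarith

/-- one block, nonnegative functions -/
theorem pl_block_N (G : ℕ → ℝ) (hanti : Antitone G) (h0 : ∀ j, 0 ≤ G j) (hG1 : ∀ j, G j ≤ 1)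
    (K u r₀ L : ℕ) (A B : ℝ) (hA : 0 < A) (hB : 1 ≤ B) (hr₀ : 1 ≤ r₀) (hrL : 2 * r₀ ≤ L)
    (H : ∀ i, i + u + 1 ≤ K → ∀ M : ℕ, 1 ≤ M → M * r₀ ≤ L → G (i + u + 1) ≤ G i / 16 +
      A * M ^ 2 * (G (i + u) - G (i + u + 1)) + B / ((M * r₀ : ℕ) : ℝ) ^ 2) (k : ℕ) (hk : 1 ≤ k)
    (hkK : (k + 1) * u ≤ K) :
    G ((k + 1) * u) < G ((k - 1) * u) / 4 ∨ G ((k + 1) * u) ≤ 16 * B / (L : ℝ) ^ 2 ∨
      u * G ((k + 1) * u) ^ 2 / (32 * A * B) ≤ G (k * u) - G ((k + 1) * u) := by
  by_cases h1 : G ((k + 1) * u) < G ((k - 1) * u) / 4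
  · exact Or.inl h1
  right
  by_cases h2 : G ((k + 1) * u) ≤ 16 * B / (L : ℝ) ^ 2
  · exact Or.inl h2
  right
  push Not at h1 h2
  obtain ⟨a, ha⟩ : ∃ a, a = G ((k + 1) * u) := ⟨_, rfl⟩
  rw [← ha] at h1 h2 ⊢
  have hr0 : (1 : ℝ) ≤ r₀ := by exact_mod_cast hr₀
  have hrL' : 2 * (r₀ : ℝ) ≤ L := by exact_mod_cast hrL
  have hL0 : (0 : ℝ) < L := by linarith
  have hapos : 0 < a := lt_of_le_of_lt (by positivity) h2
  have ha1 : a ≤ 1 := by rw [ha]; exact hG1 _
  obtain ⟨x, hx⟩ : ∃ x : ℝ, x = Real.sqrt (4 * B / a) := ⟨_, rfl⟩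
  have hx2 : x ^ 2 = 4 * B / a := by rw [hx]; exact Real.sq_sqrt (by positivity)
  have hx1 : 1 ≤ x := by
    rw [hx]
    apply Real.le_sqrt_of_sq_le
    rw [one_pow, le_div_iff₀ hapos]
    linarith
  obtain ⟨M, hM⟩ : ∃ M : ℕ, M = ⌈x / r₀⌉₊ := ⟨_, rfl⟩
  have hM1 : 1 ≤ M := by
    rw [hM]
    exact Nat.one_le_iff_ne_zero.2 (Nat.ceil_pos.2 (by positivity)).ne'
  have hMx : x / r₀ ≤ M := by rw [hM]; exact Nat.le_ceil _
  have hMx1 : (M : ℝ) < x / r₀ + 1 := by rw [hM]; exact Nat.ceil_lt_add_one (by positivity)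
  have hxr : x / r₀ ≤ x := div_le_self (by linarith) hr0
  have hM2 : (M : ℝ) ^ 2 ≤ 16 * B / a := by
    have h3 : (M : ℝ) ≤ 2 * x := by linarith
    have h4 : (M : ℝ) ^ 2 ≤ (2 * x) ^ 2 := pow_le_pow_left₀ (Nat.cast_nonneg _) h3 2
    rw [mul_pow, hx2] at h4
    refine h4.trans (le_of_eq ?_)
    ring
  have hMr : x ≤ ((M * r₀ : ℕ) : ℝ) := by
    push_cast
    rw [div_le_iff₀ (by linarith)] at hMx
    exact hMx
  have hML : M * r₀ ≤ L := by
    by_contra hc
    push Not at hc
    have h3 : (L : ℝ) < M * r₀ := by exact_mod_cast hc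
    have h4 : (M : ℝ) * r₀ ≤ (x / r₀ + 1) * r₀ := mul_le_mul_of_nonneg_right hMx1.le (by linarith)
    have h5 : (x / r₀ + 1) * r₀ = x + r₀ := by field_simp
    have h6 : (L : ℝ) / 2 < x := by linarith
    have h7 : ((L : ℝ) / 2) ^ 2 < x ^ 2 := pow_lt_pow_left₀ h6 (by positivity) two_ne_zero
    rw [hx2, lt_div_iff₀ hapos] at h7
    rw [div_lt_iff₀ (by positivity)] at h2
    nlinarith
  have hBM : B / ((M * r₀ : ℕ) : ℝ) ^ 2 ≤ a / 4 := by
    have h3 : x ^ 2 ≤ ((M * r₀ : ℕ) : ℝ) ^ 2 := pow_le_pow_left₀ (by linarith) hMr 2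
    rw [hx2] at h3
    have h5 : 0 < 4 * B / a := by positivity
    rw [div_le_iff₀ (lt_of_lt_of_le h5 h3)]
    rw [div_le_iff₀ hapos] at h3
    linarith
  have hstep : ∀ t < u, a ^ 2 / (32 * A * B) ≤ G (k * u + t) - G (k * u + t + 1) := by
    intro t ht
    obtain ⟨i, hi⟩ : ∃ i, i = (k - 1) * u + t := ⟨_, rfl⟩
    have hiu : i + u = k * u + t := by
      rw [hi, Nat.sub_mul, one_mul]
      have : 1 * u ≤ k * u := Nat.mul_le_mul_right _ hk
      omega
    have hkk : (k + 1) * u = k * u + u := by ring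
    have h3 := H i (by omega) M hM1 hML
    rw [hiu] at h3
    have h4 : G i ≤ 4 * a := by
      have h5 : G i ≤ G ((k - 1) * u) := hanti (by omega)
      linarith
    have h6 : a ≤ G (k * u + t + 1) := by rw [ha]; exact hanti (by omega)
    have h7 : 0 ≤ G (k * u + t) - G (k * u + t + 1) := by
      have := hanti (Nat.le_succ (k * u + t))
      simp only [Nat.succ_eq_add_one] at this
      linarith
    have h8 : a / 2 ≤ A * M ^ 2 * (G (k * u + t) - G (k * u + t + 1)) := by linarith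
    have h9 : A * (M : ℝ) ^ 2 * (G (k * u + t) - G (k * u + t + 1)) ≤
        A * (16 * B / a) * (G (k * u + t) - G (k * u + t + 1)) :=
      mul_le_mul_of_nonneg_right (mul_le_mul_of_nonneg_left hM2 hA.le) h7
    have h10 : a / 2 ≤ A * (16 * B / a) * (G (k * u + t) - G (k * u + t + 1)) := h8.trans h9
    rw [div_le_iff₀ (by positivity)]
    have h11 : A * (16 * B / a) * (G (k * u + t) - G (k * u + t + 1)) =
        (A * (16 * B) * (G (k * u + t) - G (k * u + t + 1))) / a := by ring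
    rw [h11, le_div_iff₀ hapos] at h10
    nlinarith
  have hsum : ∀ t ≤ u, t * (a ^ 2 / (32 * A * B)) ≤ G (k * u) - G (k * u + t) := by
    intro t
    induction t with
    | zero => intro _; simp
    | succ t ih =>
      intro ht
      have h6 := ih (by omega)
      have h7 := hstep t (by omega)
      push_cast
      have e1 : k * u + (t + 1) = k * u + t + 1 := by ring
      rw [e1]
      linarith
  have h8 := hsum u le_rfl
  have hkk : (k + 1) * u = k * u + u := by ring
  rw [ha, hkk] at *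
  refine le_trans (le_of_eq ?_) h8
  ring

/-- blocks, mean zero -/
theorem pl_block_P (G : ℕ → ℝ) (hanti : Antitone G) (h0 : ∀ j, 0 ≤ G j)
    (K u : ℕ) (A : ℝ) (hA : 0 < A) (huA : (u : ℝ) ≤ 2 * A)
    (H : ∀ i, i + u + 1 ≤ K → G (i + u + 1) ≤ G i / 8 + A * (G (i + u) - G (i + u + 1)))
    (j : ℕ) (hj : 2 * j * u ≤ K) : (1 + j * (u / (2 * A))) * G (2 * j * u) ≤ G 0 := by
  have hstep : ∀ k, 1 ≤ k → (k + 1) * u ≤ K →
      (1 + u / (2 * A)) * G ((k + 1) * u) ≤ G ((k - 1) * u) := by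
    intro k hk hkK
    have hγ1 : (u : ℝ) / (2 * A) ≤ 1 := by
      rw [div_le_one (by positivity)]
      exact huA
    have hγ0 : 0 ≤ (u : ℝ) / (2 * A) := by positivity
    by_cases h1 : G ((k + 1) * u) < G ((k - 1) * u) / 4
    · have := h0 ((k + 1) * u)
      nlinarith
    · push Not at h1
      obtain ⟨a, ha⟩ : ∃ a, a = G ((k + 1) * u) := ⟨_, rfl⟩
      rw [← ha] at h1 ⊢
      have hs : ∀ t < u, a / (2 * A) ≤ G (k * u + t) - G (k * u + t + 1) := by
        intro t ht
        obtain ⟨i, hi⟩ : ∃ i, i = (k - 1) * u + t := ⟨_, rfl⟩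
        have hiu : i + u = k * u + t := by
          rw [hi, Nat.sub_mul, one_mul]
          have : 1 * u ≤ k * u := Nat.mul_le_mul_right _ hk
          omega
        have hkk : (k + 1) * u = k * u + u := by ring
        have h3 := H i (by omega)
        rw [hiu] at h3
        have h4 : G i ≤ 4 * a := by
          have h5 : G i ≤ G ((k - 1) * u) := hanti (by omega)
          linarith
        have h6 : a ≤ G (k * u + t + 1) := by rw [ha]; exact hanti (by omega)
        rw [div_le_iff₀ (by positivity)]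
        linarith
      have hsum : ∀ t ≤ u, t * (a / (2 * A)) ≤ G (k * u) - G (k * u + t) := by
        intro t
        induction t with
        | zero => intro _; simp
        | succ t ih =>
          intro ht
          have h6 := ih (by omega)
          have h7 := hs t (by omega)
          push_cast
          have e1 : k * u + (t + 1) = k * u + t + 1 := by ring
          rw [e1]
          linarith
      have h8 := hsum u le_rfl
      have hkk : (k + 1) * u = k * u + u := by ring
      rw [← hkk, ← ha] at h8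
      have h9 : G (k * u) ≤ G ((k - 1) * u) := hanti (Nat.mul_le_mul_right _ (by omega))
      have h10 : (u : ℝ) / (2 * A) * a = u * (a / (2 * A)) := by ring
      rw [add_mul, one_mul, h10]
      linarith
  have hγ0 : 0 ≤ (u : ℝ) / (2 * A) := by positivity
  have hpow : ∀ j, 2 * j * u ≤ K → (1 + u / (2 * A)) ^ j * G (2 * j * u) ≤ G 0 := by
    intro j
    induction j with
    | zero => intro _; simp
    | succ j ih =>
      intro hj
      have e1 : 2 * (j + 1) * u = (2 * j + 1 + 1) * u := by ring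
      have h3 := hstep (2 * j + 1) (by omega) (by rw [← e1]; exact hj)
      rw [← e1, Nat.add_sub_cancel] at h3
      have h4 := ih (by
        refine le_trans ?_ hj
        exact Nat.mul_le_mul_right _ (by omega))
      calc (1 + (u : ℝ) / (2 * A)) ^ (j + 1) * G (2 * (j + 1) * u) =
          (1 + (u : ℝ) / (2 * A)) ^ j * ((1 + (u : ℝ) / (2 * A)) * G (2 * (j + 1) * u)) := by ring
        _ ≤ (1 + (u : ℝ) / (2 * A)) ^ j * G (2 * j * u) :=
            mul_le_mul_of_nonneg_left h3 (by positivity)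
        _ ≤ G 0 := h4
  refine le_trans (mul_le_mul_of_nonneg_right ?_ (h0 _)) (hpow j hj)
  exact one_add_mul_le_pow (by linarith) j

end Pool.Agent.U153
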