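import Pool.Agent.U153.PlLap

/-!
# Planar project, part 6: decay of the square norm in a sparse environment, final form
-/

set_option autoImplicit false
set_option linter.unusedSectionVars false

namespace Pool.Agent.U153

open Finset Equiv Matrix Q292.LC
open Pool.Agent.Q257.LC (SMOb sum_vecMul vecMul_nonneg)

theorem fs_nonneg {d L : ℕ} [NeZero L] (σ : ℕ → (Fin d → ZMod L) × Fin d) (ω : ℕ → Bool)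
    (A : Finset (Fin d → ZMod L)) {δ : ℝ} (h0 : 0 ≤ δ) (h1 : δ ≤ 1)
    {f : (Fin d → ZMod L) → ℝ} (hf : ∀ x, 0 ≤ f x) (s : ℕ) (x : Fin d → ZMod L) :
    0 ≤ fs σ ω A δ f s x :=
  vecMul_nonneg _ _ ((Pool.Agent.Q68.LC.bas2 _ (ed ∘ σ) ω A δ h0 h1).1 _) hf x

theorem fs_sum {d L : ℕ} [NeZero L] (σ : ℕ → (Fin d → ZMod L) × Fin d) (ω : ℕ → Bool)
    (A : Finset (Fin d → ZMod L)) {δ : ℝ} (h0 : 0 ≤ δ) (h1 : δ ≤ 1)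
    (f : (Fin d → ZMod L) → ℝ) (s : ℕ) : ∑ x, fs σ ω A δ f s x = ∑ x, f x :=
  sum_vecMul _ _ ((Pool.Agent.Q68.LC.bas2 _ (ed ∘ σ) ω A δ h0 h1).2.1 _)

/-- all size conditions of a unit -/
def PlOk (L q u R lam r ρ κ₀ r₀ C : ℕ) (δ N : ℝ) : Prop :=
  3 ≤ L ∧ 0 < δ ∧ 32 * δ ≤ 1 ∧ C * δ ≤ 1 ∧ 1 ≤ δ * q ∧ δ * q ≤ 2 ∧ 1 ≤ u ∧
  R + 2 * ρ * u + 4 + ρ ≤ r ∧ 4 * lam ^ 2 * κ₀ ≤ u ∧ 4 * lam * (2 * ρ) ≤ q ∧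
  C * (lam * (2 * ρ) + 1) * u ≤ R ∧ 4 * R + 8 ≤ L ∧ R + 8 * r₀ + ρ ≤ r ∧ 16 * r₀ + ρ ≤ r ∧
  (((2 * (8 * r₀) + 1) * (lam * (ρ + 1)) : ℕ) : ℝ) ≤ N ∧
  Real.sqrt (N * (20 / Real.sqrt u)) + Real.exp (-(u : ℝ)) ≤ 1 / 16 ∧
  1 ≤ r₀ ∧ 8 * r₀ < L ∧ 34 * (lam * (ρ + 1)) ≤ r₀

section unit

variable {L : ℕ} [NeZero L]

theorem pl_unit_N {C : ℕ} (hS : SMOb 2 C) {Cn : ℝ} (hCn : 1 ≤ Cn)
    (hNash : ∀ (L : ℕ) [NeZero L] (r M b : ℕ),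
      1 ≤ r → 1 ≤ M → M * r ≤ L → 8 * r < L → 34 * b ≤ r → ∀ D : Finset (Fin 2 → ZMod L),
      (∀ v, (D ∩ bal v (16 * r)).card ≤ b) → ∀ f : (Fin 2 → ZMod L) → ℝ, (∀ x, 0 ≤ f x) →
      ∑ x ∈ univ \ Dms (8 * r) D, (f x) ^ 2 ≤ Cn * M ^ 2 * r ^ 3 * en D f +
        Cn / ((M * r : ℕ) : ℝ) ^ 2 * (∑ x, f x) ^ 2)
    {σ : ℕ → (Fin 2 → ZMod L) × Fin 2} (hσ : Per σ) {ω : ℕ → Bool}
    {A : Finset (Fin 2 → ZMod L)} {δ N : ℝ} {q u R lam r ρ κ₀ r₀ : ℕ}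
    (hok : PlOk L q u R lam r ρ κ₀ r₀ C δ N) (hE : Ev σ q (u + 1) lam r ρ κ₀ ω A)
    {f : (Fin 2 → ZMod L) → ℝ} (hf : ∀ x ∈ A, f x = 0) (hf0 : ∀ x, 0 ≤ f x)
    (hf1 : ∑ x, f x ≤ 1) (M : ℕ) (hM : 1 ≤ M) (hML : M * r₀ ≤ L) :
    ∑ x, fs σ ω A δ f ((u + 1) * q) x ^ 2 ≤ (∑ x, f x ^ 2) / 16 +
      2 * Cn * r₀ ^ 3 * M ^ 2 * (∑ x, fs σ ω A δ f (u * q) x ^ 2 -
        ∑ x, fs σ ω A δ f ((u + 1) * q) x ^ 2) + Cn / ((M * r₀ : ℕ) : ℝ) ^ 2 := by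
  obtain ⟨hL, hδ, hδ32, hC, h1, h2, hu, hr1, h4, h5, h6, h7, hr2, hr3, hN, hsm, hr0, h8, h34⟩ := hok
  have hδ1 : δ ≤ 1 := by linarith
  obtain ⟨D, hD1, hD2⟩ := pl_unit hS hL hσ hδ hδ32 hC h1 h2 hu hE hr1 h4 h5 h6 h7 hr2 hr3 hN hsm hf
  have hsum0 : 0 ≤ ∑ x, f x := Finset.sum_nonneg fun x _ => hf0 x
  have hkey := pl_avg (fun i => ∑ x, fs σ ω A δ f (u * q + i) x ^ 2)
    (fun i => en D (fs σ ω A δ f (u * q + i))) q δ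
    ((∑ x, f x ^ 2) / 16 + Cn / ((M * r₀ : ℕ) : ℝ) ^ 2) (Cn * M ^ 2 * r₀ ^ 3) hδ h1
    (by positivity) (fun i _ => en_nonneg _ _) ?_ (fun i hi => (hD2 i hi).2)
  · simp only [Nat.add_zero] at hkey
    have e1 : u * q + q = (u + 1) * q := by ring
    rw [e1] at hkey
    have e2 : 2 * (Cn * (M : ℝ) ^ 2 * (r₀ : ℝ) ^ 3) = 2 * Cn * r₀ ^ 3 * M ^ 2 := by ring
    rw [e2] at hkey
    linarith
  · intro i hi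
    have g1 := (hD2 i hi).1
    have g2 := hNash L r₀ M (lam * (ρ + 1)) hr0 hM hML h8 h34 D hD1
      (fs σ ω A δ f (u * q + i)) (fs_nonneg σ ω A hδ.le hδ1 hf0 _)
    rw [fs_sum σ ω A hδ.le hδ1] at g2
    have g3 : ∑ x, fs σ ω A δ f (u * q + i) x ^ 2 =
        ∑ x ∈ univ \ Dms (8 * r₀) D, fs σ ω A δ f (u * q + i) x ^ 2 +
        ∑ x ∈ Dms (8 * r₀) D, fs σ ω A δ f (u * q + i) x ^ 2 :=
      (Finset.sum_sdiff (Finset.subset_univ _)).symm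
    have g4 : Cn / ((M * r₀ : ℕ) : ℝ) ^ 2 * (∑ x, f x) ^ 2 ≤ Cn / ((M * r₀ : ℕ) : ℝ) ^ 2 := by
      refine mul_le_of_le_one_right (by positivity) ?_
      nlinarith
    change ∑ x, fs σ ω A δ f (u * q + i) x ^ 2 ≤ _
    rw [g3]
    linarith

theorem pl_unit_P {C : ℕ} (hS : SMOb 2 C) {Cp : ℝ} (hCp : 1 ≤ Cp)
    (hPoi : ∀ (L : ℕ) [NeZero L] (r b : ℕ),
      1 ≤ r → 8 * r < L → 34 * b ≤ r → ∀ D : Finset (Fin 2 → ZMod L),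
      (∀ v, (D ∩ bal v (16 * r)).card ≤ b) → ∀ f : (Fin 2 → ZMod L) → ℝ, (∑ x, f x = 0) →
      ∑ x ∈ univ \ Dms (8 * r) D, (f x) ^ 2 ≤ Cp * (L : ℝ) ^ 2 * r ^ 3 * en D f +
        ∑ x ∈ Dms (8 * r) D, (f x) ^ 2)
    {σ : ℕ → (Fin 2 → ZMod L) × Fin 2} (hσ : Per σ) {ω : ℕ → Bool}
    {A : Finset (Fin 2 → ZMod L)} {δ N : ℝ} {q u R lam r ρ κ₀ r₀ : ℕ}
    (hok : PlOk L q u R lam r ρ κ₀ r₀ C δ N) (hE : Ev σ q (u + 1) lam r ρ κ₀ ω A)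
    {f : (Fin 2 → ZMod L) → ℝ} (hf : ∀ x ∈ A, f x = 0) (hf1 : ∑ x, f x = 0) :
    ∑ x, fs σ ω A δ f ((u + 1) * q) x ^ 2 ≤ (∑ x, f x ^ 2) / 8 +
      2 * Cp * (L : ℝ) ^ 2 * r₀ ^ 3 * (∑ x, fs σ ω A δ f (u * q) x ^ 2 -
        ∑ x, fs σ ω A δ f ((u + 1) * q) x ^ 2) := by
  obtain ⟨hL, hδ, hδ32, hC, h1, h2, hu, hr1, h4, h5, h6, h7, hr2, hr3, hN, hsm, hr0, h8, h34⟩ := hok
  have hδ1 : δ ≤ 1 := by linarith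
  obtain ⟨D, hD1, hD2⟩ := pl_unit hS hL hσ hδ hδ32 hC h1 h2 hu hE hr1 h4 h5 h6 h7 hr2 hr3 hN hsm hf
  have hkey := pl_avg (fun i => ∑ x, fs σ ω A δ f (u * q + i) x ^ 2)
    (fun i => en D (fs σ ω A δ f (u * q + i))) q δ
    ((∑ x, f x ^ 2) / 8) (Cp * (L : ℝ) ^ 2 * r₀ ^ 3) hδ h1
    (by positivity) (fun i _ => en_nonneg _ _) ?_ (fun i hi => (hD2 i hi).2)
  · simp only [Nat.add_zero] at hkey
    have e1 : u * q + q = (u + 1) * q := by ring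
    rw [e1] at hkey
    have e2 : 2 * (Cp * (L : ℝ) ^ 2 * (r₀ : ℝ) ^ 3) = 2 * Cp * (L : ℝ) ^ 2 * r₀ ^ 3 := by ring
    rw [e2] at hkey
    exact hkey
  · intro i hi
    have g1 := (hD2 i hi).1
    have g2 := hPoi L r₀ (lam * (ρ + 1)) hr0 h8 h34 D hD1 (fs σ ω A δ f (u * q + i)) (by
      rw [fs_sum σ ω A hδ.le hδ1]; exact hf1)
    have g3 : ∑ x, fs σ ω A δ f (u * q + i) x ^ 2 =
        ∑ x ∈ univ \ Dms (8 * r₀) D, fs σ ω A δ f (u * q + i) x ^ 2 +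
        ∑ x ∈ Dms (8 * r₀) D, fs σ ω A δ f (u * q + i) x ^ 2 :=
      (Finset.sum_sdiff (Finset.subset_univ _)).symm
    change ∑ x, fs σ ω A δ f (u * q + i) x ^ 2 ≤ _
    rw [g3]
    linarith

/-- shift of a window by units -/
theorem pl_shift {σ : ℕ → (Fin 2 → ZMod L) × Fin 2} (hσ : Per σ) (ω : ℕ → Bool)
    (A : Finset (Fin 2 → ZMod L)) {δ : ℝ} (h0 : 0 ≤ δ) (h1 : δ ≤ 1)
    (f : (Fin 2 → ZMod L) → ℝ) (q i j : ℕ) :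
    fs σ (sh (i * (q * ms 2 L)) ω) (A.image (gp (ed ∘ σ) ω (i * (q * ms 2 L)))) δ
      (fs σ ω A δ f (i * q)) (j * q) = fs σ ω A δ f ((i + j) * q) := by
  rw [add_mul, fs_add hσ ω A h0 h1 f (i * q) (j * q), mul_assoc i q]
  rfl

end unit

theorem pl_sizes (Z lam ρ κ₀ C u R r₀ : ℕ) (hlam : lam ≤ Z) (hρ : ρ ≤ Z) (hκ : κ₀ ≤ Z)
    (hZ : 10 ^ 6 + 3 * C ≤ Z) (hu : u = Z ^ 16) (hr₀ : r₀ = Z ^ 3)
    (hR : R = C * (lam * (2 * ρ) + 1) * u) :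
    1 ≤ u ∧ 4 * lam ^ 2 * κ₀ ≤ u ∧ 4 * lam * (2 * ρ) ≤ 8 * Z ^ 2 ∧ R ≤ Z ^ 19 ∧
    R + 2 * ρ * u + 4 + ρ ≤ Z ^ 20 ∧ 4 * R + 8 ≤ 8 * Z ^ 20 ∧ R + 8 * r₀ + ρ ≤ Z ^ 20 ∧
    16 * r₀ + ρ ≤ Z ^ 20 ∧ (2 * (8 * r₀) + 1) * (lam * (ρ + 1)) ≤ 34 * Z ^ 5 ∧ 1 ≤ r₀ ∧
    8 * r₀ < 8 * Z ^ 20 ∧ 34 * (lam * (ρ + 1)) ≤ r₀ ∧ 2 * r₀ ≤ 8 * Z ^ 20 := by
  have hZ1 : 1 ≤ Z := by omega
  have hlρ : lam * ρ ≤ Z * Z := Nat.mul_le_mul hlam hρ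
  have hl1 : lam * (ρ + 1) ≤ Z * (Z + 1) := Nat.mul_le_mul hlam (by omega)
  have hl2 : lam * (ρ + 1) ≤ 2 * Z ^ 2 := by nlinarith
  have hu1 : 1 ≤ u := by rw [hu]; exact Nat.one_le_pow _ _ hZ1
  have hR19 : R ≤ Z ^ 19 := by
    rw [hR, hu]
    have h1 : C * (lam * (2 * ρ) + 1) ≤ Z ^ 3 := by
      have h2 : lam * (2 * ρ) + 1 ≤ 3 * Z ^ 2 := by nlinarith
      calc C * (lam * (2 * ρ) + 1) ≤ C * (3 * Z ^ 2) := Nat.mul_le_mul_left _ h2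
        _ = (3 * C) * Z ^ 2 := by ring
        _ ≤ Z * Z ^ 2 := Nat.mul_le_mul_right _ (by omega)
        _ = Z ^ 3 := by ring
    calc C * (lam * (2 * ρ) + 1) * Z ^ 16 ≤ Z ^ 3 * Z ^ 16 := Nat.mul_le_mul_right _ h1
      _ = Z ^ 19 := by ring
  have hZ18 : 2 * ρ * u ≤ 2 * Z ^ 17 := by
    rw [hu]
    calc 2 * ρ * Z ^ 16 ≤ 2 * Z * Z ^ 16 := Nat.mul_le_mul_right _ (by omega)
      _ = 2 * Z ^ 17 := by ring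
  have p1 : Z ^ 17 ≤ Z ^ 19 := Nat.pow_le_pow_right hZ1 (by norm_num)
  have p2 : Z ^ 3 ≤ Z ^ 19 := Nat.pow_le_pow_right hZ1 (by norm_num)
  have p3 : Z ≤ Z ^ 19 := Nat.le_self_pow (by norm_num) Z
  have p4 : Z ^ 20 = Z * Z ^ 19 := by ring
  have p5 : 1000000 * Z ^ 19 ≤ Z * Z ^ 19 := Nat.mul_le_mul_right _ (by omega)
  have p6 : 1 ≤ Z ^ 19 := Nat.one_le_pow _ _ hZ1
  have p7 : 4 * lam ^ 2 * κ₀ ≤ 4 * Z ^ 3 := by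
    calc 4 * lam ^ 2 * κ₀ ≤ 4 * Z ^ 2 * Z :=
          Nat.mul_le_mul (Nat.mul_le_mul_left _ (Nat.pow_le_pow_left hlam 2)) hκ
      _ = 4 * Z ^ 3 := by ring
  have p8 : 4 * Z ^ 3 ≤ Z ^ 16 := by
    calc 4 * Z ^ 3 ≤ Z * Z ^ 3 := Nat.mul_le_mul_right _ (by omega)
      _ = Z ^ 4 := by ring
      _ ≤ Z ^ 16 := Nat.pow_le_pow_right hZ1 (by norm_num)
  have p9 : 68 * Z ^ 2 ≤ Z ^ 3 := by
    calc 68 * Z ^ 2 ≤ Z * Z ^ 2 := Nat.mul_le_mul_right _ (by omega)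
      _ = Z ^ 3 := by ring
  have p10 : 1 ≤ Z ^ 3 := Nat.one_le_pow _ _ hZ1
  refine ⟨hu1, by rw [hu]; omega, by nlinarith, hR19, by omega, by omega, by omega, by omega, ?_,
    by omega, by omega, by omega, by omega⟩
  rw [hr₀]
  calc (2 * (8 * Z ^ 3) + 1) * (lam * (ρ + 1)) ≤ (17 * Z ^ 3) * (2 * Z ^ 2) :=
        Nat.mul_le_mul (by omega) hl2
    _ = 34 * Z ^ 5 := by ring

theorem pl_sm (Z u : ℕ) (hZ : 10 ^ 6 ≤ Z) (hu : u = Z ^ 16) :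
    Real.sqrt ((34 * Z ^ 5 : ℝ) * (20 / Real.sqrt u)) + Real.exp (-(u : ℝ)) ≤ 1 / 16 := by
  have hZr : (10 : ℝ) ^ 6 ≤ Z := by exact_mod_cast hZ
  have hZ0 : (0 : ℝ) < Z := by linarith [show (0 : ℝ) < 10 ^ 6 by norm_num]
  have h1 : Real.sqrt u = (Z : ℝ) ^ 8 := by
    rw [hu]
    push_cast
    rw [show (Z : ℝ) ^ 16 = ((Z : ℝ) ^ 8) ^ 2 by ring]
    exact Real.sqrt_sq (by positivity)
  have h2 : Real.sqrt ((34 * Z ^ 5 : ℝ) * (20 / Real.sqrt u)) ≤ 1 / 32 := by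
    rw [Real.sqrt_le_left (by norm_num), h1]
    have h3 : (34 * Z ^ 5 : ℝ) * (20 / (Z : ℝ) ^ 8) = 680 / (Z : ℝ) ^ 3 := by
      field_simp
      norm_num
    rw [h3, div_le_iff₀ (by positivity)]
    have h4 : (10 : ℝ) ^ 6 * 10 ^ 6 * 10 ^ 6 ≤ (Z : ℝ) ^ 3 := by
      have := pow_le_pow_left₀ (by norm_num) hZr 3
      refine le_trans (le_of_eq ?_) this
      norm_num
    nlinarith
  have h5 : Real.exp (-(u : ℝ)) ≤ 1 / 32 := by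
    have h6 : (32 : ℝ) ≤ u := by
      rw [hu]
      push_cast
      have : (Z : ℝ) ^ 1 ≤ (Z : ℝ) ^ 16 := pow_le_pow_right₀ (by linarith) (by norm_num)
      rw [pow_one] at this
      linarith
    rw [Real.exp_neg, one_div]
    refine inv_anti₀ (by norm_num) ?_
    have := Real.add_one_le_exp (u : ℝ)
    linarith
  linarith

end Pool.Agent.U153
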