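import Pool.Agent.U153.PlLap2

/-!
# Planar project, part 7: the analogue of `S_LAP` for `d = 2`
-/

set_option autoImplicit false
set_option linter.unusedSectionVars false

namespace Pool.Agent.U153

open Finset Equiv Matrix Q292.LC
open Pool.Agent.Q257.LC (SMOb sum_vecMul vecMul_nonneg)

/-- decay in a sparse environment, `d = 2` -/
def S_LAP2 : Prop := ∃ (C m : ℕ) (c : ℝ), 1 ≤ C ∧ 0 < c ∧ ∀ Z : ℕ, C ≤ Z →
  ∀ (L K lam r ρ κ₀ : ℕ) [NeZero L], lam ≤ Z → ρ ≤ Z → κ₀ ≤ Z →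
  Z ^ m ≤ r → 8 * Z ^ m ≤ L → Z ^ m ≤ K → ∃ q₀ : ℕ, ∀ q ≥ q₀,
  ∀ σ : ℕ → (Fin 2 → ZMod L) × Fin 2, Per σ → ∀ δ : ℝ, 1 ≤ δ * q → δ * q ≤ 2 →
  ∀ (ω : ℕ → Bool) (A : Finset (Fin 2 → ZMod L)), Ev σ q K lam r ρ κ₀ ω A →
  (∀ f : (Fin 2 → ZMod L) → ℝ, (∀ x, 0 ≤ f x) → (∀ x ∈ A, f x = 0) → ∑ x, f x ≤ 1 →
    ∑ x, (vecMul f (TT (ed ∘ σ) ω A δ (K * (q * ms 2 L))) x) ^ 2 ≤
    max (C / (L : ℝ) ^ 2) (((∑ x, (f x) ^ 2) ^ (-(2 / ((2 : ℕ) : ℝ))) + c / (Z : ℝ) ^ 9 * K) ^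
      (-(((2 : ℕ) : ℝ) / 2)))) ∧
  (∀ f : (Fin 2 → ZMod L) → ℝ, (∀ x ∈ A, f x = 0) → ∑ x, f x = 0 →
    ∑ x, (vecMul f (TT (ed ∘ σ) ω A δ (K * (q * ms 2 L))) x) ^ 2 ≤
      (∑ x, (f x) ^ 2) / (1 + c * K / ((L : ℝ) ^ 2 * (Z : ℝ) ^ 9)))

theorem lap2 : S_LAP2 := by
  obtain ⟨Cs, hCs1, hS⟩ := Pool.Agent.Q257.LC.smo 2 le_rfl
  have hSb : SMOb 2 Cs := hS
  obtain ⟨Cn, hCn, hNash⟩ := pl_nash
  obtain ⟨Cp, hCp, hPoi⟩ := pl_poinc
  obtain ⟨c₀, hc₀⟩ : ∃ c₀ : ℝ, c₀ = 1 / (64 * Cn ^ 2) := ⟨_, rfl⟩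
  have hCn2 : 1 ≤ Cn ^ 2 := one_le_pow₀ hCn
  have hc₀0 : 0 < c₀ := by rw [hc₀]; positivity
  have hc₀1 : c₀ ≤ 1 := by
    rw [hc₀, div_le_one (by positivity)]
    linarith
  obtain ⟨c', C₁, hc', hC₁, hseq⟩ := Pool.Agent.Q229.LC.Seq.seq 2 c₀ (by norm_num) hc₀0 hc₀1
  obtain ⟨C, hC⟩ : ∃ C : ℕ, C = 10 ^ 6 + 3 * Cs + ⌈16 * Cn⌉₊ + ⌈192 * Cn ^ 2⌉₊ + ⌈2 * C₁⌉₊ :=
    ⟨_, rfl⟩
  obtain ⟨c, hc⟩ : ∃ c : ℝ, c = min (c' / 2) (1 / (16 * Cp)) := ⟨_, rfl⟩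
  have hcpos : 0 < c := by rw [hc]; exact lt_min (by linarith) (by positivity)
  refine ⟨C, 26, c, by omega, hcpos, ?_⟩
  intro Z hZ L K lam r ρ κ₀ _ hlam hρ hκ hr hL hK
  have hZ6 : 10 ^ 6 + 3 * Cs ≤ Z := by omega
  have hZ1 : 1 ≤ Z := by omega
  obtain ⟨u, hu⟩ : ∃ u, u = Z ^ 16 := ⟨_, rfl⟩
  obtain ⟨r₀, hr₀⟩ : ∃ r₀, r₀ = Z ^ 3 := ⟨_, rfl⟩
  obtain ⟨R, hR⟩ : ∃ R, R = Cs * (lam * (2 * ρ) + 1) * u := ⟨_, rfl⟩
  obtain ⟨s1, s2, s3, s4, s5, s6, s7, s8, s9, s10, s11, s12, s13⟩ :=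
    pl_sizes Z lam ρ κ₀ Cs u R r₀ hlam hρ hκ hZ6 hu hr₀ hR
  have hpow : Z ^ 20 ≤ Z ^ 26 := Nat.pow_le_pow_right hZ1 (by norm_num)
  have hpow1 : 1 ≤ Z ^ 20 := Nat.one_le_pow _ _ hZ1
  have hZr : (10 : ℝ) ^ 6 ≤ Z := by exact_mod_cast (by omega : 10 ^ 6 ≤ Z)
  have hZ0 : (0 : ℝ) < Z := by linarith [show (0 : ℝ) < 10 ^ 6 by norm_num]
  have hZ1r : (1 : ℝ) ≤ Z := by exact_mod_cast hZ1
  refine ⟨64 + 2 * Cs + 8 * Z ^ 2, ?_⟩
  intro q hq σ hσ δ h1 h2 ω A hE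
  have hqr : ((64 + 2 * Cs + 8 * Z ^ 2 : ℕ) : ℝ) ≤ q := by exact_mod_cast hq
  push_cast at hqr
  have hCs0 : (0 : ℝ) ≤ Cs := Nat.cast_nonneg _
  have hZ2 : (0 : ℝ) ≤ 8 * (Z : ℝ) ^ 2 := by positivity
  have hq0 : (0 : ℝ) < q := by linarith
  have hδ : 0 < δ := by
    by_contra h
    push Not at h
    nlinarith
  have hδ32 : 32 * δ ≤ 1 := by nlinarith
  have hδ1 : δ ≤ 1 := by linarith
  have hCδ : Cs * δ ≤ 1 := by nlinarith
  have hL3 : 3 ≤ L := by omega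
  have hok : PlOk L q u R lam r ρ κ₀ r₀ Cs δ (34 * Z ^ 5 : ℝ) := by
    refine ⟨hL3, hδ, hδ32, hCδ, h1, h2, s1, by omega, s2, by omega, hR.ge, by omega, by omega,
      by omega, by exact_mod_cast s9, pl_sm Z u (by omega) hu, s10, by omega, s12⟩
  have hKu : 2 * u ≤ K := by
    have : 2 * Z ^ 16 ≤ Z ^ 26 := by
      calc 2 * Z ^ 16 ≤ Z * Z ^ 16 := Nat.mul_le_mul_right _ (by omega)
        _ = Z ^ 17 := by ring
        _ ≤ Z ^ 26 := Nat.pow_le_pow_right hZ1 (by norm_num)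
    omega
  have hL0 : (0 : ℝ) < L := by exact_mod_cast (by omega : 0 < L)
  have hur : (u : ℝ) = (Z : ℝ) ^ 16 := by rw [hu]; push_cast; ring
  have hr₀r : (r₀ : ℝ) = (Z : ℝ) ^ 3 := by rw [hr₀]; push_cast; ring
  have hu0 : (0 : ℝ) < u := by rw [hur]; positivity
  have hK0 : (0 : ℝ) < K := by
    have : 0 < K := by omega
    exact_mod_cast this
  have eTT : K * (q * ms 2 L) = K * q * ms 2 L := by ring
  rw [eTT]
  refine ⟨?_, ?_⟩
  · intro f hf0 hfA hf1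
    obtain ⟨G, hG⟩ : ∃ G : ℕ → ℝ, ∀ j, G j = ∑ x, fs σ ω A δ f (j * q) x ^ 2 := ⟨_, fun _ => rfl⟩
    have hG0 : ∀ j, 0 ≤ G j := fun j => by
      rw [hG]
      exact Finset.sum_nonneg fun x _ => sq_nonneg _
    have hanti : Antitone G := antitone_nat_of_succ_le fun j => by
      rw [hG, hG, add_mul, one_mul]
      exact fs_mono hσ ω A hδ.le hδ1 f (j * q) q
    have hG00 : G 0 = ∑ x, f x ^ 2 := by
      rw [hG, Nat.zero_mul, fs_zero_time]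
    have hf2 : ∑ x, f x ^ 2 ≤ 1 := by
      refine le_trans (Finset.sum_le_sum fun x _ => ?_) hf1
      have h3 : f x ≤ ∑ y, f y := Finset.single_le_sum (fun y _ => hf0 y) (Finset.mem_univ x)
      have h4 := hf0 x
      nlinarith
    have hG1 : ∀ j, G j ≤ 1 := fun j => (hanti (Nat.zero_le j)).trans (by rw [hG00]; exact hf2)
    have H : ∀ i, i + u + 1 ≤ K → ∀ M : ℕ, 1 ≤ M → M * r₀ ≤ L → G (i + u + 1) ≤ G i / 16 +
        (2 * Cn * r₀ ^ 3) * M ^ 2 * (G (i + u) - G (i + u + 1)) + Cn / ((M * r₀ : ℕ) : ℝ) ^ 2 := by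
      intro i hi M hM hML
      have hE1 := (Pool.Agent.Q277.LC.sub 2 L hL3 σ hσ q K lam r ρ κ₀ ω A hE i (u + 1)
        (by omega)).2
      have h3 := pl_unit_N hSb hCn hNash hσ hok hE1 (f := fs σ ω A δ f (i * q)) (by
          intro x hx
          refine fs_zero σ ω A hδ.le hδ1 hfA (i * q) x ?_
          rw [mul_assoc]
          exact hx) (fs_nonneg σ ω A hδ.le hδ1 hf0 _) (by
          rw [fs_sum σ ω A hδ.le hδ1]; exact hf1) M hM hML
      rw [pl_shift hσ ω A hδ.le hδ1 f q i (u + 1), pl_shift hσ ω A hδ.le hδ1 f q i u,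
        ← hG, ← hG, ← hG] at h3
      exact h3
    have hblock := pl_block_N G hanti hG0 hG1 K u r₀ L (2 * Cn * r₀ ^ 3) Cn (by
      have : (0 : ℝ) < r₀ := by rw [hr₀r]; positivity
      positivity) hCn s10 (by omega) H
    obtain ⟨n, hn⟩ : ∃ n, n = K / u := ⟨_, rfl⟩
    have hnu : n * u ≤ K := by rw [hn]; exact Nat.div_mul_le_self K u
    have hnu2 : K < n * u + u := by
      have := Nat.lt_div_mul_add (a := K) (b := u) (by omega)
      rw [← hn] at this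
      omega
    have hnu3 : K ≤ 2 * (n * u) := by omega
    have hnr : (K : ℝ) ≤ 2 * (n * u) := by exact_mod_cast hnu3
    have hv : (u : ℝ) / r₀ ^ 3 = (Z : ℝ) ^ 7 := by
      rw [hur, hr₀r]
      field_simp
    have hn10 : (Z : ℝ) ^ 9 ≤ n := by
      have h3 : Z ^ 26 ≤ 2 * (n * Z ^ 16) := by rw [← hu]; omega
      have h4 : (Z : ℝ) ^ 26 ≤ 2 * (n * (Z : ℝ) ^ 16) := by exact_mod_cast h3
      have h5 : (Z : ℝ) ^ 26 = (Z : ℝ) ^ 10 * (Z : ℝ) ^ 16 := by ring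
      have h6 : (Z : ℝ) ^ 10 ≤ 2 * n := by
        have h7 : (Z : ℝ) ^ 10 * (Z : ℝ) ^ 16 ≤ (2 * n) * (Z : ℝ) ^ 16 := by linarith
        exact le_of_mul_le_mul_right h7 (by positivity)
      have h8 : 2 * (Z : ℝ) ^ 9 ≤ (Z : ℝ) ^ 10 := by
        have : (Z : ℝ) ^ 10 = Z * (Z : ℝ) ^ 9 := by ring
        rw [this]
        exact mul_le_mul_of_nonneg_right (by linarith) (by positivity)
      linarith
    have hexp2 : (1 + 2 / ((2 : ℕ) : ℝ) : ℝ) = ((2 : ℕ) : ℝ) := by norm_num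
    have hsq := hseq (fun k => G (k * u)) n ((u : ℝ) / r₀ ^ 3) ((u : ℝ) / r₀ ^ 3)
      (16 * Cn / (L : ℝ) ^ 2) (by
        rw [hv]
        exact one_le_pow₀ hZ1r) (by
        rw [hv, hc₀]
        have h3 : 192 * Cn ^ 2 ≤ Z := by
          refine (Nat.le_ceil _).trans ?_
          exact_mod_cast (by omega : ⌈192 * Cn ^ 2⌉₊ ≤ Z)
        have h4 : (Z : ℝ) ≤ (Z : ℝ) ^ 7 := le_self_pow₀ hZ1r (by norm_num)
        rw [div_mul_eq_mul_div, one_mul, le_div_iff₀ (by positivity)]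
        linarith) (by positivity) (fun k => hG0 _)
      (fun k => hanti (Nat.mul_le_mul_right _ (Nat.le_succ k))) (by
        change G (0 * u) ≤ 1
        exact hG1 _) (by
        rw [hv]
        have h3 : 2 * C₁ ≤ Z := by
          refine (Nat.le_ceil _).trans ?_
          exact_mod_cast (by omega : ⌈2 * C₁⌉₊ ≤ Z)
        have h4 : Real.log ((Z : ℝ) ^ 7 + 1) ≤ (Z : ℝ) ^ 7 := by
          have := Real.log_le_sub_one_of_pos (show (0 : ℝ) < (Z : ℝ) ^ 7 + 1 by positivity)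
          linarith
        have h5 : (1 : ℝ) ≤ (Z : ℝ) ^ 7 := one_le_pow₀ hZ1r
        calc C₁ * (1 + Real.log ((Z : ℝ) ^ 7 + 1)) ≤ C₁ * (2 * (Z : ℝ) ^ 7) := by
              refine mul_le_mul_of_nonneg_left (by linarith) (by linarith)
          _ = (2 * C₁) * (Z : ℝ) ^ 7 := by ring
          _ ≤ Z * (Z : ℝ) ^ 7 := mul_le_mul_of_nonneg_right h3 (by positivity)
          _ = (Z : ℝ) ^ 8 := by ring
          _ ≤ (Z : ℝ) ^ 9 := pow_le_pow_right₀ hZ1r (by norm_num)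
          _ ≤ n := hn10) (by
        intro k hk hkn
        have hkK : (k + 1) * u ≤ K := (Nat.mul_le_mul_right _ (by omega)).trans hnu
        rcases hblock k hk hkK with h3 | h3 | h3
        · exact Or.inl h3
        · exact Or.inr (Or.inl h3)
        · right
          right
          refine le_trans ?_ h3
          rw [hexp2, Real.rpow_natCast]
          refine le_trans (mul_le_mul_of_nonneg_left (min_le_right _ _) hc₀0.le) (le_of_eq ?_)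
          rw [hc₀]
          have : (r₀ : ℝ) ≠ 0 := by rw [hr₀r]; positivity
          have : Cn ≠ 0 := by linarith
          field_simp
          ring)
    change G (n * u) ≤ _ at hsq
    have hGK : G K ≤ G (n * u) := hanti hnu
    have hgoal : ∑ x, (vecMul f (TT (ed ∘ σ) ω A δ (K * q * ms 2 L)) x) ^ 2 = G K := by
      rw [hG]
      rfl
    rw [hgoal]
    refine (hGK.trans hsq).trans (max_le_max ?_ ?_)
    · refine div_le_div_of_nonneg_right ?_ (by positivity)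
      refine (Nat.le_ceil _).trans ?_
      exact_mod_cast (by omega : ⌈16 * Cn⌉₊ ≤ C)
    · have e0 : G (0 * u) = ∑ x, f x ^ 2 := by rw [Nat.zero_mul]; exact hG00
      beta_reduce
      rw [e0]
      have hb : 0 ≤ (∑ x, f x ^ 2) ^ (-(2 / ((2 : ℕ) : ℝ)) : ℝ) :=
        Real.rpow_nonneg (Finset.sum_nonneg fun x _ => sq_nonneg _) _
      have hpos : 0 < c / (Z : ℝ) ^ 9 * K := by positivity
      refine Real.rpow_le_rpow_of_nonpos (by linarith) ?_ (by norm_num)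
      refine add_le_add le_rfl ?_
      rw [hv]
      have hcc : c ≤ c' / 2 := by rw [hc]; exact min_le_left _ _
      calc c / (Z : ℝ) ^ 9 * K ≤ (c' / 2) / (Z : ℝ) ^ 9 * K := by gcongr
        _ ≤ (c' / 2) / (Z : ℝ) ^ 9 * (2 * (n * u)) := by
            refine mul_le_mul_of_nonneg_left hnr (by positivity)
        _ = c' * (Z : ℝ) ^ 7 * n := by
            rw [hur]
            field_simp
  · intro f hfA hf1
    obtain ⟨G, hG⟩ : ∃ G : ℕ → ℝ, ∀ j, G j = ∑ x, fs σ ω A δ f (j * q) x ^ 2 := ⟨_, fun _ => rfl⟩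
    have hG0 : ∀ j, 0 ≤ G j := fun j => by
      rw [hG]
      exact Finset.sum_nonneg fun x _ => sq_nonneg _
    have hanti : Antitone G := antitone_nat_of_succ_le fun j => by
      rw [hG, hG, add_mul, one_mul]
      exact fs_mono hσ ω A hδ.le hδ1 f (j * q) q
    have hG00 : G 0 = ∑ x, f x ^ 2 := by
      rw [hG, Nat.zero_mul, fs_zero_time]
    have H : ∀ i, i + u + 1 ≤ K → G (i + u + 1) ≤ G i / 8 +
        (2 * Cp * (L : ℝ) ^ 2 * r₀ ^ 3) * (G (i + u) - G (i + u + 1)) := by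
      intro i hi
      have hE1 := (Pool.Agent.Q277.LC.sub 2 L hL3 σ hσ q K lam r ρ κ₀ ω A hE i (u + 1)
        (by omega)).2
      have h3 := pl_unit_P hSb hCp hPoi hσ hok hE1 (f := fs σ ω A δ f (i * q)) (by
          intro x hx
          refine fs_zero σ ω A hδ.le hδ1 hfA (i * q) x ?_
          rw [mul_assoc]
          exact hx) (by
          rw [fs_sum σ ω A hδ.le hδ1]; exact hf1)
      rw [pl_shift hσ ω A hδ.le hδ1 f q i (u + 1), pl_shift hσ ω A hδ.le hδ1 f q i u,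
        ← hG, ← hG, ← hG] at h3
      exact h3
    obtain ⟨J, hJ⟩ : ∃ J, J = K / (2 * u) := ⟨_, rfl⟩
    have hJ1 : J * (2 * u) ≤ K := by rw [hJ]; exact Nat.div_mul_le_self K (2 * u)
    have hJ2 : K < J * (2 * u) + 2 * u := by
      have := Nat.lt_div_mul_add (a := K) (b := 2 * u) (by omega)
      rw [← hJ] at this
      omega
    have hJ3 : 1 ≤ J := by
      rw [hJ]
      exact (Nat.one_le_div_iff (by omega)).2 hKu
    have hJ4 : K ≤ 4 * (J * u) := by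
      have e1 : J * (2 * u) = 2 * (J * u) := by ring
      have e2 : u ≤ J * u := Nat.le_mul_of_pos_left u hJ3
      omega
    have hJ5 : (K : ℝ) ≤ 4 * (J * u) := by exact_mod_cast hJ4
    have huA : (u : ℝ) ≤ 2 * (2 * Cp * (L : ℝ) ^ 2 * r₀ ^ 3) := by
      have g1 : Z ^ 16 ≤ Z ^ 26 := Nat.pow_le_pow_right hZ1 (by norm_num)
      have g2 : u ≤ L := by rw [hu]; omega
      have g3 : (u : ℝ) ≤ L := by exact_mod_cast g2
      have g4 : (1 : ℝ) ≤ L := by exact_mod_cast (by omega : 1 ≤ L)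
      have g5 : (L : ℝ) ≤ (L : ℝ) ^ 2 := le_self_pow₀ g4 (by norm_num)
      have g6 : (1 : ℝ) ≤ (r₀ : ℝ) ^ 3 := one_le_pow₀ (by exact_mod_cast s10)
      have g7 : (L : ℝ) ^ 2 ≤ Cp * (L : ℝ) ^ 2 * r₀ ^ 3 := by
        have : 1 * (L : ℝ) ^ 2 * 1 ≤ Cp * (L : ℝ) ^ 2 * r₀ ^ 3 := by gcongr
        linarith
      nlinarith
    have hP := pl_block_P G hanti hG0 K u (2 * Cp * (L : ℝ) ^ 2 * r₀ ^ 3) (by
      have : (0 : ℝ) < r₀ := by rw [hr₀r]; positivity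
      positivity) huA H J (by
        have e1 : 2 * J * u = J * (2 * u) := by ring
        omega)
    have hgoal : ∑ x, (vecMul f (TT (ed ∘ σ) ω A δ (K * q * ms 2 L)) x) ^ 2 = G K := by
      rw [hG]
      rfl
    rw [hgoal, ← hG00, le_div_iff₀ (by positivity)]
    have hGK : G K ≤ G (2 * J * u) := hanti (by
      have e1 : 2 * J * u = J * (2 * u) := by ring
      omega)
    refine le_trans ?_ hP
    rw [mul_comm]
    refine mul_le_mul ?_ hGK (hG0 _) (by positivity)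
    refine add_le_add le_rfl ?_
    have hcc : c ≤ 1 / (16 * Cp) := by rw [hc]; exact min_le_right _ _
    calc c * K / ((L : ℝ) ^ 2 * (Z : ℝ) ^ 9) ≤
        (1 / (16 * Cp)) * (4 * (J * u)) / ((L : ℝ) ^ 2 * (Z : ℝ) ^ 9) := by gcongr
      _ = J * (u / (2 * (2 * Cp * (L : ℝ) ^ 2 * r₀ ^ 3))) := by
          rw [hr₀r]
          have : Cp ≠ 0 := by linarith
          field_simp
          ring

end Pool.Agent.U153
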