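import Pool.Agent.U153.PlGeo

/-!
# Planar project, part 3: Nash and Poincaré inequalities off a sparse set
-/

set_option autoImplicit false
set_option linter.unusedSectionVars false

namespace Pool.Agent.U153

open Finset Equiv Matrix Q292.LC
open Pool.Agent.Q257.LC (td_comm td_tri mem_bal bal_mono box_sub)
open Pool.Agent.Q187.LC.Nas (card_cover card_box sum_cover var_id)

section dens

variable {L : ℕ} [NeZero L]

theorem pl_dens {r b : ℕ} {D : Finset (Fin 2 → ZMod L)} (hr : 1 ≤ r) (hb : 34 * b ≤ r)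
    (hD : ∀ v, (D ∩ bal v (16 * r)).card ≤ b) (v : Fin 2 → ZMod L) :
    2 * (Dms (8 * r) D ∩ Q292.LC.box v r).card ≤ r ^ 2 := by
  have h1 : (Dms (8 * r) D ∩ Q292.LC.box v r).card ≤ (Dms (8 * r) D ∩ bal v (2 * r)).card :=
    Finset.card_le_card (Finset.inter_subset_inter le_rfl (box_sub v r))
  have h2 : (Dms (8 * r) D ∩ bal v (2 * r)).card ≤ (2 * (8 * r) + 1) * b := by
    refine card_Dms v ?_
    refine (Finset.card_le_card (Finset.inter_subset_inter le_rfl (bal_mono v ?_))).trans (hD v)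
    omega
  have h3 : 2 * ((2 * (8 * r) + 1) * b) ≤ r ^ 2 := by nlinarith
  omega

theorem pl_dens_tot {r : ℕ} {Dm : Finset (Fin 2 → ZMod L)} (hr : 1 ≤ r) (hrL : r ≤ L)
    (hD : ∀ v, 2 * (Dm ∩ Q292.LC.box v r).card ≤ r ^ 2) : 2 * (Dm.card : ℝ) ≤ (L : ℝ) ^ 2 := by
  have h1 := sum_cover r hrL (∅ : Finset (Fin 2 → ZMod L)) (fun x => if x ∈ Dm then (1 : ℝ) else 0)
  simp only [Finset.sdiff_empty, Finset.sum_ite_mem, Finset.univ_inter, Finset.sum_const,
    nsmul_eq_mul, mul_one] at h1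
  have h2 : ∑ z : Fin 2 → ZMod L, ((Q292.LC.box z r ∩ Dm).card : ℝ) ≤
      ∑ _z : Fin 2 → ZMod L, ((r : ℝ) ^ 2 / 2) := by
    refine Finset.sum_le_sum fun z _ => ?_
    have := hD z
    rw [Finset.inter_comm] at this
    have h3 : ((2 * (Q292.LC.box z r ∩ Dm).card : ℕ) : ℝ) ≤ ((r ^ 2 : ℕ) : ℝ) := by
      exact_mod_cast this
    push_cast at h3
    linarith
  rw [h1, Finset.sum_const, Finset.card_univ, nsmul_eq_mul, Fintype.card_fun, ZMod.card,
    Fintype.card_fin] at h2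
  have hr0 : (0 : ℝ) < (r : ℝ) ^ 2 := by
    have : (0 : ℝ) < r := by exact_mod_cast hr
    positivity
  push_cast at h2
  nlinarith

end dens

theorem pl_nash : ∃ C : ℝ, 1 ≤ C ∧ ∀ (L : ℕ) [NeZero L] (r M b : ℕ),
    1 ≤ r → 1 ≤ M → M * r ≤ L → 8 * r < L → 34 * b ≤ r → ∀ D : Finset (Fin 2 → ZMod L),
    (∀ v, (D ∩ bal v (16 * r)).card ≤ b) → ∀ f : (Fin 2 → ZMod L) → ℝ, (∀ x, 0 ≤ f x) →
    ∑ x ∈ univ \ Dms (8 * r) D, (f x) ^ 2 ≤ C * M ^ 2 * r ^ 3 * en D f +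
      C / ((M * r : ℕ) : ℝ) ^ 2 * (∑ x, f x) ^ 2 := by
  obtain ⟨C, hC1, hC⟩ := Pool.Agent.Q187.LC.Nas.nas Pool.Agent.Q53.LC.poi 2 (by norm_num)
  refine ⟨C * (1458 * 4 ^ 5), by nlinarith, ?_⟩
  intro L _ r M b hr hM hML h8 hb D hD f hf
  have h1 := hC L r M hr hM hML (Dms (8 * r) D) (pl_dens hr hb hD) f hf
  have h2 := pl_near (D := D) (s := 4 * r) (b := b) (by omega) (by omega) (by omega) (by
    intro v
    have := hD v
    rwa [show 4 * (4 * r) = 16 * r by ring]) f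
  rw [show 2 * (4 * r) = 8 * r by ring] at h2
  rw [show 2 * 2 * r = 4 * r by ring] at h1
  have hr' : (0 : ℝ) < r := by exact_mod_cast hr
  have hE := en_nonneg D f
  refine h1.trans (add_le_add ?_ ?_)
  · have hCM : 0 ≤ C * (M : ℝ) ^ 2 / (r : ℝ) ^ 2 := by positivity
    refine (mul_le_mul_of_nonneg_left h2 hCM).trans (le_of_eq ?_)
    push_cast
    field_simp
  · have h3 : (C : ℝ) ≤ C * (1458 * 4 ^ 5) := by nlinarith
    have h4 : 0 ≤ (∑ x, f x) ^ 2 := sq_nonneg _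
    gcongr

theorem pl_poinc : ∃ C : ℝ, 1 ≤ C ∧ ∀ (L : ℕ) [NeZero L] (r b : ℕ),
    1 ≤ r → 8 * r < L → 34 * b ≤ r → ∀ D : Finset (Fin 2 → ZMod L),
    (∀ v, (D ∩ bal v (16 * r)).card ≤ b) → ∀ f : (Fin 2 → ZMod L) → ℝ, (∑ x, f x = 0) →
    ∑ x ∈ univ \ Dms (8 * r) D, (f x) ^ 2 ≤ C * (L : ℝ) ^ 2 * r ^ 3 * en D f +
      ∑ x ∈ Dms (8 * r) D, (f x) ^ 2 := by
  obtain ⟨C, hC1, hC⟩ := Pool.Agent.Q53.LC.poi 2 (by norm_num)
  refine ⟨C * (1458 * 4 ^ 5) * 2, by nlinarith, ?_⟩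
  intro L _ r b hr h8 hb D hD f hf
  obtain ⟨M, hM⟩ : ∃ M, M = L / r := ⟨_, rfl⟩
  have hMr : M * r ≤ L := by rw [hM]; exact Nat.div_mul_le_self L r
  have hMr2 : L < M * r + r := by
    have := Nat.lt_div_mul_add (a := L) (b := r) (by omega)
    rw [← hM] at this
    omega
  have hM1 : 1 ≤ M := by
    rcases Nat.eq_zero_or_pos M with h | h
    · rw [h] at hMr2
      omega
    · exact h
  obtain ⟨Dm, hDm⟩ : ∃ Dm, Dm = Dms (8 * r) D := ⟨_, rfl⟩
  have hdens : ∀ v, 2 * (Dm ∩ Q292.LC.box v r).card ≤ r ^ 2 := by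
    rw [hDm]
    exact pl_dens hr hb hD
  have htot := pl_dens_tot hr (by omega) hdens
  obtain ⟨N, hN⟩ : ∃ N, N = M * r := ⟨_, rfl⟩
  have hN7 : 7 * (L : ℝ) ≤ 8 * N := by
    have : 7 * L ≤ 8 * N := by rw [hN]; omega
    exact_mod_cast this
  have hL0 : (0 : ℝ) < L := by
    have := Nat.pos_of_ne_zero (NeZero.ne L)
    exact_mod_cast this
  -- near energy
  obtain ⟨E, hE⟩ : ∃ E : ℝ, E = ∑ x, ∑ y, (if x ∉ Dm ∧ y ∉ Dm ∧ td x y ≤ 4 * r then
    (f x - f y) ^ 2 else 0) := ⟨_, rfl⟩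
  have hEle : E ≤ 1458 * ((4 * r : ℕ) : ℝ) ^ 5 * en D f := by
    have h2 := pl_near (D := D) (s := 4 * r) (b := b) (by omega) (by omega) (by omega) (by
      intro v
      have := hD v
      rwa [show 4 * (4 * r) = 16 * r by ring]) f
    rw [show 2 * (4 * r) = 8 * r by ring, ← hDm, ← hE] at h2
    exact h2
  -- boxes
  have hbox : ∀ z : Fin 2 → ZMod L, ∑ x ∈ Q292.LC.box z N \ Dm, ∑ y ∈ Q292.LC.box z N \ Dm,
      (f x - f y) ^ 2 ≤ C * M ^ 4 * E := by
    intro z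
    have h1 := hC L r M hr hM1 hMr z Dm hdens f
    rw [← hN] at h1
    refine h1.trans ?_
    have h3 : ∑ x ∈ Q292.LC.box z N \ Dm, ∑ y ∈ Q292.LC.box z N \ Dm,
        (if td x y ≤ 2 * 2 * r then (f x - f y) ^ 2 else 0) ≤ E := by
      rw [hE, show 2 * 2 * r = 4 * r by ring]
      have e1 : ∀ x ∈ Q292.LC.box z N \ Dm, ∑ y ∈ Q292.LC.box z N \ Dm,
          (if td x y ≤ 4 * r then (f x - f y) ^ 2 else 0) ≤
          ∑ y, (if x ∉ Dm ∧ y ∉ Dm ∧ td x y ≤ 4 * r then (f x - f y) ^ 2 else 0) := by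
        intro x hx
        have e2 : ∀ y ∈ Q292.LC.box z N \ Dm, (if td x y ≤ 4 * r then (f x - f y) ^ 2 else 0) =
            (if x ∉ Dm ∧ y ∉ Dm ∧ td x y ≤ 4 * r then (f x - f y) ^ 2 else 0) := by
          intro y hy
          have g1 := (Finset.mem_sdiff.1 hx).2
          have g2 := (Finset.mem_sdiff.1 hy).2
          simp only [g1, g2, not_false_eq_true, true_and]
        rw [Finset.sum_congr rfl e2]
        refine Finset.sum_le_sum_of_subset_of_nonneg (Finset.subset_univ _) fun y _ _ => ?_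
        split_ifs
        · positivity
        · exact le_rfl
      refine (Finset.sum_le_sum e1).trans (Finset.sum_le_sum_of_subset_of_nonneg
        (Finset.subset_univ _) fun x _ _ => Finset.sum_nonneg fun y _ => ?_)
      split_ifs
      · positivity
      · exact le_rfl
    exact mul_le_mul_of_nonneg_left h3 (by positivity)
  have hcount : ∀ x y : Fin 2 → ZMod L, (L : ℝ) ^ 2 / 2 ≤
      ((univ.filter fun z : Fin 2 → ZMod L => x ∈ Q292.LC.box z N ∧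
        y ∈ Q292.LC.box z N).card : ℝ) := by
    intro x y
    have c1 := card_cover x N (by omega)
    have c2 := card_cover y N (by omega)
    have c3 := Finset.card_union_add_card_inter
      (univ.filter fun z : Fin 2 → ZMod L => x ∈ Q292.LC.box z N)
      (univ.filter fun z : Fin 2 → ZMod L => y ∈ Q292.LC.box z N)
    rw [← Finset.filter_and, c1, c2] at c3
    have c4 := Finset.card_le_univ ((univ.filter fun z : Fin 2 → ZMod L => x ∈ Q292.LC.box z N) ∪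
      (univ.filter fun z : Fin 2 → ZMod L => y ∈ Q292.LC.box z N))
    rw [Fintype.card_fun, ZMod.card, Fintype.card_fin] at c4
    have c5 : ((N ^ 2 + N ^ 2 : ℕ) : ℝ) ≤ ((L ^ 2 + (univ.filter fun z : Fin 2 → ZMod L =>
        x ∈ Q292.LC.box z N ∧ y ∈ Q292.LC.box z N).card : ℕ) : ℝ) := by
      rw [← c3]
      exact_mod_cast Nat.add_le_add_right c4 _
    push_cast at c5
    nlinarith
  have hall : (L : ℝ) ^ 2 / 2 * ∑ x ∈ univ \ Dm, ∑ y ∈ univ \ Dm, (f x - f y) ^ 2 ≤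
      (L : ℝ) ^ 2 * (C * M ^ 4 * E) := by
    have h1 : ∑ z : Fin 2 → ZMod L, ∑ x ∈ Q292.LC.box z N \ Dm, ∑ y ∈ Q292.LC.box z N \ Dm,
        (f x - f y) ^ 2 = ∑ x ∈ univ \ Dm, ∑ y ∈ univ \ Dm, ((univ.filter fun z :
          Fin 2 → ZMod L => x ∈ Q292.LC.box z N ∧ y ∈ Q292.LC.box z N).card : ℝ) *
          (f x - f y) ^ 2 := by
      have e1 : ∀ z : Fin 2 → ZMod L, ∑ x ∈ Q292.LC.box z N \ Dm, ∑ y ∈ Q292.LC.box z N \ Dm,
          (f x - f y) ^ 2 = ∑ x ∈ univ \ Dm, ∑ y ∈ univ \ Dm,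
          if x ∈ Q292.LC.box z N ∧ y ∈ Q292.LC.box z N then (f x - f y) ^ 2 else 0 := by
        intro z
        have e2 : Q292.LC.box z N \ Dm = (univ \ Dm).filter fun x => x ∈ Q292.LC.box z N := by
          ext x
          simp only [Finset.mem_sdiff, Finset.mem_filter, Finset.mem_univ, true_and]
          tauto
        rw [e2, Finset.sum_filter]
        refine Finset.sum_congr rfl fun x _ => ?_
        by_cases hx : x ∈ Q292.LC.box z N
        · rw [if_pos hx, Finset.sum_filter]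
          refine Finset.sum_congr rfl fun y _ => ?_
          simp only [hx, true_and]
        · rw [if_neg hx]
          exact (Finset.sum_eq_zero fun y _ => if_neg (fun h => hx h.1)).symm
      rw [Finset.sum_congr rfl fun z _ => e1 z, Finset.sum_comm]
      refine Finset.sum_congr rfl fun x _ => ?_
      rw [Finset.sum_comm]
      refine Finset.sum_congr rfl fun y _ => ?_
      rw [← Finset.sum_filter, Finset.sum_const, nsmul_eq_mul]
    have h2 : ∑ z : Fin 2 → ZMod L, ∑ x ∈ Q292.LC.box z N \ Dm, ∑ y ∈ Q292.LC.box z N \ Dm,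
        (f x - f y) ^ 2 ≤ (L : ℝ) ^ 2 * (C * M ^ 4 * E) := by
      refine (Finset.sum_le_sum fun z _ => hbox z).trans (le_of_eq ?_)
      rw [Finset.sum_const, Finset.card_univ, nsmul_eq_mul, Fintype.card_fun, ZMod.card,
        Fintype.card_fin]
      push_cast
      ring
    rw [h1] at h2
    refine le_trans ?_ h2
    rw [Finset.mul_sum]
    refine Finset.sum_le_sum fun x _ => ?_
    rw [Finset.mul_sum]
    exact Finset.sum_le_sum fun y _ => mul_le_mul_of_nonneg_right (hcount x y) (sq_nonneg _)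
  have hvar := var_id (univ \ Dm) f
  have hL2 : (0 : ℝ) < (L : ℝ) ^ 2 := by positivity
  have hall2 : ∑ x ∈ univ \ Dm, ∑ y ∈ univ \ Dm, (f x - f y) ^ 2 ≤ 2 * (C * M ^ 4 * E) := by
    nlinarith
  -- complement
  have hcG : ((univ \ Dm : Finset (Fin 2 → ZMod L)).card : ℝ) + (Dm.card : ℝ) = (L : ℝ) ^ 2 := by
    have h1 := Finset.card_sdiff_add_card_inter (univ : Finset (Fin 2 → ZMod L)) Dm
    rw [Finset.univ_inter, Finset.card_univ, Fintype.card_fun, ZMod.card, Fintype.card_fin] at h1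
    exact_mod_cast h1
  have hsplit : ∑ x ∈ univ \ Dm, f x = - ∑ x ∈ Dm, f x := by
    have h1 := Finset.sum_sdiff (Finset.subset_univ Dm) (f := f)
    rw [hf] at h1
    linarith
  have hCS : (∑ x ∈ Dm, f x) ^ 2 ≤ (Dm.card : ℝ) * ∑ x ∈ Dm, f x ^ 2 := sq_sum_le_card_mul_sum_sq
  rw [hsplit, neg_sq] at hvar
  obtain ⟨G, hG⟩ : ∃ G : ℝ, G = ((univ \ Dm : Finset (Fin 2 → ZMod L)).card : ℝ) := ⟨_, rfl⟩
  rw [← hG] at hvar hcG
  have hG2 : (L : ℝ) ^ 2 / 2 ≤ G := by linarith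
  have hGpos : 0 < G := by linarith
  have hDG : (Dm.card : ℝ) ≤ G := by linarith
  have hSD : 0 ≤ ∑ x ∈ Dm, f x ^ 2 := Finset.sum_nonneg fun x _ => sq_nonneg _
  have hE0 : 0 ≤ E := by
    rw [hE]
    refine Finset.sum_nonneg fun x _ => Finset.sum_nonneg fun y _ => ?_
    split_ifs
    · positivity
    · exact le_rfl
  rw [← hDm]
  have h5 : G * ∑ x ∈ univ \ Dm, f x ^ 2 ≤ C * M ^ 4 * E + G * ∑ x ∈ Dm, f x ^ 2 := by
    have := mul_le_mul_of_nonneg_right hDG hSD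
    linarith
  have h6 : C * M ^ 4 * E ≤ G * (C * (1458 * 4 ^ 5) * 2 * (L : ℝ) ^ 2 * r ^ 3 * en D f) := by
    have hE' := en_nonneg D f
    have hr' : (1 : ℝ) ≤ r := by exact_mod_cast hr
    have hMrR : (M : ℝ) * r ≤ L := by exact_mod_cast hMr
    have h7 : (M : ℝ) ^ 4 * (r : ℝ) ^ 4 ≤ (L : ℝ) ^ 4 := by
      rw [← mul_pow]
      exact pow_le_pow_left₀ (by positivity) hMrR 4
    have hC0 : 0 ≤ C := by linarith
    calc C * M ^ 4 * E ≤ C * M ^ 4 * (1458 * ((4 * r : ℕ) : ℝ) ^ 5 * en D f) :=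
          mul_le_mul_of_nonneg_left hEle (by positivity)
      _ = C * (1458 * 4 ^ 5) * ((M : ℝ) ^ 4 * (r : ℝ) ^ 4) * r * en D f := by
          push_cast
          ring
      _ ≤ C * (1458 * 4 ^ 5) * (L : ℝ) ^ 4 * r ^ 3 * en D f := by
          have h8 : (r : ℝ) ≤ (r : ℝ) ^ 3 := by
            have : (r : ℝ) ^ 1 ≤ (r : ℝ) ^ 3 := pow_le_pow_right₀ hr' (by norm_num)
            simpa using this
          gcongr
      _ = (L : ℝ) ^ 2 / 2 * (C * (1458 * 4 ^ 5) * 2 * (L : ℝ) ^ 2 * r ^ 3 * en D f) := by ring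
      _ ≤ G * (C * (1458 * 4 ^ 5) * 2 * (L : ℝ) ^ 2 * r ^ 3 * en D f) :=
          mul_le_mul_of_nonneg_right hG2 (by positivity)
  have h9 : G * ∑ x ∈ univ \ Dm, f x ^ 2 ≤
      G * (C * (1458 * 4 ^ 5) * 2 * (L : ℝ) ^ 2 * r ^ 3 * en D f + ∑ x ∈ Dm, f x ^ 2) := by
    rw [mul_add]
    linarith
  exact le_of_mul_le_mul_left h9 hGpos

end Pool.Agent.U153
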