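import Pool.Agent.U153.PlDev
import Pool.Agent.U153.LcSets

/-!
# Planar project, part 14: the Poisson-Dirichlet law on the two-dimensional torus at
polylogarithmic times
-/

set_option autoImplicit false

namespace Pool.Agent.U153

open Finset Equiv Q292.LC
open Pool.Agent.Y998.ST (stirExp nnRate stirLaw nn_nonneg law_nonneg)
open Pool.Agent.Y998.LP (NN bfrac tdist)
open Pool.Agent.TH268.PD (top pdm)
open Pool.Agent.R517.PDS (DR PP hom_shift dens QQ_mean II_eq one_cycle exists_tuple zero_box QQ)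
open Pool.Agent.Results.MP_b817cf_pr.LocalPoissonDirichlet (cycleFrac setFrac pdMean frac_eq pd_eq
  torusDist set_eq)

/-- DEV for stirring in dimension `d` with the exponent `m` -/
def DST (d m : ℕ) : Prop := ∀ δ₀ : ℝ, 0 < δ₀ → ∀ N₀ : ℕ, ∀ η : ℝ, 0 < η →
    ∃ L₀ : ℕ, ∀ (L : ℕ) [NeZero L], L₀ ≤ L → ∀ t : ℝ, (Real.log L) ^ m ≤ t →
    t ^ 2 ≤ (L : ℝ) ^ 3 → ∃ r : ℕ, 1 ≤ r ∧ r ≤ L ∧ N₀ ≤ r ∧ (d * r : ℝ) ≤ δ₀ * Real.sqrt t ∧
    stirExp (nnRate d L) t (fun g => Qb r g - Qv g) ≤ η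

/-- DEV for stirring, `d = 2` -/
theorem pl_dev_stir : ∃ m : ℕ, DST 2 m := by
  obtain ⟨m, h₀, hdev⟩ := pl_dev
  refine ⟨m + 1, ?_⟩
  intro δ₀ hδ₀ N₀ η hη
  obtain ⟨h, hh⟩ : ∃ h : ℕ, h = max h₀ ⌈((2 : ℕ) : ℝ) / δ₀⌉₊ + 1 := ⟨_, rfl⟩
  have hh0 : h₀ ≤ h := by rw [hh]; exact (le_max_left _ _).trans (Nat.le_succ _)
  have hh1 : ((2 : ℕ) : ℝ) / δ₀ ≤ h := by
    refine (Nat.le_ceil _).trans ?_
    rw [hh]
    exact_mod_cast (le_max_right _ _).trans (Nat.le_succ _)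
  have hh2 : 1 ≤ h := by rw [hh]; omega
  have hhp : (0 : ℝ) < h := by exact_mod_cast hh2
  obtain ⟨L₁, hL₁⟩ := hdev h hh0 η hη
  obtain ⟨T, hT⟩ : ∃ T : ℝ, T = 2 * ((N₀ : ℝ) * h) ^ 2 + 4 := ⟨_, rfl⟩
  refine ⟨max L₁ ⌈Real.exp T⌉₊, ?_⟩
  intro L _ hL t ht htL
  have hLa : L₁ ≤ L := (le_max_left _ _).trans hL
  have hLexp : Real.exp T ≤ L := (Nat.le_ceil _).trans
    (by exact_mod_cast (le_max_right _ _).trans hL)
  have hLpos : 1 ≤ L := Nat.pos_of_ne_zero (NeZero.ne L)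
  have hLr : (0 : ℝ) < L := by exact_mod_cast hLpos
  have hℓT : T ≤ Real.log L := by
    rw [Real.le_log_iff_exp_le hLr]
    exact hLexp
  have hsq0 : 0 ≤ 2 * ((N₀ : ℝ) * h) ^ 2 := by positivity
  have hℓ4 : 4 ≤ Real.log L := by linarith
  have hL3 : 3 ≤ L := by
    have h1 : T + 1 ≤ Real.exp T := Real.add_one_le_exp T
    have h2 : (3 : ℝ) ≤ L := by linarith
    exact_mod_cast h2
  have hpow : (Real.log L) ^ m * 4 ≤ (Real.log L) ^ (m + 1) := by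
    rw [pow_succ]
    exact mul_le_mul_of_nonneg_left hℓ4 (by positivity)
  have hpow1 : 1 ≤ (Real.log L) ^ m := one_le_pow₀ (by linarith)
  have ht4 : 4 ≤ t := by linarith
  have htT : T ≤ t := by
    have : Real.log L ≤ (Real.log L) ^ (m + 1) := le_self_pow₀ (by linarith) (by omega)
    linarith
  obtain ⟨K, hK⟩ : ∃ K : ℕ, K = ⌊t⌋₊ := ⟨_, rfl⟩
  have hKt : (K : ℝ) ≤ t := by rw [hK]; exact Nat.floor_le (by linarith)
  have htK : t < K + 1 := by rw [hK]; exact Nat.lt_floor_add_one t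
  have hK1r : (1 : ℝ) ≤ K := by linarith
  have hK1 : 1 ≤ K := by exact_mod_cast hK1r
  have hlogK : (Real.log L) ^ m ≤ K := by linarith
  have hK2 : K ^ 2 ≤ L ^ 3 := by
    have : (K : ℝ) ^ 2 ≤ (L : ℝ) ^ 3 := (pow_le_pow_left₀ (by linarith) hKt 2).trans htL
    exact_mod_cast this
  obtain ⟨q₀, hq₀⟩ := hL₁ L K hLa hlogK hK2
  -- the first two claims
  obtain ⟨σ, hσ⟩ := Pool.Agent.Q297.LC.exists_Per 2 L (by omega)
  obtain ⟨hr1, hrL, -⟩ := hq₀ (q₀ + 1) (by omega) σ hσ (1 / ((q₀ + 1 : ℕ) : ℝ))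
    (by
      have : ((q₀ + 1 : ℕ) : ℝ) ≠ 0 := by positivity
      rw [one_div_mul_cancel this])
    (by
      have : ((q₀ + 1 : ℕ) : ℝ) ≠ 0 := by positivity
      rw [one_div_mul_cancel this]
      norm_num)
  refine ⟨Nat.sqrt K / h, hr1, hrL, ?_, ?_, ?_⟩
  · rw [Nat.le_div_iff_mul_le (by omega), Nat.le_sqrt']
    have h1 : ((N₀ : ℝ) * h) ^ 2 ≤ K := by linarith
    exact_mod_cast h1
  · have h1 : ((Nat.sqrt K / h : ℕ) : ℝ) ≤ (Nat.sqrt K : ℝ) / h := Nat.cast_div_le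
    have h2 : (Nat.sqrt K : ℝ) ≤ Real.sqrt t :=
      Real.nat_sqrt_le_real_sqrt.trans (Real.sqrt_le_sqrt hKt)
    have hst : 0 ≤ Real.sqrt t := Real.sqrt_nonneg t
    calc ((2 : ℕ) : ℝ) * ((Nat.sqrt K / h : ℕ) : ℝ) ≤ ((2 : ℕ) : ℝ) * (Real.sqrt t / h) := by
          refine mul_le_mul_of_nonneg_left (h1.trans ?_) (Nat.cast_nonneg _)
          gcongr
      _ = (((2 : ℕ) : ℝ) / h) * Real.sqrt t := by ring
      _ ≤ δ₀ * Real.sqrt t := by
          refine mul_le_mul_of_nonneg_right ?_ hst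
          rw [div_le_iff₀ hhp]
          rwa [div_le_iff₀ hδ₀, mul_comm] at hh1
  · refine Pool.Agent.Q297.LC.stir_le_of_circuit (by omega) hL3 hK1 hKt (by linarith) ?_
      ⟨q₀, fun q hq σ hσ δ h1 h2 => (hq₀ q hq σ hσ δ h1 h2).2.2⟩
    intro g
    rw [abs_of_nonneg (lc_QQ_nonneg hr1 hrL g)]
    have h1 := lc_Qb_le hr1 hrL g
    have h2 := lc_Qv_nonneg g
    linarith

/-- long times -/
theorem pl_long (d : ℕ) (hd : 2 ≤ d) (A : ℝ) (hA : 0 < A) (L : ℕ) (hL1 : 1 ≤ L)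
    (hLA6 : A ^ 6 ≤ L) (t : ℝ) (ht00 : 0 ≤ t) (hcase : (L : ℝ) ^ 3 ≤ t ^ 2) :
    A * (L : ℝ) ^ (((d : ℝ) + 2) / (d + 1)) ≤ t := by
  have hd0 : (2 : ℝ) ≤ d := by exact_mod_cast hd
  have hL1r : (1 : ℝ) ≤ L := by exact_mod_cast hL1
  have hL0 : (0 : ℝ) < L := by linarith
  have h1 : (L : ℝ) ^ (((d : ℝ) + 2) / (d + 1)) ≤ (L : ℝ) ^ ((4 : ℝ) / 3) := by
    refine Real.rpow_le_rpow_of_exponent_le hL1r ?_
    rw [div_le_div_iff₀ (by positivity) (by norm_num)]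
    linarith
  have h2 : A ≤ (L : ℝ) ^ ((1 : ℝ) / 6) := by
    have h3 : (A ^ 6) ^ ((1 : ℝ) / 6) ≤ (L : ℝ) ^ ((1 : ℝ) / 6) :=
      Real.rpow_le_rpow (by positivity) hLA6 (by norm_num)
    have h4 : (A ^ 6) ^ ((1 : ℝ) / 6) = A := by
      rw [← Real.rpow_natCast, ← Real.rpow_mul hA.le]
      norm_num
    rwa [h4] at h3
  have h3 : (L : ℝ) ^ ((3 : ℝ) / 2) ≤ t := by
    have h4 : ((L : ℝ) ^ ((3 : ℝ) / 2)) ^ 2 ≤ t ^ 2 := by
      rw [← Real.rpow_natCast, ← Real.rpow_mul hL0.le]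
      have : (3 : ℝ) / 2 * ((2 : ℕ) : ℝ) = ((3 : ℕ) : ℝ) := by norm_num
      rw [this, Real.rpow_natCast]
      exact hcase
    exact (pow_le_pow_iff_left₀ (by positivity) ht00 (by norm_num)).1 h4
  calc A * (L : ℝ) ^ (((d : ℝ) + 2) / (d + 1)) ≤ (L : ℝ) ^ ((1 : ℝ) / 6) * (L : ℝ) ^ ((4 : ℝ) / 3) :=
        mul_le_mul h2 h1 (by positivity) (by positivity)
    _ = (L : ℝ) ^ ((3 : ℝ) / 2) := by
        rw [← Real.rpow_add hL0]
        norm_num
    _ ≤ t := h3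

/-- The Poisson-Dirichlet law at polylogarithmic times. -/
theorem gen_pd (d : ℕ) (hd : 2 ≤ d) (m : ℕ) (hm : DST d m) : ∀ (k : ℕ) (f : (Fin k → ℝ) → ℝ), Continuous f →
    (∃ C, ∀ u, |f u| ≤ C) → ∀ ε : ℝ, 0 < ε → ∃ L₀ : ℕ, ∀ (L : ℕ) [NeZero L], L₀ ≤ L →
    ∀ t : ℝ, (Real.log L) ^ m ≤ t →
    |stirExp (nnRate d L) t (fun g => f (fun i : Fin k => cycleFrac g i)) - pdMean f| ≤ ε := by
  intro k f hf hb ε hε
  obtain ⟨C₀, hC₀⟩ := hb
  obtain ⟨-, A, hA, hlong⟩ := Pool.Agent.Results.MP_b817cf_pr.SetsBeyondDiffusiveScale.result d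
    (by omega) k f hf ⟨C₀, hC₀⟩ ε hε
  obtain ⟨C, hC, hdist⟩ := Pool.Agent.Y998.LQ.t_dist d (by omega)
  obtain ⟨δT, hδT, N₀, hN₀, κT, hκT, htr⟩ :=
    Pool.Agent.R517.PDL.t_TRANS2 k f hf C₀ hC₀ ε hε
  obtain ⟨L₁, hL₁⟩ := hm (δT / C) (by positivity) N₀ κT hκT
  have hd0 : (2 : ℝ) ≤ d := by exact_mod_cast hd
  refine ⟨max L₁ (⌈A ^ 6⌉₊ + ⌈A⌉₊ + 3), ?_⟩
  intro L _ hL t ht
  have hLa : L₁ ≤ L := (le_max_left _ _).trans hL
  have hLb : ⌈A ^ 6⌉₊ + ⌈A⌉₊ + 3 ≤ L := (le_max_right _ _).trans hL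
  have hL3 : 3 ≤ L := by omega
  have hLA6 : A ^ 6 ≤ L := (Nat.le_ceil _).trans (by exact_mod_cast (by omega : ⌈A ^ 6⌉₊ ≤ L))
  have hLA : A ≤ L := (Nat.le_ceil _).trans (by exact_mod_cast (by omega : ⌈A⌉₊ ≤ L))
  have hLr : (3 : ℝ) ≤ L := by exact_mod_cast hL3
  have hL0 : (0 : ℝ) < L := by linarith
  have hL1 : (1 : ℝ) ≤ L := by linarith
  have hlog0 : 0 ≤ Real.log L := Real.log_natCast_nonneg L
  have ht00 : 0 ≤ t := (pow_nonneg hlog0 m).trans ht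
  rcases le_or_gt (t ^ 2) ((L : ℝ) ^ 3) with hcase | hcase
  · obtain ⟨r, hr1, hrL, hrN, hrd, hQ⟩ := hL₁ L hLa t ht hcase
    obtain ⟨z, hz⟩ := lc_exists_box hr1 hrL t κT hQ
    have ht0 : 0 < t := by
      rcases ht00.lt_or_eq with h | h
      · exact h
      · exfalso
        rw [← h, Real.sqrt_zero, mul_zero] at hrd
        have h1 : (1 : ℝ) ≤ r := by exact_mod_cast hr1
        nlinarith
    have hst : 0 < Real.sqrt t := Real.sqrt_pos.2 ht0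
    have key := htr (Fin d → ZMod L) (nnRate d L) nn_nonneg t ht00 (Q292.LC.box z r) (by
        rw [Pool.Agent.Q187.LC.Nas.card_box z r hrL]
        exact hrN.trans (Nat.le_self_pow (by omega) r)) (by
        intro x hx y hy
        refine (hdist L hL3 t ht0 x y).trans ?_
        rw [div_le_iff₀ hst]
        have h1 : (tdist x y : ℝ) ≤ d * r := by exact_mod_cast lc_tdist_box r z x y hx hy
        calc C * (tdist x y : ℝ) ≤ C * (δT / C * Real.sqrt t) :=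
              mul_le_mul_of_nonneg_left (h1.trans hrd) hC.le
          _ = δT * Real.sqrt t := by
              field_simp) Finset.univ (by
        simp only [lc_DR hrL]
        exact hz)
    simp only [frac_eq, pd_eq]
    exact key
  · exact hlong L hLA t (pl_long d hd A hA L (by omega) hLA6 t ht00 hcase.le)

/-- all of `K` given points are in one cycle with probability about `1 / K` -/
theorem gen_kpt (d : ℕ) (hd : 2 ≤ d) (m : ℕ) (hm : DST d m) : ∀ K : ℕ, 1 ≤ K → ∀ ε : ℝ, 0 < ε → ∃ L₀ : ℕ,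
    ∀ (L : ℕ) [NeZero L], L₀ ≤ L → ∀ t : ℝ, (Real.log L) ^ m ≤ t →
    ∀ b : Fin K → Fin d → ZMod L, Function.Injective b →
      |stirExp (nnRate d L) t (fun g =>
        (open Classical in if ∀ i j, g.SameCycle (b i) (b j) then (1 : ℝ) else 0)) - 1 / K| ≤
        ε := by
  intro K hK ε hε
  obtain ⟨C, hC, hdist⟩ := Pool.Agent.Y998.LQ.t_dist d (by omega)
  have hK1 : (1 : ℝ) ≤ K := by exact_mod_cast hK
  obtain ⟨A, hA, hlong⟩ := Pool.Agent.R517.PDS.kpt d (by omega) K hK ε hε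
  obtain ⟨δ, hδ⟩ : ∃ δ : ℝ, δ = ε / (20 * K * C) := ⟨_, rfl⟩
  have hδ0 : 0 < δ := by rw [hδ]; positivity
  have hδ2 : 20 * K * (C * δ) = ε := by rw [hδ]; field_simp
  obtain ⟨θ, hθ⟩ : ∃ θ : ℝ, θ = ε / (8 * K) := ⟨_, rfl⟩
  have hθ0 : 0 < θ := by rw [hθ]; positivity
  have hθ1 : 8 * K * θ = ε := by rw [hθ]; field_simp
  obtain ⟨N₀, hN₀⟩ := exists_nat_gt (24 * (K : ℝ) ^ 2 / ε + K)
  obtain ⟨L₁, hL₁⟩ := hm δ hδ0 N₀ (θ ^ 2) (by positivity)
  refine ⟨max L₁ (⌈A ^ 6⌉₊ + ⌈A⌉₊ + 3), ?_⟩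
  intro L _ hL t ht b hb
  have hLa : L₁ ≤ L := (le_max_left _ _).trans hL
  have hLb : ⌈A ^ 6⌉₊ + ⌈A⌉₊ + 3 ≤ L := (le_max_right _ _).trans hL
  have hL3 : 3 ≤ L := by omega
  have hLA6 : A ^ 6 ≤ L := (Nat.le_ceil _).trans (by exact_mod_cast (by omega : ⌈A ^ 6⌉₊ ≤ L))
  have hLA : A ≤ L := (Nat.le_ceil _).trans (by exact_mod_cast (by omega : ⌈A⌉₊ ≤ L))
  have hlog0 : 0 ≤ Real.log L := Real.log_natCast_nonneg L
  have ht00 : 0 ≤ t := (pow_nonneg hlog0 m).trans ht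
  rcases le_or_gt (t ^ 2) ((L : ℝ) ^ 3) with hcase | hcase
  · obtain ⟨r, hr1, hrL, hrN, hrd, hQ⟩ := hL₁ L hLa t ht hcase
    have hh := lc_hom hr1 hrL t _ hQ
    have ht0 : 0 < t := by
      rcases ht00.lt_or_eq with h | h
      · exact h
      · exfalso
        rw [← h, Real.sqrt_zero, mul_zero] at hrd
        have h1 : (1 : ℝ) ≤ r := by exact_mod_cast hr1
        have hd0 : (2 : ℝ) ≤ d := by exact_mod_cast hd
        nlinarith
    have hst : 0 < Real.sqrt t := Real.sqrt_pos.2 ht0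
    obtain ⟨B, hB⟩ : ∃ B, B = Pool.Agent.R517.PDS.box d L r := ⟨_, rfl⟩
    rw [← hB] at hh
    have hcard : B.card = r ^ d := by rw [hB]; exact lc_card_pbox hrL
    have hNB : N₀ ≤ B.card := by
      rw [hcard]
      exact hrN.trans (Nat.le_self_pow (by omega) r)
    have hNBr : (N₀ : ℝ) ≤ B.card := by exact_mod_cast hNB
    have hKB : 24 * (K : ℝ) ^ 2 / ε + K ≤ B.card := hN₀.le.trans hNBr
    have hpos24 : 0 < 24 * (K : ℝ) ^ 2 / ε := by positivity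
    have hKc : K ≤ B.card := by
      have : (K : ℝ) ≤ B.card := by linarith
      exact_mod_cast this
    have hB0 : 0 < B.card := by omega
    have hB0r : (0 : ℝ) < B.card := by exact_mod_cast hB0
    obtain ⟨η, hη⟩ : ∃ η : ℝ, η = C * δ := ⟨_, rfl⟩
    have hη0 : 0 ≤ η := by rw [hη]; positivity
    have hNN : ∀ v x y : Fin d → ZMod L, x ∈ B → y ∈ B →
        NN (nnRate d L) t (swap (v + x) (v + y)) ≤ η := by
      intro v x y hx hy
      rw [hB] at hx hy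
      refine (hdist L hL3 t ht0 (v + x) (v + y)).trans ?_
      rw [div_le_iff₀ hst]
      have h1 : (tdist (v + x) (v + y) : ℝ) ≤ d * r := by
        exact_mod_cast Pool.Agent.R517.PDS.tdist_box r v x y hx hy
      calc C * (tdist (v + x) (v + y) : ℝ) ≤ C * (δ * Real.sqrt t) :=
            mul_le_mul_of_nonneg_left (h1.trans hrd) hC.le
        _ = η * Real.sqrt t := by rw [hη]; ring
    have hNN0 : ∀ v, ∀ z ∈ B, NN (nnRate d L) t (swap v (v + z)) ≤ η := by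
      intro v z hz
      have h1 := hNN v 0 z (hB ▸ zero_box hr1) hz
      rwa [add_zero] at h1
    obtain ⟨n, hn⟩ : ∃ n : ℕ, K = n + 1 := ⟨K - 1, by omega⟩
    subst hn
    rw [← hη] at hδ2
    obtain ⟨Mn, hMn⟩ : ∃ Mn : ℝ, Mn = stirExp (nnRate d L) t
      (fun g => dens g Finset.univ (0 : Fin d → ZMod L) ^ n) := ⟨_, rfl⟩
    obtain ⟨Er, hEr⟩ : ∃ Er : ℝ, Er = n * (2 * η) + (n + 2 * (n : ℝ) ^ 2) / B.card +
      n * θ := ⟨_, rfl⟩
    have hmain : ∀ b' : Fin (n + 1) → Fin d → ZMod L, Function.Injective b' →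
        |(∑ g, stirLaw (nnRate d L) t g *
        (open Classical in if ∀ i j, g.SameCycle (b' i) (b' j) then (1 : ℝ) else 0)) - Mn| ≤ Er := by
      intro b' hb'
      have h1 := QQ_mean hL3 ht0.le B hB0 (b' 0) (fun i => b' i.succ)
        (fun i h => (Fin.succ_ne_zero i) (hb' h))
        (fun i j hij h => hij (Fin.succ_injective _ (hb' h))) η θ hη0 hθ0 hNN0 hh
      rw [← hMn, ← hEr] at h1
      have h2 : QQ (nnRate d L) t (b' 0) (fun i => b' i.succ) =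
          ∑ g, stirLaw (nnRate d L) t g *
        (open Classical in if ∀ i j, g.SameCycle (b' i) (b' j) then (1 : ℝ) else 0) := by
        unfold Pool.Agent.R517.PDS.QQ stirExp
        refine Finset.sum_congr rfl fun g _ => ?_
        beta_reduce
        rw [II_eq]
      rwa [h2] at h1
    obtain ⟨b₀, hb₀, hb₀B⟩ := exists_tuple B (n + 1) hKc
    have h3 := hmain b hb
    have h4 := hmain b₀ hb₀
    have h5 := one_cycle (nnRate d L) t hK b₀ hb₀ η hη0 (by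
      intro i j
      have := hNN 0 (b₀ i) (b₀ j) (hb₀B i) (hb₀B j)
      rwa [zero_add, zero_add] at this)
    have hErle : 2 * Er + (n + 1 : ℕ) * η ≤ ε := by
      have e1 : (((n + 1 : ℕ) : ℝ)) = n + 1 := by push_cast; rfl
      rw [e1] at hK1 hδ2 hθ1 hKB hpos24 ⊢
      have hn0 : (0 : ℝ) ≤ n := by positivity
      have g1 : (n + 2 * (n : ℝ) ^ 2) / B.card ≤ ε / 8 := by
        rw [div_le_iff₀ hB0r]
        have g2 : 24 * ((n : ℝ) + 1) ^ 2 / ε ≤ B.card := by linarith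
        rw [div_le_iff₀ hε] at g2
        nlinarith
      rw [hEr]
      nlinarith
    have h6 := abs_sub_le (∑ g, stirLaw (nnRate d L) t g *
        (open Classical in if ∀ i j, g.SameCycle (b i) (b j) then (1 : ℝ) else 0)) Mn
        (1 / ((n + 1 : ℕ) : ℝ))
    have h7 := abs_sub_le Mn (∑ g, stirLaw (nnRate d L) t g *
        (open Classical in if ∀ i j, g.SameCycle (b₀ i) (b₀ j) then (1 : ℝ) else 0))
        (1 / ((n + 1 : ℕ) : ℝ))
    have h4' := h4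
    rw [abs_sub_comm] at h4'
    unfold Pool.Agent.Y998.ST.stirExp
    linarith only [h3, h4', h5, h6, h7, hErle]
  · exact hlong L hLA t (pl_long d hd A hA L (by omega) hLA6 t ht00 hcase.le) b hb

/-- the two-point function -/
theorem gen_two (d : ℕ) (hd : 2 ≤ d) (m : ℕ) (hm : DST d m) : ∀ ε : ℝ, 0 < ε → ∃ L₀ : ℕ,
    ∀ (L : ℕ) [NeZero L], L₀ ≤ L → ∀ t : ℝ, (Real.log L) ^ m ≤ t →
    ∀ x y : Fin d → ZMod L, x ≠ y → |PP (nnRate d L) t x y - 1 / 2| ≤ ε := by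
  intro ε hε
  obtain ⟨L₀, hL₀⟩ := gen_kpt d hd m hm 2 (by norm_num) ε hε
  refine ⟨L₀, fun L _ hL t ht x y hxy => ?_⟩
  have hb : Function.Injective (![x, y] : Fin 2 → Fin d → ZMod L) := by
    intro i j hij
    fin_cases i <;> fin_cases j <;> simp_all
  have h := hL₀ L hL t ht ![x, y] hb
  have e1 : PP (nnRate d L) t x y = stirExp (nnRate d L) t (fun g =>
        (open Classical in if ∀ i j, g.SameCycle ((![x, y] : Fin 2 → Fin d → ZMod L) i)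
          ((![x, y] : Fin 2 → Fin d → ZMod L) j) then (1 : ℝ) else 0)) := by
    unfold Pool.Agent.R517.PDS.PP
    congr 1
    funext g
    have : (∀ i j, g.SameCycle ((![x, y] : Fin 2 → Fin d → ZMod L) i)
          ((![x, y] : Fin 2 → Fin d → ZMod L) j)) ↔ g.SameCycle x y := by
      constructor
      · intro h
        exact h 0 1
      · intro h i j
        fin_cases i <;> fin_cases j <;> simp [h, h.symm, Perm.SameCycle.refl]
    simp only [this]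
  rw [e1]
  exact_mod_cast h

/-- the Poisson-Dirichlet law for all sets -/
theorem gen_sets (d : ℕ) (hd : 2 ≤ d) (m : ℕ) (hm : DST d m) : ∀ (k : ℕ) (f : (Fin k → ℝ) → ℝ), Continuous f →
    (∃ C, ∀ u, |f u| ≤ C) → ∀ ε : ℝ, 0 < ε → ∃ N L₀ : ℕ, ∀ (L : ℕ) [NeZero L], L₀ ≤ L →
    ∀ t : ℝ, (Real.log L) ^ m ≤ t → ∀ S : Finset (Fin d → ZMod L), N ≤ S.card →
    |stirExp (nnRate d L) t (fun g => f (fun i : Fin k => setFrac S g i)) - pdMean f| ≤ ε := by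
  intro k f hf hb ε hε
  obtain ⟨C₀, hC₀⟩ := hb
  obtain ⟨⟨T, hT, κ, hκ, N₁, hfar⟩, -⟩ :=
    Pool.Agent.Results.MP_b817cf_pr.SetsBeyondDiffusiveScale.result d (by omega) k f hf ⟨C₀, hC₀⟩ ε hε
  obtain ⟨C, hC, hdist⟩ := Pool.Agent.Y998.LQ.t_dist d (by omega)
  obtain ⟨δT, hδT, N₀, hN₀, κT, hκT, htr⟩ :=
    Pool.Agent.R517.PDL.t_TRANS2 k f hf C₀ hC₀ ε hε
  obtain ⟨N₂, hN₂⟩ := exists_nat_gt (8 / κT)
  obtain ⟨L₁, hL₁⟩ := hm (δT / C) (by positivity) (N₀ + N₂) 1 one_pos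
  obtain ⟨L₂, hL₂⟩ := gen_two d hd m hm (κT / 16) (by positivity)
  have hd0 : (2 : ℝ) ≤ d := by exact_mod_cast hd
  refine ⟨N₁ + N₂, max (max L₁ L₂) (⌈Real.exp 1⌉₊ + ⌈(d / κ) ^ 8⌉₊ + ⌈T⌉₊ + 3), ?_⟩
  intro L _ hL t ht S hS
  have hLa : L₁ ≤ L := ((le_max_left _ _).trans (le_max_left _ _)).trans hL
  have hLa2 : L₂ ≤ L := ((le_max_right _ _).trans (le_max_left _ _)).trans hL
  have hLb : ⌈Real.exp 1⌉₊ + ⌈(d / κ) ^ 8⌉₊ + ⌈T⌉₊ + 3 ≤ L := (le_max_right _ _).trans hL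
  have hL3 : 3 ≤ L := by omega
  have hLe : Real.exp 1 ≤ L :=
    (Nat.le_ceil _).trans (by exact_mod_cast (by omega : ⌈Real.exp 1⌉₊ ≤ L))
  have hLκ : (d / κ) ^ 8 ≤ L :=
    (Nat.le_ceil _).trans (by exact_mod_cast (by omega : ⌈(d / κ) ^ 8⌉₊ ≤ L))
  have hLT : T ≤ L := (Nat.le_ceil _).trans (by exact_mod_cast (by omega : ⌈T⌉₊ ≤ L))
  have hLr : (3 : ℝ) ≤ L := by exact_mod_cast hL3
  have hL0 : (0 : ℝ) < L := by linarith
  have hL1r : (1 : ℝ) ≤ L := by linarith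
  have hlog1 : 1 ≤ Real.log L := by
    rw [Real.le_log_iff_exp_le hL0]
    exact hLe
  have ht1 : (Real.log L) ^ m ≤ t := ht
  have ht2 : (Real.log L) ^ m ≤ t := ht
  have ht00 : 0 ≤ t := (pow_nonneg (by linarith) m).trans ht1
  rcases le_or_gt (t ^ 2) ((L : ℝ) ^ 3) with hcase | hcase
  · obtain ⟨r, hr1, hrL, hrN, hrd, -⟩ := hL₁ L hLa t ht1 hcase
    have ht0 : 0 < t := lt_of_lt_of_le (pow_pos (by linarith) m) ht1
    have hst : 0 < Real.sqrt t := Real.sqrt_pos.2 ht0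
    obtain ⟨B, hB⟩ : ∃ B : Finset (Fin d → ZMod L), B = Q292.LC.box 0 r := ⟨_, rfl⟩
    have hcard : B.card = r ^ d := by
      rw [hB]; exact Pool.Agent.Q187.LC.Nas.card_box _ r hrL
    have hNB : N₀ + N₂ ≤ B.card := by
      rw [hcard]
      exact hrN.trans (Nat.le_self_pow (by omega) r)
    have hinv : ∀ M : ℕ, N₂ ≤ M → 1 / (M : ℝ) ≤ κT / 8 ∧ 0 < M := by
      intro M hM
      have h0 : (0 : ℝ) < 8 / κT := by positivity
      have h1 : 8 / κT ≤ (M : ℝ) := hN₂.le.trans (by exact_mod_cast hM)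
      have hM0 : (0 : ℝ) < M := lt_of_lt_of_le h0 h1
      refine ⟨?_, by exact_mod_cast hM0⟩
      rw [div_le_iff₀ hκT] at h1
      rw [div_le_iff₀ hM0]
      linarith
    obtain ⟨iB, pB⟩ := hinv B.card (by omega)
    obtain ⟨iS, pS⟩ := hinv S.card (by omega)
    have hsmall := Pool.Agent.R517.PDL.ds_small (J := nnRate d L) nn_nonneg ht00 B S pB pS
      (κT / 16) (by positivity) (fun x _ y _ hxy => hL₂ L hLa2 t ht2 x y hxy)
    have key := htr (Fin d → ZMod L) (nnRate d L) nn_nonneg t ht00 B (by omega) (by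
        intro x hx y hy
        rw [hB] at hx hy
        refine (hdist L hL3 t ht0 x y).trans ?_
        rw [div_le_iff₀ hst]
        have h1 : (tdist x y : ℝ) ≤ d * r := by exact_mod_cast lc_tdist_box r 0 x y hx hy
        calc C * (tdist x y : ℝ) ≤ C * (δT / C * Real.sqrt t) :=
              mul_le_mul_of_nonneg_left (h1.trans hrd) hC.le
          _ = δT * Real.sqrt t := by
              field_simp) S (by
        refine hsmall.trans ?_
        linarith)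
    simp only [set_eq, pd_eq]
    exact key
  · have h3 : (L : ℝ) ^ ((3 : ℝ) / 2) ≤ t := by
      have h4 : ((L : ℝ) ^ ((3 : ℝ) / 2)) ^ 2 ≤ t ^ 2 := by
        rw [← Real.rpow_natCast, ← Real.rpow_mul hL0.le]
        have : (3 : ℝ) / 2 * ((2 : ℕ) : ℝ) = ((3 : ℕ) : ℝ) := by norm_num
        rw [this, Real.rpow_natCast]
        exact hcase.le
      exact (pow_le_pow_iff_left₀ (by positivity) ht00 (by norm_num)).1 h4
    have hLt : (L : ℝ) ≤ t := by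
      refine le_trans ?_ h3
      calc (L : ℝ) = (L : ℝ) ^ (1 : ℝ) := (Real.rpow_one _).symm
        _ ≤ _ := Real.rpow_le_rpow_of_exponent_le hL1r (by norm_num)
    refine hfar L hL3 t (hLT.trans hLt) S (by omega) ?_
    intro x _ y _
    refine (Pool.Agent.Results.MP_b817cf_pr.LocalPoissonDirichlet.dist_le x y).trans ?_
    have ht1' : 1 ≤ t := hL1r.trans hLt
    have h5 : (L : ℝ) ^ ((9 : ℝ) / 8) ≤ t ^ (((d : ℝ) + 1) / (d + 2)) := by
      calc (L : ℝ) ^ ((9 : ℝ) / 8) = ((L : ℝ) ^ ((3 : ℝ) / 2)) ^ ((3 : ℝ) / 4) := by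
            rw [← Real.rpow_mul hL0.le]
            norm_num
        _ ≤ t ^ ((3 : ℝ) / 4) := Real.rpow_le_rpow (by positivity) h3 (by norm_num)
        _ ≤ _ := by
            refine Real.rpow_le_rpow_of_exponent_le ht1' ?_
            rw [div_le_div_iff₀ (by norm_num) (by positivity)]
            linarith
    have h6 : (d : ℝ) / κ ≤ (L : ℝ) ^ ((1 : ℝ) / 8) := by
      have h7 : ((d / κ) ^ 8) ^ ((1 : ℝ) / 8) ≤ (L : ℝ) ^ ((1 : ℝ) / 8) :=
        Real.rpow_le_rpow (by positivity) hLκ (by norm_num)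
      have h8 : (((d : ℝ) / κ) ^ 8) ^ ((1 : ℝ) / 8) = d / κ := by
        rw [← Real.rpow_natCast, ← Real.rpow_mul (by positivity)]
        norm_num
      rwa [h8] at h7
    have h9 : (L : ℝ) ^ ((9 : ℝ) / 8) = (L : ℝ) ^ ((1 : ℝ) / 8) * L := by
      conv_rhs => rw [← Real.rpow_one (L : ℝ), Real.rpow_one (L : ℝ)]
      nth_rewrite 3 [← Real.rpow_one (L : ℝ)]
      rw [← Real.rpow_add hL0]
      norm_num
    rw [div_le_iff₀ hκ] at h6
    calc (d : ℝ) * L ≤ ((L : ℝ) ^ ((1 : ℝ) / 8) * κ) * L :=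
          mul_le_mul_of_nonneg_right h6 hL0.le
      _ = κ * ((L : ℝ) ^ ((1 : ℝ) / 8) * L) := by ring
      _ = κ * (L : ℝ) ^ ((9 : ℝ) / 8) := by rw [h9]
      _ ≤ κ * t ^ (((d : ℝ) + 1) / (d + 2)) := mul_le_mul_of_nonneg_left h5 hκ.le

end Pool.Agent.U153
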