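import Pool.Agent.U153.LcEng
import Pool.Agent.Q257.LC.KerA

/-!
# Planar project, part 11: the resolvent form of a function of mean zero, abstract part
-/

set_option autoImplicit false
set_option linter.unusedSectionVars false

namespace Pool.Agent.U153

open Finset Equiv Matrix Q292.LC
open Pool.Agent.Q257.LC (sum_vecMul_sq_le sum_vecMul vecMul_nonneg cs_half)

section abs

variable {V : Type} [Fintype V] [DecidableEq V]

/-- the resolvent form from the partial sums -/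
theorem pl_res_le {T : Matrix V V ℝ} (hT0 : ∀ x y, 0 ≤ T x y) (hTr : ∀ x, ∑ y, T x y = 1)
    {w : ℝ} (h0 : 0 ≤ w) (h1 : w < 1) (A : Finset V)
    (hA : ∀ a ∈ A, ∀ b, b ∉ A → T a b = 0) (φ : V → ℝ) (hφ : ∀ a ∈ A, φ a = 0) (Λ : ℝ)
    (hΛ : ∀ N : ℕ, ∑ k ∈ Finset.range N, w ^ k * (φ ⬝ᵥ (T ^ k *ᵥ φ)) ≤ Λ) :
    φ ⬝ᵥ ((1 - w • (dg (univ \ A) * T))⁻¹ *ᵥ φ) ≤ Λ := by
  have hdet := lc_isUnit hT0 hTr h0 h1 A
  obtain ⟨g, hg⟩ : ∃ g, g = (1 - w • (dg (univ \ A) * T))⁻¹ *ᵥ φ := ⟨_, rfl⟩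
  have hg2 : (1 - w • (dg (univ \ A) * T)) *ᵥ g = φ := by
    rw [hg, Matrix.mulVec_mulVec, Matrix.mul_nonsing_inv _ hdet, Matrix.one_mulVec]
  rw [← hg]
  obtain ⟨g1, g2, -⟩ := lc_dot T w A g φ hφ hg2
  have g3 : ∀ a ∈ A, (T *ᵥ g) a = 0 := by
    intro a ha
    refine Finset.sum_eq_zero fun b _ => ?_
    by_cases hb : b ∈ A
    · rw [g1 b hb, mul_zero]
    · beta_reduce
      rw [hA a ha b hb, zero_mul]
  have g4 : g = φ + w • (T *ᵥ g) := by
    funext x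
    rw [Pi.add_apply, Pi.smul_apply, smul_eq_mul]
    by_cases hx : x ∈ A
    · rw [g1 x hx, hφ x hx, g3 x hx]
      ring
    · rw [g2 x hx]
      ring
  have hit : ∀ N : ℕ, g = ∑ k ∈ Finset.range N, w ^ k • (T ^ k *ᵥ φ) + w ^ N • (T ^ N *ᵥ g) := by
    intro N
    induction N with
    | zero => simp
    | succ N ih =>
      rw [Finset.sum_range_succ]
      conv_lhs => rw [ih]
      have e1 : T ^ N *ᵥ g = T ^ N *ᵥ φ + w • (T ^ (N + 1) *ᵥ g) := by
        conv_lhs => rw [g4]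
        rw [Matrix.mulVec_add, Matrix.mulVec_smul, Matrix.mulVec_mulVec, ← pow_succ]
      rw [e1, smul_add, smul_smul, ← pow_succ]
      abel
  obtain ⟨G, hG⟩ : ∃ G : ℝ, G = ∑ x, |g x| := ⟨_, rfl⟩
  have hG0 : 0 ≤ G := by rw [hG]; exact Finset.sum_nonneg fun x _ => abs_nonneg _
  have hsup : ∀ (N : ℕ) (x : V), |(T ^ N *ᵥ g) x| ≤ G := by
    intro N
    induction N with
    | zero =>
      intro x
      rw [pow_zero, Matrix.one_mulVec, hG]
      exact Finset.single_le_sum (f := fun x => |g x|) (fun y _ => abs_nonneg _)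
        (Finset.mem_univ x)
    | succ N ih =>
      intro x
      rw [pow_succ', ← Matrix.mulVec_mulVec]
      calc |∑ y, T x y * (T ^ N *ᵥ g) y| ≤ ∑ y, |T x y * (T ^ N *ᵥ g) y| :=
            Finset.abs_sum_le_sum_abs _ _
        _ ≤ ∑ y, T x y * G := by
            refine Finset.sum_le_sum fun y _ => ?_
            rw [abs_mul, abs_of_nonneg (hT0 x y)]
            exact mul_le_mul_of_nonneg_left (ih y) (hT0 x y)
        _ = G := by rw [← Finset.sum_mul, hTr, one_mul]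
  obtain ⟨P, hP⟩ : ∃ P : ℝ, P = (∑ x, |φ x|) * G := ⟨_, rfl⟩
  have hbd : ∀ N : ℕ, φ ⬝ᵥ g ≤ Λ + w ^ N * P := by
    intro N
    have e1 : φ ⬝ᵥ g = ∑ k ∈ Finset.range N, w ^ k * (φ ⬝ᵥ (T ^ k *ᵥ φ)) +
        w ^ N * (φ ⬝ᵥ (T ^ N *ᵥ g)) := by
      conv_lhs => rw [hit N]
      rw [dotProduct_add, dotProduct_smul, dotProduct_sum, smul_eq_mul]
      congr 1
      refine Finset.sum_congr rfl fun k _ => ?_
      rw [dotProduct_smul, smul_eq_mul]
    have e2 : φ ⬝ᵥ (T ^ N *ᵥ g) ≤ P := by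
      rw [hP, Finset.sum_mul]
      refine Finset.sum_le_sum fun x _ => ?_
      calc φ x * (T ^ N *ᵥ g) x ≤ |φ x * (T ^ N *ᵥ g) x| := le_abs_self _
        _ = |φ x| * |(T ^ N *ᵥ g) x| := abs_mul _ _
        _ ≤ |φ x| * G := mul_le_mul_of_nonneg_left (hsup N x) (abs_nonneg _)
    rw [e1]
    exact add_le_add (hΛ N) (mul_le_mul_of_nonneg_left e2 (pow_nonneg h0 N))
  have hlim : Filter.Tendsto (fun N : ℕ => Λ + w ^ N * P) Filter.atTop (nhds (Λ + 0 * P)) :=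
    (tendsto_const_nhds).add ((tendsto_pow_atTop_nhds_zero_of_lt_one h0 h1).mul_const P)
  have := ge_of_tendsto' hlim hbd
  rwa [zero_mul, add_zero] at this

theorem pl_corr_eq (T : Matrix V V ℝ) (φ : V → ℝ) (i j : ℕ) :
    φ ⬝ᵥ (T ^ (i + j) *ᵥ φ) = ∑ z, vecMul φ (T ^ i) z * vecMul φ (Tᵀ ^ j) z := by
  rw [pow_add, ← Matrix.mulVec_mulVec, Matrix.dotProduct_mulVec, ← Matrix.transpose_pow,
    Matrix.vecMul_transpose]
  rfl

/-- decay along the rows -/
theorem pl_rowdecay {T : Matrix V V ℝ} (hT0 : ∀ x y, 0 ≤ T x y) (hrow : ∀ x, ∑ y, T x y = 1)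
    (hcol : ∀ y, ∑ x, T x y = 1) (A : Finset V) (hTA : ∀ x, x ∉ A → ∀ b ∈ A, T x b = 0)
    (m0 κ x : ℝ) (hm0 : 0 ≤ m0) (hκ : 0 < κ) (hx : 0 ≤ x)
    (hN : ∀ f : V → ℝ, (∀ x, 0 ≤ f x) → (∀ x ∈ A, f x = 0) → ∑ x, f x ≤ 1 →
      ∑ x, (vecMul f T x) ^ 2 ≤ max m0 (((∑ x, (f x) ^ 2) ^ (-(2 / ((2 : ℕ) : ℝ))) + κ) ^
        (-(((2 : ℕ) : ℝ) / 2))))
    (hP : ∀ f : V → ℝ, (∀ x ∈ A, f x = 0) → ∑ x, f x = 0 →
      ∑ y, (vecMul f T y) ^ 2 ≤ (∑ y, (f y) ^ 2) / (1 + x))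
    (φ : V → ℝ) (hφA : ∀ a ∈ A, φ a = 0) (hφ0 : ∑ y, φ y = 0) (hφ1 : ∑ y, |φ y| ≤ 2) (i : ℕ) :
    ∑ y, (vecMul φ (T ^ i) y) ^ 2 ≤ (∑ y, (φ y) ^ 2) / (1 + x) ^ i ∧
    (1 ≤ i → ∑ y, (vecMul φ (T ^ i) y) ^ 2 ≤ 4 * max m0 (1 / (i * κ))) := by
  have hz : ∀ f : V → ℝ, (∀ a ∈ A, f a = 0) → ∀ i : ℕ, ∀ a ∈ A, vecMul f (T ^ i) a = 0 := by
    intro f hf i
    induction i with
    | zero =>
      intro a ha
      rw [pow_zero, Matrix.vecMul_one]
      exact hf a ha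
    | succ i ih =>
      intro a ha
      rw [pow_succ, ← Matrix.vecMul_vecMul]
      refine Finset.sum_eq_zero fun b _ => ?_
      by_cases hb : b ∈ A
      · rw [ih b hb, zero_mul]
      · beta_reduce
        rw [hTA b hb a ha, mul_zero]
  have hs : ∀ (f : V → ℝ) (i : ℕ), ∑ y, vecMul f (T ^ i) y = ∑ y, f y := by
    intro f i
    induction i with
    | zero => rw [pow_zero, Matrix.vecMul_one]
    | succ i ih =>
      rw [pow_succ, ← Matrix.vecMul_vecMul, sum_vecMul _ _ hrow, ih]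
  constructor
  · induction i with
    | zero => rw [pow_zero, Matrix.vecMul_one, pow_zero, div_one]
    | succ i ih =>
      rw [pow_succ, ← Matrix.vecMul_vecMul]
      refine (hP _ (hz φ hφA i) (by rw [hs, hφ0])).trans ?_
      rw [pow_succ (1 + x), ← div_div]
      exact div_le_div_of_nonneg_right ih (by linarith)
  · intro hi
    obtain ⟨v, hv⟩ : ∃ v : V → ℝ, v = fun y => |φ y| / 2 := ⟨_, rfl⟩
    have hv0 : ∀ y, 0 ≤ v y := fun y => by rw [hv]; positivity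
    have hvA : ∀ a ∈ A, v a = 0 := fun a ha => by
      rw [hv]
      simp [hφA a ha]
    have hv1 : ∑ y, v y ≤ 1 := by
      rw [hv]
      simp only
      rw [← Finset.sum_div]
      linarith
    have hvn : ∀ (i : ℕ) (y : V), 0 ≤ vecMul v (T ^ i) y ∧
        |vecMul φ (T ^ i) y| ≤ 2 * vecMul v (T ^ i) y := by
      intro i
      induction i with
      | zero =>
        intro y
        rw [pow_zero, Matrix.vecMul_one, Matrix.vecMul_one]
        refine ⟨hv0 y, ?_⟩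
        rw [hv]
        linarith
      | succ i ih =>
        intro y
        rw [pow_succ, ← Matrix.vecMul_vecMul, ← Matrix.vecMul_vecMul]
        refine ⟨vecMul_nonneg T _ hT0 (fun y => (ih y).1) y, ?_⟩
        have e1 : vecMul (vecMul φ (T ^ i)) T y = ∑ z, vecMul φ (T ^ i) z * T z y := rfl
        have e2 : vecMul (vecMul v (T ^ i)) T y = ∑ z, vecMul v (T ^ i) z * T z y := rfl
        rw [e1, e2, Finset.mul_sum]
        refine (Finset.abs_sum_le_sum_abs _ _).trans (Finset.sum_le_sum fun z _ => ?_)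
        rw [abs_mul, abs_of_nonneg (hT0 z y)]
        have := mul_le_mul_of_nonneg_right (ih z).2 (hT0 z y)
        linarith
    have key : ∀ i : ℕ, 1 ≤ i → ∑ y, (vecMul v (T ^ i) y) ^ 2 ≤ max m0 (1 / (i * κ)) := by
      intro i hi
      have he1 : (-(2 / ((2 : ℕ) : ℝ))) = (-1 : ℝ) := by norm_num
      have he2 : (-(((2 : ℕ) : ℝ) / 2)) = (-1 : ℝ) := by norm_num
      rw [he1, he2] at hN
      induction i, hi using Nat.le_induction with
      | base =>
        rw [pow_one]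
        refine (hN v hv0 hvA hv1).trans (max_le_max le_rfl ?_)
        rw [Real.rpow_neg_one, Real.rpow_neg_one, Nat.cast_one, one_mul, one_div]
        refine inv_anti₀ hκ ?_
        have : 0 ≤ (∑ x, v x ^ 2)⁻¹ := inv_nonneg.2 (Finset.sum_nonneg fun x _ => sq_nonneg _)
        linarith
      | succ i hi ih =>
        have hi0 : (0 : ℝ) < i := by exact_mod_cast hi
        obtain ⟨b, hb⟩ : ∃ b, b = ∑ y, (vecMul v (T ^ i) y) ^ 2 := ⟨_, rfl⟩
        have hb0 : 0 ≤ b := by rw [hb]; exact Finset.sum_nonneg fun y _ => sq_nonneg _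
        rw [← hb] at ih
        rw [pow_succ, ← Matrix.vecMul_vecMul]
        have hcontr : ∑ y, (vecMul (vecMul v (T ^ i)) T y) ^ 2 ≤ b := by
          rw [hb]
          exact sum_vecMul_sq_le T _ hT0 (fun y => (hcol y).le) (fun x => (hrow x).le)
        rcases le_or_gt b m0 with hbm | hbm
        · exact hcontr.trans (hbm.trans (le_max_left _ _))
        · have hbpos : 0 < b := lt_of_le_of_lt hm0 hbm
          have h5 : b ≤ 1 / (i * κ) := by
            rcases le_max_iff.1 ih with h6 | h6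
            · exact absurd h6 (not_le.2 hbm)
            · exact h6
          refine (hN _ (fun y => (hvn i y).1) (hz v hvA i) (by rw [hs]; exact hv1)).trans
            (max_le_max le_rfl ?_)
          rw [← hb, Real.rpow_neg_one, Real.rpow_neg_one, one_div]
          refine inv_anti₀ (by positivity) ?_
          have h7 : (i : ℝ) * κ ≤ b⁻¹ := by
            rw [le_inv_comm₀ (by positivity) hbpos, ← one_div]
            exact h5
          push_cast
          linarith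
    calc ∑ y, (vecMul φ (T ^ i) y) ^ 2 ≤ ∑ y, 4 * (vecMul v (T ^ i) y) ^ 2 := by
          refine Finset.sum_le_sum fun y _ => ?_
          have h6 := (hvn i y).2
          have h7 := pow_le_pow_left₀ (abs_nonneg _) h6 2
          rw [sq_abs, mul_pow] at h7
          linarith
      _ = 4 * ∑ y, (vecMul v (T ^ i) y) ^ 2 := by rw [Finset.mul_sum]
      _ ≤ _ := mul_le_mul_of_nonneg_left (key i hi) (by norm_num)

theorem pl_half_sum (F : ℕ → ℝ) (N : ℕ) :
    ∑ k ∈ Finset.range (2 * N), F (k / 2) = 2 * ∑ i ∈ Finset.range N, F i := by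
  induction N with
  | zero => simp
  | succ N ih =>
    have e1 : 2 * (N + 1) = 2 * N + 1 + 1 := by ring
    rw [e1, Finset.sum_range_succ, Finset.sum_range_succ, ih, Finset.sum_range_succ]
    have e2 : 2 * N / 2 = N := by omega
    have e3 : (2 * N + 1) / 2 = N := by omega
    rw [e2, e3]
    ring

/-- the sum of the correlations -/
theorem pl_corr_sum (b : ℕ → ℝ) (S₀ m0 κ x w : ℝ) (Z : ℕ) (hS₀ : 0 ≤ S₀) (hm0 : 0 ≤ m0)
    (hκ : 0 < κ) (hx0 : 0 < x) (hx1 : x ≤ 1) (hxZ : Real.exp (-(Z : ℝ)) ≤ x) (hZ : 1 ≤ Z)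
    (hw0 : 0 ≤ w) (hw1 : w < 1) (hwZ : Real.exp (-(Z : ℝ)) ≤ 1 - w)
    (h1 : ∀ k, b k ≤ S₀ / (1 + x) ^ (k / 2))
    (h2 : ∀ k, 2 ≤ k → b k ≤ 4 * (m0 + 3 / (k * κ))) (N : ℕ) :
    ∑ k ∈ Finset.range N, w ^ k * b k ≤ 6 * S₀ + 32 * m0 * Z / x + 12 * Z / κ := by
  obtain ⟨c1, hc1⟩ : ∃ c1 : ℕ, c1 = ⌈1 / x⌉₊ := ⟨_, rfl⟩
  obtain ⟨n₀, hn₀⟩ : ∃ n₀ : ℕ, n₀ = c1 * (2 * Z) := ⟨_, rfl⟩
  have hc1a : 1 / x ≤ c1 := by rw [hc1]; exact Nat.le_ceil _
  have hc1b : (c1 : ℝ) ≤ 2 / x := by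
    have h3 : (c1 : ℝ) < 1 / x + 1 := by rw [hc1]; exact Nat.ceil_lt_add_one (by positivity)
    have h4 : 1 ≤ 1 / x := by
      rw [le_div_iff₀ hx0]
      linarith
    have h5 : 2 / x = 1 / x + 1 / x := by ring
    linarith
  obtain ⟨θ, hθ⟩ : ∃ θ : ℝ, θ = 1 / (1 + x) := ⟨_, rfl⟩
  have hθ0 : 0 ≤ θ := by rw [hθ]; positivity
  have hθ1 : θ < 1 := by
    rw [hθ, div_lt_one (by positivity)]
    linarith
  have hθn : θ ^ n₀ ≤ Real.exp (-(Z : ℝ)) := by
    have h3 : 2 ≤ (1 + x) ^ c1 := by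
      refine le_trans ?_ (one_add_mul_le_pow (by linarith) c1)
      have h4 : 1 ≤ (c1 : ℝ) * x := by
        rw [div_le_iff₀ hx0] at hc1a
        exact hc1a
      linarith
    have h5 : Real.exp (Z : ℝ) ≤ (1 + x) ^ n₀ := by
      rw [hn₀, pow_mul]
      have h6 : (2 : ℝ) ^ (2 * Z) ≤ ((1 + x) ^ c1) ^ (2 * Z) := pow_le_pow_left₀ (by norm_num) h3 _
      refine le_trans ?_ h6
      rw [pow_mul, ← Real.exp_one_pow]
      refine pow_le_pow_left₀ (Real.exp_pos 1).le ?_ Z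
      have := Real.exp_one_lt_d9
      linarith
    rw [hθ, div_pow, one_pow, Real.exp_neg, one_div]
    exact inv_anti₀ (Real.exp_pos _) h5
  -- logarithm
  have hlog : ∀ N : ℕ, ∑ k ∈ Finset.range N, w ^ k / (k : ℝ) ≤ Z := by
    intro N
    have h3 := Real.hasSum_pow_div_log_of_abs_lt_one (x := w) (by rw [abs_of_nonneg hw0]; exact hw1)
    have h4 := sum_le_hasSum (range N) (fun k _ => by positivity) h3
    have h5 : -(Z : ℝ) ≤ Real.log (1 - w) := by
      rw [Real.le_log_iff_exp_le (by linarith)]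
      exact hwZ
    have h6 : ∑ k ∈ Finset.range (N + 1), w ^ k / (k : ℝ) =
        ∑ k ∈ Finset.range N, w ^ (k + 1) / ((k : ℝ) + 1) := by
      rw [Finset.sum_range_succ']
      simp
    have h7 : ∑ k ∈ Finset.range N, w ^ k / (k : ℝ) ≤
        ∑ k ∈ Finset.range (N + 1), w ^ k / (k : ℝ) :=
      Finset.sum_le_sum_of_subset_of_nonneg (Finset.range_mono (Nat.le_succ N))
        fun k _ _ => by positivity
    linarith
  have hpt : ∀ k ∈ Finset.range N, w ^ k * b k ≤ (if k < 2 then S₀ else 0) +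
      (if k < 2 * n₀ then 4 * m0 else 0) + 12 / κ * (w ^ k / k) +
      S₀ * (if n₀ ≤ k / 2 then θ ^ (k / 2) else 0) := by
    intro k _
    have hwk0 : 0 ≤ w ^ k := pow_nonneg hw0 k
    have hwk1 : w ^ k ≤ 1 := pow_le_one₀ hw0 hw1.le
    have t1 : 0 ≤ 12 / κ * (w ^ k / k) := by positivity
    have t2 : 0 ≤ S₀ * (if n₀ ≤ k / 2 then θ ^ (k / 2) else 0) := by
      split_ifs
      · positivity
      · simp
    have t3 : (0 : ℝ) ≤ (if k < 2 * n₀ then 4 * m0 else 0) := by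
      split_ifs
      · positivity
      · exact le_rfl
    have t4 : (0 : ℝ) ≤ (if k < 2 then S₀ else 0) := by
      split_ifs
      · exact hS₀
      · exact le_rfl
    have hkx : b k ≤ S₀ * θ ^ (k / 2) := by
      have := h1 k
      rw [hθ, div_pow, one_pow, mul_one_div]
      exact this
    have hle : w ^ k * b k ≤ S₀ * θ ^ (k / 2) := by
      rcases le_or_gt (b k) 0 with hb | hb
      · have : w ^ k * b k ≤ 0 := mul_nonpos_of_nonneg_of_nonpos hwk0 hb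
        have : 0 ≤ S₀ * θ ^ (k / 2) := by positivity
        linarith
      · exact (mul_le_of_le_one_left hb.le hwk1).trans hkx
    rcases lt_or_ge k 2 with hk | hk
    · rw [if_pos hk]
      have h3 : S₀ * θ ^ (k / 2) ≤ S₀ := mul_le_of_le_one_right hS₀ (pow_le_one₀ hθ0 hθ1.le)
      linarith
    · rcases lt_or_ge k (2 * n₀) with hk2 | hk2
      · rw [if_pos hk2]
        have h3 := mul_le_mul_of_nonneg_left (h2 k hk) hwk0
        have hk0 : (0 : ℝ) < k := by exact_mod_cast (by omega : 0 < k)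
        have h4 : w ^ k * (4 * (m0 + 3 / (k * κ))) = w ^ k * (4 * m0) + 12 / κ * (w ^ k / k) := by
          field_simp
          ring
        have h5 : w ^ k * (4 * m0) ≤ 4 * m0 := mul_le_of_le_one_left (by positivity) hwk1
        linarith
      · have h3 : n₀ ≤ k / 2 := by omega
        rw [if_pos h3]
        linarith
  refine (Finset.sum_le_sum hpt).trans ?_
  rw [Finset.sum_add_distrib, Finset.sum_add_distrib, Finset.sum_add_distrib, ← Finset.mul_sum,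
    ← Finset.mul_sum]
  have s1 : ∑ k ∈ Finset.range N, (if k < 2 then S₀ else 0) ≤ 2 * S₀ := by
    rw [← Finset.sum_filter, Finset.sum_const, nsmul_eq_mul]
    refine mul_le_mul_of_nonneg_right ?_ hS₀
    have : ((Finset.range N).filter fun k => k < 2).card ≤ (Finset.range 2).card := by
      refine Finset.card_le_card fun k hk => ?_
      exact Finset.mem_range.2 (Finset.mem_filter.1 hk).2
    rw [Finset.card_range] at this
    exact_mod_cast this
  have s2 : ∑ k ∈ Finset.range N, (if k < 2 * n₀ then 4 * m0 else 0) ≤ 32 * m0 * Z / x := by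
    rw [← Finset.sum_filter, Finset.sum_const, nsmul_eq_mul]
    have h3 : ((Finset.range N).filter fun k => k < 2 * n₀).card ≤ (Finset.range (2 * n₀)).card := by
      refine Finset.card_le_card fun k hk => ?_
      exact Finset.mem_range.2 (Finset.mem_filter.1 hk).2
    rw [Finset.card_range] at h3
    have h4 : (((Finset.range N).filter fun k => k < 2 * n₀).card : ℝ) ≤ 8 * Z / x := by
      calc (((Finset.range N).filter fun k => k < 2 * n₀).card : ℝ) ≤ ((2 * n₀ : ℕ) : ℝ) := by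
            exact_mod_cast h3
        _ = 4 * Z * c1 := by
            rw [hn₀]
            push_cast
            ring
        _ ≤ 4 * Z * (2 / x) := mul_le_mul_of_nonneg_left hc1b (by positivity)
        _ = 8 * Z / x := by ring
    calc (((Finset.range N).filter fun k => k < 2 * n₀).card : ℝ) * (4 * m0) ≤
        8 * Z / x * (4 * m0) := mul_le_mul_of_nonneg_right h4 (by positivity)
      _ = 32 * m0 * Z / x := by ring
  have s3 : 12 / κ * ∑ k ∈ Finset.range N, w ^ k / (k : ℝ) ≤ 12 * Z / κ := by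
    calc 12 / κ * ∑ k ∈ Finset.range N, w ^ k / (k : ℝ) ≤ 12 / κ * Z :=
          mul_le_mul_of_nonneg_left (hlog N) (by positivity)
      _ = _ := by ring
  have s4 : ∑ k ∈ Finset.range N, (if n₀ ≤ k / 2 then θ ^ (k / 2) else 0) ≤ 4 := by
    have h3 : ∑ k ∈ Finset.range N, (if n₀ ≤ k / 2 then θ ^ (k / 2) else 0) ≤
        ∑ k ∈ Finset.range (2 * N), (if n₀ ≤ k / 2 then θ ^ (k / 2) else 0) := by
      refine Finset.sum_le_sum_of_subset_of_nonneg (Finset.range_mono (by omega)) fun k _ _ => ?_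
      split_ifs
      · positivity
      · exact le_rfl
    rw [pl_half_sum (fun i => if n₀ ≤ i then θ ^ i else 0)] at h3
    have h4 : ∑ i ∈ Finset.range N, (if n₀ ≤ i then θ ^ i else 0) ≤ θ ^ n₀ / (1 - θ) := by
      rw [← Finset.sum_filter]
      have h5 : (Finset.range N).filter (fun i => n₀ ≤ i) = Finset.Ico n₀ N := by
        ext i
        simp only [Finset.mem_filter, Finset.mem_range, Finset.mem_Ico]
        tauto
      rw [h5]
      exact geom_sum_Ico_le_of_lt_one hθ0 hθ1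
    have h6 : θ ^ n₀ / (1 - θ) ≤ 2 := by
      have h7 : 1 - θ = x / (1 + x) := by
        rw [hθ]
        field_simp
        ring
      rw [h7, div_div_eq_mul_div, div_le_iff₀ hx0]
      have h8 : θ ^ n₀ ≤ x := hθn.trans hxZ
      have h9 : 0 ≤ θ ^ n₀ := pow_nonneg hθ0 _
      nlinarith
    linarith
  have s5 := mul_le_mul_of_nonneg_left s4 hS₀
  linarith

/-- The resolvent form of a function of mean zero. -/
theorem pl_resolvent {T : Matrix V V ℝ} (hT0 : ∀ x y, 0 ≤ T x y) (hrow : ∀ x, ∑ y, T x y = 1)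
    (hcol : ∀ y, ∑ x, T x y = 1) (A : Finset V) (hTA : ∀ x, x ∉ A → ∀ b ∈ A, T x b = 0)
    (hTA' : ∀ a ∈ A, ∀ b, b ∉ A → T a b = 0)
    (m0 κ x w : ℝ) (Z : ℕ) (hm0 : 0 ≤ m0) (hκ : 0 < κ) (hx0 : 0 < x) (hx1 : x ≤ 1)
    (hxZ : Real.exp (-(Z : ℝ)) ≤ x) (hZ : 1 ≤ Z)
    (hw0 : 0 ≤ w) (hw1 : w < 1) (hwZ : Real.exp (-(Z : ℝ)) ≤ 1 - w)
    (hN : ∀ f : V → ℝ, (∀ x, 0 ≤ f x) → (∀ x ∈ A, f x = 0) → ∑ x, f x ≤ 1 →
      ∑ x, (vecMul f T x) ^ 2 ≤ max m0 (((∑ x, (f x) ^ 2) ^ (-(2 / ((2 : ℕ) : ℝ))) + κ) ^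
        (-(((2 : ℕ) : ℝ) / 2))))
    (hP : ∀ f : V → ℝ, (∀ x ∈ A, f x = 0) → ∑ x, f x = 0 →
      ∑ y, (vecMul f T y) ^ 2 ≤ (∑ y, (f y) ^ 2) / (1 + x))
    (hN' : ∀ f : V → ℝ, (∀ x, 0 ≤ f x) → (∀ x ∈ A, f x = 0) → ∑ x, f x ≤ 1 →
      ∑ x, (vecMul f Tᵀ x) ^ 2 ≤ max m0 (((∑ x, (f x) ^ 2) ^ (-(2 / ((2 : ℕ) : ℝ))) + κ) ^
        (-(((2 : ℕ) : ℝ) / 2))))
    (hP' : ∀ f : V → ℝ, (∀ x ∈ A, f x = 0) → ∑ x, f x = 0 →
      ∑ y, (vecMul f Tᵀ y) ^ 2 ≤ (∑ y, (f y) ^ 2) / (1 + x))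
    (φ : V → ℝ) (hφA : ∀ a ∈ A, φ a = 0) (hφ0 : ∑ y, φ y = 0) (hφ1 : ∑ y, |φ y| ≤ 2) :
    φ ⬝ᵥ ((1 - w • (dg (univ \ A) * T))⁻¹ *ᵥ φ) ≤
      6 * (∑ y, (φ y) ^ 2) + 32 * m0 * Z / x + 12 * Z / κ := by
  have hS₀ : 0 ≤ ∑ y, (φ y) ^ 2 := Finset.sum_nonneg fun y _ => sq_nonneg _
  refine pl_res_le hT0 hrow hw0 hw1 A hTA' φ hφA _ fun N => ?_
  have hd := pl_rowdecay hT0 hrow hcol A hTA m0 κ x hm0 hκ hx0.le hN hP φ hφA hφ0 hφ1
  have hd' := pl_rowdecay (T := Tᵀ) (fun x y => hT0 y x) hcol hrow A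
    (fun x hx b hb => hTA' b hb x hx) m0 κ x hm0 hκ hx0.le hN' hP' φ hφA hφ0 hφ1
  refine pl_corr_sum (fun k => φ ⬝ᵥ (T ^ k *ᵥ φ)) (∑ y, (φ y) ^ 2) m0 κ x w Z hS₀ hm0 hκ hx0 hx1
    hxZ hZ hw0 hw1 hwZ ?_ ?_ N
  · intro k
    have e1 : k / 2 + (k - k / 2) = k := by omega
    have e2 : φ ⬝ᵥ (T ^ k *ᵥ φ) = ∑ z, vecMul φ (T ^ (k / 2)) z * vecMul φ (Tᵀ ^ (k - k / 2)) z := by
      rw [← pl_corr_eq, e1]
    beta_reduce
    rw [e2]
    refine cs_half _ _ _ _ (hd (k / 2)).1 (hd' (k - k / 2)).1 _ (by positivity) le_rfl ?_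
    refine div_le_div_of_nonneg_left hS₀ (by positivity) ?_
    exact pow_le_pow_right₀ (by linarith) (by omega)
  · intro k hk
    have e1 : k / 2 + (k - k / 2) = k := by omega
    have e2 : φ ⬝ᵥ (T ^ k *ᵥ φ) = ∑ z, vecMul φ (T ^ (k / 2)) z * vecMul φ (Tᵀ ^ (k - k / 2)) z := by
      rw [← pl_corr_eq, e1]
    beta_reduce
    rw [e2]
    have hk0 : (0 : ℝ) < k := by exact_mod_cast (by omega : 0 < k)
    have hmx : ∀ i : ℕ, 1 ≤ i → k ≤ 3 * i → 4 * max m0 (1 / ((i : ℝ) * κ)) ≤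
        4 * (m0 + 3 / (k * κ)) := by
      intro i hi hik
      have hi0 : (0 : ℝ) < i := by exact_mod_cast (by omega : 0 < i)
      have h3 : (k : ℝ) ≤ 3 * i := by exact_mod_cast hik
      have h4 : 1 / ((i : ℝ) * κ) ≤ 3 / (k * κ) := by
        rw [div_le_div_iff₀ (by positivity) (by positivity)]
        nlinarith
      have h5 : 0 ≤ 3 / (k * κ) := by positivity
      refine mul_le_mul_of_nonneg_left (max_le ?_ ?_) (by norm_num)
      · linarith
      · linarith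
    refine cs_half _ _ _ _ ((hd (k / 2)).2 (by omega)) ((hd' (k - k / 2)).2 (by omega)) _
      (by positivity) (hmx _ (by omega) (by omega)) (hmx _ (by omega) (by omega))

end abs

end Pool.Agent.U153
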