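import Pool.Agent.U153.PlDev
import Pool.Agent.Q292.LC.FinT

/-!
# Planar project, part 15: the tail of the cycle length, `d = 2`
-/

set_option autoImplicit false
set_option linter.unusedSectionVars false

namespace Pool.Agent.U153

open Finset Equiv Matrix Q292.LC
open Pool.Agent.Y998.ST (stirExp nnRate stirLaw nn_nonneg exp_mono cycleLen)

/-- the failure probability in `btl2` -/
theorem pl_fail2 {C₁ L K Z r l : ℕ} {κ : ℝ} (hC₁ : 1 ≤ C₁) (hL : 1 ≤ L) (hℓ1 : 1 ≤ Real.log L)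
    (hl : 1 ≤ l) (hl4 : (l : ℝ) ≤ 4 * Real.log L)
    (hZ : 1000 * C₁ * Real.log L ^ 2 ≤ Z) (hK : K ≤ L ^ 2)
    (hr : (Z + 1) * (2 * r + 1) ^ 2 ≤ L ^ 2) (hκ0 : 0 ≤ κ)
    (hκ : ((2 * r + 1 : ℕ) : ℝ) ^ 2 * ((Z + 2) * κ) ≤ Real.exp (-1)) :
    C₁ * ((L : ℝ) ^ 4 * Real.exp (-(Z : ℝ)) + (L : ℝ) ^ 4 * (1 / 2) ^ ((Z - 1) / 2 / (C₁ * l))) +
      K * (L : ℝ) ^ 4 * (Z + 1) * ((2 * r + 1 : ℕ) : ℝ) ^ 2 *
        (((2 * r + 1 : ℕ) : ℝ) ^ 2 * ((Z + 2) * κ)) ^ Z ≤ (5 * C₁ + 1) * (1 / (L : ℝ) ^ 2) := by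
  obtain ⟨ℓ, hℓ⟩ : ∃ ℓ, ℓ = Real.log L := ⟨_, rfl⟩
  rw [← hℓ] at hℓ1 hl4 hZ
  have hC' : (1 : ℝ) ≤ C₁ := by exact_mod_cast hC₁
  have e4 : (L : ℝ) ^ 4 = Real.exp (4 * ℓ) := by
    rw [Pool.Agent.Q297.LC.pow_exp hL, ← hℓ]; norm_num
  have e2 : (L : ℝ) ^ 2 = Real.exp (2 * ℓ) := by
    rw [Pool.Agent.Q297.LC.pow_exp hL, ← hℓ]; norm_num
  have einv : 1 / (L : ℝ) ^ 2 = Real.exp (-(2 * ℓ)) := by
    rw [e2, Real.exp_neg, one_div]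
  have hℓℓ : ℓ ≤ ℓ ^ 2 := by rw [sq]; exact le_mul_of_one_le_left (by linarith) hℓ1
  have hZ10 : 10 * ℓ ≤ Z := by
    refine le_trans ?_ hZ
    calc 10 * ℓ ≤ 1000 * 1 * ℓ ^ 2 := by linarith
      _ ≤ 1000 * C₁ * ℓ ^ 2 := by gcongr
  -- first term
  have t1 : (L : ℝ) ^ 4 * Real.exp (-(Z : ℝ)) ≤ 1 / (L : ℝ) ^ 2 := by
    rw [e4, einv, ← Real.exp_add, Real.exp_le_exp]
    linarith
  -- second term
  have t2 : (L : ℝ) ^ 4 * (1 / 2) ^ ((Z - 1) / 2 / (C₁ * l)) ≤ 4 * (1 / (L : ℝ) ^ 2) := by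
    obtain ⟨b, hb⟩ : ∃ b, b = C₁ * l := ⟨_, rfl⟩
    have hbpos : 0 < b := by rw [hb]; exact Nat.mul_pos (by omega) (by omega)
    have hbr : (0 : ℝ) < b := by exact_mod_cast hbpos
    rw [← hb]
    obtain ⟨n, hn⟩ : ∃ n, n = (Z - 1) / 2 / b := ⟨_, rfl⟩
    rw [← hn]
    have n1 : (Z - 1) / 2 < b * n + b := by
      have e1 := Nat.div_add_mod ((Z - 1) / 2) b
      have e2 := Nat.mod_lt ((Z - 1) / 2) hbpos
      rw [← hn] at e1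
      omega
    have n2 : Z ≤ 2 * (b * n) + 2 * b + 1 := by omega
    have n3 : (Z : ℝ) ≤ 2 * (b * n) + 2 * b + 1 := by exact_mod_cast n2
    have hb1 : (1 : ℝ) ≤ b := by exact_mod_cast hbpos
    have n4 : (Z : ℝ) / (2 * b) - 2 ≤ n := by
      rw [sub_le_iff_le_add, div_le_iff₀ (by positivity)]
      nlinarith
    have hb4 : (b : ℝ) ≤ C₁ * (4 * ℓ) := by
      rw [hb]
      push_cast
      gcongr
    have n5 : 125 * ℓ ≤ (Z : ℝ) / (2 * b) := by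
      rw [le_div_iff₀ (by positivity)]
      refine le_trans ?_ hZ
      calc 125 * ℓ * (2 * b) ≤ 125 * ℓ * (2 * (C₁ * (4 * ℓ))) := by gcongr
        _ = _ := by ring
    have l2 := Real.log_two_gt_d9
    have l2' := Real.log_two_lt_d9
    have f1 : ((1 : ℝ) / 2) ^ n = Real.exp (-(n * Real.log 2)) := by
      rw [one_div, inv_pow, Real.exp_neg, ← Real.log_pow, Real.exp_log (by positivity)]
    have f4 : (4 : ℝ) = Real.exp (2 * Real.log 2) := by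
      rw [show (2 : ℝ) * Real.log 2 = ((2 : ℕ) : ℝ) * Real.log 2 by norm_num, ← Real.log_pow,
        Real.exp_log (by positivity)]
      norm_num
    have f5 : 4 * Real.exp (-(2 * ℓ)) = Real.exp (2 * Real.log 2 + -(2 * ℓ)) := by
      rw [Real.exp_add, ← f4]
    rw [f1, e4, einv, ← Real.exp_add, f5, Real.exp_le_exp]
    have n6 : (125 * ℓ - 2) * Real.log 2 ≤ n * Real.log 2 :=
      mul_le_mul_of_nonneg_right (by linarith) (by linarith)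
    nlinarith
  -- third term
  have t3 : K * (L : ℝ) ^ 4 * (Z + 1) * ((2 * r + 1 : ℕ) : ℝ) ^ 2 *
        (((2 * r + 1 : ℕ) : ℝ) ^ 2 * ((Z + 2) * κ)) ^ Z ≤ 1 / (L : ℝ) ^ 2 := by
    have k1 : (K : ℝ) ≤ Real.exp (2 * ℓ) := by rw [← e2]; exact_mod_cast hK
    have k2 : ((Z : ℝ) + 1) * ((2 * r + 1 : ℕ) : ℝ) ^ 2 ≤ Real.exp (2 * ℓ) := by
      rw [← e2]; exact_mod_cast hr
    have k3 : (((2 * r + 1 : ℕ) : ℝ) ^ 2 * ((Z + 2) * κ)) ^ Z ≤ Real.exp (-(Z : ℝ)) := by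
      have h1 := pow_le_pow_left₀ (by positivity) hκ Z
      refine h1.trans (le_of_eq ?_)
      rw [← Real.exp_nat_mul]
      congr 1
      ring
    have k4 : K * (L : ℝ) ^ 4 * (Z + 1) * ((2 * r + 1 : ℕ) : ℝ) ^ 2 *
        (((2 * r + 1 : ℕ) : ℝ) ^ 2 * ((Z + 2) * κ)) ^ Z =
        K * (L : ℝ) ^ 4 * ((Z + 1) * ((2 * r + 1 : ℕ) : ℝ) ^ 2) *
        (((2 * r + 1 : ℕ) : ℝ) ^ 2 * ((Z + 2) * κ)) ^ Z := by ring
    rw [k4, e4]
    calc K * Real.exp (4 * ℓ) * ((Z + 1) * ((2 * r + 1 : ℕ) : ℝ) ^ 2) *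
        (((2 * r + 1 : ℕ) : ℝ) ^ 2 * ((Z + 2) * κ)) ^ Z
        ≤ Real.exp (2 * ℓ) * Real.exp (4 * ℓ) * Real.exp (2 * ℓ) * Real.exp (-(Z : ℝ)) := by
          gcongr
      _ = Real.exp (8 * ℓ - Z) := by
          rw [← Real.exp_add, ← Real.exp_add, ← Real.exp_add]
          congr 1
          ring
      _ ≤ 1 / (L : ℝ) ^ 2 := by
          rw [einv, Real.exp_le_exp]
          linarith
  have hinv : 0 ≤ 1 / (L : ℝ) ^ 2 := by positivity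
  nlinarith

/-- TLC for `d = 2` -/
theorem pl_tlc : ∃ (C₀ m : ℕ), 1 ≤ C₀ ∧ 10 ≤ m ∧ ∀ (Z L K : ℕ) [NeZero L] (w : ℝ), C₀ ≤ Z →
    C₀ * Real.log L ^ 2 ≤ Z → Z ^ m ≤ K → K ≤ L ^ 2 → 0 ≤ w → w < 1 →
    Real.exp (-(Z : ℝ)) ≤ 1 - w → (Z : ℝ) ^ m ≤ (L : ℝ) ^ 2 * (1 - w) →
    ∃ q₀ : ℕ, ∀ q ≥ q₀, ∀ σ : ℕ → (Fin 2 → ZMod L) × Fin 2, Per σ → ∀ δ : ℝ,
    1 ≤ δ * q → δ * q ≤ 2 → ∀ x,
    EE (K * (q * ms 2 L)) δ (fun ω => w ^ (cyc (gp (ed ∘ σ) ω (K * (q * ms 2 L))) x).card) ≤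
      C₀ * ((Z : ℝ) ^ 10 / K + 1 / ((L : ℝ) ^ 2 * (1 - w))) := by
  obtain ⟨C₁, m₁, hC₁, hB⟩ := btl2
  refine ⟨1000 * C₁ + 170, 2 * m₁ + 14, by omega, by omega, ?_⟩
  intro Z L K _ w hCZ hZlog hZK hKL hw0 hw1 hwZ hZw
  have hLpos : 1 ≤ L := Nat.pos_of_ne_zero (NeZero.ne L)
  have hLr : (0 : ℝ) < L := by exact_mod_cast hLpos
  have hC₁' : (1 : ℝ) ≤ C₁ := by exact_mod_cast hC₁
  have hZpos : 1 ≤ Z := by omega
  have hZr : (1 : ℝ) ≤ Z := by exact_mod_cast hZpos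
  have hZ170 : 170 ≤ Z := by omega
  have hZ170r : (170 : ℝ) ≤ Z := by exact_mod_cast hZ170
  have hZL : Z ≤ L := by
    have h1 : Z ^ 2 ≤ L ^ 2 :=
      (Nat.pow_le_pow_right hZpos (by omega)).trans (hZK.trans hKL)
    exact (Nat.pow_le_pow_iff_left (by norm_num)).1 h1
  have hL3 : 3 ≤ L := by omega
  have hLr3 : (3 : ℝ) ≤ L := by exact_mod_cast hL3
  have hKpos : 1 ≤ K := (Nat.one_le_pow _ _ hZpos).trans hZK
  have hKr : (1 : ℝ) ≤ K := by exact_mod_cast hKpos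
  obtain ⟨ℓ, hℓ⟩ : ∃ ℓ, ℓ = Real.log L := ⟨_, rfl⟩
  have hℓ1 : 1 ≤ ℓ := by
    rw [hℓ, Real.le_log_iff_exp_le hLr]
    have := Real.exp_one_lt_d9
    linarith
  have hZ1000 : 1000 * C₁ * Real.log L ^ 2 ≤ Z := by
    refine le_trans ?_ hZlog
    refine mul_le_mul_of_nonneg_right ?_ (by positivity)
    push_cast
    linarith
  have hpw : ∀ k, k ≤ 2 * m₁ + 14 → (Z : ℝ) ^ k ≤ K := by
    intro k hk
    have : Z ^ k ≤ K := (Nat.pow_le_pow_right hZpos hk).trans hZK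
    exact_mod_cast this
  -- the radius
  obtain ⟨r, hr⟩ : ∃ r, r = Z ^ m₁ := ⟨_, rfl⟩
  have hrr : (r : ℝ) = (Z : ℝ) ^ m₁ := by rw [hr]; push_cast; rfl
  have hr1 : 1 ≤ r := by rw [hr]; exact Nat.one_le_pow _ _ hZpos
  have h8L : 8 * Z ^ m₁ ≤ L := by
    have h1 : (8 * Z ^ m₁) ^ 2 ≤ L ^ 2 := by
      calc (8 * Z ^ m₁) ^ 2 = 64 * Z ^ (2 * m₁) := by
            rw [mul_pow, ← pow_mul, mul_comm m₁ 2]
            norm_num
        _ ≤ Z * Z ^ (2 * m₁) := Nat.mul_le_mul_right _ (by omega)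
        _ = Z ^ (2 * m₁ + 1) := by ring
        _ ≤ Z ^ (2 * m₁ + 14) := Nat.pow_le_pow_right hZpos (by omega)
        _ ≤ L ^ 2 := hZK.trans hKL
    exact (Nat.pow_le_pow_iff_left (by norm_num)).1 h1
  have hr2 : ((2 * r + 1 : ℕ) : ℝ) ^ 2 ≤ 9 * (Z : ℝ) ^ (2 * m₁) := by
    have h1 : ((2 * r + 1 : ℕ) : ℝ) ≤ 3 * r := by
      have : 2 * r + 1 ≤ 3 * r := by omega
      exact_mod_cast this
    calc ((2 * r + 1 : ℕ) : ℝ) ^ 2 ≤ (3 * (r : ℝ)) ^ 2 := pow_le_pow_left₀ (by positivity) h1 2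
      _ = 9 * (r : ℝ) ^ 2 := by ring
      _ = 9 * (Z : ℝ) ^ (2 * m₁) := by rw [hrr, ← pow_mul, mul_comm m₁ 2]
  -- `κ`
  have h1w : 0 < 1 - w := by linarith
  have hLd : (0 : ℝ) < (L : ℝ) ^ 2 := by positivity
  have hLw : 0 < (L : ℝ) ^ 2 * (1 - w) := by positivity
  have hKpos' : (0 : ℝ) < K := by linarith
  have hZ0 : (0 : ℝ) < Z := by linarith
  obtain ⟨κ, hκ⟩ : ∃ κ : ℝ, κ = C₁ * ((Z : ℝ) ^ 10 / K + 1 / ((L : ℝ) ^ 2 * (1 - w))) :=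
    ⟨_, rfl⟩
  have hκ0 : 0 ≤ κ := by
    rw [hκ]
    positivity
  have hκ1 : κ ≤ 2 * C₁ / (Z : ℝ) ^ (2 * m₁ + 4) := by
    have e1 : (Z : ℝ) ^ 10 / K ≤ 1 / (Z : ℝ) ^ (2 * m₁ + 4) := by
      rw [div_le_div_iff₀ hKpos' (by positivity), one_mul, ← pow_add]
      exact hpw _ (by omega)
    have e2 : 1 / ((L : ℝ) ^ 2 * (1 - w)) ≤ 1 / (Z : ℝ) ^ (2 * m₁ + 4) := by
      refine one_div_le_one_div_of_le (by positivity) (le_trans ?_ hZw)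
      exact pow_le_pow_right₀ hZr (by omega)
    rw [hκ]
    calc (C₁ : ℝ) * ((Z : ℝ) ^ 10 / K + 1 / ((L : ℝ) ^ 2 * (1 - w))) ≤
        C₁ * (1 / (Z : ℝ) ^ (2 * m₁ + 4) + 1 / (Z : ℝ) ^ (2 * m₁ + 4)) :=
          mul_le_mul_of_nonneg_left (add_le_add e1 e2) (by positivity)
      _ = _ := by ring
  have hC₁Z : C₁ ≤ Z := by omega
  have hC₁Zr : 162 * (C₁ : ℝ) ≤ Z := by
    have : 162 * C₁ ≤ Z := by omega
    exact_mod_cast this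
  have hkey : ((2 * r + 1 : ℕ) : ℝ) ^ 2 * ((Z + 2) * κ) ≤ Real.exp (-1) := by
    have h1 : ((2 * r + 1 : ℕ) : ℝ) ^ 2 * ((Z + 2) * κ) ≤
        9 * (Z : ℝ) ^ (2 * m₁) * ((3 * Z) * (2 * C₁ / (Z : ℝ) ^ (2 * m₁ + 4))) := by
      have : (Z : ℝ) + 2 ≤ 3 * Z := by linarith
      gcongr
    have h2 : 9 * (Z : ℝ) ^ (2 * m₁) * ((3 * Z) * (2 * C₁ / (Z : ℝ) ^ (2 * m₁ + 4))) =
        54 * C₁ / (Z : ℝ) ^ 3 := by
      have : (Z : ℝ) ^ (2 * m₁ + 4) = (Z : ℝ) ^ (2 * m₁) * Z * (Z : ℝ) ^ 3 := by ring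
      rw [this]
      field_simp
      ring
    have h3 : 54 * C₁ / (Z : ℝ) ^ 3 ≤ 1 / 3 := by
      rw [div_le_div_iff₀ (by positivity) (by norm_num)]
      have : (Z : ℝ) ≤ (Z : ℝ) ^ 3 := le_self_pow₀ hZr (by norm_num)
      linarith
    have h4 : (1 : ℝ) / 3 ≤ Real.exp (-1) := by
      rw [Real.exp_neg, one_div]
      refine inv_anti₀ (Real.exp_pos 1) ?_
      have := Real.exp_one_lt_d9
      linarith
    rw [h2] at h1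
    linarith
  have hκZ : ((Z : ℝ) + 2) * κ ≤ 1 := by
    have h1 : 1 ≤ ((2 * r + 1 : ℕ) : ℝ) ^ 2 := one_le_pow₀ (by
      have : 1 ≤ 2 * r + 1 := by omega
      exact_mod_cast this)
    have h2 : Real.exp (-1) ≤ 1 := Real.exp_le_one_iff.2 (by norm_num)
    have h3 : 0 ≤ ((Z : ℝ) + 2) * κ := by positivity
    exact (le_mul_of_one_le_left h3 h1).trans (hkey.trans h2)
  have hrL : (Z + 1) * (2 * r + 1) ^ 2 ≤ L ^ 2 := by
    have h1 : ((Z : ℝ) + 1) * ((2 * r + 1 : ℕ) : ℝ) ^ 2 ≤ (L : ℝ) ^ 2 := by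
      calc ((Z : ℝ) + 1) * ((2 * r + 1 : ℕ) : ℝ) ^ 2 ≤ (2 * Z) * (9 * (Z : ℝ) ^ (2 * m₁)) := by
            have : (Z : ℝ) + 1 ≤ 2 * Z := by linarith
            gcongr
        _ = 18 * (Z * (Z : ℝ) ^ (2 * m₁)) := by ring
        _ ≤ Z * (Z * (Z : ℝ) ^ (2 * m₁)) := by
            have : (18 : ℝ) ≤ Z := by linarith
            gcongr
        _ = (Z : ℝ) ^ (2 * m₁ + 2) := by ring
        _ ≤ K := hpw _ (by omega)
        _ ≤ (L : ℝ) ^ 2 := by exact_mod_cast hKL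
    exact_mod_cast h1
  -- `l`
  obtain ⟨l, hl⟩ : ∃ l : ℕ, l = ⌈3 * ℓ⌉₊ := ⟨_, rfl⟩
  have hl3 : 3 * ℓ ≤ l := by rw [hl]; exact Nat.le_ceil _
  have hl4 : (l : ℝ) ≤ 4 * ℓ := by
    have : (l : ℝ) < 3 * ℓ + 1 := by rw [hl]; exact Nat.ceil_lt_add_one (by linarith)
    linarith
  have hl1 : 1 ≤ l := by
    have : (1 : ℝ) ≤ l := by linarith
    exact_mod_cast this
  have hlK : (1 + 2 * K : ℝ) ≤ Real.exp l := by
    have h1 : (L : ℝ) ^ 3 ≤ Real.exp l := by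
      rw [Pool.Agent.Q297.LC.pow_exp hLpos, Real.exp_le_exp, ← hℓ]
      exact_mod_cast hl3
    have h2 : (K : ℝ) ≤ (L : ℝ) ^ 2 := by exact_mod_cast hKL
    have h3 : 1 + 2 * (L : ℝ) ^ 2 ≤ (L : ℝ) ^ 3 := by nlinarith
    linarith
  obtain ⟨q₀, hq₀⟩ := hB Z hC₁Z L K Z r Z ((Z - 1) / 2) l le_rfl le_rfl (by omega)
    (by rw [hr]) h8L ((Nat.pow_le_pow_right hZpos (by omega)).trans hZK) hKL hl1 hlK
  refine ⟨max q₀ 2, fun q hq σ hσ δ h1 h2 x => ?_⟩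
  have hq' : (2 : ℝ) ≤ q := by exact_mod_cast (le_max_right _ _).trans hq
  have hδ0 : 0 ≤ δ := by
    by_contra hcon
    push Not at hcon
    nlinarith
  have hδ1 : δ ≤ 1 := by nlinarith
  obtain ⟨b1, b2⟩ := hq₀ q ((le_max_left _ _).trans hq) σ hσ δ h1 h2 w hw0 hw1 hwZ κ hκ hκZ
  have b3 := b2 x
  have b4 := pl_fail2 (C₁ := C₁) (L := L) (K := K) (Z := Z) (r := r) (l := l) (κ := κ)
    hC₁ hLpos (by rw [← hℓ]; exact hℓ1) hl1 (by rw [← hℓ]; exact hl4) hZ1000 hKL hrL hκ0 hkey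
  have b5 := (Pool.Agent.Q277.LC.peb _ (ed ∘ σ) (K * (q * ms 2 L)) δ w hδ0 hδ1 hw0
    hw1).2.2.2.2.2 x
  have b6 := Pool.Agent.Q297.LC.PW_split Pool.Agent.Q277.LC.peb (ed ∘ σ) (K * (q * ms 2 L)) δ w
    hδ0 hδ1 hw0 hw1 (fun _ A => x ∈ A) (fun ω A => Gd σ q K Z r Z (2 * ((Z - 1) / 2)) ω A)
  rw [b5] at b6
  have b7 : 1 / (L : ℝ) ^ 2 ≤ 1 / ((L : ℝ) ^ 2 * (1 - w)) := by
    refine one_div_le_one_div_of_le hLw ?_
    nlinarith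
  have b8 : 0 ≤ (Z : ℝ) ^ 10 / K := by positivity
  have b9 : 0 ≤ 1 / ((L : ℝ) ^ 2 * (1 - w)) := by positivity
  calc EE (K * (q * ms 2 L)) δ (fun ω => w ^ (cyc (gp (ed ∘ σ) ω (K * (q * ms 2 L))) x).card)
      ≤ κ + (5 * C₁ + 1) * (1 / (L : ℝ) ^ 2) := b6.trans (add_le_add b3 (b1.trans b4))
    _ ≤ (1000 * C₁ + 170 : ℕ) * ((Z : ℝ) ^ 10 / K + 1 / ((L : ℝ) ^ 2 * (1 - w))) := by
        rw [hκ]
        push_cast
        have c1 : (5 * (C₁ : ℝ) + 1) * (1 / (L : ℝ) ^ 2) ≤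
            (5 * C₁ + 1) * (1 / ((L : ℝ) ^ 2 * (1 - w))) :=
          mul_le_mul_of_nonneg_left b7 (by positivity)
        have c2 : 0 ≤ (994 * (C₁ : ℝ) + 169) * (1 / ((L : ℝ) ^ 2 * (1 - w))) := by positivity
        have c3 : 0 ≤ (999 * (C₁ : ℝ) + 170) * ((Z : ℝ) ^ 10 / K) := by positivity
        linarith

theorem pl_smul {V : Type} [Fintype V] [DecidableEq V] (J : V → V → ℝ) (t c : ℝ)
    (F : Perm V → ℝ) : stirExp J t (fun g => c * F g) = c * stirExp J t F := by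
  unfold stirExp
  rw [Finset.mul_sum]
  refine Finset.sum_congr rfl fun g _ => ?_
  ring

/-- TLS for `d = 2` -/
theorem pl_tls : ∃ (C₀ m : ℕ), 1 ≤ C₀ ∧ 10 ≤ m ∧ ∀ (Z L N : ℕ) [NeZero L] (t : ℝ), C₀ ≤ Z →
    C₀ * Real.log L ^ 2 ≤ Z → Real.log (2 * N) ≤ Z → (Z : ℝ) ^ m ≤ t → t ≤ (L : ℝ) ^ 2 → 1 ≤ N →
    2 * N * (Z : ℝ) ^ m ≤ (L : ℝ) ^ 2 → ∀ x : Fin 2 → ZMod L,
    stirExp (nnRate 2 L) t (fun g => if (cyc g x).card ≤ N then 1 else 0) ≤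
      C₀ * ((Z : ℝ) ^ 10 / t + N / (L : ℝ) ^ 2) := by
  obtain ⟨C₁, m, hC₁, hm, hT⟩ := pl_tlc
  refine ⟨4 * C₁, m, by omega, hm, ?_⟩
  intro Z L N _ t hCZ hZlog hZN hZt htL hN hNZ x
  have hLpos : 0 < L := Nat.pos_of_ne_zero (NeZero.ne L)
  have hLr : (0 : ℝ) < L := by exact_mod_cast hLpos
  have hN' : (1 : ℝ) ≤ N := by exact_mod_cast hN
  have hLd : (0 : ℝ) < (L : ℝ) ^ 2 := by positivity
  have hZpos : 1 ≤ Z := by omega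
  have hZ4 : 4 ≤ Z := by omega
  have hZr : (1 : ℝ) ≤ Z := by exact_mod_cast hZpos
  have ht1 : 1 ≤ t := (one_le_pow₀ hZr).trans hZt
  have hC₁r : (1 : ℝ) ≤ C₁ := by exact_mod_cast hC₁
  -- the number of units
  obtain ⟨K, hK⟩ : ∃ K, K = ⌊t⌋₊ := ⟨_, rfl⟩
  have hKt : (K : ℝ) ≤ t := by rw [hK]; exact Nat.floor_le (by linarith)
  have hZK : Z ^ m ≤ K := by
    rw [hK]
    refine Nat.le_floor ?_
    push_cast
    exact hZt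
  have hK1 : 1 ≤ K := (Nat.one_le_pow _ _ hZpos).trans hZK
  have hK1' : (1 : ℝ) ≤ K := by exact_mod_cast hK1
  have htK : t < K + 1 := by rw [hK]; exact Nat.lt_floor_add_one t
  have ht2K : t ≤ 2 * K := by linarith
  have hKL : K ≤ L ^ 2 := by
    have : (K : ℝ) ≤ ((L ^ 2 : ℕ) : ℝ) := by push_cast; linarith
    exact_mod_cast this
  have hL3 : 3 ≤ L := by
    have h1 : Z ^ 2 ≤ L ^ 2 := (Nat.pow_le_pow_right hZpos (by omega)).trans (hZK.trans hKL)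
    have h2 : Z ≤ L := (Nat.pow_le_pow_iff_left (by norm_num)).1 h1
    omega
  -- the marking parameter
  have hNpos : (0 : ℝ) < N := by linarith
  obtain ⟨w, hw⟩ : ∃ w : ℝ, w = 1 - 1 / (2 * N) := ⟨_, rfl⟩
  have hw2 : 1 / (2 * (N : ℝ)) ≤ 1 / 2 := by
    rw [div_le_div_iff₀ (by positivity) (by norm_num)]; linarith
  have hw0 : 0 ≤ w := by rw [hw]; linarith
  have hw1 : w < 1 := by
    rw [hw]
    have : 0 < 1 / (2 * (N : ℝ)) := by positivity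
    linarith
  have h1w : 1 - w = 1 / (2 * N) := by rw [hw]; ring
  have hwd : 1 / ((L : ℝ) ^ 2 * (1 - w)) = 2 * N / (L : ℝ) ^ 2 := by
    rw [h1w]; field_simp
  have hwZ : Real.exp (-(Z : ℝ)) ≤ 1 - w := by
    rw [h1w, Real.exp_neg, one_div]
    refine inv_anti₀ (by positivity) ?_
    rw [← Real.log_le_iff_le_exp (by positivity)]
    exact hZN
  have hZw : (Z : ℝ) ^ m ≤ (L : ℝ) ^ 2 * (1 - w) := by
    rw [h1w, mul_one_div, le_div_iff₀ (by positivity)]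
    linarith
  obtain ⟨q₀, hq₀⟩ := hT Z L K w (by omega) (by
      refine le_trans ?_ hZlog
      refine mul_le_mul_of_nonneg_right ?_ (by positivity)
      push_cast
      linarith) hZK hKL hw0 hw1 hwZ hZw
  have hF : ∀ g : Perm (Fin 2 → ZMod L), |w ^ (cyc g x).card| ≤ 1 := by
    intro g
    rw [abs_of_nonneg (by positivity)]
    exact pow_le_one₀ hw0 hw1.le
  have h1 : stirExp (nnRate 2 L) t (fun g => w ^ (cyc g x).card) ≤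
      C₁ * ((Z : ℝ) ^ 10 / K + 1 / ((L : ℝ) ^ 2 * (1 - w))) := by
    refine Pool.Agent.Q297.LC.stir_le_of_circuit (by omega) hL3 hK1 hKt ht2K hF
      ⟨q₀, fun q hq σ hσ δ h1 h2 => ?_⟩
    exact hq₀ q hq σ hσ δ h1 h2 x
  -- Bernoulli
  have h2 : ∀ g : Perm (Fin 2 → ZMod L), (if (cyc g x).card ≤ N then (1 : ℝ) else 0) ≤
      2 * w ^ (cyc g x).card := by
    intro g
    split_ifs with h
    · have h3 : w ^ N ≤ w ^ (cyc g x).card := pow_le_pow_of_le_one hw0 hw1.le h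
      have h4 : 1 + (N : ℝ) * (-(1 / (2 * N))) ≤ (1 + -(1 / (2 * (N : ℝ)))) ^ N :=
        one_add_mul_le_pow (by linarith) N
      have h5 : 1 + (N : ℝ) * (-(1 / (2 * N))) = 1 / 2 := by field_simp; ring
      have h6 : (1 + -(1 / (2 * (N : ℝ)))) = w := by rw [hw]; ring
      rw [h5, h6] at h4
      linarith
    · positivity
  have h3 := exp_mono (J := nnRate 2 L) nn_nonneg (t := t) (by linarith) h2
  rw [pl_smul] at h3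
  refine h3.trans ?_
  rw [hwd] at h1
  have ht0 : 0 < t := by linarith
  have h4 : (Z : ℝ) ^ 10 / K ≤ 2 * ((Z : ℝ) ^ 10 / t) := by
    rw [← mul_div_assoc, div_le_div_iff₀ (by linarith) ht0]
    calc (Z : ℝ) ^ 10 * t ≤ (Z : ℝ) ^ 10 * (2 * K) :=
          mul_le_mul_of_nonneg_left ht2K (by positivity)
      _ = _ := by ring
  have h5 : 0 ≤ (Z : ℝ) ^ 10 / t := by positivity
  have h6 : 2 * (N : ℝ) / (L : ℝ) ^ 2 = 2 * (N / (L : ℝ) ^ 2) := by ring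
  calc 2 * stirExp (nnRate 2 L) t (fun g => w ^ (cyc g x).card)
      ≤ 2 * (C₁ * (2 * ((Z : ℝ) ^ 10 / t) + 2 * (N / (L : ℝ) ^ 2))) := by
        refine mul_le_mul_of_nonneg_left (h1.trans ?_) (by norm_num)
        refine mul_le_mul_of_nonneg_left ?_ (by linarith)
        rw [h6]
        linarith
    _ = ((4 * C₁ : ℕ) : ℝ) * ((Z : ℝ) ^ 10 / t + N / (L : ℝ) ^ 2) := by
        push_cast
        ring

end Pool.Agent.U153
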