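import Pool.Agent.U153.PlTail

/-!
# Planar project, part 16: the tail of the cycle length for all tori and all times, `d = 2`
-/

set_option autoImplicit false
set_option linter.unusedSectionVars false

namespace Pool.Agent.U153

open Finset Equiv Matrix Q292.LC
open Pool.Agent.Y998.ST (stirExp nnRate stirLaw nn_nonneg exp_mono exp_const cycleLen)

/-- a probability is at most one -/
theorem pl_le_one {L : ℕ} [NeZero L] {t : ℝ} (ht : 0 ≤ t) (n : ℕ) (x : Fin 2 → ZMod L) :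
    stirExp (nnRate 2 L) t (fun g => if (cyc g x).card ≤ n then (1 : ℝ) else 0) ≤ 1 := by
  refine (exp_mono nn_nonneg ht (G := fun _ => (1 : ℝ)) fun g => ?_).trans (le_of_eq ?_)
  · split_ifs <;> norm_num
  · exact exp_const _ t 1

/-- small tori -/
theorem pl_tail_small : ∃ (C : ℝ) (m : ℕ), 1 ≤ C ∧ ∀ (t : ℝ) (L n : ℕ) [NeZero L], 2 ≤ t → 1 ≤ n →
    t ≤ (L : ℝ) ^ 2 → Real.log L ≤ 10 * Real.log (n * t) → ∀ x : Fin 2 → ZMod L,
    stirExp (nnRate 2 L) t (fun g => if (cyc g x).card ≤ n then (1 : ℝ) else 0) ≤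
      C * Real.log (n * t) ^ (2 * m) * (1 / t + n / (L : ℝ) ^ 2) := by
  obtain ⟨C₀, m, hC₀, hm, hT⟩ := pl_tls
  refine ⟨2 * C₀ * (103 * C₀) ^ m, m, ?_, ?_⟩
  · have h1 : (1 : ℝ) ≤ C₀ := by exact_mod_cast hC₀
    have h2 : (1 : ℝ) ≤ (103 * (C₀ : ℝ)) ^ m := one_le_pow₀ (by linarith)
    nlinarith
  intro t L n _ ht hn htL hLX x
  have hC₀r : (1 : ℝ) ≤ C₀ := by exact_mod_cast hC₀
  have hn1 : (1 : ℝ) ≤ n := by exact_mod_cast hn
  have hX2 : 2 ≤ n * t := by nlinarith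
  obtain ⟨lam, hlam⟩ : ∃ lam, lam = Real.log (n * t) := ⟨_, rfl⟩
  rw [← hlam] at hLX ⊢
  have hlam2 : Real.log 2 ≤ lam := by
    rw [hlam]
    exact Real.log_le_log (by norm_num) hX2
  have l2 := Real.log_two_gt_d9
  have hlam0 : 0.69 ≤ lam := by linarith
  have hlam3 : 1 ≤ 3 * lam ^ 2 := by nlinarith
  have hL0 : (0 : ℝ) < L := by exact_mod_cast Nat.pos_of_ne_zero (NeZero.ne L)
  have hlogL : 0 ≤ Real.log L := Real.log_natCast_nonneg L
  obtain ⟨Z, hZ⟩ : ∃ Z : ℕ, Z = ⌈100 * C₀ * lam ^ 2⌉₊ := ⟨_, rfl⟩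
  have hZ1 : 100 * C₀ * lam ^ 2 ≤ Z := by rw [hZ]; exact Nat.le_ceil _
  have hZ2 : (Z : ℝ) ≤ 103 * C₀ * lam ^ 2 := by
    have : (Z : ℝ) < 100 * C₀ * lam ^ 2 + 1 := by
      rw [hZ]
      exact Nat.ceil_lt_add_one (by positivity)
    have h3 : 1 ≤ 3 * C₀ * lam ^ 2 := by
      calc 1 ≤ 3 * lam ^ 2 := hlam3
        _ = 1 * (3 * lam ^ 2) := by ring
        _ ≤ C₀ * (3 * lam ^ 2) := mul_le_mul_of_nonneg_right hC₀r (by positivity)
        _ = _ := by ring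
    linarith
  have hZC : C₀ ≤ Z := by
    have h3 : (C₀ : ℝ) ≤ Z := by
      refine le_trans ?_ hZ1
      calc (C₀ : ℝ) = C₀ * 1 := (mul_one _).symm
        _ ≤ C₀ * (100 * lam ^ 2) := mul_le_mul_of_nonneg_left (by linarith) (by positivity)
        _ = _ := by ring
    exact_mod_cast h3
  have hZlog : C₀ * Real.log L ^ 2 ≤ Z := by
    refine le_trans ?_ hZ1
    have h3 : Real.log L ^ 2 ≤ (10 * lam) ^ 2 := pow_le_pow_left₀ hlogL hLX 2
    calc C₀ * Real.log L ^ 2 ≤ C₀ * (10 * lam) ^ 2 := mul_le_mul_of_nonneg_left h3 (by positivity)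
      _ = _ := by ring
  have hZN : Real.log (2 * n) ≤ Z := by
    have h3 : Real.log (2 * n) ≤ lam := by
      rw [hlam]
      refine Real.log_le_log (by positivity) ?_
      rw [mul_comm]
      exact mul_le_mul_of_nonneg_left ht (by positivity)
    refine h3.trans (le_trans ?_ hZ1)
    have h4 : lam ≤ 100 * lam ^ 2 := by nlinarith
    calc lam ≤ 1 * (100 * lam ^ 2) := by linarith
      _ ≤ C₀ * (100 * lam ^ 2) := mul_le_mul_of_nonneg_right hC₀r (by positivity)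
      _ = _ := by ring
  have hZr : (1 : ℝ) ≤ Z := hC₀r.trans (by exact_mod_cast hZC)
  have hZm : (Z : ℝ) ^ m ≤ (103 * C₀) ^ m * lam ^ (2 * m) := by
    calc (Z : ℝ) ^ m ≤ (103 * C₀ * lam ^ 2) ^ m := pow_le_pow_left₀ (by positivity) hZ2 m
      _ = (103 * C₀) ^ m * lam ^ (2 * m) := by rw [mul_pow, ← pow_mul]
  have ht0 : 0 < t := by linarith
  have hL2 : (0 : ℝ) < (L : ℝ) ^ 2 := by positivity
  have hZm0 : (0 : ℝ) < (Z : ℝ) ^ m := by positivity
  have hsum : 0 ≤ 1 / t + n / (L : ℝ) ^ 2 := by positivity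
  have htriv := pl_le_one (L := L) ht0.le n x
  -- everything follows from the bound with `Z ^ m`
  suffices hmain : stirExp (nnRate 2 L) t (fun g => if (cyc g x).card ≤ n then (1 : ℝ) else 0) ≤
      2 * C₀ * (Z : ℝ) ^ m * (1 / t + n / (L : ℝ) ^ 2) by
    refine hmain.trans ?_
    refine mul_le_mul_of_nonneg_right ?_ hsum
    calc 2 * C₀ * (Z : ℝ) ^ m ≤ 2 * C₀ * ((103 * C₀) ^ m * lam ^ (2 * m)) :=
          mul_le_mul_of_nonneg_left hZm (by positivity)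
      _ = _ := by ring
  have h2C : (1 : ℝ) ≤ 2 * C₀ := by linarith
  rcases le_or_gt ((Z : ℝ) ^ m) t with hcase | hcase
  · rcases le_or_gt (2 * n * (Z : ℝ) ^ m) ((L : ℝ) ^ 2) with hcase2 | hcase2
    · have h := hT Z L n t hZC hZlog hZN hcase htL hn hcase2 x
      refine h.trans ?_
      have e1 : (Z : ℝ) ^ 10 / t ≤ (Z : ℝ) ^ m * (1 / t) := by
        rw [mul_one_div]
        have : (Z : ℝ) ^ 10 ≤ (Z : ℝ) ^ m := pow_le_pow_right₀ hZr hm
        gcongr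
      have e2 : (n : ℝ) / (L : ℝ) ^ 2 ≤ (Z : ℝ) ^ m * (n / (L : ℝ) ^ 2) :=
        le_mul_of_one_le_left (by positivity) (one_le_pow₀ hZr)
      have e3 : 0 ≤ C₀ * ((Z : ℝ) ^ m * (1 / t + n / (L : ℝ) ^ 2)) := by positivity
      calc C₀ * ((Z : ℝ) ^ 10 / t + n / (L : ℝ) ^ 2)
          ≤ C₀ * ((Z : ℝ) ^ m * (1 / t) + (Z : ℝ) ^ m * (n / (L : ℝ) ^ 2)) :=
            mul_le_mul_of_nonneg_left (add_le_add e1 e2) (by positivity)
        _ = C₀ * ((Z : ℝ) ^ m * (1 / t + n / (L : ℝ) ^ 2)) := by ring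
        _ ≤ 2 * (C₀ * ((Z : ℝ) ^ m * (1 / t + n / (L : ℝ) ^ 2))) := by linarith
        _ = _ := by ring
    · refine htriv.trans ?_
      have e1 : 1 ≤ 2 * (Z : ℝ) ^ m * (n / (L : ℝ) ^ 2) := by
        rw [← mul_div_assoc, one_le_div hL2]
        linarith
      have e2 : 0 ≤ 2 * (Z : ℝ) ^ m * (1 / t) := by positivity
      calc (1 : ℝ) ≤ 2 * (Z : ℝ) ^ m * (1 / t + n / (L : ℝ) ^ 2) := by
            rw [mul_add]
            linarith
        _ ≤ C₀ * (2 * (Z : ℝ) ^ m * (1 / t + n / (L : ℝ) ^ 2)) :=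
            le_mul_of_one_le_left (by positivity) hC₀r
        _ = _ := by ring
  · refine htriv.trans ?_
    have e1 : 1 ≤ (Z : ℝ) ^ m * (1 / t) := by
      rw [mul_one_div, one_le_div ht0]
      exact hcase.le
    have e2 : 0 ≤ (Z : ℝ) ^ m * (n / (L : ℝ) ^ 2) := by positivity
    calc (1 : ℝ) ≤ (Z : ℝ) ^ m * (1 / t + n / (L : ℝ) ^ 2) := by
          rw [mul_add]
          linarith
      _ ≤ (2 * C₀) * ((Z : ℝ) ^ m * (1 / t + n / (L : ℝ) ^ 2)) :=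
          le_mul_of_one_le_left (by positivity) h2C
      _ = _ := by ring

/-- an elementary bound -/
theorem pl_exp_bd (X : ℝ) : X ^ 8 * Real.exp (-(X ^ 2)) ≤ 24 := by
  have h1 : (X ^ 2) ^ 4 / (4 : ℕ).factorial ≤ Real.exp (X ^ 2) :=
    Real.pow_div_factorial_le_exp (X ^ 2) (by positivity) 4
  have h2 : ((4 : ℕ).factorial : ℝ) = 24 := by norm_num [Nat.factorial]
  rw [h2, div_le_iff₀ (by norm_num)] at h1
  rw [Real.exp_neg, ← div_eq_mul_inv, div_le_iff₀ (Real.exp_pos _)]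
  calc X ^ 8 = (X ^ 2) ^ 4 := by ring
    _ ≤ _ := h1
    _ = _ := by ring

/-- all tori -/
theorem pl_tail : ∃ (C : ℝ) (M : ℕ), 0 < C ∧ ∀ (t : ℝ) (L n : ℕ) [NeZero L], 2 ≤ t → 1 ≤ n →
    t ≤ (L : ℝ) ^ 2 → ∀ x : Fin 2 → ZMod L,
    stirExp (nnRate 2 L) t (fun g => if (cyc g x).card ≤ n then (1 : ℝ) else 0) ≤
      C * Real.log (n * t) ^ M * (1 / t + n / (L : ℝ) ^ 2) := by
  obtain ⟨C₁, m, hC₁, hsmall⟩ := pl_tail_small
  obtain ⟨C₂, hC₂, hlcs⟩ := all_lcs 2 (by norm_num)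
  obtain ⟨C, hC⟩ : ∃ C : ℝ, C = 2 * C₁ + 240000 * C₂ * 3 ^ m := ⟨_, rfl⟩
  have hC0 : 0 < C := by rw [hC]; positivity
  refine ⟨C, 2 * m, hC0, ?_⟩
  intro t L n _ ht hn htL x
  have hn1 : (1 : ℝ) ≤ n := by exact_mod_cast hn
  have ht0 : 0 < t := by linarith
  obtain ⟨X, hX⟩ : ∃ X : ℝ, X = n * t := ⟨_, rfl⟩
  have hX2 : 2 ≤ X := by rw [hX]; nlinarith
  obtain ⟨lam, hlam⟩ : ∃ lam, lam = Real.log (n * t) := ⟨_, rfl⟩
  have hlamX : lam = Real.log X := by rw [hlam, hX]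
  have hlam2 : Real.log 2 ≤ lam := by
    rw [hlamX]
    exact Real.log_le_log (by norm_num) hX2
  have l2 := Real.log_two_gt_d9
  have hlam0 : 0.69 ≤ lam := by linarith
  have hlam3 : 1 ≤ 3 * lam ^ 2 := by nlinarith
  have hL0 : (0 : ℝ) < L := by exact_mod_cast Nat.pos_of_ne_zero (NeZero.ne L)
  have hL2 : (0 : ℝ) < (L : ℝ) ^ 2 := by positivity
  have hlog100 : ∀ Y : ℝ, 0 < Y → Y ≤ 100 * X ^ 3 → Real.log Y ≤ 10 * Real.log (n * t) := by
    intro Y hY0 hY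
    rw [← hlam]
    have h1 : Real.log Y ≤ Real.log (100 * X ^ 3) := Real.log_le_log hY0 hY
    have h2 : Real.log (100 * X ^ 3) ≤ 7 * Real.log 2 + 3 * Real.log X := by
      rw [Real.log_mul (by norm_num) (by positivity), Real.log_pow]
      have h3 : Real.log 100 ≤ Real.log (2 ^ 7) := Real.log_le_log (by norm_num) (by norm_num)
      rw [Real.log_pow] at h3
      push_cast at h3 ⊢
      linarith
    rw [← hlamX] at h2
    linarith
  have hlampow : 0 ≤ lam ^ (2 * m) := by positivity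
  rcases le_or_gt ((L : ℝ)) (100 * X ^ 3) with hcase | hcase
  · have h := hsmall t L n ht hn htL (hlog100 L hL0 hcase) x
    refine h.trans ?_
    rw [← hlam]
    have hC1C : C₁ ≤ C := by
      rw [hC]
      have : 0 ≤ 240000 * C₂ * 3 ^ m := by positivity
      linarith
    gcongr
  · obtain ⟨L₀, hL₀⟩ : ∃ L₀ : ℕ, L₀ = ⌊100 * X ^ 3⌋₊ := ⟨_, rfl⟩
    have hL₀1 : (L₀ : ℝ) ≤ 100 * X ^ 3 := by rw [hL₀]; exact Nat.floor_le (by positivity)
    have hL₀2 : 100 * X ^ 3 < L₀ + 1 := by rw [hL₀]; exact Nat.lt_floor_add_one _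
    have hX3 : 8 ≤ X ^ 3 := by
      calc (8 : ℝ) = 2 ^ 3 := by norm_num
        _ ≤ X ^ 3 := pow_le_pow_left₀ (by norm_num) hX2 3
    have hL₀L : L₀ ≤ L := by
      have : (L₀ : ℝ) ≤ L := by linarith
      exact_mod_cast this
    have hL₀799 : (799 : ℝ) ≤ L₀ := by linarith
    have hL₀n : 799 ≤ L₀ := by exact_mod_cast hL₀799
    obtain ⟨R₀, hR₀⟩ : ∃ R₀ : ℕ, R₀ = (L₀ - 8) / 4 := ⟨_, rfl⟩
    have hR1 : 4 * R₀ + 8 ≤ L₀ := by omega
    have hR2 : L₀ ≤ 4 * R₀ + 11 := by omega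
    have hR2r : (L₀ : ℝ) ≤ 4 * R₀ + 11 := by exact_mod_cast hR2
    obtain ⟨D, hD⟩ : ∃ D : ℕ, D = R₀ / n := ⟨_, rfl⟩
    have hnD : n * D ≤ R₀ := by rw [hD]; exact Nat.mul_div_le R₀ n
    have hD1 : (R₀ : ℝ) < n * (D + 1) := by
      have : R₀ < n * (D + 1) := by
        rw [hD]
        have h := Nat.lt_mul_div_succ R₀ hn
        simpa using h
      exact_mod_cast this
    have hn0 : (0 : ℝ) < n := by linarith
    have hDX : X ^ 2 ≤ D / t := by
      rw [le_div_iff₀ ht0]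
      have e1 : 24 * X ^ 3 ≤ R₀ := by linarith
      have e2 : 24 * X ^ 3 = n * (24 * X ^ 2 * t) := by
        rw [show X ^ 3 = X ^ 2 * X by ring]
        nth_rw 2 [hX]
        ring
      have e3 : n * (24 * X ^ 2 * t) < n * (D + 1) := by
        rw [← e2]
        linarith
      have e4 := lt_of_mul_lt_mul_left e3 hn0.le
      have e5 : 1 ≤ X ^ 2 * t := by nlinarith
      linarith
    have : NeZero L₀ := ⟨by omega⟩
    have hXt : t ≤ X := by rw [hX]; exact le_mul_of_one_le_left ht0.le hn1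
    have hXL₀ : X ≤ L₀ := by
      have : X ≤ X ^ 3 := le_self_pow₀ (by linarith) (by norm_num)
      linarith
    have hXL₀2 : X ≤ (L₀ : ℝ) ^ 2 := hXL₀.trans (le_self_pow₀ (by linarith) (by norm_num))
    have hL₀0 : (0 : ℝ) < L₀ := by linarith
    have h1 := hsmall t L₀ n ht hn (hXt.trans hXL₀2) (hlog100 L₀ hL₀0 hL₀1) 0
    have h2 := hlcs L L₀ R₀ hR1 hL₀L t n D (by linarith) hnD x 0
    refine h2.trans ?_
    rw [← hlam] at h1
    have h3 : (n : ℝ) / (L₀ : ℝ) ^ 2 ≤ 1 / t := by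
      rw [div_le_div_iff₀ (by positivity) ht0, one_mul, ← hX]
      exact hXL₀2
    have h4 : C₁ * lam ^ (2 * m) * (1 / t + n / (L₀ : ℝ) ^ 2) ≤
        2 * C₁ * lam ^ (2 * m) * (1 / t) := by
      calc C₁ * lam ^ (2 * m) * (1 / t + n / (L₀ : ℝ) ^ 2) ≤
            C₁ * lam ^ (2 * m) * (1 / t + 1 / t) :=
            mul_le_mul_of_nonneg_left (by linarith) (by positivity)
        _ = _ := by ring
    have h5 : C₂ * (2 * R₀ + 1) ^ 2 * t * Real.exp (-(D / t)) ≤ 240000 * C₂ * (1 / t) := by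
      rw [mul_one_div, le_div_iff₀ ht0]
      have e1 : (2 * (R₀ : ℝ) + 1) ≤ 100 * X ^ 3 := by
        have : (4 * R₀ + 8 : ℝ) ≤ L₀ := by exact_mod_cast hR1
        have h0 : (0 : ℝ) ≤ R₀ := by positivity
        linarith
      have e2 : Real.exp (-((D : ℝ) / t)) ≤ Real.exp (-(X ^ 2)) := Real.exp_le_exp.2 (by linarith)
      calc C₂ * (2 * (R₀ : ℝ) + 1) ^ 2 * t * Real.exp (-(D / t)) * t
          ≤ C₂ * (100 * X ^ 3) ^ 2 * X * Real.exp (-(X ^ 2)) * X := by gcongr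
        _ = C₂ * 10000 * (X ^ 8 * Real.exp (-(X ^ 2))) := by ring
        _ ≤ C₂ * 10000 * 24 := mul_le_mul_of_nonneg_left (pl_exp_bd X) (by positivity)
        _ = 240000 * C₂ := by ring
    have h6 : (1 : ℝ) ≤ 3 ^ m * lam ^ (2 * m) := by
      calc (1 : ℝ) ≤ (3 * lam ^ 2) ^ m := one_le_pow₀ hlam3
        _ = _ := by rw [mul_pow, ← pow_mul]
    have h7 : 240000 * C₂ * (1 / t) ≤ 240000 * C₂ * (3 ^ m * lam ^ (2 * m)) * (1 / t) := by
      refine mul_le_mul_of_nonneg_right ?_ (by positivity)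
      exact le_mul_of_one_le_right (by positivity) h6
    have h8 : C * lam ^ (2 * m) * (1 / t) ≤ C * lam ^ (2 * m) * (1 / t + n / (L : ℝ) ^ 2) := by
      refine mul_le_mul_of_nonneg_left ?_ (by positivity)
      have : 0 ≤ (n : ℝ) / (L : ℝ) ^ 2 := by positivity
      linarith
    have h9 : C * lam ^ (2 * m) * (1 / t) = 2 * C₁ * lam ^ (2 * m) * (1 / t) +
        240000 * C₂ * (3 ^ m * lam ^ (2 * m)) * (1 / t) := by
      rw [hC]
      ring
    rw [← hlam]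
    linarith

end Pool.Agent.U153
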