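import Mathlib

/-!
# Exceptional points of monotone functions and of convex functions on the line
-/

set_option autoImplicit false

open MeasureTheory Filter Topology Set
open scoped ENNReal NNReal

namespace Pool.Agent.U153

theorem xd_piece (μ : Measure ℝ) [IsLocallyFiniteMeasure μ] (σ : ℝ) (hσ : 0 < σ) (M : ℝ) :
    μH[σ] ({x : ℝ | ∀ C : ℝ, 0 ≤ C → ∃ s : ℝ, 0 < s ∧ s ≤ 1 ∧
      ENNReal.ofReal (C * s ^ σ) < μ (Metric.closedBall x s)} ∩ Metric.closedBall 0 M) = 0 := by
  set E : Set ℝ := {x : ℝ | ∀ C : ℝ, 0 ≤ C → ∃ s : ℝ, 0 < s ∧ s ≤ 1 ∧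
      ENNReal.ofReal (C * s ^ σ) < μ (Metric.closedBall x s)} ∩ Metric.closedBall 0 M with hE
  set G : ℝ≥0∞ := μ (Metric.closedBall 0 (M + 1)) with hG
  have hGf : G < ∞ := (isCompact_closedBall (0 : ℝ) (M + 1)).measure_lt_top
  have hsub : ∀ x ∈ E, ∀ s : ℝ, s ≤ 1 → Metric.closedBall x s ⊆ Metric.closedBall 0 (M + 1) := by
    intro x hx s hs y hy
    rw [Metric.mem_closedBall] at hy ⊢
    have h1 := Metric.mem_closedBall.1 hx.2
    calc dist y 0 ≤ dist y x + dist x 0 := dist_triangle _ _ _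
      _ ≤ M + 1 := by linarith
  have key : ∀ n : ℕ, ∃ (u : Set ℝ) (s : ℝ → ℝ), u.Countable ∧ (∀ x ∈ u, 0 < s x) ∧
      (∀ x ∈ u, ENNReal.ofReal ((n + 1) * (s x) ^ σ) ≤ G) ∧
      E ⊆ ⋃ i : u, Metric.closedBall (i : ℝ) (5 * s i) ∧
      ∑' i : u, ENNReal.ofReal ((n + 1) * (s i) ^ σ) ≤ G := by
    intro n
    have h1 : ∀ x : ℝ, ∃ s : ℝ, x ∈ E → (0 < s ∧ s ≤ 1 ∧
        ENNReal.ofReal (((n : ℝ) + 1) * s ^ σ) < μ (Metric.closedBall x s)) := by
      intro x
      by_cases hx : x ∈ E
      · obtain ⟨s, hs⟩ := hx.1 ((n : ℝ) + 1) (by positivity)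
        exact ⟨s, fun _ => hs⟩
      · exact ⟨0, fun h => absurd h hx⟩
    choose s hs using h1
    obtain ⟨u, huE, hdisj, hcov⟩ := Vitali.exists_disjoint_subfamily_covering_enlargement_closedBall
      E (fun x => x) s 1 (fun a ha => (hs a ha).2.1) 5 (by norm_num)
    have hcount : u.Countable := by
      refine hdisj.countable_of_nonempty_interior fun x hx => ?_
      rw [interior_closedBall _ (hs x (huE hx)).1.ne']
      exact ⟨x, Metric.mem_ball_self (hs x (huE hx)).1⟩
    refine ⟨u, s, hcount, fun x hx => (hs x (huE hx)).1, ?_, ?_, ?_⟩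
    · intro x hx
      exact (hs x (huE hx)).2.2.le.trans (measure_mono (hsub x (huE hx) _ (hs x (huE hx)).2.1))
    · intro x hx
      obtain ⟨b, hb, hxb⟩ := hcov x hx
      exact mem_iUnion.2 ⟨⟨b, hb⟩, hxb (Metric.mem_closedBall_self (hs x hx).1.le)⟩
    · have h2 : ∑' i : u, ENNReal.ofReal (((n : ℝ) + 1) * (s i) ^ σ) ≤
          ∑' i : u, μ (Metric.closedBall (i : ℝ) (s i)) :=
        ENNReal.tsum_le_tsum fun i => (hs i (huE i.2)).2.2.le
      refine h2.trans ?_
      rw [← measure_biUnion hcount hdisj (fun i _ => Metric.isClosed_closedBall.measurableSet)]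
      exact measure_mono (iUnion₂_subset fun x hx => hsub x (huE hx) _ (hs x (huE hx)).2.1)
  choose u s hcount hpos hbd hcov hsum using key
  have hc : ∀ n, Countable (u n) := fun n => (hcount n).to_subtype
  set K : ℝ≥0∞ := ENNReal.ofReal ((10 : ℝ) ^ σ) with hK
  have hn1 : ∀ n : ℕ, ENNReal.ofReal ((n : ℝ) + 1) ≠ 0 := fun n => by
    rw [Ne, ENNReal.ofReal_eq_zero, not_le]; positivity
  have hterm : ∀ n (i : u n), Metric.ediam (Metric.closedBall (i : ℝ) (5 * s n i)) ^ σ =
      K * ENNReal.ofReal ((s n i) ^ σ) := by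
    intro n i
    have hp := hpos n i i.2
    rw [Real.closedBall_eq_Icc, Real.ediam_Icc]
    have e1 : (i : ℝ) + 5 * s n i - (i - 5 * s n i) = 10 * s n i := by ring
    rw [e1, ENNReal.ofReal_rpow_of_pos (by positivity), Real.mul_rpow (by norm_num) hp.le,
      ENNReal.ofReal_mul (by positivity)]
  have hle : ∀ n (i : u n), ENNReal.ofReal ((s n i) ^ σ) ≤ G / ENNReal.ofReal ((n : ℝ) + 1) := by
    intro n i
    rw [ENNReal.le_div_iff_mul_le (Or.inl (hn1 n)) (Or.inl ENNReal.ofReal_ne_top), mul_comm,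
      ← ENNReal.ofReal_mul (by positivity)]
    exact hbd n i i.2
  have hlim : Tendsto (fun n : ℕ => G / ENNReal.ofReal ((n : ℝ) + 1)) atTop (𝓝 0) := by
    have h1 : Tendsto (fun n : ℕ => ENNReal.ofReal ((n : ℝ) + 1)) atTop (𝓝 ∞) :=
      ENNReal.tendsto_ofReal_atTop.comp
        (tendsto_atTop_add_const_right _ _ tendsto_natCast_atTop_atTop)
    have h2 := ENNReal.Tendsto.const_div h1 (Or.inr hGf.ne) (a := G)
    rwa [ENNReal.div_top] at h2
  have hmain := MeasureTheory.Measure.hausdorffMeasure_le_liminf_tsum (X := ℝ)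
    (ι := fun n => u n) (l := atTop) σ E
    (fun n : ℕ => (K * (G / ENNReal.ofReal ((n : ℝ) + 1))) ^ (1 / σ))
    (by
      have h1 := (ENNReal.Tendsto.const_mul hlim (Or.inr (by rw [hK]; exact ENNReal.ofReal_ne_top))
        (a := K))
      rw [mul_zero] at h1
      have h2 := h1.ennrpow_const (1 / σ)
      rwa [ENNReal.zero_rpow_of_pos (by positivity)] at h2)
    (fun n i => Metric.closedBall (i : ℝ) (5 * s n i))
    (Eventually.of_forall fun n i => by
      rw [one_div, ENNReal.le_rpow_inv_iff hσ, hterm]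
      exact mul_le_mul_right (hle n i) K)
    (Eventually.of_forall fun n => hcov n)
  refine le_antisymm (hmain.trans ?_) zero_le
  have hup : ∀ n : ℕ, ∑' i : u n, Metric.ediam (Metric.closedBall (i : ℝ) (5 * s n i)) ^ σ ≤
      K * (G / ENNReal.ofReal ((n : ℝ) + 1)) := by
    intro n
    simp_rw [hterm]
    rw [ENNReal.tsum_mul_left]
    refine mul_le_mul_right ?_ K
    rw [ENNReal.le_div_iff_mul_le (Or.inl (hn1 n)) (Or.inl ENNReal.ofReal_ne_top), mul_comm,
      ← ENNReal.tsum_mul_left]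
    refine le_trans (le_of_eq ?_) (hsum n)
    refine tsum_congr fun i => ?_
    rw [← ENNReal.ofReal_mul (by positivity)]
  have h3 : Tendsto (fun n : ℕ => K * (G / ENNReal.ofReal ((n : ℝ) + 1))) atTop (𝓝 0) := by
    have h1 := (ENNReal.Tendsto.const_mul hlim (Or.inr (by rw [hK]; exact ENNReal.ofReal_ne_top))
        (a := K))
    rwa [mul_zero] at h1
  calc liminf (fun n : ℕ => ∑' i : u n, Metric.ediam (Metric.closedBall (i : ℝ) (5 * s n i)) ^ σ)
        atTop ≤ liminf (fun n : ℕ => K * (G / ENNReal.ofReal ((n : ℝ) + 1))) atTop :=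
        liminf_le_liminf (Eventually.of_forall hup)
    _ = 0 := h3.liminf_eq

/-- The points at which a locally finite measure on the line has infinite upper `σ`-density form a
set of `σ`-dimensional Hausdorff measure zero. -/
theorem xd_density (μ : Measure ℝ) [IsLocallyFiniteMeasure μ] (σ : ℝ) (hσ : 0 < σ) :
    μH[σ] {x : ℝ | ∀ C : ℝ, 0 ≤ C → ∃ s : ℝ, 0 < s ∧ s ≤ 1 ∧
      ENNReal.ofReal (C * s ^ σ) < μ (Metric.closedBall x s)} = 0 := by
  refine measure_mono_null ?_ (measure_iUnion_null fun m : ℕ => xd_piece μ σ hσ m)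
  intro x hx
  obtain ⟨m, hm⟩ := exists_nat_ge |x|
  refine mem_iUnion.2 ⟨m, hx, ?_⟩
  rw [Metric.mem_closedBall, Real.dist_eq, sub_zero]
  exact hm

/-- A convex function on the line has an upper expansion with the exponent `1 + σ` outside a set of
`σ`-dimensional Hausdorff measure zero. -/
theorem xd_curv (φ : ℝ → ℝ) (hφ : ConvexOn ℝ univ φ) (σ : ℝ) (hσ : 0 < σ) :
    μH[σ] {x : ℝ | ¬ ∃ v C : ℝ, 0 ≤ C ∧ ∀ s : ℝ, |s| ≤ 1 →
      φ (x + s) ≤ φ x + s * v + C * |s| ^ (1 + σ)} = 0 := by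
  set g : ℝ → ℝ := fun x => derivWithin φ (Ioi x) x with hg
  have hmono : Monotone g := by
    have h1 := hφ.monotoneOn_rightDeriv
    rw [interior_univ] at h1
    exact monotoneOn_univ.1 h1
  have hsubg : ∀ x y : ℝ, φ x + g x * (y - x) ≤ φ y := by
    intro x y
    rcases lt_trichotomy x y with h | h | h
    · have h1 := hφ.rightDeriv_le_slope_of_mem_interior (x := x) (y := y)
        (by rw [interior_univ]; exact mem_univ _) (mem_univ _) h
      rw [slope_def_field, le_div_iff₀ (sub_pos.2 h)] at h1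
      show φ x + derivWithin φ (Ioi x) x * (y - x) ≤ φ y
      linarith
    · rw [h]; simp
    · have h1 := hφ.slope_le_leftDeriv_of_mem_interior (x := y) (y := x) (mem_univ _)
        (by rw [interior_univ]; exact mem_univ _) h
      have h2 := hφ.leftDeriv_le_rightDeriv_of_mem_interior (x := x)
        (by rw [interior_univ]; exact mem_univ _)
      have h3 := h1.trans h2
      rw [slope_def_field, div_le_iff₀ (sub_pos.2 h)] at h3
      show φ x + derivWithin φ (Ioi x) x * (y - x) ≤ φ y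
      linarith
  set f := hmono.stieltjesFunction with hf
  refine measure_mono_null ?_ (xd_density f.measure σ hσ)
  intro x hx
  by_contra hcon
  apply hx
  have hcon' : ¬ ∀ C : ℝ, 0 ≤ C → ∃ s : ℝ, 0 < s ∧ s ≤ 1 ∧
      ENNReal.ofReal (C * s ^ σ) < f.measure (Metric.closedBall x s) := hcon
  push Not at hcon'
  obtain ⟨C, hC, h1⟩ := hcon'
  have h2 : ∀ s : ℝ, 0 < s → s ≤ 1 → g (x + s) - g (x - s) ≤ C * s ^ σ := by
    intro s hs hs1
    have h3 := h1 s hs hs1
    rw [Real.closedBall_eq_Icc, StieltjesFunction.measure_Icc,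
      ENNReal.ofReal_le_ofReal_iff (by positivity)] at h3
    have h4 : g (x + s) ≤ f (x + s) := by
      rw [hf, Monotone.stieltjesFunction_eq]
      exact hmono.le_rightLim le_rfl
    have h5 : Function.leftLim f (x - s) ≤ g (x - s) := by
      refine le_of_tendsto (f.mono.tendsto_leftLim (x - s)) ?_
      filter_upwards [self_mem_nhdsWithin] with y hy
      rw [hf, Monotone.stieltjesFunction_eq]
      exact hmono.rightLim_le hy
    linarith
  refine ⟨g x, C, hC, fun s hs => ?_⟩
  rcases lt_trichotomy s 0 with h | h | h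
  · have hs1 : -s ≤ 1 := by rw [abs_of_neg h] at hs; exact hs
    have h3 := h2 (-s) (by linarith) hs1
    have h4 := hsubg (x + s) x
    have h5 : g x ≤ g (x - s) := hmono (by linarith)
    have h6 : x - -s = x + s := by ring
    have h7 : x + -s = x - s := by ring
    rw [h6, h7] at h3
    rw [abs_of_neg h, Real.rpow_add (by linarith), Real.rpow_one]
    have h8 : (-s) * (g (x - s) - g (x + s)) ≤ (-s) * (C * (-s) ^ σ) :=
      mul_le_mul_of_nonneg_left h3 (by linarith)
    have h9 : (-s) * g x ≤ (-s) * g (x - s) := mul_le_mul_of_nonneg_left h5 (by linarith)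
    nlinarith [h4, h8, h9]
  · rw [h]; simp only [add_zero, abs_zero, zero_mul]
    rw [Real.zero_rpow (by linarith)]
    simp
  · have hs1 : s ≤ 1 := by rw [abs_of_pos h] at hs; exact hs
    have h3 := h2 s h hs1
    have h4 := hsubg (x + s) x
    have h5 : g (x - s) ≤ g x := hmono (by linarith)
    rw [abs_of_pos h, Real.rpow_add h, Real.rpow_one]
    have h8 : s * (g (x + s) - g (x - s)) ≤ s * (C * s ^ σ) :=
      mul_le_mul_of_nonneg_left h3 h.le
    have h9 : s * g (x - s) ≤ s * g x := mul_le_mul_of_nonneg_left h5 h.le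
    nlinarith [h4, h8, h9]

end Pool.Agent.U153
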