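import Pool.Agent.N427.SE.UPX

/-!
# One coordinate of the polymer, an expansion of the free energy with the exponent `1 + σ`
-/

set_option autoImplicit false

open MeasureTheory ProbabilityTheory Filter Topology

namespace Pool.Agent.U153

open TH967.DP Pool.Agent.N662.SE Pool.Agent.N700.SE.UPD Pool.Agent.N427.SE.UPX

variable {d : ℕ}

/-- the deterministic estimate -/
lemma xd_det (hp : S_PP) (hd : 1 ≤ d) {β : ℝ} {h : Fin d → ℝ} {k : Fin d} {v : ℝ}
    {η : ℕ → (Fin d → ℤ) → ℝ} {n : ℕ}
    {fr : (Fin d → ℝ) → ℕ → ℝ} {φ : (Fin d → ℝ) → ℝ} {D E R σ Er : ℝ}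
    (hfr : ∀ h n, fr h n ≤ n * φ h) (hlow : n * φ h ≤ fr h n + Er)
    (hcurv : ∀ s : ℝ, s = σ ∨ s = -σ → φ (h + Pi.single k s) ≤ φ h + s * v + D) (hD : 0 ≤ D)
    (hσ0 : 0 < σ)
    (ha : fr h n - E ≤ Real.log (part β h η n Set.univ))
    (hb : ∀ i ≤ n, ∀ s : ℝ, s = σ ∨ s = -σ →
      Real.log (part β (h + Pi.single k s) η i Set.univ) ≤ fr (h + Pi.single k s) i + E)
    (hc : ∀ i ≤ n, ∀ z : Fin d → ℤ, (∀ j, |z j| ≤ n) →
      Real.log (part β h (fun j y => η (i + j) (z + y)) (n - i) Set.univ) ≤ fr h (n - i) + E) :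
    1 - 2 * (n + 1) * Real.exp (-(σ * R) + n * D + 3 * E + Er) ≤
      prob β h η n {w | ∀ i : ℕ, i ≤ n → |(pos w i k : ℝ) - i * v| ≤ R} := by
  set A : Set (Fin n → Step d) :=
    {w | ∀ i : ℕ, i ≤ n → |(pos w i k : ℝ) - i * v| ≤ R} with hA
  have hZ := part_univ_pos hd β h η n
  have piece : ∀ i ≤ n, ∀ s : ℝ, s = σ ∨ s = -σ →
      part β h η n {w | s * i * v + σ * R ≤ s * (pos w i k : ℝ)} ≤
        Real.exp (n * φ h - σ * R + n * D + 2 * E) := by
    intro i hi s hs
    have h1 := hp d β h η n i hi k s (s * i * v + σ * R) (fr h (n - i) + E) (hc i hi)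
    have h2 : part β (h + Pi.single k s) η i Set.univ ≤
        Real.exp (fr (h + Pi.single k s) i + E) :=
      (Real.log_le_iff_le_exp (part_univ_pos hd _ _ _ _)).1 (hb i hi s hs)
    refine h1.trans ?_
    refine (mul_le_mul_of_nonneg_left h2 (Real.exp_pos _).le).trans ?_
    rw [← Real.exp_add]
    apply Real.exp_le_exp.2
    have h3 := hfr h (n - i)
    have h4 := hfr (h + Pi.single k s) i
    have h5 := hcurv s hs
    have h6 : (i : ℝ) * φ (h + Pi.single k s) ≤ i * (φ h + s * v + D) :=
      mul_le_mul_of_nonneg_left h5 (Nat.cast_nonneg _)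
    have hin : (i : ℝ) ≤ n := by exact_mod_cast hi
    have h7 : i * D ≤ n * D := mul_le_mul_of_nonneg_right hin hD
    have h8 : ((n - i : ℕ) : ℝ) = n - i := Nat.cast_sub hi
    rw [h8] at h3
    linarith
  have hcov : part β h η n Aᶜ ≤ ∑ t ∈ Finset.range (n + 1) ×ˢ (Finset.univ : Finset Bool),
      part β h η n {w | (if t.2 then σ else -σ) * t.1 * v + σ * R ≤
        (if t.2 then σ else -σ) * (pos w t.1 k : ℝ)} := by
    apply part_le
    intro w hw
    have hw' : ¬ ∀ i : ℕ, i ≤ n → |(pos w i k : ℝ) - i * v| ≤ R := hw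
    push Not at hw'
    obtain ⟨i, hi, hik⟩ := hw'
    rcases lt_abs.1 hik with h1 | h1
    · refine ⟨(i, true), ?_, ?_⟩
      · simp only [Finset.mem_product, Finset.mem_range, Finset.mem_univ, and_true]
        omega
      · show (if true then σ else -σ) * i * v + σ * R ≤ (if true then σ else -σ) * (pos w i k : ℝ)
        simp only [if_true]
        have h2 := mul_lt_mul_of_pos_left h1 hσ0
        linarith
    · refine ⟨(i, false), ?_, ?_⟩
      · simp only [Finset.mem_product, Finset.mem_range, Finset.mem_univ, and_true]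
        omega
      · show (if false then σ else -σ) * i * v + σ * R ≤ (if false then σ else -σ) * (pos w i k : ℝ)
        simp only [Bool.false_eq_true, if_false]
        have h2 := mul_lt_mul_of_pos_left h1 hσ0
        linarith
  have hcov2 : part β h η n Aᶜ ≤
      2 * (n + 1) * Real.exp (n * φ h - σ * R + n * D + 2 * E) := by
    refine hcov.trans ?_
    refine (Finset.sum_le_card_nsmul _ _
      (Real.exp (n * φ h - σ * R + n * D + 2 * E)) ?_).trans ?_
    · intro t ht
      simp only [Finset.mem_product, Finset.mem_range, Finset.mem_univ, and_true] at ht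
      apply piece t.1 (by omega)
      by_cases h1 : t.2 = true
      · left; rw [if_pos h1]
      · right; rw [if_neg h1]
    · rw [nsmul_eq_mul, Finset.card_product, Finset.card_range, Finset.card_univ,
        Fintype.card_bool]
      push_cast
      apply le_of_eq
      ring
  have hZ2 : Real.exp (n * φ h - Er - E) ≤ part β h η n Set.univ := by
    rw [← Real.exp_log hZ]
    apply Real.exp_le_exp.2
    linarith
  have hsplit := part_compl β h η n A
  have hprob : prob β h η n A = 1 - part β h η n Aᶜ / part β h η n Set.univ := by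
    unfold prob
    rw [← hsplit] at hZ ⊢
    field_simp
    ring
  rw [hprob]
  have hq : part β h η n Aᶜ / part β h η n Set.univ ≤
      2 * (n + 1) * Real.exp (-(σ * R) + n * D + 3 * E + Er) := by
    rw [div_le_iff₀ hZ]
    calc part β h η n Aᶜ ≤ 2 * (n + 1) * Real.exp (n * φ h - σ * R + n * D + 2 * E) :=
          hcov2
      _ = 2 * (n + 1) * (Real.exp (-(σ * R) + n * D + 3 * E + Er) *
            Real.exp (n * φ h - Er - E)) := by
          rw [← Real.exp_add]
          congr 2
          ring
      _ ≤ 2 * (n + 1) * (Real.exp (-(σ * R) + n * D + 3 * E + Er) *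
            part β h η n Set.univ) := by
          apply mul_le_mul_of_nonneg_left _ (by positivity)
          exact mul_le_mul_of_nonneg_left hZ2 (Real.exp_pos _).le
      _ = _ := by ring
  linarith

end Pool.Agent.U153
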