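import Pool.Agent.U153.Xd1
import Pool.Agent.U153.Xd3
import Pool.Agent.N662.SE.All
import Pool.Agent.N523.SE.MGF

/-!
# The exceptional drifts of the directed polymer
-/

set_option autoImplicit false

open MeasureTheory ProbabilityTheory Filter Topology
open scoped ENNReal NNReal

namespace Pool.Agent.U153

open TH967.DP (Step pos energy)
open Pool.Agent.N662.SE

/-- Every line parallel to a coordinate axis. -/
theorem xd_line {d : ℕ} (hd : 1 ≤ d) {Ω : Type} [MeasurableSpace Ω] (P : Measure Ω)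
    [IsProbabilityMeasure P] (ω : ℕ → (Fin d → ℤ) → Ω → ℝ) (he : IsEnv P ω)
    (hexp : ∀ b : ℝ, Integrable (fun x => Real.exp (b * ω 1 0 x)) P) (β σ : ℝ) (hσ : 0 < σ)
    (h : Fin d → ℝ) (k : Fin d) :
    ∃ N : Set ℝ, μH[σ] N = 0 ∧ ∀ t : ℝ, t ∉ N → ∃ v : ℝ, ∀ ξ : ℝ, 0 < ξ → ξ < 1 →
      Concentrated P ω β (h + Pi.single k t) ξ → ∀ b c : ℝ, (1 + σ * ξ) / (1 + σ) < b → b ≤ 1 →
      c < b - (1 - b) / σ → ∀ᵐ x ∂P, ∀ᶠ n : ℕ in atTop,
        1 - Real.exp (-(n : ℝ) ^ c) ≤ polymer β (h + Pi.single k t) (fun i y => ω i y x) n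
          {w | ∀ i : ℕ, i ≤ n → |(pos w i k : ℝ) - i * v| ≤ (n : ℝ) ^ b} := by
  have mgf := Pool.Agent.N523.SE.MGF.main
  have hc : S_CONC := Pool.Agent.N523.SE.CONC.main mgf
  have hs : S_SUP := Pool.Agent.N50.SE.SUP.main hc
  have hv : S_CVX := Pool.Agent.N50.SE.CVX.main hc
  have hdb : S_DBL := Pool.Agent.N97.SE.DBL.main hc
  have hr : S_RATE := Pool.Agent.N353.SE.Rate.main hs hdb hv
  have hi : S_ID := Pool.Agent.N951.SE.t
  have hdx : S_DBLX := Pool.Agent.N803.SE.DBLX.main hc hi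
  have hrx : S_RATEX := Pool.Agent.N316.SE.Ratex.main hr hdx
  have hp : S_PP := Pool.Agent.N340.SE.pp
  obtain ⟨φ, hφ, hfr, hrate⟩ := hrx d hd Ω P ω he hexp β
  have hconv : ConvexOn ℝ Set.univ (fun t : ℝ => φ (h + Pi.single k t)) := by
    refine ⟨convex_univ, fun x _ y _ a b ha hb hab => ?_⟩
    have h1 : h + Pi.single k (a • x + b • y) =
        a • (h + Pi.single k x) + b • (h + Pi.single k y) := by
      funext j
      by_cases hj : j = k
      · subst hj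
        simp only [Pi.add_apply, Pi.smul_apply, Pi.single_eq_same, smul_eq_mul]
        have : h j = a * h j + b * h j := by rw [← add_mul, hab, one_mul]
        linarith
      · simp only [Pi.add_apply, Pi.smul_apply, Pi.single_eq_of_ne hj, smul_eq_mul, add_zero]
        rw [← add_mul, hab, one_mul]
    show φ (h + Pi.single k (a • x + b • y)) ≤ _
    rw [h1]
    exact hφ.2 (Set.mem_univ _) (Set.mem_univ _) ha hb hab
  refine ⟨_, xd_curv _ hconv σ hσ, fun t ht => ?_⟩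
  rw [Set.mem_ofPred_eq, not_not] at ht
  obtain ⟨v, C, hC, hcurv⟩ := ht
  refine ⟨v, fun ξ hξ0 hξ1 hξ b c hb hb1 hcb => ?_⟩
  rw [concentrated_iff hd fun h n => (hc d hd Ω P ω he hexp β h 0 0 n).2.1] at hξ
  obtain ⟨U, hU, hhU, α, C0, hα, hCU⟩ := hξ
  have h1 := xd_up hc hi hp hd P ω he hexp β (φ := φ) hfr hrate (h := h + Pi.single k t) (k := k)
    (v := v) (C := C) (τ := σ) hσ hC
    (fun s hs => by
      have h2 := hcurv s hs
      rw [Pi.single_add] at h2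
      rw [add_assoc]
      exact h2)
    U hU hhU ξ α C0 hξ0 hξ1 hα hCU b c hb hb1 hcb
  filter_upwards [h1] with x hx
  filter_upwards [hx] with n hn
  rw [polymer_eq]
  exact hn

lemma xd_dev {v : ℝ} {n : ℕ} (w : Fin n → Step 1) (i : ℕ) :
    dev (fun _ : Fin 1 => v) w i = |(pos w i 0 : ℝ) - i * v| := by
  unfold dev
  rw [Fin.sum_univ_one, Real.sqrt_sq_eq_abs]

/-- dimension one -/
theorem xd_one {Ω : Type} [MeasurableSpace Ω] (P : Measure Ω)
    [IsProbabilityMeasure P] (ω : ℕ → (Fin 1 → ℤ) → Ω → ℝ) (he : IsEnv P ω)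
    (hexp : ∀ b : ℝ, Integrable (fun x => Real.exp (b * ω 1 0 x)) P)
    (hnc : ¬ ∃ c : ℝ, ∀ᵐ x ∂P, ω 1 0 x = c) (β σ : ℝ) (hβ : 0 < β) (hσ : 0 < σ) :
    ∃ N : Set ℝ, μH[σ] N = 0 ∧ ∀ h : ℝ, h ∉ N →
      chiUp P ω β (fun _ => h) ≤ 1 / 2 ∧
      (∃ v : ℝ, wander P ω β (fun _ => h) (fun _ => v) ≤
        (1 + σ * chiUp P ω β (fun _ => h)) / (1 + σ)) ∧
      σ * (1 - chiUp P ω β (fun _ => h)) / (2 * (1 + σ)) ≤ chi P ω β (fun _ => h) ∧
      ∀ t : ℝ, t < σ / (4 * (1 + σ)) → ∀ᶠ n : ℕ in atTop, (n : ℝ) ^ (2 * t) ≤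
        variance (fun x => logZ β (fun _ => h) (fun i y => ω i y x) n) P := by
  have mgf := Pool.Agent.N523.SE.MGF.main
  have hc : S_CONC := Pool.Agent.N523.SE.CONC.main mgf
  have hvar : S_VAR := Pool.Agent.N50.SE.VAR.main hc
  have ac := Pool.Agent.N692.SD.AC.main
  obtain ⟨N, hN, hmain⟩ := xd_line le_rfl P ω he hexp β σ hσ 0 0
  refine ⟨N, hN, fun h hh => ?_⟩
  obtain ⟨v, hv⟩ := hmain h hh
  have e1 : (0 : Fin 1 → ℝ) + Pi.single 0 h = fun _ => h := by
    funext j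
    rw [Subsingleton.elim j 0]
    simp
  simp only [e1] at hv
  have hup : ∀ ξ : ℝ, 0 < ξ → ξ < 1 → Concentrated P ω β (fun _ => h) ξ → ∀ b c : ℝ,
      (1 + σ * ξ) / (1 + σ) < b → b ≤ 1 → c < b - (1 - b) / σ →
      ∀ᵐ x ∂P, ∀ᶠ n : ℕ in atTop,
        1 - Real.exp (-(n : ℝ) ^ c) ≤ polymer β (fun _ => h) (fun i y => ω i y x) n
          {w | ∀ i : ℕ, i ≤ n → dev (fun _ => v) w i ≤ (n : ℝ) ^ b} := by
    intro ξ hξ0 hξ1 hξ b c hb hb1 hcb
    simp only [xd_dev]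
    exact hv ξ hξ0 hξ1 hξ b c hb hb1 hcb
  have hepos : ∀ ξ b : ℝ, 0 < ξ → (1 + σ * ξ) / (1 + σ) < b → 0 < b - (1 - b) / σ := by
    intro ξ b hξ hb
    rw [div_lt_iff₀ (by linarith)] at hb
    have h1 : (1 - b) / σ * σ = 1 - b := div_mul_cancel₀ _ hσ.ne'
    by_contra hcon
    push Not at hcon
    have h2 : (b - (1 - b) / σ) * σ ≤ 0 := mul_nonpos_of_nonpos_of_nonneg hcon hσ.le
    have h3 : 0 < σ * ξ := mul_pos hσ hξ
    nlinarith
  have hch := chiUp_le_half hc le_rfl he hexp β (fun _ : Fin 1 => h)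
  have hhalf := concentrated_half hc le_rfl he hexp β (fun _ : Fin 1 => h)
  have key : ∀ ξ : ℝ, 0 < ξ → ξ < 1 → Concentrated P ω β (fun _ => h) ξ →
      wander P ω β (fun _ => h) (fun _ => v) ≤ (1 + σ * ξ) / (1 + σ) := by
    intro ξ hξ0 hξ1 hξ
    by_contra hcon
    push Not at hcon
    have h0 : (1 + σ * ξ) / (1 + σ) < 1 := by
      rw [div_lt_one (by linarith)]
      nlinarith
    obtain ⟨b, hb1, hb2⟩ := exists_between (lt_min hcon h0)
    have hb3 := lt_min_iff.1 hb2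
    have hb0 : 0 < b := lt_of_le_of_lt (by positivity) hb1
    have he0 := hepos ξ b hξ0 hb1
    have h1 := wander_le le_rfl hb0 (by linarith : (0 : ℝ) < (b - (1 - b) / σ) / 2)
      (hup ξ hξ0 hξ1 hξ b ((b - (1 - b) / σ) / 2) hb1 hb3.2.le (by linarith))
    linarith [hb3.1]
  have hw : wander P ω β (fun _ => h) (fun _ => v) ≤
      (1 + σ * chiUp P ω β (fun _ => h)) / (1 + σ) := by
    have h1 : (wander P ω β (fun _ => h) (fun _ => v) * (1 + σ) - 1) / σ ≤
        chiUp P ω β (fun _ => h) := by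
      apply le_csInf
      · exact ⟨1 / 2, by norm_num, hhalf⟩
      · rintro ξ ⟨hξ0, hξ⟩
        rw [div_le_iff₀ hσ]
        rcases lt_or_ge ξ 1 with h1 | h1
        · have h2 := key ξ hξ0 h1 hξ
          rw [le_div_iff₀ (by linarith)] at h2
          linarith
        · have h2 := key (1 / 2) (by norm_num) (by norm_num) hhalf
          rw [le_div_iff₀ (by linarith)] at h2
          nlinarith
    rw [div_le_iff₀ hσ] at h1
    rw [le_div_iff₀ (by linarith)]
    linarith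
  refine ⟨hch, ⟨v, hw⟩, ?_, ?_⟩
  · have h1 := chi_ge ac hc hvar he hexp hnc hβ (fun _ => h) (fun _ => v)
    refine le_trans ?_ h1
    have h2 : σ * (1 - chiUp P ω β (fun _ => h)) / (2 * (1 + σ)) =
        (1 - (1 + σ * chiUp P ω β (fun _ => h)) / (1 + σ)) / 2 := by
      field_simp
      ring
    rw [h2]
    linarith
  · intro t ht
    have h0 : (1 + σ * (1 / 2)) / (1 + σ) < 1 := by
      rw [div_lt_one (by linarith)]
      nlinarith
    have h3 : (1 + σ * (1 / 2)) / (1 + σ) < 1 - 2 * t := by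
      rw [div_lt_iff₀ (by linarith)]
      rw [lt_div_iff₀ (by linarith)] at ht
      nlinarith
    obtain ⟨b, hb1, hb2⟩ := exists_between (lt_min h0 h3)
    have hb3 := lt_min_iff.1 hb2
    have hb0 : 0 < b := lt_of_le_of_lt (by positivity) hb1
    have he0 := hepos (1 / 2) b (by norm_num) hb1
    have h6 := hup (1 / 2) (by norm_num) (by norm_num) hhalf b ((b - (1 - b) / σ) / 2) hb1
      hb3.1.le (by linarith)
    apply var_of_conf ac hc hvar he hexp hnc hβ hb0.le hb3.1 _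
      (by linarith [hb3.2] : t < (1 - b) / 2) (v := fun _ => v)
    filter_upwards [h6] with x hx
    have h7 : ∀ᶠ n : ℕ in atTop,
        Real.exp (-(n : ℝ) ^ ((b - (1 - b) / σ) / 2)) < 1 / 2 := by
      have h5 : Tendsto (fun n : ℕ => (n : ℝ) ^ ((b - (1 - b) / σ) / 2)) atTop atTop :=
        (tendsto_rpow_atTop (by linarith)).comp tendsto_natCast_atTop_atTop
      have h6 := Real.tendsto_exp_neg_atTop_nhds_zero.comp h5
      exact h6.eventually (gt_mem_nhds (by norm_num : (0 : ℝ) < 1 / 2))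
    filter_upwards [hx, h7] with n hn hn2
    linarith

lemma xd_dim {S : Set ℝ} {s : ℝ} (h0 : 0 ≤ s) (h1 : s < 1)
    (H : ∀ σ : ℝ, s < σ → σ ≤ 1 → μH[σ] S = 0) : dimH S ≤ ENNReal.ofReal s := by
  by_contra hcon
  push Not at hcon
  have h2 : ENNReal.ofReal s < 1 := by
    rw [← ENNReal.ofReal_one]
    exact (ENNReal.ofReal_lt_ofReal_iff one_pos).2 h1
  obtain ⟨r, hr1, hr2⟩ := ENNReal.lt_iff_exists_nnreal_btwn.1 (lt_min hcon h2)
  have hr3 := lt_min_iff.1 hr2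
  have h3 := hausdorffMeasure_of_lt_dimH hr3.1
  have h4 : s < (r : ℝ) := by
    have := (ENNReal.ofReal_lt_iff_lt_toReal h0 ENNReal.coe_ne_top).1 hr1
    simpa using this
  have h5 : (r : ℝ) ≤ 1 := by
    have : r < 1 := by exact_mod_cast hr3.2
    exact_mod_cast this.le
  rw [H r h4 h5] at h3
  exact ENNReal.zero_ne_top h3

end Pool.Agent.U153
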