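import Mathlib

/-!
# A covering lemma for sequences of measures
-/

set_option autoImplicit false

open MeasureTheory Filter Topology Set
open scoped ENNReal NNReal

namespace Pool.Agent.U153

theorem xe_piece {d : ℕ} (μ : ℕ → Measure (Fin d → ℝ)) (σ : ℝ) (hσ : 0 < σ) (M : ℝ) (G : ℝ≥0∞)
    (hGf : G < ∞) (hG : ∀ m, μ m (Metric.closedBall 0 (M + 2)) ≤ G) :
    μH[σ] ({x : Fin d → ℝ | ∀ C : ℝ, 0 ≤ C → ∃ s : ℝ, 0 < s ∧ s ≤ 1 ∧
      ∀ᶠ m in atTop, ENNReal.ofReal (C * s ^ σ) ≤ μ m (Metric.closedBall x (2 * s))} ∩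
        Metric.closedBall 0 M) = 0 := by
  set E : Set (Fin d → ℝ) := {x : Fin d → ℝ | ∀ C : ℝ, 0 ≤ C → ∃ s : ℝ, 0 < s ∧ s ≤ 1 ∧
      ∀ᶠ m in atTop, ENNReal.ofReal (C * s ^ σ) ≤ μ m (Metric.closedBall x (2 * s))} ∩
        Metric.closedBall 0 M with hE
  have hsub : ∀ x ∈ E, ∀ s : ℝ, s ≤ 1 → Metric.closedBall x (2 * s) ⊆
      Metric.closedBall 0 (M + 2) := by
    intro x hx s hs y hy
    rw [Metric.mem_closedBall] at hy ⊢
    have h1 := Metric.mem_closedBall.1 hx.2
    calc dist y 0 ≤ dist y x + dist x 0 := dist_triangle _ _ _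
      _ ≤ M + 2 := by linarith
  have key : ∀ n : ℕ, ∃ (u : Set (Fin d → ℝ)) (s : (Fin d → ℝ) → ℝ), u.Countable ∧
      (∀ x ∈ u, 0 < s x) ∧
      (∀ x ∈ u, ENNReal.ofReal ((n + 1) * (s x) ^ σ) ≤ G) ∧
      E ⊆ ⋃ i : u, Metric.closedBall (i : Fin d → ℝ) (5 * (2 * s i)) ∧
      ∑' i : u, ENNReal.ofReal ((n + 1) * (s i) ^ σ) ≤ G := by
    intro n
    have h1 : ∀ x : Fin d → ℝ, ∃ s : ℝ, x ∈ E → (0 < s ∧ s ≤ 1 ∧
        ∀ᶠ m in atTop, ENNReal.ofReal (((n : ℝ) + 1) * s ^ σ) ≤
          μ m (Metric.closedBall x (2 * s))) := by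
      intro x
      by_cases hx : x ∈ E
      · obtain ⟨s, hs⟩ := hx.1 ((n : ℝ) + 1) (by positivity)
        exact ⟨s, fun _ => hs⟩
      · exact ⟨0, fun h => absurd h hx⟩
    choose s hs using h1
    obtain ⟨u, huE, hdisj, hcov⟩ := Vitali.exists_disjoint_subfamily_covering_enlargement_closedBall
      E (fun x => x) (fun x => 2 * s x) 2 (fun a ha => by linarith [(hs a ha).2.1]) 5 (by norm_num)
    have hcount : u.Countable := by
      refine hdisj.countable_of_nonempty_interior fun x hx => ?_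
      have := (hs x (huE hx)).1
      exact ⟨x, Metric.ball_subset_interior_closedBall (Metric.mem_ball_self (by linarith))⟩
    refine ⟨u, s, hcount, fun x hx => (hs x (huE hx)).1, ?_, ?_, ?_⟩
    · intro x hx
      obtain ⟨m, hm⟩ := (hs x (huE hx)).2.2.exists
      exact hm.trans ((measure_mono (hsub x (huE hx) _ (hs x (huE hx)).2.1)).trans (hG m))
    · intro x hx
      obtain ⟨b, hb, hxb⟩ := hcov x hx
      exact mem_iUnion.2 ⟨⟨b, hb⟩, hxb (Metric.mem_closedBall_self
        (by linarith [(hs x hx).1]))⟩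
    · rw [ENNReal.tsum_eq_iSup_sum]
      refine iSup_le fun F => ?_
      have h2 : ∀ᶠ m in atTop, ∀ i ∈ F, ENNReal.ofReal (((n : ℝ) + 1) * (s i) ^ σ) ≤
          μ m (Metric.closedBall (i : Fin d → ℝ) (2 * s i)) :=
        (Finset.eventually_all F).2 fun i _ => (hs i (huE i.2)).2.2
      obtain ⟨m, hm⟩ := h2.exists
      refine (Finset.sum_le_sum hm).trans ?_
      rw [← measure_biUnion_finset]
      · exact (measure_mono (iUnion₂_subset fun (x : u) _ =>
          hsub x (huE x.2) _ (hs x (huE x.2)).2.1)).trans (hG m)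
      · intro i _ j _ hij
        exact hdisj i.2 j.2 (fun h => hij (Subtype.ext h))
      · exact fun i _ => Metric.isClosed_closedBall.measurableSet
  choose u s hcount hpos hbd hcov hsum using key
  have hc : ∀ n, Countable (u n) := fun n => (hcount n).to_subtype
  set K : ℝ≥0∞ := ENNReal.ofReal ((20 : ℝ) ^ σ) with hK
  have hn1 : ∀ n : ℕ, ENNReal.ofReal ((n : ℝ) + 1) ≠ 0 := fun n => by
    rw [Ne, ENNReal.ofReal_eq_zero, not_le]; positivity
  have hterm : ∀ n (i : u n), Metric.ediam (Metric.closedBall (i : Fin d → ℝ)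
      (5 * (2 * s n i))) ^ σ ≤ K * ENNReal.ofReal ((s n i) ^ σ) := by
    intro n i
    have hp := hpos n i i.2
    have h1 : Metric.ediam (Metric.closedBall (i : Fin d → ℝ) (5 * (2 * s n i))) ≤
        ENNReal.ofReal (20 * s n i) := by
      refine Metric.ediam_le fun x hx y hy => ?_
      rw [edist_dist]
      apply ENNReal.ofReal_le_ofReal
      rw [Metric.mem_closedBall] at hx hy
      linarith [dist_triangle_right x y (i : Fin d → ℝ)]
    refine (ENNReal.rpow_le_rpow h1 hσ.le).trans ?_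
    rw [ENNReal.ofReal_rpow_of_pos (by positivity), Real.mul_rpow (by norm_num) hp.le,
      ENNReal.ofReal_mul (by positivity)]
  have hle : ∀ n (i : u n), ENNReal.ofReal ((s n i) ^ σ) ≤ G / ENNReal.ofReal ((n : ℝ) + 1) := by
    intro n i
    rw [ENNReal.le_div_iff_mul_le (Or.inl (hn1 n)) (Or.inl ENNReal.ofReal_ne_top), mul_comm,
      ← ENNReal.ofReal_mul (by positivity)]
    exact hbd n i i.2
  have hlim : Tendsto (fun n : ℕ => G / ENNReal.ofReal ((n : ℝ) + 1)) atTop (𝓝 0) := by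
    have h1 : Tendsto (fun n : ℕ => ENNReal.ofReal ((n : ℝ) + 1)) atTop (𝓝 ∞) :=
      ENNReal.tendsto_ofReal_atTop.comp
        (tendsto_atTop_add_const_right _ _ tendsto_natCast_atTop_atTop)
    have h2 := ENNReal.Tendsto.const_div h1 (Or.inr hGf.ne) (a := G)
    rwa [ENNReal.div_top] at h2
  have hlim2 : Tendsto (fun n : ℕ => K * (G / ENNReal.ofReal ((n : ℝ) + 1))) atTop (𝓝 0) := by
    have h1 := (ENNReal.Tendsto.const_mul hlim (Or.inr (by rw [hK]; exact ENNReal.ofReal_ne_top))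
        (a := K))
    rwa [mul_zero] at h1
  have hmain := MeasureTheory.Measure.hausdorffMeasure_le_liminf_tsum (X := Fin d → ℝ)
    (ι := fun n => u n) (l := atTop) σ E
    (fun n : ℕ => (K * (G / ENNReal.ofReal ((n : ℝ) + 1))) ^ (1 / σ))
    (by
      have h2 := hlim2.ennrpow_const (1 / σ)
      rwa [ENNReal.zero_rpow_of_pos (by positivity)] at h2)
    (fun n i => Metric.closedBall (i : Fin d → ℝ) (5 * (2 * s n i)))
    (Eventually.of_forall fun n i => by
      rw [one_div, ENNReal.le_rpow_inv_iff hσ]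
      exact (hterm n i).trans (mul_le_mul_right (hle n i) K))
    (Eventually.of_forall fun n => hcov n)
  refine le_antisymm (hmain.trans ?_) zero_le
  have hup : ∀ n : ℕ, ∑' i : u n, Metric.ediam (Metric.closedBall (i : Fin d → ℝ)
      (5 * (2 * s n i))) ^ σ ≤ K * (G / ENNReal.ofReal ((n : ℝ) + 1)) := by
    intro n
    refine (ENNReal.tsum_le_tsum (hterm n)).trans ?_
    rw [ENNReal.tsum_mul_left]
    refine mul_le_mul_right ?_ K
    rw [ENNReal.le_div_iff_mul_le (Or.inl (hn1 n)) (Or.inl ENNReal.ofReal_ne_top), mul_comm,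
      ← ENNReal.tsum_mul_left]
    refine le_trans (le_of_eq ?_) (hsum n)
    refine tsum_congr fun i => ?_
    rw [← ENNReal.ofReal_mul (by positivity)]
  exact (liminf_le_liminf (Eventually.of_forall hup)).trans hlim2.liminf_eq.le

end Pool.Agent.U153
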