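import Pool.Agent.U153.Xe1

/-!
# Second differences of convex functions
-/

set_option autoImplicit false

open MeasureTheory Filter Topology Set
open scoped ENNReal NNReal

namespace Pool.Agent.U153

variable {d : ℕ}

/-- second difference -/
noncomputable def sd (φ : (Fin d → ℝ) → ℝ) (e y : Fin d → ℝ) : ℝ :=
  φ (y + e) + φ (y - e) - 2 * φ y

lemma sd_nonneg {φ : (Fin d → ℝ) → ℝ} (hφ : ConvexOn ℝ univ φ) (e y : Fin d → ℝ) :
    0 ≤ sd φ e y := by
  have h := hφ.2 (mem_univ (y + e)) (mem_univ (y - e)) (by norm_num : (0 : ℝ) ≤ 1 / 2)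
    (by norm_num : (0 : ℝ) ≤ 1 / 2) (by norm_num)
  have e1 : (1 / 2 : ℝ) • (y + e) + (1 / 2 : ℝ) • (y - e) = y := by
    funext i
    simp only [Pi.add_apply, Pi.smul_apply, Pi.sub_apply, smul_eq_mul]
    ring
  rw [e1] at h
  simp only [smul_eq_mul] at h
  unfold sd
  linarith

lemma sd_double (φ : (Fin d → ℝ) → ℝ) (e y : Fin d → ℝ) :
    sd φ (e + e) y = sd φ e (y + e) + sd φ e (y + -e) + 2 * sd φ e y := by
  unfold sd
  have h1 : y + e + e = y + (e + e) := by abel
  have h2 : y + e - e = y := by abel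
  have h3 : y + -e + e = y := by abel
  have h4 : y + -e - e = y - (e + e) := by abel
  have h5 : y + -e = y - e := by abel
  rw [h1, h2, h3, h4, h5]
  ring

lemma sd_cont {φ : (Fin d → ℝ) → ℝ} (hc : Continuous φ) (e : Fin d → ℝ) :
    Continuous (sd φ e) := by
  unfold sd
  fun_prop

lemma xe_shift (f : (Fin d → ℝ) → ℝ≥0∞) (e x : Fin d → ℝ) (r δ : ℝ) (he : ‖e‖ ≤ δ) :
    ∫⁻ y in Metric.closedBall x r, f (y + e) ≤ ∫⁻ y in Metric.closedBall x (r + δ), f y := by
  rw [← lintegral_indicator Metric.isClosed_closedBall.measurableSet,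
    ← lintegral_indicator Metric.isClosed_closedBall.measurableSet,
    ← lintegral_add_right_eq_self (fun y => indicator (Metric.closedBall x (r + δ)) f y) e]
  refine lintegral_mono fun y => ?_
  by_cases hy : y ∈ Metric.closedBall x r
  · rw [indicator_of_mem hy, indicator_of_mem]
    rw [Metric.mem_closedBall, dist_eq_norm] at hy ⊢
    calc ‖y + e - x‖ = ‖(y - x) + e‖ := by congr 1; abel
      _ ≤ ‖y - x‖ + ‖e‖ := norm_add_le _ _
      _ ≤ r + δ := by linarith
  · rw [indicator_of_notMem hy]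
    exact zero_le

lemma xe_dbl {φ : (Fin d → ℝ) → ℝ} (hφ : ConvexOn ℝ univ φ) (hc : Continuous φ)
    (e x : Fin d → ℝ) (r δ : ℝ) (he : ‖e‖ ≤ δ) :
    ∫⁻ y in Metric.closedBall x r, ENNReal.ofReal (sd φ (e + e) y) ≤
      4 * ∫⁻ y in Metric.closedBall x (r + δ), ENNReal.ofReal (sd φ e y) := by
  have hm : Measurable fun y => ENNReal.ofReal (sd φ e y) := by
    have := (sd_cont hc e).measurable
    fun_prop
  have hδ : 0 ≤ δ := (norm_nonneg e).trans he
  have h1 : ∀ y, ENNReal.ofReal (sd φ (e + e) y) = ENNReal.ofReal (sd φ e (y + e)) +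
      ENNReal.ofReal (sd φ e (y + -e)) + 2 * ENNReal.ofReal (sd φ e y) := by
    intro y
    have e2 : (2 : ℝ≥0∞) = ENNReal.ofReal 2 := by norm_num
    rw [sd_double, e2, ← ENNReal.ofReal_mul (by norm_num),
      ← ENNReal.ofReal_add (sd_nonneg hφ _ _) (sd_nonneg hφ _ _),
      ← ENNReal.ofReal_add (add_nonneg (sd_nonneg hφ _ _) (sd_nonneg hφ _ _))
        (mul_nonneg (by norm_num) (sd_nonneg hφ _ _))]
  simp_rw [h1]
  have hm1 : Measurable fun y => ENNReal.ofReal (sd φ e (y + e)) :=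
    hm.comp (measurable_id.add_const e)
  have hm2 : Measurable fun y => ENNReal.ofReal (sd φ e (y + -e)) :=
    hm.comp (measurable_id.add_const (-e))
  have hm3 : Measurable fun y => ENNReal.ofReal (sd φ e (y + e)) +
      ENNReal.ofReal (sd φ e (y + -e)) := hm1.add hm2
  rw [lintegral_add_left hm3, lintegral_add_left hm1, lintegral_const_mul _ hm]
  have a1 := xe_shift (fun y => ENNReal.ofReal (sd φ e y)) e x r δ he
  have a2 := xe_shift (fun y => ENNReal.ofReal (sd φ e y)) (-e) x r δ (by rwa [norm_neg])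
  have a3 : ∫⁻ y in Metric.closedBall x r, ENNReal.ofReal (sd φ e y) ≤
      ∫⁻ y in Metric.closedBall x (r + δ), ENNReal.ofReal (sd φ e y) :=
    lintegral_mono_set (Metric.closedBall_subset_closedBall (by linarith))
  set I : ℝ≥0∞ := ∫⁻ y in Metric.closedBall x (r + δ), ENNReal.ofReal (sd φ e y) with hI
  calc _ ≤ I + I + 2 * I := add_le_add (add_le_add a1 a2) (mul_le_mul_right a3 _)
    _ = 4 * I := by ring

lemma norm_sgl (j : Fin d) (t : ℝ) : ‖(Pi.single j t : Fin d → ℝ)‖ ≤ |t| := by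
  rw [pi_norm_le_iff_of_nonneg (abs_nonneg t)]
  intro i
  by_cases h : i = j
  · rw [h, Pi.single_eq_same]; exact le_rfl
  · rw [Pi.single_eq_of_ne h, norm_zero]; exact abs_nonneg t

lemma xe_iter {φ : (Fin d → ℝ) → ℝ} (hφ : ConvexOn ℝ univ φ) (hc : Continuous φ)
    (j : Fin d) (x : Fin d → ℝ) (r : ℝ) (a k : ℕ) :
    ∫⁻ y in Metric.closedBall x r, ENNReal.ofReal (sd φ (Pi.single j ((1 / 2) ^ a)) y) ≤
      4 ^ k * ∫⁻ y in Metric.closedBall x (r + (1 / 2) ^ a - (1 / 2) ^ (a + k)),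
        ENNReal.ofReal (sd φ (Pi.single j ((1 / 2) ^ (a + k))) y) := by
  induction k with
  | zero => simp
  | succ k ih =>
    refine ih.trans ?_
    rw [pow_succ, mul_assoc]
    refine mul_le_mul_right ?_ _
    have e1 : (Pi.single j ((1 / 2 : ℝ) ^ (a + k)) : Fin d → ℝ) =
        Pi.single j ((1 / 2) ^ (a + (k + 1))) + Pi.single j ((1 / 2) ^ (a + (k + 1))) := by
      rw [← Pi.single_add]
      congr 1
      rw [← add_assoc, pow_succ]
      ring
    rw [e1]
    refine (xe_dbl hφ hc _ x _ ((1 / 2) ^ (a + (k + 1))) ?_).trans ?_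
    · refine (norm_sgl _ _).trans ?_
      rw [abs_of_nonneg (by positivity)]
    · have e2 : r + (1 / 2 : ℝ) ^ a - (1 / 2) ^ (a + k) + (1 / 2) ^ (a + (k + 1)) =
          r + (1 / 2) ^ a - (1 / 2) ^ (a + (k + 1)) := by
        rw [← add_assoc, pow_succ]
        ring
      rw [e2]

end Pool.Agent.U153
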