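import Pool.Agent.U153.Xe2

/-!
# Upper and lower bounds for the second differences
-/

set_option autoImplicit false

open MeasureTheory Filter Topology Set
open scoped ENNReal NNReal

namespace Pool.Agent.U153

variable {d : ℕ}

lemma xe_incr {φ : (Fin d → ℝ) → ℝ} (hφ : ConvexOn ℝ univ φ) {R B : ℝ} (hB : 0 ≤ B)
    (hb : ∀ y ∈ Metric.closedBall (0 : Fin d → ℝ) (R + 3), |φ y| ≤ B) (j : Fin d) {h : ℝ}
    (h0 : 0 < h) (h1 : h ≤ 1) (y : Fin d → ℝ) (hy : y ∈ Metric.closedBall (0 : Fin d → ℝ) (R + 2)) :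
    |φ (y + Pi.single j h) - φ y| ≤ 2 * B * h := by
  have n1 : ‖(Pi.single j (1 : ℝ) : Fin d → ℝ)‖ ≤ 1 := by
    have := norm_sgl j (1 : ℝ); rwa [abs_one] at this
  rw [Metric.mem_closedBall, dist_zero_right] at hy
  have b0 := hb y (by rw [Metric.mem_closedBall, dist_zero_right]; linarith)
  have bp := hb (y + Pi.single j 1) (by
    rw [Metric.mem_closedBall, dist_zero_right]
    linarith [norm_add_le y (Pi.single j (1 : ℝ))])
  have bm := hb (y - Pi.single j 1) (by
    rw [Metric.mem_closedBall, dist_zero_right]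
    linarith [norm_sub_le y (Pi.single j (1 : ℝ))])
  rw [abs_le] at b0 bp bm ⊢
  have es : (Pi.single j h : Fin d → ℝ) = h • Pi.single j 1 := by
    rw [← Pi.single_smul, smul_eq_mul, mul_one]
  have c1 := hφ.2 (mem_univ y) (mem_univ (y + Pi.single j 1)) (by linarith : (0 : ℝ) ≤ 1 - h)
    h0.le (by ring)
  have e1 : (1 - h) • y + h • (y + Pi.single j 1) = y + Pi.single j h := by
    rw [es]; module
  rw [e1] at c1
  simp only [smul_eq_mul] at c1
  have hp : 0 < 1 + h := by linarith
  have c2 := hφ.2 (mem_univ (y + Pi.single j h)) (mem_univ (y - Pi.single j 1))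
    (by positivity : (0 : ℝ) ≤ 1 / (1 + h)) (by positivity : (0 : ℝ) ≤ h / (1 + h))
    (by field_simp)
  have e2 : (1 / (1 + h)) • (y + Pi.single j h) + (h / (1 + h)) • (y - Pi.single j 1) = y := by
    rw [es]
    have : (1 / (1 + h)) • (y + h • (Pi.single j 1 : Fin d → ℝ)) +
        (h / (1 + h)) • (y - Pi.single j 1) = ((1 + h) / (1 + h)) • y := by
      module
    rw [this, div_self hp.ne', one_smul]
  rw [e2] at c2
  simp only [smul_eq_mul] at c2
  have c3 : (1 + h) * φ y ≤ φ (y + Pi.single j h) + h * φ (y - Pi.single j 1) := by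
    have := mul_le_mul_of_nonneg_left c2 hp.le
    calc (1 + h) * φ y ≤ (1 + h) * (1 / (1 + h) * φ (y + Pi.single j h) +
          h / (1 + h) * φ (y - Pi.single j 1)) := this
      _ = _ := by field_simp
  constructor
  · nlinarith
  · nlinarith

lemma xe_vol (R h : ℝ) (hR : 1 ≤ R) (h0 : 0 < h) (h1 : h ≤ 1) (j : Fin d) :
    volume (Metric.closedBall (0 : Fin d → ℝ) R \
      Metric.closedBall (-(Pi.single j (h / 2))) (R - h / 2)) ≤
      ENNReal.ofReal ((2 * R) ^ d * d * h) := by
  have hsub : Metric.closedBall (-(Pi.single j (h / 2)) : Fin d → ℝ) (R - h / 2) ⊆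
      Metric.closedBall 0 R := by
    apply Metric.closedBall_subset_closedBall'
    rw [dist_zero_right, norm_neg]
    have := norm_sgl j (h / 2)
    rw [abs_of_pos (by linarith)] at this
    linarith
  rw [measure_diff hsub Metric.isClosed_closedBall.measurableSet.nullMeasurableSet
    (isCompact_closedBall _ _).measure_lt_top.ne]
  rw [Real.volume_pi_closedBall _ (by linarith), Real.volume_pi_closedBall _ (by linarith),
    Fintype.card_fin, ← ENNReal.ofReal_sub _ (by
      apply pow_nonneg; linarith)]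
  apply ENNReal.ofReal_le_ofReal
  have h2 := one_add_mul_le_pow (a := -(h / (2 * R))) (by
    have : h / (2 * R) ≤ 1 := by
      rw [div_le_one (by linarith)]; linarith
    linarith) d
  have h3 : (2 * (R - h / 2)) ^ d = (2 * R) ^ d * (1 + -(h / (2 * R))) ^ d := by
    rw [← mul_pow]
    congr 1
    field_simp
    ring
  rw [h3]
  have h4 : (0 : ℝ) ≤ (2 * R) ^ d := by positivity
  have h5 := mul_le_mul_of_nonneg_left h2 h4
  have h6 : h / (2 * R) ≤ h := by
    rw [div_le_iff₀ (by linarith)]
    nlinarith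
  have h7 : (2 * R) ^ d * (d * (h / (2 * R))) ≤ (2 * R) ^ d * (d * h) :=
    mul_le_mul_of_nonneg_left (mul_le_mul_of_nonneg_left h6 (Nat.cast_nonneg _)) h4
  nlinarith

lemma xe_upper {φ : (Fin d → ℝ) → ℝ} (hφ : ConvexOn ℝ univ φ) (hc : Continuous φ) (R : ℝ)
    (hR : 1 ≤ R) : ∃ K : ℝ, 0 ≤ K ∧ ∀ (j : Fin d) (h : ℝ), 0 < h → h ≤ 1 →
      ∫⁻ y in Metric.closedBall (0 : Fin d → ℝ) R, ENNReal.ofReal (sd φ (Pi.single j h) y) ≤
        ENNReal.ofReal (K * h ^ 2) := by
  obtain ⟨B, hB⟩ := (isCompact_closedBall (0 : Fin d → ℝ) (R + 3)).exists_bound_of_continuousOn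
    hc.continuousOn
  have hB0 : 0 ≤ B := (norm_nonneg _).trans (hB 0 (Metric.mem_closedBall_self (by linarith)))
  refine ⟨4 * B * ((2 * R) ^ d * d), by positivity, fun j h h0 h1 => ?_⟩
  set e : Fin d → ℝ := Pi.single j h with he
  have hG := fun y hy => xe_incr hφ hB0 hB j h0 h1 y hy
  set H : (Fin d → ℝ) → ℝ := fun y => φ (y + e) - φ y + 2 * B * h with hH
  have hHm : Measurable fun y => ENNReal.ofReal (H y) := by
    have : Continuous H := by rw [hH]; fun_prop
    exact ENNReal.measurable_ofReal.comp this.measurable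
  have hHb : ∀ y ∈ Metric.closedBall (0 : Fin d → ℝ) (R + 2), 0 ≤ H y ∧ H y ≤ 4 * B * h := by
    intro y hy
    have h2 := abs_le.1 (hG y hy)
    constructor
    · show 0 ≤ φ (y + e) - φ y + 2 * B * h
      linarith [h2.1]
    · show φ (y + e) - φ y + 2 * B * h ≤ 4 * B * h
      linarith [h2.2]
  have hen : ‖e‖ ≤ h := by
    have := norm_sgl j h
    rwa [abs_of_pos h0] at this
  set Q : Set (Fin d → ℝ) := Metric.closedBall 0 R with hQ
  set Q2 : Set (Fin d → ℝ) := Metric.closedBall (-(Pi.single j (h / 2))) (R - h / 2) with hQ2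
  have hQm : MeasurableSet Q := Metric.isClosed_closedBall.measurableSet
  have hQ2m : MeasurableSet Q2 := Metric.isClosed_closedBall.measurableSet
  have hhalf : ‖(Pi.single j (h / 2) : Fin d → ℝ)‖ ≤ h / 2 := by
    have := norm_sgl j (h / 2)
    rwa [abs_of_pos (by linarith)] at this
  have hsub : Q2 ⊆ Q := by
    apply Metric.closedBall_subset_closedBall'
    rw [dist_zero_right, norm_neg]
    linarith
  have hsplit : e = Pi.single j (h / 2) + Pi.single j (h / 2) := by
    rw [← Pi.single_add, add_halves]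
  -- the identity
  have hid : ∀ y ∈ Q, ENNReal.ofReal (H (y + -e)) + ENNReal.ofReal (sd φ e y) =
      ENNReal.ofReal (H y) := by
    intro y hy
    have hy' : y + -e ∈ Metric.closedBall (0 : Fin d → ℝ) (R + 2) := by
      rw [Metric.mem_closedBall, dist_zero_right] at hy ⊢
      have := norm_add_le y (-e)
      rw [norm_neg] at this
      linarith
    rw [← ENNReal.ofReal_add (hHb _ hy').1 (sd_nonneg hφ _ _)]
    congr 1
    show φ (y + -e + e) - φ (y + -e) + 2 * B * h + (φ (y + e) + φ (y - e) - 2 * φ y) =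
      φ (y + e) - φ y + 2 * B * h
    rw [neg_add_cancel_right, ← sub_eq_add_neg]
    ring
  have hint : ∫⁻ y in Q, ENNReal.ofReal (H (y + -e)) + ENNReal.ofReal (sd φ e y) =
      ∫⁻ y in Q, ENNReal.ofReal (H y) := setLIntegral_congr_fun hQm hid
  have hm1 : Measurable fun y => ENNReal.ofReal (H (y + -e)) :=
    hHm.comp (measurable_id.add_const (-e))
  rw [lintegral_add_left hm1] at hint
  have hlow : ∫⁻ y in Q2, ENNReal.ofReal (H y) ≤ ∫⁻ y in Q, ENNReal.ofReal (H (y + -e)) := by
    rw [← lintegral_indicator hQ2m, ← lintegral_indicator hQm,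
      ← lintegral_add_right_eq_self (fun y => indicator Q2 (fun y => ENNReal.ofReal (H y)) y) (-e)]
    refine lintegral_mono fun y => ?_
    by_cases hy : y + -e ∈ Q2
    · have hy2 : y ∈ Q := by
        rw [hQ2, Metric.mem_closedBall, dist_eq_norm] at hy
        rw [hQ, Metric.mem_closedBall, dist_zero_right]
        have e3 : y = (y + -e - -(Pi.single j (h / 2))) + Pi.single j (h / 2) := by
          rw [hsplit]; abel
        rw [e3]
        refine (norm_add_le _ _).trans ?_
        linarith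
      show indicator Q2 (fun y => ENNReal.ofReal (H y)) (y + -e) ≤
        indicator Q (fun y => ENNReal.ofReal (H (y + -e))) y
      rw [indicator_of_mem hy, indicator_of_mem hy2]
    · show indicator Q2 (fun y => ENNReal.ofReal (H y)) (y + -e) ≤ _
      rw [indicator_of_notMem hy]
      exact zero_le
  have hup : ∫⁻ y in Q, ENNReal.ofReal (H y) ≤ (∫⁻ y in Q2, ENNReal.ofReal (H y)) +
      ENNReal.ofReal (4 * B * h) * volume (Q \ Q2) := by
    rw [← union_diff_cancel hsub]
    refine (lintegral_union_le _ _ _).trans ?_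
    rw [union_diff_cancel hsub]
    refine add_le_add le_rfl ?_
    rw [← setLIntegral_const]
    refine setLIntegral_mono' (hQm.diff hQ2m) fun y hy => ?_
    exact ENNReal.ofReal_le_ofReal (hHb y (Metric.closedBall_subset_closedBall (by linarith)
      hy.1)).2
  have hfin : ∫⁻ y in Q2, ENNReal.ofReal (H y) ≠ ∞ := by
    refine ne_top_of_le_ne_top (b := ENNReal.ofReal (4 * B * h) * volume Q2)
      (ENNReal.mul_ne_top ENNReal.ofReal_ne_top (isCompact_closedBall _ _).measure_lt_top.ne) ?_
    rw [← setLIntegral_const]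
    refine setLIntegral_mono' hQ2m fun y hy => ?_
    exact ENNReal.ofReal_le_ofReal (hHb y (Metric.closedBall_subset_closedBall (by linarith)
      (hsub hy))).2
  have hmain : ∫⁻ y in Q, ENNReal.ofReal (sd φ e y) ≤
      ENNReal.ofReal (4 * B * h) * volume (Q \ Q2) := by
    refine (ENNReal.add_le_add_iff_left hfin).1 ?_
    calc (∫⁻ y in Q2, ENNReal.ofReal (H y)) + ∫⁻ y in Q, ENNReal.ofReal (sd φ e y) ≤
        (∫⁻ y in Q, ENNReal.ofReal (H (y + -e))) + ∫⁻ y in Q, ENNReal.ofReal (sd φ e y) :=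
          add_le_add hlow le_rfl
      _ = ∫⁻ y in Q, ENNReal.ofReal (H y) := hint
      _ ≤ _ := hup
  refine hmain.trans ((mul_le_mul_right (xe_vol R h hR h0 h1 j) _).trans ?_)
  rw [← ENNReal.ofReal_mul (by positivity)]
  apply ENNReal.ofReal_le_ofReal
  apply le_of_eq
  ring

end Pool.Agent.U153
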