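import Pool.Agent.U153.Xe3

/-!
# Upper expansions of convex functions on `ℝ^d` outside small sets
-/

set_option autoImplicit false

open MeasureTheory Filter Topology Set
open scoped ENNReal NNReal

namespace Pool.Agent.U153

variable {d : ℕ}

lemma xe_scale {φ : (Fin d → ℝ) → ℝ} (hφ : ConvexOn ℝ univ φ) (k : Fin d) (x : Fin d → ℝ)
    {s t : ℝ} (hs : 0 < s) (ht : |t| ≤ s) :
    sd φ (Pi.single k t) x ≤ |t| / s * sd φ (Pi.single k s) x := by
  have main : ∀ t : ℝ, 0 ≤ t → t ≤ s →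
      sd φ (Pi.single k t) x ≤ t / s * sd φ (Pi.single k s) x := by
    intro t ht0 hts
    have h0 : 0 ≤ t / s := div_nonneg ht0 hs.le
    have h1 : t / s ≤ 1 := (div_le_one hs).2 hts
    have es : (Pi.single k t : Fin d → ℝ) = (t / s) • Pi.single k s := by
      rw [← Pi.single_smul, smul_eq_mul, div_mul_cancel₀ _ hs.ne']
    have c1 := hφ.2 (mem_univ x) (mem_univ (x + Pi.single k s)) (by linarith : 0 ≤ 1 - t / s) h0
      (by ring)
    have c2 := hφ.2 (mem_univ x) (mem_univ (x - Pi.single k s)) (by linarith : 0 ≤ 1 - t / s) h0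
      (by ring)
    have e1 : (1 - t / s) • x + (t / s) • (x + Pi.single k s) = x + Pi.single k t := by
      rw [es]; module
    have e2 : (1 - t / s) • x + (t / s) • (x - Pi.single k s) = x - Pi.single k t := by
      rw [es]; module
    rw [e1] at c1
    rw [e2] at c2
    simp only [smul_eq_mul] at c1 c2
    unfold sd
    linarith
  rcases le_or_gt 0 t with h | h
  · rw [abs_of_nonneg h] at ht ⊢
    exact main t h ht
  · rw [abs_of_neg h] at ht ⊢
    have h1 := main (-t) (by linarith) ht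
    have e1 : sd φ (Pi.single k t) x = sd φ (Pi.single k (-t)) x := by
      unfold sd
      rw [Pi.single_neg, sub_neg_eq_add, ← sub_eq_add_neg]
      ring
    rw [e1]
    exact h1

lemma xe_jensen {φ : (Fin d → ℝ) → ℝ} (hd : 1 ≤ d) (hφ : ConvexOn ℝ univ φ) (x z : Fin d → ℝ) :
    sd φ z x ≤ 1 / (d : ℝ) * ∑ k, sd φ (Pi.single k (d * z k)) x := by
  have hd0 : (0 : ℝ) < d := by exact_mod_cast hd
  have J : ∀ z : Fin d → ℝ, φ (x + z) ≤ ∑ k, (1 / (d : ℝ)) * φ (x + Pi.single k (d * z k)) := by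
    intro z
    have h := hφ.map_sum_le (t := Finset.univ) (w := fun _ : Fin d => 1 / (d : ℝ))
      (p := fun k => x + Pi.single k (d * z k)) (fun _ _ => by positivity)
      (by rw [Finset.sum_const, Finset.card_univ, Fintype.card_fin, nsmul_eq_mul]; field_simp)
      (fun _ _ => mem_univ _)
    have e1 : ∑ k, (1 / (d : ℝ)) • (x + Pi.single k (d * z k)) = x + z := by
      funext i
      rw [Finset.sum_apply]
      simp only [Pi.smul_apply, Pi.add_apply, smul_eq_mul, Pi.single_apply, mul_add,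
        Finset.sum_add_distrib, mul_ite, mul_zero, Finset.sum_ite_eq, Finset.mem_univ, if_true,
        Finset.sum_const, Finset.card_univ, Fintype.card_fin, nsmul_eq_mul]
      field_simp
    rw [e1] at h
    simpa only [smul_eq_mul] using h
  have h1 := J z
  have h2 := J (-z)
  have e2 : ∀ k, x + Pi.single k ((d : ℝ) * (-z) k) = x - Pi.single k (d * z k) := by
    intro k
    rw [Pi.neg_apply, mul_neg, Pi.single_neg, ← sub_eq_add_neg]
  simp only [e2] at h2
  unfold sd
  rw [Finset.mul_sum]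
  have e3 : ∑ k, 1 / (d : ℝ) * (φ (x + Pi.single k (d * z k)) + φ (x - Pi.single k (d * z k)) -
      2 * φ x) = ∑ k, 1 / (d : ℝ) * φ (x + Pi.single k (d * z k)) +
        ∑ k, 1 / (d : ℝ) * φ (x - Pi.single k (d * z k)) - 2 * φ x := by
    have e4 : ∑ _k : Fin d, 1 / (d : ℝ) * (2 * φ x) = 2 * φ x := by
      rw [Finset.sum_const, Finset.card_univ, Fintype.card_fin, nsmul_eq_mul]
      field_simp
    rw [← e4, ← Finset.sum_add_distrib, ← Finset.sum_sub_distrib, e4]
    refine Finset.sum_congr rfl fun k _ => ?_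
    ring
  rw [e3]
  have e5 : x - z = x + -z := sub_eq_add_neg x z
  rw [e5]
  linarith

lemma xe_point {φ : (Fin d → ℝ) → ℝ} (hd : 1 ≤ d) (hφ : ConvexOn ℝ univ φ) (x z : Fin d → ℝ)
    {s : ℝ} (hs : 0 < s) (j : Fin d)
    (hj : ∀ k, sd φ (Pi.single k s) x ≤ sd φ (Pi.single j s) x) (hz : ‖z‖ ≤ s / (2 * d)) :
    sd φ (Pi.single j s) x ≤ sd φ (Pi.single j s) (x + z) + sd φ (Pi.single j s) (x - z) := by
  have hd0 : (0 : ℝ) < d := by exact_mod_cast hd
  have hD := sd_nonneg hφ (Pi.single j s) x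
  have h1 : sd φ z x ≤ 1 / 2 * sd φ (Pi.single j s) x := by
    refine (xe_jensen hd hφ x z).trans ?_
    have h2 : ∀ k ∈ (Finset.univ : Finset (Fin d)), sd φ (Pi.single k (d * z k)) x ≤
        1 / 2 * sd φ (Pi.single j s) x := by
      intro k _
      have h3 : |(d : ℝ) * z k| ≤ s / 2 := by
        rw [abs_mul, abs_of_pos hd0]
        have h4 : |z k| ≤ s / (2 * d) := (norm_le_pi_norm z k).trans hz
        calc (d : ℝ) * |z k| ≤ d * (s / (2 * d)) := mul_le_mul_of_nonneg_left h4 hd0.le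
          _ = s / 2 := by field_simp
      refine (xe_scale hφ k x hs (by linarith)).trans ?_
      have h5 : |(d : ℝ) * z k| / s ≤ 1 / 2 := by
        rw [div_le_iff₀ hs]; linarith
      exact mul_le_mul h5 (hj k) (sd_nonneg hφ _ _) (by norm_num)
    have h6 := Finset.sum_le_card_nsmul _ _ _ h2
    rw [Finset.card_univ, Fintype.card_fin, nsmul_eq_mul] at h6
    calc 1 / (d : ℝ) * ∑ k, sd φ (Pi.single k (d * z k)) x ≤
        1 / (d : ℝ) * (d * (1 / 2 * sd φ (Pi.single j s) x)) :=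
          mul_le_mul_of_nonneg_left h6 (by positivity)
      _ = _ := by field_simp
  have mid : ∀ e : Fin d → ℝ, φ (x + e) ≤ 1 / 2 * φ (x + z + e) + 1 / 2 * φ (x - z + e) := by
    intro e
    have h := hφ.2 (mem_univ (x + z + e)) (mem_univ (x - z + e)) (by norm_num : (0 : ℝ) ≤ 1 / 2)
      (by norm_num : (0 : ℝ) ≤ 1 / 2) (by norm_num)
    have e1 : (1 / 2 : ℝ) • (x + z + e) + (1 / 2 : ℝ) • (x - z + e) = x + e := by module
    rw [e1] at h
    simpa only [smul_eq_mul] using h
  have m1 := mid (Pi.single j s)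
  have m2 := mid (-Pi.single j s)
  rw [← sub_eq_add_neg, ← sub_eq_add_neg, ← sub_eq_add_neg] at m2
  unfold sd at h1 hD ⊢
  linarith

lemma xe_low {φ : (Fin d → ℝ) → ℝ} (hd : 1 ≤ d) (hφ : ConvexOn ℝ univ φ) (hc : Continuous φ)
    (x : Fin d → ℝ) (a k : ℕ) (j : Fin d)
    (hj : ∀ i, sd φ (Pi.single i ((1 / 2) ^ a)) x ≤ sd φ (Pi.single j ((1 / 2) ^ a)) x) :
    ENNReal.ofReal (4 ^ a * (1 / 2) * (((1 / 2) ^ a / d) ^ d * sd φ (Pi.single j ((1 / 2) ^ a)) x)) ≤
      4 ^ (a + k) * ∫⁻ y in Metric.closedBall x (2 * (1 / 2) ^ a),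
        ENNReal.ofReal (sd φ (Pi.single j ((1 / 2) ^ (a + k))) y) := by
  have hd0 : (0 : ℝ) < d := by exact_mod_cast hd
  set s : ℝ := (1 / 2) ^ a with hs
  have hs0 : 0 < s := by positivity
  set ρ : ℝ := s / (2 * d) with hρ
  have hρ0 : 0 < ρ := by positivity
  have hρs : ρ ≤ s := by
    rw [hρ, div_le_iff₀ (by positivity)]
    have : (1 : ℝ) ≤ d := by exact_mod_cast hd
    nlinarith
  set D := sd φ (Pi.single j s) x with hD
  have hm : Measurable fun y => ENNReal.ofReal (sd φ (Pi.single j s) y) :=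
    ENNReal.measurable_ofReal.comp (sd_cont hc _).measurable
  set I : ℝ≥0∞ := ∫⁻ y in Metric.closedBall x ρ, ENNReal.ofReal (sd φ (Pi.single j s) y) with hI
  have hBm : MeasurableSet (Metric.closedBall x ρ) := Metric.isClosed_closedBall.measurableSet
  have hA : ENNReal.ofReal D * ENNReal.ofReal ((s / d) ^ d) ≤ 2 * I := by
    have hvol : volume (Metric.closedBall x ρ) = ENNReal.ofReal ((s / d) ^ d) := by
      rw [Real.volume_pi_closedBall _ hρ0.le, Fintype.card_fin]
      congr 2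
      rw [hρ]
      field_simp
    rw [← hvol, ← setLIntegral_const]
    have h1 : ∀ y ∈ Metric.closedBall x ρ, ENNReal.ofReal D ≤
        ENNReal.ofReal (sd φ (Pi.single j s) y) +
          ENNReal.ofReal (sd φ (Pi.single j s) (x + x - y)) := by
      intro y hy
      rw [← ENNReal.ofReal_add (sd_nonneg hφ _ _) (sd_nonneg hφ _ _)]
      apply ENNReal.ofReal_le_ofReal
      rw [Metric.mem_closedBall, dist_eq_norm] at hy
      have h2 := xe_point hd hφ x (y - x) hs0 j hj hy
      have e1 : x + (y - x) = y := by abel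
      have e2 : x - (y - x) = x + x - y := by abel
      rwa [e1, e2] at h2
    refine (setLIntegral_mono' hBm h1).trans ?_
    rw [lintegral_add_left hm, two_mul]
    refine add_le_add le_rfl (le_of_eq ?_)
    rw [hI, ← lintegral_indicator hBm, ← lintegral_indicator hBm,
      ← lintegral_sub_left_eq_self (fun y => indicator (Metric.closedBall x ρ)
        (fun y => ENNReal.ofReal (sd φ (Pi.single j s) y)) y) (x + x)]
    refine lintegral_congr fun y => ?_
    have hiff : x + x - y ∈ Metric.closedBall x ρ ↔ y ∈ Metric.closedBall x ρ := by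
      rw [Metric.mem_closedBall, Metric.mem_closedBall, dist_eq_norm, dist_eq_norm]
      have e1 : x + x - y - x = -(y - x) := by abel
      rw [e1, norm_neg]
    by_cases hy : y ∈ Metric.closedBall x ρ
    · rw [indicator_of_mem hy, indicator_of_mem (hiff.2 hy)]
    · rw [indicator_of_notMem hy, indicator_of_notMem (fun h => hy (hiff.1 h))]
  have hB : I ≤ 4 ^ k * ∫⁻ y in Metric.closedBall x (2 * s),
        ENNReal.ofReal (sd φ (Pi.single j ((1 / 2) ^ (a + k))) y) := by
    refine (xe_iter hφ hc j x ρ a k).trans (mul_le_mul_right ?_ _)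
    refine lintegral_mono_set (Metric.closedBall_subset_closedBall ?_)
    have : (0 : ℝ) ≤ (1 / 2) ^ (a + k) := by positivity
    linarith
  have e1 : 4 ^ a * (1 / 2) * ((s / d) ^ d * D) = 4 ^ a * (1 / 2) * (D * (s / d) ^ d) := by ring
  rw [e1, ENNReal.ofReal_mul (by positivity), ENNReal.ofReal_mul (sd_nonneg hφ _ _),
    ENNReal.ofReal_mul (by positivity)]
  have e2 : ENNReal.ofReal ((4 : ℝ) ^ a) = 4 ^ a := by
    rw [ENNReal.ofReal_pow (by norm_num)]
    norm_num
  have e3 : ENNReal.ofReal (1 / 2 : ℝ) * 2 = 1 := by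
    rw [show (2 : ℝ≥0∞) = ENNReal.ofReal 2 by norm_num, ← ENNReal.ofReal_mul (by norm_num)]
    norm_num
  rw [e2]
  calc 4 ^ a * ENNReal.ofReal (1 / 2) * (ENNReal.ofReal D * ENNReal.ofReal ((s / d) ^ d)) ≤
      4 ^ a * ENNReal.ofReal (1 / 2) * (2 * I) := mul_le_mul_right hA _
    _ = 4 ^ a * I := by
      rw [← mul_assoc, mul_assoc (4 ^ a), e3, mul_one]
    _ ≤ 4 ^ a * (4 ^ k * ∫⁻ y in Metric.closedBall x (2 * s),
        ENNReal.ofReal (sd φ (Pi.single j ((1 / 2) ^ (a + k))) y)) := mul_le_mul_right hB _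
    _ = 4 ^ (a + k) * ∫⁻ y in Metric.closedBall x (2 * s),
        ENNReal.ofReal (sd φ (Pi.single j ((1 / 2) ^ (a + k))) y) := by
      rw [pow_add (4 : ℝ≥0∞) a k, mul_assoc]

end Pool.Agent.U153
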