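import Pool.Agent.U153.Xe4

/-!
# Upper expansions of convex functions on `ℝ^d` outside small sets, conclusion
-/

set_option autoImplicit false

open MeasureTheory Filter Topology Set
open scoped ENNReal NNReal

namespace Pool.Agent.U153

variable {d : ℕ}

/-- a subgradient along the coordinate axes -/
lemma xe_subgrad {φ : (Fin d → ℝ) → ℝ} (hφ : ConvexOn ℝ univ φ) (x : Fin d → ℝ) (k : Fin d) :
    ∃ v : ℝ, ∀ s : ℝ, φ x + s * v ≤ φ (x + Pi.single k s) := by
  set f : ℝ → ℝ := fun t => φ (x + Pi.single k t) with hf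
  have hconv : ConvexOn ℝ univ f := by
    refine ⟨convex_univ, fun t _ u _ a b ha hb hab => ?_⟩
    have h1 : x + Pi.single k (a • t + b • u) =
        a • (x + Pi.single k t) + b • (x + Pi.single k u) := by
      funext j
      by_cases hj : j = k
      · subst hj
        simp only [Pi.add_apply, Pi.smul_apply, Pi.single_eq_same, smul_eq_mul]
        have : x j = a * x j + b * x j := by rw [← add_mul, hab, one_mul]
        linarith
      · simp only [Pi.add_apply, Pi.smul_apply, Pi.single_eq_of_ne hj, smul_eq_mul, add_zero]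
        rw [← add_mul, hab, one_mul]
    show φ (x + Pi.single k (a • t + b • u)) ≤ _
    rw [h1]
    exact hφ.2 (mem_univ _) (mem_univ _) ha hb hab
  refine ⟨derivWithin f (Ioi 0) 0, fun s => ?_⟩
  have h0 : f 0 = φ x := by rw [hf]; simp
  rw [← h0]
  show f 0 + s * derivWithin f (Ioi 0) 0 ≤ f s
  rcases lt_trichotomy 0 s with h | h | h
  · have h1 := hconv.rightDeriv_le_slope_of_mem_interior (x := 0) (y := s)
      (by rw [interior_univ]; exact mem_univ _) (mem_univ _) h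
    rw [slope_def_field, le_div_iff₀ (sub_pos.2 h)] at h1
    linarith
  · rw [← h]; simp
  · have h1 := hconv.slope_le_leftDeriv_of_mem_interior (x := s) (y := 0) (mem_univ _)
      (by rw [interior_univ]; exact mem_univ _) h
    have h2 := hconv.leftDeriv_le_rightDeriv_of_mem_interior (x := 0)
      (by rw [interior_univ]; exact mem_univ _)
    have h3 := h1.trans h2
    rw [slope_def_field, div_le_iff₀ (sub_pos.2 h)] at h3
    linarith

theorem xe_curv (hd : 1 ≤ d) (φ : (Fin d → ℝ) → ℝ) (hφ : ConvexOn ℝ univ φ) (σ : ℝ)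
    (hσ : 0 < σ) :
    μH[(d : ℝ) - 1 + σ] {x : Fin d → ℝ | ¬ ∃ (v : Fin d → ℝ) (C : ℝ), 0 ≤ C ∧
      ∀ (k : Fin d) (s : ℝ), |s| ≤ 1 →
        φ (x + Pi.single k s) ≤ φ x + s * v k + C * |s| ^ (1 + σ)} = 0 := by
  have hd1 : (1 : ℝ) ≤ d := by exact_mod_cast hd
  have hd0 : (0 : ℝ) < d := by linarith
  have hc : Continuous φ := by
    rw [← continuousOn_univ]
    exact hφ.continuousOn isOpen_univ
  have hτ : 0 < (d : ℝ) - 1 + σ := by linarith
  set w : ℕ → (Fin d → ℝ) → ℝ≥0∞ := fun m y =>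
    ∑ j : Fin d, 4 ^ m * ENNReal.ofReal (sd φ (Pi.single j ((1 / 2) ^ m)) y) with hw
  have hmj : ∀ (m : ℕ) (j : Fin d),
      Measurable fun y => ENNReal.ofReal (sd φ (Pi.single j ((1 / 2 : ℝ) ^ m)) y) :=
    fun m j => ENNReal.measurable_ofReal.comp (sd_cont hc _).measurable
  set μ : ℕ → Measure (Fin d → ℝ) := fun m => volume.withDensity (w m) with hμ
  have hball : ∀ (m : ℕ) (x : Fin d → ℝ) (r : ℝ), μ m (Metric.closedBall x r) =
      ∑ j : Fin d, 4 ^ m * ∫⁻ y in Metric.closedBall x r,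
        ENNReal.ofReal (sd φ (Pi.single j ((1 / 2) ^ m)) y) := by
    intro m x r
    rw [hμ]
    show (volume.withDensity (w m)) (Metric.closedBall x r) = _
    rw [withDensity_apply _ Metric.isClosed_closedBall.measurableSet, hw]
    show ∫⁻ y in Metric.closedBall x r, ∑ j : Fin d, 4 ^ m *
      ENNReal.ofReal (sd φ (Pi.single j ((1 / 2) ^ m)) y) = _
    rw [lintegral_finsetSum _ (fun j _ => (hmj m j).const_mul _)]
    exact Finset.sum_congr rfl fun j _ => lintegral_const_mul _ (hmj m j)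
  -- the upper bound
  have hup : ∀ M : ℕ, ∃ G : ℝ≥0∞, G < ∞ ∧ ∀ m, μ m (Metric.closedBall 0 ((M : ℝ) + 2)) ≤ G := by
    intro M
    obtain ⟨K, hK, h1⟩ := xe_upper hφ hc ((M : ℝ) + 2) (by
      have : (0 : ℝ) ≤ M := Nat.cast_nonneg M
      linarith)
    refine ⟨∑ _j : Fin d, ENNReal.ofReal K, ?_, fun m => ?_⟩
    · exact ENNReal.sum_lt_top.2 fun _ _ => ENNReal.ofReal_lt_top
    · rw [hball]
      refine Finset.sum_le_sum fun j _ => ?_
      have h2 := h1 j ((1 / 2) ^ m) (by positivity) (pow_le_one₀ (by norm_num) (by norm_num))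
      refine (mul_le_mul_right h2 _).trans ?_
      have e2 : (4 : ℝ≥0∞) ^ m = ENNReal.ofReal ((4 : ℝ) ^ m) := by
        rw [ENNReal.ofReal_pow (by norm_num)]
        norm_num
      rw [e2, ← ENNReal.ofReal_mul (by positivity)]
      apply ENNReal.ofReal_le_ofReal
      apply le_of_eq
      rw [← pow_mul, mul_comm m 2, pow_mul]
      calc (4 : ℝ) ^ m * (K * ((1 / 2) ^ 2) ^ m) = K * (4 * (1 / 2) ^ 2) ^ m := by
            rw [mul_pow]; ring
        _ = K := by norm_num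
  -- the exceptional set
  have hnull : μH[(d : ℝ) - 1 + σ] {x : Fin d → ℝ | ∀ C : ℝ, 0 ≤ C → ∃ s : ℝ, 0 < s ∧ s ≤ 1 ∧
      ∀ᶠ m in atTop, ENNReal.ofReal (C * s ^ ((d : ℝ) - 1 + σ)) ≤
        μ m (Metric.closedBall x (2 * s))} = 0 := by
    refine measure_mono_null (t := ⋃ M : ℕ, ({x : Fin d → ℝ | ∀ C : ℝ, 0 ≤ C → ∃ s : ℝ, 0 < s ∧
      s ≤ 1 ∧ ∀ᶠ m in atTop, ENNReal.ofReal (C * s ^ ((d : ℝ) - 1 + σ)) ≤
        μ m (Metric.closedBall x (2 * s))} ∩ Metric.closedBall 0 (M : ℝ))) ?_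
      (measure_iUnion_null fun M : ℕ => ?_)
    · intro x hx
      obtain ⟨M, hM⟩ := exists_nat_ge ‖x‖
      refine mem_iUnion.2 ⟨M, hx, ?_⟩
      rw [Metric.mem_closedBall, dist_zero_right]
      exact hM
    · obtain ⟨G, hG, h1⟩ := hup M
      exact xe_piece μ _ hτ M G hG h1
  refine measure_mono_null ?_ hnull
  intro x hx
  by_contra hcon
  apply hx
  have hcon' : ¬ ∀ C : ℝ, 0 ≤ C → ∃ s : ℝ, 0 < s ∧ s ≤ 1 ∧
      ∀ᶠ m in atTop, ENNReal.ofReal (C * s ^ ((d : ℝ) - 1 + σ)) ≤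
        μ m (Metric.closedBall x (2 * s)) := hcon
  push Not at hcon'
  obtain ⟨C, hC, h1⟩ := hcon'
  haveI : Nonempty (Fin d) := ⟨⟨0, hd⟩⟩
  -- dyadic scales
  have hdy : ∀ (a : ℕ) (i : Fin d), sd φ (Pi.single i ((1 / 2) ^ a)) x ≤
      2 * C * (d : ℝ) ^ d * ((1 / 2 : ℝ) ^ a) ^ (1 + σ) := by
    intro a i
    set s : ℝ := (1 / 2) ^ a with hs
    have hs0 : 0 < s := by positivity
    have hs1 : s ≤ 1 := pow_le_one₀ (by norm_num) (by norm_num)
    obtain ⟨j, -, hj⟩ := Finset.exists_max_image (Finset.univ : Finset (Fin d))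
      (fun i => sd φ (Pi.single i s) x) Finset.univ_nonempty
    refine (hj i (Finset.mem_univ i)).trans ?_
    by_contra hbig
    push Not at hbig
    refine h1 s hs0 hs1 ?_
    filter_upwards [eventually_ge_atTop a] with m hm
    obtain ⟨k, rfl⟩ := Nat.exists_eq_add_of_le hm
    have h2 := xe_low hd hφ hc x a k j (fun i => hj i (Finset.mem_univ i))
    rw [hball]
    have h3 : 4 ^ (a + k) * ∫⁻ y in Metric.closedBall x (2 * s),
        ENNReal.ofReal (sd φ (Pi.single j ((1 / 2) ^ (a + k))) y) ≤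
        ∑ j : Fin d, 4 ^ (a + k) * ∫⁻ y in Metric.closedBall x (2 * s),
        ENNReal.ofReal (sd φ (Pi.single j ((1 / 2) ^ (a + k))) y) :=
      Finset.single_le_sum (f := fun j : Fin d => 4 ^ (a + k) *
        ∫⁻ y in Metric.closedBall x (2 * s),
          ENNReal.ofReal (sd φ (Pi.single j ((1 / 2) ^ (a + k))) y))
        (fun _ _ => zero_le) (Finset.mem_univ j)
    refine not_lt.2 (le_trans ?_ (h2.trans h3))
    apply ENNReal.ofReal_le_ofReal
    have e4 : (4 : ℝ) ^ a = (s ^ 2)⁻¹ := by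
      rw [hs, ← pow_mul, mul_comm a 2, pow_mul, ← inv_pow]
      norm_num
    have e5 : s ^ ((d : ℝ) - 1 + σ) = s ^ (1 + σ) * s ^ d * (s ^ 2)⁻¹ := by
      rw [← Real.rpow_natCast s d, ← Real.rpow_natCast s 2, ← Real.rpow_neg hs0.le,
        ← Real.rpow_add hs0, ← Real.rpow_add hs0]
      congr 1
      push_cast
      ring
    rw [e4, e5, div_pow]
    have h3 : 0 < (s ^ 2)⁻¹ * (1 / 2) * (s ^ d / (d : ℝ) ^ d) := by positivity
    calc C * (s ^ (1 + σ) * s ^ d * (s ^ 2)⁻¹) =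
        (s ^ 2)⁻¹ * (1 / 2) * (s ^ d / (d : ℝ) ^ d) * (2 * C * (d : ℝ) ^ d * s ^ (1 + σ)) := by
          field_simp
      _ ≤ (s ^ 2)⁻¹ * (1 / 2) * (s ^ d / (d : ℝ) ^ d) * sd φ (Pi.single j s) x :=
          mul_le_mul_of_nonneg_left hbig.le h3.le
      _ = _ := by ring
  choose v hv using fun k => xe_subgrad hφ x k
  refine ⟨v, 2 * C * (d : ℝ) ^ d * 2 ^ (1 + σ), by positivity, fun k s hs => ?_⟩
  rcases eq_or_ne s 0 with rfl | hs0
  · simp only [Pi.single_zero, add_zero, zero_mul, abs_zero]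
    rw [Real.zero_rpow (by linarith)]
    simp
  have hsp : 0 < |s| := abs_pos.2 hs0
  -- the dyadic scale above `|s|`
  obtain ⟨a, ha1, ha2⟩ : ∃ a : ℕ, |s| ≤ (1 / 2) ^ a ∧ (1 / 2 : ℝ) ^ (a + 1) < |s| := by
    have hex : ∃ n : ℕ, (1 / 2 : ℝ) ^ (n + 1) < |s| := by
      obtain ⟨n, hn⟩ := exists_pow_lt_of_lt_one hsp (by norm_num : (1 / 2 : ℝ) < 1)
      exact ⟨n, lt_of_le_of_lt (pow_le_pow_of_le_one (by norm_num) (by norm_num)
        (Nat.le_succ n)) hn⟩
    classical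
    refine ⟨Nat.find hex, ?_, Nat.find_spec hex⟩
    rcases Nat.eq_zero_or_pos (Nat.find hex) with h | h
    · rw [h, pow_zero]; exact hs
    · obtain ⟨b, hb⟩ : ∃ b, Nat.find hex = b + 1 := ⟨_, (Nat.succ_pred_eq_of_pos h).symm⟩
      have h5 := Nat.find_min hex (m := b) (by omega)
      rw [hb]
      exact not_lt.1 h5
  have hsc := xe_scale hφ k x (by positivity : (0 : ℝ) < (1 / 2) ^ a) ha1
  have h6 : sd φ (Pi.single k s) x ≤ 2 * C * (d : ℝ) ^ d * 2 ^ (1 + σ) * |s| ^ (1 + σ) := by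
    have h7 : |s| / (1 / 2) ^ a ≤ 1 := (div_le_one (by positivity)).2 ha1
    have h8 : sd φ (Pi.single k s) x ≤ sd φ (Pi.single k ((1 / 2) ^ a)) x := by
      refine hsc.trans ?_
      calc _ ≤ 1 * sd φ (Pi.single k ((1 / 2) ^ a)) x :=
            mul_le_mul_of_nonneg_right h7 (sd_nonneg hφ _ _)
        _ = _ := one_mul _
    refine (h8.trans (hdy a k)).trans ?_
    have h9 : (1 / 2 : ℝ) ^ a ≤ 2 * |s| := by
      rw [pow_succ] at ha2
      linarith
    have h10 : ((1 / 2 : ℝ) ^ a) ^ (1 + σ) ≤ 2 ^ (1 + σ) * |s| ^ (1 + σ) := by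
      rw [← Real.mul_rpow (by norm_num) hsp.le]
      exact Real.rpow_le_rpow (by positivity) h9 (by linarith)
    calc 2 * C * (d : ℝ) ^ d * ((1 / 2 : ℝ) ^ a) ^ (1 + σ) ≤
        2 * C * (d : ℝ) ^ d * (2 ^ (1 + σ) * |s| ^ (1 + σ)) :=
          mul_le_mul_of_nonneg_left h10 (by positivity)
      _ = _ := by ring
  have h11 := hv k (-s)
  have h12 : x + Pi.single k (-s) = x - Pi.single k s := by
    rw [Pi.single_neg, ← sub_eq_add_neg]
  rw [h12] at h11
  unfold sd at h6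
  linarith

end Pool.Agent.U153
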