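import Pool.Agent.U153.Xd4
import Pool.Agent.U153.Xe5

/-!
# The exceptional drifts of the directed polymer in `ℝ^d`
-/

set_option autoImplicit false

open MeasureTheory ProbabilityTheory Filter Topology
open scoped ENNReal NNReal

namespace Pool.Agent.U153

open TH967.DP (Step pos energy)
open Pool.Agent.N662.SE

variable {d : ℕ}

lemma xe_inter (hd : 1 ≤ d) (β : ℝ) (h : Fin d → ℝ) (η : ℕ → (Fin d → ℤ) → ℝ) (n : ℕ)
    (A : Fin d → Set (Fin n → Step d)) (q : ℝ) (hA : ∀ k, 1 - q ≤ prob β h η n (A k)) :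
    1 - d * q ≤ prob β h η n {w | ∀ k, w ∈ A k} := by
  have hZ := Pool.Agent.N700.SE.UPD.part_univ_pos hd β h η n
  have hc : ∀ B : Set (Fin n → Step d), prob β h η n B =
      1 - part β h η n Bᶜ / part β h η n Set.univ := by
    intro B
    have h1 := Pool.Agent.N700.SE.UPD.part_compl β h η n B
    unfold prob
    rw [← h1] at hZ ⊢
    field_simp
    ring
  have h1 : part β h η n {w | ∀ k, w ∈ A k}ᶜ ≤
      ∑ k ∈ (Finset.univ : Finset (Fin d)), part β h η n (A k)ᶜ := by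
    apply Pool.Agent.N700.SE.UPD.part_le
    intro w hw
    have hw' : ¬ ∀ k, w ∈ A k := hw
    push Not at hw'
    obtain ⟨k, hk⟩ := hw'
    exact ⟨k, Finset.mem_univ k, hk⟩
  rw [hc]
  have h2 : ∀ k ∈ (Finset.univ : Finset (Fin d)),
      part β h η n (A k)ᶜ / part β h η n Set.univ ≤ q := by
    intro k _
    have h3 := hA k
    rw [hc] at h3
    linarith
  have h4 := Finset.sum_le_card_nsmul _ _ _ h2
  rw [Finset.card_univ, Fintype.card_fin, nsmul_eq_mul, ← Finset.sum_div] at h4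
  have h5 := div_le_div_of_nonneg_right h1 hZ.le
  linarith

lemma xe_asy (c c' : ℝ) (hc : c < c') (h0 : 0 < c') : ∀ᶠ n : ℕ in atTop,
    d * Real.exp (-(n : ℝ) ^ c') ≤ Real.exp (-(n : ℝ) ^ c) := by
  have h1 : Tendsto (fun n : ℕ => (n : ℝ) ^ c') atTop atTop :=
    (tendsto_rpow_atTop h0).comp tendsto_natCast_atTop_atTop
  filter_upwards [Pool.Agent.N700.SE.UPD.ev_pow 2 c c' hc,
    h1.eventually (eventually_ge_atTop (2 * (d : ℝ)))] with n h2 h3
  have h4 : (d : ℝ) ≤ Real.exp d := by linarith [Real.add_one_le_exp (d : ℝ)]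
  calc (d : ℝ) * Real.exp (-(n : ℝ) ^ c') ≤ Real.exp d * Real.exp (-(n : ℝ) ^ c') :=
        mul_le_mul_of_nonneg_right h4 (Real.exp_pos _).le
    _ = Real.exp (d + -(n : ℝ) ^ c') := (Real.exp_add _ _).symm
    _ ≤ _ := Real.exp_le_exp.2 (by linarith)

theorem xe_main (hd : 1 ≤ d) {Ω : Type} [MeasurableSpace Ω] (P : Measure Ω)
    [IsProbabilityMeasure P] (ω : ℕ → (Fin d → ℤ) → Ω → ℝ) (he : IsEnv P ω)
    (hexp : ∀ b : ℝ, Integrable (fun x => Real.exp (b * ω 1 0 x)) P) (β σ : ℝ) (hσ : 0 < σ) :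
    ∃ N : Set (Fin d → ℝ), μH[(d : ℝ) - 1 + σ] N = 0 ∧ ∀ h : Fin d → ℝ, h ∉ N →
      Concentrated P ω β h (1 / 2) ∧ chiUp P ω β h ≤ 1 / 2 ∧ ∃ v : Fin d → ℝ,
      wander P ω β h v ≤ (1 + σ * chiUp P ω β h) / (1 + σ) ∧
      ∀ ξ : ℝ, 0 < ξ → ξ < 1 → Concentrated P ω β h ξ → ∀ b c : ℝ, (1 + σ * ξ) / (1 + σ) < b →
        b ≤ 1 → c < b - (1 - b) / σ → ∀ᵐ x ∂P, ∀ᶠ n : ℕ in atTop,
          1 - Real.exp (-(n : ℝ) ^ c) ≤ polymer β h (fun i y => ω i y x) n
            {w | ∀ i : ℕ, i ≤ n → dev v w i ≤ (n : ℝ) ^ b} := by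
  have mgf := Pool.Agent.N523.SE.MGF.main
  have hc : S_CONC := Pool.Agent.N523.SE.CONC.main mgf
  have hs : S_SUP := Pool.Agent.N50.SE.SUP.main hc
  have hv : S_CVX := Pool.Agent.N50.SE.CVX.main hc
  have hdb : S_DBL := Pool.Agent.N97.SE.DBL.main hc
  have hr : S_RATE := Pool.Agent.N353.SE.Rate.main hs hdb hv
  have hi : S_ID := Pool.Agent.N951.SE.t
  have hdx : S_DBLX := Pool.Agent.N803.SE.DBLX.main hc hi
  have hrx : S_RATEX := Pool.Agent.N316.SE.Ratex.main hr hdx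
  have hp : S_PP := Pool.Agent.N340.SE.pp
  obtain ⟨φ, hφ, hfr, hrate⟩ := hrx d hd Ω P ω he hexp β
  refine ⟨_, xe_curv hd φ hφ σ hσ, fun h hh => ?_⟩
  rw [Set.mem_ofPred_eq, not_not] at hh
  obtain ⟨v, C, hC, hcurv⟩ := hh
  have hhalf := concentrated_half hc hd he hexp β h
  have hch := chiUp_le_half hc hd he hexp β h
  -- solving for the exponents
  have hex : ∀ ξ b : ℝ, 0 < ξ → (1 + σ * ξ) / (1 + σ) < b → 0 < b - (1 - b) / σ := by
    intro ξ b hξ hb
    rw [div_lt_iff₀ (by linarith)] at hb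
    have h1 : (1 - b) / σ * σ = 1 - b := div_mul_cancel₀ _ hσ.ne'
    by_contra hcon
    push Not at hcon
    have h2 : (b - (1 - b) / σ) * σ ≤ 0 := mul_nonpos_of_nonpos_of_nonneg hcon hσ.le
    have h3 : 0 < σ * ξ := mul_pos hσ hξ
    nlinarith
  have hup : ∀ ξ : ℝ, 0 < ξ → ξ < 1 → Concentrated P ω β h ξ → ∀ b c : ℝ,
      (1 + σ * ξ) / (1 + σ) < b → b ≤ 1 → c < b - (1 - b) / σ →
      ∀ᵐ x ∂P, ∀ᶠ n : ℕ in atTop,
        1 - Real.exp (-(n : ℝ) ^ c) ≤ polymer β h (fun i y => ω i y x) n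
          {w | ∀ i : ℕ, i ≤ n → dev v w i ≤ (n : ℝ) ^ b} := by
    intro ξ hξ0 hξ1 hξ b c hb hb1 hcb
    rw [concentrated_iff hd fun h n => (hc d hd Ω P ω he hexp β h 0 0 n).2.1] at hξ
    obtain ⟨U, hU, hhU, α, C0, hα, hCU⟩ := hξ
    have hb' : (c * σ + 1) / (1 + σ) < b := by
      rw [div_lt_iff₀ (by linarith)]
      have h1 : (1 - b) / σ * σ = 1 - b := div_mul_cancel₀ _ hσ.ne'
      have h2 := mul_lt_mul_of_pos_right hcb hσ
      rw [sub_mul, h1] at h2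
      linarith
    obtain ⟨b', hb'1, hb'2⟩ := exists_between (max_lt hb hb')
    have hb3 := max_lt_iff.1 hb'1
    have hcb' : c < b' - (1 - b') / σ := by
      have h1 := hb3.2
      rw [div_lt_iff₀ (by linarith)] at h1
      have h2 : (1 - b') / σ * σ = 1 - b' := div_mul_cancel₀ _ hσ.ne'
      by_contra hcon
      push Not at hcon
      have h3 := mul_le_mul_of_nonneg_right hcon hσ.le
      rw [sub_mul, h2] at h3
      linarith
    obtain ⟨c', hc'1, hc'2⟩ := exists_between (max_lt hcb' (hex ξ b' hξ0 hb3.1))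
    have hc3 := max_lt_iff.1 hc'1
    have hk : ∀ k : Fin d, ∀ᵐ x ∂P, ∀ᶠ n : ℕ in atTop,
        1 - Real.exp (-(n : ℝ) ^ c') ≤ prob β h (fun i y => ω i y x) n
          {w | ∀ i : ℕ, i ≤ n → |(pos w i k : ℝ) - i * v k| ≤ (n : ℝ) ^ b'} := fun k =>
      xd_up hc hi hp hd P ω he hexp β (φ := φ) hfr hrate (h := h) (k := k)
        (v := v k) (C := C) (τ := σ) hσ hC (fun s hs => hcurv k s hs)
        U hU hhU ξ α C0 hξ0 hξ1 hα hCU b' c' hb3.1 (by linarith) hc'2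
    filter_upwards [ae_all_iff.2 hk] with x hx
    filter_upwards [eventually_all.2 hx, xe_asy (d := d) c c' hc3.1 hc3.2,
      pow_dom' hb'2 d] with n hn hn1 hn2
    have h1 := xe_inter hd β h (fun i y => ω i y x) n _ _ hn
    rw [polymer_eq]
    refine le_trans ?_ (h1.trans (prob_mono _ _ _ ?_))
    · linarith
    · intro w hw i hi
      exact (dev_le_of (Real.rpow_nonneg (Nat.cast_nonneg n) _) (fun k => hw k i hi)).trans hn2
  refine ⟨hhalf, hch, v, ?_, hup⟩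
  have key : ∀ ξ : ℝ, 0 < ξ → ξ < 1 → Concentrated P ω β h ξ →
      wander P ω β h v ≤ (1 + σ * ξ) / (1 + σ) := by
    intro ξ hξ0 hξ1 hξ
    by_contra hcon
    push Not at hcon
    have h0 : (1 + σ * ξ) / (1 + σ) < 1 := by
      rw [div_lt_one (by linarith)]
      nlinarith
    obtain ⟨b, hb1, hb2⟩ := exists_between (lt_min hcon h0)
    have hb3 := lt_min_iff.1 hb2
    have hb0 : 0 < b := lt_of_le_of_lt (by positivity) hb1
    have he0 := hex ξ b hξ0 hb1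
    have h1 := wander_le hd hb0 (by linarith : (0 : ℝ) < (b - (1 - b) / σ) / 2)
      (hup ξ hξ0 hξ1 hξ b ((b - (1 - b) / σ) / 2) hb1 hb3.2.le (by linarith))
    linarith [hb3.1]
  have h1 : (wander P ω β h v * (1 + σ) - 1) / σ ≤ chiUp P ω β h := by
    apply le_csInf
    · exact ⟨1 / 2, by norm_num, hhalf⟩
    · rintro ξ ⟨hξ0, hξ⟩
      rw [div_le_iff₀ hσ]
      rcases lt_or_ge ξ 1 with h1 | h1
      · have h2 := key ξ hξ0 h1 hξ
        rw [le_div_iff₀ (by linarith)] at h2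
        linarith
      · have h2 := key (1 / 2) (by norm_num) (by norm_num) hhalf
        rw [le_div_iff₀ (by linarith)] at h2
        nlinarith
  rw [div_le_iff₀ hσ] at h1
  rw [le_div_iff₀ (by linarith)]
  linarith

end Pool.Agent.U153
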