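import Pool.Agent.U153.Xe6

/-!
# Dimension of sets of drifts
-/

set_option autoImplicit false

open MeasureTheory ProbabilityTheory Filter Topology
open scoped ENNReal NNReal

namespace Pool.Agent.U153

lemma xe_dim {d : ℕ} (hd : 1 ≤ d) {S : Set (Fin d → ℝ)} {s : ℝ} (h0 : 0 ≤ s) (h1 : s < 1)
    (H : ∀ σ : ℝ, s < σ → σ ≤ 1 → μH[(d : ℝ) - 1 + σ] S = 0) :
    dimH S ≤ ENNReal.ofReal ((d : ℝ) - 1 + s) := by
  have hd1 : (1 : ℝ) ≤ d := by exact_mod_cast hd
  by_contra hcon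
  push Not at hcon
  have h2 : ENNReal.ofReal ((d : ℝ) - 1 + s) < ENNReal.ofReal d :=
    (ENNReal.ofReal_lt_ofReal_iff (by linarith)).2 (by linarith)
  obtain ⟨r, hr1, hr2⟩ := ENNReal.lt_iff_exists_nnreal_btwn.1 (lt_min hcon h2)
  have hr3 := lt_min_iff.1 hr2
  have h3 := hausdorffMeasure_of_lt_dimH hr3.1
  have h4 : (d : ℝ) - 1 + s < (r : ℝ) := by
    have := (ENNReal.ofReal_lt_iff_lt_toReal (by linarith) ENNReal.coe_ne_top).1 hr1
    simpa using this
  have h5 : (r : ℝ) ≤ d := by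
    have h6 := (ENNReal.lt_ofReal_iff_toReal_lt ENNReal.coe_ne_top).1 hr3.2
    simpa using h6.le
  have h6 := H ((r : ℝ) - (d - 1)) (by linarith) (by linarith)
  have e1 : (d : ℝ) - 1 + ((r : ℝ) - (d - 1)) = r := by ring
  rw [e1, h3] at h6
  exact ENNReal.top_ne_zero h6

end Pool.Agent.U153
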